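import Pool.Agent.XPS.Targets

set_option autoImplicit false

/-!
# XPS: the target BAS
-/

open scoped Classical

namespace Pool.Agent.XPS

open Pool.Agent.LRC

namespace BAS_

theorem sgz : sg 0 = 1 := by simp [sg]

theorem sgo : sg 1 = -1 := by
  unfold sg
  rw [if_neg (by decide)]

theorem sga (a b : ZMod 2) : sg (a + b) = sg a * sg b := by
  revert a b
  have h : ∀ a : ZMod 2, a = 0 ∨ a = 1 := by decide
  intro a b
  rcases h a with rfl | rfl <;> rcases h b with rfl | rfl
  · simp [sgz]
  · simp [sgz]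
  · simp [sgz]
  · have : (1 : ZMod 2) + 1 = 0 := by decide
    rw [this, sgz, sgo]
    norm_num

variable {V : Type} [AddCommGroup V] [Module (ZMod 2) V]

theorem add_self (x : V) : x + x = 0 := by
  have h : (2 : ZMod 2) • x = 0 := by
    have : (2 : ZMod 2) = 0 := by decide
    rw [this, zero_smul]
  rwa [two_smul] at h

theorem add_eq_zero (x y : V) : x + y = 0 ↔ y = x := by
  constructor
  · intro h
    have h2 := add_self x
    exact add_left_cancel (h.trans h2.symm)
  · rintro rfl
    exact add_self y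

variable [Fintype V]

/-- The autocorrelation. -/
theorem corr (hC : T_CHR) (s : V → ℝ) (hs : Bl s) (d : V) :
    ∑ x, s x * s (x + d) = if d = 0 then 1 else 0 := by
  obtain ⟨h0, -, -, -, hmul, hsum, -, -⟩ := hC V
  have h1 : av (fun l : Module.Dual (ZMod 2) V => ft s l ^ 2 * sg (l d)) =
      if d = 0 then 1 else 0 := by
    rw [← h0 d]
    congr 1
    funext l
    have : ft s l ^ 2 = 1 := by
      rcases hs l with h | h <;> rw [h] <;> norm_num
    rw [this, one_mul]
  have h2 : (fun l : Module.Dual (ZMod 2) V => ft s l ^ 2 * sg (l d)) =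
      fun l => ∑ x, ∑ y, (s x * s y) * sg (l (x + y + d)) := by
    funext l
    unfold ft
    rw [sq, Finset.sum_mul_sum, Finset.sum_mul]
    refine Finset.sum_congr rfl fun x _ => ?_
    rw [Finset.sum_mul]
    refine Finset.sum_congr rfl fun y _ => ?_
    rw [map_add, map_add, sga, sga]
    ring
  rw [h2, hsum] at h1
  rw [← h1]
  refine Finset.sum_congr rfl fun x _ => ?_
  rw [hsum]
  have h3 : ∀ y, av (fun l : Module.Dual (ZMod 2) V => s x * s y * sg (l (x + y + d))) =
      if y = x + d then s x * s y else 0 := by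
    intro y
    rw [hmul, h0]
    have e : (x + y + d = 0) ↔ y = x + d := by
      rw [show x + y + d = (x + d) + y by abel]
      exact add_eq_zero (x + d) y
    by_cases h : y = x + d
    · rw [if_pos (e.2 h), if_pos h, mul_one]
    · rw [if_neg (fun h' => h (e.1 h')), if_neg h, mul_zero]
  rw [Finset.sum_congr rfl fun y _ => h3 y, Finset.sum_ite_eq' Finset.univ (x + d),
    if_pos (Finset.mem_univ _)]

theorem parseval (hC : T_CHR) (s : V → ℝ) (hs : Bl s) : ∑ v, s v ^ 2 = 1 := by
  have h := corr hC s hs 0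
  rw [if_pos rfl] at h
  rw [← h]
  refine Finset.sum_congr rfl fun x _ => ?_
  rw [add_zero, sq]

theorem abs_le (hC : T_CHR) (s : V → ℝ) (hs : Bl s) (v : V) : |s v| ≤ 1 := by
  have h := parseval hC s hs
  have h1 : s v ^ 2 ≤ 1 := by
    rw [← h]
    exact Finset.single_le_sum (f := fun v => s v ^ 2) (fun i _ => sq_nonneg (s i))
      (Finset.mem_univ v)
  exact abs_le_one_iff_mul_self_le_one.2 (by rw [← sq]; exact h1)

/-- Restrictions are Boolean. -/
theorem bl_qs (s : V → ℝ) (W : Submodule (ZMod 2) V) [Fintype (V ⧸ W)]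
    (l : Module.Dual (ZMod 2) V) (hs : Bl s) : Bl (qs s W l) := by
  intro m
  have h : ft (qs s W l) m = ft s (l + m ∘ₗ W.mkQ) := by
    unfold ft qs
    have h1 : ∀ q : V ⧸ W, (∑ v, if W.mkQ v = q then s v * sg (l v) else 0) * sg (m q) =
        ∑ v, if W.mkQ v = q then s v * sg ((l + m ∘ₗ W.mkQ) v) else 0 := by
      intro q
      rw [Finset.sum_mul]
      refine Finset.sum_congr rfl fun v _ => ?_
      split_ifs with hq
      · rw [LinearMap.add_apply, LinearMap.comp_apply, hq, sga]
        ring
      · rw [zero_mul]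
    rw [Finset.sum_congr rfl fun q _ => h1 q, Finset.sum_comm]
    refine Finset.sum_congr rfl fun v _ => ?_
    rw [Finset.sum_ite_eq, if_pos (Finset.mem_univ _)]
  rw [h]
  exact hs _

theorem qs_mk (s : V → ℝ) (W : Submodule (ZMod 2) V) (l : Module.Dual (ZMod 2) V) (x : V) :
    qs s W l (W.mkQ x) = cs s W l x := by
  unfold qs cs
  refine Finset.sum_congr rfl fun v _ => ?_
  have e : W.mkQ v = W.mkQ x ↔ v + x ∈ W := by
    rw [Submodule.mkQ_apply, Submodule.mkQ_apply, Submodule.Quotient.eq]
    have h : -x = x := by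
      rw [neg_eq_iff_add_eq_zero]
      exact add_self x
    rw [sub_eq_add_neg, h]
  by_cases h : v + x ∈ W
  · rw [if_pos h, if_pos (e.2 h)]
  · rw [if_neg h, if_neg fun h' => h (e.1 h')]

end BAS_

open BAS_ in
theorem p_BAS : T_CHR → T_BAS := by
  intro hC V _ _ _ s hs
  refine ⟨parseval hC s hs, fun g hg => ?_, fun W l x => ?_, fun d => ?_, abs_le hC s hs⟩
  · rw [corr hC s hs g, if_neg hg]
  · have : Fintype (V ⧸ W) := Fintype.ofFinite _
    rw [← qs_mk]
    exact abs_le hC _ (bl_qs s W l hs) _
  · have h : ∀ x : V, ∑ y, s x * s y * s (d + x + y) = if x = d then s x else 0 := by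
      intro x
      have h1 := corr hC s hs (d + x)
      have h2 : ∑ y, s x * s y * s (d + x + y) = s x * ∑ y, s y * s (y + (d + x)) := by
        rw [Finset.mul_sum]
        refine Finset.sum_congr rfl fun y _ => ?_
        rw [mul_assoc, add_comm y (d + x)]
      rw [h2, h1]
      have e : d + x = 0 ↔ x = d := add_eq_zero d x
      by_cases hx : x = d
      · rw [if_pos (e.2 hx), if_pos hx, mul_one]
      · rw [if_neg fun h' => hx (e.1 h'), if_neg hx, mul_zero]
    rw [Finset.sum_congr rfl fun x _ => h x, Finset.sum_ite_eq', if_pos (Finset.mem_univ _)]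

end Pool.Agent.XPS
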