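import Pool.Agent.XPS.Targets

set_option autoImplicit false

/-!
# XPS BER: random subsets
-/

open scoped Classical

noncomputable section

namespace Pool.Agent.XPS

namespace BER_

variable {α : Type}

theorem be_congr {p : ℝ} {A : Finset α} {F G : Finset α → ℝ} (h : ∀ Y ⊆ A, F Y = G Y) :
    be p A F = be p A G := by
  unfold be
  exact Finset.sum_congr rfl fun Y hY => by rw [h Y (Finset.mem_powerset.1 hY)]

theorem be_add (p : ℝ) (A : Finset α) (F G : Finset α → ℝ) :
    be p A (fun Y => F Y + G Y) = be p A F + be p A G := by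
  unfold be
  rw [← Finset.sum_add_distrib]
  exact Finset.sum_congr rfl fun Y _ => by ring

theorem be_mul (p : ℝ) (A : Finset α) (c : ℝ) (F : Finset α → ℝ) :
    be p A (fun Y => c * F Y) = c * be p A F := by
  unfold be
  rw [Finset.mul_sum]
  exact Finset.sum_congr rfl fun Y _ => by ring

theorem be_sum (p : ℝ) (A : Finset α) {ι : Type} (I : Finset ι) (F : ι → Finset α → ℝ) :
    be p A (fun Y => ∑ i ∈ I, F i Y) = ∑ i ∈ I, be p A (F i) := by
  unfold be
  rw [Finset.sum_comm]
  exact Finset.sum_congr rfl fun Y _ => by rw [Finset.mul_sum]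

theorem be_empty (p : ℝ) (F : Finset α → ℝ) : be p ∅ F = F ∅ := by
  unfold be bw
  simp

theorem be_insert (p : ℝ) {A : Finset α} {a : α} (ha : a ∉ A) (F : Finset α → ℝ) :
    be p (insert a A) F = (1 - p) * be p A F + p * be p A (fun Y => F (insert a Y)) := by
  unfold be
  rw [Finset.sum_powerset_insert ha, Finset.mul_sum, Finset.mul_sum]
  congr 1
  · refine Finset.sum_congr rfl fun Y hY => ?_
    have h1 : Y.card ≤ A.card := Finset.card_le_card (Finset.mem_powerset.1 hY)
    have h2 : (insert a A).card - Y.card = (A.card - Y.card) + 1 := by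
      rw [Finset.card_insert_of_notMem ha]
      omega
    unfold bw
    rw [h2, pow_succ]
    ring
  · refine Finset.sum_congr rfl fun Y hY => ?_
    have h0 : a ∉ Y := fun h => ha (Finset.mem_powerset.1 hY h)
    have h2 : (insert a A).card - (insert a Y).card = A.card - Y.card := by
      rw [Finset.card_insert_of_notMem ha, Finset.card_insert_of_notMem h0]
      omega
    unfold bw
    rw [h2, Finset.card_insert_of_notMem h0, pow_succ]
    ring

theorem be_one (p : ℝ) (A : Finset α) : be p A (fun _ => 1) = 1 := by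
  induction A using Finset.induction_on with
  | empty => rw [be_empty]
  | insert a A ha ih => rw [be_insert p ha, ih]; ring

theorem be_const (p : ℝ) (A : Finset α) (c : ℝ) : be p A (fun _ => c) = c := by
  have h1 := be_mul p A c (fun _ => 1)
  rw [be_one, mul_one] at h1
  simpa using h1

theorem be_sub (p : ℝ) (A : Finset α) (B : Finset α) (hB : B ⊆ A) :
    be p A (fun Y => if B ⊆ Y then 1 else 0) = p ^ B.card := by
  induction A using Finset.induction_on generalizing B with
  | empty =>
    rw [Finset.subset_empty.1 hB, be_empty]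
    simp
  | insert a A ha ih =>
    rw [be_insert p ha]
    by_cases haB : a ∈ B
    · have h1 : B.erase a ⊆ A := by
        intro b hb
        rw [Finset.mem_erase] at hb
        rcases Finset.mem_insert.1 (hB hb.2) with h | h
        · exact absurd h hb.1
        · exact h
      have h2 : be p A (fun Y => if B ⊆ Y then (1 : ℝ) else 0) = 0 := by
        rw [be_congr (G := fun _ => 0), be_const]
        intro Y hY
        exact if_neg fun h => ha (hY (h haB))
      have h3 : be p A (fun Y => if B ⊆ insert a Y then (1 : ℝ) else 0) =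
          p ^ (B.erase a).card := by
        rw [← ih _ h1]
        refine be_congr fun Y _ => ?_
        by_cases h : B.erase a ⊆ Y
        · rw [if_pos h, if_pos]
          rwa [Finset.subset_insert_iff]
        · rw [if_neg h, if_neg]
          rwa [Finset.subset_insert_iff]
      rw [h2, h3, mul_zero, zero_add]
      have h4 : B.card = (B.erase a).card + 1 := (Finset.card_erase_add_one haB).symm
      rw [h4, pow_succ]
      ring
    · have h1 : B ⊆ A := by
        intro b hb
        rcases Finset.mem_insert.1 (hB hb) with h | h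
        · exact absurd (h ▸ hb) haB
        · exact h
      have h3 : be p A (fun Y => if B ⊆ insert a Y then (1 : ℝ) else 0) = p ^ B.card := by
        rw [← ih _ h1]
        refine be_congr fun Y _ => ?_
        by_cases h : B ⊆ Y
        · rw [if_pos h, if_pos (h.trans (Finset.subset_insert _ _))]
        · rw [if_neg h, if_neg]
          intro h'
          apply h
          rwa [Finset.subset_insert_iff, Finset.erase_eq_of_notMem haB] at h'
      rw [h3, ih _ h1]
      ring

theorem be_lin (p : ℝ) (A : Finset α) (w : α → ℝ) :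
    be p A (fun Y => ∑ a ∈ Y, w a) = p * ∑ a ∈ A, w a := by
  induction A using Finset.induction_on with
  | empty => rw [be_empty]; simp
  | insert a A ha ih =>
    have h1 : be p A (fun Y => ∑ b ∈ insert a Y, w b) = w a + p * ∑ b ∈ A, w b := by
      rw [← ih, ← be_const p A (w a), ← be_add]
      refine be_congr fun Y hY => ?_
      rw [Finset.sum_insert fun h => ha (hY h)]
    rw [be_insert p ha, h1, ih, Finset.sum_insert ha]
    ring

theorem be_quad (p : ℝ) (A : Finset α) (w : α → α → ℝ) :
    be p A (fun Y => ∑ a ∈ Y, ∑ b ∈ Y, w a b) =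
      p ^ 2 * ∑ a ∈ A, ∑ b ∈ A, w a b + p * (1 - p) * ∑ a ∈ A, w a a := by
  induction A using Finset.induction_on with
  | empty => rw [be_empty]; simp
  | insert c A hc ih =>
    have h1 : be p A (fun Y => ∑ a ∈ insert c Y, ∑ b ∈ insert c Y, w a b) =
        w c c + (p * ∑ b ∈ A, (w c b + w b c)) +
          be p A (fun Y => ∑ a ∈ Y, ∑ b ∈ Y, w a b) := by
      rw [← be_lin, ← be_const p A (w c c), ← be_add, ← be_add]
      refine be_congr fun Y hY => ?_
      have h0 : c ∉ Y := fun h => hc (hY h)
      rw [Finset.sum_insert h0, Finset.sum_insert h0,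
        Finset.sum_congr rfl (fun a _ => Finset.sum_insert (f := fun b => w a b) h0),
        Finset.sum_add_distrib, Finset.sum_add_distrib]
      ring
    have h2 : ∑ a ∈ insert c A, ∑ b ∈ insert c A, w a b =
        w c c + ∑ b ∈ A, (w c b + w b c) + ∑ a ∈ A, ∑ b ∈ A, w a b := by
      rw [Finset.sum_insert hc, Finset.sum_insert hc,
        Finset.sum_congr rfl (fun a _ => Finset.sum_insert (f := fun b => w a b) hc),
        Finset.sum_add_distrib, Finset.sum_add_distrib]
      ring
    rw [be_insert p hc, h1, ih, h2, Finset.sum_insert hc]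
    ring

theorem be_var (p : ℝ) (A : Finset α) (w : α → ℝ) :
    be p A (fun Y => (∑ a ∈ Y, w a - p * ∑ a ∈ A, w a) ^ 2) =
      p * (1 - p) * ∑ a ∈ A, w a ^ 2 := by
  set S := ∑ a ∈ A, w a with hS
  have h1 : be p A (fun Y => (∑ a ∈ Y, w a - p * S) ^ 2) =
      be p A (fun Y => ((∑ a ∈ Y, ∑ b ∈ Y, w a * w b) + (-(2 * p * S)) * ∑ a ∈ Y, w a) +
        (p * S) ^ 2) := by
    refine be_congr fun Y _ => ?_
    rw [← Finset.sum_mul_sum]
    ring
  rw [h1, be_add, be_add, be_mul, be_lin, be_quad, be_const, ← Finset.sum_mul_sum, ← hS]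
  have h2 : ∑ a ∈ A, w a * w a = ∑ a ∈ A, w a ^ 2 :=
    Finset.sum_congr rfl fun a _ => by ring
  rw [h2]
  ring

theorem be_int (p : ℝ) (A : Finset α) (B : Finset α) (hB : B ⊆ A) :
    be p A (fun Y => ((Y ∩ B).card : ℝ)) = p * (B.card : ℝ) := by
  have h1 : ∀ Y : Finset α, ((Y ∩ B).card : ℝ) = ∑ a ∈ Y, (if a ∈ B then (1 : ℝ) else 0) := by
    intro Y
    rw [Finset.sum_ite_mem, Finset.sum_const, nsmul_eq_mul, mul_one]
  have h2 : A ∩ B = B := Finset.inter_eq_right.2 hB
  rw [be_congr (G := fun Y => ∑ a ∈ Y, (if a ∈ B then (1 : ℝ) else 0)) fun Y _ => h1 Y,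
    be_lin, ← h1, h2]

theorem be_erase (p : ℝ) (A : Finset α) (a : α) (ha : a ∈ A) (F : Finset α → ℝ) :
    be p A (fun Y => if a ∈ Y then F (Y.erase a) else 0) =
      p * be p A (fun Y => F (Y.erase a)) := by
  have h0 : a ∉ A.erase a := Finset.notMem_erase a A
  have hA : insert a (A.erase a) = A := Finset.insert_erase ha
  rw [← hA, be_insert p h0, be_insert p h0]
  have h1 : be p (A.erase a) (fun Y => if a ∈ Y then F (Y.erase a) else 0) = 0 := by
    rw [be_congr (G := fun _ => 0), be_const]
    intro Y hY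
    exact if_neg fun h => h0 (hY h)
  have h2 : be p (A.erase a) (fun Y => if a ∈ insert a Y then F ((insert a Y).erase a) else 0) =
      be p (A.erase a) F := by
    refine be_congr fun Y hY => ?_
    rw [if_pos (Finset.mem_insert_self a Y), Finset.erase_insert fun h => h0 (hY h)]
  have h3 : be p (A.erase a) (fun Y => F ((insert a Y).erase a)) = be p (A.erase a) F := by
    refine be_congr fun Y hY => ?_
    rw [Finset.erase_insert fun h => h0 (hY h)]
  have h4 : be p (A.erase a) (fun Y => F (Y.erase a)) = be p (A.erase a) F := by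
    refine be_congr fun Y hY => ?_
    rw [Finset.erase_eq_of_notMem fun h => h0 (hY h)]
  rw [h1, h2, h3, h4]
  ring

theorem bw_nonneg {p : ℝ} (hp : 0 ≤ p) (hp1 : p ≤ 1) (A Y : Finset α) : 0 ≤ bw p A Y :=
  mul_nonneg (pow_nonneg hp _) (pow_nonneg (by linarith) _)

theorem be_mono {p : ℝ} (hp : 0 ≤ p) (hp1 : p ≤ 1) (A : Finset α) (F G : Finset α → ℝ)
    (h : ∀ Y ⊆ A, F Y ≤ G Y) : be p A F ≤ be p A G := by
  unfold be
  exact Finset.sum_le_sum fun Y hY =>
    mul_le_mul_of_nonneg_left (h Y (Finset.mem_powerset.1 hY)) (bw_nonneg hp hp1 A Y)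

theorem be_exists {p : ℝ} (hp : 0 ≤ p) (hp1 : p ≤ 1) (A : Finset α) (F : Finset α → ℝ) :
    ∃ Y ⊆ A, be p A F ≤ F Y := by
  obtain ⟨Y, hY, hmax⟩ := Finset.exists_max_image A.powerset F ⟨∅, Finset.empty_mem_powerset A⟩
  refine ⟨Y, Finset.mem_powerset.1 hY, ?_⟩
  calc be p A F ≤ be p A (fun _ => F Y) :=
        be_mono hp hp1 A _ _ fun Z hZ => hmax Z (Finset.mem_powerset.2 hZ)
    _ = F Y := be_const p A _

end BER_

open BER_

theorem p_BER : T_BER := by
  intro α p A hp hp1
  exact ⟨be_one p A, be_sub p A, be_int p A, be_lin p A, be_var p A, be_quad p A,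
    be_erase p A, be_mono hp hp1 A, be_add p A, be_mul p A, fun ι I F => be_sum p A I F,
    be_exists hp hp1 A⟩

end Pool.Agent.XPS
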