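import Pool.Agent.XPS.Targets

set_option autoImplicit false

/-!
# XPS: random blocks (BLK)
-/

open scoped Classical

noncomputable section

namespace Pool.Agent.XPS

namespace BLK_

variable {V : Type} [AddCommGroup V] [Module (ZMod 2) V] [Fintype V]

/-- A weighted average argument. -/
lemma exists_le {α : Type} [Fintype α] (w f : α → ℝ) (c : ℝ) (hw : ∀ a, 0 ≤ w a)
    (h1 : ∑ a, w a = 1) (h : ∑ a, w a * f a ≤ c) : ∃ a, w a ≠ 0 ∧ f a ≤ c := by
  by_contra hcon
  push Not at hcon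
  have h2 : ∑ a, w a * (f a - c) ≤ 0 := by
    have : ∑ a, w a * (f a - c) = ∑ a, w a * f a - c * ∑ a, w a := by
      rw [Finset.mul_sum, ← Finset.sum_sub_distrib]
      exact Finset.sum_congr rfl fun a _ => by ring
    rw [this, h1]; linarith
  have h3 : 0 < ∑ a, w a * (f a - c) := by
    have hex : ∃ a, w a ≠ 0 := by
      by_contra hno
      push Not at hno
      rw [Finset.sum_congr rfl fun a _ => hno a] at h1
      simp at h1
    obtain ⟨a₀, ha₀⟩ := hex
    refine Finset.sum_pos' (fun a _ => ?_) ⟨a₀, Finset.mem_univ _, ?_⟩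
    · by_cases ha : w a = 0
      · rw [ha, zero_mul]
      · exact mul_nonneg (hw a) (sub_nonneg.2 (hcon a ha).le)
    · exact mul_pos (lt_of_le_of_ne (hw a₀) (Ne.symm ha₀)) (sub_pos.2 (hcon a₀ ha₀))
  linarith

/-- The product weights have total mass one. -/
lemma prod_one {α : Type} [Fintype α] (w : α → ℝ) (h1 : ∑ a, w a = 1) (n : ℕ) :
    ∑ r : Fin n → α, ∏ i, w (r i) = 1 := by
  have h := Finset.prod_univ_sum (fun _ : Fin n => (Finset.univ : Finset α)) (fun _ a => w a)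
  rw [Fintype.piFinset_univ] at h
  rw [← h]
  simp [h1]

/-- Splitting off one coordinate. -/
lemma split {α : Type} [Fintype α] (w : α → ℝ) (n : ℕ) (j : Fin (n + 1))
    (F : (Fin (n + 1) → α) → ℝ) : ∑ ω : Fin (n + 1) → α, (∏ i, w (ω i)) * F ω =
      ∑ r : Fin n → α, (∏ i, w (r i)) * ∑ a, w a * F (Fin.insertNth j a r) := by
  have h := Equiv.sum_comp (Fin.insertNthEquiv (fun _ : Fin (n + 1) => α) j)
    (fun ω : Fin (n + 1) → α => (∏ i, w (ω i)) * F ω)
  rw [← h, Fintype.sum_prod_type, Finset.sum_comm]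
  refine Finset.sum_congr rfl fun r _ => ?_
  rw [Finset.mul_sum]
  refine Finset.sum_congr rfl fun a _ => ?_
  have h2 : (Fin.insertNthEquiv (fun _ : Fin (n + 1) => α) j) (a, r) =
      (Fin.insertNth j a r : Fin (n + 1) → α) := rfl
  rw [h2, Fin.prod_univ_succAbove _ j, Fin.insertNth_apply_same]
  have h3 : ∀ i : Fin n, (Fin.insertNth j a r : Fin (n + 1) → α) (j.succAbove i) = r i := by
    intro i
    rw [Fin.insertNth_apply_succAbove]
  rw [Finset.prod_congr rfl fun i _ => by rw [h3 i]]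
  ring

omit [Fintype V] in
lemma co_eq {Ω : Type} (U : Ω → Submodule (ZMod 2) V) (n : ℕ) (j : Fin (n + 1)) (a : Ω)
    (r : Fin n → Ω) : co (fun i => U ((Fin.insertNth j a r : Fin (n + 1) → Ω) i)) j =
      ⨆ k, U (r k) := by
  unfold co
  apply le_antisymm
  · refine iSup₂_le fun i hi => ?_
    obtain ⟨k, rfl⟩ := Fin.exists_succAbove_eq hi
    change U ((Fin.insertNth j a r : Fin (n + 1) → Ω) (j.succAbove k)) ≤ _
    rw [Fin.insertNth_apply_succAbove]
    exact le_iSup (fun k => U (r k)) k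
  · refine iSup_le fun k => ?_
    refine le_iSup₂_of_le (j.succAbove k) (Fin.succAbove_ne j k) ?_
    change _ ≤ U ((Fin.insertNth j a r : Fin (n + 1) → Ω) (j.succAbove k))
    rw [Fin.insertNth_apply_succAbove]

omit [AddCommGroup V] [Module (ZMod 2) V] [Fintype V] in
/-- The mean number of merged elements of one block. -/
lemma inner {Ω : Type} [Fintype Ω] (w : Ω → ℝ) (Z : Ω → Finset V) (τ : ℝ)
    (h2 : ∀ v, ∑ ω, (if v ∈ Z ω then w ω else 0) ≤ τ) (X : Finset V) :
    ∑ a, w a * ((Z a ∩ X).card : ℝ) ≤ (X.card : ℝ) * τ := by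
  have h : ∀ a, w a * ((Z a ∩ X).card : ℝ) = ∑ v ∈ X, if v ∈ Z a then w a else 0 := by
    intro a
    rw [← Finset.sum_filter, Finset.sum_const, nsmul_eq_mul]
    have : X.filter (fun v => v ∈ Z a) = Z a ∩ X := by
      ext v; simp only [Finset.mem_filter, Finset.mem_inter]; tauto
    rw [this]; ring
  rw [Finset.sum_congr rfl fun a _ => h a, Finset.sum_comm]
  calc ∑ v ∈ X, ∑ a, (if v ∈ Z a then w a else 0) ≤ ∑ _v ∈ X, τ :=
        Finset.sum_le_sum fun v _ => h2 v
    _ = (X.card : ℝ) * τ := by rw [Finset.sum_const, nsmul_eq_mul]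

end BLK_

open BLK_ in
theorem p_BLK : T_BLK := by
  intro V _ _ _ S s K M σ τ Dt Ω _ w U Z q z h0 hMB hK hσ hτ hw hw1 h1 h2 h3 h4 hLB
  -- the bound M is nonnegative
  have hM : 0 ≤ M := by
    have := hLB (fun _ => ⊥) (fun _ => ∅) (fun j z hz => by simp at hz)
    simpa using this
  rcases Nat.eq_zero_or_pos q with hq | hq
  · subst hq
    simp only [Nat.cast_zero, mul_zero, zero_mul]
    linarith
  rcases Nat.eq_zero_or_pos z with hz | hz
  · subst hz
    simp only [Nat.cast_zero, Real.sqrt_zero, mul_zero, zero_mul]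
    linarith
  obtain ⟨n, rfl⟩ : ∃ n, q = n + 1 := ⟨q - 1, by omega⟩
  obtain ⟨a₀, ha₀⟩ : ∃ a, w a ≠ 0 := by
    by_contra hno
    push Not at hno
    rw [Finset.sum_congr rfl fun a _ => hno a] at hw1
    simp at hw1
  -- one block
  have hone : ∀ j : Fin (n + 1), ∑ ω : Fin (n + 1) → Ω, (∏ i, w (ω i)) *
      ((Z (ω j) ∩ Mg S (co (fun i => U (ω i)) j)).card : ℝ) ≤ 2 * K * Dt * τ := by
    intro j
    rw [split w n j]
    have hr : ∀ r : Fin n → Ω, (∏ i, w (r i)) * ∑ a, w a *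
        ((Z ((Fin.insertNth j a r : Fin (n + 1) → Ω) j) ∩
          Mg S (co (fun i => U ((Fin.insertNth j a r : Fin (n + 1) → Ω) i)) j)).card : ℝ) ≤
        (∏ i, w (r i)) * (2 * K * Dt * τ) := by
      intro r
      by_cases hr0 : ∏ i, w (r i) = 0
      · rw [hr0, zero_mul, zero_mul]
      · refine mul_le_mul_of_nonneg_left ?_ (Finset.prod_nonneg fun i _ => hw _)
        have hrw : ∀ a, ((Z ((Fin.insertNth j a r : Fin (n + 1) → Ω) j) ∩
            Mg S (co (fun i => U ((Fin.insertNth j a r : Fin (n + 1) → Ω) i)) j)).card : ℝ) =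
            ((Z a ∩ Mg S (⨆ k, U (r k))).card : ℝ) := by
          intro a
          rw [co_eq, Fin.insertNth_apply_same]
        rw [Finset.sum_congr rfl fun a _ => by rw [hrw a]]
        refine (inner w Z τ h2 _).trans ?_
        refine mul_le_mul_of_nonneg_right ?_ hτ
        refine (hMB _).trans ?_
        have hfin : (Module.finrank (ZMod 2) (⨆ k, U (r k) : Submodule (ZMod 2) V) : ℝ) ≤ Dt := by
          have h5 := h3 (Fin.insertNth j a₀ r : Fin (n + 1) → Ω) (by
            intro i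
            by_cases hi : i = j
            · subst hi
              rw [Fin.insertNth_apply_same]; exact ha₀
            · obtain ⟨k, rfl⟩ := Fin.exists_succAbove_eq hi
              rw [Fin.insertNth_apply_succAbove]
              exact (Finset.prod_ne_zero_iff.1 hr0) k (Finset.mem_univ _))
          refine le_trans ?_ h5
          have hle : (⨆ k, U (r k) : Submodule (ZMod 2) V) ≤
              ⨆ i, U ((Fin.insertNth j a₀ r : Fin (n + 1) → Ω) i) := by
            refine iSup_le fun k => ?_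
            refine le_iSup_of_le (j.succAbove k) ?_
            rw [Fin.insertNth_apply_succAbove]
          exact_mod_cast Submodule.finrank_mono hle
        have h2K : 0 ≤ 2 * K := by linarith
        exact mul_le_mul_of_nonneg_left hfin h2K
    refine (Finset.sum_le_sum fun r _ => hr r).trans ?_
    rw [← Finset.sum_mul, prod_one w hw1 n, one_mul]
  -- all blocks
  have hall : ∑ ω : Fin (n + 1) → Ω, (∏ i, w (ω i)) *
      (∑ j, ((Z (ω j) ∩ Mg S (co (fun i => U (ω i)) j)).card : ℝ)) ≤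
      ((n + 1 : ℕ) : ℝ) * (2 * K * Dt * τ) := by
    have : ∑ ω : Fin (n + 1) → Ω, (∏ i, w (ω i)) *
        (∑ j, ((Z (ω j) ∩ Mg S (co (fun i => U (ω i)) j)).card : ℝ)) =
        ∑ j, ∑ ω : Fin (n + 1) → Ω, (∏ i, w (ω i)) *
          ((Z (ω j) ∩ Mg S (co (fun i => U (ω i)) j)).card : ℝ) := by
      rw [Finset.sum_comm]
      exact Finset.sum_congr rfl fun ω _ => Finset.mul_sum _ _ _
    rw [this]
    refine (Finset.sum_le_sum fun j _ => hone j).trans ?_
    rw [Finset.sum_const, nsmul_eq_mul, Finset.card_univ, Fintype.card_fin]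
  obtain ⟨ω, hω0, hω⟩ := exists_le (fun ω : Fin (n + 1) → Ω => ∏ i, w (ω i)) _ _
    (fun ω => Finset.prod_nonneg fun i _ => hw _) (prod_one w hw1 (n + 1)) hall
  have hωj : ∀ j, w (ω j) ≠ 0 := fun j => (Finset.prod_ne_zero_iff.1 hω0) j (Finset.mem_univ _)
  -- the reduced blocks
  let Z' : Fin (n + 1) → Finset V := fun j => Z (ω j) \ Mg S (co (fun i => U (ω i)) j)
  have hcard : ∀ j, ((Z' j).card : ℝ) = (z : ℝ) -
      ((Z (ω j) ∩ Mg S (co (fun i => U (ω i)) j)).card : ℝ) := by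
    intro j
    have h5 := Finset.card_sdiff_add_card_inter (Z (ω j)) (Mg S (co (fun i => U (ω i)) j))
    rw [(h1 _ (hωj j)).2.2.2] at h5
    have h6 : ((Z' j).card : ℝ) + ((Z (ω j) ∩ Mg S (co (fun i => U (ω i)) j)).card : ℝ) =
        (z : ℝ) := by
      exact_mod_cast h5
    linarith
  have hsum : (3 / 4 : ℝ) * ((n + 1 : ℕ) : ℝ) * (z : ℝ) ≤ ∑ j, ((Z' j).card : ℝ) := by
    rw [Finset.sum_congr rfl fun j _ => hcard j, Finset.sum_sub_distrib, Finset.sum_const,
      nsmul_eq_mul, Finset.card_univ, Fintype.card_fin]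
    have hn : (0 : ℝ) ≤ ((n + 1 : ℕ) : ℝ) := Nat.cast_nonneg _
    have h7 : ((n + 1 : ℕ) : ℝ) * (2 * K * Dt * τ) ≤ ((n + 1 : ℕ) : ℝ) * ((z : ℝ) / 4) :=
      mul_le_mul_of_nonneg_left (by linarith) hn
    linarith
  have hzle : ∀ j, ((Z' j).card : ℝ) ≤ z := by
    intro j
    rw [hcard j]
    have : (0 : ℝ) ≤ ((Z (ω j) ∩ Mg S (co (fun i => U (ω i)) j)).card : ℝ) := Nat.cast_nonneg _
    linarith
  have hmain := hLB (fun j => U (ω j)) Z' (by
    intro j v hv
    rw [Finset.mem_sdiff] at hv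
    obtain ⟨hZS, hZ0, hZU, -⟩ := h1 _ (hωj j)
    have hvS : v ∈ S := hZS hv.1
    have hv0 : v ≠ 0 := fun h => hZ0 (h ▸ hv.1)
    refine ⟨hvS, (hZU v hv.1).1, fun hco => hv.2 ?_, hv.2⟩
    unfold Mg
    rw [Finset.mem_filter]
    exact ⟨hvS, 0, h0, Ne.symm hv0, by rw [add_zero]; exact hco⟩)
  have hzpos : (0 : ℝ) < z := by exact_mod_cast hz
  have hsz : 0 < Real.sqrt z := Real.sqrt_pos.2 hzpos
  have hblock : ∀ j, σ * ((Z' j).card : ℝ) ≤ Real.sqrt (∑ v ∈ Z' j, s v ^ 2) * Real.sqrt z := by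
    intro j
    have h8 : σ ^ 2 * ((Z' j).card : ℝ) ≤ ∑ v ∈ Z' j, s v ^ 2 := by
      have : ∑ _v ∈ Z' j, σ ^ 2 ≤ ∑ v ∈ Z' j, s v ^ 2 := by
        refine Finset.sum_le_sum fun v hv => ?_
        rw [Finset.mem_sdiff] at hv
        have h9 := ((h1 _ (hωj j)).2.2.1 v hv.1).2
        rw [← sq_abs (s v)]
        exact pow_le_pow_left₀ hσ h9 2
      rw [Finset.sum_const, nsmul_eq_mul] at this
      linarith
    rw [← Real.sqrt_mul (Finset.sum_nonneg fun v _ => sq_nonneg _)]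
    apply Real.le_sqrt_of_sq_le
    have hc0 : (0 : ℝ) ≤ ((Z' j).card : ℝ) := Nat.cast_nonneg _
    calc (σ * ((Z' j).card : ℝ)) ^ 2 = (σ ^ 2 * ((Z' j).card : ℝ)) * ((Z' j).card : ℝ) := by ring
      _ ≤ (∑ v ∈ Z' j, s v ^ 2) * ((Z' j).card : ℝ) := mul_le_mul_of_nonneg_right h8 hc0
      _ ≤ (∑ v ∈ Z' j, s v ^ 2) * (z : ℝ) :=
        mul_le_mul_of_nonneg_left (hzle j) (Finset.sum_nonneg fun v _ => sq_nonneg _)
  have hfin : σ * ∑ j, ((Z' j).card : ℝ) ≤ M * Real.sqrt z := by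
    rw [Finset.mul_sum]
    refine (Finset.sum_le_sum fun j _ => hblock j).trans ?_
    rw [← Finset.sum_mul]
    exact mul_le_mul_of_nonneg_right hmain hsz.le
  have hfin2 : σ * ((3 / 4 : ℝ) * ((n + 1 : ℕ) : ℝ) * (z : ℝ)) ≤ M * Real.sqrt z :=
    (mul_le_mul_of_nonneg_left hsum hσ).trans hfin
  have hzz : (z : ℝ) = Real.sqrt z * Real.sqrt z := (Real.mul_self_sqrt hzpos.le).symm
  have hfin3 : (3 * ((n + 1 : ℕ) : ℝ) * Real.sqrt z * σ) * Real.sqrt z ≤
      (4 * M) * Real.sqrt z := by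
    have : (3 * ((n + 1 : ℕ) : ℝ) * Real.sqrt z * σ) * Real.sqrt z =
        4 * (σ * ((3 / 4 : ℝ) * ((n + 1 : ℕ) : ℝ) * (Real.sqrt z * Real.sqrt z))) := by ring
    rw [this, ← hzz]
    linarith
  exact le_of_mul_le_mul_right hfin3 hsz

end Pool.Agent.XPS
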