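import Pool.Agent.XPS.Targets

set_option autoImplicit false

/-!
# XPS: target BLP, the sums over independent blocks
-/

open scoped Classical

noncomputable section

namespace Pool.Agent.XPS

open Pool.Agent.LRC

namespace BLP_

theorem self_add {V : Type} [AddCommGroup V] [Module (ZMod 2) V] (v : V) : v + v = 0 := by
  rw [← two_smul (ZMod 2) v]
  have : (2 : ZMod 2) = 0 := by decide
  rw [this, zero_smul]

theorem cs_bot {V : Type} [AddCommGroup V] [Module (ZMod 2) V] [Fintype V] (s : V → ℝ) (x : V) :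
    cs s ⊥ (0 : Module.Dual (ZMod 2) V) x = s x := by
  unfold cs
  rw [Finset.sum_eq_single x]
  · rw [if_pos (by rw [self_add]; exact Submodule.zero_mem _)]
    simp [sg]
  · intro v _ hv
    rw [if_neg]
    intro h
    apply hv
    rw [Submodule.mem_bot] at h
    have := congrArg (fun z => z + x) h
    simp only [zero_add, add_assoc, self_add, add_zero] at this
    exact this
  · intro h
    exact absurd (Finset.mem_univ x) h

theorem be_abs (hB : T_BER) {α : Type} (p : ℝ) (A : Finset α) (hp : 0 ≤ p) (hp1 : p ≤ 1)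
    (F : Finset α → ℝ) (hF : ∀ Y, |F Y| ≤ 1) : |be p A F| ≤ 1 := by
  obtain ⟨h1, -, -, -, -, -, -, h8, -, h10, -, -⟩ := hB α p A hp hp1
  rw [abs_le]
  constructor
  · have h2 : be p A (fun Y => (-1 : ℝ) * 1) = -1 * be p A (fun _ => 1) := h10 (-1) (fun _ => 1)
    rw [h1] at h2
    have h3 := h8 (fun _ => (-1 : ℝ) * 1) F (fun Y _ => by linarith [(abs_le.1 (hF Y)).1])
    linarith
  · have h3 := h8 F (fun _ => 1) (fun Y _ => (abs_le.1 (hF Y)).2)
    linarith

end BLP_

open BLP_

/-- Target BLP. -/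
theorem p_BLP (hX : T_XTR) (hB : T_BER) : T_BLP := by
  intro D
  obtain ⟨C, c, ρ, hC, hρ, hc, hX⟩ := hX (max D 1) (le_max_right _ _)
  refine ⟨4 * C, by positivity, ?_⟩
  intro V _ _ _ s p hcs hp hp1 hcard ι _ U l x₀ hU
  have hs : ∀ v, |s v| ≤ 1 := by
    intro v
    have := hcs ⊥ 0 v
    rwa [cs_bot] at this
  have hcard' : ((Sp s).card : ℝ) * p ^ (max D 1) ≤ 1 := by
    refine le_trans ?_ hcard
    have : p ^ (max D 1) ≤ p ^ D := pow_le_pow_of_le_one hp.le hp1 (le_max_left _ _)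
    exact mul_le_mul_of_nonneg_left this (Nat.cast_nonneg _)
  have key : ∀ (κ : Type) [Fintype κ] (W : κ → Submodule (ZMod 2) V), iSupIndep W →
      |∑ j, (cs s (W j) l x₀ - s x₀ * sg (l x₀))| ≤ 2 * C / p := by
    intro κ _ W hW
    have h1 := hX V s p hs hp hp1 κ W l x₀ hW
    have h2 : |∑ i, c i / p * be (p * ρ i) (Finset.univ : Finset κ)
        (fun J => cs s (⨆ j ∈ J, W j) l x₀)| ≤ C / p := by
      refine (Finset.abs_sum_le_sum_abs _ _).trans ?_
      have : ∑ i, |c i / p * be (p * ρ i) (Finset.univ : Finset κ)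
          (fun J => cs s (⨆ j ∈ J, W j) l x₀)| ≤ ∑ i, |c i| / p := by
        refine Finset.sum_le_sum fun i _ => ?_
        rw [abs_mul, abs_div, abs_of_pos hp]
        have h3 := be_abs hB (p * ρ i) (Finset.univ : Finset κ) (mul_nonneg hp.le (hρ i).1)
          (mul_le_one₀ hp1 (hρ i).1 (hρ i).2) (fun J => cs s (⨆ j ∈ J, W j) l x₀)
          (fun Y => hcs _ _ _)
        have h4 : 0 ≤ |c i| / p := by positivity
        nlinarith
      refine this.trans ?_
      rw [← Finset.sum_div]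
      exact div_le_div_of_nonneg_right hc hp.le
    have h3 : C * (((Sp s).card : ℝ) * p ^ (max D 1)) ≤ C / p := by
      have h5 : C ≤ C / p := by
        rw [le_div_iff₀ hp]
        nlinarith
      nlinarith
    have h6 : 2 * C / p = C / p + C / p := by ring
    rw [abs_le] at h1 h2 ⊢
    constructor <;> linarith [h1.1, h1.2, h2.1, h2.2]
  set A : ι → ℝ := fun j => cs s (U j) l x₀ - s x₀ * sg (l x₀) with hA
  have k1 := key {j // 0 ≤ A j} (fun j => U j.1) (hU.comp Subtype.val_injective)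
  have k2 := key {j // ¬ 0 ≤ A j} (fun j => U j.1) (hU.comp Subtype.val_injective)
  have e1 : ∑ j : {j // 0 ≤ A j}, (cs s (U j.1) l x₀ - s x₀ * sg (l x₀)) =
      ∑ j ∈ Finset.univ.filter (fun j => 0 ≤ A j), A j :=
    (Finset.sum_subtype (Finset.univ.filter (fun j => 0 ≤ A j)) (by simp) A).symm
  have e2 : ∑ j : {j // ¬ 0 ≤ A j}, (cs s (U j.1) l x₀ - s x₀ * sg (l x₀)) =
      ∑ j ∈ Finset.univ.filter (fun j => ¬ 0 ≤ A j), A j :=
    (Finset.sum_subtype (Finset.univ.filter (fun j => ¬ 0 ≤ A j)) (by simp) A).symm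
  rw [e1] at k1
  rw [e2] at k2
  have e3 : ∑ j, |A j| = ∑ j ∈ Finset.univ.filter (fun j => 0 ≤ A j), A j -
      ∑ j ∈ Finset.univ.filter (fun j => ¬ 0 ≤ A j), A j := by
    rw [← Finset.sum_filter_add_sum_filter_not Finset.univ (fun j => 0 ≤ A j), sub_eq_add_neg,
      ← Finset.sum_neg_distrib]
    congr 1
    · refine Finset.sum_congr rfl fun j hj => ?_
      exact abs_of_nonneg (Finset.mem_filter.1 hj).2
    · refine Finset.sum_congr rfl fun j hj => ?_
      exact abs_of_neg (not_le.1 (Finset.mem_filter.1 hj).2)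
  rw [e3]
  have h6 : 4 * C / p = 2 * C / p + 2 * C / p := by ring
  rw [h6]
  linarith [(abs_le.1 k1).2, (abs_le.1 k2).1]

end Pool.Agent.XPS
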