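import Pool.Agent.XPS.Targets

set_option autoImplicit false

/-!
# XPS, target CB1: the first case of the regularity claim
-/

open scoped Classical

noncomputable section

namespace Pool.Agent.XPS

namespace CB1_

variable {V : Type} [AddCommGroup V] [Module (ZMod 2) V] [Fintype V]

theorem fr_mono {A B : Submodule (ZMod 2) V} (h : A ≤ B) :
    Module.finrank (ZMod 2) A ≤ Module.finrank (ZMod 2) B :=
  Submodule.finrank_mono h

/-- A maximal subset of `T` which is independent modulo `W`. -/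
theorem ext_basis (W : Submodule (ZMod 2) V) (T : Finset V) :
    ∃ B : Finset V, B ⊆ T ∧ LinearIndependent (ZMod 2) (fun t : B => W.mkQ (0 + (t : V))) ∧
      W ⊔ Submodule.span (ZMod 2) (T : Set V) ≤ W ⊔ Submodule.span (ZMod 2) (B : Set V) := by
  obtain ⟨κ, a, hinj, hspan, hli⟩ := exists_linearIndependent' (ZMod 2)
    (fun t : {t // t ∈ T} => W.mkQ (t : V))
  have : Finite κ := Finite.of_injective a hinj
  have : Fintype κ := Fintype.ofFinite κ
  have hinj2 : Function.Injective (fun k : κ => ((a k : {t // t ∈ T}) : V)) :=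
    Subtype.val_injective.comp hinj
  refine ⟨Finset.univ.image (fun k : κ => ((a k : {t // t ∈ T}) : V)), ?_, ?_, ?_⟩
  · intro t ht
    rw [Finset.mem_image] at ht
    obtain ⟨k, _, rfl⟩ := ht
    exact (a k).2
  · have hch : ∀ t : (Finset.univ.image (fun k : κ => ((a k : {t // t ∈ T}) : V)) : Finset V),
        ∃ k : κ, ((a k : {t // t ∈ T}) : V) = (t : V) := by
      intro t
      have := t.2
      rw [Finset.mem_image] at this
      obtain ⟨k, _, hk⟩ := this
      exact ⟨k, hk⟩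
    choose f hf using hch
    have hfinj : Function.Injective f := by
      intro t t' htt
      apply Subtype.ext
      rw [← hf t, ← hf t', htt]
    have := hli.comp f hfinj
    have heq : (fun t : (Finset.univ.image
        (fun k : κ => ((a k : {t // t ∈ T}) : V)) : Finset V) => W.mkQ (0 + (t : V))) =
        ((fun t : {t // t ∈ T} => W.mkQ (t : V)) ∘ a) ∘ f := by
      funext t
      simp only [Function.comp_apply, zero_add]
      rw [hf t]
    rw [heq]
    exact this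
  · refine sup_le le_sup_left ?_
    rw [Submodule.span_le]
    intro t ht
    have ht' : t ∈ T := ht
    have h1 : W.mkQ t ∈ Submodule.span (ZMod 2)
        (Set.range (fun t : {t // t ∈ T} => W.mkQ (t : V))) :=
      Submodule.subset_span ⟨⟨t, ht'⟩, rfl⟩
    rw [← hspan] at h1
    have h2 : Submodule.span (ZMod 2)
        (Set.range ((fun t : {t // t ∈ T} => W.mkQ (t : V)) ∘ a)) ≤
        (Submodule.span (ZMod 2) ((Finset.univ.image
          (fun k : κ => ((a k : {t // t ∈ T}) : V)) : Finset V) : Set V)).map W.mkQ := by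
      rw [Submodule.span_le]
      rintro _ ⟨k, rfl⟩
      refine Submodule.mem_map.mpr ⟨((a k : {t // t ∈ T}) : V), ?_, rfl⟩
      apply Submodule.subset_span
      simp only [Finset.coe_image, Finset.coe_univ, Set.image_univ]
      exact ⟨k, rfl⟩
    have h3 := h2 h1
    have h4 : t ∈ ((Submodule.span (ZMod 2) ((Finset.univ.image
          (fun k : κ => ((a k : {t // t ∈ T}) : V)) : Finset V) : Set V)).map W.mkQ).comap
          W.mkQ := h3
    rw [Submodule.comap_map_mkQ] at h4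
    exact h4

/-- The rank of the union of the blocks. -/
theorem fr_union (s : V → ℝ) (σ ρ y : ℝ) (m : ℕ) (hR : Rch s σ 0 m ρ) (L : Finset V)
    (Y Z : V → Finset V)
    (h : ∀ d ∈ L, ((Y d).card : ℝ) ≤ y ∧
      ∀ t ∈ Z d, m ≤ rk ((Y d).filter (fun g => σ ≤ |s (t + g)|))) :
    (Module.finrank (ZMod 2) (⨆ d ∈ L, (Submodule.span (ZMod 2) (Y d : Set V) ⊔
      Submodule.span (ZMod 2) (Z d : Set V)) : Submodule (ZMod 2) V) : ℝ) ≤
      ρ + y * (L.card : ℝ) := by
  obtain ⟨W, hW⟩ : ∃ W : Submodule (ZMod 2) V,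
      W = Submodule.span (ZMod 2) ((L.biUnion Y : Finset V) : Set V) := ⟨_, rfl⟩
  obtain ⟨B, hBT, hBli, hBsp⟩ := ext_basis W (L.biUnion Z)
  have hY : ∀ d ∈ L, ∀ g ∈ Y d, g ∈ W := by
    intro d hd g hg
    rw [hW]
    apply Submodule.subset_span
    exact Finset.mem_coe.mpr (Finset.mem_biUnion.mpr ⟨d, hd, hg⟩)
  have hBc : (B.card : ℝ) ≤ ρ := by
    apply hR W B hBli
    intro t ht
    have ht' := hBT ht
    rw [Finset.mem_biUnion] at ht'
    obtain ⟨d, hd, htd⟩ := ht'
    refine le_trans ((h d hd).2 t htd) ?_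
    unfold rk
    apply fr_mono
    apply Submodule.span_mono
    intro g hg
    rw [Finset.mem_coe, Finset.mem_filter] at hg
    rw [Finset.mem_coe]
    unfold nb
    rw [Finset.mem_filter]
    exact ⟨Finset.mem_univ _, hY d hd g hg.1, hg.2⟩
  have hWc : (Module.finrank (ZMod 2) W : ℝ) ≤ y * (L.card : ℝ) := by
    have h1 : Module.finrank (ZMod 2) W ≤ (L.biUnion Y).card := by
      rw [hW]
      exact finrank_span_finset_le_card _
    have h2 : (L.biUnion Y).card ≤ ∑ d ∈ L, (Y d).card := Finset.card_biUnion_le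
    have h3 : ((∑ d ∈ L, (Y d).card : ℕ) : ℝ) ≤ y * (L.card : ℝ) := by
      push_cast
      calc ∑ d ∈ L, ((Y d).card : ℝ) ≤ ∑ _d ∈ L, y := Finset.sum_le_sum (fun d hd => (h d hd).1)
        _ = y * (L.card : ℝ) := by rw [Finset.sum_const, nsmul_eq_mul]; ring
    have h4 : (Module.finrank (ZMod 2) W : ℝ) ≤ ((∑ d ∈ L, (Y d).card : ℕ) : ℝ) := by
      exact_mod_cast le_trans h1 h2
    linarith
  have hle : (⨆ d ∈ L, (Submodule.span (ZMod 2) (Y d : Set V) ⊔
      Submodule.span (ZMod 2) (Z d : Set V)) : Submodule (ZMod 2) V) ≤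
      W ⊔ Submodule.span (ZMod 2) (B : Set V) := by
    refine le_trans ?_ hBsp
    refine iSup₂_le fun d hd => sup_le ?_ ?_
    · refine le_trans ?_ le_sup_left
      rw [Submodule.span_le]
      intro g hg
      exact hY d hd g hg
    · refine le_trans ?_ le_sup_right
      apply Submodule.span_mono
      intro g hg
      exact Finset.mem_coe.mpr (Finset.mem_biUnion.mpr ⟨d, hd, hg⟩)
  have h5 : Module.finrank (ZMod 2) (⨆ d ∈ L, (Submodule.span (ZMod 2) (Y d : Set V) ⊔
      Submodule.span (ZMod 2) (Z d : Set V)) : Submodule (ZMod 2) V) ≤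
      Module.finrank (ZMod 2) W + B.card := by
    refine le_trans (fr_mono hle) ?_
    refine le_trans (Submodule.finrank_add_le_finrank_add_finrank _ _) ?_
    have := finrank_span_finset_le_card (R := ZMod 2) B
    unfold Set.finrank at this
    omega
  have h6 : (Module.finrank (ZMod 2) (⨆ d ∈ L, (Submodule.span (ZMod 2) (Y d : Set V) ⊔
      Submodule.span (ZMod 2) (Z d : Set V)) : Submodule (ZMod 2) V) : ℝ) ≤
      (Module.finrank (ZMod 2) W : ℝ) + (B.card : ℝ) := by exact_mod_cast h5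
  linarith

/-- Adding blocks one at a time. -/
theorem fr_add {ι : Type} (W : Submodule (ZMod 2) V) (U : ι → Submodule (ZMod 2) V) (y : ℝ)
    (hU : ∀ i, (Module.finrank (ZMod 2) (W ⊔ U i : Submodule (ZMod 2) V) : ℝ) ≤
      (Module.finrank (ZMod 2) W : ℝ) + y) (J : Finset ι) :
    (Module.finrank (ZMod 2) (W ⊔ ⨆ j ∈ J, (W ⊔ U j) : Submodule (ZMod 2) V) : ℝ) ≤
      (Module.finrank (ZMod 2) W : ℝ) + y * (J.card : ℝ) := by
  induction J using Finset.induction_on with
  | empty =>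
    have h0 : (⨆ j ∈ (∅ : Finset ι), (W ⊔ U j) : Submodule (ZMod 2) V) = ⊥ :=
      le_bot_iff.mp (iSup₂_le fun j hj => absurd hj (Finset.notMem_empty j))
    rw [h0, sup_bot_eq, Finset.card_empty]
    simp
  | insert j J hj ih =>
    rw [Finset.iSup_insert, Finset.card_insert_of_notMem hj]
    have h1 : (W ⊔ ((W ⊔ U j) ⊔ ⨆ x ∈ J, (W ⊔ U x)) : Submodule (ZMod 2) V) =
        (W ⊔ ⨆ x ∈ J, (W ⊔ U x)) ⊔ (W ⊔ U j) := by
      rw [sup_left_comm, sup_comm]
    rw [h1]
    have h2 := Submodule.finrank_sup_add_finrank_inf_eq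
      (W ⊔ ⨆ x ∈ J, (W ⊔ U x) : Submodule (ZMod 2) V) (W ⊔ U j)
    have h3 : Module.finrank (ZMod 2) W ≤ Module.finrank (ZMod 2)
        ((W ⊔ ⨆ x ∈ J, (W ⊔ U x)) ⊓ (W ⊔ U j) : Submodule (ZMod 2) V) :=
      fr_mono (le_inf le_sup_left le_sup_left)
    have h4 := hU j
    have h2' : (Module.finrank (ZMod 2)
        ((W ⊔ ⨆ x ∈ J, (W ⊔ U x)) ⊔ (W ⊔ U j) : Submodule (ZMod 2) V) : ℝ) +
        (Module.finrank (ZMod 2)
        ((W ⊔ ⨆ x ∈ J, (W ⊔ U x)) ⊓ (W ⊔ U j) : Submodule (ZMod 2) V) : ℝ) =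
        (Module.finrank (ZMod 2) (W ⊔ ⨆ x ∈ J, (W ⊔ U x) : Submodule (ZMod 2) V) : ℝ) +
        (Module.finrank (ZMod 2) (W ⊔ U j : Submodule (ZMod 2) V) : ℝ) := by exact_mod_cast h2
    have h3' : (Module.finrank (ZMod 2) W : ℝ) ≤ (Module.finrank (ZMod 2)
        ((W ⊔ ⨆ x ∈ J, (W ⊔ U x)) ⊓ (W ⊔ U j) : Submodule (ZMod 2) V) : ℝ) := by
      exact_mod_cast h3
    push_cast
    linarith

end CB1_

open CB1_

theorem p_CB1 (hBLK : T_BLK) (hGRD : T_GRD) : T_CB1 := by
  intro V _ _ _ S s K M σ τ ρ y m q z Dd Y Z h0 hMB hK hσ hτ hne hy hρ hR hL hD hv hz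
  obtain ⟨U, hU⟩ : ∃ U : {d // d ∈ Dd} → Submodule (ZMod 2) V,
      U = fun d : {d // d ∈ Dd} => Submodule.span (ZMod 2) (Y (d : V) : Set V) ⊔
        Submodule.span (ZMod 2) (Z (d : V) : Set V) := ⟨_, rfl⟩
  have hcl : ∀ L : Finset {d // d ∈ Dd},
      (Module.finrank (ZMod 2) (⨆ ω ∈ L, U ω : Submodule (ZMod 2) V) : ℝ) ≤
        ρ + y * (L.card : ℝ) := by
    intro L
    have h1 := fr_union s σ ρ y m hR (L.map (Function.Embedding.subtype _)) Y Z (by
      intro d hd
      rw [Finset.mem_map] at hd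
      obtain ⟨e, _, he⟩ := hd
      have hdD : d ∈ Dd := by
        rw [← he]
        exact e.2
      exact ⟨(hD d hdD).1, fun t ht => ((hD d hdD).2.2.2.2 t ht).2⟩)
    rw [Finset.card_map] at h1
    refine le_trans ?_ h1
    have h2 : (⨆ ω ∈ L, U ω : Submodule (ZMod 2) V) ≤
        ⨆ d ∈ L.map (Function.Embedding.subtype _), (Submodule.span (ZMod 2) (Y d : Set V) ⊔
        Submodule.span (ZMod 2) (Z d : Set V)) := by
      refine iSup₂_le fun ω hω => ?_
      rw [hU]
      exact le_iSup₂_of_le (f := fun d (_ : d ∈ L.map (Function.Embedding.subtype _)) =>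
        (Submodule.span (ZMod 2) (Y d : Set V) ⊔ Submodule.span (ZMod 2) (Z d : Set V)))
        (ω : V) (Finset.mem_map_of_mem _ hω) le_rfl
    exact_mod_cast fr_mono h2
  obtain ⟨W, hW1, hW2⟩ := hGRD V {d // d ∈ Dd} U ρ y hy hρ hcl
  have hDpos : (0 : ℝ) < (Dd.card : ℝ) := by exact_mod_cast hne.card_pos
  refine hBLK V S s K M σ τ (3 / 2 * ρ + 3 * q * y) {d // d ∈ Dd} (fun _ => 1 / (Dd.card : ℝ))
    (fun d => W ⊔ U d) (fun d => Z d) q z h0 hMB hK hσ.le hτ ?_ ?_ ?_ ?_ ?_ hz hL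
  · intro ω
    positivity
  · rw [Finset.sum_const, nsmul_eq_mul, Finset.card_univ, Fintype.card_coe]
    field_simp
  · intro ω _
    obtain ⟨g1, g2, g3, g4, g5⟩ := hD ω ω.2
    refine ⟨g2, g3, fun v hv => ⟨?_, (g5 v hv).1⟩, g4⟩
    refine Submodule.mem_sup_right ?_
    rw [hU]
    exact Submodule.mem_sup_right (Submodule.subset_span hv)
  · intro v
    have h1 := hv v
    have h2 : ∑ ω : {d // d ∈ Dd}, (if v ∈ Z ω then 1 / (Dd.card : ℝ) else 0) =
        ∑ d ∈ Dd, (if v ∈ Z d then 1 / (Dd.card : ℝ) else 0) :=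
      Finset.sum_coe_sort Dd (fun d => if v ∈ Z d then 1 / (Dd.card : ℝ) else 0)
    rw [h2, ← Finset.sum_filter, Finset.sum_const, nsmul_eq_mul, mul_one_div,
      div_le_iff₀ hDpos]
    exact h1
  · intro ω _
    have h1 := fr_add W (fun j : Fin q => U (ω j)) (3 * y) (fun j => hW2 (ω j)) Finset.univ
    have h2 : (⨆ j, (W ⊔ U (ω j)) : Submodule (ZMod 2) V) ≤
        W ⊔ ⨆ j ∈ (Finset.univ : Finset (Fin q)), (W ⊔ U (ω j)) := by
      refine le_trans ?_ le_sup_right
      refine iSup_le fun j => ?_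
      exact le_iSup₂_of_le (f := fun j (_ : j ∈ (Finset.univ : Finset (Fin q))) =>
        (W ⊔ U (ω j))) j (Finset.mem_univ j) le_rfl
    have h3 : (Module.finrank (ZMod 2) (⨆ j, (W ⊔ U (ω j)) : Submodule (ZMod 2) V) : ℝ) ≤
        (Module.finrank (ZMod 2) (W ⊔ ⨆ j ∈ (Finset.univ : Finset (Fin q)), (W ⊔ U (ω j)) :
          Submodule (ZMod 2) V) : ℝ) := by exact_mod_cast fr_mono h2
    rw [Finset.card_univ, Fintype.card_fin] at h1
    nlinarith [h1, h3, hW1]

end Pool.Agent.XPS
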