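import Pool.Agent.XPS.Targets

set_option autoImplicit false

/-!
# XPS: CB2, the second case of the regularity claim (MP_9f5962_lc)
-/

open scoped Classical

noncomputable section

namespace Pool.Agent.XPS

namespace CB2_

/-! ### Expectations -/

section Exp

variable {α : Type} {p : ℝ} {A : Finset α}

theorem bw_nonneg (h0 : 0 ≤ p) (h1 : p ≤ 1) (A Y : Finset α) : 0 ≤ bw p A Y := by
  unfold bw
  have h2 : 0 ≤ 1 - p := by linarith
  positivity

theorem be_mono (h0 : 0 ≤ p) (h1 : p ≤ 1) {F G : Finset α → ℝ}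
    (h : ∀ Y ⊆ A, F Y ≤ G Y) : be p A F ≤ be p A G := by
  unfold be
  refine Finset.sum_le_sum fun Y hY => ?_
  exact mul_le_mul_of_nonneg_left (h Y (Finset.mem_powerset.1 hY)) (bw_nonneg h0 h1 A Y)

theorem be_sub (F G : Finset α → ℝ) :
    be p A (fun Y => F Y - G Y) = be p A F - be p A G := by
  unfold be
  rw [← Finset.sum_sub_distrib]
  exact Finset.sum_congr rfl fun Y _ => by ring

theorem be_mul (a : ℝ) (F : Finset α → ℝ) :
    be p A (fun Y => a * F Y) = a * be p A F := by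
  unfold be
  rw [Finset.mul_sum]
  exact Finset.sum_congr rfl fun Y _ => by ring

theorem be_sum {ι : Type} (I : Finset ι) (F : ι → Finset α → ℝ) :
    be p A (fun Y => ∑ i ∈ I, F i Y) = ∑ i ∈ I, be p A (F i) := by
  unfold be
  rw [Finset.sum_comm]
  exact Finset.sum_congr rfl fun Y _ => by rw [Finset.mul_sum]

end Exp

/-! ### The weights of the triples -/

section Weights

variable {V : Type} [AddCommGroup V] [Module (ZMod 2) V] [Fintype V]

/-- The weight of a triple. -/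
def w0 (p : ℝ) (Dd : Finset V) (N Γ : V → Finset V) (ω : V × V × Finset V) : ℝ :=
  (if ω.1 ∈ Dd then 1 / (Dd.card : ℝ) else 0) *
    ((if ω.2.1 ∈ N ω.1 then 1 / ((N ω.1).card : ℝ) else 0) *
      (if ω.2.2 ⊆ Γ ω.1 then bw p (Γ ω.1) ω.2.2 else 0))

variable {p : ℝ} {Dd : Finset V} {N Γ : V → Finset V}

omit [AddCommGroup V] [Module (ZMod 2) V] [Fintype V] in
theorem w0_nonneg (h0 : 0 ≤ p) (h1 : p ≤ 1) (ω : V × V × Finset V) : 0 ≤ w0 p Dd N Γ ω := by
  unfold w0
  refine mul_nonneg ?_ (mul_nonneg ?_ ?_)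
  · split_ifs
    · positivity
    · exact le_rfl
  · split_ifs
    · positivity
    · exact le_rfl
  · split_ifs
    · exact bw_nonneg h0 h1 _ _
    · exact le_rfl

omit [AddCommGroup V] [Module (ZMod 2) V] [Fintype V] in
theorem w0_ne {ω : V × V × Finset V} (h : w0 p Dd N Γ ω ≠ 0) :
    ω.1 ∈ Dd ∧ ω.2.1 ∈ N ω.1 ∧ ω.2.2 ⊆ Γ ω.1 := by
  unfold w0 at h
  refine ⟨?_, ?_, ?_⟩
  · by_contra h1
    rw [if_neg h1, zero_mul] at h
    exact h rfl
  · by_contra h1
    rw [if_neg h1, zero_mul, mul_zero] at h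
    exact h rfl
  · by_contra h1
    rw [if_neg h1, mul_zero, mul_zero] at h
    exact h rfl

omit [AddCommGroup V] [Module (ZMod 2) V] in
theorem sum_w0 (p : ℝ) (Dd : Finset V) (N Γ : V → Finset V) (F : V × V × Finset V → ℝ) :
    ∑ ω, w0 p Dd N Γ ω * F ω =
      ∑ d ∈ Dd, 1 / (Dd.card : ℝ) * ∑ t ∈ N d, 1 / ((N d).card : ℝ) *
        be p (Γ d) (fun Y => F (d, t, Y)) := by
  have h1 : ∀ d t : V, ∑ Y : Finset V, w0 p Dd N Γ (d, t, Y) * F (d, t, Y) =
      (if d ∈ Dd then 1 / (Dd.card : ℝ) else 0) *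
        ((if t ∈ N d then 1 / ((N d).card : ℝ) else 0) *
          be p (Γ d) (fun Y => F (d, t, Y))) := by
    intro d t
    unfold w0 be
    have h2 : (Γ d).powerset = Finset.univ.filter (fun Y : Finset V => Y ⊆ Γ d) := by
      ext Y
      simp
    rw [h2, Finset.sum_filter, Finset.mul_sum, Finset.mul_sum]
    refine Finset.sum_congr rfl fun Y _ => ?_
    by_cases hY : Y ⊆ Γ d
    · simp only [hY, if_true]
      ring
    · simp only [hY, if_false]
      ring
  have h3 : ∀ d : V, ∑ x : V × Finset V, w0 p Dd N Γ (d, x) * F (d, x) =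
      (if d ∈ Dd then 1 / (Dd.card : ℝ) else 0) * ∑ t ∈ N d, 1 / ((N d).card : ℝ) *
        be p (Γ d) (fun Y => F (d, t, Y)) := by
    intro d
    rw [Fintype.sum_prod_type]
    simp only [h1]
    rw [← Finset.mul_sum]
    congr 1
    have h4 : N d = Finset.univ.filter (fun t : V => t ∈ N d) := by
      ext t
      simp
    conv_rhs => rw [h4, Finset.sum_filter]
    refine Finset.sum_congr rfl fun t _ => ?_
    by_cases ht : t ∈ N d
    · simp only [ht, if_true, Finset.filter_mem_eq_inter, Finset.univ_inter]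
    · simp only [ht, if_false, zero_mul]
  rw [Fintype.sum_prod_type]
  simp only [h3]
  have h4 : Dd = Finset.univ.filter (fun d : V => d ∈ Dd) := by
    ext d
    simp
  conv_rhs => rw [h4, Finset.sum_filter]
  refine Finset.sum_congr rfl fun d _ => ?_
  by_cases hd : d ∈ Dd
  · simp only [hd, if_true, Finset.filter_mem_eq_inter, Finset.univ_inter]
  · simp only [hd, if_false, zero_mul]

end Weights

/-! ### Dimensions -/

section Dim

variable {V : Type} [AddCommGroup V] [Module (ZMod 2) V] [Fintype V]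

theorem finrank_sup_le {ι : Type} (I : Finset ι) (U : ι → Submodule (ZMod 2) V) (m : ℕ)
    (h : ∀ i ∈ I, Module.finrank (ZMod 2) (U i) ≤ m) :
    Module.finrank (ZMod 2) (I.sup U : Submodule (ZMod 2) V) ≤ I.card * m := by
  induction I using Finset.induction_on with
  | empty => simp
  | insert a I ha ih =>
    rw [Finset.sup_insert, Finset.card_insert_of_notMem ha]
    have h1 := Submodule.finrank_add_le_finrank_add_finrank (U a) (I.sup U)
    have h2 := h a (Finset.mem_insert_self a I)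
    have h3 := ih fun i hi => h i (Finset.mem_insert_of_mem hi)
    calc _ ≤ Module.finrank (ZMod 2) (U a) +
          Module.finrank (ZMod 2) (I.sup U : Submodule (ZMod 2) V) := h1
      _ ≤ m + I.card * m := add_le_add h2 h3
      _ = (I.card + 1) * m := by ring

theorem finrank_iSup_le {q m : ℕ} (U : Fin q → Submodule (ZMod 2) V)
    (h : ∀ i, Module.finrank (ZMod 2) (U i) ≤ m) :
    Module.finrank (ZMod 2) (⨆ i, U i : Submodule (ZMod 2) V) ≤ q * m := by
  have h1 := finrank_sup_le Finset.univ U m fun i _ => h i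
  rw [Finset.sup_univ_eq_iSup, Finset.card_univ, Fintype.card_fin] at h1
  exact h1

omit [Fintype V] in
theorem finrank_cone (c : V) (Y : Finset V) (m : ℕ) (h : rk Y < m) :
    Module.finrank (ZMod 2)
      (Submodule.span (ZMod 2) {c} ⊔ Submodule.span (ZMod 2) (Y : Set V) :
        Submodule (ZMod 2) V) ≤ m := by
  have h1 := Submodule.finrank_add_le_finrank_add_finrank (Submodule.span (ZMod 2) {c})
    (Submodule.span (ZMod 2) (Y : Set V))
  have h2 : Module.finrank (ZMod 2) (Submodule.span (ZMod 2) ({c} : Set V)) ≤ 1 := by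
    have h3 := finrank_span_finset_le_card (R := ZMod 2) ({c} : Finset V)
    rw [Finset.card_singleton] at h3
    rwa [Finset.coe_singleton] at h3
  unfold rk at h
  omega

end Dim

/-! ### The main step -/

section Core

variable {V : Type} [AddCommGroup V] [Module (ZMod 2) V] [Fintype V]

/-- The event: small rank and many directions outside the hubs. -/
def Ev (Hu : Finset V) (G : V → V → Finset V) (m z : ℕ) (c : V → V → V)
    (ω : V × V × Finset V) : Prop :=
  rk (ω.2.2 ∩ G ω.1 ω.2.1) < m ∧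
    z ≤ ((ω.2.2 ∩ G ω.1 ω.2.1).filter (fun g => c ω.1 ω.2.1 + g ∉ Hu)).card

omit [Fintype V] in
theorem add_add_self (c g : V) : c + g + c = g := by
  have h : c + c = 0 := ZModModule.add_self c
  calc c + g + c = g + (c + c) := by abel
    _ = g := by rw [h, add_zero]

theorem core (hBER : T_BER) (hBLK : T_BLK) (S Hu : Finset V) (s : V → ℝ)
    (K M σ E₁ n₀ p : ℝ) (m q z : ℕ) (Dd : Finset V) (N Γ : V → Finset V)
    (G : V → V → Finset V) (c : V → V → V) (h0 : 0 ∈ S) (hMB : MB S K) (hK : 0 ≤ K)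
    (hσ : 0 < σ) (hne : Dd.Nonempty) (hn₀ : 0 < n₀) (hE : 0 ≤ E₁) (hp0 : 0 ≤ p) (hp1 : p ≤ 1)
    (hL : LBl S s q M) (hN : ∀ d ∈ Dd, n₀ ≤ ((N d).card : ℝ))
    (hc1 : ∀ d ∈ Dd, ∀ t ∈ N d, G d t ⊆ Γ d ∧ ∀ g ∈ G d t,
      c d t + g ∈ S ∧ c d t + g ≠ 0 ∧ σ ≤ |s (c d t + g)|)
    (hc2 : ∀ v ∈ S, v ∉ Hu →
      ∑ d ∈ Dd, (((N d).filter (fun t => v + c d t ∈ G d t)).card : ℝ) ≤ E₁)
    (hP : 1 / 4 ≤ ∑ ω, w0 p Dd N Γ ω * (if Ev Hu G m z c ω then 1 else 0))
    (hcond : 8 * K * (q * m) * (4 * p * E₁ / ((Dd.card : ℝ) * n₀)) ≤ z) :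
    3 * q * Real.sqrt z * σ ≤ 4 * M := by
  have hDc : 0 < (Dd.card : ℝ) := by exact_mod_cast hne.card_pos
  set P : ℝ := ∑ ω, w0 p Dd N Γ ω * (if Ev Hu G m z c ω then 1 else 0) with hPdef
  have hPpos : 0 < P := by linarith
  -- the sets `Z`
  have hZex : ∀ ω : V × V × Finset V, ∃ Z : Finset V,
      Z ⊆ ((ω.2.2 ∩ G ω.1 ω.2.1).filter (fun g => c ω.1 ω.2.1 + g ∉ Hu)).image
        (fun g => c ω.1 ω.2.1 + g) ∧ (Ev Hu G m z c ω → Z.card = z) := by
    intro ω
    by_cases hE : Ev Hu G m z c ω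
    · have h1 : z ≤ (((ω.2.2 ∩ G ω.1 ω.2.1).filter (fun g => c ω.1 ω.2.1 + g ∉ Hu)).image
          (fun g => c ω.1 ω.2.1 + g)).card := by
        rw [Finset.card_image_of_injective _ (add_right_injective _)]
        exact hE.2
      obtain ⟨Z, hZ1, hZ2⟩ := Finset.exists_subset_card_eq h1
      exact ⟨Z, hZ1, fun _ => hZ2⟩
    · exact ⟨∅, Finset.empty_subset _, fun h => absurd h hE⟩
  choose Z hZ1 hZ2 using hZex
  have hZmem : ∀ ω : V × V × Finset V, ∀ v ∈ Z ω, v ∉ Hu ∧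
      v + c ω.1 ω.2.1 ∈ ω.2.2 ∧ v + c ω.1 ω.2.1 ∈ G ω.1 ω.2.1 ∧
      c ω.1 ω.2.1 + (v + c ω.1 ω.2.1) = v := by
    intro ω v hv
    obtain ⟨g, hg, hgv⟩ := Finset.mem_image.1 (hZ1 ω hv)
    rw [Finset.mem_filter, Finset.mem_inter] at hg
    have h1 : v + c ω.1 ω.2.1 = g := by rw [← hgv, add_add_self]
    refine ⟨?_, ?_, ?_, ?_⟩
    · rw [← hgv]
      exact hg.2
    · rw [h1]
      exact hg.1.1
    · rw [h1]
      exact hg.1.2
    · rw [h1]
      exact hgv
  -- the weights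
  set w : V × V × Finset V → ℝ := fun ω =>
    w0 p Dd N Γ ω * (if Ev Hu G m z c ω then 1 else 0) / P with hw
  have hwE : ∀ ω, w ω ≠ 0 → w0 p Dd N Γ ω ≠ 0 ∧ Ev Hu G m z c ω := by
    intro ω hω
    refine ⟨?_, ?_⟩
    · intro h
      apply hω
      simp only [hw, h, zero_mul, zero_div]
    · by_contra h
      apply hω
      simp only [hw, h, if_false, mul_zero, zero_div]
  have hw4 : ∀ ω, w ω ≤ 4 * w0 p Dd N Γ ω := by
    intro ω
    have h1 := w0_nonneg (Dd := Dd) (N := N) (Γ := Γ) hp0 hp1 ω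
    have h2 : w0 p Dd N Γ ω * (if Ev Hu G m z c ω then 1 else 0) ≤ w0 p Dd N Γ ω := by
      split_ifs <;> linarith
    show w0 p Dd N Γ ω * (if Ev Hu G m z c ω then 1 else 0) / P ≤ 4 * w0 p Dd N Γ ω
    rw [div_le_iff₀ hPpos]
    calc _ ≤ w0 p Dd N Γ ω := h2
      _ = 4 * w0 p Dd N Γ ω * (1 / 4) := by ring
      _ ≤ 4 * w0 p Dd N Γ ω * P := mul_le_mul_of_nonneg_left hP (by linarith)
  have hwnn : ∀ ω, 0 ≤ w ω := by
    intro ω
    have h1 := w0_nonneg (Dd := Dd) (N := N) (Γ := Γ) hp0 hp1 ω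
    show 0 ≤ w0 p Dd N Γ ω * (if Ev Hu G m z c ω then 1 else 0) / P
    refine div_nonneg (mul_nonneg h1 ?_) hPpos.le
    split_ifs <;> norm_num
  have hwsum : ∑ ω, w ω = 1 := by
    show ∑ ω, w0 p Dd N Γ ω * (if Ev Hu G m z c ω then 1 else 0) / P = 1
    rw [← Finset.sum_div, ← hPdef]
    exact div_self hPpos.ne'
  set τ : ℝ := 4 * p * E₁ / ((Dd.card : ℝ) * n₀) with hτ
  have hτ0 : 0 ≤ τ := by
    rw [hτ]
    positivity
  refine hBLK V S s K M σ τ (q * m) (V × V × Finset V) w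
    (fun ω => Submodule.span (ZMod 2) {c ω.1 ω.2.1} ⊔
      Submodule.span (ZMod 2) ((ω.2.2 ∩ G ω.1 ω.2.1 : Finset V) : Set V)) Z q z h0 hMB hK hσ.le
    hτ0 hwnn hwsum ?_ ?_ ?_ hcond hL
  · -- properties of `Z ω`
    intro ω hω
    obtain ⟨hω0, hEv⟩ := hwE ω hω
    obtain ⟨hd, ht, -⟩ := w0_ne hω0
    have hprop := (hc1 ω.1 hd ω.2.1 ht).2
    refine ⟨?_, ?_, ?_, hZ2 ω hEv⟩
    · intro v hv
      obtain ⟨-, -, h3, h4⟩ := hZmem ω v hv
      rw [← h4]
      exact (hprop _ h3).1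
    · intro hv
      obtain ⟨-, -, h3, h4⟩ := hZmem ω 0 hv
      exact (hprop _ h3).2.1 h4
    · intro v hv
      obtain ⟨-, h2, h3, h4⟩ := hZmem ω v hv
      refine ⟨?_, ?_⟩
      · rw [← h4]
        refine Submodule.add_mem _ (Submodule.mem_sup_left
          (Submodule.subset_span (Set.mem_singleton _)))
          (Submodule.mem_sup_right (Submodule.subset_span ?_))
        exact Finset.mem_coe.2 (Finset.mem_inter.2 ⟨h2, h3⟩)
      · rw [← h4]
        exact (hprop _ h3).2.2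
  · -- the spread
    intro v
    by_cases hv : v ∈ S ∧ v ∉ Hu
    · have h1 : ∀ ω : V × V × Finset V, (if v ∈ Z ω then w ω else 0) ≤
          w0 p Dd N Γ ω * (if v + c ω.1 ω.2.1 ∈ G ω.1 ω.2.1 then
            (4 * (if {v + c ω.1 ω.2.1} ⊆ ω.2.2 then 1 else 0)) else 0) := by
        intro ω
        by_cases hvZ : v ∈ Z ω
        · obtain ⟨-, h2, h3, -⟩ := hZmem ω v hvZ
          rw [if_pos hvZ, if_pos h3, if_pos (Finset.singleton_subset_iff.2 h2)]
          have := hw4 ω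
          linarith
        · rw [if_neg hvZ]
          refine mul_nonneg (w0_nonneg hp0 hp1 ω) ?_
          split_ifs <;> norm_num
      have h2 : ∀ d ∈ Dd, ∀ t ∈ N d, be p (Γ d) (fun Y => if v + c d t ∈ G d t then
          (4 * (if {v + c d t} ⊆ Y then (1 : ℝ) else 0)) else 0) =
            if v + c d t ∈ G d t then 4 * p else 0 := by
        intro d hd t ht
        by_cases hg : v + c d t ∈ G d t
        · simp only [hg, if_true]
          rw [be_mul]
          have h3 := (hBER V p (Γ d) hp0 hp1).2.1 {v + c d t}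
            (Finset.singleton_subset_iff.2 ((hc1 d hd t ht).1 hg))
          rw [h3, Finset.card_singleton, pow_one]
        · simp only [hg, if_false]
          unfold be
          simp
      calc ∑ ω, (if v ∈ Z ω then w ω else 0)
          ≤ ∑ ω, w0 p Dd N Γ ω * (if v + c ω.1 ω.2.1 ∈ G ω.1 ω.2.1 then
            (4 * (if {v + c ω.1 ω.2.1} ⊆ ω.2.2 then 1 else 0)) else 0) :=
            Finset.sum_le_sum fun ω _ => h1 ω
        _ = ∑ d ∈ Dd, 1 / (Dd.card : ℝ) * ∑ t ∈ N d, 1 / ((N d).card : ℝ) *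
            (if v + c d t ∈ G d t then 4 * p else 0) := by
            rw [sum_w0]
            refine Finset.sum_congr rfl fun d hd => ?_
            congr 1
            refine Finset.sum_congr rfl fun t ht => ?_
            congr 1
            exact h2 d hd t ht
        _ ≤ ∑ d ∈ Dd, 1 / (Dd.card : ℝ) * (1 / n₀ * (4 * p) *
            (((N d).filter (fun t => v + c d t ∈ G d t)).card : ℝ)) := by
            refine Finset.sum_le_sum fun d hd => ?_
            refine mul_le_mul_of_nonneg_left ?_ (by positivity)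
            rw [← Finset.mul_sum, ← Finset.sum_filter, Finset.sum_const, nsmul_eq_mul]
            have h4 : 1 / ((N d).card : ℝ) ≤ 1 / n₀ := one_div_le_one_div_of_le hn₀ (hN d hd)
            calc 1 / ((N d).card : ℝ) *
                ((((N d).filter (fun t => v + c d t ∈ G d t)).card : ℝ) * (4 * p))
                ≤ 1 / n₀ *
                ((((N d).filter (fun t => v + c d t ∈ G d t)).card : ℝ) * (4 * p)) :=
                  mul_le_mul_of_nonneg_right h4 (by positivity)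
              _ = _ := by ring
        _ = 4 * p / ((Dd.card : ℝ) * n₀) *
            ∑ d ∈ Dd, (((N d).filter (fun t => v + c d t ∈ G d t)).card : ℝ) := by
            rw [Finset.mul_sum]
            refine Finset.sum_congr rfl fun d _ => ?_
            field_simp
        _ ≤ 4 * p / ((Dd.card : ℝ) * n₀) * E₁ :=
            mul_le_mul_of_nonneg_left (hc2 v hv.1 hv.2) (by positivity)
        _ = τ := by
            rw [hτ]
            ring
    · have h1 : ∀ ω ∈ (Finset.univ : Finset (V × V × Finset V)),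
          (if v ∈ Z ω then w ω else 0) = 0 := by
        intro ω _
        by_cases hvZ : v ∈ Z ω
        · rw [if_pos hvZ]
          by_contra hω
          obtain ⟨hω0, hEv⟩ := hwE ω hω
          obtain ⟨hd, ht, -⟩ := w0_ne hω0
          obtain ⟨h2, -, h3, h4⟩ := hZmem ω v hvZ
          apply hv
          refine ⟨?_, h2⟩
          rw [← h4]
          exact ((hc1 ω.1 hd ω.2.1 ht).2 _ h3).1
        · rw [if_neg hvZ]
      rw [Finset.sum_eq_zero h1]
      exact hτ0
  · -- the dimensions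
    intro ω hω
    have h1 : ∀ j, Module.finrank (ZMod 2)
        ((fun ω : V × V × Finset V => Submodule.span (ZMod 2) {c ω.1 ω.2.1} ⊔
          Submodule.span (ZMod 2) ((ω.2.2 ∩ G ω.1 ω.2.1 : Finset V) : Set V)) (ω j) :
            Submodule (ZMod 2) V) ≤ m := by
      intro j
      exact finrank_cone _ _ m (hwE (ω j) (hω j)).2.1
    have h2 := finrank_iSup_le (fun j => (fun ω : V × V × Finset V =>
      Submodule.span (ZMod 2) {c ω.1 ω.2.1} ⊔
        Submodule.span (ZMod 2) ((ω.2.2 ∩ G ω.1 ω.2.1 : Finset V) : Set V)) (ω j)) h1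
    exact_mod_cast h2

end Core

/-! ### The probability of the event -/

section Prob

variable {V : Type} [AddCommGroup V] [Module (ZMod 2) V] [Fintype V]

omit [Fintype V] in
/-- For one point `d`. -/
theorem prob (hBER : T_BER) (hCON : T_CON) (N Γ : Finset V) (G : V → Finset V)
    (p y₀ m' dd : ℝ) (m : ℕ) (hN : N.Nonempty) (hm' : 64 ≤ m') (hdd : m' ≤ dd)
    (hp : p = m' / dd) (hΓ : 8 * (Γ.card : ℝ) * p ≤ y₀)
    (hG : ∀ t ∈ N, G t ⊆ Γ ∧ dd ≤ ((G t).card : ℝ))
    (hY : ∀ Y ⊆ Γ, (Y.card : ℝ) ≤ y₀ →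
      4 * (N.filter (fun t => m ≤ rk (Y ∩ G t))).card ≤ N.card) :
    1 / 2 ≤ ∑ t ∈ N, 1 / (N.card : ℝ) * be p Γ (fun Y =>
      if m' / 2 ≤ ((Y ∩ G t).card : ℝ) ∧ rk (Y ∩ G t) < m then 1 else 0) := by
  have hddpos : 0 < dd := by linarith
  have hp0 : 0 < p := by
    rw [hp]
    positivity
  have hp1 : p ≤ 1 := by
    rw [hp, div_le_one hddpos]
    exact hdd
  have hpdd : p * dd = m' := by
    rw [hp]
    field_simp
  have hNc : 0 < (N.card : ℝ) := by exact_mod_cast hN.card_pos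
  obtain ⟨t₀, ht₀⟩ := hN
  have hΓc : dd ≤ (Γ.card : ℝ) := by
    have h1 : ((G t₀).card : ℝ) ≤ (Γ.card : ℝ) := by
      exact_mod_cast Finset.card_le_card (hG t₀ ht₀).1
    exact (hG t₀ ht₀).2.trans h1
  have hΓpos : 0 < (Γ.card : ℝ) := by linarith
  have hy₀ : 0 < y₀ := by
    have h1 : 0 < 8 * (Γ.card : ℝ) * p := by positivity
    linarith
  -- first tail
  have hT1 : be p Γ (fun Y => if y₀ < (Y.card : ℝ) then 1 else 0) ≤ 1 / 8 := by
    have h1 := (hCON V p Γ hp0.le hp1).1 y₀ hy₀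
    have h2 : be p Γ (fun Y => if y₀ < (Y.card : ℝ) then 1 else 0) * y₀ ≤ 1 / 8 * y₀ := by
      linarith
    exact le_of_mul_le_mul_right h2 hy₀
  -- second tail
  have hT2 : ∀ t ∈ N, be p Γ (fun Y => if ((Y ∩ G t).card : ℝ) < m' / 2 then 1 else 0) ≤
      1 / 16 := by
    intro t ht
    have h1 := (hCON V p Γ hp0.le hp1).2 (G t) (hG t ht).1
    have h3 : m' ≤ p * ((G t).card : ℝ) := by
      rw [← hpdd]
      exact mul_le_mul_of_nonneg_left (hG t ht).2 hp0.le
    have h4 : be p Γ (fun Y => if ((Y ∩ G t).card : ℝ) < m' / 2 then 1 else 0) ≤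
        be p Γ (fun Y => if ((Y ∩ G t).card : ℝ) < p * ((G t).card : ℝ) / 2 then 1 else 0) := by
      refine be_mono hp0.le hp1 fun Y _ => ?_
      by_cases h5 : ((Y ∩ G t).card : ℝ) < m' / 2
      · have h6 : ((Y ∩ G t).card : ℝ) < p * ((G t).card : ℝ) / 2 := by linarith
        rw [if_pos h5, if_pos h6]
      · rw [if_neg h5]
        split_ifs <;> norm_num
    have h5 : be p Γ (fun Y => if ((Y ∩ G t).card : ℝ) < p * ((G t).card : ℝ) / 2
        then 1 else 0) * m' ≤ 4 := by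
      refine le_trans (mul_le_mul_of_nonneg_left h3 ?_) h1
      have h6 := be_mono (A := Γ) hp0.le hp1 (F := fun _ => (0 : ℝ)) (G := fun Y =>
        if ((Y ∩ G t).card : ℝ) < p * ((G t).card : ℝ) / 2 then 1 else 0) (by
          intro Y _
          show (0 : ℝ) ≤ if ((Y ∩ G t).card : ℝ) < p * ((G t).card : ℝ) / 2 then 1 else 0
          split_ifs <;> norm_num)
      have h7 : be p Γ (fun _ => (0 : ℝ)) = 0 := by
        unfold be
        simp
      rw [h7] at h6
      exact h6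
    have h6 : be p Γ (fun Y => if ((Y ∩ G t).card : ℝ) < p * ((G t).card : ℝ) / 2
        then 1 else 0) ≤ 1 / 16 := by
      have h7 : be p Γ (fun Y => if ((Y ∩ G t).card : ℝ) < p * ((G t).card : ℝ) / 2
          then 1 else 0) * m' ≤ 1 / 16 * m' := by linarith
      exact le_of_mul_le_mul_right h7 (by linarith)
    exact h4.trans h6
  -- pointwise bound
  have hpt : ∀ Y ⊆ Γ, (3 / 4 : ℝ) - 3 / 4 * (if y₀ < (Y.card : ℝ) then 1 else 0) -
      ∑ t ∈ N, 1 / (N.card : ℝ) * (if ((Y ∩ G t).card : ℝ) < m' / 2 then 1 else 0) ≤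
      ∑ t ∈ N, 1 / (N.card : ℝ) *
        (if m' / 2 ≤ ((Y ∩ G t).card : ℝ) ∧ rk (Y ∩ G t) < m then 1 else 0) := by
    intro Y hYΓ
    have h1 : ∀ t ∈ N, 1 / (N.card : ℝ) * (if rk (Y ∩ G t) < m then 1 else 0) -
        1 / (N.card : ℝ) * (if ((Y ∩ G t).card : ℝ) < m' / 2 then 1 else 0) ≤
        1 / (N.card : ℝ) *
          (if m' / 2 ≤ ((Y ∩ G t).card : ℝ) ∧ rk (Y ∩ G t) < m then 1 else 0) := by
      intro t _
      have h2 : 0 < 1 / (N.card : ℝ) := by positivity
      by_cases h3 : rk (Y ∩ G t) < m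
      · by_cases h4 : ((Y ∩ G t).card : ℝ) < m' / 2
        · have h5 : ¬ (m' / 2 ≤ ((Y ∩ G t).card : ℝ) ∧ rk (Y ∩ G t) < m) := by
            intro h6
            linarith [h6.1]
          rw [if_pos h3, if_pos h4, if_neg h5]
          linarith
        · have h5 : m' / 2 ≤ ((Y ∩ G t).card : ℝ) ∧ rk (Y ∩ G t) < m := ⟨not_lt.1 h4, h3⟩
          rw [if_pos h3, if_neg h4, if_pos h5]
          linarith
      · have h5 : ¬ (m' / 2 ≤ ((Y ∩ G t).card : ℝ) ∧ rk (Y ∩ G t) < m) := fun h6 => h3 h6.2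
        rw [if_neg h3, if_neg h5]
        have h6 : 0 ≤ 1 / (N.card : ℝ) *
            (if ((Y ∩ G t).card : ℝ) < m' / 2 then (1 : ℝ) else 0) := by
          refine mul_nonneg h2.le ?_
          split_ifs <;> norm_num
        linarith
    have h2 := Finset.sum_le_sum h1
    rw [Finset.sum_sub_distrib] at h2
    have h3 : (3 / 4 : ℝ) - 3 / 4 * (if y₀ < (Y.card : ℝ) then 1 else 0) ≤
        ∑ t ∈ N, 1 / (N.card : ℝ) * (if rk (Y ∩ G t) < m then 1 else 0) := by
      by_cases h4 : y₀ < (Y.card : ℝ)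
      · rw [if_pos h4]
        have h5 : 0 ≤ ∑ t ∈ N, 1 / (N.card : ℝ) *
            (if rk (Y ∩ G t) < m then (1 : ℝ) else 0) := by
          refine Finset.sum_nonneg fun t _ => mul_nonneg (by positivity) ?_
          split_ifs <;> norm_num
        linarith
      · rw [if_neg h4]
        have h5 := hY Y hYΓ (not_lt.1 h4)
        have h6 : (N.filter (fun t => m ≤ rk (Y ∩ G t))).card +
            (N.filter (fun t => ¬ m ≤ rk (Y ∩ G t))).card = N.card :=
          Finset.card_filter_add_card_filter_not _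
        have h7 : N.filter (fun t => ¬ m ≤ rk (Y ∩ G t)) =
            N.filter (fun t => rk (Y ∩ G t) < m) := by
          refine Finset.filter_congr fun t _ => ?_
          exact not_le
        rw [h7] at h6
        have h8 : 3 * N.card ≤ 4 * (N.filter (fun t => rk (Y ∩ G t) < m)).card := by omega
        have h9 : 3 * (N.card : ℝ) ≤
            4 * ((N.filter (fun t => rk (Y ∩ G t) < m)).card : ℝ) := by exact_mod_cast h8
        rw [← Finset.mul_sum, Finset.sum_boole]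
        rw [one_div, inv_mul_eq_div, le_div_iff₀ hNc]
        linarith
    linarith
  have hswap : ∑ t ∈ N, 1 / (N.card : ℝ) * be p Γ (fun Y =>
      if m' / 2 ≤ ((Y ∩ G t).card : ℝ) ∧ rk (Y ∩ G t) < m then 1 else 0) =
      be p Γ (fun Y => ∑ t ∈ N, 1 / (N.card : ℝ) *
        (if m' / 2 ≤ ((Y ∩ G t).card : ℝ) ∧ rk (Y ∩ G t) < m then 1 else 0)) := by
    rw [be_sum]
    refine Finset.sum_congr rfl fun t _ => ?_
    rw [be_mul]
  rw [hswap]
  refine le_trans ?_ (be_mono hp0.le hp1 hpt)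
  have hlin : be p Γ (fun Y => (3 / 4 : ℝ) - 3 / 4 * (if y₀ < (Y.card : ℝ) then 1 else 0) -
      ∑ t ∈ N, 1 / (N.card : ℝ) * (if ((Y ∩ G t).card : ℝ) < m' / 2 then 1 else 0)) =
      3 / 4 - 3 / 4 * be p Γ (fun Y => if y₀ < (Y.card : ℝ) then 1 else 0) -
      ∑ t ∈ N, 1 / (N.card : ℝ) *
        be p Γ (fun Y => if ((Y ∩ G t).card : ℝ) < m' / 2 then 1 else 0) := by
    rw [be_sub (fun Y => (3 / 4 : ℝ) - 3 / 4 * (if y₀ < (Y.card : ℝ) then 1 else 0)),
      be_sub (fun _ => (3 / 4 : ℝ)), be_mul, be_sum]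
    have h1 : be p Γ (fun _ => (3 / 4 : ℝ)) = 3 / 4 := by
      have h2 := be_mul (p := p) (A := Γ) (3 / 4) (fun _ => (1 : ℝ))
      rw [(hBER V p Γ hp0.le hp1).1] at h2
      simpa using h2
    rw [h1]
    congr 1
    refine Finset.sum_congr rfl fun t _ => ?_
    rw [be_mul]
  rw [hlin]
  have h1 : ∑ t ∈ N, 1 / (N.card : ℝ) *
      be p Γ (fun Y => if ((Y ∩ G t).card : ℝ) < m' / 2 then 1 else 0) ≤ 1 / 16 := by
    calc _ ≤ ∑ t ∈ N, 1 / (N.card : ℝ) * (1 / 16 : ℝ) := by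
          refine Finset.sum_le_sum fun t ht => ?_
          exact mul_le_mul_of_nonneg_left (hT2 t ht) (by positivity)
      _ = 1 / 16 := by
          rw [Finset.sum_const, nsmul_eq_mul]
          field_simp
  linarith

end Prob

end CB2_

open CB2_ in
theorem p_CB2 : T_BER → T_CON → T_BLK → T_CB2 := by
  intro hBER hCON hBLK V _ _ _ S Hu s K M σ E₁ n₀ y₀ m' dd m q z Dd N Γ G h0 hMB hK hσ hne hn₀
    hm hm' hdd hE hL hN hG hEn hY hz1 hz2 hcond
  have hddpos : 0 < dd := by linarith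
  have hp0 : 0 ≤ m' / dd := by
    have : 0 ≤ m' := by linarith
    positivity
  have hp1 : m' / dd ≤ 1 := by
    rw [div_le_one hddpos]
    exact hdd
  have hDc : 0 < (Dd.card : ℝ) := by exact_mod_cast hne.card_pos
  have hNne : ∀ d ∈ Dd, (N d).Nonempty := by
    intro d hd
    have h1 : 0 < ((N d).card : ℝ) := lt_of_lt_of_le hn₀ (hN d hd).1
    exact Finset.card_pos.1 (by exact_mod_cast h1)
  -- the probability of the event
  have hprob : 1 / 2 ≤ ∑ ω : V × V × Finset V, w0 (m' / dd) Dd N Γ ω *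
      (if m' / 2 ≤ ((ω.2.2 ∩ G ω.1 ω.2.1).card : ℝ) ∧ rk (ω.2.2 ∩ G ω.1 ω.2.1) < m
        then 1 else 0) := by
    rw [sum_w0]
    calc (1 / 2 : ℝ) = ∑ d ∈ Dd, 1 / (Dd.card : ℝ) * (1 / 2) := by
          rw [Finset.sum_const, nsmul_eq_mul]
          field_simp
      _ ≤ _ := by
          refine Finset.sum_le_sum fun d hd => ?_
          refine mul_le_mul_of_nonneg_left ?_ (by positivity)
          exact prob hBER hCON (N d) (Γ d) (G d) (m' / dd) y₀ m' dd m (hNne d hd) hm' hdd rfl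
            (hN d hd).2 (fun t ht => ⟨(hG d hd t ht).1, (hG d hd t ht).2.1⟩) (hY d hd)
  -- one of the two types
  have hsplit : ∀ ω : V × V × Finset V, w0 (m' / dd) Dd N Γ ω *
      (if m' / 2 ≤ ((ω.2.2 ∩ G ω.1 ω.2.1).card : ℝ) ∧ rk (ω.2.2 ∩ G ω.1 ω.2.1) < m
        then 1 else 0) ≤
      w0 (m' / dd) Dd N Γ ω * (if Ev Hu G m z (fun d _ => d) ω then 1 else 0) +
      w0 (m' / dd) Dd N Γ ω * (if Ev Hu G m z (fun _ t => t) ω then 1 else 0) := by
    intro ω
    by_cases hω : w0 (m' / dd) Dd N Γ ω = 0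
    · rw [hω, zero_mul, zero_mul, zero_mul, add_zero]
    obtain ⟨hd, ht, -⟩ := w0_ne hω
    have hw := w0_nonneg (Dd := Dd) (N := N) (Γ := Γ) hp0 hp1 ω
    have hn1 : (0 : ℝ) ≤ if Ev Hu G m z (fun d _ => d) ω then 1 else 0 := by
      split_ifs <;> norm_num
    have hn2 : (0 : ℝ) ≤ if Ev Hu G m z (fun _ t => t) ω then 1 else 0 := by
      split_ifs <;> norm_num
    rw [← mul_add]
    refine mul_le_mul_of_nonneg_left ?_ hw
    by_cases hE' : m' / 2 ≤ ((ω.2.2 ∩ G ω.1 ω.2.1).card : ℝ) ∧ rk (ω.2.2 ∩ G ω.1 ω.2.1) < m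
    · rw [if_pos hE']
      have hcov : ω.2.2 ∩ G ω.1 ω.2.1 ⊆
          (ω.2.2 ∩ G ω.1 ω.2.1).filter (fun g => ω.1 + g ∉ Hu) ∪
          (ω.2.2 ∩ G ω.1 ω.2.1).filter (fun g => ω.2.1 + g ∉ Hu) := by
        intro g hg
        have h1 := (hG ω.1 hd ω.2.1 ht).2.2.2 g (Finset.mem_inter.1 hg).2
        rw [Finset.mem_union, Finset.mem_filter, Finset.mem_filter]
        by_cases h2 : ω.1 + g ∈ Hu
        · exact Or.inr ⟨hg, fun h3 => h1.2.2.2.2.2.2 ⟨h2, h3⟩⟩
        · exact Or.inl ⟨hg, h2⟩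
      have h1 := (Finset.card_le_card hcov).trans (Finset.card_union_le _ _)
      have h2 : m' / 2 ≤
          (((ω.2.2 ∩ G ω.1 ω.2.1).filter (fun g => ω.1 + g ∉ Hu)).card : ℝ) +
          (((ω.2.2 ∩ G ω.1 ω.2.1).filter (fun g => ω.2.1 + g ∉ Hu)).card : ℝ) := by
        refine hE'.1.trans ?_
        exact_mod_cast h1
      by_cases h3 : m' / 4 ≤ (((ω.2.2 ∩ G ω.1 ω.2.1).filter (fun g => ω.1 + g ∉ Hu)).card : ℝ)
      · have h4 : z < ((ω.2.2 ∩ G ω.1 ω.2.1).filter (fun g => ω.1 + g ∉ Hu)).card + 1 := by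
          have h5 : (z : ℝ) <
              (((ω.2.2 ∩ G ω.1 ω.2.1).filter (fun g => ω.1 + g ∉ Hu)).card : ℝ) + 1 := by
            linarith
          exact_mod_cast h5
        have h5 : Ev Hu G m z (fun d _ => d) ω := ⟨hE'.2, Nat.lt_succ_iff.1 h4⟩
        rw [if_pos h5]
        linarith
      · have h3' : m' / 4 ≤
            (((ω.2.2 ∩ G ω.1 ω.2.1).filter (fun g => ω.2.1 + g ∉ Hu)).card : ℝ) := by
          rw [not_le] at h3
          linarith
        have h4 : z < ((ω.2.2 ∩ G ω.1 ω.2.1).filter (fun g => ω.2.1 + g ∉ Hu)).card + 1 := by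
          have h5 : (z : ℝ) <
              (((ω.2.2 ∩ G ω.1 ω.2.1).filter (fun g => ω.2.1 + g ∉ Hu)).card : ℝ) + 1 := by
            linarith
          exact_mod_cast h5
        have h5 : Ev Hu G m z (fun _ t => t) ω := ⟨hE'.2, Nat.lt_succ_iff.1 h4⟩
        rw [if_pos h5]
        linarith
    · rw [if_neg hE']
      linarith
  have hsum := hprob.trans (Finset.sum_le_sum fun ω _ => hsplit ω)
  rw [Finset.sum_add_distrib] at hsum
  by_cases hcase : 1 / 4 ≤ ∑ ω : V × V × Finset V, w0 (m' / dd) Dd N Γ ω *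
      (if Ev Hu G m z (fun d _ => d) ω then 1 else 0)
  · exact core hBER hBLK S Hu s K M σ E₁ n₀ (m' / dd) m q z Dd N Γ G (fun d _ => d) h0 hMB hK hσ
      hne hn₀ hE hp0 hp1 hL (fun d hd => (hN d hd).1)
      (fun d hd t ht => ⟨(hG d hd t ht).1, fun g hg => by
        have h1 := (hG d hd t ht).2.2.2 g hg
        exact ⟨h1.1, h1.2.2.1, h1.2.2.2.2.1⟩⟩)
      (fun v hv hvH => (hEn v hv hvH).1) hcase hcond
  · exact core hBER hBLK S Hu s K M σ E₁ n₀ (m' / dd) m q z Dd N Γ G (fun _ t => t) h0 hMB hK hσ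
      hne hn₀ hE hp0 hp1 hL (fun d hd => (hN d hd).1)
      (fun d hd t ht => ⟨(hG d hd t ht).1, fun g hg => by
        have h1 := (hG d hd t ht).2.2.2 g hg
        exact ⟨h1.2.1, h1.2.2.2.1, h1.2.2.2.2.2.1⟩⟩)
      (fun v hv hvH => (hEn v hv hvH).2) (by rw [not_le] at hcase; linarith) hcond

end Pool.Agent.XPS
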