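import Pool.Agent.XPS.Targets

set_option autoImplicit false

/-!
# MP_9f5962_lc (XPS), target DEN: the density of sets of good heavy directions
-/

open scoped Classical

noncomputable section

namespace Pool.Agent.XPS

open Pool.Agent.LRC

namespace DEN_

variable {V : Type} [AddCommGroup V] [Module (ZMod 2) V] [Fintype V]

omit [Fintype V] in
/-- In characteristic two `x + (x + g) = g`. -/
theorem add_add_self (x g : V) : x + (x + g) = g := by
  rw [← add_assoc, ZModModule.add_self x, zero_add]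

omit [Fintype V] in
theorem add_add_cancel (x g : V) : x + g + g = x := by
  rw [add_assoc, ZModModule.add_self g, add_zero]

/-- The good points for the direction `g`. -/
def Ag (T : Finset V) (κ D₀ : ℝ) (d g : V) : Finset V :=
  T.filter (fun x => x + g ∈ T ∧ x ≠ d ∧ x + g ≠ d ∧ (g, x) ∉ Bad T κ D₀ d)

/-- The good points with small codegree. -/
def Bg (T : Finset V) (κ D₀ : ℝ) (d g : V) : Finset V :=
  (Ag T κ D₀ d g).filter (fun x => (cd T κ d x : ℝ) ≤ D₀)

theorem card_Ag (T : Finset V) (κ D₀ : ℝ) (d g : V) :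
    rr T g ≤ (Ag T κ D₀ d g).card + ((Bad T κ D₀ d).filter (fun p => p.1 = g)).card + 2 := by
  have h1 : T.filter (fun x => x + g ∈ T) ⊆ (Ag T κ D₀ d g ∪
      ((Bad T κ D₀ d).filter (fun p => p.1 = g)).image Prod.snd) ∪ {d, d + g} := by
    intro x hx
    rw [Finset.mem_filter] at hx
    rw [Finset.mem_union, Finset.mem_union, Finset.mem_image, Finset.mem_insert,
      Finset.mem_singleton]
    by_cases h2 : x = d
    · exact Or.inr (Or.inl h2)
    · by_cases h3 : x + g = d
      · refine Or.inr (Or.inr ?_)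
        rw [← h3, add_add_cancel]
      · refine Or.inl ?_
        by_cases h4 : (g, x) ∈ Bad T κ D₀ d
        · exact Or.inr ⟨(g, x), Finset.mem_filter.2 ⟨h4, rfl⟩, rfl⟩
        · exact Or.inl (Finset.mem_filter.2 ⟨hx.1, hx.2, h2, h3, h4⟩)
  have h2 := Finset.card_le_card h1
  have h3 := Finset.card_union_le (Ag T κ D₀ d g ∪
      ((Bad T κ D₀ d).filter (fun p => p.1 = g)).image Prod.snd) {d, d + g}
  have h4 := Finset.card_union_le (Ag T κ D₀ d g)
      (((Bad T κ D₀ d).filter (fun p => p.1 = g)).image Prod.snd)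
  have h5 : (((Bad T κ D₀ d).filter (fun p => p.1 = g)).image Prod.snd).card ≤
      ((Bad T κ D₀ d).filter (fun p => p.1 = g)).card := Finset.card_image_le
  have h6 : ({d, d + g} : Finset V).card ≤ 2 := Finset.card_le_two
  unfold rr
  omega

theorem card_Bg (T : Finset V) (κ D₀ : ℝ) (d g : V) (hg : g ∈ Gm T κ d) :
    (Ag T κ D₀ d g).card ≤ 2 * (Bg T κ D₀ d g).card := by
  have h1 : Ag T κ D₀ d g ⊆ Bg T κ D₀ d g ∪ (Bg T κ D₀ d g).image (fun x => x + g) := by
    intro x hx
    rw [Finset.mem_union, Finset.mem_image]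
    by_cases h2 : (cd T κ d x : ℝ) ≤ D₀
    · exact Or.inl (Finset.mem_filter.2 ⟨hx, h2⟩)
    · refine Or.inr ⟨x + g, ?_, add_add_cancel x g⟩
      obtain ⟨a1, a2, a3, a4, a5⟩ := Finset.mem_filter.1 hx
      have h3 : (cd T κ d (x + g) : ℝ) ≤ D₀ := by
        by_contra h4
        refine a5 (Finset.mem_filter.2 ⟨Finset.mem_product.2 ⟨hg, a1⟩, a2, a3, a4, ?_, ?_⟩)
        · exact not_le.1 h2
        · exact not_le.1 h4
      refine Finset.mem_filter.2 ⟨Finset.mem_filter.2 ⟨a2, ?_, a4, ?_, ?_⟩, h3⟩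
      · rw [add_add_cancel]
        exact a1
      · rw [add_add_cancel]
        exact a3
      · intro h4
        obtain ⟨-, -, -, -, b1, -⟩ := Finset.mem_filter.1 h4
        exact absurd b1 (not_lt.2 h3)
  have h2 := Finset.card_le_card h1
  have h3 := Finset.card_union_le (Bg T κ D₀ d g) ((Bg T κ D₀ d g).image (fun x => x + g))
  have h4 : ((Bg T κ D₀ d g).image (fun x => x + g)).card ≤ (Bg T κ D₀ d g).card :=
    Finset.card_image_le
  omega

end DEN_

open DEN_ in
/-- DEN. -/
theorem p_DEN : T_DEN := by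
  intro V _ _ _ S T K κ D₀ d X hTS hMB hK hκ hD hX
  set W := Submodule.span (ZMod 2) (X : Set V) with hW
  have hM : ((Mg S W).card : ℝ) ≤ 2 * K * (rk X : ℝ) := hMB W
  -- the lower bound for every direction
  have hlow : ∀ g ∈ X, κ ≤ 8 * ((Bg T κ D₀ d g).card : ℝ) := by
    intro g hg
    obtain ⟨h1, h2⟩ := Finset.mem_filter.1 (hX hg)
    obtain ⟨-, -, h3, -⟩ := Finset.mem_filter.1 h1
    have h4 := card_Ag T κ D₀ d g
    have h5 := card_Bg T κ D₀ d g h1
    have h6 : rr T g ≤ 4 * (Bg T κ D₀ d g).card + 4 := by omega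
    have h7 : (rr T g : ℝ) ≤ 4 * ((Bg T κ D₀ d g).card : ℝ) + 4 := by exact_mod_cast h6
    linarith
  -- the pairs
  let Pp : Finset (V × V) := (X ×ˢ Mg S W).filter (fun p => p.2 ∈ Bg T κ D₀ d p.1)
  have hP1 : ∀ g ∈ X, Bg T κ D₀ d g ⊆ Mg S W := by
    intro g hg x hx
    obtain ⟨h1, -⟩ := Finset.mem_filter.1 hx
    obtain ⟨a1, a2, -, -, -⟩ := Finset.mem_filter.1 h1
    obtain ⟨b1, -⟩ := Finset.mem_filter.1 (hX hg)
    obtain ⟨-, b2, -, -⟩ := Finset.mem_filter.1 b1
    refine Finset.mem_filter.2 ⟨hTS a1, x + g, hTS a2, ?_, ?_⟩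
    · intro h3
      exact b2 (by simpa using h3)
    · rw [add_add_self]
      exact Submodule.subset_span hg
  have hc1 : ∑ g ∈ X, (Bg T κ D₀ d g).card = Pp.card := by
    have h1 : Pp.card = ∑ g ∈ X, (Pp.filter (fun p => p.1 = g)).card := by
      refine Finset.card_eq_sum_card_fiberwise ?_
      intro p hp
      exact (Finset.mem_product.1 (Finset.mem_filter.1 hp).1).1
    rw [h1]
    refine Finset.sum_congr rfl fun g hg => ?_
    refine Finset.card_bij (fun x _ => (g, x)) ?_ ?_ ?_
    · intro x hx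
      exact Finset.mem_filter.2 ⟨Finset.mem_filter.2
        ⟨Finset.mem_product.2 ⟨hg, hP1 g hg hx⟩, hx⟩, rfl⟩
    · intro x _ y _ hxy
      exact (Prod.mk.inj hxy).2
    · rintro ⟨g', x⟩ hp
      obtain ⟨h2, h3⟩ := Finset.mem_filter.1 hp
      obtain ⟨-, h4⟩ := Finset.mem_filter.1 h2
      simp only at h3 h4
      subst h3
      exact ⟨x, h4, rfl⟩
  have hc2 : (Pp.card : ℝ) ≤ ((Mg S W).card : ℝ) * D₀ := by
    have h1 : Pp.card = ∑ x ∈ Mg S W, (Pp.filter (fun p => p.2 = x)).card := by
      refine Finset.card_eq_sum_card_fiberwise ?_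
      intro p hp
      exact (Finset.mem_product.1 (Finset.mem_filter.1 hp).1).2
    rw [h1]
    push_cast
    have h2 : ∑ x ∈ Mg S W, ((Pp.filter (fun p => p.2 = x)).card : ℝ) ≤
        ∑ _x ∈ Mg S W, D₀ := by
      refine Finset.sum_le_sum fun x _ => ?_
      by_cases h3 : (cd T κ d x : ℝ) ≤ D₀
      · refine le_trans ?_ h3
        have h4 : (Pp.filter (fun p => p.2 = x)).card ≤ cd T κ d x := by
          unfold cd
          refine Finset.card_le_card_of_injOn Prod.fst ?_ ?_
          · intro p hp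
            obtain ⟨h5, h6⟩ := Finset.mem_filter.1 hp
            obtain ⟨h7, h8⟩ := Finset.mem_filter.1 h5
            have h9 := (Finset.mem_filter.1 (hX (Finset.mem_product.1 h7).1)).1
            obtain ⟨h10, -⟩ := Finset.mem_filter.1 h8
            have h11 := (Finset.mem_filter.1 h10).2.1
            rw [h6] at h11
            exact Finset.mem_filter.2 ⟨h9, h11⟩
          · intro p hp p' hp' hpp
            have h5 := (Finset.mem_filter.1 hp).2
            have h6 := (Finset.mem_filter.1 hp').2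
            exact Prod.ext hpp (h5.trans h6.symm)
        exact_mod_cast h4
      · have h4 : Pp.filter (fun p => p.2 = x) = ∅ := by
          rw [Finset.filter_eq_empty_iff]
          intro p hp h5
          obtain ⟨-, h6⟩ := Finset.mem_filter.1 hp
          have h7 := (Finset.mem_filter.1 h6).2
          rw [h5] at h7
          exact h3 h7
        rw [h4]
        simpa using hD
    rw [Finset.sum_const, nsmul_eq_mul] at h2
    exact h2
  have h1 : (X.card : ℝ) * κ ≤ 8 * (Pp.card : ℝ) := by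
    rw [← hc1]
    push_cast
    rw [Finset.mul_sum, ← nsmul_eq_mul, ← Finset.sum_const]
    exact Finset.sum_le_sum hlow
  have h2 : ((Mg S W).card : ℝ) * D₀ ≤ 2 * K * (rk X : ℝ) * D₀ :=
    mul_le_mul_of_nonneg_right hM hD
  nlinarith

end Pool.Agent.XPS
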