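import Pool.Agent.XPS.Targets

set_option autoImplicit false
set_option linter.unusedSectionVars false

/-!
# XPS: first consequences of stuckness (DRV)
-/

open scoped Classical

noncomputable section

namespace Pool.Agent.XPS

namespace DRV_

variable {V : Type} [AddCommGroup V] [Module (ZMod 2) V] [Fintype V]

omit [Module (ZMod 2) V] in
lemma mem_Sp (s : V → ℝ) (x : V) : x ∈ Sp s ↔ s x ≠ 0 := by
  unfold Sp
  rw [Finset.mem_filter]
  exact ⟨fun h => h.2, fun h => ⟨Finset.mem_univ _, h⟩⟩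

omit [Module (ZMod 2) V] in
lemma mem_Lv (Q : ℝ) (n : ℕ) (s : V → ℝ) (x : V) :
    x ∈ Lv Q n s ↔ x ≠ 0 ∧ et s ≤ |s x| * Q ^ n := by
  unfold Lv
  rw [Finset.mem_filter]
  exact ⟨fun h => h.2, fun h => ⟨Finset.mem_univ _, h⟩⟩

omit [Module (ZMod 2) V] in
lemma Lv_sub (Q : ℝ) (n : ℕ) (s : V → ℝ) (h : 0 < et s) : Lv Q n s ⊆ Sp s := by
  intro x hx
  rw [mem_Lv] at hx
  rw [mem_Sp]
  intro h0
  rw [h0, abs_zero, zero_mul] at hx
  linarith [hx.2]

omit [Module (ZMod 2) V] in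
lemma et_sq (s : V → ℝ) (h : 0 < et s) : et s ^ 2 = 1 - s 0 ^ 2 := by
  unfold et at h ⊢
  exact Real.sq_sqrt (Real.sqrt_pos.1 h).le

omit [Module (ZMod 2) V] in
lemma et_le_one (s : V → ℝ) : et s ≤ 1 := by
  unfold et
  rw [Real.sqrt_le_one]
  nlinarith [sq_nonneg (s 0)]

omit [Module (ZMod 2) V] in
lemma sum_erase (s : V → ℝ) (h : 0 < et s) (h1 : ∑ v, s v ^ 2 = 1) :
    ∑ x ∈ Finset.univ.erase (0 : V), s x ^ 2 = et s ^ 2 := by
  rw [et_sq s h]
  have := Finset.add_sum_erase Finset.univ (fun v => s v ^ 2) (Finset.mem_univ (0 : V))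
  linarith

/-- There is a coefficient of size at least the mean. -/
lemma exists_large (Q : ℝ) (s : V → ℝ) (hQ : 1 ≤ Q) (h : 0 < et s) (h0 : s 0 ≠ 0)
    (h1 : ∑ v, s v ^ 2 = 1) (hc : ((Sp s).card : ℝ) ≤ Q ^ 26000) :
    ∃ d : V, d ≠ 0 ∧ et s ≤ |s d| * Q ^ 13000 := by
  by_contra hcon
  push Not at hcon
  have hQp : ∀ n : ℕ, 0 < Q ^ n := fun n => pow_pos (by linarith) n
  have hE := sum_erase s h h1
  have h2 : ∑ x ∈ Finset.univ.erase (0 : V), s x ^ 2 = ∑ x ∈ (Sp s).erase 0, s x ^ 2 := by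
    symm
    refine Finset.sum_subset (Finset.erase_subset_erase _ (Finset.subset_univ _)) ?_
    intro x hx hx'
    by_contra hne
    apply hx'
    rw [Finset.mem_erase] at hx ⊢
    refine ⟨hx.1, ?_⟩
    rw [mem_Sp]
    intro h3
    apply hne
    rw [h3]; ring
  have h3 : Q ^ 26000 * ∑ x ∈ (Sp s).erase 0, s x ^ 2 ≤ (((Sp s).erase 0).card : ℝ) * et s ^ 2 := by
    rw [Finset.mul_sum]
    calc ∑ x ∈ (Sp s).erase 0, Q ^ 26000 * s x ^ 2 ≤ ∑ _x ∈ (Sp s).erase 0, et s ^ 2 := by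
          refine Finset.sum_le_sum fun x hx => ?_
          rw [Finset.mem_erase] at hx
          have h4 := hcon x hx.1
          have h5 : (|s x| * Q ^ 13000) ^ 2 ≤ et s ^ 2 :=
            pow_le_pow_left₀ (mul_nonneg (abs_nonneg _) (hQp _).le) h4.le 2
          have h6 : (|s x| * Q ^ 13000) ^ 2 = Q ^ 26000 * s x ^ 2 := by
            rw [mul_pow, sq_abs, ← pow_mul]; ring
          linarith
      _ = _ := by rw [Finset.sum_const, nsmul_eq_mul]
  have h4 : (((Sp s).erase 0).card : ℝ) ≤ Q ^ 26000 - 1 := by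
    have h5 : ((Sp s).erase 0).card + 1 = (Sp s).card :=
      Finset.card_erase_add_one ((mem_Sp s 0).2 h0)
    have h6 : (((Sp s).erase 0).card : ℝ) + 1 = ((Sp s).card : ℝ) := by exact_mod_cast h5
    linarith
  have h5 : 0 < et s ^ 2 := by positivity
  rw [← h2, hE] at h3
  have h6 : (((Sp s).erase 0).card : ℝ) * et s ^ 2 ≤ (Q ^ 26000 - 1) * et s ^ 2 :=
    mul_le_mul_of_nonneg_right h4 h5.le
  have h7 : (Q ^ 26000 - 1) * et s ^ 2 = Q ^ 26000 * et s ^ 2 - et s ^ 2 := by ring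
  linarith

/-- The coefficient at zero is small. -/
lemma zero_small (Q : ℝ) (s : V → ℝ) (hQ : 1 ≤ Q) (h : 0 < et s) (h0 : s 0 ≠ 0)
    (h1 : ∑ v, s v ^ 2 = 1) (h2 : ∀ g : V, g ≠ 0 → ∑ x, s x * s (x + g) = 0)
    (hc : ((Sp s).card : ℝ) ≤ Q ^ 26000) (hsm : ∀ x : V, x ≠ 0 → |s x| * Q ^ 12999 ≤ et s)
    (hrr : ∀ g : V, g ≠ 0 → (rr (Sp s) g : ℝ) ≤ 2 * Q ^ 13001) :
    |s 0| ≤ et s * Q ^ 3 := by
  have hQp : ∀ n : ℕ, 0 < Q ^ n := fun n => pow_pos (by linarith) n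
  obtain ⟨d, hd0, hd⟩ := exists_large Q s hQ h h0 h1 hc
  have hz := h2 d hd0
  -- split off the two special terms
  have hs1 := Finset.add_sum_erase Finset.univ (fun x => s x * s (x + d)) (Finset.mem_univ (0 : V))
  have hdm : d ∈ Finset.univ.erase (0 : V) := Finset.mem_erase.2 ⟨hd0, Finset.mem_univ _⟩
  have hs2 := Finset.add_sum_erase (Finset.univ.erase (0 : V)) (fun x => s x * s (x + d)) hdm
  simp only [zero_add, ZModModule.add_self] at hs1 hs2
  set R := (Finset.univ.erase (0 : V)).erase d with hR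
  have hmem : ∀ x ∈ R, x ≠ 0 ∧ x ≠ d := by
    intro x hx
    rw [hR, Finset.mem_erase, Finset.mem_erase] at hx
    exact ⟨hx.2.1, hx.1⟩
  have hk : 2 * (|s 0| * |s d|) ≤ ∑ x ∈ R, |s x| * |s (x + d)| := by
    have h3 : 2 * (s 0 * s d) = - ∑ x ∈ R, s x * s (x + d) := by
      rw [hz] at hs1
      linarith [mul_comm (s 0) (s d)]
    calc 2 * (|s 0| * |s d|) = |2 * (s 0 * s d)| := by
          rw [abs_mul, abs_mul, abs_of_pos (by norm_num : (0 : ℝ) < 2)]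
      _ = |∑ x ∈ R, s x * s (x + d)| := by rw [h3, abs_neg]
      _ ≤ ∑ x ∈ R, |s x * s (x + d)| := Finset.abs_sum_le_sum_abs _ _
      _ = ∑ x ∈ R, |s x| * |s (x + d)| := Finset.sum_congr rfl fun x _ => abs_mul _ _
  have hk2 : Q ^ 25998 * ∑ x ∈ R, |s x| * |s (x + d)| ≤ (rr (Sp s) d : ℝ) * et s ^ 2 := by
    have h3 : ∑ x ∈ R, |s x| * |s (x + d)| =
        ∑ x ∈ R.filter (fun x => x ∈ Sp s ∧ x + d ∈ Sp s), |s x| * |s (x + d)| := by
      symm
      refine Finset.sum_subset (Finset.filter_subset _ _) ?_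
      intro x hx hx'
      by_contra hne
      apply hx'
      rw [Finset.mem_filter]
      refine ⟨hx, ?_, ?_⟩
      · rw [mem_Sp]; intro h4; apply hne; rw [h4]; simp
      · rw [mem_Sp]; intro h4; apply hne; rw [h4]; simp
    rw [h3, Finset.mul_sum]
    calc ∑ x ∈ R.filter (fun x => x ∈ Sp s ∧ x + d ∈ Sp s), Q ^ 25998 * (|s x| * |s (x + d)|)
        ≤ ∑ _x ∈ R.filter (fun x => x ∈ Sp s ∧ x + d ∈ Sp s), et s ^ 2 := by
          refine Finset.sum_le_sum fun x hx => ?_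
          have hx' := hmem x (Finset.mem_filter.1 hx).1
          have h4 := hsm x hx'.1
          have hxd : x + d ≠ 0 := by
            intro h5
            apply hx'.2
            have : x + d + d = 0 + d := by rw [h5]
            rwa [add_assoc, ZModModule.add_self, add_zero, zero_add] at this
          have h5 := hsm (x + d) hxd
          have h6 : (|s x| * Q ^ 12999) * (|s (x + d)| * Q ^ 12999) ≤ et s * et s :=
            mul_le_mul h4 h5 (mul_nonneg (abs_nonneg _) (hQp _).le) h.le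
          have h7 : (|s x| * Q ^ 12999) * (|s (x + d)| * Q ^ 12999) =
              Q ^ 25998 * (|s x| * |s (x + d)|) := by ring
          have h8 : et s * et s = et s ^ 2 := by ring
          linarith
      _ = ((R.filter (fun x => x ∈ Sp s ∧ x + d ∈ Sp s)).card : ℝ) * et s ^ 2 := by
          rw [Finset.sum_const, nsmul_eq_mul]
      _ ≤ (rr (Sp s) d : ℝ) * et s ^ 2 := by
          refine mul_le_mul_of_nonneg_right ?_ (sq_nonneg _)
          unfold rr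
          have : (R.filter (fun x => x ∈ Sp s ∧ x + d ∈ Sp s)) ⊆
              (Sp s).filter (fun x => x + d ∈ Sp s) := by
            intro x hx
            rw [Finset.mem_filter] at hx ⊢
            exact hx.2
          exact_mod_cast Finset.card_le_card this
  have hk3 := hrr d hd0
  have he2 : 0 < et s ^ 2 := by positivity
  -- put together
  have e1 : Q ^ 25998 * (2 * (|s 0| * |s d|)) ≤ 2 * Q ^ 13001 * et s ^ 2 :=
    ((mul_le_mul_of_nonneg_left hk (hQp _).le).trans hk2).trans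
      (mul_le_mul_of_nonneg_right hk3 he2.le)
  have e2 : Q ^ 25998 * |s 0| * et s ≤ Q ^ 25998 * |s 0| * (|s d| * Q ^ 13000) :=
    mul_le_mul_of_nonneg_left hd (mul_nonneg (hQp _).le (abs_nonneg _))
  have e3 : 2 * (Q ^ 25998 * |s 0| * (|s d| * Q ^ 13000)) =
      Q ^ 13000 * (Q ^ 25998 * (2 * (|s 0| * |s d|))) := by ring
  have e4 : Q ^ 13000 * (Q ^ 25998 * (2 * (|s 0| * |s d|))) ≤
      Q ^ 13000 * (2 * Q ^ 13001 * et s ^ 2) := mul_le_mul_of_nonneg_left e1 (hQp _).le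
  have e5 : Q ^ 13000 * (2 * Q ^ 13001 * et s ^ 2) =
      2 * (Q ^ 25998 * et s * (et s * Q ^ 3)) := by ring
  have e6 : (Q ^ 25998 * et s) * |s 0| ≤ (Q ^ 25998 * et s) * (et s * Q ^ 3) := by
    have : (Q ^ 25998 * et s) * |s 0| = Q ^ 25998 * |s 0| * et s := by ring
    linarith
  exact le_of_mul_le_mul_left e6 (mul_pos (hQp _) h)

/-- The number of large coefficients. -/
lemma count_large (Q : ℝ) (s : V → ℝ) (hQ : 2 ≤ Q) (h : 0 < et s)
    (h1 : ∑ v, s v ^ 2 = 1)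
    (hc : ((Sp s).card : ℝ) ≤ Q ^ 26000) (hsm : ∀ x : V, x ≠ 0 → |s x| * Q ^ 12999 ≤ et s) :
    3 * Q ^ 25998 ≤ 4 * ((Lv Q 13001 s).card : ℝ) := by
  have hQp : ∀ n : ℕ, 0 < Q ^ n := fun n => pow_pos (by linarith) n
  have hE := sum_erase s h h1
  have he2 : 0 < et s ^ 2 := by positivity
  have hsub : Lv Q 13001 s ⊆ Finset.univ.erase (0 : V) := by
    intro x hx
    rw [mem_Lv] at hx
    exact Finset.mem_erase.2 ⟨hx.1, Finset.mem_univ _⟩
  have hsplit := Finset.sum_sdiff (f := fun x => s x ^ 2) hsub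
  have hL : Q ^ 25998 * ∑ x ∈ Lv Q 13001 s, s x ^ 2 ≤ ((Lv Q 13001 s).card : ℝ) * et s ^ 2 := by
    rw [Finset.mul_sum]
    calc ∑ x ∈ Lv Q 13001 s, Q ^ 25998 * s x ^ 2 ≤ ∑ _x ∈ Lv Q 13001 s, et s ^ 2 := by
          refine Finset.sum_le_sum fun x hx => ?_
          have h4 := hsm x ((mem_Lv _ _ _ _).1 hx).1
          have h5 : (|s x| * Q ^ 12999) ^ 2 ≤ et s ^ 2 :=
            pow_le_pow_left₀ (mul_nonneg (abs_nonneg _) (hQp _).le) h4 2
          have h6 : (|s x| * Q ^ 12999) ^ 2 = Q ^ 25998 * s x ^ 2 := by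
            rw [mul_pow, sq_abs, ← pow_mul]; ring
          linarith
      _ = _ := by rw [Finset.sum_const, nsmul_eq_mul]
  have hR : Q ^ 26002 * ∑ x ∈ Finset.univ.erase (0 : V) \ Lv Q 13001 s, s x ^ 2 ≤
      Q ^ 26000 * et s ^ 2 := by
    have h3 : ∑ x ∈ Finset.univ.erase (0 : V) \ Lv Q 13001 s, s x ^ 2 =
        ∑ x ∈ (Finset.univ.erase (0 : V) \ Lv Q 13001 s).filter (fun x => x ∈ Sp s), s x ^ 2 := by
      symm
      refine Finset.sum_subset (Finset.filter_subset _ _) ?_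
      intro x hx hx'
      by_contra hne
      apply hx'
      rw [Finset.mem_filter]
      refine ⟨hx, ?_⟩
      rw [mem_Sp]; intro h4; apply hne; rw [h4]; ring
    rw [h3, Finset.mul_sum]
    calc ∑ x ∈ (Finset.univ.erase (0 : V) \ Lv Q 13001 s).filter (fun x => x ∈ Sp s),
          Q ^ 26002 * s x ^ 2
        ≤ ∑ _x ∈ (Finset.univ.erase (0 : V) \ Lv Q 13001 s).filter (fun x => x ∈ Sp s),
          et s ^ 2 := by
          refine Finset.sum_le_sum fun x hx => ?_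
          have hx1 := (Finset.mem_filter.1 hx).1
          rw [Finset.mem_sdiff, Finset.mem_erase, mem_Lv] at hx1
          have h4 : |s x| * Q ^ 13001 < et s := by
            by_contra hcon
            exact hx1.2 ⟨hx1.1.1, not_lt.1 hcon⟩
          have h5 : (|s x| * Q ^ 13001) ^ 2 ≤ et s ^ 2 :=
            pow_le_pow_left₀ (mul_nonneg (abs_nonneg _) (hQp _).le) h4.le 2
          have h6 : (|s x| * Q ^ 13001) ^ 2 = Q ^ 26002 * s x ^ 2 := by
            rw [mul_pow, sq_abs, ← pow_mul]; ring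
          linarith
      _ = (((Finset.univ.erase (0 : V) \ Lv Q 13001 s).filter (fun x => x ∈ Sp s)).card : ℝ) *
          et s ^ 2 := by rw [Finset.sum_const, nsmul_eq_mul]
      _ ≤ Q ^ 26000 * et s ^ 2 := by
          refine mul_le_mul_of_nonneg_right ?_ he2.le
          refine le_trans ?_ hc
          have : ((Finset.univ.erase (0 : V) \ Lv Q 13001 s).filter (fun x => x ∈ Sp s)) ⊆
              Sp s := fun x hx => (Finset.mem_filter.1 hx).2
          exact_mod_cast Finset.card_le_card this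
  have e1 : Q ^ 26002 * et s ^ 2 ≤ (Q ^ 4 * ((Lv Q 13001 s).card : ℝ) + Q ^ 26000) * et s ^ 2 := by
    have e2 : Q ^ 26002 * et s ^ 2 =
        Q ^ 26002 * ∑ x ∈ Finset.univ.erase (0 : V) \ Lv Q 13001 s, s x ^ 2 +
          Q ^ 4 * (Q ^ 25998 * ∑ x ∈ Lv Q 13001 s, s x ^ 2) := by
      rw [← hE, ← hsplit]; ring
    have e3 : Q ^ 4 * (Q ^ 25998 * ∑ x ∈ Lv Q 13001 s, s x ^ 2) ≤
        Q ^ 4 * (((Lv Q 13001 s).card : ℝ) * et s ^ 2) :=
      mul_le_mul_of_nonneg_left hL (hQp _).le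
    have e4 : (Q ^ 4 * ((Lv Q 13001 s).card : ℝ) + Q ^ 26000) * et s ^ 2 =
        Q ^ 4 * (((Lv Q 13001 s).card : ℝ) * et s ^ 2) + Q ^ 26000 * et s ^ 2 := by ring
    linarith
  have e5 := le_of_mul_le_mul_right e1 he2
  have e6 : Q ^ 2 * (Q ^ 2 * Q ^ 25998) ≤
      Q ^ 2 * (Q ^ 2 * ((Lv Q 13001 s).card : ℝ) + Q ^ 25998) := by
    have e7 : Q ^ 2 * (Q ^ 2 * Q ^ 25998) = Q ^ 26002 := by ring
    have e8 : Q ^ 2 * (Q ^ 2 * ((Lv Q 13001 s).card : ℝ) + Q ^ 25998) =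
        Q ^ 4 * ((Lv Q 13001 s).card : ℝ) + Q ^ 26000 := by ring
    linarith
  have e9 := le_of_mul_le_mul_left e6 (hQp 2)
  have hQ2 : 4 ≤ Q ^ 2 := by nlinarith
  have hA := hQp 25998
  generalize Q ^ 25998 = A at *
  generalize ((Lv Q 13001 s).card : ℝ) = N at *
  -- Q^2 A ≤ Q^2 N + A
  have f1 : (Q ^ 2) * (A - N) ≤ A := by linarith [mul_sub (Q ^ 2) A N]
  by_cases hAN : A ≤ N
  · linarith
  · have f2 : 4 * (A - N) ≤ Q ^ 2 * (A - N) :=
      mul_le_mul_of_nonneg_right hQ2 (by linarith [not_le.1 hAN])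
    linarith

lemma LBl_mono (S : Finset V) (s : V → ℝ) (q : ℕ) (M M' : ℝ) (h : LBl S s q M) (hM : M ≤ M') :
    LBl S s q M' := fun U Z hZ => (h U Z hZ).trans hM

lemma Rch_mono (s : V → ℝ) (σ : ℝ) (x₀ : V) (m : ℕ) (ρ ρ' : ℝ) (h : Rch s σ x₀ m ρ)
    (hρ : ρ ≤ ρ') : Rch s σ x₀ m ρ' := fun W B h1 h2 => (h W B h1 h2).trans hρ

lemma card_pow (c Q : ℝ) (n k : ℕ) (hQ : 0 < Q) (hc : c ≤ Q ^ n) :
    c * (1 / Q) ^ (n + k) ≤ (1 / Q) ^ k := by
  have hQp : ∀ n : ℕ, 0 < Q ^ n := fun n => pow_pos hQ n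
  rw [pow_add, ← mul_assoc]
  have h1 : c * (1 / Q) ^ n ≤ 1 := by
    rw [one_div, inv_pow, ← div_eq_mul_inv, div_le_one (hQp n)]
    exact hc
  have h2 : 0 ≤ (1 / Q) ^ k := by positivity
  calc c * (1 / Q) ^ n * (1 / Q) ^ k ≤ 1 * (1 / Q) ^ k := mul_le_mul_of_nonneg_right h1 h2
    _ = (1 / Q) ^ k := one_mul _

end DRV_

open DRV_ in
theorem p_DRV (h_BAS : T_BAS) (h_MER : T_MER) (h_GMB : T_GMB) (h_LBL : T_LBL)
    (h_RICH : T_RICH) : T_DRV := by
  obtain ⟨C₁, hC₁, hLBL⟩ := h_LBL 26000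
  obtain ⟨C₂, hC₂, hRICH⟩ := h_RICH 52000
  refine ⟨max 4 (max C₁ C₂), le_trans (by norm_num) (le_max_left _ _), ?_⟩
  intro Q hQ₀ V _ _ _ s hStk
  have hQ4 : 4 ≤ Q := le_trans (le_max_left _ _) hQ₀
  have hQC₁ : C₁ ≤ Q := le_trans (le_trans (le_max_left _ _) (le_max_right _ _)) hQ₀
  have hQC₂ : C₂ ≤ Q := le_trans (le_trans (le_max_right _ _) (le_max_right _ _)) hQ₀
  have hQ0 : 0 < Q := by linarith
  have hQ1 : 1 ≤ Q := by linarith
  have hQp : ∀ n : ℕ, 0 < Q ^ n := fun n => pow_pos hQ0 n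
  obtain ⟨hBl, hs0, het, hcard, hsm, hmer⟩ := hStk
  obtain ⟨hP, hR, -, -, -⟩ := h_BAS V s hBl
  obtain ⟨hM1, hM2⟩ := h_MER V (Sp s) (Q ^ 13001) (hQp _).le
  have hMB : MB (Sp s) (Q ^ 13001) := hM1 hmer
  have hrr := (hM2 hMB).1
  have h0S : (0 : V) ∈ Sp s := (mem_Sp s 0).2 hs0
  have hle1 := et_le_one s
  have hz := zero_small Q s hQ1 het hs0 hP hR hcard hsm hrr
  have hfour : 1 ≤ et s * Q ^ 4 := by
    have h1 := et_sq s het
    have h2 : s 0 ^ 2 ≤ (et s * Q ^ 3) ^ 2 := by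
      rw [← sq_abs (s 0)]
      exact pow_le_pow_left₀ (abs_nonneg _) hz 2
    have h3 : (1 : ℝ) ≤ (et s * Q ^ 4) ^ 2 := by
      have h4 : (et s * Q ^ 3) ^ 2 = et s ^ 2 * Q ^ 6 := by ring
      have h5 : (et s * Q ^ 4) ^ 2 = et s ^ 2 * (Q ^ 2 * Q ^ 6) := by ring
      have h6 : 1 + Q ^ 6 ≤ Q ^ 2 * Q ^ 6 := by
        have h7 : 1 ≤ Q ^ 6 := one_le_pow₀ hQ1
        have h8 : 2 ≤ Q ^ 2 := by nlinarith
        nlinarith
      have h9 : et s ^ 2 * (1 + Q ^ 6) ≤ et s ^ 2 * (Q ^ 2 * Q ^ 6) :=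
        mul_le_mul_of_nonneg_left h6 (sq_nonneg _)
      have h10 : et s ^ 2 * (1 + Q ^ 6) = et s ^ 2 + et s ^ 2 * Q ^ 6 := by ring
      linarith
    have h11 : 0 ≤ et s * Q ^ 4 := mul_nonneg het.le (hQp _).le
    nlinarith
  refine ⟨hMB, h0S, hle1, hfour, hz, count_large Q s (by linarith) het hP hcard hsm, ?_, ?_, ?_⟩
  · -- heavy directions
    intro d hd hE
    have h1 := h_GMB V (Sp s) (Lv Q 13022 s) (Q ^ 12760) d (Lv_sub Q 13022 s het) hd
    have h2 : (4 : ℝ) ≤ Q ^ 12760 := by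
      calc (4 : ℝ) ≤ Q := hQ4
        _ = Q ^ 1 := (pow_one Q).symm
        _ ≤ Q ^ 12760 := pow_le_pow_right₀ hQ1 (by norm_num)
    have h3 : Q ^ 12760 / 2 ≤ Q ^ 12760 - 2 := by linarith
    have h4 : ((Gm (Lv Q 13022 s) (Q ^ 12760) d).card : ℝ) * (Q ^ 12760 / 2) ≤ Q ^ 26016 :=
      ((mul_le_mul_of_nonneg_left h3 (Nat.cast_nonneg _)).trans h1).trans hE
    have h5 : Q ^ 12760 * ((Gm (Lv Q 13022 s) (Q ^ 12760) d).card : ℝ) ≤
        Q ^ 12760 * (2 * Q ^ 13256) := by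
      have h6 : Q ^ 12760 * (2 * Q ^ 13256) = 2 * Q ^ 26016 := by ring
      linarith
    exact le_of_mul_le_mul_left h5 (hQp _)
  · -- the block lemma
    intro q
    have h1 : ((Sp s).card : ℝ) * (1 / Q) ^ 26000 ≤ 1 := by
      have := card_pow ((Sp s).card : ℝ) Q 26000 0 hQ0 hcard
      simpa using this
    have h2 := hLBL V s (1 / Q) hBl (by positivity) (by rw [div_le_one hQ0]; exact hQ1) h1 q
    refine LBl_mono _ _ _ _ _ h2 ?_
    have h3 : C₁ / (1 / Q) = C₁ * Q := by field_simp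
    rw [h3]
    nlinarith
  · -- the rich lemma
    intro x₀ m hm
    have hm1 : (1 : ℝ) ≤ Real.sqrt m := by
      rw [Real.one_le_sqrt]
      exact_mod_cast hm
    have hσ : 0 < et s / Q ^ 13022 := div_pos het (hQp _)
    have hσ2 : 1 ≤ (et s / Q ^ 13022) * Q ^ 13026 := by
      have : (et s / Q ^ 13022) * Q ^ 13026 = et s * Q ^ 4 := by
        have h3 : Q ^ 13026 = Q ^ 13022 * Q ^ 4 := by ring
        rw [h3, ← mul_assoc, div_mul_cancel₀ _ (hQp _).ne']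
      rw [this]; exact hfour
    have h1 : ((Sp s).card : ℝ) * (1 / Q) ^ 52000 ≤ (1 / Q) ^ 26000 :=
      card_pow ((Sp s).card : ℝ) Q 26000 26000 hQ0 hcard
    have hinv : ∀ n : ℕ, (1 / Q) ^ n ≤ 1 := fun n =>
      pow_le_one₀ (by positivity) (by rw [div_le_one hQ0]; exact hQ1)
    have h2 : ((Sp s).card : ℝ) * (1 / Q) ^ 52000 ≤ 1 := h1.trans (hinv _)
    have hms : et s / Q ^ 13022 ≤ Real.sqrt m * (et s / Q ^ 13022) := by
      have := mul_le_mul_of_nonneg_right hm1 hσ.le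
      linarith
    have h3 : C₂ * (((Sp s).card : ℝ) * (1 / Q) ^ 52000) ≤ Real.sqrt m * (et s / Q ^ 13022) := by
      refine le_trans ?_ hms
      have h4 : C₂ * (((Sp s).card : ℝ) * (1 / Q) ^ 52000) ≤ Q * (1 / Q) ^ 26000 :=
        mul_le_mul hQC₂ h1 (by positivity) hQ0.le
      refine h4.trans ?_
      -- Q * (1/Q)^26000 ≤ (1/Q)^13026 ≤ σ
      have h5 : Q * (1 / Q) ^ 26000 ≤ (1 / Q) ^ 13026 := by
        have h6 : (1 / Q) ^ 26000 = (1 / Q) ^ 13026 * ((1 / Q) ^ 12973 * (1 / Q)) := by ring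
        have h7 : Q * (1 / Q) ^ 26000 = (1 / Q) ^ 13026 * (1 / Q) ^ 12973 := by
          rw [h6]
          have h8 : Q * (1 / Q) = 1 := by field_simp
          calc Q * ((1 / Q) ^ 13026 * ((1 / Q) ^ 12973 * (1 / Q))) =
              (1 / Q) ^ 13026 * (1 / Q) ^ 12973 * (Q * (1 / Q)) := by ring
            _ = (1 / Q) ^ 13026 * (1 / Q) ^ 12973 := by rw [h8, mul_one]
        rw [h7]
        have h9 : 0 ≤ (1 / Q) ^ 13026 := by positivity
        nlinarith [hinv 12973]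
      refine h5.trans ?_
      rw [one_div, inv_pow, ← one_div, div_le_iff₀ (hQp _)]
      exact hσ2
    have h4 := hRICH V s (1 / Q) hBl (by positivity) (by rw [div_le_one hQ0]; exact hQ1) h2 x₀
      (et s / Q ^ 13022) m hσ hm h3
    refine Rch_mono _ _ _ _ _ _ h4 ?_
    have hsm0 : 0 < Real.sqrt m := by linarith
    rw [div_le_div_iff₀ (by positivity) hsm0]
    have h5 : C₂ ≤ Q ^ 13029 * ((1 / Q) ^ 2 * (et s / Q ^ 13022)) := by
      have h6 : Q ^ 13029 * ((1 / Q) ^ 2 * (et s / Q ^ 13022)) =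
          Q * ((et s / Q ^ 13022) * Q ^ 13026) := by
        have h7 : Q ^ 13029 * (1 / Q) ^ 2 = Q ^ 13027 := by
          have h8 : Q ^ 13029 = Q ^ 13027 * Q ^ 2 := by ring
          rw [h8, mul_assoc, ← mul_pow]
          have h9 : Q * (1 / Q) = 1 := by field_simp
          rw [h9, one_pow, mul_one]
        calc Q ^ 13029 * ((1 / Q) ^ 2 * (et s / Q ^ 13022)) =
            (Q ^ 13029 * (1 / Q) ^ 2) * (et s / Q ^ 13022) := by ring
          _ = Q ^ 13027 * (et s / Q ^ 13022) := by rw [h7]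
          _ = Q * ((et s / Q ^ 13022) * Q ^ 13026) := by ring
      rw [h6]
      nlinarith
    calc C₂ * Real.sqrt m ≤ (Q ^ 13029 * ((1 / Q) ^ 2 * (et s / Q ^ 13022))) * Real.sqrt m :=
          mul_le_mul_of_nonneg_right h5 hsm0.le
      _ = Q ^ 13029 * ((1 / Q) ^ 2 * (Real.sqrt m * (et s / Q ^ 13022))) := by ring

end Pool.Agent.XPS
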