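import Pool.Agent.XPS.Targets

set_option autoImplicit false

/-!
# MP_9f5962_lc, project XPS: the dyadic pigeonhole
-/

open scoped Classical

noncomputable section

namespace Pool.Agent.XPS

theorem DYA_.class_sum {α β : Type} (N : α → Finset β) (g : α → β → ℕ) (L : ℕ) (d : α)
    (h : ∀ x ∈ N d, 1 ≤ g d x ∧ g d x < 2 ^ L) :
    ∑ x ∈ N d, (g d x : ℝ) = ∑ i ∈ Finset.range L,
      ∑ x ∈ (N d).filter (fun x => 2 ^ i ≤ g d x ∧ g d x < 2 ^ (i + 1)), (g d x : ℝ) := by
  simp only [Finset.sum_filter]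
  rw [Finset.sum_comm]
  refine Finset.sum_congr rfl fun x hx => ?_
  obtain ⟨h1, h2⟩ := h x hx
  rw [Finset.sum_eq_single (Nat.log 2 (g d x))]
  · rw [if_pos ⟨Nat.pow_log_le_self 2 (by omega), Nat.lt_pow_succ_log_self (by norm_num) _⟩]
  · intro i _ hi
    rw [if_neg]
    rintro ⟨h3, h4⟩
    refine hi ?_
    exact ((Nat.log_eq_iff (by right; exact ⟨by norm_num, by omega⟩)).2 ⟨h3, h4⟩).symm
  · intro hi
    exfalso
    refine hi (Finset.mem_range.2 ?_)
    exact Nat.log_lt_of_lt_pow (by omega) h2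

/-- Target DYA. -/
theorem p_DYA : T_DYA := by
  intro α β Dd N g L W hL hg hW
  set C : ℕ → α → ℝ := fun i d =>
    ∑ x ∈ (N d).filter (fun x => 2 ^ i ≤ g d x ∧ g d x < 2 ^ (i + 1)), (g d x : ℝ) with hC
  have hex : ∀ d ∈ Dd, ∃ i < L, W ≤ L * C i d := by
    intro d hd
    by_contra hc
    push Not at hc
    have h1 := hW d hd
    rw [DYA_.class_sum N g L d (hg d hd)] at h1
    have h2 : (L : ℝ) * ∑ i ∈ Finset.range L, C i d < L * W := by
      rw [Finset.mul_sum]
      calc ∑ i ∈ Finset.range L, (L : ℝ) * C i d < ∑ _i ∈ Finset.range L, W :=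
            Finset.sum_lt_sum_of_nonempty (Finset.nonempty_range_iff.2 (by omega))
              fun i hi => hc i (Finset.mem_range.1 hi)
        _ = L * W := by simp
    have h3 : (0 : ℝ) < L := by exact_mod_cast hL
    have h4 := lt_of_mul_lt_mul_left h2 h3.le
    linarith
  set Gd : ℕ → Finset α := fun i => Dd.filter (fun d => W ≤ L * C i d) with hGd
  have hcard : Dd.card ≤ ∑ i ∈ Finset.range L, (Gd i).card := by
    refine le_trans (Finset.card_le_card ?_) Finset.card_biUnion_le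
    intro d hd
    obtain ⟨i, hi, h1⟩ := hex d hd
    exact Finset.mem_biUnion.2 ⟨i, Finset.mem_range.2 hi, Finset.mem_filter.2 ⟨hd, h1⟩⟩
  have hpig : ∃ i < L, Dd.card ≤ L * (Gd i).card := by
    by_contra hc
    push Not at hc
    have h1 : ∑ i ∈ Finset.range L, L * (Gd i).card < ∑ _i ∈ Finset.range L, Dd.card :=
      Finset.sum_lt_sum_of_nonempty (Finset.nonempty_range_iff.2 (by omega))
        fun i hi => hc i (Finset.mem_range.1 hi)
    rw [← Finset.mul_sum, Finset.sum_const, Finset.card_range, smul_eq_mul] at h1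
    have h2 := Nat.lt_of_mul_lt_mul_left h1
    omega
  obtain ⟨i, hi, h1⟩ := hpig
  exact ⟨i, Gd i, hi, Finset.filter_subset _ _, h1, fun d hd => (Finset.mem_filter.1 hd).2⟩

end Pool.Agent.XPS
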