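import Pool.Agent.XPS.Targets

set_option autoImplicit false

/-!
# MP_9f5962_lc: incidences are bounded by the energy
-/

open scoped Classical

noncomputable section

namespace Pool.Agent.XPS

open Pool.Agent.LRC

private lemma eng_two {V : Type} [AddCommGroup V] [Module (ZMod 2) V] (x : V) : x + x = 0 := by
  have h : (2 : ZMod 2) • x = 0 := by
    have h2 : (2 : ZMod 2) = 0 := by decide
    rw [h2, zero_smul]
  rwa [two_smul] at h

private lemma eng_count {α β γ : Type} (D : Finset α) (F : α → Finset β) (B : Finset (α × γ))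
    (φ : α → β → γ) (h : ∀ a ∈ D, ∀ b ∈ F a, (a, φ a b) ∈ B)
    (hi : ∀ a b b', φ a b = φ a b' → b = b') : ∑ a ∈ D, (F a).card ≤ B.card := by
  rw [← Finset.card_sigma]
  refine Finset.card_le_card_of_injOn (fun p => (p.1, φ p.1 p.2)) ?_ ?_
  · intro p hp
    rw [Finset.mem_coe, Finset.mem_sigma] at hp
    exact h p.1 hp.1 p.2 hp.2
  · rintro ⟨a, b⟩ _ ⟨a', b'⟩ _ hpq
    simp only [Prod.mk.injEq] at hpq
    obtain ⟨h1, h2⟩ := hpq
    subst h1
    rw [hi a b b' h2]

theorem p_ENG : T_ENG := by
  intro V _ _ _ S T Hu Dd κ N hTS hDT hN v hv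
  have e2 : ∀ x : V, x + x = 0 := fun x => eng_two x
  have e3 : ∀ x y : V, x + (y + x) = y := fun x y => by
    rw [add_comm y x, ← add_assoc, e2, zero_add]
  have e4 : ∀ x y : V, x + (x + y) = y := fun x y => by
    rw [← add_assoc, e2, zero_add]
  refine ⟨?_, ?_, ?_⟩
  · refine eng_count Dd _ (Bk S v) (fun _ t => t) ?_ (fun _ _ _ h => h)
    intro d hd t ht
    rw [Finset.mem_filter] at ht
    obtain ⟨ht, hg⟩ := ht
    rw [Gx, Finset.mem_filter, Gm, Finset.mem_filter] at hg
    obtain ⟨⟨_, hg0, _, hg1⟩, hg2, hg3, _⟩ := hg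
    obtain ⟨hNT, hdN⟩ := hN d hd
    rw [Bk, Finset.mem_filter, Finset.mem_product]
    refine ⟨⟨hTS (hDT hd), hTS (hNT ht)⟩, ?_, ?_, ?_, ?_⟩
    · intro h
      simp only at h
      exact hdN (h ▸ ht)
    · intro h
      simp only at h
      exact hg0 (by rw [h, e2])
    · intro h
      simp only at h
      exact hg3 (by rw [h, e4])
    · have : v + d + t = t + (v + d) := by abel
      simp only
      rw [this]
      exact hTS hg2
  · refine eng_count Dd _ (Bk S v) (fun _ t => t) ?_ (fun _ _ _ h => h)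
    intro d hd t ht
    rw [Finset.mem_filter] at ht
    obtain ⟨ht, hg⟩ := ht
    rw [Gx, Finset.mem_filter, Gm, Finset.mem_filter] at hg
    obtain ⟨⟨_, hg0, _, hg1⟩, hg2, hg3, _⟩ := hg
    obtain ⟨hNT, hdN⟩ := hN d hd
    rw [Bk, Finset.mem_filter, Finset.mem_product]
    refine ⟨⟨hTS (hDT hd), hTS (hNT ht)⟩, ?_, ?_, ?_, ?_⟩
    · intro h
      simp only at h
      exact hdN (h ▸ ht)
    · intro h
      simp only at h
      exact hg3 (by rw [h, e3])
    · intro h
      simp only at h
      exact hg0 (by rw [h, e2])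
    · have : v + d + t = d + (v + t) := by abel
      simp only
      rw [this]
      exact hTS hg1
  · refine eng_count (Dd.filter (fun d => v ∈ N d)) (fun d => Gx T Hu κ d v) (Bk S v)
      (fun d g => d + g) ?_ (fun _ _ _ h => add_left_cancel h)
    intro d hd g hg
    rw [Finset.mem_filter] at hd
    obtain ⟨hd, hvN⟩ := hd
    rw [Gx, Finset.mem_filter, Gm, Finset.mem_filter] at hg
    obtain ⟨⟨_, hg0, _, hg1⟩, hg2, hg3, _⟩ := hg
    obtain ⟨hNT, hdN⟩ := hN d hd
    rw [Bk, Finset.mem_filter, Finset.mem_product]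
    refine ⟨⟨hTS (hDT hd), hTS hg1⟩, ?_, ?_, ?_, ?_⟩
    · intro h
      simp only at h
      exact hg0 (by simpa using h)
    · intro h
      simp only at h
      exact hdN (by rw [h]; rw [h] at hvN; exact hvN)
    · intro h
      simp only at h
      exact hg3 (by rw [← h, add_assoc, e2, add_zero])
    · have : v + d + (d + g) = v + (d + (d + g)) := by abel
      simp only
      rw [this, e4]
      exact hTS hg2

end Pool.Agent.XPS
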