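import Pool.Agent.XPS.Targets

set_option autoImplicit false

/-!
# Powers of `Q`: tools for the numerical parts
-/

namespace Pool.Agent.XPS

theorem pw_le (Q C : ℝ) (a b : ℕ) (h1 : 1 ≤ Q) (hC : C ≤ Q) (hab : a < b) :
    C * Q ^ a ≤ Q ^ b := by
  have h : Q ^ (a + 1) ≤ Q ^ b := pow_le_pow_right₀ h1 hab
  have h2 : 0 ≤ Q ^ a := by positivity
  calc C * Q ^ a ≤ Q * Q ^ a := by gcongr
    _ = Q ^ (a + 1) := by ring
    _ ≤ Q ^ b := h

theorem pw_lt (Q C : ℝ) (a b : ℕ) (h1 : 1 ≤ Q) (hC : C < Q) (hab : a < b) :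
    C * Q ^ a < Q ^ b := by
  have h : Q ^ (a + 1) ≤ Q ^ b := pow_le_pow_right₀ h1 hab
  have h2 : 0 < Q ^ a := by positivity
  calc C * Q ^ a < Q * Q ^ a := by gcongr
    _ = Q ^ (a + 1) := by ring
    _ ≤ Q ^ b := h

theorem pw_mono (Q : ℝ) (a b : ℕ) (h1 : 1 ≤ Q) (hab : a ≤ b) : Q ^ a ≤ Q ^ b :=
  pow_le_pow_right₀ h1 hab

theorem pw_one (Q : ℝ) (a : ℕ) (h1 : 1 ≤ Q) : 1 ≤ Q ^ a := one_le_pow₀ h1

/-- Logarithms are small. -/
theorem pw_log (C : ℝ) : ∃ Q₀ : ℝ, 1 ≤ Q₀ ∧ ∀ Q : ℝ, Q₀ ≤ Q → C * Real.log Q + C ≤ Q := by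
  refine ⟨max 1 ((4 * |C| + 1) ^ 2), le_max_left _ _, fun Q hQ => ?_⟩
  have h1 : 1 ≤ Q := le_trans (le_max_left _ _) hQ
  have h2 : (4 * |C| + 1) ^ 2 ≤ Q := le_trans (le_max_right _ _) hQ
  have h3 : 4 * |C| + 1 ≤ Real.sqrt Q := by
    apply Real.le_sqrt_of_sq_le
    exact h2
  have h4 : Real.log Q ≤ 2 * Real.sqrt Q := by
    have h5 : Real.log (Real.sqrt Q) ≤ Real.sqrt Q - 1 :=
      Real.log_le_sub_one_of_pos (Real.sqrt_pos.mpr (by linarith))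
    have h6 : Real.log (Real.sqrt Q) = Real.log Q / 2 := Real.log_sqrt (by linarith)
    linarith
  have h7 : 0 ≤ Real.log Q := Real.log_nonneg h1
  have h8 : C ≤ |C| := le_abs_self C
  have h9 : 0 ≤ |C| := abs_nonneg C
  have h10 : Real.sqrt Q * Real.sqrt Q = Q := Real.mul_self_sqrt (by linarith)
  have h11 : 1 ≤ Real.sqrt Q := by linarith
  calc C * Real.log Q + C ≤ |C| * (2 * Real.sqrt Q) + |C| * Real.sqrt Q := by
        have a1 : C * Real.log Q ≤ |C| * (2 * Real.sqrt Q) := by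
          calc C * Real.log Q ≤ |C| * Real.log Q := by gcongr
            _ ≤ |C| * (2 * Real.sqrt Q) := by gcongr
        have a2 : |C| ≤ |C| * Real.sqrt Q := by nlinarith
        linarith
    _ = (3 * |C|) * Real.sqrt Q := by ring
    _ ≤ Real.sqrt Q * Real.sqrt Q := by
        apply mul_le_mul_of_nonneg_right _ (Real.sqrt_nonneg Q)
        linarith
    _ = Q := h10

end Pool.Agent.XPS
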