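import Pool.Agent.XPS.Targets
import Pool.Agent.XPS.Pw

set_option autoImplicit false

/-!
# XPS, target EVA: the evaluation of the second identity
-/

open scoped Classical

noncomputable section

namespace Pool.Agent.XPS

open Pool.Agent.LRC

namespace EVA_

theorem numk (Q u η : ℝ) (k m n : ℕ) (hQ : 8 ≤ Q) (h0 : 0 ≤ η) (h1 : η ≤ 1)
    (hu : η ≤ u * Q ^ k) (hmn : m + 1 + k < n) :
    2 * Q ^ m * (η ^ 2 / Q ^ n) ≤ u / (4 * Q) := by
  have hQ1 : 1 ≤ Q := by linarith
  have hQ0 : 0 < Q := by linarith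
  have hpos : ∀ m : ℕ, 0 < Q ^ m := fun m => pow_pos hQ0 m
  have hu0 : 0 ≤ u := by
    by_contra h
    have h2 : u * Q ^ k < 0 := mul_neg_of_neg_of_pos (not_le.1 h) (hpos _)
    linarith
  rw [← mul_div_assoc, div_le_div_iff₀ (hpos n) (by linarith)]
  have h2 : η ^ 2 ≤ u * Q ^ k := by
    have : η ^ 2 ≤ η := by
      rw [sq]
      exact mul_le_of_le_one_left h0 h1
    linarith
  have h3 : 8 * Q ^ (m + 1 + k) ≤ Q ^ n := pw_le Q 8 (m + 1 + k) n hQ1 hQ hmn
  calc 2 * Q ^ m * η ^ 2 * (4 * Q) = 8 * Q ^ (m + 1) * η ^ 2 := by rw [pow_succ]; ring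
    _ ≤ 8 * Q ^ (m + 1) * (u * Q ^ k) :=
        mul_le_mul_of_nonneg_left h2 (mul_nonneg (by norm_num) (hpos _).le)
    _ = u * (8 * Q ^ (m + 1 + k)) := by
        rw [pow_add Q (m + 1) k]
        ring
    _ ≤ u * Q ^ n := mul_le_mul_of_nonneg_left h3 hu0

theorem num (Q u η : ℝ) (m n : ℕ) (hQ : 8 ≤ Q) (h0 : 0 ≤ η) (h1 : η ≤ 1)
    (hu : η ≤ u * Q ^ 13001) (hmn : m + 1 + 13001 < n) :
    2 * Q ^ m * (η ^ 2 / Q ^ n) ≤ u / (4 * Q) :=
  numk Q u η 13001 m n hQ h0 h1 hu hmn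

theorem num0 (Q η : ℝ) (m n : ℕ) (hQ : 8 ≤ Q) (h0 : 0 ≤ η) (h1 : η ≤ 1) (hmn : m + 1 < n) :
    2 * Q ^ m * (η ^ 2 / Q ^ n) ≤ 1 / (4 * Q) := by
  have hQ1 : 1 ≤ Q := by linarith
  have hQ0 : 0 < Q := by linarith
  have hpos : ∀ m : ℕ, 0 < Q ^ m := fun m => pow_pos hQ0 m
  rw [← mul_div_assoc, div_le_div_iff₀ (hpos n) (by linarith)]
  have h2 : η ^ 2 ≤ 1 := pow_le_one₀ h0 h1
  have h3 : 8 * Q ^ (m + 1) ≤ Q ^ n := pw_le Q 8 (m + 1) n hQ1 hQ hmn
  calc 2 * Q ^ m * η ^ 2 * (4 * Q) = 8 * Q ^ (m + 1) * η ^ 2 := by rw [pow_succ]; ring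
    _ ≤ 8 * Q ^ (m + 1) * 1 :=
        mul_le_mul_of_nonneg_left h2 (mul_nonneg (by norm_num) (hpos _).le)
    _ ≤ 1 * Q ^ n := by linarith

variable {V : Type} [AddCommGroup V] [Module (ZMod 2) V] [Fintype V]

/-- Few terms of the autocorrelation are not zero. -/
theorem few (s : V → ℝ) (d : V) (A : Finset V) (c : ℝ) (hc : 0 ≤ c)
    (h : ∀ g ∈ A, |s g * s (d + g)| ≤ c) :
    |∑ g ∈ A, s g * s (d + g)| ≤ (rr (Sp s) d : ℝ) * c := by
  rw [← Finset.sum_filter_ne_zero]
  refine (Finset.abs_sum_le_sum_abs _ _).trans ?_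
  refine (Finset.sum_le_card_nsmul _ _ c ?_).trans ?_
  · intro g hg
    exact h g (Finset.mem_filter.1 hg).1
  · rw [nsmul_eq_mul]
    refine mul_le_mul_of_nonneg_right ?_ hc
    have : (A.filter fun g => s g * s (d + g) ≠ 0).card ≤ rr (Sp s) d := by
      unfold rr
      refine Finset.card_le_card fun g hg => ?_
      have hg2 := (Finset.mem_filter.1 hg).2
      rw [Finset.mem_filter]
      unfold Sp
      simp only [Finset.mem_filter, Finset.mem_univ, true_and]
      refine ⟨left_ne_zero_of_mul hg2, ?_⟩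
      rw [add_comm]
      exact right_ne_zero_of_mul hg2
    exact_mod_cast this

/-- The squares. -/
theorem sqs (s : V → ℝ) (d : V) (A : Finset V) (a : ℝ)
    (h : ∀ g ∈ A, |s (d + g)| ≤ a) : |∑ g ∈ A, s (d + g) ^ 2| ≤ (A.card : ℝ) * a ^ 2 := by
  refine (Finset.abs_sum_le_sum_abs _ _).trans ?_
  refine (Finset.sum_le_card_nsmul _ _ (a ^ 2) ?_).trans ?_
  · intro g hg
    rw [abs_pow]
    exact pow_le_pow_left₀ (abs_nonneg _) (h g hg) 2
  · rw [nsmul_eq_mul]

/-- The fibres. -/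
theorem fib (B : Finset (V × V)) (A : Finset V) (y : ℝ)
    (h : ∀ g ∈ A, y ≤ 2 * ((B.filter fun p => p.1 = g).card : ℝ)) :
    (A.card : ℝ) * y ≤ 2 * (B.card : ℝ) := by
  have h1 : ∑ g ∈ A, ((B.filter fun p => p.1 = g).card : ℝ) ≤ (B.card : ℝ) := by
    have h2 : ∑ g ∈ A, (B.filter fun p => p.1 = g).card ≤ B.card := by
      have h3 := Finset.card_eq_sum_card_fiberwise (f := fun p : V × V => p.1)
        (s := B.filter fun p => p.1 ∈ A) (t := A) (fun p hp => (Finset.mem_filter.1 hp).2)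
      have h4 : ∀ g ∈ A, (B.filter fun p => p.1 = g) =
          ((B.filter fun p => p.1 ∈ A).filter fun p => p.1 = g) := by
        intro g hg
        ext p
        simp only [Finset.mem_filter]
        constructor
        · rintro ⟨h5, rfl⟩
          exact ⟨⟨h5, hg⟩, rfl⟩
        · rintro ⟨⟨h5, _⟩, h6⟩
          exact ⟨h5, h6⟩
      rw [Finset.sum_congr rfl fun g hg => congrArg Finset.card (h4 g hg), ← h3]
      exact Finset.card_le_card (Finset.filter_subset _ _)
    exact_mod_cast h2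
  calc (A.card : ℝ) * y = ∑ _g ∈ A, y := by rw [Finset.sum_const, nsmul_eq_mul]
    _ ≤ ∑ g ∈ A, 2 * ((B.filter fun p => p.1 = g).card : ℝ) := Finset.sum_le_sum h
    _ = 2 * ∑ g ∈ A, ((B.filter fun p => p.1 = g).card : ℝ) := by rw [Finset.mul_sum]
    _ ≤ 2 * (B.card : ℝ) := by linarith

end EVA_

open EVA_ in
theorem p_EVA : T_DRV → T_BAS → T_MER → T_POP → T_EVA := by
  rintro ⟨Q₁, hQ₁, h_DRV⟩ h_BAS h_MER ⟨Q₂, hQ₂, h_POP⟩
  refine ⟨max 8 (max Q₁ Q₂), le_trans (by norm_num) (le_max_left _ _), ?_⟩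
  intro Q hQ V _ _ _ s hStk T G d hT hG hd hGm hBad
  have hQ8 : 8 ≤ Q := (le_max_left _ _).trans hQ
  have hQQ₁ : Q₁ ≤ Q := ((le_max_left _ _).trans (le_max_right _ _)).trans hQ
  have hQQ₂ : Q₂ ≤ Q := ((le_max_right _ _).trans (le_max_right _ _)).trans hQ
  have hQ1 : 1 ≤ Q := by linarith
  have hQ0 : 0 < Q := by linarith
  have hpos : ∀ m : ℕ, 0 < Q ^ m := fun m => pow_pos hQ0 m
  obtain ⟨hMB, -, hη1, -⟩ := h_DRV Q hQQ₁ V s hStk
  have hStk' := hStk
  obtain ⟨hBl, -, hη0, -, hbd, -⟩ := hStk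
  obtain ⟨-, hR, -, -, hs1⟩ := h_BAS V s hBl
  have hMER := (h_MER V (Sp s) (Q ^ 13001) (hpos _).le).2 hMB
  have hrr := hMER.1
  set η : ℝ := et s with hη
  set a : ℝ := η / Q ^ 12999 with ha
  have ha0 : 0 ≤ a := div_nonneg hη0.le (hpos _).le
  have hba : ∀ x : V, x ≠ 0 → |s x| ≤ a := by
    intro x hx
    rw [ha, le_div_iff₀ (hpos _)]
    exact hbd x hx
  have hd' : d ≠ 0 ∧ η ≤ |s d| * Q ^ 13001 := by
    unfold Lv at hd
    simpa using hd
  obtain ⟨hd0, hdη⟩ := hd'
  set u : ℝ := |s d| with hu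
  have hu0 : 0 ≤ u := abs_nonneg _
  have hG1 : ∀ g ∈ G, g ≠ 0 ∧ d + g ≠ 0 := by
    intro g hg
    rw [hG] at hg
    unfold Gp at hg
    have hg1 := (Finset.mem_filter.1 hg).1
    unfold Gm at hg1
    have hg2 := (Finset.mem_filter.1 hg1).2
    refine ⟨hg2.1, ?_⟩
    have hg3 := hg2.2.2
    rw [hT] at hg3
    unfold Lv at hg3
    exact (Finset.mem_filter.1 hg3).2.1
  have hGc : (G.card : ℝ) ≤ 2 * Q ^ 13256 := by
    have : G.card ≤ (Gm T (Q ^ 12760) d).card := by
      rw [hG]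
      exact Finset.card_le_card (Finset.filter_subset _ _)
    have h2 : (G.card : ℝ) ≤ ((Gm T (Q ^ 12760) d).card : ℝ) := by exact_mod_cast this
    linarith
  have ha2 : a ^ 2 = η ^ 2 / Q ^ 25998 := by
    rw [ha, div_pow, ← pow_mul]
  -- the first part
  have hA : |s d * ∑ g ∈ G, s (d + g) ^ 2| ≤ u * (1 / (4 * Q)) := by
    rw [abs_mul]
    refine mul_le_mul_of_nonneg_left ?_ hu0
    refine (sqs s d G a fun g hg => hba _ (hG1 g hg).2).trans ?_
    refine le_trans ?_ (num0 Q η 13256 25998 hQ8 hη0.le hη1 (by norm_num))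
    rw [ha2]
    refine mul_le_mul_of_nonneg_right hGc (div_nonneg (sq_nonneg _) (hpos _).le)
  have hsplit : ∑ g ∈ G, s (d + g) * (s d * s (d + g) + s 0 * s g) =
      s d * ∑ g ∈ G, s (d + g) ^ 2 + s 0 * ∑ g ∈ G, s g * s (d + g) := by
    rw [Finset.mul_sum, Finset.mul_sum, ← Finset.sum_add_distrib]
    exact Finset.sum_congr rfl fun g _ => by ring
  have hrrd : (rr (Sp s) d : ℝ) ≤ 2 * Q ^ 13001 := hrr d hd0
  have hu4 : u * (1 / (4 * Q)) = u / (4 * Q) := by ring
  have hfin : u / (4 * Q) + u / (4 * Q) + u / (4 * Q) ≤ u / Q := by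
    have h1 : u / Q = 4 * (u / (4 * Q)) := by
      field_simp
    have h2 : 0 ≤ u / (4 * Q) := by positivity
    linarith
  have hu40 : 0 ≤ u / (4 * Q) := by positivity
  by_cases hcase : 1 ≤ |s 0| * Q ^ 6
  · -- `s 0` is large
    right
    have hpop := h_POP Q hQQ₂ V s hStk' hcase
    set C : Finset V := Finset.univ.filter (fun g => g ∉ G ∧ g ≠ 0 ∧ g ≠ d) with hC
    have hdd : d + d = 0 := by
      have h2 : (2 : ZMod 2) = 0 := by decide
      rw [← two_smul (ZMod 2) d, h2, zero_smul]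
    have huniv : (Finset.univ : Finset V) = insert 0 (insert d (G ∪ C)) := by
      ext g
      simp only [Finset.mem_univ, Finset.mem_insert, Finset.mem_union, hC, Finset.mem_filter,
        true_and, true_iff]
      tauto
    have h0G : (0 : V) ∉ G := fun h => (hG1 0 h).1 rfl
    have hdG : d ∉ G := fun h => (hG1 d h).2 hdd
    have hGC : Disjoint G C := by
      rw [Finset.disjoint_left]
      intro g hg hg2
      exact (Finset.mem_filter.1 hg2).2.1 hg
    have hauto : ∑ g ∈ G, s g * s (d + g) = -(2 * (s 0 * s d)) - ∑ g ∈ C, s g * s (d + g) := by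
      have h1 := hR d hd0
      have h2 : ∑ x, s x * s (x + d) = ∑ x, s x * s (d + x) :=
        Finset.sum_congr rfl fun x _ => by rw [add_comm]
      rw [h2, huniv, Finset.sum_insert, Finset.sum_insert, Finset.sum_union hGC, add_zero,
        hdd] at h1
      · linarith
      · simp only [Finset.mem_union, not_or]
        refine ⟨hdG, fun h => ?_⟩
        exact (Finset.mem_filter.1 h).2.2.2 rfl
      · simp only [Finset.mem_insert, Finset.mem_union, not_or]
        refine ⟨fun h => hd0 h.symm, h0G, fun h => ?_⟩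
        exact (Finset.mem_filter.1 h).2.2.1 rfl
    -- the two parts of `C`
    set C1 : Finset V := C.filter (fun g => ¬ (g ∈ Lv Q 13011 s ∧ d + g ∈ Lv Q 13011 s)) with hC1
    set C2 : Finset V := C.filter (fun g => g ∈ Lv Q 13011 s ∧ d + g ∈ Lv Q 13011 s) with hC2
    have hCs : ∑ g ∈ C, s g * s (d + g) =
        ∑ g ∈ C2, s g * s (d + g) + ∑ g ∈ C1, s g * s (d + g) :=
      (Finset.sum_filter_add_sum_filter_not C _ _).symm
    have hCne : ∀ g ∈ C, g ≠ 0 ∧ d + g ≠ 0 := by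
      intro g hg
      have h1 := (Finset.mem_filter.1 hg).2
      refine ⟨h1.2.1, fun h => h1.2.2 ?_⟩
      have h2 : d + (d + g) = d + 0 := by rw [h]
      rw [← add_assoc, hdd, zero_add, add_zero] at h2
      exact h2
    set b : ℝ := η / Q ^ 13011 with hb
    have hb0 : 0 ≤ b := div_nonneg hη0.le (hpos _).le
    have hlow : ∀ x : V, x ≠ 0 → x ∉ Lv Q 13011 s → |s x| ≤ b := by
      intro x hx hx2
      rw [hb, le_div_iff₀ (hpos _)]
      unfold Lv at hx2
      simp only [Finset.mem_filter, Finset.mem_univ, true_and, not_and, not_le] at hx2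
      exact (hx2 hx).le
    have hsum1 : |∑ g ∈ C1, s g * s (d + g)| ≤ u / (4 * Q) := by
      have h1 : ∀ g ∈ C1, |s g * s (d + g)| ≤ b * a := by
        intro g hg
        rw [hC1, Finset.mem_filter] at hg
        obtain ⟨hgC, hg2⟩ := hg
        obtain ⟨hg3, hg4⟩ := hCne g hgC
        rw [abs_mul]
        by_cases h5 : g ∈ Lv Q 13011 s
        · have h6 : d + g ∉ Lv Q 13011 s := fun h => hg2 ⟨h5, h⟩
          rw [mul_comm]
          exact mul_le_mul (hlow _ hg4 h6) (hba _ hg3) (abs_nonneg _) hb0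
        · exact mul_le_mul (hlow _ hg3 h5) (hba _ hg4) (abs_nonneg _) hb0
      refine (few s d C1 (b * a) (mul_nonneg hb0 ha0) h1).trans ?_
      refine le_trans (mul_le_mul_of_nonneg_right hrrd (mul_nonneg hb0 ha0)) ?_
      have h2 : b * a = η ^ 2 / Q ^ 26010 := by
        rw [ha, hb, div_mul_div_comm, ← pow_add, ← sq]
      rw [h2]
      exact num Q u η 13001 26010 hQ8 hη0.le hη1 hdη (by norm_num)
    have hC2c : (C2.card : ℝ) * Q ^ 12981 ≤ 2 * Q ^ 25976 := by
      refine (fib (Bad T (Q ^ 12760) (Q ^ 2500) d) C2 (Q ^ 12981) ?_).trans (by linarith)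
      intro g hg
      rw [hC2, Finset.mem_filter] at hg
      obtain ⟨hgC, hg2, hg3⟩ := hg
      have hgC' := (Finset.mem_filter.1 hgC).2
      have h1 : Q ^ 12981 ≤ (rr T g : ℝ) := by
        rw [hT]
        exact hpop g hg2
      have h2 : d + g ∈ T := by
        rw [hT]
        unfold Lv at hg3 ⊢
        simp only [Finset.mem_filter, Finset.mem_univ, true_and] at hg3 ⊢
        refine ⟨hg3.1, hg3.2.trans ?_⟩
        exact mul_le_mul_of_nonneg_left (pw_mono Q _ _ hQ1 (by norm_num)) (abs_nonneg _)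
      have h3 : g ∈ Gm T (Q ^ 12760) d := by
        unfold Gm
        simp only [Finset.mem_filter, Finset.mem_univ, true_and]
        exact ⟨hgC'.2.1, (pw_mono Q 12760 12981 hQ1 (by norm_num)).trans h1, h2⟩
      have h4 : ¬ (2 * ((Bad T (Q ^ 12760) (Q ^ 2500) d).filter (fun p => p.1 = g)).card ≤
          rr T g) := by
        intro h5
        apply hgC'.1
        rw [hG]
        unfold Gp
        exact Finset.mem_filter.2 ⟨h3, h5⟩
      rw [not_le] at h4
      have h6 : (rr T g : ℝ) ≤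
          2 * (((Bad T (Q ^ 12760) (Q ^ 2500) d).filter (fun p => p.1 = g)).card : ℝ) := by
        exact_mod_cast h4.le
      exact h1.trans h6
    have hC2d : (C2.card : ℝ) ≤ 2 * Q ^ 12995 := by
      refine le_of_mul_le_mul_right (hC2c.trans (le_of_eq ?_)) (hpos 12981)
      rw [mul_assoc, ← pow_add]
    have hsum2 : |∑ g ∈ C2, s g * s (d + g)| ≤ u / (4 * Q) := by
      refine (Finset.abs_sum_le_sum_abs _ _).trans ?_
      refine (Finset.sum_le_card_nsmul _ _ (a ^ 2) ?_).trans ?_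
      · intro g hg
        obtain ⟨hg3, hg4⟩ := hCne g (Finset.mem_filter.1 hg).1
        rw [abs_mul, sq]
        exact mul_le_mul (hba _ hg3) (hba _ hg4) (abs_nonneg _) ha0
      · rw [nsmul_eq_mul, ha2]
        refine le_trans (mul_le_mul_of_nonneg_right hC2d
          (div_nonneg (sq_nonneg _) (hpos _).le)) ?_
        exact num Q u η 12995 25998 hQ8 hη0.le hη1 hdη (by norm_num)
    have hid : ∑ g ∈ G, s (d + g) * (s d * s (d + g) + s 0 * s g) + 2 * s 0 ^ 2 * s d =
        s d * ∑ g ∈ G, s (d + g) ^ 2 -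
          s 0 * (∑ g ∈ C2, s g * s (d + g) + ∑ g ∈ C1, s g * s (d + g)) := by
      rw [hsplit, hauto, hCs]
      ring
    rw [hid]
    refine (abs_sub _ _).trans ?_
    have h7 : |s 0 * (∑ g ∈ C2, s g * s (d + g) + ∑ g ∈ C1, s g * s (d + g))| ≤
        u / (4 * Q) + u / (4 * Q) := by
      rw [abs_mul]
      refine (mul_le_of_le_one_left (abs_nonneg _) (hs1 0)).trans ?_
      refine (abs_add_le _ _).trans ?_
      linarith
    rw [hu4] at hA
    linarith
  · -- `s 0` is small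
    left
    rw [not_le] at hcase
    constructor
    · have h1 : Q ≤ Q ^ 6 := le_self_pow₀ hQ1 (by norm_num)
      exact (mul_le_mul_of_nonneg_left h1 (abs_nonneg _)).trans hcase.le
    · rw [hsplit]
      refine (abs_add_le _ _).trans ?_
      have h1 : |∑ g ∈ G, s g * s (d + g)| ≤ 2 * Q ^ 13001 * (η ^ 2 / Q ^ 25998) := by
        have h2 : ∀ g ∈ G, |s g * s (d + g)| ≤ a ^ 2 := by
          intro g hg
          rw [abs_mul, sq]
          exact mul_le_mul (hba _ (hG1 g hg).1) (hba _ (hG1 g hg).2) (abs_nonneg _) ha0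
        refine (few s d G (a ^ 2) (sq_nonneg _) h2).trans ?_
        rw [← ha2]
        exact mul_le_mul_of_nonneg_right hrrd (sq_nonneg _)
      have h3 : |s 0 * ∑ g ∈ G, s g * s (d + g)| ≤ u / (4 * Q) := by
        rw [abs_mul]
        refine (mul_le_mul_of_nonneg_left h1 (abs_nonneg _)).trans ?_
        have h4 : |s 0| * (2 * Q ^ 13001 * (η ^ 2 / Q ^ 25998)) =
            (|s 0| * Q ^ 6) * (2 * Q ^ 13001 * (η ^ 2 / Q ^ 26004)) := by
          have h5 : Q ^ 26004 = Q ^ 6 * Q ^ 25998 := by rw [← pow_add]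
          rw [h5]
          have h6 := (hpos 6).ne'
          have h7 := (hpos 25998).ne'
          field_simp
        rw [h4]
        refine (mul_le_of_le_one_left ?_ hcase.le).trans
          (num Q u η 13001 26004 hQ8 hη0.le hη1 hdη (by norm_num))
        exact mul_nonneg (mul_nonneg (by norm_num) (hpos _).le)
          (div_nonneg (sq_nonneg _) (hpos _).le)
      rw [hu4] at hA
      linarith

end Pool.Agent.XPS
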