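import Pool.Agent.XPS.Pw

set_option autoImplicit false

/-!
# EXC: the exceptional blocks have small total weight
-/

open scoped Classical

noncomputable section

namespace Pool.Agent.XPS

open Pool.Agent.LRC

namespace EXC_

variable {V : Type} [AddCommGroup V]

private lemma nG_abs (G : Finset V) (d : V) (p : V × V) : |nG G d p - 1| ≤ 2 := by
  unfold nG
  split_ifs <;> norm_num

private lemma prod_le {a b c A B C : ℝ} (ha : |a| ≤ A) (hb : |b| ≤ B) (hc : |c| ≤ C) :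
    |a * b * c| ≤ A * B * C := by
  rw [abs_mul, abs_mul]
  have h1 : 0 ≤ A := le_trans (abs_nonneg a) ha
  have h2 : 0 ≤ B := le_trans (abs_nonneg b) hb
  gcongr

variable [Fintype V]

private lemma term_le (s : V → ℝ) (T G : Finset V) (d : V) (A B : ℝ)
    (hA : ∀ x : V, x ≠ 0 → |s x| ≤ A) (hB : ∀ x : V, x ≠ 0 → x ∉ T → |s x| ≤ B)
    (hA0 : 0 ≤ A) (hB0 : 0 ≤ B) (p : V × V) (hp : p ∈ Om d) :
    |(nG G d p - 1) * (s p.1 * s p.2 * s (d + p.1 + p.2))| ≤
      (if p ∈ (Bk T d).filter (fun p => nG G d p ≠ 1) then 2 * A ^ 3 else 0) +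
      (if p ∈ Bk (Sp s) d then 2 * (A ^ 2 * B) else 0) := by
  simp only [Om, Finset.mem_filter, Finset.mem_univ, true_and] at hp
  obtain ⟨h12, h1d, h2d, h1, h2, h3⟩ := hp
  have hn := nG_abs G d p
  have hA3 : 0 ≤ 2 * A ^ 3 := by positivity
  have hA2B : 0 ≤ 2 * (A ^ 2 * B) := by positivity
  have n1 : 0 ≤ (if p ∈ (Bk T d).filter (fun p => nG G d p ≠ 1) then 2 * A ^ 3 else 0) := by
    split_ifs <;> simp [hA3]
  have n2 : 0 ≤ (if p ∈ Bk (Sp s) d then 2 * (A ^ 2 * B) else 0) := by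
    split_ifs <;> simp [hA2B]
  by_cases hT : p ∈ Bk T d
  · by_cases hg : nG G d p = 1
    · rw [hg]
      simp only [sub_self, zero_mul, abs_zero]
      linarith
    · have hm : p ∈ (Bk T d).filter (fun p => nG G d p ≠ 1) :=
        Finset.mem_filter.mpr ⟨hT, hg⟩
      rw [if_pos hm]
      have := prod_le (hA _ h1) (hA _ h2) (hA _ h3)
      rw [abs_mul]
      calc |nG G d p - 1| * |s p.1 * s p.2 * s (d + p.1 + p.2)|
          ≤ 2 * (A * A * A) := by gcongr
        _ = 2 * A ^ 3 := by ring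
        _ ≤ _ := by linarith
  · by_cases hS : p ∈ Bk (Sp s) d
    · rw [if_pos hS]
      have key : |s p.1 * s p.2 * s (d + p.1 + p.2)| ≤ A ^ 2 * B := by
        by_cases t1 : p.1 ∈ T
        · by_cases t2 : p.2 ∈ T
          · by_cases t3 : d + p.1 + p.2 ∈ T
            · exfalso
              apply hT
              simp only [Bk, Finset.mem_filter, Finset.mem_product]
              exact ⟨⟨t1, t2⟩, h12, h1d, h2d, t3⟩
            · have := prod_le (hA _ h1) (hA _ h2) (hB _ h3 t3)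
              calc _ ≤ A * A * B := this
                _ = A ^ 2 * B := by ring
          · have := prod_le (hA _ h1) (hB _ h2 t2) (hA _ h3)
            calc _ ≤ A * B * A := this
              _ = A ^ 2 * B := by ring
        · have := prod_le (hB _ h1 t1) (hA _ h2) (hA _ h3)
          calc _ ≤ B * A * A := this
            _ = A ^ 2 * B := by ring
      rw [abs_mul]
      calc |nG G d p - 1| * |s p.1 * s p.2 * s (d + p.1 + p.2)|
          ≤ 2 * (A ^ 2 * B) := by gcongr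
        _ ≤ _ := by linarith
    · have hz : s p.1 * s p.2 * s (d + p.1 + p.2) = 0 := by
        by_contra hne
        apply hS
        have h5 : s (d + p.1 + p.2) ≠ 0 := right_ne_zero_of_mul hne
        have h6 : s p.1 * s p.2 ≠ 0 := left_ne_zero_of_mul hne
        have h7 : s p.1 ≠ 0 := left_ne_zero_of_mul h6
        have h8 : s p.2 ≠ 0 := right_ne_zero_of_mul h6
        simp only [Bk, Sp, Finset.mem_filter, Finset.mem_product, Finset.mem_univ, true_and]
        exact ⟨⟨h7, h8⟩, h12, h1d, h2d, h5⟩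
      rw [hz]
      simp only [mul_zero, abs_zero]
      linarith

private lemma sum_le (s : V → ℝ) (T G : Finset V) (d : V) (A B : ℝ)
    (hA : ∀ x : V, x ≠ 0 → |s x| ≤ A) (hB : ∀ x : V, x ≠ 0 → x ∉ T → |s x| ≤ B)
    (hA0 : 0 ≤ A) (hB0 : 0 ≤ B) :
    |∑ p ∈ Om d, (nG G d p - 1) * (s p.1 * s p.2 * s (d + p.1 + p.2))| ≤
      (((Bk T d).filter (fun p => nG G d p ≠ 1)).card : ℝ) * (2 * A ^ 3) +
      (EE (Sp s) d : ℝ) * (2 * (A ^ 2 * B)) := by
  have hA3 : 0 ≤ 2 * A ^ 3 := by positivity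
  have hA2B : 0 ≤ 2 * (A ^ 2 * B) := by positivity
  calc |∑ p ∈ Om d, (nG G d p - 1) * (s p.1 * s p.2 * s (d + p.1 + p.2))|
      ≤ ∑ p ∈ Om d, |(nG G d p - 1) * (s p.1 * s p.2 * s (d + p.1 + p.2))| :=
        Finset.abs_sum_le_sum_abs _ _
    _ ≤ ∑ p ∈ Om d, ((if p ∈ (Bk T d).filter (fun p => nG G d p ≠ 1) then 2 * A ^ 3 else 0) +
          (if p ∈ Bk (Sp s) d then 2 * (A ^ 2 * B) else 0)) :=
        Finset.sum_le_sum (fun p hp => term_le s T G d A B hA hB hA0 hB0 p hp)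
    _ ≤ ∑ p : V × V, ((if p ∈ (Bk T d).filter (fun p => nG G d p ≠ 1) then 2 * A ^ 3 else 0) +
          (if p ∈ Bk (Sp s) d then 2 * (A ^ 2 * B) else 0)) := by
        apply Finset.sum_le_sum_of_subset_of_nonneg (Finset.subset_univ _)
        intro p _ _
        apply add_nonneg
        · split_ifs <;> simp [hA3]
        · split_ifs <;> simp [hA2B]
    _ = (((Bk T d).filter (fun p => nG G d p ≠ 1)).card : ℝ) * (2 * A ^ 3) +
      (EE (Sp s) d : ℝ) * (2 * (A ^ 2 * B)) := by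
        rw [Finset.sum_add_distrib, Finset.sum_ite_mem, Finset.sum_ite_mem,
          Finset.univ_inter, Finset.univ_inter, Finset.sum_const, Finset.sum_const,
          nsmul_eq_mul, nsmul_eq_mul, EE]

end EXC_

open EXC_ in
theorem p_EXC : T_EXN → T_DRV → T_EXC := by
  intro hEXN hDRV
  obtain ⟨Q₁, hQ₁, H⟩ := hDRV
  refine ⟨max Q₁ 100, le_trans hQ₁ (le_max_left _ _), ?_⟩
  intro Q hQ V _ _ _ s hs T G d hT hG hd hE hBad hGG hL
  have hQ1 : Q₁ ≤ Q := le_trans (le_max_left _ _) hQ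
  have hQ100 : 100 ≤ Q := le_trans (le_max_right _ _) hQ
  have hQpos : 0 < Q := by linarith
  obtain ⟨-, -, het1, -⟩ := H Q hQ1 V s hs
  obtain ⟨-, -, het0, -, hsm, -⟩ := hs
  have hT0 : (0 : V) ∉ T := by
    rw [hT]
    simp [Lv]
  have hN := hEXN V T G (Q ^ 12760) (Q ^ 2500) d hd hT0 hG
  have hNR : (((Bk T d).filter (fun p => nG G d p ≠ 1)).card : ℝ) ≤ 10 * Q ^ 25976 := by
    have h : (((Bk T d).filter (fun p => nG G d p ≠ 1)).card : ℝ) ≤
        (((Bk T d).filter (fun p => (rr T (d + p.1) : ℝ) < Q ^ 12760 ∧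
          (rr T (d + p.2) : ℝ) < Q ^ 12760 ∧ (rr T (p.1 + p.2) : ℝ) < Q ^ 12760)).card : ℝ) +
        6 * ((Bad T (Q ^ 12760) (Q ^ 2500) d).card : ℝ) +
        3 * (((G ×ˢ G).filter (fun x => x.1 ≠ x.2 ∧ d + x.1 + x.2 ∈ T)).card : ℝ) := by
      exact_mod_cast hN
    linarith
  set η := et s with hη
  have hA : ∀ x : V, x ≠ 0 → |s x| ≤ η / Q ^ 12999 := fun x hx => by
    rw [le_div_iff₀ (by positivity)]
    exact hsm x hx
  have hB : ∀ x : V, x ≠ 0 → x ∉ T → |s x| ≤ η / Q ^ 13022 := fun x hx hxT => by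
    rw [le_div_iff₀ (by positivity)]
    by_contra hcon
    apply hxT
    rw [hT]
    simp only [Lv, Finset.mem_filter, Finset.mem_univ, true_and]
    exact ⟨hx, (not_le.mp hcon).le⟩
  have hsum := sum_le s T G d (η / Q ^ 12999) (η / Q ^ 13022) hA hB (by positivity)
    (by positivity)
  have e1 : 10 * Q ^ 25976 * (2 * (η / Q ^ 12999) ^ 3) * Q ^ 13003 = 20 * η ^ 3 / Q ^ 18 := by
    field_simp
    ring
  have e2 : Q ^ 26016 * (2 * ((η / Q ^ 12999) ^ 2 * (η / Q ^ 13022))) * Q ^ 13003 =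
      2 * η ^ 3 / Q := by
    field_simp
  have hη3 : η ^ 3 ≤ η := by
    have : η ^ 2 ≤ 1 := pow_le_one₀ het0.le het1
    calc η ^ 3 = η ^ 2 * η := by ring
      _ ≤ 1 * η := by gcongr
      _ = η := one_mul η
  have hη30 : 0 ≤ η ^ 3 := by positivity
  have b1 : 20 * η ^ 3 / Q ^ 18 ≤ η / 2 := by
    rw [div_le_iff₀ (by positivity)]
    have : (100 : ℝ) ≤ Q ^ 18 := by
      calc (100 : ℝ) ≤ Q := hQ100
        _ = Q ^ 1 := (pow_one Q).symm
        _ ≤ Q ^ 18 := pow_le_pow_right₀ (by linarith) (by norm_num)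
    nlinarith
  have b2 : 2 * η ^ 3 / Q ≤ η / 2 := by
    rw [div_le_iff₀ (by positivity)]
    nlinarith
  calc |∑ p ∈ Om d, (nG G d p - 1) * (s p.1 * s p.2 * s (d + p.1 + p.2))| * Q ^ 13003
      ≤ ((((Bk T d).filter (fun p => nG G d p ≠ 1)).card : ℝ) * (2 * (η / Q ^ 12999) ^ 3) +
        (EE (Sp s) d : ℝ) * (2 * ((η / Q ^ 12999) ^ 2 * (η / Q ^ 13022)))) * Q ^ 13003 := by
        gcongr
    _ ≤ (10 * Q ^ 25976 * (2 * (η / Q ^ 12999) ^ 3) +
        Q ^ 26016 * (2 * ((η / Q ^ 12999) ^ 2 * (η / Q ^ 13022)))) * Q ^ 13003 := by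
        gcongr
    _ = 20 * η ^ 3 / Q ^ 18 + 2 * η ^ 3 / Q := by rw [add_mul, e1, e2]
    _ ≤ η := by linarith

end Pool.Agent.XPS
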