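import Pool.Agent.XPS.Targets

set_option autoImplicit false

/-!
# XPS: the means of `k2` and `k3` over random `L` and `R` (T_EXK)
-/

open scoped Classical

namespace Pool.Agent.XPS

namespace EXK_

theorem be_sum {α ι : Type} (p : ℝ) (A : Finset α) (I : Finset ι) (F : ι → Finset α → ℝ) :
    be p A (fun Y => ∑ i ∈ I, F i Y) = ∑ i ∈ I, be p A (F i) := by
  unfold be
  rw [Finset.sum_comm]
  exact Finset.sum_congr rfl fun Y _ => Finset.mul_sum _ _ _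

theorem be_mul {α : Type} (p : ℝ) (A : Finset α) (c : ℝ) (F : Finset α → ℝ) :
    be p A (fun Y => c * F Y) = c * be p A F := by
  unfold be
  rw [Finset.mul_sum]
  exact Finset.sum_congr rfl fun Y _ => by ring

/-- Independence of the two random sets. -/
theorem be_be {α ι : Type} (p : ℝ) (A : Finset α) (I : Finset ι)
    (f g : ι → ι → Finset α → ℝ) :
    be p A (fun L => be p A (fun R => ∑ v ∈ I, ∑ w ∈ I, f v w L * g v w R)) =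
      ∑ v ∈ I, ∑ w ∈ I, be p A (f v w) * be p A (g v w) := by
  have h1 : ∀ L, be p A (fun R => ∑ v ∈ I, ∑ w ∈ I, f v w L * g v w R) =
      ∑ v ∈ I, ∑ w ∈ I, be p A (g v w) * f v w L := by
    intro L
    rw [be_sum]
    refine Finset.sum_congr rfl fun v _ => ?_
    rw [be_sum]
    refine Finset.sum_congr rfl fun w _ => ?_
    rw [be_mul, mul_comm]
  simp only [h1]
  rw [be_sum]
  refine Finset.sum_congr rfl fun v _ => ?_
  rw [be_sum]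
  refine Finset.sum_congr rfl fun w _ => ?_
  rw [be_mul, mul_comm]

section

variable {V : Type}

/-- The sum of the sizes of the intersections over all pairs. -/
noncomputable def CC (Y : V → V → Finset V) (Dd : Finset V) (v w : V) : ℝ :=
  ∑ d ∈ Dd, ∑ e ∈ Dd, ((Y d v ∩ Y e w).card : ℝ)

/-- The sum of the products of the sizes. -/
noncomputable def GG (Y : V → V → Finset V) (Dd : Finset V) (v w : V) : ℝ :=
  ∑ d ∈ Dd, ((Y d v).card : ℝ) * ((Y d w).card : ℝ)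

/-- The sum of the sizes of the intersections over the diagonal. -/
noncomputable def cc (Y : V → V → Finset V) (Dd : Finset V) (v w : V) : ℝ :=
  ∑ d ∈ Dd, ((Y d v ∩ Y d w).card : ℝ)

theorem sum_two (P : ℝ) (Y : V → V → Finset V) (Dd : Finset V) (v w : V) :
    ∑ d ∈ Dd, ∑ e ∈ Dd, M2 P (Y d v) (Y e w) =
      P ^ 2 * (NN Y Dd v * NN Y Dd w) + P * CC Y Dd v w := by
  unfold NN CC
  have h1 : ∀ d ∈ Dd, ∑ e ∈ Dd, M2 P (Y d v) (Y e w) =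
      P ^ 2 * (((Y d v).card : ℝ) * ∑ e ∈ Dd, ((Y e w).card : ℝ)) +
        P * ∑ e ∈ Dd, ((Y d v ∩ Y e w).card : ℝ) := by
    intro d _
    rw [Finset.mul_sum, Finset.mul_sum, Finset.mul_sum, ← Finset.sum_add_distrib]
    refine Finset.sum_congr rfl fun e _ => ?_
    unfold M2
    ring
  rw [Finset.sum_congr rfl h1, Finset.sum_add_distrib, ← Finset.mul_sum, ← Finset.mul_sum,
    ← Finset.sum_mul]

theorem sum_one (P : ℝ) (Y : V → V → Finset V) (Dd : Finset V) (v w : V) :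
    ∑ d ∈ Dd, M2 P (Y d v) (Y d w) = P ^ 2 * GG Y Dd v w + P * cc Y Dd v w := by
  unfold GG cc
  rw [Finset.mul_sum, Finset.mul_sum, ← Finset.sum_add_distrib]
  refine Finset.sum_congr rfl fun e _ => ?_
  unfold M2
  ring

end

/-- The square of the mean. -/
theorem sq_bound (q P B M N C G c : ℝ) (hq : 0 ≤ q) (hq1 : q ≤ 1) (hP : 0 ≤ P) (hN : 0 ≤ N)
    (hNB : N ≤ B) (hC : 0 ≤ C) (hCM : C ≤ M) (hG : 0 ≤ G) (hGM : G ≤ M) (hc : 0 ≤ c) :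
    (q ^ 2 * (P ^ 2 * N + P * C) + q * (1 - q) * (P ^ 2 * G + P * c)) *
      (q ^ 2 * (P ^ 2 * N + P * C) + q * (1 - q) * (P ^ 2 * G + P * c)) ≤
    4 * (q ^ 4 * P ^ 4 * B ^ 2) + 4 * (q ^ 4 * P ^ 2 * M) * C +
      4 * (q ^ 2 * P ^ 4 * M) * G + 4 * (q ^ 2 * P ^ 2) * c ^ 2 := by
  have h1 : 0 ≤ q ^ 2 * (P ^ 2 * N + P * C) + q * (1 - q) * (P ^ 2 * G + P * c) := by
    have : 0 ≤ 1 - q := by linarith
    positivity
  have h2 : q ^ 2 * (P ^ 2 * N + P * C) + q * (1 - q) * (P ^ 2 * G + P * c) ≤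
      q ^ 2 * P ^ 2 * N + q ^ 2 * P * C + q * P ^ 2 * G + q * P * c := by
    have h3 : 0 ≤ q * q * (P ^ 2 * G + P * c) := by positivity
    nlinarith
  have h3 := mul_le_mul h2 h2 h1 (h1.trans h2)
  have h4 : (q ^ 2 * P ^ 2 * N + q ^ 2 * P * C + q * P ^ 2 * G + q * P * c) *
      (q ^ 2 * P ^ 2 * N + q ^ 2 * P * C + q * P ^ 2 * G + q * P * c) ≤
      4 * ((q ^ 2 * P ^ 2 * N) ^ 2 + (q ^ 2 * P * C) ^ 2 + (q * P ^ 2 * G) ^ 2 +
        (q * P * c) ^ 2) := by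
    nlinarith [sq_nonneg (q ^ 2 * P ^ 2 * N - q ^ 2 * P * C),
      sq_nonneg (q ^ 2 * P ^ 2 * N - q * P ^ 2 * G), sq_nonneg (q ^ 2 * P ^ 2 * N - q * P * c),
      sq_nonneg (q ^ 2 * P * C - q * P ^ 2 * G), sq_nonneg (q ^ 2 * P * C - q * P * c),
      sq_nonneg (q * P ^ 2 * G - q * P * c)]
  have h5 : (q ^ 2 * P ^ 2 * N) ^ 2 ≤ q ^ 4 * P ^ 4 * B ^ 2 := by
    have h6 : N ^ 2 ≤ B ^ 2 := pow_le_pow_left₀ hN hNB 2
    calc (q ^ 2 * P ^ 2 * N) ^ 2 = q ^ 4 * P ^ 4 * N ^ 2 := by ring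
      _ ≤ q ^ 4 * P ^ 4 * B ^ 2 := mul_le_mul_of_nonneg_left h6 (by positivity)
  have h6 : (q ^ 2 * P * C) ^ 2 ≤ q ^ 4 * P ^ 2 * M * C := by
    have h7 : C * C ≤ M * C := mul_le_mul_of_nonneg_right hCM hC
    calc (q ^ 2 * P * C) ^ 2 = q ^ 4 * P ^ 2 * (C * C) := by ring
      _ ≤ q ^ 4 * P ^ 2 * (M * C) := mul_le_mul_of_nonneg_left h7 (by positivity)
      _ = q ^ 4 * P ^ 2 * M * C := by ring
  have h7 : (q * P ^ 2 * G) ^ 2 ≤ q ^ 2 * P ^ 4 * M * G := by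
    have h8 : G * G ≤ M * G := mul_le_mul_of_nonneg_right hGM hG
    calc (q * P ^ 2 * G) ^ 2 = q ^ 2 * P ^ 4 * (G * G) := by ring
      _ ≤ q ^ 2 * P ^ 4 * (M * G) := mul_le_mul_of_nonneg_left h8 (by positivity)
      _ = q ^ 2 * P ^ 4 * M * G := by ring
  have h8 : (q * P * c) ^ 2 = q ^ 2 * P ^ 2 * c ^ 2 := by ring
  calc _ ≤ _ := h3
    _ ≤ _ := h4
    _ ≤ 4 * (q ^ 4 * P ^ 4 * B ^ 2 + q ^ 4 * P ^ 2 * M * C + q ^ 2 * P ^ 4 * M * G +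
        q ^ 2 * P ^ 2 * c ^ 2) := by
        rw [h8]
        linarith
    _ = _ := by ring

/-- The product of the two means. -/
theorem mul_bound (q P B M N C G c : ℝ) (hq : 0 ≤ q) (hP : 0 ≤ P)
    (hNB : N ≤ B) (hCM : C ≤ M) (hG : 0 ≤ G) (hGM : G ≤ M) (hc : 0 ≤ c) :
    q * (P ^ 2 * G + P * c) *
      (q ^ 2 * (P ^ 2 * N + P * C) + q * (1 - q) * (P ^ 2 * G + P * c)) ≤
    (q ^ 3 * P ^ 4 * B + q ^ 3 * P ^ 3 * M + q ^ 2 * P ^ 4 * M) * G +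
      (q ^ 3 * P ^ 3 * B + q ^ 3 * P ^ 2 * M + 2 * (q ^ 2 * P ^ 3 * M)) * c +
      q ^ 2 * P ^ 2 * c ^ 2 := by
  have h0 : 0 ≤ q * (P ^ 2 * G + P * c) := by positivity
  have h2 : q ^ 2 * (P ^ 2 * N + P * C) + q * (1 - q) * (P ^ 2 * G + P * c) ≤
      q ^ 2 * P ^ 2 * N + q ^ 2 * P * C + q * P ^ 2 * G + q * P * c := by
    have h3 : 0 ≤ q * q * (P ^ 2 * G + P * c) := by positivity
    nlinarith
  have h3 := mul_le_mul_of_nonneg_left h2 h0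
  have a1 : q ^ 3 * P ^ 4 * (G * N) ≤ q ^ 3 * P ^ 4 * (G * B) :=
    mul_le_mul_of_nonneg_left (mul_le_mul_of_nonneg_left hNB hG) (by positivity)
  have a2 : q ^ 3 * P ^ 3 * (c * N) ≤ q ^ 3 * P ^ 3 * (c * B) :=
    mul_le_mul_of_nonneg_left (mul_le_mul_of_nonneg_left hNB hc) (by positivity)
  have a3 : q ^ 3 * P ^ 3 * (G * C) ≤ q ^ 3 * P ^ 3 * (G * M) :=
    mul_le_mul_of_nonneg_left (mul_le_mul_of_nonneg_left hCM hG) (by positivity)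
  have a4 : q ^ 3 * P ^ 2 * (c * C) ≤ q ^ 3 * P ^ 2 * (c * M) :=
    mul_le_mul_of_nonneg_left (mul_le_mul_of_nonneg_left hCM hc) (by positivity)
  have a5 : q ^ 2 * P ^ 4 * (G * G) ≤ q ^ 2 * P ^ 4 * (G * M) :=
    mul_le_mul_of_nonneg_left (mul_le_mul_of_nonneg_left hGM hG) (by positivity)
  have a6 : q ^ 2 * P ^ 3 * (c * G) ≤ q ^ 2 * P ^ 3 * (c * M) :=
    mul_le_mul_of_nonneg_left (mul_le_mul_of_nonneg_left hGM hc) (by positivity)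
  calc _ ≤ _ := h3
    _ = q ^ 3 * P ^ 4 * (G * N) + q ^ 3 * P ^ 3 * (c * N) + q ^ 3 * P ^ 3 * (G * C) +
        q ^ 3 * P ^ 2 * (c * C) + q ^ 2 * P ^ 4 * (G * G) + 2 * (q ^ 2 * P ^ 3 * (c * G)) +
        q ^ 2 * P ^ 2 * c ^ 2 := by ring
    _ ≤ q ^ 3 * P ^ 4 * (G * B) + q ^ 3 * P ^ 3 * (c * B) + q ^ 3 * P ^ 3 * (G * M) +
        q ^ 3 * P ^ 2 * (c * M) + q ^ 2 * P ^ 4 * (G * M) + 2 * (q ^ 2 * P ^ 3 * (c * M)) +
        q ^ 2 * P ^ 2 * c ^ 2 := by linarith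
    _ = _ := by ring

end EXK_

open EXK_ in
theorem p_EXK (h_BER : T_BER) (h_SUM : T_SUM) : T_EXK := by
  intro V Dd VV Y κ E₁ b K₂ n P q hκ hE₁ hb hK₂ hn hP hq hq1 hF
  obtain ⟨-, -, -, hB4, -, hB6, -⟩ := h_BER V q Dd hq.le hq1
  obtain ⟨s1, s2, s3, s4, s5, s6⟩ := h_SUM V Dd VV Y κ E₁ b K₂ n hκ hK₂ hn hF
  have hN := hF.2.2.2.2.2.2
  have hMM : ∀ v w, be q Dd (fun L => MM P Y L v w) =
      q ^ 2 * (P ^ 2 * (NN Y Dd v * NN Y Dd w) + P * CC Y Dd v w) +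
        q * (1 - q) * (P ^ 2 * GG Y Dd v w + P * cc Y Dd v w) := by
    intro v w
    have h1 := hB6 (fun d e => M2 P (Y d v) (Y e w))
    rw [sum_two, sum_one] at h1
    exact h1
  have hM0 : ∀ v w, be q Dd (fun L => M0 P Y L v w) =
      q * (P ^ 2 * GG Y Dd v w + P * cc Y Dd v w) := by
    intro v w
    have h1 := hB4 (fun d => M2 P (Y d v) (Y d w))
    rw [sum_one] at h1
    exact h1
  have hC0 : ∀ v w, 0 ≤ CC Y Dd v w := fun v w => by unfold CC; positivity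
  have hG0 : ∀ v w, 0 ≤ GG Y Dd v w := fun v w => by unfold GG; positivity
  have hc0 : ∀ v w, 0 ≤ cc Y Dd v w := fun v w => by unfold cc; positivity
  have hNN0 : ∀ v w, 0 ≤ NN Y Dd v * NN Y Dd w := fun v w => by unfold NN; positivity
  have hNNle : ∀ v ∈ VV, ∀ w ∈ VV, NN Y Dd v * NN Y Dd w ≤ 4 * n ^ 2 := by
    intro v hv w hw
    have h1 := (hN v hv).2
    have h2 := (hN w hw).2
    have h3 : 0 ≤ NN Y Dd w := by unfold NN; positivity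
    calc NN Y Dd v * NN Y Dd w ≤ (2 * n) * (2 * n) :=
          mul_le_mul h1 h2 h3 (by positivity)
      _ = 4 * n ^ 2 := by ring
  have t1 : ∑ v ∈ VV, ∑ w ∈ VV, CC Y Dd v w ≤ 2 * E₁ * (VV.card : ℝ) * n := s2
  have t2 : ∑ v ∈ VV, ∑ w ∈ VV, GG Y Dd v w ≤ 2 * b * (VV.card : ℝ) * n := s4
  have t3 : ∑ v ∈ VV, ∑ w ∈ VV, cc Y Dd v w ≤ 2 * κ * (VV.card : ℝ) * n := s5
  have t4 : ∑ v ∈ VV, ∑ w ∈ VV, cc Y Dd v w ^ 2 ≤
      4 * (VV.card : ℝ) * n ^ 2 + 2 * κ ^ 2 * K₂ * (VV.card : ℝ) * n := s6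
  have lin : ∀ (x1 x2 x3 x4 : ℝ), ∑ v ∈ VV, ∑ w ∈ VV, (x1 + x2 * CC Y Dd v w +
      x3 * GG Y Dd v w + x4 * cc Y Dd v w ^ 2) = (VV.card : ℝ) ^ 2 * x1 +
      x2 * ∑ v ∈ VV, ∑ w ∈ VV, CC Y Dd v w + x3 * ∑ v ∈ VV, ∑ w ∈ VV, GG Y Dd v w +
      x4 * ∑ v ∈ VV, ∑ w ∈ VV, cc Y Dd v w ^ 2 := by
    intro x1 x2 x3 x4
    simp only [Finset.sum_add_distrib, ← Finset.mul_sum, Finset.sum_const, nsmul_eq_mul]
    ring
  have lin2 : ∀ (x1 x2 x3 : ℝ), ∑ v ∈ VV, ∑ w ∈ VV, (x1 * GG Y Dd v w +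
      x2 * cc Y Dd v w + x3 * cc Y Dd v w ^ 2) =
      x1 * ∑ v ∈ VV, ∑ w ∈ VV, GG Y Dd v w + x2 * ∑ v ∈ VV, ∑ w ∈ VV, cc Y Dd v w +
      x3 * ∑ v ∈ VV, ∑ w ∈ VV, cc Y Dd v w ^ 2 := by
    intro x1 x2 x3
    simp only [Finset.sum_add_distrib, ← Finset.mul_sum]
  constructor
  · have h1 : be q Dd (fun L => be q Dd (fun R => k2 P Y VV L R)) =
        ∑ v ∈ VV, ∑ w ∈ VV, be q Dd (fun L => MM P Y L v w) * be q Dd (fun L => MM P Y L v w) := by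
      unfold k2
      exact be_be q Dd VV (fun v w L => MM P Y L v w) (fun v w L => MM P Y L v w)
    rw [h1]
    have h2 : ∑ v ∈ VV, ∑ w ∈ VV, be q Dd (fun L => MM P Y L v w) *
        be q Dd (fun L => MM P Y L v w) ≤ ∑ v ∈ VV, ∑ w ∈ VV,
        (4 * (q ^ 4 * P ^ 4 * (4 * n ^ 2) ^ 2) + 4 * (q ^ 4 * P ^ 2 * (2 * κ * n)) * CC Y Dd v w +
          4 * (q ^ 2 * P ^ 4 * (2 * κ * n)) * GG Y Dd v w +
          4 * (q ^ 2 * P ^ 2) * cc Y Dd v w ^ 2) := by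
      refine Finset.sum_le_sum fun v hv => Finset.sum_le_sum fun w hw => ?_
      rw [hMM]
      exact sq_bound q P (4 * n ^ 2) (2 * κ * n) _ _ _ _ hq.le hq1 hP (hNN0 v w)
        (hNNle v hv w hw) (hC0 v w) (s1 v hv w hw) (hG0 v w) (s3 v hv w hw) (hc0 v w)
    refine h2.trans ?_
    rw [lin]
    have u1 := mul_le_mul_of_nonneg_left t1
      (show 0 ≤ 4 * (q ^ 4 * P ^ 2 * (2 * κ * n)) by positivity)
    have u2 := mul_le_mul_of_nonneg_left t2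
      (show 0 ≤ 4 * (q ^ 2 * P ^ 4 * (2 * κ * n)) by positivity)
    have u4 := mul_le_mul_of_nonneg_left t4 (show 0 ≤ 4 * (q ^ 2 * P ^ 2) by positivity)
    unfold X2
    nlinarith [u1, u2, u4]
  · have h1 : be q Dd (fun L => be q Dd (fun R => k3 P Y VV L R)) =
        ∑ v ∈ VV, ∑ w ∈ VV, be q Dd (fun L => M0 P Y L v w) * be q Dd (fun L => MM P Y L v w) := by
      unfold k3
      exact be_be q Dd VV (fun v w L => M0 P Y L v w) (fun v w L => MM P Y L v w)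
    rw [h1]
    have h2 : ∑ v ∈ VV, ∑ w ∈ VV, be q Dd (fun L => M0 P Y L v w) *
        be q Dd (fun L => MM P Y L v w) ≤ ∑ v ∈ VV, ∑ w ∈ VV,
        ((q ^ 3 * P ^ 4 * (4 * n ^ 2) + q ^ 3 * P ^ 3 * (2 * κ * n) +
            q ^ 2 * P ^ 4 * (2 * κ * n)) * GG Y Dd v w +
          (q ^ 3 * P ^ 3 * (4 * n ^ 2) + q ^ 3 * P ^ 2 * (2 * κ * n) +
            2 * (q ^ 2 * P ^ 3 * (2 * κ * n))) * cc Y Dd v w +
          q ^ 2 * P ^ 2 * cc Y Dd v w ^ 2) := by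
      refine Finset.sum_le_sum fun v hv => Finset.sum_le_sum fun w hw => ?_
      rw [hMM, hM0]
      exact mul_bound q P (4 * n ^ 2) (2 * κ * n) _ _ _ _ hq.le hP
        (hNNle v hv w hw) (s1 v hv w hw) (hG0 v w) (s3 v hv w hw) (hc0 v w)
    refine h2.trans ?_
    rw [lin2]
    have u2 := mul_le_mul_of_nonneg_left t2
      (show 0 ≤ q ^ 3 * P ^ 4 * (4 * n ^ 2) + q ^ 3 * P ^ 3 * (2 * κ * n) +
            q ^ 2 * P ^ 4 * (2 * κ * n) by positivity)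
    have u3 := mul_le_mul_of_nonneg_left t3
      (show 0 ≤ q ^ 3 * P ^ 3 * (4 * n ^ 2) + q ^ 3 * P ^ 2 * (2 * κ * n) +
            2 * (q ^ 2 * P ^ 3 * (2 * κ * n)) by positivity)
    have u4 := mul_le_mul_of_nonneg_left t4 (show 0 ≤ q ^ 2 * P ^ 2 by positivity)
    unfold X3
    nlinarith [u2, u3, u4]

end Pool.Agent.XPS
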