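import Pool.Agent.XPS.Targets

set_option autoImplicit false

/-!
# XPS: the target EXN
-/

open scoped Classical

namespace Pool.Agent.XPS

open Pool.Agent.LRC

namespace EXN_

variable {V : Type} [AddCommGroup V] [Module (ZMod 2) V]

theorem add_self (x : V) : x + x = 0 := by
  have h : (2 : ZMod 2) • x = 0 := by
    have : (2 : ZMod 2) = 0 := by decide
    rw [this, zero_smul]
  rwa [two_smul] at h

theorem add_add_cancel' (x y : V) : x + (x + y) = y := by
  rw [← add_assoc, add_self, zero_add]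

theorem add_ne_zero' {x y : V} (h : x ≠ y) : x + y ≠ 0 := by
  intro h0
  apply h
  have := add_add_cancel' x y
  rw [h0, add_zero] at this
  exact this

theorem mem_Bk {T : Finset V} {d : V} {p : V × V} :
    p ∈ Bk T d ↔ (p.1 ∈ T ∧ p.2 ∈ T) ∧ p.1 ≠ p.2 ∧ p.1 ≠ d ∧ p.2 ≠ d ∧ d + p.1 + p.2 ∈ T := by
  unfold Bk
  rw [Finset.mem_filter, Finset.mem_product]

variable [Fintype V]

theorem mem_Gm {T : Finset V} {κ : ℝ} {d g : V} :
    g ∈ Gm T κ d ↔ g ≠ 0 ∧ κ ≤ (rr T g : ℝ) ∧ d + g ∈ T := by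
  unfold Gm
  simp

/-- The abstract count for one position of the direction. -/
theorem cntA (T : Finset V) (κ D₀ : ℝ) (d : V) (dir : V × V → V)
    (h : ∀ g, ((Bk T d).filter (fun p => dir p = g)).card ≤ rr T g) :
    ((Bk T d).filter (fun p => dir p ∈ Gm T κ d ∧ dir p ∉ Gp T κ D₀ d)).card ≤
      2 * (Bad T κ D₀ d).card := by
  set A := (Bk T d).filter (fun p => dir p ∈ Gm T κ d ∧ dir p ∉ Gp T κ D₀ d) with hA
  set D := Gm T κ d \ Gp T κ D₀ d with hD
  have hmap : ∀ p ∈ A, dir p ∈ D := by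
    intro p hp
    rw [hA, Finset.mem_filter] at hp
    rw [hD, Finset.mem_sdiff]
    exact hp.2
  rw [Finset.card_eq_sum_card_fiberwise hmap]
  have h1 : ∀ g ∈ D, (A.filter (fun p => dir p = g)).card ≤
      2 * ((Bad T κ D₀ d).filter (fun p => p.1 = g)).card := by
    intro g hg
    rw [hD, Finset.mem_sdiff] at hg
    have hn : ¬ 2 * ((Bad T κ D₀ d).filter (fun p => p.1 = g)).card ≤ rr T g := by
      intro hle
      apply hg.2
      unfold Gp
      rw [Finset.mem_filter]
      exact ⟨hg.1, hle⟩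
    have h2 : (A.filter (fun p => dir p = g)).card ≤ rr T g := by
      refine (Finset.card_le_card ?_).trans (h g)
      intro p hp
      rw [Finset.mem_filter] at hp ⊢
      rw [hA, Finset.mem_filter] at hp
      exact ⟨hp.1.1, hp.2⟩
    omega
  refine (Finset.sum_le_sum h1).trans ?_
  rw [← Finset.mul_sum]
  apply Nat.mul_le_mul_left
  rw [← Finset.card_biUnion]
  · apply Finset.card_le_card
    intro p hp
    rw [Finset.mem_biUnion] at hp
    obtain ⟨g, -, hp⟩ := hp
    exact (Finset.mem_filter.1 hp).1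
  · intro g _ g' _ hne
    rw [Function.onFun, Finset.disjoint_left]
    intro p hp hp'
    rw [Finset.mem_filter] at hp hp'
    exact hne (hp.2.symm.trans hp'.2)

/-- The fibre count for the first direction. -/
theorem fib1 (T : Finset V) (d g : V) :
    ((Bk T d).filter (fun p => d + p.1 = g)).card ≤ rr T g := by
  unfold rr
  apply Finset.card_le_card_of_injOn (fun p => p.2)
  · intro p hp
    rw [Finset.mem_coe, Finset.mem_filter, mem_Bk] at hp
    rw [Finset.mem_coe, Finset.mem_filter]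
    refine ⟨hp.1.1.2, ?_⟩
    rw [← hp.2]
    have := hp.1.2.2.2.2
    rwa [show p.2 + (d + p.1) = d + p.1 + p.2 by abel]
  · intro p hp p' hp' h
    rw [Finset.mem_coe, Finset.mem_filter] at hp hp'
    have h1 : d + p.1 = d + p'.1 := hp.2.trans hp'.2.symm
    exact Prod.ext (add_left_cancel h1) h

theorem fib2 (T : Finset V) (d g : V) :
    ((Bk T d).filter (fun p => d + p.2 = g)).card ≤ rr T g := by
  unfold rr
  apply Finset.card_le_card_of_injOn (fun p => p.1)
  · intro p hp
    rw [Finset.mem_coe, Finset.mem_filter, mem_Bk] at hp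
    rw [Finset.mem_coe, Finset.mem_filter]
    refine ⟨hp.1.1.1, ?_⟩
    rw [← hp.2]
    have := hp.1.2.2.2.2
    rwa [show p.1 + (d + p.2) = d + p.1 + p.2 by abel]
  · intro p hp p' hp' h
    rw [Finset.mem_coe, Finset.mem_filter] at hp hp'
    have h1 : d + p.2 = d + p'.2 := hp.2.trans hp'.2.symm
    exact Prod.ext h (add_left_cancel h1)

theorem fib3 (T : Finset V) (d g : V) :
    ((Bk T d).filter (fun p => p.1 + p.2 = g)).card ≤ rr T g := by
  unfold rr
  apply Finset.card_le_card_of_injOn (fun p => p.1)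
  · intro p hp
    rw [Finset.mem_coe, Finset.mem_filter, mem_Bk] at hp
    rw [Finset.mem_coe, Finset.mem_filter]
    refine ⟨hp.1.1.1, ?_⟩
    rw [← hp.2, add_add_cancel']
    exact hp.1.1.2
  · intro p hp p' hp' h
    rw [Finset.mem_coe, Finset.mem_filter] at hp hp'
    have h1 : p.1 + p.2 = p'.1 + p'.2 := hp.2.trans hp'.2.symm
    have h0 : p.1 = p'.1 := h
    rw [h0] at h1
    exact Prod.ext h0 (add_left_cancel h1)

end EXN_

open EXN_ in
theorem p_EXN : T_EXN := by
  intro V _ _ _ T G κ D₀ d hd h0 hG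
  set L := (Bk T d).filter (fun p => (rr T (d + p.1) : ℝ) < κ ∧ (rr T (d + p.2) : ℝ) < κ ∧
      (rr T (p.1 + p.2) : ℝ) < κ) with hL
  set A1 := (Bk T d).filter (fun p => d + p.1 ∈ Gm T κ d ∧ d + p.1 ∉ Gp T κ D₀ d) with hA1
  set A2 := (Bk T d).filter (fun p => d + p.2 ∈ Gm T κ d ∧ d + p.2 ∉ Gp T κ D₀ d) with hA2
  set A3 := (Bk T d).filter (fun p => p.1 + p.2 ∈ Gm T κ d ∧ p.1 + p.2 ∉ Gp T κ D₀ d) with hA3
  set P1 := (Bk T d).filter (fun p => d + p.1 ∈ G ∧ d + p.2 ∈ G) with hP1
  set P2 := (Bk T d).filter (fun p => d + p.1 ∈ G ∧ p.1 + p.2 ∈ G) with hP2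
  set P3 := (Bk T d).filter (fun p => d + p.2 ∈ G ∧ p.1 + p.2 ∈ G) with hP3
  set X := (G ×ˢ G).filter (fun x => x.1 ≠ x.2 ∧ d + x.1 + x.2 ∈ T) with hX
  have cA1 : A1.card ≤ 2 * (Bad T κ D₀ d).card :=
    cntA T κ D₀ d (fun p => d + p.1) (fib1 T d)
  have cA2 : A2.card ≤ 2 * (Bad T κ D₀ d).card :=
    cntA T κ D₀ d (fun p => d + p.2) (fib2 T d)
  have cA3 : A3.card ≤ 2 * (Bad T κ D₀ d).card :=
    cntA T κ D₀ d (fun p => p.1 + p.2) (fib3 T d)
  have cP1 : P1.card ≤ X.card := by
    apply Finset.card_le_card_of_injOn (fun p => (d + p.1, d + p.2))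
    · intro p hp
      rw [Finset.mem_coe, hP1, Finset.mem_filter, mem_Bk] at hp
      rw [Finset.mem_coe, hX, Finset.mem_filter, Finset.mem_product]
      refine ⟨hp.2, fun h => hp.1.2.1 (add_left_cancel h), ?_⟩
      simp only
      rw [add_add_cancel', show p.1 + (d + p.2) = d + p.1 + p.2 by abel]
      exact hp.1.2.2.2.2
    · intro p _ p' _ h
      simp only [Prod.mk.injEq] at h
      exact Prod.ext (add_left_cancel h.1) (add_left_cancel h.2)
  have cP2 : P2.card ≤ X.card := by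
    apply Finset.card_le_card_of_injOn (fun p => (d + p.1, p.1 + p.2))
    · intro p hp
      rw [Finset.mem_coe, hP2, Finset.mem_filter, mem_Bk] at hp
      rw [Finset.mem_coe, hX, Finset.mem_filter, Finset.mem_product]
      refine ⟨hp.2, fun h => hp.1.2.2.2.1 ?_, ?_⟩
      · simp only at h
        rw [add_comm d] at h
        exact (add_left_cancel h).symm
      · simp only
        rw [add_add_cancel', add_add_cancel']
        exact hp.1.1.2
    · intro p _ p' _ h
      simp only [Prod.mk.injEq] at h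
      have h1 := add_left_cancel h.1
      have h2 := h.2
      rw [h1] at h2
      exact Prod.ext h1 (add_left_cancel h2)
  have cP3 : P3.card ≤ X.card := by
    apply Finset.card_le_card_of_injOn (fun p => (d + p.2, p.1 + p.2))
    · intro p hp
      rw [Finset.mem_coe, hP3, Finset.mem_filter, mem_Bk] at hp
      rw [Finset.mem_coe, hX, Finset.mem_filter, Finset.mem_product]
      refine ⟨hp.2, fun h => hp.1.2.2.1 ?_, ?_⟩
      · simp only at h
        exact (add_right_cancel h).symm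
      · simp only
        rw [add_add_cancel', add_comm p.1 p.2, add_add_cancel']
        exact hp.1.1.1
    · intro p _ p' _ h
      simp only [Prod.mk.injEq] at h
      have h1 := add_left_cancel h.1
      have h2 := h.2
      rw [h1] at h2
      exact Prod.ext (add_right_cancel h2) h1
  have hsub : (Bk T d).filter (fun p => nG G d p ≠ 1) ⊆
      L ∪ (A1 ∪ (A2 ∪ (A3 ∪ (P1 ∪ (P2 ∪ P3))))) := by
    intro p hp
    rw [Finset.mem_filter] at hp
    obtain ⟨hB, hn⟩ := hp
    have hB' := mem_Bk.1 hB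
    obtain ⟨⟨hx, hy⟩, hxy, hxd, hyd, hz⟩ := hB'
    simp only [Finset.mem_union, hL, hA1, hA2, hA3, hP1, hP2, hP3, Finset.mem_filter, hB,
      true_and]
    by_contra hcon
    push Not at hcon
    obtain ⟨c0, c1, c2, c3, c4, c5, c6⟩ := hcon
    rw [← hG] at c1 c2 c3
    have g1 : κ ≤ (rr T (d + p.1) : ℝ) → d + p.1 ∈ G := fun h =>
      c1 (mem_Gm.2 ⟨add_ne_zero' (Ne.symm hxd), h, by rwa [add_add_cancel']⟩)
    have g2 : κ ≤ (rr T (d + p.2) : ℝ) → d + p.2 ∈ G := fun h =>
      c2 (mem_Gm.2 ⟨add_ne_zero' (Ne.symm hyd), h, by rwa [add_add_cancel']⟩)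
    have g3 : κ ≤ (rr T (p.1 + p.2) : ℝ) → p.1 + p.2 ∈ G := fun h =>
      c3 (mem_Gm.2 ⟨add_ne_zero' hxy, h, by rwa [← add_assoc]⟩)
    apply hn
    unfold nG
    by_cases m1 : d + p.1 ∈ G
    · rw [if_pos m1, if_neg (c4 m1), if_neg (c5 m1)]
      norm_num
    · by_cases m2 : d + p.2 ∈ G
      · rw [if_neg m1, if_pos m2, if_neg (c6 m2)]
        norm_num
      · have m3 : p.1 + p.2 ∈ G := by
          apply g3
          apply c0
          · by_contra h
            exact m1 (g1 (not_lt.1 h))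
          · by_contra h
            exact m2 (g2 (not_lt.1 h))
        rw [if_neg m1, if_neg m2, if_pos m3]
        norm_num
  have hcard := Finset.card_le_card hsub
  have u1 := Finset.card_union_le L (A1 ∪ (A2 ∪ (A3 ∪ (P1 ∪ (P2 ∪ P3)))))
  have u2 := Finset.card_union_le A1 (A2 ∪ (A3 ∪ (P1 ∪ (P2 ∪ P3))))
  have u3 := Finset.card_union_le A2 (A3 ∪ (P1 ∪ (P2 ∪ P3)))
  have u4 := Finset.card_union_le A3 (P1 ∪ (P2 ∪ P3))
  have u5 := Finset.card_union_le P1 (P2 ∪ P3)
  have u6 := Finset.card_union_le P2 P3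
  omega

end Pool.Agent.XPS
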