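import Pool.Agent.XPS.Targets

/-!
# XPS: target EXT (glueing characters)
-/

set_option autoImplicit false

open scoped Classical

noncomputable section

namespace Pool.Agent.XPS

/-- EXT. -/
theorem p_EXT : T_EXT := by
  intro V _ _ ι _ U l hU
  have hinj : Function.Injective
      (DFinsupp.lsum ℕ (fun i => (U i).subtype) : (Π₀ i, U i) →ₗ[ZMod 2] V) :=
    hU.dfinsupp_lsum_injective
  set f : (Π₀ i, U i) →ₗ[ZMod 2] V := DFinsupp.lsum ℕ (fun i => (U i).subtype) with hf
  obtain ⟨g, hg⟩ := LinearMap.exists_leftInverse_of_injective f (LinearMap.ker_eq_bot.2 hinj)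
  set φ : (Π₀ i, U i) →ₗ[ZMod 2] ZMod 2 :=
    DFinsupp.lsum ℕ (fun i => (l i).comp (U i).subtype) with hφ
  refine ⟨φ.comp g, ?_⟩
  intro j u hu
  have h1 : f (DFinsupp.single j ⟨u, hu⟩) = u := by
    rw [hf, DFinsupp.lsum_single]
    rfl
  have h2 : g u = DFinsupp.single j ⟨u, hu⟩ := by
    have h3 := LinearMap.congr_fun hg (DFinsupp.single j ⟨u, hu⟩)
    rw [LinearMap.comp_apply, h1] at h3
    exact h3
  rw [LinearMap.comp_apply, h2, hφ, DFinsupp.lsum_single]
  rfl

end Pool.Agent.XPS
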