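import Pool.Agent.XPS.Targets
import Pool.Agent.LRC.PDT
import Pool.Agent.LRC.FOLD
import Pool.Agent.LRC.FUN
import Pool.Agent.LRC.QRY
import Pool.Agent.LRC.PLAN
import Pool.Agent.LRC.RES
import Pool.Agent.LRC.RNK
import Pool.Agent.LRC.NCO

set_option autoImplicit false

/-!
# MP_9f5962_lc, project XPS, FNL: the protocol
-/

open scoped Classical

noncomputable section

namespace Pool.Agent.XPS

open Pool.Agent.LRC

/-- The protocol from hereditary kill numbers, without hypotheses. -/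
theorem FNL_.pdt : T_PDT :=
  Pool.Agent.LRC.p_PDT (Pool.Agent.LRC.p_FOLD Pool.Agent.LRC.p_PLAN) Pool.Agent.LRC.p_FUN
    Pool.Agent.LRC.p_QRY Pool.Agent.LRC.p_PLAN

/-- The number of rounds is at most a small power. -/
theorem FNL_.rounds {r : ℕ} (hr : 1 ≤ r) {ε : ℝ} (hε : 0 < ε) :
    ((Nat.log 2 r + 1 : ℕ) : ℝ) ≤ (1 / (ε * Real.log 2) + 1) * (r : ℝ) ^ ε := by
  have hl2 : 0 < Real.log 2 := Real.log_pos (by norm_num)
  have hr' : (1 : ℝ) ≤ (r : ℝ) := by exact_mod_cast hr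
  have h1 : ((Nat.log 2 r : ℕ) : ℝ) ≤ Real.logb 2 (r : ℝ) := by
    have := Real.natLog_le_logb r 2
    simpa using this
  have h2 : Real.log (r : ℝ) ≤ (r : ℝ) ^ ε / ε :=
    Real.log_le_rpow_div (by linarith) hε
  have h3 : Real.logb 2 (r : ℝ) ≤ 1 / (ε * Real.log 2) * (r : ℝ) ^ ε := by
    unfold Real.logb
    rw [div_le_iff₀ hl2]
    calc Real.log (r : ℝ) ≤ (r : ℝ) ^ ε / ε := h2
      _ = 1 / (ε * Real.log 2) * (r : ℝ) ^ ε * Real.log 2 := by
        field_simp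
  have h4 : (1 : ℝ) ≤ (r : ℝ) ^ ε := Real.one_le_rpow hr' hε.le
  push_cast
  nlinarith

/-- FNL: the theorem. -/
theorem p_FNL : T_KIL → T_FNL := by
  rintro ⟨C0, hC0, hK⟩
  have ha : (0 : ℝ) < (1 / 2 : ℝ) - 1 / 26000 := by norm_num
  have hε : (0 : ℝ) < ((1 / 2 : ℝ) - 1 / 27000) - ((1 / 2 : ℝ) - 1 / 26000) := by norm_num
  set a : ℝ := (1 / 2 : ℝ) - 1 / 26000 with hadef
  set b : ℝ := (1 / 2 : ℝ) - 1 / 27000 with hbdef
  have hl2 : 0 < Real.log 2 := Real.log_pos (by norm_num)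
  set c1 : ℝ := 1 / ((b - a) * Real.log 2) + 1 with hc1
  have hc1pos : 0 < c1 := by positivity
  refine ⟨2 * (2 * C0 + 1) * c1, fun n f => ?_⟩
  by_cases hcon : ∀ x y, f x = f y
  · refine ⟨0, ?_, fun _ => true, fun _ _ => true, fun _ _ => true, fun _ => f 0,
      fun x y _ _ _ => hcon 0 (x + y)⟩
    simp only [Nat.cast_zero]
    positivity
  have hn : ∃ x y, f x ≠ f y := by
    by_contra h
    apply hcon
    intro x y
    by_contra h'
    exact h ⟨x, y, h'⟩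
  have hsp : spa (ind f) ≤ xrk f := p_RNK n f
  have h2 : 2 ≤ xrk f := ((p_NCO _ f).2 hn).trans hsp
  set r : ℕ := xrk f with hr
  have hr1 : (1 : ℝ) ≤ (r : ℝ) := by
    have : 1 ≤ r := by omega
    exact_mod_cast this
  set K : ℕ := ⌈C0 * (r : ℝ) ^ a + C0⌉₊ with hKdef
  have hkill : ∀ (x : Fin n → ZMod 2) (W : Submodule (ZMod 2) (Fin n → ZMod 2)),
      ∃ x₁, x₁ - x ∈ W ∧ ∃ W' : Submodule (ZMod 2) (Fin n → ZMod 2), W' ≤ W ∧
        Module.finrank (ZMod 2) W ≤ K + Module.finrank (ZMod 2) W' ∧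
        ∀ w ∈ W', f (x₁ + w) = f x₁ := by
    intro x W
    obtain ⟨x₀, W', h3, h4⟩ := hK W (fun w : W => f (x + (w : Fin n → ZMod 2)))
    refine ⟨x + (x₀ : Fin n → ZMod 2), ?_, W'.map W.subtype, ?_, ?_, ?_⟩
    · rw [add_sub_cancel_left]
      exact x₀.2
    · exact Submodule.map_subtype_le W W'
    · have h5 : spa (ind (fun w : W => f (x + (w : Fin n → ZMod 2)))) ≤ r := by
        have h6 := p_RES (Fin n → ZMod 2) W x (ind f)
        refine le_trans (le_of_eq ?_) (h6.trans hsp)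
        rfl
      have h7 : ((spa (ind (fun w : W => f (x + (w : Fin n → ZMod 2)))) : ℕ) : ℝ) ^ a ≤
          (r : ℝ) ^ a :=
        Real.rpow_le_rpow (Nat.cast_nonneg _) (by exact_mod_cast h5) ha.le
      have h8 : C0 * (r : ℝ) ^ a + C0 ≤ (K : ℝ) := Nat.le_ceil _
      have h9 := mul_le_mul_of_nonneg_left h7 hC0.le
      have h10 : Module.finrank (ZMod 2) (W'.map W.subtype) = Module.finrank (ZMod 2) W' :=
        Submodule.finrank_map_subtype_eq W W'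
      rw [h10]
      have h11 : (Module.finrank (ZMod 2) W : ℝ) ≤ (K : ℝ) + (Module.finrank (ZMod 2) W' : ℝ) := by
        linarith
      exact_mod_cast h11
    · rintro w ⟨v, hv, rfl⟩
      have h12 := h4 v hv
      simp only [Submodule.coe_add] at h12
      rw [add_assoc]
      exact h12
  have hm : sp1 (ind f) < 2 ^ (Nat.log 2 r + 1) :=
    lt_of_le_of_lt (((p_NCO _ f).1).trans hsp) (Nat.lt_pow_succ_log_self (by norm_num) r)
  refine ⟨2 * K * (Nat.log 2 r + 1), ?_, FNL_.pdt n f K hkill _ hm⟩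
  have hra : (1 : ℝ) ≤ (r : ℝ) ^ a := Real.one_le_rpow hr1 ha.le
  have hKb : (K : ℝ) ≤ (2 * C0 + 1) * (r : ℝ) ^ a := by
    have h3 : (K : ℝ) < C0 * (r : ℝ) ^ a + C0 + 1 :=
      Nat.ceil_lt_add_one (by positivity)
    have h4 : C0 ≤ C0 * (r : ℝ) ^ a := le_mul_of_one_le_right hC0.le hra
    linarith
  have hmb : ((Nat.log 2 r + 1 : ℕ) : ℝ) ≤ c1 * (r : ℝ) ^ (b - a) :=
    FNL_.rounds (by omega) hε
  have hpow : (r : ℝ) ^ a * (r : ℝ) ^ (b - a) = (r : ℝ) ^ b := by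
    rw [← Real.rpow_add (by linarith)]
    congr 1
    ring
  calc ((2 * K * (Nat.log 2 r + 1) : ℕ) : ℝ)
      = 2 * ((K : ℝ) * ((Nat.log 2 r + 1 : ℕ) : ℝ)) := by push_cast; ring
    _ ≤ 2 * (((2 * C0 + 1) * (r : ℝ) ^ a) * (c1 * (r : ℝ) ^ (b - a))) := by
        apply mul_le_mul_of_nonneg_left _ (by norm_num)
        exact mul_le_mul hKb hmb (Nat.cast_nonneg _) (by positivity)
    _ = 2 * (2 * C0 + 1) * c1 * ((r : ℝ) ^ a * (r : ℝ) ^ (b - a)) := by ring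
    _ = 2 * (2 * C0 + 1) * c1 * (r : ℝ) ^ b := by rw [hpow]

end Pool.Agent.XPS
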