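import Pool.Agent.XPS.Targets

set_option autoImplicit false

open scoped Classical

namespace Pool.Agent.XPS

open Pool.Agent.LRC

namespace GMB_

variable {V : Type} [AddCommGroup V] [Module (ZMod 2) V]

theorem add_self' (v : V) : v + v = 0 := by
  have h : (2 : ZMod 2) • v = v + v := two_smul _ v
  have h2 : (2 : ZMod 2) = 0 := rfl
  rw [← h, h2, zero_smul]

/-- The admissible `x` for the direction `g`. -/
noncomputable def Xs (T : Finset V) (d g : V) : Finset V :=
  ((T.filter (fun x => x + g ∈ T)).erase d).erase (d + g)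

theorem card_Xs (T : Finset V) (d g : V) : rr T g ≤ (Xs T d g).card + 2 := by
  unfold rr Xs
  have h1 := Finset.pred_card_le_card_erase (s := T.filter (fun x => x + g ∈ T)) (a := d)
  have h2 := Finset.pred_card_le_card_erase
    (s := (T.filter (fun x => x + g ∈ T)).erase d) (a := d + g)
  omega

variable [Fintype V]

theorem inj_count (S T : Finset V) (κ : ℝ) (d : V) (hTS : T ⊆ S) :
    ∑ g ∈ Gm T κ d, (Xs T d g).card ≤ EE S d := by
  rw [← Finset.card_sigma]
  unfold EE
  refine Finset.card_le_card_of_injOn (fun p => (d + p.1, p.2)) ?_ ?_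
  · rintro ⟨g, x⟩ hp
    simp only [Finset.coe_sigma, Set.mem_sigma_iff, Finset.mem_coe] at hp
    obtain ⟨hg, hx⟩ := hp
    simp only [Gm, Finset.mem_filter, Finset.mem_univ, true_and] at hg
    simp only [Xs, Finset.mem_erase, Finset.mem_filter] at hx
    obtain ⟨hg0, _, hdg⟩ := hg
    obtain ⟨hx1, hx2, hxT, hxg⟩ := hx
    simp only [Bk, Finset.coe_filter, Finset.mem_product, Set.mem_ofPred_eq]
    refine ⟨⟨hTS hdg, hTS hxT⟩, fun h => hx1 h.symm, ?_, hx2, ?_⟩
    · intro h
      exact hg0 (by simpa using h)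
    · have : d + (d + g) + x = x + g := by
        rw [← add_assoc, add_self', zero_add, add_comm]
      rw [this]
      exact hTS hxg
  · rintro ⟨g, x⟩ _ ⟨g', x'⟩ _ h
    simp only [Prod.mk.injEq, add_right_inj] at h
    obtain ⟨h1, h2⟩ := h
    subst h1
    subst h2
    rfl

end GMB_

open GMB_

theorem p_GMB : T_GMB := by
  intro V _ _ _ S T κ d hTS _
  have h1 := inj_count S T κ d hTS
  have h2 : ((Gm T κ d).card : ℝ) * (κ - 2) ≤ ∑ g ∈ Gm T κ d, ((Xs T d g).card : ℝ) := by
    rw [← nsmul_eq_mul]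
    refine Finset.card_nsmul_le_sum _ _ _ ?_
    intro g hg
    have h3 := card_Xs T d g
    have h4 : κ ≤ (rr T g : ℝ) := by
      simp only [Gm, Finset.mem_filter, Finset.mem_univ, true_and] at hg
      exact hg.2.1
    have h5 : (rr T g : ℝ) ≤ (Xs T d g).card + 2 := by exact_mod_cast h3
    linarith
  refine h2.trans ?_
  exact_mod_cast h1

end Pool.Agent.XPS
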