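import Pool.Agent.XPS.Targets
import Pool.Agent.XPS.Pw

set_option autoImplicit false

/-!
# XPS, target HUB: hubs and typical elements
-/

open scoped Classical

noncomputable section

namespace Pool.Agent.XPS

open Pool.Agent.LRC

namespace HUB_

/-- SAM with `A = S`. -/
theorem full (h : T_SAM) (V : Type) [AddCommGroup V] [Module (ZMod 2) V] [Fintype V]
    (S : Finset V) (Q : ℝ) (n k : ℕ) (hQ : 1 ≤ Q) (hS : (S.card : ℝ) ≤ Q ^ 26000)
    (hMB : MB S (Q ^ 13001)) (hn : n = 13001 + k) :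
    ((S.filter (fun d => Q ^ (n + n) < (EE S d : ℝ))).card : ℝ) * Q ^ k ≤ 22 * Q ^ 26000 := by
  have hQ0 : 0 < Q := by linarith
  have hpos : ∀ m : ℕ, 0 < Q ^ m := fun m => pow_pos hQ0 m
  have h1 := h V S S (S.filter (fun d => Q ^ (n + n) < (EE S d : ℝ))) (Q ^ 13001) (Q ^ (n + n))
    (1 / Q ^ n) hMB (hpos _).le (Finset.Subset.refl _) (Finset.filter_subset _ _)
    (by have := hpos n; positivity) ?_ (hpos _) ?_ ?_ ?_
  · have h2 : Q ^ n = Q ^ 13001 * Q ^ k := by rw [hn, pow_add]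
    have h3 : 22 * Q ^ 13001 * (1 / Q ^ n) * (S.card : ℝ) * Q ^ k = 22 * (S.card : ℝ) := by
      rw [h2]
      have := (hpos 13001).ne'
      have := (hpos k).ne'
      field_simp
    calc ((S.filter (fun d => Q ^ (n + n) < (EE S d : ℝ))).card : ℝ) * Q ^ k
        ≤ 22 * Q ^ 13001 * (1 / Q ^ n) * (S.card : ℝ) * Q ^ k :=
          mul_le_mul_of_nonneg_right h1 (hpos k).le
      _ = 22 * (S.card : ℝ) := h3
      _ ≤ 22 * Q ^ 26000 := by linarith
  · rw [div_le_one (hpos n)]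
    exact one_le_pow₀ hQ
  · have := (hpos n).ne'
    rw [pow_add]
    have h4 : (1 / Q ^ n) ^ 2 * (Q ^ n * Q ^ n) = 1 := by field_simp
    rw [h4]
  · have h5 : 1 / Q ^ n * Q ^ (n + n) = Q ^ n := by
      have := (hpos n).ne'
      rw [pow_add]
      field_simp
    rw [h5]
    exact pow_le_pow_right₀ hQ (by omega)
  · intro d hd
    rw [Finset.mem_filter] at hd
    have h6 : (Bk S d).filter (fun p => p.1 ∈ S ∧ p.2 ∈ S) = Bk S d := by
      refine Finset.filter_true_of_mem fun p hp => ?_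
      unfold Bk at hp
      rw [Finset.mem_filter, Finset.mem_product] at hp
      exact hp.1
    rw [h6]
    exact hd.2.le

end HUB_

open HUB_ in
theorem p_HUB : T_SAM → T_HUB := by
  intro h V _ _ _ S Q hQ hS hMB
  have hQ1 : 1 ≤ Q := by linarith
  have hQ0 : 0 < Q := by linarith
  have hpos : ∀ m : ℕ, 0 < Q ^ m := fun m => pow_pos hQ0 m
  constructor
  · have h1 := full h V S Q 13008 7 hQ1 hS hMB (by norm_num)
    have h2 : 22 * Q ^ 26000 ≤ Q ^ 25994 * Q ^ 7 := by
      rw [← pow_add]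
      exact pw_le Q 22 26000 (25994 + 7) hQ1 (by linarith) (by norm_num)
    exact le_of_mul_le_mul_right (h1.trans h2) (hpos 7)
  · have h1 := full h V S Q 13037 36 hQ1 hS hMB (by norm_num)
    have hH : ((Hb S (Q ^ 26074)).card : ℝ) * Q ^ 36 ≤ 22 * Q ^ 26000 := h1
    have hH2 : ((Hb S (Q ^ 26074)).card : ℝ) ≤ 22 * Q ^ 25964 := by
      refine le_of_mul_le_mul_right (hH.trans (le_of_eq ?_)) (hpos 36)
      rw [mul_assoc, ← pow_add]
    have h3 := h V S (Hb S (Q ^ 26074))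
      (S.filter (fun d => Q ^ 25974 < (hp S (Hb S (Q ^ 26074)) d : ℝ))) (Q ^ 13001) (Q ^ 25974)
      (1 / Q ^ 12973) hMB (hpos _).le (Finset.filter_subset _ _) (Finset.filter_subset _ _)
      (by have := hpos 12973; positivity) ?_ (hpos _) ?_ ?_ ?_
    · have h4 : (22 : ℝ) * Q ^ 13001 * (1 / Q ^ 12973) = 22 * Q ^ 28 := by
        have h5 : Q ^ 13001 = Q ^ 12973 * Q ^ 28 := by rw [← pow_add]
        rw [h5]
        have := (hpos 12973).ne'
        field_simp
      rw [h4] at h3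
      have h6 : 22 * Q ^ 28 * ((Hb S (Q ^ 26074)).card : ℝ) ≤ 22 * Q ^ 28 * (22 * Q ^ 25964) :=
        mul_le_mul_of_nonneg_left hH2 (by have := hpos 28; positivity)
      have h7 : 22 * Q ^ 28 * (22 * Q ^ 25964) = 484 * Q ^ 25992 := by
        have h8 : Q ^ 25992 = Q ^ 28 * Q ^ 25964 := by rw [← pow_add]
        rw [h8]
        ring
      calc _ ≤ _ := h3
        _ ≤ _ := h6
        _ = 484 * Q ^ 25992 := h7
        _ ≤ Q ^ 25993 := pw_le Q 484 25992 25993 hQ1 hQ (by norm_num)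
    · rw [div_le_one (hpos _)]
      exact one_le_pow₀ hQ1
    · have h4 : (1 / Q ^ 12973) ^ 2 * Q ^ 25974 = Q ^ 28 := by
        have h5 : Q ^ 25974 = Q ^ 12973 * Q ^ 12973 * Q ^ 28 := by rw [← pow_add, ← pow_add]
        rw [h5]
        have := (hpos 12973).ne'
        field_simp
      rw [h4]
      exact one_le_pow₀ hQ1
    · have h4 : 1 / Q ^ 12973 * Q ^ 25974 = Q ^ 13001 := by
        have h5 : Q ^ 25974 = Q ^ 12973 * Q ^ 13001 := by rw [← pow_add]
        rw [h5]
        have := (hpos 12973).ne'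
        field_simp
      rw [h4]
    · intro d hd
      rw [Finset.mem_filter] at hd
      exact hd.2.le

end Pool.Agent.XPS
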