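import Pool.Agent.XPS.Targets

/-!
# Project XPS: HV2, blocks with two heavy directions
-/

set_option autoImplicit false

open scoped Classical

noncomputable section

namespace Pool.Agent.XPS

open Pool.Agent.LRC

namespace HV2_

section

variable {V : Type} [AddCommGroup V] [Module (ZMod 2) V] [Fintype V]

omit [Fintype V] in
theorem add_self' (x : V) : x + x = 0 := by
  have h : (2 : ZMod 2) • x = 0 := by
    have h2 : (2 : ZMod 2) = 0 := by decide
    rw [h2, zero_smul]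
  rwa [two_smul] at h

theorem fr_map (S W : Submodule (ZMod 2) V) :
    Module.finrank (ZMod 2) S ≤
      Module.finrank (ZMod 2) (S.map W.mkQ) + Module.finrank (ZMod 2) W := by
  have h := LinearMap.finrank_range_add_finrank_ker (W.mkQ.domRestrict S)
  rw [LinearMap.range_domRestrict] at h
  have h2 : Module.finrank (ZMod 2) (LinearMap.ker (W.mkQ.domRestrict S)) ≤
      Module.finrank (ZMod 2) W := by
    let g : LinearMap.ker (W.mkQ.domRestrict S) →ₗ[ZMod 2] W :=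
      LinearMap.codRestrict W (S.subtype ∘ₗ (LinearMap.ker (W.mkQ.domRestrict S)).subtype) (by
        intro x
        have hx := x.2
        rw [LinearMap.mem_ker] at hx
        exact (Submodule.Quotient.mk_eq_zero W).mp hx)
    apply LinearMap.finrank_le_finrank_of_injective (f := g)
    intro x y hxy
    have h3 : ((g x : W) : V) = ((g y : W) : V) := by rw [hxy]
    have h4 : ((x : S) : V) = ((y : S) : V) := h3
    exact Subtype.ext (Subtype.ext h4)
  omega

omit [Fintype V] in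
theorem rk_mono {X Y : Finset V} (h : X ⊆ Y) : rk X ≤ rk Y := by
  unfold rk
  apply Submodule.finrank_mono
  exact Submodule.span_mono (by exact_mod_cast h)

theorem exB (W : Submodule (ZMod 2) V) (d : V) (A : Finset V) :
    ∃ B : Finset V, LinearIndependent (ZMod 2) (fun t : B => W.mkQ (d + (t : V))) ∧
      (∀ t ∈ B, ∃ g ∈ A, t = d + g) ∧
      rk A ≤ B.card + Module.finrank (ZMod 2) W := by
  obtain ⟨κ, a, ha, hsp, hli⟩ :=
    exists_linearIndependent' (K := ZMod 2) (fun g : A => W.mkQ (g : V))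
  have : Finite κ := Finite.of_injective a ha
  have : Fintype κ := Fintype.ofFinite κ
  set f : κ → V := fun k => d + ((a k : A) : V) with hf
  have hfi : Function.Injective f := by
    intro k k' hk
    apply ha
    apply Subtype.ext
    exact add_left_cancel hk
  set B : Finset V := Finset.univ.image f with hB
  have hBc : B.card = Fintype.card κ := by
    rw [hB, Finset.card_image_of_injective _ hfi, Finset.card_univ]
  refine ⟨B, ?_, ?_, ?_⟩
  · have hch : ∀ t : B, ∃ k, f k = (t : V) := by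
      intro t
      have ht : (t : V) ∈ Finset.univ.image f := t.2
      obtain ⟨k, _, hk⟩ := Finset.mem_image.mp ht
      exact ⟨k, hk⟩
    choose e he using hch
    have hei : Function.Injective e := by
      intro t t' htt
      apply Subtype.ext
      rw [← he t, ← he t', htt]
    have h2 := hli.comp e hei
    have h3 : (fun t : B => W.mkQ (d + (t : V))) =
        ((fun g : A => W.mkQ (g : V)) ∘ a) ∘ e := by
      funext t
      simp only [Function.comp_apply]
      rw [← he t]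
      show W.mkQ (d + (d + ((a (e t) : A) : V))) = _
      rw [← add_assoc, add_self' d, zero_add]
    rw [h3]
    exact h2
  · intro t ht
    rw [hB, Finset.mem_image] at ht
    obtain ⟨k, _, hk⟩ := ht
    exact ⟨(a k : V), (a k).2, hk.symm⟩
  · rw [hBc, ← finrank_span_eq_card hli, hsp]
    have h3 : Submodule.span (ZMod 2) (Set.range fun g : A => W.mkQ (g : V)) =
        (Submodule.span (ZMod 2) (A : Set V)).map W.mkQ := by
      rw [Submodule.map_span]
      congr 1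
      ext q
      simp
    rw [h3]
    exact fr_map _ _

omit [AddCommGroup V] [Module (ZMod 2) V] [Fintype V] in
theorem exY (hBER : T_BER) (hCON : T_CON) (Γ G : Finset V) (N : V → Finset V) (p g₀ : ℝ)
    (hp : 0 < p) (hp1 : p ≤ 1) (hg₀ : 0 < g₀) (hΓ : (Γ.card : ℝ) ≤ g₀)
    (hN : ∀ g ∈ G, N g ⊆ Γ) (hD : ∀ g ∈ G, 64 ≤ p * ((N g).card : ℝ)) (hG : G.Nonempty) :
    ∃ Y ⊆ Γ, (Y.card : ℝ) ≤ 8 * p * g₀ ∧ (G.card : ℝ) / 2 ≤
      ((G.filter (fun g => p * ((N g).card : ℝ) / 2 ≤ ((Y ∩ N g).card : ℝ))).card : ℝ) := by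
  obtain ⟨_, _, _, _, _, _, _, hmono, hadd, hmul, hsum, hex⟩ := hBER V p Γ hp.le hp1
  obtain ⟨hc1, hc2⟩ := hCON V p Γ hp.le hp1
  have hGc : (0 : ℝ) < (G.card : ℝ) := by exact_mod_cast hG.card_pos
  set F1 : Finset V → ℝ := fun Y => if 8 * p * g₀ < (Y.card : ℝ) then 1 else 0 with hF1
  set F2 : V → Finset V → ℝ := fun g Y =>
    if ((Y ∩ N g).card : ℝ) < p * ((N g).card : ℝ) / 2 then 1 else 0 with hF2
  have e1 : be p Γ F1 ≤ 1 / 8 := by
    have h := hc1 (8 * p * g₀) (by positivity)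
    have h2 : be p Γ F1 * (8 * p * g₀) ≤ p * g₀ :=
      h.trans (mul_le_mul_of_nonneg_left hΓ hp.le)
    have h3 : 0 < p * g₀ := by positivity
    by_contra hcon
    rw [not_le] at hcon
    nlinarith
  have e2 : ∀ g ∈ G, be p Γ (F2 g) ≤ 1 / 16 := by
    intro g hg
    have h := hc2 (N g) (hN g hg)
    have h2 := hD g hg
    have h3 : be p Γ (F2 g) * (p * ((N g).card : ℝ)) ≤ 4 := h
    by_contra hcon
    rw [not_le] at hcon
    nlinarith
  set F : Finset V → ℝ := fun Y => F1 Y + (2 / (G.card : ℝ)) * ∑ g ∈ G, F2 g Y with hF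
  have e3 : be p Γ F = be p Γ F1 + (2 / (G.card : ℝ)) * ∑ g ∈ G, be p Γ (F2 g) := by
    rw [hF, hadd F1, hmul, hsum]
  have e4 : be p Γ F ≤ 1 / 4 := by
    rw [e3]
    have h1 : ∑ g ∈ G, be p Γ (F2 g) ≤ ∑ _g ∈ G, (1 / 16 : ℝ) := Finset.sum_le_sum e2
    rw [Finset.sum_const, nsmul_eq_mul] at h1
    have h2 : (2 / (G.card : ℝ)) * ∑ g ∈ G, be p Γ (F2 g) ≤
        (2 / (G.card : ℝ)) * ((G.card : ℝ) * (1 / 16)) :=
      mul_le_mul_of_nonneg_left h1 (by positivity)
    have h3 : (2 / (G.card : ℝ)) * ((G.card : ℝ) * (1 / 16)) = 1 / 8 := by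
      field_simp
      norm_num
    linarith
  obtain ⟨Y, hY, hYF⟩ := hex (fun Y => (-1) * F Y)
  rw [hmul] at hYF
  have e5 : F Y ≤ 1 / 4 := by linarith
  have h1nn : 0 ≤ F1 Y := by
    rw [hF1]
    dsimp only
    split_ifs <;> norm_num
  have h2nn : ∀ g, 0 ≤ F2 g Y := by
    intro g
    rw [hF2]
    dsimp only
    split_ifs <;> norm_num
  have h2s : 0 ≤ ∑ g ∈ G, F2 g Y := Finset.sum_nonneg fun g _ => h2nn g
  have h2m : 0 ≤ (2 / (G.card : ℝ)) * ∑ g ∈ G, F2 g Y := by positivity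
  have hFY : F Y = F1 Y + (2 / (G.card : ℝ)) * ∑ g ∈ G, F2 g Y := rfl
  refine ⟨Y, hY, ?_, ?_⟩
  · by_contra hcon
    rw [not_le] at hcon
    have h3 : F1 Y = 1 := by
      rw [hF1]
      dsimp only
      rw [if_pos hcon]
    linarith
  · have h4 : (2 / (G.card : ℝ)) * ∑ g ∈ G, F2 g Y ≤ 1 / 4 := by linarith
    have h5 : ∑ g ∈ G, F2 g Y =
        ((G.filter (fun g => ((Y ∩ N g).card : ℝ) < p * ((N g).card : ℝ) / 2)).card : ℝ) := by
      rw [Finset.card_filter]
      push_cast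
      rfl
    have h6 : ∑ g ∈ G, F2 g Y ≤ (G.card : ℝ) / 2 := by
      rw [div_mul_eq_mul_div, div_le_iff₀ hGc] at h4
      linarith
    have h7 : (G.filter (fun g => ((Y ∩ N g).card : ℝ) < p * ((N g).card : ℝ) / 2)).card +
        (G.filter (fun g => p * ((N g).card : ℝ) / 2 ≤ ((Y ∩ N g).card : ℝ))).card =
        G.card := by
      have h9 : G.filter (fun g => p * ((N g).card : ℝ) / 2 ≤ ((Y ∩ N g).card : ℝ)) =
          G.filter (fun g => ¬ ((Y ∩ N g).card : ℝ) < p * ((N g).card : ℝ) / 2) := by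
        apply Finset.filter_congr
        intro g _
        exact not_lt.symm
      rw [h9]
      exact Finset.card_filter_add_card_filter_not _
    have h8 : ((G.filter (fun g => ((Y ∩ N g).card : ℝ) <
        p * ((N g).card : ℝ) / 2)).card : ℝ) +
        ((G.filter (fun g => p * ((N g).card : ℝ) / 2 ≤ ((Y ∩ N g).card : ℝ))).card : ℝ) =
        (G.card : ℝ) := by exact_mod_cast h7
    linarith

/-- The neighbours of `g`. -/
def nh (s : V → ℝ) (σ : ℝ) (d : V) (Γ : Finset V) (g : V) : Finset V :=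
  Γ.filter fun g' => g ≠ g' ∧ σ ≤ |s (d + g + g')|

omit [Module (ZMod 2) V] [Fintype V] in
theorem sum_nh (s : V → ℝ) (σ : ℝ) (d : V) (Γ : Finset V) :
    ((Γ ×ˢ Γ).filter (fun x => x.1 ≠ x.2 ∧ σ ≤ |s (d + x.1 + x.2)|)).card =
      ∑ g ∈ Γ, (nh s σ d Γ g).card := by
  rw [Finset.card_filter, Finset.sum_product]
  apply Finset.sum_congr rfl
  intro g _
  unfold nh
  rw [Finset.card_filter]

omit [Module (ZMod 2) V] [Fintype V] in
theorem Gp_card (s : V → ℝ) (σ : ℝ) (d : V) (Γ : Finset V) (g₀ D₁ : ℝ) (hg₀ : 0 < g₀)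
    (hD₁ : 0 < D₁) (hΓ : (Γ.card : ℝ) ≤ g₀)
    (hN : 2 * g₀ * D₁ ≤ ∑ g ∈ Γ, ((nh s σ d Γ g).card : ℝ)) :
    D₁ ≤ ((Γ.filter fun g => D₁ ≤ ((nh s σ d Γ g).card : ℝ)).card : ℝ) := by
  rw [← Finset.sum_filter_add_sum_filter_not Γ
    (fun g => D₁ ≤ ((nh s σ d Γ g).card : ℝ))] at hN
  have h1 : ∑ g ∈ Γ.filter (fun g => ¬ D₁ ≤ ((nh s σ d Γ g).card : ℝ)),
      ((nh s σ d Γ g).card : ℝ) ≤ g₀ * D₁ := by
    calc ∑ g ∈ Γ.filter (fun g => ¬ D₁ ≤ ((nh s σ d Γ g).card : ℝ)),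
          ((nh s σ d Γ g).card : ℝ)
        ≤ ∑ _g ∈ Γ.filter (fun g => ¬ D₁ ≤ ((nh s σ d Γ g).card : ℝ)), D₁ :=
          Finset.sum_le_sum fun g hg => (not_le.mp (Finset.mem_filter.mp hg).2).le
      _ = ((Γ.filter (fun g => ¬ D₁ ≤ ((nh s σ d Γ g).card : ℝ))).card : ℝ) * D₁ := by
          rw [Finset.sum_const, nsmul_eq_mul]
      _ ≤ (Γ.card : ℝ) * D₁ := by
          apply mul_le_mul_of_nonneg_right _ hD₁.le
          exact_mod_cast Finset.card_le_card (Finset.filter_subset _ _)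
      _ ≤ g₀ * D₁ := mul_le_mul_of_nonneg_right hΓ hD₁.le
  have h2 : ∑ g ∈ Γ.filter (fun g => D₁ ≤ ((nh s σ d Γ g).card : ℝ)),
      ((nh s σ d Γ g).card : ℝ) ≤
        ((Γ.filter fun g => D₁ ≤ ((nh s σ d Γ g).card : ℝ)).card : ℝ) * g₀ := by
    calc ∑ g ∈ Γ.filter (fun g => D₁ ≤ ((nh s σ d Γ g).card : ℝ)),
          ((nh s σ d Γ g).card : ℝ)
        ≤ ∑ _g ∈ Γ.filter (fun g => D₁ ≤ ((nh s σ d Γ g).card : ℝ)), g₀ := by
          apply Finset.sum_le_sum
          intro g _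
          refine le_trans ?_ hΓ
          exact_mod_cast Finset.card_le_card (Finset.filter_subset _ _)
      _ = _ := by rw [Finset.sum_const, nsmul_eq_mul]
  have h3 : g₀ * D₁ ≤
      ((Γ.filter fun g => D₁ ≤ ((nh s σ d Γ g).card : ℝ)).card : ℝ) * g₀ := by linarith
  by_contra hcon
  rw [not_le] at hcon
  nlinarith

end

end HV2_

open HV2_ in
theorem p_HV2 : T_BER → T_CON → T_HV2 := by
  intro hBER hCON V _ _ _ s σ R L g₀ N₀ D₁ p d Γ hσ hR hL hg₀ hΓ hX hRch hN hN₀ hp hp1 h64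
  have hD₁ : 0 < D₁ := by
    by_contra hcon
    rw [not_lt] at hcon
    nlinarith
  have hL0 : 0 < L := by linarith
  have hsum : 2 * g₀ * D₁ ≤ ∑ g ∈ Γ, ((nh s σ d Γ g).card : ℝ) := by
    rw [← hN₀]
    refine hN.trans ?_
    rw [sum_nh]
    push_cast
    exact le_rfl
  have hGc := Gp_card s σ d Γ g₀ D₁ hg₀ hD₁ hΓ hsum
  set G : Finset V := Γ.filter fun g => D₁ ≤ ((nh s σ d Γ g).card : ℝ) with hG
  have hGn : G.Nonempty := by
    rw [← Finset.card_pos]
    have : (0 : ℝ) < (G.card : ℝ) := by linarith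
    exact_mod_cast this
  have hGD : ∀ g ∈ G, D₁ ≤ ((nh s σ d Γ g).card : ℝ) := by
    intro g hg
    exact (Finset.mem_filter.mp hg).2
  obtain ⟨Y, hY, hYc, hA⟩ := exY hBER hCON Γ G (nh s σ d Γ) p g₀ hp hp1 hg₀ hΓ
    (fun g _ => Finset.filter_subset _ _)
    (fun g hg => h64.trans (mul_le_mul_of_nonneg_left (hGD g hg) hp.le)) hGn
  set A : Finset V := G.filter (fun g => p * ((nh s σ d Γ g).card : ℝ) / 2 ≤
    ((Y ∩ nh s σ d Γ g).card : ℝ)) with hAdef
  set W : Submodule (ZMod 2) V := Submodule.span (ZMod 2) (Y : Set V) with hW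
  have hWr : (Module.finrank (ZMod 2) W : ℝ) ≤ 8 * p * g₀ := by
    refine le_trans ?_ hYc
    have h := finrank_span_finset_le_card (R := ZMod 2) Y
    have h2 : Module.finrank (ZMod 2) W ≤ Y.card := h
    exact_mod_cast h2
  have hAG : A ⊆ Γ := (Finset.filter_subset _ _).trans (Finset.filter_subset _ _)
  set x : ℝ := p * D₁ / (2 * L) with hx
  have hx0 : 0 < x := by rw [hx]; positivity
  have hnb : ∀ g ∈ A, x ≤ (rk (nb s W σ (d + g)) : ℝ) := by
    intro g hg
    have hg' := Finset.mem_filter.mp hg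
    have h1 : (Y ∩ nh s σ d Γ g) ⊆ nb s W σ (d + g) := by
      intro g' hg1
      rw [Finset.mem_inter] at hg1
      have h2 := Finset.mem_filter.mp hg1.2
      unfold nb
      rw [Finset.mem_filter]
      exact ⟨Finset.mem_univ _, Submodule.subset_span (by exact_mod_cast hg1.1), h2.2.2⟩
    have h2 : ((Y ∩ nh s σ d Γ g).card : ℝ) ≤ L * (rk (Y ∩ nh s σ d Γ g) : ℝ) :=
      hX _ (Finset.inter_subset_left.trans hY)
    have h3 : (rk (Y ∩ nh s σ d Γ g) : ℝ) ≤ (rk (nb s W σ (d + g)) : ℝ) := by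
      exact_mod_cast rk_mono h1
    have h4 : p * D₁ / 2 ≤ L * (rk (nb s W σ (d + g)) : ℝ) := by
      have h5 : p * D₁ ≤ p * ((nh s σ d Γ g).card : ℝ) :=
        mul_le_mul_of_nonneg_left (hGD g hg'.1) hp.le
      have h6 := mul_le_mul_of_nonneg_left h3 hL0.le
      linarith [hg'.2]
    rw [hx, div_le_iff₀ (by positivity)]
    linarith
  obtain ⟨B, hBli, hBA, hBr⟩ := exB W d A
  set m : ℕ := ⌈x⌉₊ with hm
  have hm0 : 0 < m := Nat.ceil_pos.mpr hx0
  have hBc : (B.card : ℝ) ≤ R / Real.sqrt m := by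
    apply hRch m hm0 W B hBli
    intro t ht
    obtain ⟨g, hg, rfl⟩ := hBA t ht
    exact Nat.ceil_le.mpr (hnb g hg)
  have hmx : x ≤ (m : ℝ) := Nat.le_ceil x
  have hsm : 0 < Real.sqrt m := Real.sqrt_pos.mpr (by exact_mod_cast hm0)
  have hBR : (B.card : ℝ) * Real.sqrt m ≤ R := (le_div_iff₀ hsm).mp hBc
  have hrA : D₁ / (2 * L) ≤ (rk A : ℝ) := by
    have h1 : (A.card : ℝ) ≤ L * (rk A : ℝ) := hX A hAG
    rw [div_le_iff₀ (by positivity)]
    linarith
  have hBl : D₁ / (2 * L) - 8 * p * g₀ ≤ (B.card : ℝ) := by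
    have h1 : (rk A : ℝ) ≤ (B.card : ℝ) + (Module.finrank (ZMod 2) W : ℝ) := by
      exact_mod_cast hBr
    linarith
  calc (D₁ / (2 * L) - 8 * p * g₀) * Real.sqrt x
      ≤ (B.card : ℝ) * Real.sqrt x := mul_le_mul_of_nonneg_right hBl (Real.sqrt_nonneg _)
    _ ≤ (B.card : ℝ) * Real.sqrt m :=
        mul_le_mul_of_nonneg_left (Real.sqrt_le_sqrt hmx) (Nat.cast_nonneg _)
    _ ≤ R := hBR

end Pool.Agent.XPS
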