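import Pool.Agent.XPS.Targets

set_option autoImplicit false

/-!
# XPS: IDN, the identities for the blocks
-/

open scoped Classical

noncomputable section

namespace Pool.Agent.XPS

namespace IDN_

open Finset

variable {V : Type} [AddCommGroup V] [Module (ZMod 2) V]

theorem dd (x : V) : x + x = 0 := by
  have h : (2 : ZMod 2) • x = 0 := by
    have : (2 : ZMod 2) = 0 := by decide
    rw [this, zero_smul]
  rwa [two_smul] at h

theorem ng (x : V) : -x = x := by
  rw [neg_eq_iff_add_eq_zero]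
  exact dd x

theorem eq_iff (x y : V) : x + y = 0 ↔ x = y := by
  rw [add_eq_zero_iff_eq_neg, ng]

/-- the product -/
def w (s : V → ℝ) (d : V) (p : V × V) : ℝ := s p.1 * s p.2 * s (d + p.1 + p.2)

variable [Fintype V]

theorem mem_Om {d x y : V} : (x, y) ∈ Om d ↔ x ≠ y ∧ x ≠ d ∧ y ≠ d ∧ x ≠ 0 ∧ y ≠ 0 ∧
    d + x + y ≠ 0 := by
  unfold Om
  rw [mem_filter]
  exact ⟨fun h => h.2, fun h => ⟨mem_univ _, h⟩⟩

/-- a sum over `Om d` as a double sum -/
theorem sum_Om (d : V) (F : V × V → ℝ) :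
    ∑ p ∈ Om d, F p = ∑ x, ∑ y, if (x, y) ∈ Om d then F (x, y) else 0 := by
  rw [← sum_product' univ univ (fun x y => if (x, y) ∈ Om d then F (x, y) else 0), univ_product_univ,
    ← sum_filter]
  refine sum_congr ?_ fun _ _ => rfl
  ext p
  simp

theorem row (s : V → ℝ) (h0 : ∀ g : V, g ≠ 0 → ∑ x, s x * s (x + g) = 0) {d x : V} (hd : d ≠ 0)
    (hx : x ≠ 0) (hxd : x ≠ d) :
    ∑ y, (if (x, y) ∈ Om d then w s d (x, y) else 0) =
      -2 * s x * (s d * s x + s 0 * s (d + x)) := by
  have hdx : d + x ≠ 0 := fun h => hxd ((eq_iff d x).1 h).symm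
  have e1 : ∀ y, (if (x, y) ∈ Om d then w s d (x, y) else 0) = w s d (x, y) -
      (if y ∈ ({x, d, 0, d + x} : Finset V) then w s d (x, y) else 0) := by
    intro y
    have e2 : (x, y) ∈ Om d ↔ ¬ y ∈ ({x, d, 0, d + x} : Finset V) := by
      rw [mem_Om]
      simp only [mem_insert, mem_singleton, not_or]
      constructor
      · rintro ⟨h1, -, h3, -, h5, h6⟩
        exact ⟨h1.symm, h3, h5, fun h => h6 ((eq_iff _ _).2 h.symm)⟩
      · rintro ⟨h1, h3, h5, h6⟩
        exact ⟨fun h => h1 h.symm, hxd, h3, hx, h5, fun h => h6 ((eq_iff _ _).1 h).symm⟩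
    by_cases h : y ∈ ({x, d, 0, d + x} : Finset V)
    · rw [if_neg (fun h' => (e2.1 h') h), if_pos h, sub_self]
    · rw [if_pos (e2.2 h), if_neg h, sub_zero]
  simp only [e1]
  rw [sum_sub_distrib]
  have e3 : ∑ y, w s d (x, y) = 0 := by
    have : ∑ y, w s d (x, y) = s x * ∑ y, s y * s (y + (d + x)) := by
      rw [mul_sum]
      refine sum_congr rfl fun y _ => ?_
      unfold w
      rw [add_comm (d + x) y]
      ring
    rw [this, h0 _ hdx, mul_zero]
  have e4 : ∑ y, (if y ∈ ({x, d, 0, d + x} : Finset V) then w s d (x, y) else 0) =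
      w s d (x, x) + (w s d (x, d) + (w s d (x, 0) + w s d (x, d + x))) := by
    rw [← sum_filter, filter_mem_eq_inter, univ_inter, sum_insert, sum_insert, sum_insert,
      sum_singleton]
    · rw [mem_singleton]
      exact hdx.symm
    · simp only [mem_insert, mem_singleton, not_or]
      refine ⟨hd, fun h => hx ?_⟩
      exact (left_eq_add.1 h)
    · simp only [mem_insert, mem_singleton, not_or]
      exact ⟨hxd, hx, fun h => hd (right_eq_add.1 h)⟩
  rw [e3, e4]
  unfold w
  have a1 : d + x + x = d := by rw [add_assoc, dd, add_zero]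
  have a2 : d + x + d = x := by rw [add_comm d x, add_assoc, dd, add_zero]
  have a3 : d + x + (d + x) = 0 := dd _
  simp only [a1, a2, a3, add_zero]
  ring

theorem row0 (s : V → ℝ) {d x : V} (hx : x = 0 ∨ x = d) :
    ∑ y, (if (x, y) ∈ Om d then w s d (x, y) else 0) = 0 := by
  refine sum_eq_zero fun y _ => if_neg fun h => ?_
  rw [mem_Om] at h
  rcases hx with hx | hx
  · exact h.2.2.2.1 hx
  · exact h.2.1 hx

theorem swap_sum (d : V) (F : V × V → ℝ) : ∑ p ∈ Om d, F (p.2, p.1) = ∑ p ∈ Om d, F p := by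
  refine sum_nbij' (fun p => (p.2, p.1)) (fun p => (p.2, p.1)) ?_ ?_ ?_ ?_ ?_
  · rintro ⟨x, y⟩ h
    rw [mem_Om] at *
    refine ⟨h.1.symm, h.2.2.1, h.2.1, h.2.2.2.2.1, h.2.2.2.1, ?_⟩
    have e : d + y + x = d + x + y := by abel
    rw [e]
    exact h.2.2.2.2.2
  · rintro ⟨x, y⟩ h
    rw [mem_Om] at *
    refine ⟨h.1.symm, h.2.2.1, h.2.1, h.2.2.2.2.1, h.2.2.2.1, ?_⟩
    have e : d + y + x = d + x + y := by abel
    rw [e]
    exact h.2.2.2.2.2
  · intro p _
    rfl
  · intro p _
    rfl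
  · intro p _
    rfl

theorem rot (d x y : V) : d + x + (d + x + y) = y := by
  rw [← add_assoc, dd, zero_add]

theorem rot_mem {d x y : V} (h : (x, y) ∈ Om d) : (x, d + x + y) ∈ Om d := by
  rw [mem_Om] at *
  obtain ⟨h1, h2, h3, h4, h5, h6⟩ := h
  refine ⟨?_, h2, ?_, h4, h6, ?_⟩
  · intro h
    apply h3
    have e : x + x = x + (d + x + y) := by rw [← h]
    have e2 : x + (d + x + y) = d + y + (x + x) := by abel
    rw [e2, dd, add_zero] at e
    exact ((eq_iff d y).1 e.symm).symm
  · intro h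
    apply h1
    have e : d + (d + x + y) = d + d := by rw [h]
    have e2 : d + (d + x + y) = x + y + (d + d) := by abel
    rw [e2, dd, add_zero] at e
    exact (eq_iff x y).1 e
  · rw [rot]
    exact h5

theorem rot_sum (d : V) (F : V × V → ℝ) :
    ∑ p ∈ Om d, F (p.1, d + p.1 + p.2) = ∑ p ∈ Om d, F p := by
  refine sum_nbij' (fun p => (p.1, d + p.1 + p.2)) (fun p => (p.1, d + p.1 + p.2)) ?_ ?_ ?_ ?_ ?_
  · rintro ⟨x, y⟩ h
    exact rot_mem h
  · rintro ⟨x, y⟩ h
    exact rot_mem h
  · rintro ⟨x, y⟩ _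
    exact Prod.ext rfl (rot d x y)
  · rintro ⟨x, y⟩ _
    exact Prod.ext rfl (rot d x y)
  · intro p _
    rfl

/-- the first direction -/
theorem dir (s : V → ℝ) (h0 : ∀ g : V, g ≠ 0 → ∑ x, s x * s (x + g) = 0) {d : V} (hd : d ≠ 0)
    (G : Finset V) (hG0 : 0 ∉ G) (hGd : d ∉ G) :
    ∑ p ∈ Om d, (if d + p.1 ∈ G then w s d p else 0) =
      ∑ g ∈ G, -2 * (s (d + g) * (s d * s (d + g) + s 0 * s g)) := by
  rw [sum_Om d (fun p => if d + p.1 ∈ G then w s d p else 0)]
  have e1 : ∀ x, (∑ y, if (x, y) ∈ Om d then (if d + x ∈ G then w s d (x, y) else 0) else 0) =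
      if d + x ∈ G then (∑ y, if (x, y) ∈ Om d then w s d (x, y) else 0) else 0 := by
    intro x
    by_cases h : d + x ∈ G
    · simp only [if_pos h]
    · simp only [if_neg h, ite_self, sum_const_zero]
  simp only [e1]
  rw [← sum_filter]
  symm
  refine sum_nbij' (fun g => d + g) (fun x => d + x) ?_ ?_ ?_ ?_ ?_
  · intro g hg
    rw [mem_filter]
    refine ⟨mem_univ _, ?_⟩
    rw [← add_assoc, dd, zero_add]
    exact hg
  · intro x hx
    exact (mem_filter.1 hx).2
  · intro g _
    show d + (d + g) = g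
    rw [← add_assoc, dd, zero_add]
  · intro g _
    show d + (d + g) = g
    rw [← add_assoc, dd, zero_add]
  · intro g hg
    have hg0 : g ≠ 0 := fun h => hG0 (h ▸ hg)
    have hgd : g ≠ d := fun h => hGd (h ▸ hg)
    have e2 : d + (d + g) = g := by rw [← add_assoc, dd, zero_add]
    rw [row s h0 hd (fun h => hgd ((eq_iff d g).1 h).symm)
      (fun h => hg0 (add_eq_left.1 h)), e2]
    ring

end IDN_

open IDN_ Finset in
theorem p_IDN : T_IDN := by
  intro V _ _ _ s h1 h0 _ d hd
  constructor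
  · have e0 : ∑ p ∈ Om d, s p.1 * s p.2 * s (d + p.1 + p.2) = ∑ p ∈ Om d, w s d p := rfl
    rw [e0, sum_Om d (w s d)]
    have e1 : ∀ x, (∑ y, if (x, y) ∈ Om d then w s d (x, y) else 0) =
        -2 * s x * (s d * s x + s 0 * s (d + x)) -
        ((if x = 0 then -2 * s x * (s d * s x + s 0 * s (d + x)) else 0) +
        (if x = d then -2 * s x * (s d * s x + s 0 * s (d + x)) else 0)) := by
      intro x
      by_cases hx : x = 0
      · rw [row0 s (Or.inl hx), if_pos hx, if_neg (fun h => hd (h.symm.trans hx))]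
        ring
      · by_cases hxd : x = d
        · rw [row0 s (Or.inr hxd), if_neg hx, if_pos hxd]
          ring
        · rw [row s h0 hd hx hxd, if_neg hx, if_neg hxd]
          ring
    simp only [e1]
    rw [sum_sub_distrib, sum_add_distrib, sum_ite_eq' univ (0 : V), if_pos (mem_univ _),
      sum_ite_eq' univ d, if_pos (mem_univ _)]
    have e2 : ∑ x, -2 * s x * (s d * s x + s 0 * s (d + x)) =
        -2 * s d * ∑ x, s x ^ 2 - 2 * s 0 * ∑ x, s x * s (x + d) := by
      rw [mul_sum, mul_sum, ← sum_sub_distrib]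
      refine sum_congr rfl fun x _ => ?_
      rw [add_comm d x]
      ring
    rw [e2, h1, h0 d hd, dd, add_zero]
    ring
  · intro G hG0 hGd
    have e0 : ∑ p ∈ Om d, nG G d p * (s p.1 * s p.2 * s (d + p.1 + p.2)) =
        ∑ p ∈ Om d, (if d + p.1 ∈ G then w s d p else 0) +
        ∑ p ∈ Om d, (if d + p.2 ∈ G then w s d p else 0) +
        ∑ p ∈ Om d, (if p.1 + p.2 ∈ G then w s d p else 0) := by
      rw [← sum_add_distrib, ← sum_add_distrib]
      refine sum_congr rfl fun p _ => ?_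
      unfold nG w
      split_ifs <;> ring
    have e1 : ∑ p ∈ Om d, (if d + p.2 ∈ G then w s d p else 0) =
        ∑ p ∈ Om d, (if d + p.1 ∈ G then w s d p else 0) := by
      rw [← swap_sum d (fun p => if d + p.1 ∈ G then w s d p else 0)]
      refine sum_congr rfl fun p _ => ?_
      have e : w s d (p.2, p.1) = w s d p := by
        unfold w
        have e3 : d + p.2 + p.1 = d + p.1 + p.2 := by abel
        show s p.2 * s p.1 * s (d + p.2 + p.1) = _
        rw [e3]
        ring
      rw [e]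
    have e2 : ∑ p ∈ Om d, (if p.1 + p.2 ∈ G then w s d p else 0) =
        ∑ p ∈ Om d, (if d + p.2 ∈ G then w s d p else 0) := by
      rw [← rot_sum d (fun p => if d + p.2 ∈ G then w s d p else 0)]
      refine sum_congr rfl fun p _ => ?_
      have e : w s d (p.1, d + p.1 + p.2) = w s d p := by
        unfold w
        show s p.1 * s (d + p.1 + p.2) * s (d + p.1 + (d + p.1 + p.2)) = _
        rw [rot]
        ring
      have e3 : d + (d + p.1 + p.2) = p.1 + p.2 := by
        rw [add_assoc d p.1, ← add_assoc, dd, zero_add]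
      show _ = if d + (d + p.1 + p.2) ∈ G then w s d (p.1, d + p.1 + p.2) else 0
      rw [e, e3]
    rw [e0, e2, e1, dir s h0 hd G hG0 hGd, ← sum_add_distrib, ← sum_add_distrib, mul_sum]
    refine sum_congr rfl fun g _ => ?_
    ring

end Pool.Agent.XPS
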