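import Pool.Agent.XPS.Targets

set_option autoImplicit false

/-!
# XPS: ITE, the merging algorithm
-/

open scoped Classical

noncomputable section

namespace Pool.Agent.XPS

open Pool.Agent.LRC

namespace ITE_

/-- The numerical part for a step of dimension one. -/
theorem num1 (A x y e : ℝ) (hA : 1 ≤ A) (hx0 : 0 ≤ x) (hy1 : y ≤ 1)
    (he0 : 0 < e) (he : e ^ 2 = 1 - x ^ 2) (h : x + e / A ≤ y) :
    1 + 2 * A * Real.sqrt (1 - y) ≤ 2 * A * Real.sqrt (1 - x) := by
  have hA0 : 0 < A := by linarith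
  have ht0 : 0 < 1 / A := by positivity
  have het : e / A = e * (1 / A) := by ring
  have hx1 : x < 1 := by
    have : 0 < e / A := by positivity
    linarith
  set u := Real.sqrt (1 - x) with hu
  have hu0 : 0 < u := Real.sqrt_pos.mpr (by linarith)
  have hu2 : u ^ 2 = 1 - x := Real.sq_sqrt (by linarith)
  have hue : u ≤ e := by
    have h1 : u ^ 2 ≤ e ^ 2 := by rw [hu2, he]; nlinarith
    exact (pow_le_pow_iff_left₀ hu0.le he0.le two_ne_zero).mp h1
  have h2 : 1 - y ≤ u ^ 2 - u * (1 / A) := by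
    have h3 : u * (1 / A) ≤ e * (1 / A) := mul_le_mul_of_nonneg_right hue ht0.le
    rw [hu2]
    rw [het] at h
    linarith
  have h4 : 1 / A ≤ u := by
    have h5 : 0 ≤ u * (u - 1 / A) := by nlinarith
    have h6 : 0 ≤ u - 1 / A := nonneg_of_mul_nonneg_right h5 hu0
    linarith
  have h7 : Real.sqrt (1 - y) ≤ u - 1 / A / 2 := by
    apply Real.sqrt_le_iff.mpr
    constructor
    · linarith
    · nlinarith
  have h8 : 2 * A * Real.sqrt (1 - y) ≤ 2 * A * (u - 1 / A / 2) :=
    mul_le_mul_of_nonneg_left h7 (by linarith)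
  have h9 : 2 * A * (u - 1 / A / 2) = 2 * A * u - 1 := by
    field_simp
  linarith

section

variable {V : Type} [AddCommGroup V] [Module (ZMod 2) V]

theorem dbl (x : V) : x + x = 0 := by
  have h : (2 : ZMod 2) • x = 0 := by
    have : (2 : ZMod 2) = 0 := rfl
    rw [this, zero_smul]
  rwa [two_smul] at h

/-- The dimension of the preimage. -/
theorem fin_comap [Fintype V] (W : Submodule (ZMod 2) V) (U : Submodule (ZMod 2) (V ⧸ W)) :
    Module.finrank (ZMod 2) (U.comap W.mkQ) ≤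
      Module.finrank (ZMod 2) U + Module.finrank (ZMod 2) W := by
  let g : (U.comap W.mkQ) →ₗ[ZMod 2] (V ⧸ W) := W.mkQ ∘ₗ (U.comap W.mkQ).subtype
  have h1 := LinearMap.finrank_range_add_finrank_ker g
  have h2 : Module.finrank (ZMod 2) (LinearMap.range g) ≤ Module.finrank (ZMod 2) U := by
    apply Submodule.finrank_mono
    rintro _ ⟨x, rfl⟩
    exact x.2
  have h3 : Module.finrank (ZMod 2) (LinearMap.ker g) ≤ Module.finrank (ZMod 2) W := by
    have hmem : ∀ x : LinearMap.ker g, ((x : U.comap W.mkQ) : V) ∈ W := by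
      intro x
      have hx : g x = 0 := x.2
      exact (Submodule.Quotient.mk_eq_zero W).mp hx
    let k : (LinearMap.ker g) →ₗ[ZMod 2] W :=
      { toFun := fun x => ⟨((x : U.comap W.mkQ) : V), hmem x⟩
        map_add' := fun x y => rfl
        map_smul' := fun c x => rfl }
    apply LinearMap.finrank_le_finrank_of_injective (f := k)
    intro x y hxy
    have : ((x : U.comap W.mkQ) : V) = ((y : U.comap W.mkQ) : V) :=
      congrArg (fun z : W => (z : V)) hxy
    exact Subtype.ext (Subtype.ext this)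
  omega

/-- The trivial case. -/
theorem triv [Fintype V] (s : V → ℝ) (h1 : ∑ v, s v ^ 2 = 1) (h0 : ¬ 0 < et s) (v : V)
    (hv : v ∉ (⊥ : Submodule (ZMod 2) V)) : cs s ⊥ 0 v = 0 := by
  have h2 : 1 ≤ s 0 ^ 2 := by
    unfold et at h0
    rw [Real.sqrt_pos] at h0
    linarith
  have hz : ∀ u : V, u ≠ 0 → s u = 0 := by
    intro u hu
    have h3 : ∑ w ∈ ({0, u} : Finset V), s w ^ 2 ≤ ∑ w, s w ^ 2 :=
      Finset.sum_le_sum_of_subset_of_nonneg (Finset.subset_univ _) fun _ _ _ => sq_nonneg _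
    rw [Finset.sum_pair (Ne.symm hu), h1] at h3
    have h4 : s u ^ 2 ≤ 0 := by linarith
    exact pow_eq_zero_iff (two_ne_zero) |>.mp (le_antisymm h4 (sq_nonneg _))
  unfold cs
  apply Finset.sum_eq_zero
  intro u _
  split_ifs with h
  · have hu : u ≠ 0 := by
      rintro rfl
      rw [zero_add] at h
      exact hv h
    rw [hz u hu, zero_mul]
  · rfl

end

/-- The induction. -/
theorem main (hQ : T_QUO) (hS : T_STP) (hB : T_BAS) (Q : ℝ) (hQ1 : 1 ≤ Q)
    (hN : ∀ (V : Type) [AddCommGroup V] [Module (ZMod 2) V] [Fintype V] (s : V → ℝ), ¬ Stk Q s)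
    (n : ℕ) : ∀ (V : Type) [AddCommGroup V] [Module (ZMod 2) V]
    [Fintype V] (s : V → ℝ), Module.finrank (ZMod 2) V ≤ n → Bl s → s 0 ≠ 0 →
    ((Sp s).card : ℝ) ≤ Q ^ 26000 →
    ∃ (W : Submodule (ZMod 2) V) (l : Module.Dual (ZMod 2) V),
      (Module.finrank (ZMod 2) W : ℝ) ≤ 2 * Q ^ 12999 * Real.sqrt (1 - |s 0|) +
        ((Sp s).card : ℝ) / Q ^ 13001 ∧ ∀ v, v ∉ W → cs s W l v = 0 := by
  have hQ0 : 0 < Q := by linarith
  obtain ⟨A, hA⟩ : ∃ A : ℝ, A = Q ^ 12999 := ⟨_, rfl⟩
  obtain ⟨B, hB'⟩ : ∃ B : ℝ, B = Q ^ 13001 := ⟨_, rfl⟩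
  obtain ⟨D, hD⟩ : ∃ D : ℝ, D = Q ^ 26000 := ⟨_, rfl⟩
  have hA1 : 1 ≤ A := by rw [hA]; exact one_le_pow₀ hQ1
  have hB0 : 0 < B := by rw [hB']; exact pow_pos hQ0 _
  rw [← hA, ← hB', ← hD]
  induction n with
  | zero =>
    intro V _ _ _ s hn hs h0 hc
    by_cases he : 0 < et s
    · exfalso
      obtain ⟨W, l, hW, _⟩ := hS Q hQ1 V s hs h0 he (by rw [← hD]; exact hc) (hN V s)
      apply hW
      rw [← Submodule.finrank_eq_zero (R := ZMod 2)]
      have := Submodule.finrank_le W
      omega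
    · refine ⟨⊥, 0, ?_, fun v hv => triv s (hB V s hs).1 he v hv⟩
      rw [finrank_bot]
      have : 0 ≤ Real.sqrt (1 - |s 0|) := Real.sqrt_nonneg _
      have h3 : 0 ≤ ((Sp s).card : ℝ) / B := by positivity
      have h4 : 0 ≤ 2 * A * Real.sqrt (1 - |s 0|) := by positivity
      push_cast
      linarith
  | succ n ih =>
    intro V _ _ _ s hn hs h0 hc
    by_cases he : 0 < et s
    · obtain ⟨W, l, hW, h1, h2⟩ := hS Q hQ1 V s hs h0 he (by rw [← hD]; exact hc) (hN V s)
      have : Fintype (V ⧸ W) := Fintype.ofFinite _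
      obtain ⟨q1, q2, q3, q4, q5⟩ := hQ V s W l
      have e0 : qs s W l 0 = cs s W l 0 := by
        have := q4 0
        rwa [map_zero] at this
      have hs' := q1 hs
      have hfr := Submodule.finrank_quotient_add_finrank W
      have hWp : Module.finrank (ZMod 2) W ≠ 0 := by
        intro hh
        exact hW ((Submodule.finrank_eq_zero (R := ZMod 2)).mp hh)
      have hq2 : ((Sp (qs s W l)).card : ℝ) ≤ (nq (Sp s) W : ℝ) := by exact_mod_cast q2
      have hq3 : (nq (Sp s) W : ℝ) ≤ ((Sp s).card : ℝ) := by exact_mod_cast q3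
      have h0' : qs s W l 0 ≠ 0 := by
        rw [e0]
        have := abs_pos.mpr h0
        exact abs_pos.mp (lt_of_lt_of_le this h1)
      obtain ⟨W', l', w1, w2⟩ := ih (V ⧸ W) (qs s W l) (by omega) hs' h0'
        (hq2.trans (hq3.trans hc))
      refine ⟨W'.comap W.mkQ, l + l' ∘ₗ W.mkQ, ?_, ?_⟩
      · have hfc : (Module.finrank (ZMod 2) (W'.comap W.mkQ) : ℝ) ≤
            (Module.finrank (ZMod 2) W' : ℝ) + (Module.finrank (ZMod 2) W : ℝ) := by
          exact_mod_cast fin_comap W W'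
        have hle1 : |qs s W l 0| ≤ 1 := (hB (V ⧸ W) (qs s W l) hs').2.2.2.2 0
        rcases h2 with ⟨h3, h4⟩ | h5
        · rw [← hA, ← e0] at h4
          have he2 : et s ^ 2 = 1 - |s 0| ^ 2 := by
            unfold et at he ⊢
            rw [Real.sqrt_pos] at he
            rw [Real.sq_sqrt he.le, sq_abs]
          have := num1 A |s 0| |qs s W l 0| (et s) hA1 (abs_nonneg _) hle1 he he2 h4
          have h6 : ((Sp (qs s W l)).card : ℝ) / B ≤ ((Sp s).card : ℝ) / B :=
            div_le_div_of_nonneg_right (hq2.trans hq3) hB0.le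
          rw [h3] at hfc
          push_cast at hfc
          linarith
        · rw [← hB'] at h5
          rw [← e0] at h1
          have h6 : Real.sqrt (1 - |qs s W l 0|) ≤ Real.sqrt (1 - |s 0|) :=
            Real.sqrt_le_sqrt (by linarith)
          have h7 : 2 * A * Real.sqrt (1 - |qs s W l 0|) ≤ 2 * A * Real.sqrt (1 - |s 0|) :=
            mul_le_mul_of_nonneg_left h6 (by linarith)
          have h8 : ((Sp (qs s W l)).card : ℝ) / B + (Module.finrank (ZMod 2) W : ℝ) ≤
              ((Sp s).card : ℝ) / B := by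
            rw [div_add' _ _ _ hB0.ne']
            apply div_le_div_of_nonneg_right _ hB0.le
            linarith
          linarith
      · intro v hv
        rw [← q5 W' l' v]
        exact w2 _ hv
    · refine ⟨⊥, 0, ?_, fun v hv => triv s (hB V s hs).1 he v hv⟩
      rw [finrank_bot]
      have : 0 ≤ Real.sqrt (1 - |s 0|) := Real.sqrt_nonneg _
      have h3 : 0 ≤ ((Sp s).card : ℝ) / B := by positivity
      have h4 : 0 ≤ 2 * A * Real.sqrt (1 - |s 0|) := by positivity
      push_cast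
      linarith

end ITE_

theorem p_ITE : T_QUO → T_STP → T_BAS → T_ITE := by
  intro hQ hS hB Q hQ1 hN V _ _ _ s hs h0 hc
  exact ITE_.main hQ hS hB Q hQ1 hN (Module.finrank (ZMod 2) V) V s le_rfl hs h0 hc

end Pool.Agent.XPS
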