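import Pool.Agent.XPS.Targets

set_option autoImplicit false

/-!
# XPS: T_KHI, Khintchine's inequality for independent characters
-/

open scoped Classical

noncomputable section

namespace Pool.Agent.XPS

open Pool.Agent.LRC

namespace KHI_

lemma z2_cases (a : ZMod 2) : a = 0 ∨ a = 1 := by revert a; decide

lemma sg_zero : sg 0 = 1 := by simp [sg]

lemma sg_one : sg 1 = -1 := by
  unfold sg
  rw [if_neg (by decide)]

lemma sg_add (a b : ZMod 2) : sg (a + b) = sg a * sg b := by
  rcases z2_cases a with rfl | rfl <;> rcases z2_cases b with rfl | rfl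
  · simp [sg_zero]
  · simp [sg_zero]
  · simp [sg_zero]
  · have : (1 : ZMod 2) + 1 = 0 := by decide
    rw [this, sg_zero, sg_one]
    norm_num

lemma sg_sq (a : ZMod 2) : sg a * sg a = 1 := by
  rcases z2_cases a with rfl | rfl
  · rw [sg_zero]; norm_num
  · rw [sg_one]; norm_num

lemma sg_abs (a : ZMod 2) : |sg a| = 1 := by
  rcases z2_cases a with rfl | rfl
  · rw [sg_zero]; norm_num
  · rw [sg_one]; norm_num

variable {V : Type} [AddCommGroup V] [Module (ZMod 2) V] [Fintype V]

omit [Fintype V] in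
/-- a functional which is `1` at `g j` and `0` at the other given vectors -/
lemma ex_dual {ι : Type} (g : ι → V) (hg : LinearIndependent (ZMod 2) g) (A : Finset ι) (j : ι)
    (hj : j ∉ A) :
    ∃ m : Module.Dual (ZMod 2) V, m (g j) = 1 ∧ ∀ i ∈ A, m (g i) = 0 := by
  have h1 : g j ∉ Submodule.span (ZMod 2) (g '' (A : Set ι)) :=
    hg.notMem_span_image (by simpa using hj)
  obtain ⟨m, hm, hle⟩ := Submodule.exists_le_ker_of_notMem h1
  refine ⟨m, ?_, ?_⟩
  · rcases z2_cases (m (g j)) with h | h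
    · exact absurd h hm
    · exact h
  · intro i hi
    have : g i ∈ LinearMap.ker m := hle (Submodule.subset_span ⟨i, by simpa using hi, rfl⟩)
    simpa using this

/-- odd functions have average zero -/
lemma odd_zero (hC : T_CHR) (F : Module.Dual (ZMod 2) V → ℝ) (m : Module.Dual (ZMod 2) V)
    (h : ∀ l, F (l + m) = -1 * F l) : av F = 0 := by
  obtain ⟨-, -, -, -, h5, -, h7, -⟩ := hC V
  have h1 := h7 F m
  have h2 : (fun l => F (l + m)) = fun l => -1 * F l := by
    funext l
    exact h l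
  rw [h2, h5] at h1
  linarith

/-- the random sum -/
def X {ι : Type} (g : ι → V) (a : ι → ℝ) (A : Finset ι) (l : Module.Dual (ZMod 2) V) : ℝ :=
  ∑ i ∈ A, a i * sg (l (g i))

lemma moments (hC : T_CHR) {ι : Type} (g : ι → V) (a : ι → ℝ)
    (hg : LinearIndependent (ZMod 2) g) (A : Finset ι) :
    av (fun l : Module.Dual (ZMod 2) V => X g a A l ^ 2) = ∑ i ∈ A, a i ^ 2 ∧
    av (fun l : Module.Dual (ZMod 2) V => X g a A l ^ 4) ≤ 3 * (∑ i ∈ A, a i ^ 2) ^ 2 := by
  obtain ⟨-, -, -, h4, h5, -, -, h8⟩ := hC V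
  induction A using Finset.induction_on with
  | empty =>
    have e1 : (fun l : Module.Dual (ZMod 2) V => X g a ∅ l ^ 2) = fun _ => (0 : ℝ) := by
      funext l
      simp [X]
    have e2 : (fun l : Module.Dual (ZMod 2) V => X g a ∅ l ^ 4) = fun _ => (0 : ℝ) := by
      funext l
      simp [X]
    rw [e1, e2, h8]
    simp
  | insert j A hj ih =>
    obtain ⟨ih2, ih4⟩ := ih
    obtain ⟨m, hm1, hm0⟩ := ex_dual g hg A j hj
    have hX : ∀ l : Module.Dual (ZMod 2) V, X g a A (l + m) = X g a A l := by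
      intro l
      unfold X
      refine Finset.sum_congr rfl fun i hi => ?_
      rw [LinearMap.add_apply, hm0 i hi, add_zero]
    have hs : ∀ l : Module.Dual (ZMod 2) V, sg ((l + m) (g j)) = -sg (l (g j)) := by
      intro l
      rw [LinearMap.add_apply, hm1, sg_add, sg_one]
      ring
    have hins : ∀ l : Module.Dual (ZMod 2) V,
        X g a (insert j A) l = a j * sg (l (g j)) + X g a A l := by
      intro l
      unfold X
      rw [Finset.sum_insert hj]
    have o1 : av (fun l : Module.Dual (ZMod 2) V => X g a A l * sg (l (g j))) = 0 := by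
      refine odd_zero hC _ m fun l => ?_
      rw [hX, hs]
      ring
    have o3 : av (fun l : Module.Dual (ZMod 2) V => X g a A l ^ 3 * sg (l (g j))) = 0 := by
      refine odd_zero hC _ m fun l => ?_
      rw [hX, hs]
      ring
    have q2 : (fun l : Module.Dual (ZMod 2) V => X g a (insert j A) l ^ 2) = fun l =>
        X g a A l ^ 2 + ((2 * a j) * (X g a A l * sg (l (g j))) + a j ^ 2) := by
      funext l
      rw [hins]
      have h := sg_sq (l (g j))
      linear_combination (a j ^ 2) * h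
    have q4 : (fun l : Module.Dual (ZMod 2) V => X g a (insert j A) l ^ 4) = fun l =>
        X g a A l ^ 4 + ((4 * a j) * (X g a A l ^ 3 * sg (l (g j))) +
          ((6 * a j ^ 2) * X g a A l ^ 2 + ((4 * a j ^ 3) * (X g a A l * sg (l (g j))) +
            a j ^ 4))) := by
      funext l
      rw [hins]
      have h := sg_sq (l (g j))
      have h3 : sg (l (g j)) ^ 3 = sg (l (g j)) := by linear_combination sg (l (g j)) * h
      have h4' : sg (l (g j)) ^ 4 = 1 := by
        linear_combination (sg (l (g j)) * sg (l (g j)) + 1) * h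
      linear_combination (6 * a j ^ 2 * X g a A l ^ 2) * h + (4 * a j ^ 3 * X g a A l) * h3 +
        (a j ^ 4) * h4'
    have r2 : av (fun l : Module.Dual (ZMod 2) V => X g a (insert j A) l ^ 2) =
        ∑ i ∈ A, a i ^ 2 + a j ^ 2 := by
      rw [q2, h4, h4, h5, o1, h8, ih2]
      ring
    have r4 : av (fun l : Module.Dual (ZMod 2) V => X g a (insert j A) l ^ 4) =
        av (fun l : Module.Dual (ZMod 2) V => X g a A l ^ 4) +
          6 * a j ^ 2 * (∑ i ∈ A, a i ^ 2) + a j ^ 4 := by
      rw [q4, h4, h4, h4, h4, h5, h5, h5, o1, o3, h8, ih2]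
      ring
    refine ⟨?_, ?_⟩
    · rw [r2, Finset.sum_insert hj]
      ring
    · rw [r4, Finset.sum_insert hj]
      nlinarith [sq_nonneg (a j ^ 2), sq_nonneg (a j)]

/-- the pointwise inequality -/
lemma pointwise (x lam : ℝ) (hl : 0 < lam) : 2 * (x ^ 2 / lam - x ^ 4 / lam ^ 3) ≤ |x| := by
  have key : ∀ u : ℝ, 0 ≤ u → 0 ≤ u ^ 3 - u + 1 / 2 := by
    intro u hu
    nlinarith [mul_nonneg hu (sq_nonneg (u - 577 / 1000)), sq_nonneg (u - 577 / 1000)]
  have hu := abs_nonneg x
  have h1 := key (|x| / lam) (by positivity)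
  have h2 : x ^ 2 = |x| ^ 2 := (sq_abs x).symm
  have h4 : x ^ 4 = |x| ^ 4 := by
    have : x ^ 4 = (x ^ 2) ^ 2 := by ring
    rw [this, h2]
    ring
  rw [h2, h4]
  have h3 : |x| - 2 * (|x| ^ 2 / lam - |x| ^ 4 / lam ^ 3) =
      2 * |x| * ((|x| / lam) ^ 3 - |x| / lam + 1 / 2) := by
    field_simp
    ring
  have h5 : 0 ≤ 2 * |x| * ((|x| / lam) ^ 3 - |x| / lam + 1 / 2) := by positivity
  linarith

end KHI_

open KHI_ in
theorem p_KHI : T_CHR → T_KHI := by
  intro hC V _ _ _ ι _ g t a hg
  obtain ⟨-, -, h3, h4, h5, -, -, h8⟩ := id (hC V)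
  obtain ⟨m2, m4⟩ := moments hC g a hg Finset.univ
  set A : ℝ := ∑ i, a i ^ 2 with hA
  have hA0 : 0 ≤ A := Finset.sum_nonneg fun i _ => sq_nonneg _
  have hab : (fun l : Module.Dual (ZMod 2) V => |∑ i, a i * sg (l (t + g i))|) =
      fun l => |X g a Finset.univ l| := by
    funext l
    have : ∑ i, a i * sg (l (t + g i)) = sg (l t) * X g a Finset.univ l := by
      unfold X
      rw [Finset.mul_sum]
      refine Finset.sum_congr rfl fun i _ => ?_
      rw [map_add, sg_add]
      ring
    rw [this, abs_mul, sg_abs, one_mul]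
  rw [hab]
  rcases hA0.eq_or_lt with h0 | hpos
  · rw [← h0, Real.sqrt_zero]
    have : av (fun _ : Module.Dual (ZMod 2) V => (0 : ℝ)) ≤
        av (fun l : Module.Dual (ZMod 2) V => |X g a Finset.univ l|) :=
      h3 _ _ fun l => abs_nonneg _
    rw [h8] at this
    linarith
  · set r : ℝ := Real.sqrt A with hr
    have hr0 : 0 < r := Real.sqrt_pos.2 hpos
    have hrr : r ^ 2 = A := Real.sq_sqrt hA0
    have hm : av (fun l : Module.Dual (ZMod 2) V =>
        (2 / (3 * r)) * X g a Finset.univ l ^ 2 +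
          (-2 / (3 * r) ^ 3) * X g a Finset.univ l ^ 4) ≤
        av (fun l : Module.Dual (ZMod 2) V => |X g a Finset.univ l|) := by
      refine h3 _ _ fun l => ?_
      have := pointwise (X g a Finset.univ l) (3 * r) (by positivity)
      calc (2 / (3 * r)) * X g a Finset.univ l ^ 2 +
          (-2 / (3 * r) ^ 3) * X g a Finset.univ l ^ 4
          = 2 * (X g a Finset.univ l ^ 2 / (3 * r) - X g a Finset.univ l ^ 4 / (3 * r) ^ 3) := by
            ring
        _ ≤ _ := this
    rw [h4, h5, h5, m2] at hm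
    have hm4 : (2 / (3 * r) ^ 3) * av (fun l : Module.Dual (ZMod 2) V =>
        X g a Finset.univ l ^ 4) ≤ (2 / (3 * r) ^ 3) * (3 * A ^ 2) :=
      mul_le_mul_of_nonneg_left m4 (by positivity)
    have e1 : (2 / (3 * r)) * A = 2 / 3 * r := by
      rw [← hrr]
      field_simp
    have e2 : (2 / (3 * r) ^ 3) * (3 * A ^ 2) = 2 / 9 * r := by
      rw [← hrr]
      field_simp
      ring
    have e3 : (-2 / (3 * r) ^ 3) * av (fun l : Module.Dual (ZMod 2) V =>
        X g a Finset.univ l ^ 4) = -((2 / (3 * r) ^ 3) * av (fun l : Module.Dual (ZMod 2) V =>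
        X g a Finset.univ l ^ 4)) := by
      ring
    rw [e1, e3] at hm
    rw [e2] at hm4
    linarith

end Pool.Agent.XPS
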