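import Pool.Agent.XPS.Targets

set_option autoImplicit false
set_option linter.unusedSectionVars false

/-!
# MP_9f5962_lc: the properties of the Kikuchi graph
-/

open scoped Classical

noncomputable section

namespace Pool.Agent.XPS

open Pool.Agent.LRC

namespace KIA_

variable {V : Type} [AddCommGroup V] [Module (ZMod 2) V]

theorem two (x : V) : x + x = 0 := ZModModule.add_self x

/-- One move. -/
def Mv {T : Finset V} {l : ℕ} (c : V) (A B : Fin l → {x // x ∈ T}) (i : Fin l) : Prop :=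
  ∀ i', (B i' : V) = if i' = i then c + (A i : V) else (A i' : V)

theorem mv_self {T : Finset V} {l : ℕ} {c : V} {A B : Fin l → {x // x ∈ T}} {i : Fin l}
    (h : Mv c A B i) : (B i : V) = c + (A i : V) := by
  have := h i
  rwa [if_pos rfl] at this

theorem mv_symm {T : Finset V} {l : ℕ} {c : V} {A B : Fin l → {x // x ∈ T}} {i : Fin l}
    (h : Mv c A B i) : Mv c B A i := by
  intro i'
  by_cases hi : i' = i
  · subst hi
    rw [if_pos rfl, mv_self h, ← add_assoc, two, zero_add]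
  · rw [if_neg hi]
    have := h i'
    rw [if_neg hi] at this
    exact this.symm

theorem mv_sum {T : Finset V} {l : ℕ} {c : V} {A B : Fin l → {x // x ∈ T}} {i : Fin l}
    (h : Mv c A B i) : ∑ i', (B i' : V) = ∑ i', (A i' : V) + c := by
  have h1 : ∀ i', (B i' : V) = (A i' : V) + if i' = i then c else 0 := by
    intro i'
    rw [h i']
    by_cases hi : i' = i
    · subst hi
      rw [if_pos rfl, if_pos rfl, add_comm]
    · rw [if_neg hi, if_neg hi, add_zero]
  rw [Finset.sum_congr rfl (fun i' _ => h1 i'), Finset.sum_add_distrib,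
    Finset.sum_ite_eq' Finset.univ i, if_pos (Finset.mem_univ i)]

theorem ka_eq {T : Finset V} {l : ℕ} (Y : V → V → Finset V) (VV R : Finset V) (d : V)
    (u w : (Fin l → {x // x ∈ T}) × (Fin l → {x // x ∈ T})) :
    ka Y VV R d u w = ∑ v ∈ VV, ∑ e ∈ R, ∑ i : Fin l, ∑ j : Fin l,
      if (u.1 i : V) ∈ Y d v ∧ (u.2 j : V) ∈ Y e v ∧ Mv (d + v) u.1 w.1 i ∧
        Mv (e + v) u.2 w.2 j then (1 : ℝ) else 0 := by
  unfold ka
  refine Finset.sum_congr rfl fun v _ => Finset.sum_congr rfl fun e _ =>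
    Finset.sum_congr rfl fun i _ => Finset.sum_congr rfl fun j _ => ?_
  exact if_congr Iff.rfl rfl rfl

theorem ex_mv {T : Finset V} {l : ℕ} (c : V) (A : Fin l → {x // x ∈ T}) (i : Fin l)
    (h : c + (A i : V) ∈ T) : ∃ B₀ : Fin l → {x // x ∈ T}, ∀ B, Mv c A B i ↔ B = B₀ := by
  refine ⟨Function.update A i ⟨c + (A i : V), h⟩, fun B => ?_⟩
  constructor
  · intro hB
    funext i'
    apply Subtype.ext
    rw [hB i']
    by_cases hi : i' = i
    · subst hi
      rw [if_pos rfl, Function.update_self]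
    · rw [if_neg hi, Function.update_of_ne hi]
  · rintro rfl i'
    by_cases hi : i' = i
    · subst hi
      rw [if_pos rfl, Function.update_self]
    · rw [if_neg hi, Function.update_of_ne hi]

theorem nen_eq {T : Finset V} {l : ℕ} (Z : Finset V) (A : Fin l → {x // x ∈ T}) :
    nen Z A = ∑ i : Fin l, if (A i : V) ∈ Z then (1 : ℝ) else 0 := by
  unfold nen
  rw [Finset.sum_boole]

theorem inner {T : Finset V} {l : ℕ} (Z Z' : Finset V) (c c' : V) (hZ : ∀ y ∈ Z, c + y ∈ T)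
    (hZ' : ∀ y ∈ Z', c' + y ∈ T) (u : (Fin l → {x // x ∈ T}) × (Fin l → {x // x ∈ T}))
    (i j : Fin l) :
    (∑ w : (Fin l → {x // x ∈ T}) × (Fin l → {x // x ∈ T}),
      if (u.1 i : V) ∈ Z ∧ (u.2 j : V) ∈ Z' ∧ Mv c u.1 w.1 i ∧ Mv c' u.2 w.2 j
        then (1 : ℝ) else 0) =
      (if (u.1 i : V) ∈ Z then (1 : ℝ) else 0) * if (u.2 j : V) ∈ Z' then (1 : ℝ) else 0 := by
  by_cases h1 : (u.1 i : V) ∈ Z
  · by_cases h2 : (u.2 j : V) ∈ Z'
    · obtain ⟨B₀, hB⟩ := ex_mv c u.1 i (hZ _ h1)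
      obtain ⟨B₁, hB'⟩ := ex_mv c' u.2 j (hZ' _ h2)
      rw [if_pos h1, if_pos h2, one_mul]
      have h3 : ∀ w : (Fin l → {x // x ∈ T}) × (Fin l → {x // x ∈ T}),
          (if (u.1 i : V) ∈ Z ∧ (u.2 j : V) ∈ Z' ∧ Mv c u.1 w.1 i ∧ Mv c' u.2 w.2 j
            then (1 : ℝ) else 0) = if w = (B₀, B₁) then 1 else 0 := by
        intro w
        have h4 : ((u.1 i : V) ∈ Z ∧ (u.2 j : V) ∈ Z' ∧ Mv c u.1 w.1 i ∧ Mv c' u.2 w.2 j) ↔
            w = (B₀, B₁) := by
          rw [hB, hB', Prod.ext_iff]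
          exact ⟨fun h => ⟨h.2.2.1, h.2.2.2⟩, fun h => ⟨h1, h2, h.1, h.2⟩⟩
        exact if_congr h4 rfl rfl
      rw [Finset.sum_congr rfl (fun w _ => h3 w), Finset.sum_ite_eq' Finset.univ (B₀, B₁),
        if_pos (Finset.mem_univ _)]
    · rw [if_neg h2, mul_zero]
      exact Finset.sum_eq_zero (fun w _ => if_neg (fun h => h2 h.2.1))
  · rw [if_neg h1, zero_mul]
    exact Finset.sum_eq_zero (fun w _ => if_neg (fun h => h1 h.1))

end KIA_

open KIA_ in
theorem p_KIA : T_KIA := by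
  intro V _ _ T R VV Y l hT hcl d u w
  refine ⟨?_, ?_, ?_, ?_⟩
  · rw [ka_eq]
    refine Finset.sum_nonneg fun v _ => Finset.sum_nonneg fun e _ => Finset.sum_nonneg fun i _ =>
      Finset.sum_nonneg fun j _ => ?_
    split_ifs
    · exact zero_le_one
    · exact le_refl _
  · have key : ∀ (x y : (Fin l → {x // x ∈ T}) × (Fin l → {x // x ∈ T})) (v e : V) (i j : Fin l),
        ((x.1 i : V) ∈ Y d v ∧ (x.2 j : V) ∈ Y e v ∧ Mv (d + v) x.1 y.1 i ∧
          Mv (e + v) x.2 y.2 j) →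
        ((y.1 i : V) ∈ Y d v ∧ (y.2 j : V) ∈ Y e v ∧ Mv (d + v) y.1 x.1 i ∧
          Mv (e + v) y.2 x.2 j) := by
      rintro x y v e i j ⟨h1, h2, h3, h4⟩
      refine ⟨?_, ?_, mv_symm h3, mv_symm h4⟩
      · rw [mv_self h3]
        exact hcl d v _ h1
      · rw [mv_self h4]
        exact hcl e v _ h2
    rw [ka_eq, ka_eq]
    refine Finset.sum_congr rfl fun v _ => Finset.sum_congr rfl fun e _ =>
      Finset.sum_congr rfl fun i _ => Finset.sum_congr rfl fun j _ => ?_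
    exact if_congr ⟨key u w v e i j, key w u v e i j⟩ rfl rfl
  · intro h
    rw [ka_eq] at h
    obtain ⟨v, -, h⟩ := Finset.exists_ne_zero_of_sum_ne_zero h
    obtain ⟨e, he, h⟩ := Finset.exists_ne_zero_of_sum_ne_zero h
    obtain ⟨i, -, h⟩ := Finset.exists_ne_zero_of_sum_ne_zero h
    obtain ⟨j, -, h⟩ := Finset.exists_ne_zero_of_sum_ne_zero h
    have h' : (u.1 i : V) ∈ Y d v ∧ (u.2 j : V) ∈ Y e v ∧ Mv (d + v) u.1 w.1 i ∧
        Mv (e + v) u.2 w.2 j := by
      by_contra hc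
      exact h (if_neg hc)
    obtain ⟨-, -, h3, h4⟩ := h'
    rw [mv_sum h3, mv_sum h4]
    have h5 : (∑ i, (u.1 i : V) + ∑ i, (u.2 i : V)) +
        ((∑ i, (u.1 i : V) + (d + v)) + (∑ i, (u.2 i : V) + (e + v))) + d =
        ((∑ i, (u.1 i : V) + ∑ i, (u.1 i : V)) + (∑ i, (u.2 i : V) + ∑ i, (u.2 i : V))) +
          ((d + d) + (v + v)) + e := by abel
    rw [h5]
    simp only [two, add_zero, zero_add]
    exact Submodule.subset_span he
  · have h1 : ∑ w', ka Y VV R d u w' = ∑ v ∈ VV, ∑ e ∈ R, ∑ i : Fin l, ∑ j : Fin l,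
        ∑ w' : (Fin l → {x // x ∈ T}) × (Fin l → {x // x ∈ T}),
        if (u.1 i : V) ∈ Y d v ∧ (u.2 j : V) ∈ Y e v ∧ Mv (d + v) u.1 w'.1 i ∧
          Mv (e + v) u.2 w'.2 j then (1 : ℝ) else 0 := by
      simp only [ka_eq]
      rw [Finset.sum_comm]
      refine Finset.sum_congr rfl fun v _ => ?_
      rw [Finset.sum_comm]
      refine Finset.sum_congr rfl fun e _ => ?_
      rw [Finset.sum_comm]
      refine Finset.sum_congr rfl fun i _ => ?_
      rw [Finset.sum_comm]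
    rw [h1]
    refine Finset.sum_congr rfl fun v _ => ?_
    rw [Finset.mul_sum]
    refine Finset.sum_congr rfl fun e _ => ?_
    rw [nen_eq, nen_eq, Finset.sum_mul_sum]
    refine Finset.sum_congr rfl fun i _ => Finset.sum_congr rfl fun j _ => ?_
    exact inner (Y d v) (Y e v) (d + v) (e + v) (fun y hy => hT d v (hcl d v y hy))
      (fun y hy => hT e v (hcl e v y hy)) u i j

end Pool.Agent.XPS
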