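import Pool.Agent.XPS.Targets

set_option autoImplicit false
set_option linter.unusedSectionVars false

/-!
# MP_9f5962_lc: the means of the degrees of the Kikuchi graph
-/

open scoped Classical

noncomputable section

namespace Pool.Agent.XPS

open Pool.Agent.LRC

namespace KIB_

theorem prod_sum {X : Type} [Fintype X] (F G : X → ℝ) :
    ∑ u : X × X, F u.1 * G u.2 = (∑ a, F a) * ∑ b, G b := by
  rw [Fintype.sum_prod_type, Finset.sum_mul_sum]

variable {V : Type} {T : Finset V} {l : ℕ}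

/-- The number of entries of `A` in the sets of the family. -/
def Hh (Y : V → V → Finset V) (R : Finset V) (v : V) (A : Fin l → {x // x ∈ T}) : ℝ :=
  ∑ e ∈ R, nen (Y e v) A

theorem nen_nonneg (Z : Finset V) (A : Fin l → {x // x ∈ T}) : 0 ≤ nen Z A := by
  unfold nen
  positivity

theorem Hh_nonneg (Y : V → V → Finset V) (R : Finset V) (v : V) (A : Fin l → {x // x ∈ T}) :
    0 ≤ Hh Y R v A := Finset.sum_nonneg fun _ _ => nen_nonneg _ _

theorem M2_nonneg (P : ℝ) (hP : 0 ≤ P) (Y₁ Y₂ : Finset V) : 0 ≤ M2 P Y₁ Y₂ := by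
  unfold M2
  positivity

theorem MM_nonneg (P : ℝ) (hP : 0 ≤ P) (Y : V → V → Finset V) (L : Finset V) (v w : V) :
    0 ≤ MM P Y L v w :=
  Finset.sum_nonneg fun _ _ => Finset.sum_nonneg fun _ _ => M2_nonneg P hP _ _

theorem M0_nonneg (P : ℝ) (hP : 0 ≤ P) (Y : V → V → Finset V) (L : Finset V) (v w : V) :
    0 ≤ M0 P Y L v w :=
  Finset.sum_nonneg fun _ _ => M2_nonneg P hP _ _

theorem first (h_MOM : T_MOM) (hT : T.Nonempty) (Y : V → V → Finset V) (hY : ∀ d v, Y d v ⊆ T)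
    (R : Finset V) (v : V) :
    ∑ A : Fin l → {x // x ∈ T}, Hh Y R v A =
      (T.card : ℝ) ^ l * ((l : ℝ) / (T.card : ℝ) * NN Y R v) := by
  unfold Hh NN
  rw [Finset.sum_comm, Finset.mul_sum, Finset.mul_sum]
  refine Finset.sum_congr rfl fun e _ => ?_
  exact (h_MOM V T l (Y e v) (Y e v) hT (hY e v) (hY e v)).1

theorem second (h_MOM : T_MOM) (hT : T.Nonempty) (Y : V → V → Finset V)
    (hY : ∀ d v, Y d v ⊆ T) (R : Finset V) (v w : V) :
    ∑ A : Fin l → {x // x ∈ T}, Hh Y R v A * Hh Y R w A ≤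
      (T.card : ℝ) ^ l * MM ((l : ℝ) / (T.card : ℝ)) Y R v w := by
  unfold Hh MM
  have e1 : ∑ A : Fin l → {x // x ∈ T}, (∑ e ∈ R, nen (Y e v) A) * (∑ e ∈ R, nen (Y e w) A) =
      ∑ d ∈ R, ∑ e ∈ R, ∑ A : Fin l → {x // x ∈ T}, nen (Y d v) A * nen (Y e w) A := by
    rw [Finset.sum_congr rfl fun A _ => Finset.sum_mul_sum R R _ _, Finset.sum_comm]
    refine Finset.sum_congr rfl fun d _ => ?_
    rw [Finset.sum_comm]
  rw [e1, Finset.mul_sum]
  refine Finset.sum_le_sum fun d _ => ?_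
  rw [Finset.mul_sum]
  refine Finset.sum_le_sum fun e _ => ?_
  exact (h_MOM V T l (Y d v) (Y e w) hT (hY d v) (hY e w)).2

theorem third (h_MOM : T_MOM) (hT : T.Nonempty) (Y : V → V → Finset V)
    (hY : ∀ d v, Y d v ⊆ T) (L : Finset V) (v w : V) :
    ∑ A : Fin l → {x // x ∈ T}, ∑ d ∈ L, nen (Y d v) A * nen (Y d w) A ≤
      (T.card : ℝ) ^ l * M0 ((l : ℝ) / (T.card : ℝ)) Y L v w := by
  unfold M0
  rw [Finset.sum_comm, Finset.mul_sum]
  refine Finset.sum_le_sum fun d _ => ?_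
  exact (h_MOM V T l (Y d v) (Y d w) hT (hY d v) (hY d w)).2

theorem swap (Y : V → V → Finset V) (L R VV : Finset V)
    (u : (Fin l → {x // x ∈ T}) × (Fin l → {x // x ∈ T})) :
    (∑ d ∈ L, ∑ v ∈ VV, nen (Y d v) u.1 * ∑ e ∈ R, nen (Y e v) u.2) =
      ∑ v ∈ VV, Hh Y L v u.1 * Hh Y R v u.2 := by
  rw [Finset.sum_comm]
  refine Finset.sum_congr rfl fun v _ => ?_
  unfold Hh
  rw [← Finset.sum_mul]

end KIB_

open KIB_ in
theorem p_KIB (h_MOM : T_MOM) : T_KIB := by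
  intro V T L R VV Y l hT hY
  have hP : (0 : ℝ) ≤ (l : ℝ) / (T.card : ℝ) := by positivity
  have hN : (0 : ℝ) ≤ (T.card : ℝ) ^ l := by positivity
  refine ⟨?_, ?_, ?_⟩
  · rw [Finset.sum_congr rfl fun u _ => swap Y L R VV u, Finset.sum_comm]
    unfold k1
    rw [Finset.mul_sum, Finset.mul_sum]
    refine Finset.sum_congr rfl fun v _ => ?_
    rw [prod_sum (fun a => Hh Y L v a) (fun b => Hh Y R v b), first h_MOM hT Y hY L v,
      first h_MOM hT Y hY R v]
    ring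
  · have e1 : ∀ u : (Fin l → {x // x ∈ T}) × (Fin l → {x // x ∈ T}),
        (∑ d ∈ L, ∑ v ∈ VV, nen (Y d v) u.1 * ∑ e ∈ R, nen (Y e v) u.2) ^ 2 =
        ∑ v ∈ VV, ∑ w ∈ VV, (Hh Y L v u.1 * Hh Y L w u.1) * (Hh Y R v u.2 * Hh Y R w u.2) := by
      intro u
      rw [swap Y L R VV u, sq, Finset.sum_mul_sum]
      refine Finset.sum_congr rfl fun v _ => Finset.sum_congr rfl fun w _ => ?_
      ring
    rw [Finset.sum_congr rfl fun u _ => e1 u, Finset.sum_comm]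
    unfold k2
    rw [Finset.mul_sum]
    refine Finset.sum_le_sum fun v _ => ?_
    rw [Finset.sum_comm, Finset.mul_sum]
    refine Finset.sum_le_sum fun w _ => ?_
    rw [prod_sum (fun a => Hh Y L v a * Hh Y L w a) (fun b => Hh Y R v b * Hh Y R w b)]
    have h1 := second (l := l) h_MOM hT Y hY L v w
    have h2 := second (l := l) h_MOM hT Y hY R v w
    have h3 : 0 ≤ ∑ b : Fin l → {x // x ∈ T}, Hh Y R v b * Hh Y R w b :=
      Finset.sum_nonneg fun b _ => mul_nonneg (Hh_nonneg _ _ _ _) (Hh_nonneg _ _ _ _)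
    have h4 : 0 ≤ (T.card : ℝ) ^ l * MM ((l : ℝ) / (T.card : ℝ)) Y L v w :=
      mul_nonneg hN (MM_nonneg _ hP _ _ _ _)
    refine (mul_le_mul h1 h2 h3 h4).trans (le_of_eq ?_)
    ring
  · have e1 : ∀ u : (Fin l → {x // x ∈ T}) × (Fin l → {x // x ∈ T}),
        (∑ d ∈ L, (∑ v ∈ VV, nen (Y d v) u.1 * ∑ e ∈ R, nen (Y e v) u.2) ^ 2) =
        ∑ v ∈ VV, ∑ w ∈ VV, (∑ d ∈ L, nen (Y d v) u.1 * nen (Y d w) u.1) *
          (Hh Y R v u.2 * Hh Y R w u.2) := by
      intro u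
      have e2 : ∀ d ∈ L, (∑ v ∈ VV, nen (Y d v) u.1 * ∑ e ∈ R, nen (Y e v) u.2) ^ 2 =
          ∑ v ∈ VV, ∑ w ∈ VV, (nen (Y d v) u.1 * nen (Y d w) u.1) *
            (Hh Y R v u.2 * Hh Y R w u.2) := by
        intro d _
        rw [sq, Finset.sum_mul_sum]
        refine Finset.sum_congr rfl fun v _ => Finset.sum_congr rfl fun w _ => ?_
        unfold Hh
        ring
      rw [Finset.sum_congr rfl e2, Finset.sum_comm]
      refine Finset.sum_congr rfl fun v _ => ?_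
      rw [Finset.sum_comm]
      refine Finset.sum_congr rfl fun w _ => ?_
      rw [← Finset.sum_mul]
    rw [Finset.sum_congr rfl fun u _ => e1 u, Finset.sum_comm]
    unfold k3
    rw [Finset.mul_sum]
    refine Finset.sum_le_sum fun v _ => ?_
    rw [Finset.sum_comm, Finset.mul_sum]
    refine Finset.sum_le_sum fun w _ => ?_
    rw [prod_sum (fun a => ∑ d ∈ L, nen (Y d v) a * nen (Y d w) a)
      (fun b => Hh Y R v b * Hh Y R w b)]
    have h1 := third (l := l) h_MOM hT Y hY L v w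
    have h2 := second (l := l) h_MOM hT Y hY R v w
    have h3 : 0 ≤ ∑ b : Fin l → {x // x ∈ T}, Hh Y R v b * Hh Y R w b :=
      Finset.sum_nonneg fun b _ => mul_nonneg (Hh_nonneg _ _ _ _) (Hh_nonneg _ _ _ _)
    have h4 : 0 ≤ (T.card : ℝ) ^ l * M0 ((l : ℝ) / (T.card : ℝ)) Y L v w :=
      mul_nonneg hN (M0_nonneg _ hP _ _ _ _)
    refine (mul_le_mul h1 h2 h3 h4).trans (le_of_eq ?_)
    ring

end Pool.Agent.XPS
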