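import Pool.Agent.XPS.Targets

set_option autoImplicit false

/-!
# MP_9f5962_lc, project XPS: KIK, the Kikuchi bound
-/

open scoped Classical

noncomputable section

namespace Pool.Agent.XPS

open Pool.Agent.LRC

namespace KIK_

variable {V : Type}

/-- The vertices of the Kikuchi graph. -/
abbrev St (T : Finset V) (l : ℕ) : Type := (Fin l → {x // x ∈ T}) × (Fin l → {x // x ∈ T})

theorem card_St (T : Finset V) (l : ℕ) :
    (Fintype.card (St T l) : ℝ) = (T.card : ℝ) ^ (2 * l) := by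
  rw [Fintype.card_prod, Fintype.card_fun, Fintype.card_coe, Fintype.card_fin]
  push_cast
  rw [two_mul, pow_add]

end KIK_

open KIK_ in
/-- KIK: the Kikuchi graph. -/
theorem p_KIK (h_PRU : T_PRU) (h_KIA : T_KIA) (h_KIB : T_KIB) : T_KIK := by
  intro V _ _ T L R VV Y l r j hT hY hcl hind hr
  obtain ⟨hb1, hb2, hb3⟩ := h_KIB V T L R VV Y l hT hY
  have hA := h_KIA V T R VV Y l hY hcl
  have : Nonempty {x // x ∈ T} := ⟨⟨hT.choose, hT.choose_spec⟩⟩
  have hc := card_St T l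
  have hpos : 0 < (T.card : ℝ) ^ (2 * l) := by
    have h1 : 0 < T.card := hT.card_pos
    positivity
  have hrow : ∀ (d : V) (u : St T l), ∑ w : St T l, ka Y VV R d u w =
      ∑ v ∈ VV, nen (Y d v) u.1 * ∑ e ∈ R, nen (Y e v) u.2 := fun d u => (hA d u u).2.2.2
  set C : ℝ := (T.card : ℝ) ^ (2 * l) with hC
  set S2 : ℝ := ∑ u : St T l, (∑ d ∈ L, ∑ w : St T l, ka Y VV R d u w) ^ 2 with hS2
  set S3 : ℝ := ∑ u : St T l, ∑ d ∈ L, (∑ w : St T l, ka Y VV R d u w) ^ 2 with hS3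
  have e1 : k1 ((l : ℝ) / (T.card : ℝ)) Y VV L R * (Fintype.card (St T l) : ℝ) =
      ∑ u : St T l, ∑ d ∈ L, ∑ w : St T l, ka Y VV R d u w := by
    rw [hc, mul_comm, ← hb1]
    exact Finset.sum_congr rfl fun u _ => Finset.sum_congr rfl fun d _ => (hrow d u).symm
  have e2 : S2 ≤ C * k2 ((l : ℝ) / (T.card : ℝ)) Y VV L R := by
    refine le_trans (le_of_eq ?_) hb2
    rw [hS2]
    refine Finset.sum_congr rfl fun u _ => ?_
    rw [Finset.sum_congr rfl fun d _ => hrow d u]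
  have e3 : S3 ≤ C * k3 ((l : ℝ) / (T.card : ℝ)) Y VV L R := by
    refine le_trans (le_of_eq ?_) hb3
    rw [hS3]
    refine Finset.sum_congr rfl fun u _ => Finset.sum_congr rfl fun d _ => ?_
    rw [hrow d u]
  have n2 : 0 ≤ S2 := Finset.sum_nonneg fun u _ => sq_nonneg _
  have n3 : 0 ≤ S3 := Finset.sum_nonneg fun u _ => Finset.sum_nonneg fun d _ => sq_nonneg _
  have key := h_PRU (St T l) V L (Submodule.span (ZMod 2) (R : Set V))
    (fun u => ∑ i, (u.1 i : V) + ∑ i, (u.2 i : V)) (fun d u w => ka Y VV R d u w)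
    (k1 ((l : ℝ) / (T.card : ℝ)) Y VV L R) (S2 / C) (S3 / C) r j
    (fun d u w => (hA d u w).1) (fun d u w => (hA d u w).2.1)
    (fun d _ u w h => (hA d u w).2.2.1 h) hind e1
    (by rw [hc]; exact div_mul_cancel₀ _ hpos.ne')
    (by rw [hc]; exact div_mul_cancel₀ _ hpos.ne') hr
  rw [hc] at key
  refine le_trans key ?_
  have d2 : S2 / C ≤ k2 ((l : ℝ) / (T.card : ℝ)) Y VV L R := by
    rw [div_le_iff₀ hpos, mul_comm]
    exact e2
  have d3 : S3 / C ≤ k3 ((l : ℝ) / (T.card : ℝ)) Y VV L R := by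
    rw [div_le_iff₀ hpos, mul_comm]
    exact e3
  have q2 : 0 ≤ S2 / C := div_nonneg n2 hpos.le
  have q3 : 0 ≤ S3 / C := div_nonneg n3 hpos.le
  have hr0 : (0 : ℝ) ≤ 2048 * (r : ℝ) := by positivity
  refine mul_le_mul_of_nonneg_left ?_ hpos.le
  refine pow_le_pow_left₀ (mul_nonneg (mul_nonneg hr0 q2) q3) ?_ r
  exact mul_le_mul (mul_le_mul_of_nonneg_left d2 hr0) d3 q3
    (mul_nonneg hr0 (le_trans q2 d2))

end Pool.Agent.XPS
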