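import Pool.Agent.XPS.Targets
import Pool.Agent.LRC.PLAN

set_option autoImplicit false

/-!
# MP_9f5962_lc, XPS: the kill number of every Boolean function (KIL)
-/

open scoped Classical

noncomputable section

namespace Pool.Agent.XPS

open Pool.Agent.LRC

namespace KIL_

section

variable {E : Type} [AddCommGroup E] [Module (ZMod 2) E] [Finite E]

theorem sg_zero : sg 0 = 1 := by simp [sg]

theorem sg_add (a b : ZMod 2) : sg (a + b) = sg a * sg b := by
  have h : ∀ a : ZMod 2, a = 0 ∨ a = 1 := by decide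
  have h11 : (1 : ZMod 2) + 1 = 0 := by decide
  rcases h a with rfl | rfl <;> rcases h b with rfl | rfl <;> simp [sg, h11]

theorem char2 {V : Type} [AddCommGroup V] [Module (ZMod 2) V] (v : V) : v + v = 0 := by
  have h : (2 : ZMod 2) = 0 := by decide
  have h1 : (2 : ZMod 2) • v = v + v := two_smul _ v
  rw [← h1, h, zero_smul]

theorem finDual : Finite (Module.Dual (ZMod 2) E) :=
  Finite.of_injective (fun l : Module.Dual (ZMod 2) E => (l : E → ZMod 2))
    DFunLike.coe_injective

/-- Fourier inversion. -/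
theorem inv (F : E → ℝ) (x : E) :
    F x = ∑ᶠ l : Module.Dual (ZMod 2) E, fco F l * sg (l x) := by
  have := Fintype.ofFinite E
  have hE : (0 : ℝ) < (Nat.card E : ℝ) := by exact_mod_cast Nat.card_pos
  set G : E → ℝ := fun y => if y = x then (Nat.card E : ℝ) else 0 with hG
  have h := Pool.Agent.LRC.p_PLAN E F G
  have h1 : (∑ᶠ y : E, F y * G y) / (Nat.card E : ℝ) = F x := by
    rw [finsum_eq_sum_of_fintype]
    have : ∀ y, F y * G y = if y = x then F x * (Nat.card E : ℝ) else 0 := by
      intro y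
      simp only [hG]
      split_ifs with h
      · rw [h]
      · rw [mul_zero]
    rw [Finset.sum_congr rfl fun y _ => this y, Finset.sum_ite_eq', if_pos (Finset.mem_univ _),
      mul_div_assoc, div_self hE.ne', mul_one]
  have h2 : ∀ l : Module.Dual (ZMod 2) E, fco G l = sg (l x) := by
    intro l
    unfold fco
    rw [finsum_eq_sum_of_fintype]
    have : ∀ y, G y * sg (l y) = if y = x then (Nat.card E : ℝ) * sg (l x) else 0 := by
      intro y
      simp only [hG]
      split_ifs with h
      · rw [h]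
      · rw [zero_mul]
    rw [Finset.sum_congr rfl fun y _ => this y, Finset.sum_ite_eq', if_pos (Finset.mem_univ _),
      mul_comm, mul_div_assoc, div_self hE.ne', mul_one]
  rw [← h1, h]
  exact finsum_congr fun l => by rw [h2]

theorem sum_sg (l : Module.Dual (ZMod 2) E) (hl : l ≠ 0) : ∑ᶠ y : E, sg (l y) = 0 := by
  have := Fintype.ofFinite E
  have h0 : ∃ z, l z ≠ 0 := by
    by_contra hc
    push Not at hc
    exact hl (LinearMap.ext hc)
  obtain ⟨z, hz⟩ := h0
  have hs : sg (l z) = -1 := by unfold sg; rw [if_neg hz]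
  rw [finsum_eq_sum_of_fintype]
  have h1 : ∑ y : E, sg (l (y + z)) = ∑ y : E, sg (l y) :=
    Equiv.sum_comp (Equiv.addRight z) (fun y : E => sg (l y))
  have h2 : ∑ y : E, sg (l (y + z)) = -∑ y : E, sg (l y) := by
    rw [← Finset.sum_neg_distrib]
    refine Finset.sum_congr rfl fun y _ => ?_
    rw [map_add, sg_add, hs]
    ring
  linarith

theorem supp (f : E → Bool) (l : Module.Dual (ZMod 2) E) (hl : l ≠ 0)
    (h : fco (fun x => 1 - 2 * ind f x) l ≠ 0) : fco (ind f) l ≠ 0 := by
  have := Fintype.ofFinite E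
  intro h0
  apply h
  have h1 := sum_sg l hl
  unfold fco at h0 ⊢
  rw [finsum_eq_sum_of_fintype] at h0 h1 ⊢
  have hE : (Nat.card E : ℝ) ≠ 0 := by
    have : (0 : ℝ) < (Nat.card E : ℝ) := by exact_mod_cast Nat.card_pos
    exact this.ne'
  rw [div_eq_zero_iff] at h0
  have h2 : ∑ y : E, ind f y * sg (l y) = 0 := h0.resolve_right hE
  have h3 : ∑ y : E, (1 - 2 * ind f y) * sg (l y) =
      ∑ y : E, sg (l y) - 2 * ∑ y : E, ind f y * sg (l y) := by
    rw [Finset.mul_sum, ← Finset.sum_sub_distrib]
    exact Finset.sum_congr rfl fun y _ => by ring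
  rw [h3, h1, h2]
  simp

theorem coset {V : Type} [AddCommGroup V] [Module (ZMod 2) V] [Fintype V] (s : V → ℝ)
    (W : Submodule (ZMod 2) V) (l : Module.Dual (ZMod 2) V) (h0 : ∀ v, v ∉ W → cs s W l v = 0)
    (g : V → ℝ) (hg : ∀ v w, v + w ∈ W → g w = g v) (hg1 : ∀ w ∈ W, g w = 1) :
    ∑ v, s v * sg (l v) * g v = ∑ v, s v * sg (l v) := by
  set N : ℝ := ∑ x : V, if x ∈ W then (1 : ℝ) else 0 with hN
  have hNpos : 0 < N := by
    refine Finset.sum_pos' (fun x _ => by split_ifs <;> norm_num) ⟨0, Finset.mem_univ _, ?_⟩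
    rw [if_pos W.zero_mem]
    norm_num
  have hsh : ∀ v : V, ∑ x : V, (if v + x ∈ W then (1 : ℝ) else 0) = N := fun v =>
    Equiv.sum_comp (Equiv.addLeft v) (fun x => if x ∈ W then (1 : ℝ) else 0)
  have key : ∀ g : V → ℝ, (∀ v w, v + w ∈ W → g w = g v) →
      ∑ x, g x * cs s W l x = (∑ v, s v * sg (l v) * g v) * N := by
    intro g hg
    unfold cs
    simp only [Finset.mul_sum]
    rw [Finset.sum_comm, Finset.sum_mul]
    refine Finset.sum_congr rfl fun v _ => ?_
    rw [← hsh v, Finset.mul_sum]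
    refine Finset.sum_congr rfl fun x _ => ?_
    split_ifs with h
    · rw [hg v x h]
      ring
    · ring
  have h1 := key g hg
  have h2 := key (fun _ => 1) (fun _ _ _ => rfl)
  have h3 : ∑ x, g x * cs s W l x = ∑ x, 1 * cs s W l x := by
    refine Finset.sum_congr rfl fun x _ => ?_
    by_cases hx : x ∈ W
    · rw [hg1 x hx]
    · rw [h0 x hx, mul_zero, mul_zero]
  have h4 : (∑ v, s v * sg (l v) * g v) * N = (∑ v, s v * sg (l v) * 1) * N := by
    rw [← h1, ← h2, h3]
  have h5 := mul_right_cancel₀ hNpos.ne' h4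
  rw [h5]
  simp

end

end KIL_

open KIL_ in
theorem p_KIL : T_ALG → T_KIL := by
  rintro ⟨C, hC, hA⟩
  refine ⟨C, hC, ?_⟩
  intro E _ _ _ f
  have := Fintype.ofFinite E
  have := finDual (E := E)
  have := Fintype.ofFinite (Module.Dual (ZMod 2) E)
  set F : E → ℝ := fun x => 1 - 2 * ind f x with hF
  set s : Module.Dual (ZMod 2) E → ℝ := fun l => fco F l with hs
  have hev : ∀ m : Module.Dual (ZMod 2) (Module.Dual (ZMod 2) E), ∃ x : E, ∀ l, m l = l x := by
    intro m
    refine ⟨(Module.evalEquiv (ZMod 2) E).symm m, fun l => ?_⟩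
    conv_lhs => rw [← (Module.evalEquiv (ZMod 2) E).apply_symm_apply m]
    rfl
  have hft : ∀ x : E, ∑ l : Module.Dual (ZMod 2) E, s l * sg (l x) = F x := by
    intro x
    rw [inv F x, finsum_eq_sum_of_fintype]
  have hFv : ∀ x, F x = 1 ∨ F x = -1 := by
    intro x
    simp only [hF, ind]
    split_ifs
    · right; norm_num
    · left; norm_num
  have hBl : Bl s := by
    intro m
    obtain ⟨x, hx⟩ := hev m
    have : ft s m = F x := by
      unfold ft
      rw [← hft x]
      exact Finset.sum_congr rfl fun l _ => by rw [hx l]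
    rw [this]
    exact hFv x
  obtain ⟨W, m, hW, hcs⟩ := hA _ s hBl
  obtain ⟨x₀, hx₀⟩ := hev m
  refine ⟨x₀, W.dualCoannihilator, ?_, ?_⟩
  · -- dimension
    have h1 := Subspace.finrank_add_finrank_dualCoannihilator_eq W
    have h2 : (Module.finrank (ZMod 2) E : ℝ) = (Module.finrank (ZMod 2) W : ℝ) +
        (Module.finrank (ZMod 2) W.dualCoannihilator : ℝ) := by exact_mod_cast h1.symm
    have hcard : (Sp s).card ≤ spa (ind f) + 1 := by
      have hsub : Sp s ⊆ insert 0 (Finset.univ.filter fun l : Module.Dual (ZMod 2) E =>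
          fco (ind f) l ≠ 0) := by
        intro l hl
        unfold Sp at hl
        rw [Finset.mem_filter] at hl
        rw [Finset.mem_insert, Finset.mem_filter]
        by_cases h0 : l = 0
        · exact Or.inl h0
        · exact Or.inr ⟨Finset.mem_univ _, supp f l h0 hl.2⟩
      refine (Finset.card_le_card hsub).trans ((Finset.card_insert_le _ _).trans ?_)
      have : spa (ind f) = (Finset.univ.filter fun l : Module.Dual (ZMod 2) E =>
          fco (ind f) l ≠ 0).card := by
        unfold spa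
        rw [Nat.card_eq_fintype_card, Fintype.card_subtype]
      rw [this]
    have h3 : ((Sp s).card : ℝ) ^ ((1 / 2 : ℝ) - 1 / 26000) ≤
        (spa (ind f) : ℝ) ^ ((1 / 2 : ℝ) - 1 / 26000) + 1 := by
      have ha : (0 : ℝ) ≤ (1 / 2 : ℝ) - 1 / 26000 := by norm_num
      have ha1 : (1 / 2 : ℝ) - 1 / 26000 ≤ 1 := by norm_num
      calc ((Sp s).card : ℝ) ^ ((1 / 2 : ℝ) - 1 / 26000)
          ≤ ((spa (ind f) : ℝ) + 1) ^ ((1 / 2 : ℝ) - 1 / 26000) :=
            Real.rpow_le_rpow (Nat.cast_nonneg _) (by exact_mod_cast hcard) ha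
        _ ≤ (spa (ind f) : ℝ) ^ ((1 / 2 : ℝ) - 1 / 26000) + 1 ^ ((1 / 2 : ℝ) - 1 / 26000) :=
            Real.rpow_add_le_add_rpow (Nat.cast_nonneg _) zero_le_one ha ha1
        _ = _ := by rw [Real.one_rpow]
    have h4 := mul_le_mul_of_nonneg_left h3 hC.le
    rw [h2]
    linarith
  · -- constancy
    intro y hy
    have hy' : ∀ w ∈ W, w y = 0 := by
      intro w hw
      exact (Submodule.mem_dualCoannihilator y).1 hy w hw
    have h1 : F (x₀ + y) = F x₀ := by
      rw [← hft (x₀ + y), ← hft x₀]
      have h2 := coset s W m hcs (fun v => sg (v y)) ?_ ?_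
      · have e1 : ∀ v : Module.Dual (ZMod 2) E, s v * sg (v (x₀ + y)) =
            s v * sg (m v) * sg (v y) := by
          intro v
          rw [map_add, sg_add, hx₀ v]
          ring
        have e2 : ∀ v : Module.Dual (ZMod 2) E, s v * sg (v x₀) = s v * sg (m v) := by
          intro v
          rw [hx₀ v]
        rw [Finset.sum_congr rfl fun v _ => e1 v, Finset.sum_congr rfl fun v _ => e2 v]
        exact h2
      · intro v w hvw
        have h3 := hy' _ hvw
        rw [LinearMap.add_apply] at h3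
        have h4 : sg (v y + w y) = 1 := by rw [h3, sg_zero]
        rw [sg_add] at h4
        have h5 : sg (v y) = 1 ∨ sg (v y) = -1 := by unfold sg; split_ifs <;> simp
        rcases h5 with h5 | h5 <;> rw [h5] at h4 ⊢ <;> linarith
      · intro w hw
        rw [hy' w hw, sg_zero]
    simp only [hF, ind] at h1
    by_cases ha : f (x₀ + y) = true
    · by_cases hb : f x₀ = true
      · rw [ha, hb]
      · rw [if_pos ha, if_neg hb] at h1
        norm_num at h1
    · by_cases hb : f x₀ = true
      · rw [if_neg ha, if_pos hb] at h1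
        norm_num at h1
      · rw [Bool.not_eq_true] at ha hb
        rw [ha, hb]

end Pool.Agent.XPS
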