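import Pool.Agent.XPS.Targets

set_option autoImplicit false

/-!
# XPS: interpolation weights which extract the linear coefficient (T_LAG)
-/

namespace Pool.Agent.XPS

open Matrix

theorem p_LAG : T_LAG := by
  intro D
  have hD : (0 : ℝ) < (D : ℝ) + 1 := by positivity
  set ρ : Fin (D + 1) → ℝ := fun j => (j : ℕ) / ((D : ℝ) + 1) with hρ
  have hinj : Function.Injective ρ := by
    intro i j h
    simp only [hρ] at h
    rw [div_left_inj' hD.ne'] at h
    exact Fin.ext (by exact_mod_cast h)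
  have hdet : IsUnit (vandermonde ρ).det := isUnit_iff_ne_zero.2 (det_vandermonde_ne_zero_iff.2 hinj)
  set b : Fin (D + 1) → ℝ := fun i => if (i : ℕ) = 1 then 1 else 0 with hb
  refine ⟨b ᵥ* (vandermonde ρ)⁻¹, ρ, fun j => ⟨by positivity, ?_⟩, fun i hi => ?_⟩
  · simp only [hρ]
    rw [div_le_one hD]
    have h1 : (j : ℕ) < D + 1 := j.2
    have h2 : ((j : ℕ) : ℝ) < ((D + 1 : ℕ) : ℝ) := by exact_mod_cast h1
    push_cast at h2
    exact h2.le
  · have h1 : (b ᵥ* (vandermonde ρ)⁻¹) ᵥ* vandermonde ρ = b := by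
      rw [vecMul_vecMul, nonsing_inv_mul _ hdet, vecMul_one]
    have h2 := congrFun h1 ⟨i, by omega⟩
    simp only [vecMul, dotProduct, vandermonde_apply] at h2 ⊢
    rw [h2]

end Pool.Agent.XPS
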