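import Pool.Agent.XPS.Targets

set_option autoImplicit false

/-!
# XPS: target LBL, the block lemma
-/

open scoped Classical

noncomputable section

namespace Pool.Agent.XPS

open Pool.Agent.LRC

namespace LBL_

theorem self_add {V : Type} [AddCommGroup V] [Module (ZMod 2) V] (v : V) : v + v = 0 := by
  rw [← two_smul (ZMod 2) v]
  have : (2 : ZMod 2) = 0 := by decide
  rw [this, zero_smul]

theorem add_eq_zero {V : Type} [AddCommGroup V] [Module (ZMod 2) V] {x y : V}
    (h : x + y = 0) : y = x :=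
  add_left_cancel (h.trans (self_add x).symm)

theorem sub_eq {V : Type} [AddCommGroup V] [Module (ZMod 2) V] (x y : V) : x - y = x + y := by
  rw [sub_eq_iff_eq_add, add_assoc, self_add, add_zero]

theorem sgz : sg 0 = 1 := by simp [sg]

theorem sga (a b : ZMod 2) : sg (a + b) = sg a * sg b := by
  have h : ∀ a : ZMod 2, a = 0 ∨ a = 1 := by decide
  have sgo : sg 1 = -1 := by
    unfold sg
    rw [if_neg (by decide)]
  rcases h a with rfl | rfl <;> rcases h b with rfl | rfl
  · simp [sgz]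
  · simp [sgz]
  · simp [sgz]
  · have : (1 : ZMod 2) + 1 = 0 := by decide
    rw [this, sgz, sgo]
    norm_num

/-- There is a character with a large sum over the nonzero elements of `W`. -/
theorem exists_char (hC : T_CHR) {V : Type} [AddCommGroup V] [Module (ZMod 2) V] [Fintype V]
    (s : V → ℝ) (W : Submodule (ZMod 2) V) :
    ∃ l : Module.Dual (ZMod 2) V,
      ∑ x, (if x ∈ W ∧ x ≠ 0 then s x else 0) ^ 2 ≤ (cs s W l 0 - s 0) ^ 2 := by
  obtain ⟨h0, hex, -, -, hmul, hsum, -, -⟩ := hC V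
  set c : V → ℝ := fun x => if x ∈ W ∧ x ≠ 0 then s x else 0 with hc
  have h1 : ∀ l : Module.Dual (ZMod 2) V, cs s W l 0 - s 0 = ∑ x, c x * sg (l x) := by
    intro l
    unfold cs
    have h2 : s 0 = ∑ v : V, if v = 0 then s 0 else 0 := by
      rw [Finset.sum_ite_eq' Finset.univ (0 : V) (fun _ => s 0)]
      simp
    rw [h2, ← Finset.sum_sub_distrib]
    refine Finset.sum_congr rfl fun v _ => ?_
    rw [add_zero, hc]
    by_cases hv : v = 0
    · subst hv
      simp [sgz, W.zero_mem]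
    · by_cases hw : v ∈ W
      · simp [hv, hw]
      · simp [hv, hw]
  have h2 : (fun l : Module.Dual (ZMod 2) V => (cs s W l 0 - s 0) ^ 2) =
      fun l => ∑ x, ∑ y, (c x * c y) * sg (l (x + y)) := by
    funext l
    rw [h1, sq, Finset.sum_mul_sum]
    refine Finset.sum_congr rfl fun x _ => ?_
    refine Finset.sum_congr rfl fun y _ => ?_
    rw [map_add, sga]
    ring
  have h3 : av (fun l : Module.Dual (ZMod 2) V => (cs s W l 0 - s 0) ^ 2) = ∑ x, c x ^ 2 := by
    rw [h2, hsum]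
    refine Finset.sum_congr rfl fun x _ => ?_
    rw [hsum]
    have h4 : ∀ y, av (fun l : Module.Dual (ZMod 2) V => c x * c y * sg (l (x + y))) =
        if y = x then c x * c y else 0 := by
      intro y
      rw [hmul, h0]
      by_cases hy : y = x
      · subst hy
        rw [if_pos (self_add y), if_pos rfl, mul_one]
      · rw [if_neg (fun h => hy (add_eq_zero h)), if_neg hy, mul_zero]
    rw [Finset.sum_congr rfl fun y _ => h4 y, Finset.sum_ite_eq' Finset.univ x]
    simp [sq]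
  obtain ⟨l, hl⟩ := hex (fun l => (cs s W l 0 - s 0) ^ 2)
  refine ⟨l, ?_⟩
  rw [h3] at hl
  exact hl

theorem le_co {V : Type} [AddCommGroup V] [Module (ZMod 2) V] {q : ℕ}
    (U : Fin q → Submodule (ZMod 2) V) (j : Fin q) : (⨆ i, U i ⊓ co U i) ≤ co U j := by
  refine iSup_le fun i => ?_
  by_cases h : i = j
  · subst h
    exact inf_le_right
  · exact inf_le_left.trans (le_iSup₂ (f := fun (i : Fin q) (_ : i ≠ j) => U i) i h)

theorem indep {V : Type} [AddCommGroup V] [Module (ZMod 2) V] {q : ℕ}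
    (U : Fin q → Submodule (ZMod 2) V) (O : Submodule (ZMod 2) V)
    (hO : O = ⨆ i, U i ⊓ co U i) : iSupIndep (fun j => (U j).map O.mkQ) := by
  intro j
  rw [Submodule.disjoint_def]
  intro x hx hx2
  obtain ⟨u, hu, rfl⟩ := hx
  have h1 : (⨆ (i : Fin q) (_ : i ≠ j), (U i).map O.mkQ) = (co U j).map O.mkQ := by
    unfold co
    rw [Submodule.map_iSup]
    refine iSup_congr fun i => ?_
    rw [Submodule.map_iSup]
  rw [h1] at hx2
  obtain ⟨w, hw, hwu⟩ := hx2
  have h2 : w - u ∈ O := by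
    rw [← Submodule.ker_mkQ O, LinearMap.mem_ker, map_sub, hwu, sub_self]
  have h3 : O ≤ co U j := by
    rw [hO]
    exact le_co U j
  have h4 : u ∈ co U j := by
    have := (co U j).sub_mem hw (h3 h2)
    rwa [sub_sub_cancel] at this
  have h5 : u ∈ O := by
    rw [hO]
    exact Submodule.mem_iSup_of_mem j ⟨hu, h4⟩
  rw [← Submodule.ker_mkQ O, LinearMap.mem_ker] at h5
  exact h5

end LBL_

open LBL_

/-- LBL: the block lemma. -/
theorem p_LBL (hC : T_CHR) (hB : T_BAS) (hQ : T_QUO) (hE : T_EXT) (hP : T_BLP) : T_LBL := by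
  intro D
  obtain ⟨C, hC0, hP⟩ := hP D
  refine ⟨C, hC0, ?_⟩
  intro V _ _ _ s p hs hp hp1 hcard q U Z hZ
  obtain ⟨O, hO⟩ : ∃ O : Submodule (ZMod 2) V, O = ⨆ i, U i ⊓ co U i := ⟨_, rfl⟩
  have hOc : ∀ j, O ≤ co U j := fun j => by
    rw [hO]
    exact le_co U j
  have : Fintype (V ⧸ O) := Fintype.ofFinite _
  obtain ⟨hq1, hq2, hq3, hq4, -⟩ := hQ V s O 0
  have hbl : Bl (qs s O 0) := hq1 hs
  have hbd := (hB (V ⧸ O) (qs s O 0) hbl).2.2.1
  have hcd : ((Sp (qs s O 0)).card : ℝ) * p ^ D ≤ 1 := by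
    refine le_trans ?_ hcard
    refine mul_le_mul_of_nonneg_right ?_ (pow_nonneg hp.le _)
    exact_mod_cast hq2.trans hq3
  have hind := indep U O hO
  -- merging
  have hmerge : ∀ j, ∀ z ∈ Z j, ∀ v ∈ Sp s, z + v ∈ O → v = z := by
    intro j z hz v hv hzv
    by_contra hne
    obtain ⟨h1, h2, h3, h4⟩ := hZ j z hz
    apply h4
    unfold Mg
    rw [Finset.mem_filter]
    exact ⟨h1, v, hv, hne, hOc j hzv⟩
  have hval : ∀ j, ∀ z ∈ Z j, qs s O 0 (O.mkQ z) = s z := by
    intro j z hz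
    rw [hq4]
    unfold cs
    rw [Finset.sum_eq_single z]
    · rw [if_pos (by rw [self_add]; exact O.zero_mem)]
      simp [sgz]
    · intro v _ hv
      by_cases hvO : v + z ∈ O
      · rw [if_pos hvO]
        by_cases hsv : s v = 0
        · rw [hsv, zero_mul]
        · exfalso
          apply hv
          refine hmerge j z hz v ?_ ?_
          · unfold Sp
            rw [Finset.mem_filter]
            exact ⟨Finset.mem_univ _, hsv⟩
          · rw [add_comm]
            exact hvO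
      · rw [if_neg hvO]
    · intro h
      exact absurd (Finset.mem_univ z) h
  have hne : ∀ j, ∀ z ∈ Z j, O.mkQ z ≠ 0 := by
    intro j z hz h0
    obtain ⟨h1, h2, h3, h4⟩ := hZ j z hz
    rw [← LinearMap.mem_ker, Submodule.ker_mkQ] at h0
    exact h3 (hOc j h0)
  have hinj : ∀ j, Set.InjOn (fun z => O.mkQ z) (Z j : Set V) := by
    intro j z hz z' hz' heq
    have h1 : z - z' ∈ O := by
      rw [← Submodule.ker_mkQ O, LinearMap.mem_ker, map_sub]
      exact sub_eq_zero.2 heq
    rw [sub_eq] at h1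
    exact (hmerge j z hz z' (hZ j z' hz').1 h1).symm
  have hψ : ∀ j, ∃ ψ : Module.Dual (ZMod 2) (V ⧸ O),
      Real.sqrt (∑ z ∈ Z j, s z ^ 2) ≤
        |cs (qs s O 0) ((U j).map O.mkQ) ψ 0 - qs s O 0 0| := by
    intro j
    obtain ⟨ψ, hψ⟩ := exists_char hC (qs s O 0) ((U j).map O.mkQ)
    refine ⟨ψ, ?_⟩
    rw [← Real.sqrt_sq_eq_abs]
    refine Real.sqrt_le_sqrt (le_trans ?_ hψ)
    have h1 : ∑ z ∈ Z j, s z ^ 2 = ∑ x ∈ (Z j).image (fun z => O.mkQ z),
        (if x ∈ (U j).map O.mkQ ∧ x ≠ 0 then qs s O 0 x else 0) ^ 2 := by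
      rw [Finset.sum_image (hinj j)]
      refine Finset.sum_congr rfl fun z hz => ?_
      rw [if_pos ⟨Submodule.mem_map_of_mem (hZ j z hz).2.1, hne j z hz⟩, hval j z hz]
    rw [h1]
    exact Finset.sum_le_sum_of_subset_of_nonneg (Finset.subset_univ _)
      (fun x _ _ => sq_nonneg _)
  choose ψ hψ using hψ
  obtain ⟨L, hL⟩ := hE (V ⧸ O) (Fin q) (fun j => (U j).map O.mkQ) ψ hind
  have hfin := hP (V ⧸ O) (qs s O 0) p hbd hp hp1 hcd (Fin q) (fun j => (U j).map O.mkQ) L 0 hind
  refine le_trans (Finset.sum_le_sum fun j _ => ?_) hfin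
  refine (hψ j).trans (le_of_eq ?_)
  rw [map_zero, sgz, mul_one]
  congr 2
  unfold cs
  refine Finset.sum_congr rfl fun v _ => ?_
  by_cases hv : v + 0 ∈ (U j).map O.mkQ
  · rw [if_pos hv, if_pos hv, hL j v (by rwa [add_zero] at hv)]
  · rw [if_neg hv, if_neg hv]

end Pool.Agent.XPS
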