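import Pool.Agent.XPS.Targets

set_option autoImplicit false

/-!
# MP_9f5962_lc: all light blocks (T_LCT)
-/

open scoped Classical

noncomputable section

namespace Pool.Agent.XPS

open Pool.Agent.LRC

namespace LCT_

variable {V : Type} [AddCommGroup V] [Module (ZMod 2) V]

theorem mem_Bk (S : Finset V) (d x y : V) : (x, y) ∈ Bk S d ↔
    (x ∈ S ∧ y ∈ S) ∧ x ≠ y ∧ x ≠ d ∧ y ≠ d ∧ d + x + y ∈ S := by
  simp only [Bk, Finset.mem_filter, Finset.mem_product]

theorem e1 (d x y : V) : d + (d + x + y) + x = y := by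
  have h1 := ZModModule.add_self d
  have h2 := ZModModule.add_self x
  calc d + (d + x + y) + x = (d + d) + (x + x) + y := by abel
    _ = y := by rw [h1, h2]; simp

theorem e2 (d x y : V) : d + x + (d + x + y) = y := by
  have h1 := ZModModule.add_self d
  have h2 := ZModModule.add_self x
  calc d + x + (d + x + y) = (d + d) + (x + x) + y := by abel
    _ = y := by rw [h1, h2]; simp

theorem e3 (d x y : V) : d + y + (d + x + y) = x := by
  have h1 := ZModModule.add_self d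
  have h2 := ZModModule.add_self y
  calc d + y + (d + x + y) = (d + d) + (y + y) + x := by abel
    _ = x := by rw [h1, h2]; simp

theorem e4 (d x y : V) : d + (d + x + y) = x + y := by
  have h1 := ZModModule.add_self d
  calc d + (d + x + y) = (d + d) + (x + y) := by abel
    _ = x + y := by rw [h1]; simp

theorem e5 (d x y : V) : d + x + y + x = d + y := by
  have h1 := ZModModule.add_self x
  calc d + x + y + x = d + y + (x + x) := by abel
    _ = d + y := by rw [h1]; simp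

theorem ne1 {d x y : V} (h : y ≠ d) : d + x + y ≠ x := by
  intro h1
  apply h
  have h2 : d + x + y + x = x + x := by rw [h1]
  rw [e5, ZModModule.add_self] at h2
  have h3 := ZModModule.add_self d
  calc y = (d + y) + d + (0 : V) := by rw [show d + y + d + 0 = (d + d) + y by abel, h3]; simp
    _ = d := by rw [h2]; simp

theorem ne2 {d x y : V} (h : x ≠ d) : d + x + y ≠ y := by
  have h1 : d + x + y = d + y + x := by abel
  rw [h1]
  exact ne1 h

theorem ne3 {d x y : V} (h : x ≠ y) : d + x + y ≠ d := by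
  intro h1
  apply h
  have h2 : d + (d + x + y) = d + d := by rw [h1]
  rw [e4, ZModModule.add_self] at h2
  have h3 := ZModModule.add_self y
  calc x = (x + y) + y := by rw [add_assoc, h3]; simp
    _ = y := by rw [h2]; simp

theorem bk1 {S : Finset V} {d x y : V} (h : (x, y) ∈ Bk S d) : (y, x) ∈ Bk S d := by
  rw [mem_Bk] at h ⊢
  obtain ⟨⟨h1, h2⟩, h3, h4, h5, h6⟩ := h
  exact ⟨⟨h2, h1⟩, h3.symm, h5, h4, by rw [show d + y + x = d + x + y by abel]; exact h6⟩

theorem bk2 {S : Finset V} {d x y : V} (h : (x, y) ∈ Bk S d) : (x, d + x + y) ∈ Bk S d := by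
  rw [mem_Bk] at h ⊢
  obtain ⟨⟨h1, h2⟩, h3, h4, h5, h6⟩ := h
  exact ⟨⟨h1, h6⟩, (ne1 h5).symm, h4, ne3 h3, by rw [e2]; exact h2⟩

theorem bk3 {S : Finset V} {d x y : V} (h : (x, y) ∈ Bk S d) : (y, d + x + y) ∈ Bk S d := by
  have := bk2 (bk1 h)
  rwa [show d + y + x = d + x + y by abel] at this

theorem Bk_mono {S T : Finset V} (h : T ⊆ S) {d x y : V} (hp : (x, y) ∈ Bk T d) :
    (x, y) ∈ Bk S d := by
  rw [mem_Bk] at hp ⊢
  obtain ⟨⟨h1, h2⟩, h3, h4, h5, h6⟩ := hp
  exact ⟨⟨h h1, h h2⟩, h3, h4, h5, h h6⟩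

theorem mem_Lt (T Hu : Finset V) (κ : ℝ) (d x y : V) : (x, y) ∈ Lt T Hu κ d ↔
    (x, y) ∈ Bk T d ∧ y ∉ Hu ∧ d + x + y ∉ Hu ∧ (rr T (d + x) : ℝ) < κ ∧
      (rr T (d + y) : ℝ) < κ ∧ (rr T (x + y) : ℝ) < κ := by
  simp only [Lt, Finset.mem_filter]

theorem inj2 (d : V) : Function.Injective (fun p : V × V => (p.1, d + p.1 + p.2)) := by
  rintro ⟨a, b⟩ ⟨a', b'⟩ h
  simp only [Prod.mk.injEq] at h
  obtain ⟨rfl, h2⟩ := h
  rw [add_right_injective _ h2]

theorem inj3 (d : V) : Function.Injective (fun p : V × V => (p.2, d + p.1 + p.2)) := by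
  rintro ⟨a, b⟩ ⟨a', b'⟩ h
  simp only [Prod.mk.injEq] at h
  obtain ⟨rfl, h2⟩ := h
  rw [add_right_injective _ (add_left_injective _ h2)]

theorem inj4 (d : V) : Function.Injective (fun p : V × V => (d + p.1 + p.2, p.1)) := by
  rintro ⟨a, b⟩ ⟨a', b'⟩ h
  simp only [Prod.mk.injEq] at h
  obtain ⟨h2, rfl⟩ := h
  rw [add_right_injective _ h2]

end LCT_

open LCT_ in
theorem p_LCT : T_LCT := by
  intro V _ _ _ S T Hu κ d hTS
  set F := (Bk T d).filter (fun p => (rr T (d + p.1) : ℝ) < κ ∧ (rr T (d + p.2) : ℝ) < κ ∧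
    (rr T (p.1 + p.2) : ℝ) < κ) with hF
  set H := (Bk S d).filter (fun p => p.1 ∈ Hu ∧ p.2 ∈ Hu) with hH
  have hhp : hp S Hu d = H.card := rfl
  have hsub : F ⊆ ((((((F.filter fun p => (p.1, p.2) ∈ Lt T Hu κ d) ∪
      (F.filter fun p => (p.2, p.1) ∈ Lt T Hu κ d)) ∪
      (F.filter fun p => (d + p.1 + p.2, p.1) ∈ Lt T Hu κ d)) ∪
      (F.filter fun p => (p.1, p.2) ∈ H)) ∪
      (F.filter fun p => (p.1, d + p.1 + p.2) ∈ H)) ∪
      (F.filter fun p => (p.2, d + p.1 + p.2) ∈ H)) := by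
    rintro ⟨x, y⟩ hp
    have hp' := hp
    simp only [hF, Finset.mem_filter] at hp'
    obtain ⟨hb, l1, l2, l3⟩ := hp'
    have m1 : y ∉ Hu → d + x + y ∉ Hu → (x, y) ∈ Lt T Hu κ d := fun a b =>
      (mem_Lt _ _ _ _ _ _).mpr ⟨hb, a, b, l1, l2, l3⟩
    have m2 : x ∉ Hu → d + x + y ∉ Hu → (y, x) ∈ Lt T Hu κ d := fun a b =>
      (mem_Lt _ _ _ _ _ _).mpr ⟨bk1 hb, a, by rwa [show d + y + x = d + x + y by abel],
        l2, l1, by rwa [show y + x = x + y by abel]⟩
    have m3 : x ∉ Hu → y ∉ Hu → (d + x + y, x) ∈ Lt T Hu κ d := fun a b =>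
      (mem_Lt _ _ _ _ _ _).mpr ⟨bk1 (bk2 hb), a, by rwa [e1], by rwa [e4], l1, by rwa [e5]⟩
    have n1 : x ∈ Hu → y ∈ Hu → (x, y) ∈ H := fun a b =>
      Finset.mem_filter.mpr ⟨Bk_mono hTS hb, a, b⟩
    have n2 : x ∈ Hu → d + x + y ∈ Hu → (x, d + x + y) ∈ H := fun a b =>
      Finset.mem_filter.mpr ⟨Bk_mono hTS (bk2 hb), a, b⟩
    have n3 : y ∈ Hu → d + x + y ∈ Hu → (y, d + x + y) ∈ H := fun a b =>
      Finset.mem_filter.mpr ⟨Bk_mono hTS (bk3 hb), a, b⟩
    simp only [Finset.mem_union, Finset.mem_filter, hp, true_and]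
    tauto
  have c1 : ∀ (G : Finset (V × V)) (φ : V × V → V × V), Function.Injective φ →
      (F.filter fun p => φ p ∈ G).card ≤ G.card := fun G φ hφ =>
    Finset.card_le_card_of_injOn φ (fun p hp => (Finset.mem_filter.mp hp).2) hφ.injOn
  have k1 := c1 (Lt T Hu κ d) (fun p => (p.1, p.2)) Function.injective_id
  have k2 := c1 (Lt T Hu κ d) (fun p => (p.2, p.1)) Prod.swap_injective
  have k3 := c1 (Lt T Hu κ d) (fun p => (d + p.1 + p.2, p.1)) (inj4 d)
  have k4 := c1 H (fun p => (p.1, p.2)) Function.injective_id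
  have k5 := c1 H (fun p => (p.1, d + p.1 + p.2)) (inj2 d)
  have k6 := c1 H (fun p => (p.2, d + p.1 + p.2)) (inj3 d)
  have u := Finset.card_le_card hsub
  refine u.trans ?_
  refine (Finset.card_union_le _ _).trans ?_
  refine (add_le_add_left (Finset.card_union_le _ _) _).trans ?_
  refine (add_le_add_left (add_le_add_left (Finset.card_union_le _ _) _) _).trans ?_
  refine (add_le_add_left (add_le_add_left (add_le_add_left
    (Finset.card_union_le _ _) _) _) _).trans ?_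
  refine (add_le_add_left (add_le_add_left (add_le_add_left (add_le_add_left
    (Finset.card_union_le _ _) _) _) _) _).trans ?_
  rw [hhp]
  omega

end Pool.Agent.XPS
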