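import Pool.Agent.XPS.Targets

set_option autoImplicit false

/-!
# Project XPS: the properties of the light blocks
-/

open scoped Classical

noncomputable section

namespace Pool.Agent.XPS

open Pool.Agent.LRC

namespace LFA_

variable {V : Type} [AddCommGroup V] [Module (ZMod 2) V]

private theorem aa (x : V) : x + x = 0 := ZModModule.add_self x

private theorem e1 (d v y : V) : d + v + (d + v + y) = y := by
  linear_combination (norm := abel) aa d + aa v

private theorem e2 (d v y : V) : d + (d + v + y) = v + y := by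
  linear_combination (norm := abel) aa d

private theorem e3 (d v y : V) : v + (d + v + y) = d + y := by
  linear_combination (norm := abel) aa v

private theorem e4 (d v y : V) (h : v = d + v + y) : y = d := by
  linear_combination (norm := abel) h + aa y

private theorem e5 (d v y : V) (h : d + v + y = d) : v = y := by
  linear_combination (norm := abel) h - aa y

private theorem e6 (d v y : V) : d + v + y + (v + y) = d := by
  linear_combination (norm := abel) aa v + aa y

private theorem e7 (d v y w : V) : d + v + y + (v + w) = d + w + y := by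
  linear_combination (norm := abel) aa v

private theorem e8 (d v y : V) : y + (v + (d + v + y)) = d := by
  linear_combination (norm := abel) aa v + aa y

private theorem memLy [Fintype V] {T Hu : Finset V} {κ : ℝ} {d v y : V} :
    y ∈ Ly T Hu κ d v ↔ ((v ∈ T ∧ y ∈ T) ∧ v ≠ y ∧ v ≠ d ∧ y ≠ d ∧ d + v + y ∈ T) ∧ y ∉ Hu ∧
      d + v + y ∉ Hu ∧ (rr T (d + v) : ℝ) < κ ∧ (rr T (d + y) : ℝ) < κ ∧
      (rr T (v + y) : ℝ) < κ := by
  simp [Ly, Lt, Bk]

private theorem le_of_ne {A : Finset V} {κ : ℝ} (hk : 0 ≤ κ)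
    (h : A.Nonempty → (A.card : ℝ) ≤ κ) : (A.card : ℝ) ≤ κ := by
  rcases A.eq_empty_or_nonempty with h0 | h0
  · simpa [h0] using hk
  · exact h h0

end LFA_

open LFA_ in
/-- LFA: the properties of the light blocks. -/
theorem p_LFA : T_LFA := by
  intro V _ _ _ S T Hu Dd VV κ hTS hDT hk
  refine ⟨?_, ?_, ?_, ?_, ?_, ?_, ?_, ?_, ?_, ?_⟩
  · intro d v y hy
    exact (memLy.mp hy).1.1.2
  · intro d v y hy
    obtain ⟨⟨⟨a1, a2⟩, a3, a4, a5, a6⟩, a7, a8, a9, a10, a11⟩ := memLy.mp hy
    refine memLy.mpr ⟨⟨⟨a1, a6⟩, ?_, a4, ?_, ?_⟩, a8, ?_, a9, ?_, ?_⟩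
    · intro h
      exact a5 (e4 d v y h)
    · intro h
      exact a3 (e5 d v y h)
    · rw [e1]
      exact a2
    · rw [e1]
      exact a7
    · rw [e2]
      exact a11
    · rw [e3]
      exact a10
  · intro d v _
    refine le_of_ne hk ?_
    rintro ⟨y, hy⟩
    have h1 : ((Ly T Hu κ d v).card : ℝ) ≤ (rr T (d + v) : ℝ) := by
      have h2 : Ly T Hu κ d v ⊆ T.filter (fun x => x + (d + v) ∈ T) := by
        intro x hx
        obtain ⟨⟨⟨a1, a2⟩, a3, a4, a5, a6⟩, _⟩ := memLy.mp hx
        refine Finset.mem_filter.mpr ⟨a2, ?_⟩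
        rw [add_comm]
        exact a6
      exact_mod_cast Finset.card_le_card h2
    obtain ⟨_, _, _, a9, _, _⟩ := memLy.mp hy
    linarith
  · intro v y
    refine le_of_ne hk ?_
    rintro ⟨d, hd⟩
    have h1 : ((Dd.filter (fun d => y ∈ Ly T Hu κ d v)).card : ℝ) ≤ (rr T (v + y) : ℝ) := by
      have h2 : (Dd.filter (fun d => y ∈ Ly T Hu κ d v)).card ≤
          (T.filter (fun x => x + (v + y) ∈ T)).card := by
        refine Finset.card_le_card_of_injOn (fun d => d + v + y) ?_ ?_
        · intro x hx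
          have hx1 := Finset.mem_filter.mp hx
          obtain ⟨⟨⟨a1, a2⟩, a3, a4, a5, a6⟩, _⟩ := memLy.mp hx1.2
          refine Finset.mem_filter.mpr ⟨a6, ?_⟩
          show x + v + y + (v + y) ∈ T
          rw [e6]
          exact hDT hx1.1
        · intro x _ x' _ h
          have h3 : x + v + y = x' + v + y := h
          exact add_right_cancel (add_right_cancel h3)
      exact_mod_cast h2
    obtain ⟨_, _, _, _, _, a11⟩ := memLy.mp (Finset.mem_filter.mp hd).2
    linarith
  · intro d y _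
    refine le_of_ne hk ?_
    rintro ⟨v, hv⟩
    have h1 : ((VV.filter (fun v => y ∈ Ly T Hu κ d v)).card : ℝ) ≤ (rr T (d + y) : ℝ) := by
      have h2 : VV.filter (fun v => y ∈ Ly T Hu κ d v) ⊆
          T.filter (fun x => x + (d + y) ∈ T) := by
        intro x hx
        obtain ⟨⟨⟨a1, a2⟩, a3, a4, a5, a6⟩, _⟩ := memLy.mp (Finset.mem_filter.mp hx).2
        refine Finset.mem_filter.mpr ⟨a1, ?_⟩
        have h3 : x + (d + y) = d + x + y := by abel
        rw [h3]
        exact a6
      exact_mod_cast Finset.card_le_card h2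
    obtain ⟨_, _, _, _, a10, _⟩ := memLy.mp (Finset.mem_filter.mp hv).2
    linarith
  · intro y _
    rw [← Finset.card_sigma]
    refine Finset.card_le_card_of_injOn (fun p : (Σ _ : V, V) => (p.1, p.2)) ?_ ?_
    · intro p hp
      have hp1 := Finset.mem_sigma.mp hp
      have hp2 := Finset.mem_filter.mp hp1.2
      obtain ⟨⟨⟨a1, a2⟩, a3, a4, a5, a6⟩, _⟩ := memLy.mp hp2.2
      have h3 : y + p.1 + p.2 = p.1 + p.2 + y := by abel
      refine Finset.mem_filter.mpr ⟨Finset.mem_product.mpr ⟨hTS (hDT hp1.1), hTS a1⟩,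
        fun h => a4 h.symm, fun h => a5 h.symm, a3, ?_⟩
      show y + p.1 + p.2 ∈ S
      rw [h3]
      exact hTS a6
    · rintro ⟨a, b⟩ _ ⟨a', b'⟩ _ h
      simp only [Prod.mk.injEq] at h
      obtain ⟨rfl, rfl⟩ := h
      rfl
  · intro y hy
    refine Finset.sum_eq_zero fun d _ => ?_
    rw [Finset.card_eq_zero, Finset.filter_eq_empty_iff]
    intro v _ h
    exact (memLy.mp h).2.1 hy
  · intro d
    rw [← Finset.card_sigma]
    refine Finset.card_le_card_of_injOn (fun p : (Σ _ : V, V) => (p.1, p.2)) ?_ ?_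
    · intro p hp
      have hp1 := Finset.mem_sigma.mp hp
      obtain ⟨⟨⟨a1, a2⟩, a3, a4, a5, a6⟩, _⟩ := memLy.mp hp1.2
      exact Finset.mem_filter.mpr ⟨Finset.mem_product.mpr ⟨hTS a1, hTS a2⟩, a3, a4, a5, hTS a6⟩
    · rintro ⟨a, b⟩ _ ⟨a', b'⟩ _ h
      simp only [Prod.mk.injEq] at h
      obtain ⟨rfl, rfl⟩ := h
      rfl
  · intro d
    rw [← Finset.card_sigma]
    refine Finset.card_bij (fun p _ => (p.1, p.2)) ?_ ?_ ?_
    · intro p hp
      have hp1 := Finset.mem_sigma.mp hp
      exact (Finset.mem_filter.mp hp1.2).2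
    · rintro ⟨a, b⟩ _ ⟨a', b'⟩ _ h
      simp only [Prod.mk.injEq] at h
      obtain ⟨rfl, rfl⟩ := h
      rfl
    · rintro ⟨a, b⟩ h
      exact ⟨⟨a, b⟩, Finset.mem_sigma.mpr ⟨Finset.mem_univ _,
        Finset.mem_filter.mpr ⟨Finset.mem_univ _, h⟩⟩, rfl⟩
  · intro v w _
    have h0 : (∑ d ∈ Dd, ((Ly T Hu κ d v ∩ Ly T Hu κ d w).card : ℝ)) =
        ((Dd.sigma (fun d => Ly T Hu κ d v ∩ Ly T Hu κ d w)).card : ℝ) := by
      rw [Finset.card_sigma]
      push_cast
      rfl
    rw [h0]
    set A := T.filter (fun x => x + (v + w) ∈ T) with hA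
    have hmap : ∀ p ∈ Dd.sigma (fun d => Ly T Hu κ d v ∩ Ly T Hu κ d w), p.1 + v + p.2 ∈ A := by
      intro p hp
      have hp1 := Finset.mem_sigma.mp hp
      have hp2 := Finset.mem_inter.mp hp1.2
      obtain ⟨⟨⟨a1, a2⟩, a3, a4, a5, a6⟩, _⟩ := memLy.mp hp2.1
      obtain ⟨⟨⟨b1, b2⟩, b3, b4, b5, b6⟩, _⟩ := memLy.mp hp2.2
      refine Finset.mem_filter.mpr ⟨a6, ?_⟩
      rw [e7]
      exact b6
    rw [Finset.card_eq_sum_card_fiberwise hmap]
    push_cast
    have h1 : ∀ z ∈ A, (((Dd.sigma (fun d => Ly T Hu κ d v ∩ Ly T Hu κ d w)).filter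
        (fun p => p.1 + v + p.2 = z)).card : ℝ) ≤ κ := by
      intro z _
      rcases ((Dd.sigma (fun d => Ly T Hu κ d v ∩ Ly T Hu κ d w)).filter
        (fun p => p.1 + v + p.2 = z)).eq_empty_or_nonempty with h2 | ⟨p, hp⟩
      · rw [h2]
        simpa using hk
      · have hp1 := Finset.mem_filter.mp hp
        have hp2 := Finset.mem_sigma.mp hp1.1
        have hp3 := Finset.mem_inter.mp hp2.2
        obtain ⟨_, _, _, _, a10, _⟩ := memLy.mp hp3.1
        have h3 : v + z = p.1 + p.2 := by
          rw [← hp1.2, e3]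
        have h4 : (((Dd.sigma (fun d => Ly T Hu κ d v ∩ Ly T Hu κ d w)).filter
            (fun p => p.1 + v + p.2 = z)).card : ℝ) ≤ (rr T (v + z) : ℝ) := by
          have h5 : ((Dd.sigma (fun d => Ly T Hu κ d v ∩ Ly T Hu κ d w)).filter
              (fun p => p.1 + v + p.2 = z)).card ≤
              (T.filter (fun x => x + (v + z) ∈ T)).card := by
            refine Finset.card_le_card_of_injOn (fun p => p.2) ?_ ?_
            · intro q hq
              have hq1 := Finset.mem_filter.mp hq
              have hq2 := Finset.mem_sigma.mp hq1.1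
              have hq3 := Finset.mem_inter.mp hq2.2
              obtain ⟨⟨⟨a1, a2⟩, _⟩, _⟩ := memLy.mp hq3.1
              refine Finset.mem_filter.mpr ⟨a2, ?_⟩
              show q.2 + (v + z) ∈ T
              rw [← hq1.2, e8]
              exact hDT hq2.1
            · rintro ⟨a, b⟩ hq ⟨a', b'⟩ hq' h
              have h6 : b = b' := h
              subst h6
              have h7 : a + v + b = z := (Finset.mem_filter.mp hq).2
              have h8 : a' + v + b = z := (Finset.mem_filter.mp hq').2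
              have h9 : a = a' := add_right_cancel (add_right_cancel (h7.trans h8.symm))
              rw [h9]
          exact_mod_cast h5
        rw [h3] at h4
        linarith
    have h2 := Finset.sum_le_sum h1
    rw [Finset.sum_const, nsmul_eq_mul] at h2
    have h3 : (A.card : ℝ) = (rr T (v + w) : ℝ) := rfl
    rw [h3] at h2
    linarith

end Pool.Agent.XPS
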