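import Pool.Agent.XPS.Targets

set_option autoImplicit false

/-!
# MP_9f5962_lc, XPS: a lower bound for the sums over the cosets (LH)
-/

open scoped Classical

noncomputable section

namespace Pool.Agent.XPS

open Pool.Agent.LRC

namespace LH_

theorem sgz : sg 0 = 1 := by simp [sg]

theorem sgo : sg 1 = -1 := by
  unfold sg
  rw [if_neg (by decide)]

theorem z2 (a : ZMod 2) : a = 0 ∨ a = 1 := by
  revert a
  decide

theorem sga (a b : ZMod 2) : sg (a + b) = sg a * sg b := by
  rcases z2 a with rfl | rfl <;> rcases z2 b with rfl | rfl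
  · simp [sgz]
  · simp [sgz]
  · simp [sgz]
  · have : (1 : ZMod 2) + 1 = 0 := by decide
    rw [this, sgz, sgo]
    norm_num

theorem sg_abs (a : ZMod 2) : |sg a| = 1 := by
  rcases z2 a with rfl | rfl
  · simp [sgz]
  · simp [sgo]

variable {V : Type} [AddCommGroup V] [Module (ZMod 2) V]

theorem add_self (x : V) : x + x = 0 := by
  have h : (2 : ZMod 2) • x = 0 := by
    have : (2 : ZMod 2) = 0 := by decide
    rw [this, zero_smul]
  rwa [two_smul] at h

variable [Fintype V]

theorem abs_av (hC : T_CHR) (F : Module.Dual (ZMod 2) V → ℝ) : |av F| ≤ av (fun l => |F l|) := by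
  obtain ⟨-, -, hmono, -, hmul, -, -, -⟩ := hC V
  rw [abs_le]
  constructor
  · have h1 : av (fun l => (-1 : ℝ) * F l) ≤ av (fun l => |F l|) :=
      hmono _ _ fun l => by
        have := neg_abs_le (F l)
        linarith
    rw [hmul] at h1
    linarith
  · exact hmono _ _ fun l => le_abs_self _

/-- The averages over two families of characters may be interchanged. -/
theorem av_comm (hC : T_CHR) {W : Type} [AddCommGroup W] [Module (ZMod 2) W] [Fintype W]
    (F : Module.Dual (ZMod 2) V → Module.Dual (ZMod 2) W → ℝ) :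
    av (fun l => av (fun m => F l m)) = av (fun m => av (fun l => F l m)) := by
  have hfW : Finite (Module.Dual (ZMod 2) W) :=
    Finite.of_injective (fun l : Module.Dual (ZMod 2) W => (l : W → ZMod 2))
      DFunLike.coe_injective
  have : Fintype (Module.Dual (ZMod 2) W) := Fintype.ofFinite _
  obtain ⟨-, -, -, -, hmul, hsum, -, -⟩ := hC V
  have e : ∀ G : Module.Dual (ZMod 2) W → ℝ, av G =
      ∑ m, (1 / (Nat.card (Module.Dual (ZMod 2) W) : ℝ)) * G m := by
    intro G
    unfold av
    rw [finsum_eq_sum_of_fintype, ← Finset.mul_sum]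
    ring
  have h1 : (fun l : Module.Dual (ZMod 2) V => av (fun m => F l m)) =
      fun l => ∑ m, (1 / (Nat.card (Module.Dual (ZMod 2) W) : ℝ)) * F l m := by
    funext l
    exact e _
  rw [h1, hsum, e]
  refine Finset.sum_congr rfl fun m _ => ?_
  rw [hmul]

/-- The sum over a smaller coset is an average. -/
theorem cs_av (hC : T_CHR) (s : V → ℝ) (U W : Submodule (ZMod 2) V) (hUW : U ≤ W)
    [Fintype (V ⧸ U)] (l : Module.Dual (ZMod 2) V) (t : V) :
    cs s U l t = av (fun m : Module.Dual (ZMod 2) (V ⧸ U) =>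
      sg (m (U.mkQ t)) * cs s W (l + m ∘ₗ U.mkQ) t) := by
  obtain ⟨h0, -, -, -, hmul, hsum, -, -⟩ := hC (V ⧸ U)
  have h1 : (fun m : Module.Dual (ZMod 2) (V ⧸ U) =>
      sg (m (U.mkQ t)) * cs s W (l + m ∘ₗ U.mkQ) t) = fun m => ∑ v,
        (if v + t ∈ W then s v * sg (l v) else 0) * sg (m (U.mkQ (v + t))) := by
    funext m
    unfold cs
    rw [Finset.mul_sum]
    refine Finset.sum_congr rfl fun v _ => ?_
    split_ifs with hv
    · rw [LinearMap.add_apply, LinearMap.comp_apply, map_add, map_add, sga, sga]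
      ring
    · rw [mul_zero, zero_mul]
  rw [h1, hsum]
  unfold cs
  refine Finset.sum_congr rfl fun v _ => ?_
  rw [hmul, h0]
  have e : U.mkQ (v + t) = 0 ↔ v + t ∈ U := by
    rw [Submodule.mkQ_apply, Submodule.Quotient.mk_eq_zero]
  by_cases hv : v + t ∈ U
  · rw [if_pos hv, if_pos (hUW hv), if_pos (e.2 hv), mul_one]
  · rw [if_neg hv, if_neg (fun h => hv (e.1 h)), mul_zero]

theorem cs_le (hC : T_CHR) (s : V → ℝ) (U W : Submodule (ZMod 2) V) (hUW : U ≤ W) (t : V) :
    av (fun l : Module.Dual (ZMod 2) V => |cs s U l t|) ≤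
      av (fun l : Module.Dual (ZMod 2) V => |cs s W l t|) := by
  have : Fintype (V ⧸ U) := Fintype.ofFinite _
  obtain ⟨-, -, hmono, -, -, -, hshift, hconst⟩ := hC V
  have h1 : ∀ l : Module.Dual (ZMod 2) V, |cs s U l t| ≤
      av (fun m : Module.Dual (ZMod 2) (V ⧸ U) => |cs s W (l + m ∘ₗ U.mkQ) t|) := by
    intro l
    rw [cs_av hC s U W hUW l t]
    refine (abs_av hC _).trans (le_of_eq ?_)
    congr 1
    funext m
    rw [abs_mul, sg_abs, one_mul]
  refine (hmono _ _ h1).trans ?_
  rw [av_comm hC]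
  have h2 : (fun m : Module.Dual (ZMod 2) (V ⧸ U) =>
      av (fun l : Module.Dual (ZMod 2) V => |cs s W (l + m ∘ₗ U.mkQ) t|)) = fun _ =>
      av (fun l : Module.Dual (ZMod 2) V => |cs s W l t|) := by
    funext m
    exact hshift (fun l => |cs s W l t|) (m ∘ₗ U.mkQ)
  rw [h2]
  obtain ⟨-, -, -, -, -, -, -, hconst'⟩ := hC (V ⧸ U)
  rw [hconst']

/-- The sum over a coset of a line. -/
theorem cs_line (s : V → ℝ) (g : V) (hg : g ≠ 0) (l : Module.Dual (ZMod 2) V) (t : V) :
    cs s (Submodule.span (ZMod 2) {g}) l t = s t * sg (l t) + s (t + g) * sg (l (t + g)) := by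
  unfold cs
  have hm : ∀ v : V, v + t ∈ Submodule.span (ZMod 2) {g} ↔ (v = t ∨ v = t + g) := by
    intro v
    rw [Submodule.mem_span_singleton]
    constructor
    · rintro ⟨a, ha⟩
      rcases z2 a with rfl | rfl
      · left
        rw [zero_smul] at ha
        have h2 := add_self t
        exact add_right_cancel (ha.symm.trans h2.symm)
      · right
        rw [one_smul] at ha
        rw [ha, add_comm v t, ← add_assoc, add_self, zero_add]
    · rintro (rfl | rfl)
      · exact ⟨0, by rw [zero_smul, add_self]⟩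
      · refine ⟨1, ?_⟩
        rw [one_smul, add_comm t g, add_assoc, add_self, add_zero]
  have hne : t ≠ t + g := by
    intro h
    apply hg
    have : t + 0 = t + g := by rw [add_zero]; exact h
    exact (add_left_cancel this).symm
  have h1 : ∀ v : V, (if v + t ∈ Submodule.span (ZMod 2) {g} then s v * sg (l v) else 0) =
      (if v = t then s v * sg (l v) else 0) + if v = t + g then s v * sg (l v) else 0 := by
    intro v
    by_cases h2 : v = t
    · rw [if_pos ((hm v).2 (Or.inl h2)), if_pos h2, if_neg (fun h3 => hne (h2.symm.trans h3)),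
        add_zero]
    · by_cases h3 : v = t + g
      · rw [if_pos ((hm v).2 (Or.inr h3)), if_neg h2, if_pos h3, zero_add]
      · rw [if_neg (fun h => (hm v).1 h |>.elim h2 h3), if_neg h2, if_neg h3, zero_add]
  rw [Finset.sum_congr rfl fun v _ => h1 v, Finset.sum_add_distrib, Finset.sum_ite_eq',
    Finset.sum_ite_eq', if_pos (Finset.mem_univ _), if_pos (Finset.mem_univ _)]

/-- The average of a random sum over a smaller coset. -/
theorem be_le (hC : T_CHR) (hB : T_BER) (s : V → ℝ) (W : Submodule (ZMod 2) V) (t : V)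
    {ι : Type} [Fintype ι] (U : ι → Submodule (ZMod 2) V) (hU : ∀ j, U j ≤ W) (q : ℝ)
    (hq : 0 ≤ q) (hq1 : q ≤ 1) :
    av (fun l : Module.Dual (ZMod 2) V => |be q (Finset.univ : Finset ι)
      (fun J => cs s (⨆ j ∈ J, U j) l t)|) ≤
      av (fun l : Module.Dual (ZMod 2) V => |cs s W l t|) := by
  obtain ⟨-, -, hmono, -, hmul, hsum, -, -⟩ := hC V
  obtain ⟨hone, -, -, -, -, -, -, hbm, -, hbmul, -, -⟩ := hB ι q Finset.univ hq hq1
  have hbw : ∀ Y : Finset ι, 0 ≤ bw q Finset.univ Y := by
    intro Y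
    unfold bw
    exact mul_nonneg (pow_nonneg hq _) (pow_nonneg (by linarith) _)
  have h1 : ∀ l : Module.Dual (ZMod 2) V, |be q (Finset.univ : Finset ι)
      (fun J => cs s (⨆ j ∈ J, U j) l t)| ≤ ∑ Y ∈ (Finset.univ : Finset ι).powerset,
        bw q Finset.univ Y * |cs s (⨆ j ∈ Y, U j) l t| := by
    intro l
    unfold be
    refine (Finset.abs_sum_le_sum_abs _ _).trans (Finset.sum_le_sum fun Y _ => ?_)
    rw [abs_mul, abs_of_nonneg (hbw Y)]
  refine (hmono _ _ h1).trans ?_
  rw [hsum]
  have h2 : ∀ Y ∈ (Finset.univ : Finset ι).powerset,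
      av (fun l : Module.Dual (ZMod 2) V => bw q Finset.univ Y * |cs s (⨆ j ∈ Y, U j) l t|) ≤
        bw q Finset.univ Y * av (fun l : Module.Dual (ZMod 2) V => |cs s W l t|) := by
    intro Y _
    rw [hmul]
    refine mul_le_mul_of_nonneg_left (cs_le hC s _ W ?_ t) (hbw Y)
    exact iSup_le fun j => iSup_le fun _ => hU j
  refine (Finset.sum_le_sum h2).trans (le_of_eq ?_)
  rw [← Finset.sum_mul]
  have h3 : ∑ Y ∈ (Finset.univ : Finset ι).powerset, bw q Finset.univ Y = 1 := by
    rw [← hone]
    unfold be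
    exact Finset.sum_congr rfl fun Y _ => (mul_one _).symm
  rw [h3, one_mul]

end LH_

open LH_ in
theorem p_LH : T_CHR → T_BER → T_XTR → T_KHI → T_LH := by
  intro hC hB hX hK D
  obtain ⟨C, c, ρ, hC0, hρ, hc, hX⟩ := hX (max D 1) (le_max_right _ _)
  refine ⟨3 * C, by linarith, ?_⟩
  intro V _ _ _ s p hs hp hp1 W t σ m hσ hm
  obtain ⟨-, -, hmono, hadd, hmul, hsum, -, hconst⟩ := hC V
  set Y : Finset V := nb s W σ t with hY
  obtain ⟨b, hbY, hbs, hbi⟩ := exists_linearIndependent (ZMod 2) (Y : Set V)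
  have hfb : Fintype b := Fintype.ofFinite _
  have hcard : m ≤ Fintype.card b := by
    have h1 : Module.finrank (ZMod 2) (Submodule.span (ZMod 2) (b : Set V)) = Fintype.card b := by
      have := finrank_span_eq_card hbi
      rw [Subtype.range_coe] at this
      exact this
    rw [← h1, hbs]
    exact hm
  have hmem : ∀ g : b, (g : V) ∈ W ∧ σ ≤ |s (t + g)| := by
    intro g
    have := hbY g.2
    rw [Finset.mem_coe, hY] at this
    unfold nb at this
    rw [Finset.mem_filter] at this
    exact this.2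
  have hg0 : ∀ g : b, (g : V) ≠ 0 := fun g => hbi.ne_zero g
  have hind : iSupIndep (fun g : b => Submodule.span (ZMod 2) {(g : V)}) :=
    hbi.iSupIndep_span_singleton
  have hUW : ∀ g : b, Submodule.span (ZMod 2) {(g : V)} ≤ W := by
    intro g
    rw [Submodule.span_singleton_le_iff_mem]
    exact (hmem g).1
  set A : ℝ := av (fun l : Module.Dual (ZMod 2) V => |cs s W l t|) with hA
  set P : ℝ := ((Sp s).card : ℝ) * p ^ (max D 1) with hP
  have hPD : P ≤ ((Sp s).card : ℝ) * p ^ D := by
    rw [hP]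
    refine mul_le_mul_of_nonneg_left ?_ (Nat.cast_nonneg _)
    exact pow_le_pow_of_le_one hp.le hp1 (le_max_left _ _)
  have hA0 : 0 ≤ A := by
    rw [hA, ← hconst 0]
    exact hmono _ _ fun l => abs_nonneg _
  -- the linear part is bounded for each character
  have hlin : ∀ l : Module.Dual (ZMod 2) V,
      |∑ g : b, s (t + g) * sg (l (t + g))| ≤
        (∑ i, |c i / p| * |be (p * ρ i) (Finset.univ : Finset b)
          (fun J => cs s (⨆ j ∈ J, Submodule.span (ZMod 2) {(j : V)}) l t)|) + C * P := by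
    intro l
    have h1 := hX V s p hs hp hp1 b (fun g : b => Submodule.span (ZMod 2) {(g : V)}) l t hind
    have h2 : ∑ g : b, (cs s (Submodule.span (ZMod 2) {(g : V)}) l t - s t * sg (l t)) =
        ∑ g : b, s (t + g) * sg (l (t + g)) := by
      refine Finset.sum_congr rfl fun g _ => ?_
      rw [cs_line s g (hg0 g) l t]
      ring
    rw [h2] at h1
    have h3 : |∑ i, c i / p * be (p * ρ i) (Finset.univ : Finset b)
        (fun J => cs s (⨆ j ∈ J, Submodule.span (ZMod 2) {(j : V)}) l t)| ≤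
        ∑ i, |c i / p| * |be (p * ρ i) (Finset.univ : Finset b)
          (fun J => cs s (⨆ j ∈ J, Submodule.span (ZMod 2) {(j : V)}) l t)| := by
      refine (Finset.abs_sum_le_sum_abs _ _).trans (Finset.sum_le_sum fun i _ => ?_)
      rw [abs_mul]
    have h4 := abs_sub_abs_le_abs_sub (∑ g : b, s (t + g) * sg (l (t + g)))
      (∑ i, c i / p * be (p * ρ i) (Finset.univ : Finset b)
        (fun J => cs s (⨆ j ∈ J, Submodule.span (ZMod 2) {(j : V)}) l t))
    linarith
  -- the average
  have hav : av (fun l : Module.Dual (ZMod 2) V => |∑ g : b, s (t + g) * sg (l (t + g))|) ≤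
      C / p * A + C * P := by
    refine (hmono _ _ hlin).trans ?_
    rw [hadd, hconst, hsum]
    have h1 : ∀ i ∈ (Finset.univ : Finset (Fin (max D 1 + 1))),
        av (fun l : Module.Dual (ZMod 2) V => |c i / p| * |be (p * ρ i) (Finset.univ : Finset b)
          (fun J => cs s (⨆ j ∈ J, Submodule.span (ZMod 2) {(j : V)}) l t)|) ≤
          |c i| * (A / p) := by
      intro i _
      rw [hmul]
      have h2 := be_le hC hB s W t (fun g : b => Submodule.span (ZMod 2) {(g : V)}) hUW (p * ρ i)
        (mul_nonneg hp.le (hρ i).1) (mul_le_one₀ hp1 (hρ i).1 (hρ i).2)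
      rw [abs_div, abs_of_pos hp]
      calc |c i| / p * _ ≤ |c i| / p * A :=
            mul_le_mul_of_nonneg_left h2 (div_nonneg (abs_nonneg _) hp.le)
        _ = |c i| * (A / p) := by ring
    have h3 := Finset.sum_le_sum h1
    rw [← Finset.sum_mul] at h3
    have h4 : (∑ i, |c i|) * (A / p) ≤ C * (A / p) :=
      mul_le_mul_of_nonneg_right hc (div_nonneg hA0 hp.le)
    have h5 : C * (A / p) = C / p * A := by ring
    linarith
  have hkh := hK V b (fun g : b => (g : V)) t (fun g : b => s (t + g)) hbi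
  have hsq : Real.sqrt m * σ ≤ Real.sqrt (∑ g : b, s (t + g) ^ 2) := by
    have h1 : Real.sqrt m * σ = Real.sqrt (m * σ ^ 2) := by
      rw [Real.sqrt_mul (Nat.cast_nonneg m), Real.sqrt_sq hσ]
    rw [h1]
    refine Real.sqrt_le_sqrt ?_
    have h2 : (Fintype.card b : ℝ) * σ ^ 2 ≤ ∑ g : b, s (t + g) ^ 2 := by
      have h3 : ∑ _g : b, σ ^ 2 ≤ ∑ g : b, s (t + g) ^ 2 := by
        refine Finset.sum_le_sum fun g _ => ?_
        rw [← sq_abs (s (t + g))]
        exact pow_le_pow_left₀ hσ (hmem g).2 2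
      rw [Finset.sum_const, Finset.card_univ, nsmul_eq_mul] at h3
      exact h3
    refine le_trans ?_ h2
    exact mul_le_mul_of_nonneg_right (by exact_mod_cast hcard) (sq_nonneg σ)
  have hfin : 3 * (C / p * A + C * P) ≤ 3 * C * (A / p + ((Sp s).card : ℝ) * p ^ D) := by
    have h1 : C * P ≤ C * (((Sp s).card : ℝ) * p ^ D) := mul_le_mul_of_nonneg_left hPD hC0.le
    have h2 : 3 * C * (A / p + ((Sp s).card : ℝ) * p ^ D) =
        3 * (C / p * A + C * (((Sp s).card : ℝ) * p ^ D)) := by ring
    rw [h2]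
    linarith
  linarith

end Pool.Agent.XPS
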