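import Pool.Agent.XPS.Targets

set_option autoImplicit false

/-!
# MP_9f5962_lc, job LIA: the regular family of light blocks
-/

open scoped Classical

noncomputable section

namespace Pool.Agent.XPS

open Pool.Agent.LRC

namespace LIA_

/-- Powers of two grow faster than powers. -/
theorem pow_lt_two_pow (k : ℕ) : ∃ Q₀ : ℝ, 1 ≤ Q₀ ∧ ∀ Q : ℝ, Q₀ ≤ Q →
    ∃ L : ℕ, 0 < L ∧ 2 * (L : ℝ) ≤ Q ∧ Q ^ k < 2 ^ L := by
  have h := tendsto_pow_const_div_const_pow_of_one_lt k (r := (2 : ℝ)) (by norm_num)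
  have hε : (0 : ℝ) < 1 / 4 ^ k := by positivity
  obtain ⟨N, hN⟩ := Filter.eventually_atTop.1 (h.eventually (gt_mem_nhds hε))
  refine ⟨2 * (N : ℝ) + 4, ?_, ?_⟩
  · have : (0 : ℝ) ≤ N := Nat.cast_nonneg N
    linarith
  intro Q hQ
  have hN0 : (0 : ℝ) ≤ N := Nat.cast_nonneg N
  have hQ0 : 0 ≤ Q / 2 := by linarith
  have h1 : ((⌊Q / 2⌋₊ : ℕ) : ℝ) ≤ Q / 2 := Nat.floor_le hQ0
  have h2 : Q / 2 < ((⌊Q / 2⌋₊ : ℕ) : ℝ) + 1 := Nat.lt_floor_add_one (Q / 2)
  have h3 : N ≤ ⌊Q / 2⌋₊ := Nat.le_floor (by linarith)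
  have h4 : 1 ≤ ⌊Q / 2⌋₊ := Nat.le_floor (by push_cast; linarith)
  refine ⟨⌊Q / 2⌋₊, h4, by linarith, ?_⟩
  have h5 := hN ⌊Q / 2⌋₊ h3
  have h6 : (1 : ℝ) ≤ ((⌊Q / 2⌋₊ : ℕ) : ℝ) := by exact_mod_cast h4
  rw [div_lt_div_iff₀ (by positivity) (by positivity), one_mul] at h5
  calc Q ^ k ≤ (((⌊Q / 2⌋₊ : ℕ) : ℝ) * 4) ^ k := by
        apply pow_le_pow_left₀ (by linarith)
        linarith
    _ = ((⌊Q / 2⌋₊ : ℕ) : ℝ) ^ k * 4 ^ k := mul_pow _ _ _
    _ < 2 ^ ⌊Q / 2⌋₊ := h5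

section

variable {V : Type} [AddCommGroup V] [Module (ZMod 2) V] [Fintype V]

omit [Module (ZMod 2) V] in
theorem Lv_sub {Q : ℝ} {n : ℕ} {s : V → ℝ} (h : 0 < et s) : Lv Q n s ⊆ Sp s := by
  intro x hx
  simp only [Lv, Sp, Finset.mem_filter, Finset.mem_univ, true_and] at hx ⊢
  intro h0
  rw [h0, abs_zero, zero_mul] at hx
  linarith [hx.2]

theorem mem_of_mem_Ly {T Hu : Finset V} {κ : ℝ} {d v y : V} (h : y ∈ Ly T Hu κ d v) : v ∈ T := by
  simp only [Ly, Lt, Bk, Finset.mem_filter, Finset.mem_univ, true_and, Finset.mem_product] at h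
  exact h.1.1.1

omit [Module (ZMod 2) V] [Fintype V] in
theorem rr_mono {S T : Finset V} (h : T ⊆ S) (g : V) : rr T g ≤ rr S g := by
  apply Finset.card_le_card
  intro x hx
  rw [Finset.mem_filter] at hx ⊢
  exact ⟨h hx.1, h hx.2⟩

end

end LIA_

open LIA_ in
theorem p_LIA : T_DRV → T_LFA → T_DYA → T_MER → T_LIA := by
  intro hDRV hLFA hDYA hMER
  obtain ⟨Q₁, hQ₁, hD⟩ := hDRV
  obtain ⟨Q₂, hQ₂, hP⟩ := pow_lt_two_pow 52000
  refine ⟨max Q₁ Q₂, le_trans hQ₁ (le_max_left _ _), ?_⟩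
  intro Q hQ V _ _ _ s hs T Hu Dd hT hHu hDT hDn hd
  have hQ1 : 1 ≤ Q := le_trans hQ₁ (le_trans (le_max_left _ _) hQ)
  have hQ0 : 0 < Q := lt_of_lt_of_le one_pos hQ1
  obtain ⟨hMB, h0S, -⟩ := hD Q (le_trans (le_max_left _ _) hQ) V s hs
  obtain ⟨L, hL0, hLQ, hLp⟩ := hP Q (le_trans (le_max_right _ _) hQ)
  obtain ⟨-, -, het, hSc, -, -⟩ := hs
  have hTS : T ⊆ Sp s := by rw [hT]; exact Lv_sub het
  obtain ⟨l1, -, l3, l4, l5, l6, l7, l8, l9, l10⟩ :=
    hLFA V (Sp s) T Hu Dd T (Q ^ 12760) hTS hDT (by positivity)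
  have hrr : ∀ g : V, g ≠ 0 → (rr T g : ℝ) ≤ 2 * Q ^ 13001 := by
    intro g hg
    have h1 := ((hMER V (Sp s) (Q ^ 13001) (by positivity)).2 hMB).1 g hg
    have h2 : (rr T g : ℝ) ≤ (rr (Sp s) g : ℝ) := by exact_mod_cast rr_mono hTS g
    linarith
  -- the number of blocks which contain `v`
  set g : V → ℕ := fun v => ∑ d ∈ Dd, (Ly T Hu (Q ^ 12760) d v).card with hg
  have hgT : ∀ v, 1 ≤ g v → v ∈ T := by
    intro v hv
    by_contra hvT
    have : g v = 0 := by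
      rw [hg]
      apply Finset.sum_eq_zero
      intro d _
      rw [Finset.card_eq_zero, Finset.eq_empty_iff_forall_notMem]
      intro y hy
      exact hvT (mem_of_mem_Ly hy)
    omega
  have hTc : (T.card : ℝ) ≤ Q ^ 26000 := by
    have h2 : (T.card : ℝ) ≤ ((Sp s).card : ℝ) := by exact_mod_cast Finset.card_le_card hTS
    linarith
  have hDc : (Dd.card : ℝ) ≤ Q ^ 26000 := by
    have h2 : (Dd.card : ℝ) ≤ (T.card : ℝ) := by exact_mod_cast Finset.card_le_card hDT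
    linarith
  have hgL : ∀ v, g v < 2 ^ L := by
    intro v
    have h1 : g v ≤ Dd.card * T.card := by
      rw [hg]
      calc ∑ d ∈ Dd, (Ly T Hu (Q ^ 12760) d v).card ≤ ∑ d ∈ Dd, T.card :=
            Finset.sum_le_sum (fun d _ => Finset.card_le_card (l1 d v))
        _ = Dd.card * T.card := by rw [Finset.sum_const, smul_eq_mul]
    have h2 : (g v : ℝ) ≤ (Dd.card : ℝ) * (T.card : ℝ) := by exact_mod_cast h1
    have h3 : (Dd.card : ℝ) * (T.card : ℝ) ≤ Q ^ 26000 * Q ^ 26000 :=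
      mul_le_mul hDc hTc (Nat.cast_nonneg _) (by positivity)
    rw [← pow_add] at h3
    have h4 : (g v : ℝ) < 2 ^ L := lt_of_le_of_lt (h2.trans h3) hLp
    exact_mod_cast h4
  have hsum : (Dd.card : ℝ) * Q ^ 25974 ≤ ∑ v ∈ T.filter (fun v => 1 ≤ g v), (g v : ℝ) := by
    have h1 : ∑ v ∈ T.filter (fun v => 1 ≤ g v), (g v : ℝ) = ∑ v, (g v : ℝ) := by
      apply Finset.sum_subset (Finset.subset_univ _)
      intro v _ hv
      rw [Finset.mem_filter, not_and] at hv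
      have : ¬ 1 ≤ g v := fun h => hv (hgT v h) h
      have h0 : g v = 0 := by omega
      rw [h0, Nat.cast_zero]
    have h2 : ∑ v, (g v : ℝ) = ∑ d ∈ Dd, ((Lt T Hu (Q ^ 12760) d).card : ℝ) := by
      rw [hg]
      push_cast
      rw [Finset.sum_comm]
      apply Finset.sum_congr rfl
      intro d _
      rw [← l9 d]
      push_cast
      rfl
    rw [h1, h2]
    calc (Dd.card : ℝ) * Q ^ 25974 = ∑ d ∈ Dd, Q ^ 25974 := by
          rw [Finset.sum_const, nsmul_eq_mul]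
      _ ≤ ∑ d ∈ Dd, ((Lt T Hu (Q ^ 12760) d).card : ℝ) :=
          Finset.sum_le_sum (fun d h => (hd d h).2)
  obtain ⟨i, D', -, -, hD', hcl⟩ := hDYA Unit V {()} (fun _ => T.filter (fun v => 1 ≤ g v))
    (fun _ v => g v) L ((Dd.card : ℝ) * Q ^ 25974) hL0
    (fun _ _ x hx => ⟨(Finset.mem_filter.1 hx).2, hgL x⟩) (fun _ _ => hsum)
  have hmem : () ∈ D' := by
    by_contra h
    have h1 : D' = ∅ := by
      rw [Finset.eq_empty_iff_forall_notMem]
      intro x hx
      exact h hx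
    rw [h1] at hD'
    simp at hD'
  have hcl' := hcl () hmem
  refine ⟨(T.filter (fun v => 1 ≤ g v)).filter (fun x => 2 ^ i ≤ g x ∧ g x < 2 ^ (i + 1)),
    (2 : ℝ) ^ i, one_le_pow₀ (by norm_num), ?_, ?_, ?_⟩
  · have hVT : (T.filter (fun v => 1 ≤ g v)).filter
        (fun x => 2 ^ i ≤ g x ∧ g x < 2 ^ (i + 1)) ⊆ T :=
      (Finset.filter_subset _ _).trans (Finset.filter_subset _ _)
    refine ⟨fun d hdD v _ => l3 d v (hDT hdD), fun v _ y => l4 v y, ?_, ?_, ?_, ?_, ?_⟩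
    · intro d hdD y
      refine le_trans ?_ (l5 d y (hDT hdD))
      exact_mod_cast Finset.card_le_card (Finset.filter_subset_filter _ hVT)
    · intro y
      have hle : ∑ d ∈ Dd, ((((T.filter (fun v => 1 ≤ g v)).filter
          (fun x => 2 ^ i ≤ g x ∧ g x < 2 ^ (i + 1))).filter
            (fun v => y ∈ Ly T Hu (Q ^ 12760) d v)).card : ℝ) ≤
          ((∑ d ∈ Dd, (T.filter (fun v => y ∈ Ly T Hu (Q ^ 12760) d v)).card : ℕ) : ℝ) := by
        push_cast
        apply Finset.sum_le_sum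
        intro d _
        exact_mod_cast Finset.card_le_card (Finset.filter_subset_filter _ hVT)
      refine hle.trans ?_
      by_cases hyH : y ∈ Hu
      · rw [l7 y hyH, Nat.cast_zero]
        positivity
      · by_cases hyS : y ∈ Sp s
        · have h1 : (EE (Sp s) y : ℝ) ≤ Q ^ 26074 := by
            by_contra hlt
            apply hyH
            rw [hHu, Hb, Finset.mem_filter]
            exact ⟨hyS, not_le.1 hlt⟩
          refine le_trans ?_ h1
          exact_mod_cast l6 y hyH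
        · have h1 : ∑ d ∈ Dd, (T.filter (fun v => y ∈ Ly T Hu (Q ^ 12760) d v)).card = 0 := by
            apply Finset.sum_eq_zero
            intro d _
            rw [Finset.card_eq_zero, Finset.eq_empty_iff_forall_notMem]
            intro v hv
            exact hyS (hTS (l1 d v (Finset.mem_filter.1 hv).2))
          rw [h1, Nat.cast_zero]
          positivity
    · intro d hdD
      refine le_trans ?_ (hd d hdD).1
      refine le_trans ?_ (Nat.cast_le.2 (l8 d))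
      push_cast
      exact Finset.sum_le_sum_of_subset_of_nonneg hVT (fun _ _ _ => Nat.cast_nonneg _)
    · intro v _ w _ hvw
      refine (l10 v w hvw).trans ?_
      apply mul_le_mul_of_nonneg_left _ (by positivity)
      apply hrr
      intro h0
      apply hvw
      have h1 : w + w = 0 := by
        have := two_smul (ZMod 2) w
        rw [← this]
        have h2 : (2 : ZMod 2) = 0 := rfl
        rw [h2, zero_smul]
      calc v = v + (w + w) := by rw [h1, add_zero]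
        _ = (v + w) + w := by abel
        _ = w := by rw [h0, zero_add]
    · intro v hv
      have h1 := (Finset.mem_filter.1 hv).2
      have h2 : NN (Ly T Hu (Q ^ 12760)) Dd v = (g v : ℝ) := by
        rw [NN, hg]
        push_cast
        rfl
      rw [h2]
      constructor
      · exact_mod_cast h1.1
      · have h3 : (g v : ℝ) ≤ 2 ^ (i + 1) := by exact_mod_cast h1.2.le
        rw [pow_succ] at h3
        linarith
  · set VV := (T.filter (fun v => 1 ≤ g v)).filter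
        (fun x => 2 ^ i ≤ g x ∧ g x < 2 ^ (i + 1)) with hVV
    have h1 : ∑ x ∈ VV, (g x : ℝ) ≤ (VV.card : ℝ) * (2 ^ i * 2) := by
      rw [← nsmul_eq_mul]
      apply Finset.sum_le_card_nsmul
      intro x hx
      have h2 := (Finset.mem_filter.1 hx).2.2
      rw [← pow_succ]
      exact_mod_cast h2.le
    have h2 : (Dd.card : ℝ) * Q ^ 25974 ≤ (L : ℝ) * ((VV.card : ℝ) * (2 ^ i * 2)) :=
      hcl'.trans (mul_le_mul_of_nonneg_left h1 (Nat.cast_nonneg _))
    have h3 : (L : ℝ) * ((VV.card : ℝ) * (2 ^ i * 2)) ≤ Q * ((VV.card : ℝ) * 2 ^ i) := by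
      have h4 : (0 : ℝ) ≤ (VV.card : ℝ) * 2 ^ i := by positivity
      calc (L : ℝ) * ((VV.card : ℝ) * (2 ^ i * 2)) = 2 * (L : ℝ) * ((VV.card : ℝ) * 2 ^ i) := by
            ring
        _ ≤ Q * ((VV.card : ℝ) * 2 ^ i) := mul_le_mul_of_nonneg_right hLQ h4
    have h5 : Q ^ 25974 = Q ^ 25973 * Q := pow_succ Q 25973
    rw [h5] at h2
    have h6 : Q * ((Dd.card : ℝ) * Q ^ 25973) ≤ Q * ((VV.card : ℝ) * 2 ^ i) := by
      calc Q * ((Dd.card : ℝ) * Q ^ 25973) = (Dd.card : ℝ) * (Q ^ 25973 * Q) := by ring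
        _ ≤ Q * ((VV.card : ℝ) * 2 ^ i) := h2.trans h3
    exact le_of_mul_le_mul_left h6 hQ0
  · exact (Finset.filter_subset _ _).trans (Finset.filter_subset _ _)

end Pool.Agent.XPS
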