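import Pool.Agent.XPS.Pw

set_option autoImplicit false

/-!
# Light blocks: the numerical part
-/

open scoped Classical

noncomputable section

namespace Pool.Agent.XPS

namespace LIB_

theorem mulc (f a b : ℝ) (hf : 0 ≤ f) (h : a ≤ b) : f * a ≤ f * b :=
  mul_le_mul_of_nonneg_left h hf

/-- The lower bound for `X1`. -/
theorem x1 (P q ν n D A κ b K : ℝ) (hq : 0 < q) (hν : 0 ≤ ν) (hn : 0 < n)
    (hA : q * D = A) (h1 : 64 * (K * b * A) ≤ ν * n) (h2 : 8 * κ ≤ q * n) :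
    P ^ 2 * q ^ 2 * ν * n ^ 2 / 2 ≤
      P ^ 2 * (q ^ 2 * ν * n ^ 2 - 16 * K * b * q ^ 3 * D * n - 2 * κ * q * ν * n) := by
  have e1 : 16 * K * b * q ^ 3 * D * n ≤ q ^ 2 * ν * n ^ 2 / 4 := by
    have := mulc (q ^ 2 * n / 4) _ _ (by positivity) h1
    calc 16 * K * b * q ^ 3 * D * n = (q ^ 2 * n / 4) * (64 * (K * b * (q * D))) := by ring
      _ ≤ (q ^ 2 * n / 4) * (ν * n) := by rw [hA]; exact this
      _ = q ^ 2 * ν * n ^ 2 / 4 := by ring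
  have e2 : 2 * κ * q * ν * n ≤ q ^ 2 * ν * n ^ 2 / 4 := by
    have := mulc (q * ν * n / 4) _ _ (by positivity) h2
    calc 2 * κ * q * ν * n = (q * ν * n / 4) * (8 * κ) := by ring
      _ ≤ (q * ν * n / 4) * (q * n) := this
      _ = q ^ 2 * ν * n ^ 2 / 4 := by ring
  have e3 : q ^ 2 * ν * n ^ 2 / 2 ≤
      q ^ 2 * ν * n ^ 2 - 16 * K * b * q ^ 3 * D * n - 2 * κ * q * ν * n := by linarith
  calc P ^ 2 * q ^ 2 * ν * n ^ 2 / 2 = P ^ 2 * (q ^ 2 * ν * n ^ 2 / 2) := by ring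
    _ ≤ _ := mulc _ _ _ (by positivity) e3

/-- The upper bound for `X2`. -/
theorem x2 (P q κ E₁ b K₂ n ν : ℝ) (hν : 0 ≤ ν) (hn : 0 ≤ n)
    (ha : 16 * (κ * E₁) ≤ P ^ 2 * ν * n ^ 2) (hb : 16 * (κ * b) ≤ q ^ 2 * ν * n ^ 2)
    (hc : 16 ≤ P ^ 2 * q ^ 2 * ν * n ^ 2) (hd : 8 * (κ ^ 2 * K₂) ≤ P ^ 2 * q ^ 2 * ν * n ^ 3) :
    X2 P q κ E₁ b K₂ n ν ≤ 68 * (P ^ 2 * q ^ 2 * ν * n ^ 2) ^ 2 := by
  have a1 := mulc (q ^ 4 * P ^ 2 * ν * n ^ 2) _ _ (by positivity) ha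
  have a2 := mulc (q ^ 2 * P ^ 4 * ν * n ^ 2) _ _ (by positivity) hb
  have a3 := mulc (q ^ 2 * P ^ 2 * ν * n ^ 2) _ _ (by positivity) hc
  have a4 := mulc (q ^ 2 * P ^ 2 * ν * n) _ _ (by positivity) hd
  unfold X2
  have r1 : q ^ 4 * P ^ 2 * ν * n ^ 2 * (P ^ 2 * ν * n ^ 2) = (P ^ 2 * q ^ 2 * ν * n ^ 2) ^ 2 := by
    ring
  have r2 : q ^ 2 * P ^ 4 * ν * n ^ 2 * (q ^ 2 * ν * n ^ 2) = (P ^ 2 * q ^ 2 * ν * n ^ 2) ^ 2 := by
    ring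
  have r3 : q ^ 2 * P ^ 2 * ν * n ^ 2 * (P ^ 2 * q ^ 2 * ν * n ^ 2) =
      (P ^ 2 * q ^ 2 * ν * n ^ 2) ^ 2 := by ring
  have r4 : q ^ 2 * P ^ 2 * ν * n * (P ^ 2 * q ^ 2 * ν * n ^ 3) =
      (P ^ 2 * q ^ 2 * ν * n ^ 2) ^ 2 := by ring
  rw [r1] at a1
  rw [r2] at a2
  rw [r3] at a3
  rw [r4] at a4
  have : 4 * (16 * q ^ 4 * P ^ 4 * ν ^ 2 * n ^ 4 + q ^ 4 * P ^ 2 * (4 * κ * E₁ * ν * n ^ 2) +
      q ^ 2 * P ^ 4 * (4 * κ * b * ν * n ^ 2) +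
      q ^ 2 * P ^ 2 * (4 * ν * n ^ 2 + 2 * κ ^ 2 * K₂ * ν * n)) =
      64 * (P ^ 2 * q ^ 2 * ν * n ^ 2) ^ 2 + q ^ 4 * P ^ 2 * ν * n ^ 2 * (16 * (κ * E₁)) +
      q ^ 2 * P ^ 4 * ν * n ^ 2 * (16 * (κ * b)) + q ^ 2 * P ^ 2 * ν * n ^ 2 * 16 +
      q ^ 2 * P ^ 2 * ν * n * (8 * (κ ^ 2 * K₂)) := by ring
  rw [this]
  linarith

/-- The upper bound for `X3`. -/
theorem x3 (P q κ b K₂ n ν D A M : ℝ) (hP : 0 ≤ P) (hν : 0 ≤ ν) (hn : 0 ≤ n)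
    (hA : q * D = A)
    (h1 : b * D ≤ M * (ν * n)) (h2 : 8 * (κ * D) ≤ M * (P * ν * n))
    (h3 : 4 * (κ * b * D) ≤ M * (P * ν * n ^ 2)) (h4 : 4 * (κ ^ 2 * D) ≤ M * (P ^ 2 * ν * n ^ 2))
    (h5 : 4 * (κ * b * A) ≤ M * (q ^ 2 * ν * n ^ 2))
    (h6 : 8 * (κ ^ 2 * A) ≤ M * (P * q ^ 2 * ν * n ^ 2))
    (h7 : 4 * A ≤ M * (P ^ 2 * q ^ 2 * ν * n ^ 2))
    (h8 : 2 * (κ ^ 2 * K₂ * A) ≤ M * (P ^ 2 * q ^ 2 * ν * n ^ 3)) :
    X3 P q κ b K₂ n ν * A ≤ 15 * M * (P ^ 2 * q ^ 2 * ν * n ^ 2) ^ 2 := by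
  have a1 := mulc (8 * q ^ 4 * P ^ 4 * ν * n ^ 3) _ _ (by positivity) h1
  have a2 := mulc (q ^ 4 * P ^ 3 * ν * n ^ 3) _ _ (by positivity) h2
  have a3 := mulc (q ^ 4 * P ^ 3 * ν * n ^ 2) _ _ (by positivity) h3
  have a4 := mulc (q ^ 4 * P ^ 2 * ν * n ^ 2) _ _ (by positivity) h4
  have a5 := mulc (q ^ 2 * P ^ 4 * ν * n ^ 2) _ _ (by positivity) h5
  have a6 := mulc (q ^ 2 * P ^ 3 * ν * n ^ 2) _ _ (by positivity) h6
  have a7 := mulc (q ^ 2 * P ^ 2 * ν * n ^ 2) _ _ (by positivity) h7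
  have a8 := mulc (q ^ 2 * P ^ 2 * ν * n) _ _ (by positivity) h8
  have e : X3 P q κ b K₂ n ν * A =
      8 * q ^ 4 * P ^ 4 * ν * n ^ 3 * (b * D) + q ^ 4 * P ^ 3 * ν * n ^ 3 * (8 * (κ * D)) +
      q ^ 4 * P ^ 3 * ν * n ^ 2 * (4 * (κ * b * D)) +
      q ^ 4 * P ^ 2 * ν * n ^ 2 * (4 * (κ ^ 2 * D)) +
      q ^ 2 * P ^ 4 * ν * n ^ 2 * (4 * (κ * b * A)) +
      q ^ 2 * P ^ 3 * ν * n ^ 2 * (8 * (κ ^ 2 * A)) + q ^ 2 * P ^ 2 * ν * n ^ 2 * (4 * A) +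
      q ^ 2 * P ^ 2 * ν * n * (2 * (κ ^ 2 * K₂ * A)) := by
    unfold X3
    rw [← hA]
    ring
  rw [e]
  have r : 15 * M * (P ^ 2 * q ^ 2 * ν * n ^ 2) ^ 2 =
      8 * q ^ 4 * P ^ 4 * ν * n ^ 3 * (M * (ν * n)) + q ^ 4 * P ^ 3 * ν * n ^ 3 * (M * (P * ν * n)) +
      q ^ 4 * P ^ 3 * ν * n ^ 2 * (M * (P * ν * n ^ 2)) +
      q ^ 4 * P ^ 2 * ν * n ^ 2 * (M * (P ^ 2 * ν * n ^ 2)) +
      q ^ 2 * P ^ 4 * ν * n ^ 2 * (M * (q ^ 2 * ν * n ^ 2)) +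
      q ^ 2 * P ^ 3 * ν * n ^ 2 * (M * (P * q ^ 2 * ν * n ^ 2)) +
      q ^ 2 * P ^ 2 * ν * n ^ 2 * (M * (P ^ 2 * q ^ 2 * ν * n ^ 2)) +
      q ^ 2 * P ^ 2 * ν * n * (M * (P ^ 2 * q ^ 2 * ν * n ^ 3)) := by ring
  rw [r]
  linarith

/-- Taking roots. -/
theorem root (a c : ℝ) (r : ℕ) (hr : r ≠ 0) (hc : 0 ≤ c) (h : a ^ r ≤ c ^ r) :
    a ≤ c := by
  exact le_of_pow_le_pow_left₀ hr hc h

/-- A power of two of the right size. -/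
theorem two_pow (R : ℝ) (hR : 1 ≤ R) : ∃ j : ℕ, R ≤ (2 : ℝ) ^ j ∧ (2 : ℝ) ^ j ≤ 2 * R := by
  have hex : ∃ j : ℕ, R ≤ (2 : ℝ) ^ j := by
    obtain ⟨j, hj⟩ := pow_unbounded_of_one_lt R (by norm_num : (1 : ℝ) < 2)
    exact ⟨j, hj.le⟩
  refine ⟨Nat.find hex, Nat.find_spec hex, ?_⟩
  rcases Nat.eq_zero_or_pos (Nat.find hex) with h0 | h0
  · rw [h0]
    simp only [pow_zero]
    linarith
  · have h1 : ¬ R ≤ (2 : ℝ) ^ (Nat.find hex - 1) := Nat.find_min hex (by omega)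
    have h2 : (2 : ℝ) ^ (Nat.find hex) = 2 * 2 ^ (Nat.find hex - 1) := by
      rw [← pow_succ']
      congr 1
      omega
    rw [h2]
    linarith

/-- The final contradiction. -/
theorem fin (Q t μ X1 Y2 Y3 : ℝ) (l j : ℕ) (hQ : 12 ≤ Q) (ht1 : 1 ≤ t) (ht : t ≤ Q ^ 26000)
    (hl : (l : ℝ) ≤ Q ^ 12820) (hμ : 0 < μ) (hX1 : μ / 2 ≤ X1)
    (hY2 : Y2 ≤ 68 * μ ^ 2) (hY3 : Y3 * Q ^ 12940 ≤ 15 * Q ^ 43 * μ ^ 2) (hY20 : 0 ≤ Y2)
    (hY30 : 0 ≤ Y3) (hlog : 208000 * Real.log Q ≤ Q)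
    (hj1 : 2 * l * (26000 * Real.log Q) ≤ (2 : ℝ) ^ j)
    (hj2 : (2 : ℝ) ^ j ≤ 2 * (2 * l * (26000 * Real.log Q)))
    (h : (X1 ^ 4) ^ (2 ^ j) ≤ t ^ (2 * l) * (2 ^ 17 * ((2 ^ j : ℕ) : ℝ) * Y2 * Y3) ^ (2 ^ j)) :
    False := by
  set r : ℕ := 2 ^ j with hr
  have hr0 : r ≠ 0 := by positivity
  have hrR : (r : ℝ) = (2 : ℝ) ^ j := by rw [hr]; push_cast; rfl
  have hQ0 : 0 < Q := by linarith
  -- t ^ (2 l) ≤ 3 ^ r
  have h1 : t ^ (2 * l) ≤ 3 ^ r := by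
    have e1 : t ^ (2 * l) ≤ (Q ^ 26000) ^ (2 * l) := by gcongr
    have e2 : (Q ^ 26000) ^ (2 * l) = Real.exp (2 * l * (26000 * Real.log Q)) := by
      have : Real.exp (2 * l * (26000 * Real.log Q)) = Real.exp (Real.log Q * ((26000 * (2 * l) : ℕ) : ℝ)) := by
        congr 1
        push_cast
        ring
      rw [this, Real.exp_mul, Real.exp_log hQ0, Real.rpow_natCast, ← pow_mul]
    have e3 : Real.exp (2 * l * (26000 * Real.log Q)) ≤ Real.exp (r : ℝ) := by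
      apply Real.exp_le_exp.mpr
      rw [hrR]
      exact hj1
    have e4 : Real.exp (r : ℝ) = (Real.exp 1) ^ r := by
      rw [← Real.exp_nat_mul]
      congr 1
      ring
    have e5 : (Real.exp 1) ^ r ≤ 3 ^ r := by
      have := Real.exp_one_lt_d9
      gcongr
      linarith
    calc t ^ (2 * l) ≤ (Q ^ 26000) ^ (2 * l) := e1
      _ = Real.exp (2 * l * (26000 * Real.log Q)) := e2
      _ ≤ Real.exp (r : ℝ) := e3
      _ = (Real.exp 1) ^ r := e4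
      _ ≤ 3 ^ r := e5
  -- roots
  have h2 : X1 ^ 4 ≤ 3 * (2 ^ 17 * (r : ℝ) * Y2 * Y3) := by
    apply root _ _ r hr0 (by positivity)
    calc (X1 ^ 4) ^ r ≤ t ^ (2 * l) * (2 ^ 17 * (r : ℝ) * Y2 * Y3) ^ r := h
      _ ≤ 3 ^ r * (2 ^ 17 * (r : ℝ) * Y2 * Y3) ^ r := by gcongr
      _ = (3 * (2 ^ 17 * (r : ℝ) * Y2 * Y3)) ^ r := (mul_pow _ _ _).symm
  have h3 : μ ^ 4 / 16 ≤ X1 ^ 4 := by
    calc μ ^ 4 / 16 = (μ / 2) ^ 4 := by ring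
      _ ≤ X1 ^ 4 := by gcongr
  have h4 : (r : ℝ) ≤ Q ^ 12821 / 2 := by
    rw [hrR]
    have hlogn : 0 ≤ Real.log Q := Real.log_nonneg (by linarith)
    calc (2 : ℝ) ^ j ≤ 2 * (2 * l * (26000 * Real.log Q)) := hj2
      _ = (l : ℝ) * (208000 * Real.log Q) / 2 := by ring
      _ ≤ Q ^ 12820 * Q / 2 := by gcongr
      _ = Q ^ 12821 / 2 := by ring
  -- combine
  have h5 : Y2 * (Y3 * Q ^ 12940) ≤ 68 * μ ^ 2 * (15 * Q ^ 43 * μ ^ 2) := by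
    have : 0 ≤ Y3 * Q ^ 12940 := by positivity
    calc Y2 * (Y3 * Q ^ 12940) ≤ 68 * μ ^ 2 * (Y3 * Q ^ 12940) := by gcongr
      _ ≤ 68 * μ ^ 2 * (15 * Q ^ 43 * μ ^ 2) := by gcongr
  have h6 : μ ^ 4 / 16 * Q ^ 12940 ≤
      3 * 2 ^ 17 * (Q ^ 12821 / 2) * (68 * μ ^ 2 * (15 * Q ^ 43 * μ ^ 2)) := by
    calc μ ^ 4 / 16 * Q ^ 12940 ≤ 3 * (2 ^ 17 * (r : ℝ) * Y2 * Y3) * Q ^ 12940 := by
          gcongr
          exact h3.trans h2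
      _ = 3 * 2 ^ 17 * (r : ℝ) * (Y2 * (Y3 * Q ^ 12940)) := by ring
      _ ≤ 3 * 2 ^ 17 * (r : ℝ) * (68 * μ ^ 2 * (15 * Q ^ 43 * μ ^ 2)) := by gcongr
      _ ≤ 3 * 2 ^ 17 * (Q ^ 12821 / 2) * (68 * μ ^ 2 * (15 * Q ^ 43 * μ ^ 2)) := by gcongr
  have h7 : (3 * 2 ^ 17 * (Q ^ 12821 / 2) * (68 * μ ^ 2 * (15 * Q ^ 43 * μ ^ 2)) : ℝ) =
      (3 * 2 ^ 16 * 68 * 15 * 16) * (μ ^ 4 / 16 * Q ^ 12864) := by ring
  rw [h7] at h6
  have h8 : (3 * 2 ^ 16 * 68 * 15 * 16 : ℝ) < Q ^ 76 := by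
    calc (3 * 2 ^ 16 * 68 * 15 * 16 : ℝ) < 12 ^ 76 := by norm_num
      _ ≤ Q ^ 76 := by gcongr
  have h9 : (3 * 2 ^ 16 * 68 * 15 * 16 : ℝ) * (μ ^ 4 / 16 * Q ^ 12864) <
      Q ^ 76 * (μ ^ 4 / 16 * Q ^ 12864) := by
    have : 0 < μ ^ 4 / 16 * Q ^ 12864 := by positivity
    gcongr
  have h10 : Q ^ 76 * (μ ^ 4 / 16 * Q ^ 12864) = μ ^ 4 / 16 * Q ^ 12940 := by ring
  rw [h10] at h9
  linarith

end LIB_

set_option maxHeartbeats 4000000 in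
theorem p_LIB : T_KAB → T_LIB := by
  intro hKAB
  obtain ⟨Qa, hQa1, hQa⟩ := pw_log 208000
  refine ⟨max Qa 1000, le_trans (by norm_num) (le_max_right _ _), ?_⟩
  intro Q hQ V _ _ T Dd VV Y n hT hDT hVT hD hn hYT hYc hFam hνn hspan
  have hQa' : Qa ≤ Q := le_trans (le_max_left _ _) hQ
  have hQ1000 : (1000 : ℝ) ≤ Q := le_trans (le_max_right _ _) hQ
  have hQ1 : (1 : ℝ) ≤ Q := by linarith
  have hQ0 : (0 : ℝ) < Q := by linarith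
  have hlog0 := hQa Q hQa'
  have hlog : 208000 * Real.log Q ≤ Q := by linarith
  have hlog1 : 1 ≤ Real.log Q := by
    rw [Real.le_log_iff_exp_le hQ0]
    have := Real.exp_one_lt_d9
    linarith
  -- abbreviations
  set D : ℝ := (Dd.card : ℝ) with hDdef
  set t : ℝ := (T.card : ℝ) with htdef
  set ν : ℝ := (VV.card : ℝ) with hνdef
  have hDt : D ≤ t := by
    rw [hDdef, htdef]
    exact_mod_cast Finset.card_le_card hDT
  have hνt : ν ≤ t := by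
    rw [hνdef, htdef]
    exact_mod_cast Finset.card_le_card hVT
  have hQD : (0 : ℝ) < Q ^ 25995 := by positivity
  have hDpos : 0 < D := lt_of_lt_of_le hQD hD
  have htpos : 0 < t := lt_of_lt_of_le hDpos hDt
  have ht1 : 1 ≤ t := by
    have : 0 < T.card := by
      have h' : (0 : ℝ) < (T.card : ℝ) := htpos
      exact_mod_cast h'
    rw [htdef]
    exact_mod_cast this
  have hTne : T.Nonempty := by
    rw [← Finset.card_pos]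
    have h' : (0 : ℝ) < (T.card : ℝ) := htpos
    exact_mod_cast h'
  have hν0 : 0 ≤ ν := by rw [hνdef]; positivity
  have hn0 : 0 < n := by linarith
  have hνQ : ν ≤ Q ^ 26000 := hνt.trans hT
  -- parameters
  set q : ℝ := Q ^ 12940 / D with hqdef
  set l : ℕ := ⌊Q ^ 12820⌋₊ with hldef
  set P : ℝ := (l : ℝ) / t with hPdef
  have hqD : q * D = Q ^ 12940 := by
    rw [hqdef]
    field_simp
  have hq0 : 0 < q := by rw [hqdef]; positivity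
  have hq1 : q ≤ 1 := by
    rw [hqdef, div_le_one hDpos]
    exact (pw_mono Q 12940 25995 hQ1 (by norm_num)).trans hD
  have hlle : (l : ℝ) ≤ Q ^ 12820 := Nat.floor_le (by positivity)
  have hlge : Q ^ 12820 / 2 ≤ (l : ℝ) := by
    have h1 : Q ^ 12820 < (l : ℝ) + 1 := Nat.lt_floor_add_one _
    have h2 : 2 ≤ Q ^ 12820 := by
      calc (2 : ℝ) ≤ Q := by linarith
        _ = Q ^ 1 := by ring
        _ ≤ Q ^ 12820 := pw_mono Q 1 12820 hQ1 (by norm_num)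
    linarith
  have hl1 : 1 ≤ l := by
    have h2 : 2 ≤ Q ^ 12820 := by
      calc (2 : ℝ) ≤ Q := by linarith
        _ = Q ^ 1 := by ring
        _ ≤ Q ^ 12820 := pw_mono Q 1 12820 hQ1 (by norm_num)
    have : (1 : ℝ) ≤ (l : ℝ) := by linarith
    exact_mod_cast this
  have hP0 : 0 ≤ P := by rw [hPdef]; positivity
  have hPge : 1 ≤ 2 * Q ^ 13180 * P := by
    rw [hPdef]
    have h1 : 2 * Q ^ 13180 * ((l : ℝ) / t) = 2 * Q ^ 13180 * (l : ℝ) / t := by ring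
    rw [h1, le_div_iff₀ htpos]
    calc 1 * t ≤ Q ^ 26000 := by linarith
      _ = 2 * Q ^ 13180 * (Q ^ 12820 / 2) := by ring
      _ ≤ 2 * Q ^ 13180 * (l : ℝ) := by gcongr
  -- basic lower bounds
  have b1 : Q ^ 51968 ≤ ν * n := by
    calc Q ^ 51968 = Q ^ 25995 * Q ^ 25973 := by ring
      _ ≤ D * Q ^ 25973 := by gcongr
      _ ≤ ν * n := hνn
  have b2 : Q ^ 12913 ≤ q * n := by
    have h1 : Q ^ 12913 * Q ^ 26000 ≤ q * n * Q ^ 26000 := by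
      calc Q ^ 12913 * Q ^ 26000 = Q ^ 12940 * Q ^ 25973 := by ring
        _ = q * (D * Q ^ 25973) := by rw [← hqD]; ring
        _ ≤ q * (ν * n) := by gcongr
        _ = q * n * ν := by ring
        _ ≤ q * n * Q ^ 26000 := by gcongr
    exact le_of_mul_le_mul_right h1 (by positivity)
  have b3 : Q ^ 25968 ≤ n := by
    have h1 : Q ^ 25968 * Q ^ 26000 ≤ n * Q ^ 26000 := by
      calc Q ^ 25968 * Q ^ 26000 = Q ^ 51968 := by ring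
        _ ≤ ν * n := b1
        _ ≤ Q ^ 26000 * n := by gcongr
        _ = n * Q ^ 26000 := by ring
    exact le_of_mul_le_mul_right h1 (by positivity)
  have b4 : Q ^ 38913 ≤ q * (ν * n) := by
    calc Q ^ 38913 = Q ^ 12940 * Q ^ 25973 := by ring
      _ = q * (D * Q ^ 25973) := by rw [← hqD]; ring
      _ ≤ q * (ν * n) := by gcongr
  have b5 : Q ^ 51826 ≤ q ^ 2 * ν * n ^ 2 := by
    calc Q ^ 51826 = Q ^ 12913 * Q ^ 38913 := by ring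
      _ ≤ (q * n) * (q * (ν * n)) := by gcongr
      _ = q ^ 2 * ν * n ^ 2 := by ring
  have b6 : Q ^ 77936 ≤ ν * n ^ 2 := by
    calc Q ^ 77936 = Q ^ 51968 * Q ^ 25968 := by ring
      _ ≤ (ν * n) * n := by gcongr
      _ = ν * n ^ 2 := by ring
  have b7 : 1 ≤ 4 * Q ^ 26360 * P ^ 2 := by
    calc (1 : ℝ) = 1 * 1 := by ring
      _ ≤ (2 * Q ^ 13180 * P) * (2 * Q ^ 13180 * P) := by gcongr
      _ = 4 * Q ^ 26360 * P ^ 2 := by ring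
  have b8 : Q ^ 25466 ≤ 4 * (P ^ 2 * q ^ 2 * ν * n ^ 2) := by
    have h1 : Q ^ 25466 * Q ^ 26360 ≤ 4 * (P ^ 2 * q ^ 2 * ν * n ^ 2) * Q ^ 26360 := by
      calc Q ^ 25466 * Q ^ 26360 = 1 * Q ^ 51826 := by ring
        _ ≤ (4 * Q ^ 26360 * P ^ 2) * (q ^ 2 * ν * n ^ 2) := by gcongr
        _ = 4 * (P ^ 2 * q ^ 2 * ν * n ^ 2) * Q ^ 26360 := by ring
    exact le_of_mul_le_mul_right h1 (by positivity)
  have b9 : Q ^ 51434 ≤ 4 * (P ^ 2 * q ^ 2 * ν * n ^ 3) := by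
    calc Q ^ 51434 = Q ^ 25466 * Q ^ 25968 := by ring
      _ ≤ (4 * (P ^ 2 * q ^ 2 * ν * n ^ 2)) * n := by gcongr
      _ = 4 * (P ^ 2 * q ^ 2 * ν * n ^ 3) := by ring
  set μ : ℝ := P ^ 2 * q ^ 2 * ν * n ^ 2 with hμdef
  have hμpos : 0 < μ := by
    have : 0 < Q ^ 25466 := by positivity
    linarith
  -- X1
  have hx1 := LIB_.x1 P q ν n D (Q ^ 12940) (Q ^ 12760) (Q ^ 26016) (Q ^ 13001) hq0 hν0 hn0 hqD
    (by
      calc 64 * (Q ^ 13001 * Q ^ 26016 * Q ^ 12940) = 64 * Q ^ 51957 := by ring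
        _ ≤ Q ^ 51968 := pw_le Q 64 _ _ hQ1 (by linarith) (by norm_num)
        _ ≤ ν * n := b1)
    (by
      calc 8 * Q ^ 12760 ≤ Q ^ 12913 := pw_le Q 8 _ _ hQ1 (by linarith) (by norm_num)
        _ ≤ q * n := b2)
  have hx2 := LIB_.x2 P q (Q ^ 12760) (Q ^ 26074) (Q ^ 26016) (2 * Q ^ 13001) n ν hν0 hn0.le
    (by
      have h1 : 16 * (Q ^ 12760 * Q ^ 26074) * Q ^ 26360 ≤ P ^ 2 * ν * n ^ 2 * Q ^ 26360 := by
        calc 16 * (Q ^ 12760 * Q ^ 26074) * Q ^ 26360 = (64 * Q ^ 65194) / 4 := by ring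
          _ ≤ Q ^ 77936 / 4 := by
              have := pw_le Q 64 65194 77936 hQ1 (by linarith) (by norm_num)
              linarith
          _ = 1 * Q ^ 77936 / 4 := by ring
          _ ≤ (4 * Q ^ 26360 * P ^ 2) * (ν * n ^ 2) / 4 := by gcongr
          _ = P ^ 2 * ν * n ^ 2 * Q ^ 26360 := by ring
      exact le_of_mul_le_mul_right h1 (by positivity))
    (by
      calc 16 * (Q ^ 12760 * Q ^ 26016) = 16 * Q ^ 38776 := by ring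
        _ ≤ Q ^ 51826 := pw_le Q 16 _ _ hQ1 (by linarith) (by norm_num)
        _ ≤ q ^ 2 * ν * n ^ 2 := b5)
    (by
      have h1 : 64 * Q ^ 1 ≤ Q ^ 25466 := pw_le Q 64 _ _ hQ1 (by linarith) (by norm_num)
      have h2 : Q ^ 1 = Q := by ring
      rw [h2] at h1
      linarith)
    (by
      have h1 : 64 * Q ^ 38521 ≤ Q ^ 51434 := pw_le Q 64 _ _ hQ1 (by linarith) (by norm_num)
      have h2 : 8 * ((Q ^ 12760) ^ 2 * (2 * Q ^ 13001)) = 16 * Q ^ 38521 := by ring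
      rw [h2]
      linarith)
  have hx3 := LIB_.x3 P q (Q ^ 12760) (Q ^ 26016) (2 * Q ^ 13001) n ν D (Q ^ 12940) (Q ^ 43) hP0
    hν0 hn0.le hqD
    (by
      calc Q ^ 26016 * D = Q ^ 43 * (D * Q ^ 25973) := by ring
        _ ≤ Q ^ 43 * (ν * n) := by gcongr)
    (by
      have h1 : 8 * (Q ^ 12760 * D) * Q ^ 13180 ≤ Q ^ 43 * (P * ν * n) * Q ^ 13180 := by
        calc 8 * (Q ^ 12760 * D) * Q ^ 13180 = D / 2 * (16 * Q ^ 25940) := by ring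
          _ ≤ D / 2 * Q ^ 26016 := by
              gcongr
              exact pw_le Q 16 _ _ hQ1 (by linarith) (by norm_num)
          _ = 1 * (D * Q ^ 25973) * Q ^ 43 / 2 := by ring
          _ ≤ (2 * Q ^ 13180 * P) * (ν * n) * Q ^ 43 / 2 := by gcongr
          _ = Q ^ 43 * (P * ν * n) * Q ^ 13180 := by ring
      exact le_of_mul_le_mul_right h1 (by positivity))
    (by
      have h1 : 4 * (Q ^ 12760 * Q ^ 26016 * D) * Q ^ 13180 ≤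
          Q ^ 43 * (P * ν * n ^ 2) * Q ^ 13180 := by
        calc 4 * (Q ^ 12760 * Q ^ 26016 * D) * Q ^ 13180 = D / 2 * (8 * Q ^ 51956) := by ring
          _ ≤ D / 2 * Q ^ 51984 := by
              gcongr
              exact pw_le Q 8 _ _ hQ1 (by linarith) (by norm_num)
          _ = 1 * (D * Q ^ 25973) * Q ^ 25968 * Q ^ 43 / 2 := by ring
          _ ≤ (2 * Q ^ 13180 * P) * (ν * n) * n * Q ^ 43 / 2 := by gcongr
          _ = Q ^ 43 * (P * ν * n ^ 2) * Q ^ 13180 := by ring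
      exact le_of_mul_le_mul_right h1 (by positivity))
    (by
      have h1 : 4 * ((Q ^ 12760) ^ 2 * D) * Q ^ 26360 ≤
          Q ^ 43 * (P ^ 2 * ν * n ^ 2) * Q ^ 26360 := by
        calc 4 * ((Q ^ 12760) ^ 2 * D) * Q ^ 26360 = D / 4 * (16 * Q ^ 51880) := by ring
          _ ≤ D / 4 * Q ^ 51984 := by
              gcongr
              exact pw_le Q 16 _ _ hQ1 (by linarith) (by norm_num)
          _ = 1 * (D * Q ^ 25973) * Q ^ 25968 * Q ^ 43 / 4 := by ring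
          _ ≤ (4 * Q ^ 26360 * P ^ 2) * (ν * n) * n * Q ^ 43 / 4 := by gcongr
          _ = Q ^ 43 * (P ^ 2 * ν * n ^ 2) * Q ^ 26360 := by ring
      exact le_of_mul_le_mul_right h1 (by positivity))
    (by
      calc 4 * (Q ^ 12760 * Q ^ 26016 * Q ^ 12940) = 4 * Q ^ 51716 := by ring
        _ ≤ Q ^ 51869 := pw_le Q 4 _ _ hQ1 (by linarith) (by norm_num)
        _ = Q ^ 43 * Q ^ 51826 := by ring
        _ ≤ Q ^ 43 * (q ^ 2 * ν * n ^ 2) := by gcongr)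
    (by
      have h1 : 8 * ((Q ^ 12760) ^ 2 * Q ^ 12940) * Q ^ 13180 ≤
          Q ^ 43 * (P * q ^ 2 * ν * n ^ 2) * Q ^ 13180 := by
        calc 8 * ((Q ^ 12760) ^ 2 * Q ^ 12940) * Q ^ 13180 = (16 * Q ^ 51640) / 2 := by ring
          _ ≤ Q ^ 51869 / 2 := by
              have := pw_le Q 16 51640 51869 hQ1 (by linarith) (by norm_num)
              linarith
          _ = 1 * Q ^ 51826 * Q ^ 43 / 2 := by ring
          _ ≤ (2 * Q ^ 13180 * P) * (q ^ 2 * ν * n ^ 2) * Q ^ 43 / 2 := by gcongr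
          _ = Q ^ 43 * (P * q ^ 2 * ν * n ^ 2) * Q ^ 13180 := by ring
      exact le_of_mul_le_mul_right h1 (by positivity))
    (by
      calc 4 * Q ^ 12940 = (16 * Q ^ 12940) / 4 := by ring
        _ ≤ Q ^ 25509 / 4 := by
            have := pw_le Q 16 12940 25509 hQ1 (by linarith) (by norm_num)
            linarith
        _ = Q ^ 43 * (Q ^ 25466 / 4) := by ring
        _ ≤ Q ^ 43 * (P ^ 2 * q ^ 2 * ν * n ^ 2) := by
            gcongr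
            linarith)
    (by
      calc 2 * ((Q ^ 12760) ^ 2 * (2 * Q ^ 13001) * Q ^ 12940) = (16 * Q ^ 51461) / 4 := by ring
        _ ≤ Q ^ 51477 / 4 := by
            have := pw_le Q 16 51461 51477 hQ1 (by linarith) (by norm_num)
            linarith
        _ = Q ^ 43 * (Q ^ 51434 / 4) := by ring
        _ ≤ Q ^ 43 * (P ^ 2 * q ^ 2 * ν * n ^ 3) := by
            gcongr
            linarith)
  -- the exponent
  have hR1 : 1 ≤ 2 * (l : ℝ) * (26000 * Real.log Q) := by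
    have h1 : (1 : ℝ) ≤ (l : ℝ) := by exact_mod_cast hl1
    nlinarith
  obtain ⟨j, hj1, hj2⟩ := LIB_.two_pow _ hR1
  have hX1pos : 0 < P ^ 2 * (q ^ 2 * ν * n ^ 2 - 16 * Q ^ 13001 * Q ^ 26016 * q ^ 3 * D * n -
      2 * Q ^ 12760 * q * ν * n) := by
    have : 0 < μ / 2 := by positivity
    exact lt_of_lt_of_le this hx1
  have hkab := hKAB V T Dd VV Y (Q ^ 12760) (Q ^ 26074) (Q ^ 26016) (2 * Q ^ 13001) (Q ^ 13001) n q
    (P ^ 2 * (q ^ 2 * ν * n ^ 2 - 16 * Q ^ 13001 * Q ^ 26016 * q ^ 3 * D * n -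
      2 * Q ^ 12760 * q * ν * n)) l (2 ^ j) j hTne hYT hYc (by positivity) (by positivity)
    (by positivity) (by positivity) (by positivity) hn0 hq0 hq1 hFam hspan rfl hX1pos rfl
  have hX2nn : 0 ≤ X2 P q (Q ^ 12760) (Q ^ 26074) (Q ^ 26016) (2 * Q ^ 13001) n ν := by
    unfold X2
    positivity
  have hX3nn : 0 ≤ X3 P q (Q ^ 12760) (Q ^ 26016) (2 * Q ^ 13001) n ν := by
    unfold X3
    positivity
  exact LIB_.fin Q t μ _ _ _ l j (by linarith) ht1 hT hlle hμpos hx1 hx2 hx3 hX2nn hX3nn hlog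
    hj1 hj2 hkab

end Pool.Agent.XPS
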