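import Pool.Agent.XPS.Targets

set_option autoImplicit false

/-!
# LIT: there are few points with many light blocks
-/

open scoped Classical

noncomputable section

namespace Pool.Agent.XPS

open Pool.Agent.LRC

namespace LIT_

/-- The large coefficients are in the support. -/
theorem lv_sub {V : Type} [AddCommGroup V] [Module (ZMod 2) V] [Fintype V] (Q : ℝ) (n : ℕ)
    (s : V → ℝ) (h : 0 < et s) : Lv Q n s ⊆ Sp s := by
  intro x hx
  unfold Lv at hx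
  rw [Finset.mem_filter] at hx
  unfold Sp
  rw [Finset.mem_filter]
  refine ⟨Finset.mem_univ _, fun h0 => ?_⟩
  have h1 := hx.2.2
  rw [h0, abs_zero, zero_mul] at h1
  exact absurd h (not_lt.mpr h1)

theorem lv_ne {V : Type} [AddCommGroup V] [Module (ZMod 2) V] [Fintype V] (Q : ℝ) (n : ℕ)
    (s : V → ℝ) {x : V} (hx : x ∈ Lv Q n s) : x ≠ 0 := by
  unfold Lv at hx
  rw [Finset.mem_filter] at hx
  exact hx.2.1

end LIT_

theorem p_LIT : T_LIA → T_LIB → T_LFA → T_DRV → T_MER → T_LIT := by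
  intro hLIA hLIB hLFA hDRV hMER
  obtain ⟨Q1, hQ1, hA⟩ := hLIA
  obtain ⟨Q2, hQ2, hB⟩ := hLIB
  obtain ⟨Q3, hQ3, hD⟩ := hDRV
  refine ⟨max Q1 (max Q2 Q3), le_trans hQ1 (le_max_left _ _), ?_⟩
  intro Q hQ V _ _ _ s hs T Hu hT hHu
  have h1 : Q1 ≤ Q := le_trans (le_max_left _ _) hQ
  have h2 : Q2 ≤ Q := le_trans (le_trans (le_max_left _ _) (le_max_right _ _)) hQ
  have h3 : Q3 ≤ Q := le_trans (le_trans (le_max_right _ _) (le_max_right _ _)) hQ
  have hQp : 1 ≤ Q := le_trans hQ1 h1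
  by_contra hcon
  rw [not_le] at hcon
  obtain ⟨Dd, hDd⟩ : ∃ Dd : Finset V, Dd = T.filter (fun d => (EE (Sp s) d : ℝ) ≤ Q ^ 26016 ∧
    Q ^ 25974 < ((Lt T Hu (Q ^ 12760) d).card : ℝ)) := ⟨_, rfl⟩
  rw [← hDd] at hcon
  have hDT : Dd ⊆ T := by rw [hDd]; exact Finset.filter_subset _ _
  have hTS : T ⊆ Sp s := by rw [hT]; exact LIT_.lv_sub Q _ s hs.2.2.1
  have hne : Dd.Nonempty := by
    rw [← Finset.card_pos]
    have h5 : (0 : ℝ) < (Dd.card : ℝ) := lt_of_le_of_lt (pow_nonneg (by linarith) _) hcon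
    exact_mod_cast h5
  obtain ⟨VV, n, hn, hF, hc, hVT⟩ := hA Q h1 V s hs T Hu Dd hT hHu hDT hne (by
    intro d hd
    rw [hDd, Finset.mem_filter] at hd
    exact ⟨hd.2.1, hd.2.2.le⟩)
  obtain ⟨hL1, hL2, -⟩ := hLFA V (Sp s) T Hu Dd VV (Q ^ 12760) hTS hDT
    (pow_nonneg (by linarith) _)
  obtain ⟨hMB, h0, -⟩ := hD Q h3 V s hs
  have hK : 0 ≤ Q ^ 13001 := pow_nonneg (by linarith) _
  have hM := (((hMER V (Sp s) (Q ^ 13001) hK).2 hMB).2 h0)
  apply hB Q h2 V T Dd VV (Ly T Hu (Q ^ 12760)) n ?_ hDT hVT hcon.le hn hL1 hL2 hF hc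
  · intro X
    refine le_trans ?_ (hM X)
    have h6 : Dd.filter (fun v => v ∈ Submodule.span (ZMod 2) (X : Set V)) ⊆
        (Sp s).filter (fun v => v ≠ 0 ∧ v ∈ Submodule.span (ZMod 2) (X : Set V)) := by
      intro v hv
      rw [Finset.mem_filter] at hv ⊢
      refine ⟨hTS (hDT hv.1), ?_, hv.2⟩
      have h7 := hDT hv.1
      rw [hT] at h7
      exact LIT_.lv_ne Q _ s h7
    exact_mod_cast Finset.card_le_card h6
  · refine le_trans ?_ hs.2.2.2.1
    exact_mod_cast Finset.card_le_card hTS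

end Pool.Agent.XPS
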