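import Pool.Agent.XPS.Targets

set_option autoImplicit false

/-!
# MP_9f5962_lc, project XPS: target LOS, the mean of `k1` over the independent part

`k1 P Y VV (Li L R) R` is `P ^ 2` times the full sum minus the sum over the dependent elements of
`L`; the mean of the latter is bounded by the merging bound and the variance of `NN Y R v`.
-/

open scoped Classical

noncomputable section

namespace Pool.Agent.XPS

open Pool.Agent.LRC

namespace LOS_

theorem be_comm {α : Type} (p : ℝ) (A : Finset α) (F : Finset α → Finset α → ℝ) :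
    be p A (fun L => be p A (fun R => F L R)) = be p A (fun R => be p A (fun L => F L R)) := by
  unfold be
  simp_rw [Finset.mul_sum]
  rw [Finset.sum_comm]
  refine Finset.sum_congr rfl fun R _ => Finset.sum_congr rfl fun L _ => by ring

theorem be_congr {α : Type} (p : ℝ) (A : Finset α) {F G : Finset α → ℝ}
    (h : ∀ Y, Y ⊆ A → F Y = G Y) : be p A F = be p A G := by
  unfold be
  exact Finset.sum_congr rfl fun Y hY => by rw [h Y (Finset.mem_powerset.mp hY)]

theorem var_arith {q S κ n : ℝ} (hq : 0 < q) (hS0 : 0 ≤ S) (hS : S ≤ κ * (2 * n)) :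
    1 / q * (q * (1 - q) * S) ≤ 2 * κ * n := by
  have e4 : 1 / q * (q * (1 - q) * S) = (1 - q) * S := by
    field_simp
  rw [e4]
  nlinarith [mul_nonneg hq.le hS0]

theorem sq_arith {q n N : ℝ} (hn : 0 ≤ n) (hN : n ≤ N) :
    q ^ 2 * n ^ 2 ≤ q * N * (q * N) := by
  have e3 : n ^ 2 ≤ N ^ 2 := pow_le_pow_left₀ hn hN 2
  nlinarith [mul_le_mul_of_nonneg_left e3 (sq_nonneg q)]

section lem

variable {V : Type} [AddCommGroup V] [Module (ZMod 2) V]

/-- The indicator of dependence. -/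
def FF (R : Finset V) (d : V) (Z : Finset V) : ℝ :=
  if d ∈ Submodule.span (ZMod 2) (Z : Set V) ⊔ Submodule.span (ZMod 2) (R : Set V) then 1 else 0

/-- The weight of `d`. -/
def cc (Y : V → V → Finset V) (VV R : Finset V) (d : V) : ℝ :=
  ∑ v ∈ VV, ((Y d v).card : ℝ) * NN Y R v

omit [AddCommGroup V] [Module (ZMod 2) V] in
theorem NN_nonneg (Y : V → V → Finset V) (L : Finset V) (v : V) : 0 ≤ NN Y L v :=
  Finset.sum_nonneg fun _ _ => Nat.cast_nonneg _

omit [AddCommGroup V] [Module (ZMod 2) V] in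
theorem cc_nonneg (Y : V → V → Finset V) (VV R : Finset V) (d : V) : 0 ≤ cc Y VV R d :=
  Finset.sum_nonneg fun _ _ => mul_nonneg (Nat.cast_nonneg _) (NN_nonneg _ _ _)

theorem FF_mono (R : Finset V) (d : V) {Z Z' : Finset V} (h : Z ⊆ Z') :
    FF R d Z ≤ FF R d Z' := by
  unfold FF
  by_cases h1 : d ∈ Submodule.span (ZMod 2) (Z : Set V) ⊔ Submodule.span (ZMod 2) (R : Set V)
  · have hle : Submodule.span (ZMod 2) (Z : Set V) ⊔ Submodule.span (ZMod 2) (R : Set V) ≤
        Submodule.span (ZMod 2) (Z' : Set V) ⊔ Submodule.span (ZMod 2) (R : Set V) :=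
      sup_le_sup_right (Submodule.span_mono (Finset.coe_subset.mpr h)) _
    have h2 : d ∈ Submodule.span (ZMod 2) (Z' : Set V) ⊔ Submodule.span (ZMod 2) (R : Set V) :=
      hle h1
    rw [if_pos h1, if_pos h2]
  · rw [if_neg h1]
    split_ifs <;> norm_num

/-- The splitting of the full sum. -/
theorem split_eq (Dd VV : Finset V) (Y : V → V → Finset V) (L R : Finset V) (hL : L ⊆ Dd) :
    ∑ v ∈ VV, NN Y L v * NN Y R v = ∑ v ∈ VV, NN Y (Li L R) v * NN Y R v +
      ∑ d ∈ Dd, (if d ∈ L then FF R d (L.erase d) else 0) * cc Y VV R d := by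
  have h1 : ∀ v, NN Y L v = NN Y (Li L R) v + ∑ d ∈ L, FF R d (L.erase d) * (Y d v).card := by
    intro v
    unfold NN Li
    rw [← Finset.sum_filter_add_sum_filter_not L (fun d => d ∉ Submodule.span (ZMod 2)
      ((L.erase d : Finset V) : Set V) ⊔ Submodule.span (ZMod 2) (R : Set V))]
    congr 1
    rw [Finset.sum_filter]
    refine Finset.sum_congr rfl fun d _ => ?_
    unfold FF
    by_cases h : d ∈ Submodule.span (ZMod 2) ((L.erase d : Finset V) : Set V) ⊔
      Submodule.span (ZMod 2) (R : Set V)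
    · rw [if_pos (not_not.mpr h), if_pos h, one_mul]
    · rw [if_neg (not_not.mpr h |> fun _ => by simpa using h), if_neg h, zero_mul]
  have h2 : ∑ d ∈ Dd, (if d ∈ L then FF R d (L.erase d) else 0) * cc Y VV R d =
      ∑ d ∈ L, FF R d (L.erase d) * cc Y VV R d := by
    rw [← Finset.sum_subset hL]
    · exact Finset.sum_congr rfl fun d hd => by rw [if_pos hd]
    · intro d _ hd
      rw [if_neg hd, zero_mul]
  rw [h2]
  have h3 : ∑ d ∈ L, FF R d (L.erase d) * cc Y VV R d =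
      ∑ v ∈ VV, (∑ d ∈ L, FF R d (L.erase d) * (Y d v).card) * NN Y R v := by
    unfold cc
    simp_rw [Finset.mul_sum, Finset.sum_mul]
    rw [Finset.sum_comm]
    refine Finset.sum_congr rfl fun v _ => Finset.sum_congr rfl fun d _ => by ring
  rw [h3, ← Finset.sum_add_distrib]
  refine Finset.sum_congr rfl fun v _ => ?_
  rw [h1 v]
  ring

theorem quad {x N n q : ℝ} (hn : 0 < n) (hq : 0 < q) (hN : N ≤ 2 * n) :
    x ≤ 4 * q * n + (x - q * N) ^ 2 / (2 * q * n) := by
  have ht : 0 < 2 * q * n := by positivity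
  rw [← sub_le_iff_le_add', le_div_iff₀ ht]
  have hqN : q * N ≤ 2 * q * n := by nlinarith
  by_cases h : x ≤ 2 * q * n
  · nlinarith [sq_nonneg (x - q * N), mul_pos ht ht]
  · push Not at h
    have ha : x - 2 * q * n ≤ x - q * N := by linarith
    have hb : 0 < x - 2 * q * n := by linarith
    have hc : (x - 2 * q * n) ^ 2 ≤ (x - q * N) ^ 2 := by
      apply pow_le_pow_left₀ hb.le ha
    nlinarith [sq_nonneg (x - 4 * q * n)]

/-- The pointwise bound. -/
theorem point (Dd VV : Finset V) (Y : V → V → Finset V) (b K n q : ℝ) (hb : 0 ≤ b) (hn : 0 < n)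
    (hq : 0 < q) (hY : ∀ d ∈ Dd, ∑ v ∈ VV, ((Y d v).card : ℝ) ≤ b)
    (hN : ∀ v ∈ VV, NN Y Dd v ≤ 2 * n)
    (hX : ∀ X : Finset V, ((Dd.filter (fun v => v ∈ Submodule.span (ZMod 2) (X : Set V))).card :
      ℝ) ≤ 2 * K * (X.card : ℝ)) (hK : 0 ≤ K) (L R : Finset V) :
    ∑ d ∈ Dd, FF R d L * cc Y VV R d ≤ 8 * K * b * q * n * (L.card : ℝ) +
      (8 * K * b * q * n * (R.card : ℝ) +
        ∑ v ∈ VV, 1 / q * (NN Y R v - q * NN Y Dd v) ^ 2) := by
  set B : Finset V := Dd.filter (fun v => v ∈ Submodule.span (ZMod 2) ((L ∪ R : Finset V) :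
    Set V)) with hBdef
  have hspan : Submodule.span (ZMod 2) ((L ∪ R : Finset V) : Set V) =
      Submodule.span (ZMod 2) (L : Set V) ⊔ Submodule.span (ZMod 2) (R : Set V) := by
    rw [Finset.coe_union, Submodule.span_union]
  have hBcard : (B.card : ℝ) ≤ 2 * K * ((L.card : ℝ) + (R.card : ℝ)) := by
    refine (hX (L ∪ R)).trans ?_
    have h1 : ((L ∪ R).card : ℝ) ≤ (L.card : ℝ) + (R.card : ℝ) := by
      exact_mod_cast Finset.card_union_le L R
    exact mul_le_mul_of_nonneg_left h1 (by positivity)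
  have h1 : ∑ d ∈ Dd, FF R d L * cc Y VV R d = ∑ d ∈ B, cc Y VV R d := by
    rw [hBdef, Finset.sum_filter]
    refine Finset.sum_congr rfl fun d _ => ?_
    unfold FF
    rw [hspan]
    split_ifs <;> ring
  have h2 : ∑ d ∈ B, cc Y VV R d = ∑ v ∈ VV, (∑ d ∈ B, ((Y d v).card : ℝ)) * NN Y R v := by
    unfold cc
    rw [Finset.sum_comm]
    refine Finset.sum_congr rfl fun v _ => ?_
    rw [Finset.sum_mul]
  have h3 : ∀ v ∈ VV, (∑ d ∈ B, ((Y d v).card : ℝ)) * NN Y R v ≤
      4 * q * n * (∑ d ∈ B, ((Y d v).card : ℝ)) +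
        1 / q * (NN Y R v - q * NN Y Dd v) ^ 2 := by
    intro v hv
    have hNB0 : 0 ≤ ∑ d ∈ B, ((Y d v).card : ℝ) :=
      Finset.sum_nonneg fun _ _ => Nat.cast_nonneg _
    have hNB : ∑ d ∈ B, ((Y d v).card : ℝ) ≤ 2 * n := by
      refine le_trans ?_ (hN v hv)
      exact Finset.sum_le_sum_of_subset_of_nonneg (Finset.filter_subset _ _)
        fun _ _ _ => Nat.cast_nonneg _
    have hquad := quad (x := NN Y R v) hn hq (hN v hv)
    have hs : 0 ≤ (NN Y R v - q * NN Y Dd v) ^ 2 / (2 * q * n) := by positivity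
    calc (∑ d ∈ B, ((Y d v).card : ℝ)) * NN Y R v
        ≤ (∑ d ∈ B, ((Y d v).card : ℝ)) *
          (4 * q * n + (NN Y R v - q * NN Y Dd v) ^ 2 / (2 * q * n)) :=
          mul_le_mul_of_nonneg_left hquad hNB0
      _ = 4 * q * n * (∑ d ∈ B, ((Y d v).card : ℝ)) + (∑ d ∈ B, ((Y d v).card : ℝ)) *
          ((NN Y R v - q * NN Y Dd v) ^ 2 / (2 * q * n)) := by ring
      _ ≤ 4 * q * n * (∑ d ∈ B, ((Y d v).card : ℝ)) + 2 * n *
          ((NN Y R v - q * NN Y Dd v) ^ 2 / (2 * q * n)) := by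
          have := mul_le_mul_of_nonneg_right hNB hs
          linarith
      _ = 4 * q * n * (∑ d ∈ B, ((Y d v).card : ℝ)) +
          1 / q * (NN Y R v - q * NN Y Dd v) ^ 2 := by
          congr 1
          field_simp
  have h4 : ∑ v ∈ VV, ∑ d ∈ B, ((Y d v).card : ℝ) ≤ b * (B.card : ℝ) := by
    rw [Finset.sum_comm]
    calc ∑ d ∈ B, ∑ v ∈ VV, ((Y d v).card : ℝ) ≤ ∑ _d ∈ B, b :=
          Finset.sum_le_sum fun d hd => hY d (Finset.mem_filter.mp hd).1
      _ = b * (B.card : ℝ) := by rw [Finset.sum_const, nsmul_eq_mul]; ring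
  rw [h1, h2]
  calc ∑ v ∈ VV, (∑ d ∈ B, ((Y d v).card : ℝ)) * NN Y R v
      ≤ ∑ v ∈ VV, (4 * q * n * (∑ d ∈ B, ((Y d v).card : ℝ)) +
        1 / q * (NN Y R v - q * NN Y Dd v) ^ 2) := Finset.sum_le_sum h3
    _ = 4 * q * n * (∑ v ∈ VV, ∑ d ∈ B, ((Y d v).card : ℝ)) +
        ∑ v ∈ VV, 1 / q * (NN Y R v - q * NN Y Dd v) ^ 2 := by
        rw [Finset.sum_add_distrib, ← Finset.mul_sum]
    _ ≤ 4 * q * n * (b * (2 * K * ((L.card : ℝ) + (R.card : ℝ)))) +
        ∑ v ∈ VV, 1 / q * (NN Y R v - q * NN Y Dd v) ^ 2 := by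
        have h5 : ∑ v ∈ VV, ∑ d ∈ B, ((Y d v).card : ℝ) ≤
            b * (2 * K * ((L.card : ℝ) + (R.card : ℝ))) :=
          h4.trans (mul_le_mul_of_nonneg_left hBcard hb)
        have h6 : 0 ≤ 4 * q * n := by positivity
        have := mul_le_mul_of_nonneg_left h5 h6
        linarith
    _ = 8 * K * b * q * n * (L.card : ℝ) + (8 * K * b * q * n * (R.card : ℝ) +
        ∑ v ∈ VV, 1 / q * (NN Y R v - q * NN Y Dd v) ^ 2) := by ring

end lem

end LOS_

open LOS_

theorem p_LOS : T_BER → T_LOS := by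
  intro hB V _ _ Dd VV Y κ E₁ b K₂ K n P q hκ hb hK hn hP hq hq1 hF hX
  obtain ⟨g1, -, -, -, g5, -, g7⟩ := hF
  obtain ⟨h1, -, -, h4, h5, -, h7, h8, h9, h10, h11, -⟩ := hB V q Dd hq.le hq1
  have hconst : ∀ c : ℝ, be q Dd (fun _ => c) = c := by
    intro c
    have e := h10 c (fun _ => 1)
    rw [h1, mul_one] at e
    exact e
  have hN : ∀ v ∈ VV, NN Y Dd v ≤ 2 * n := fun v hv => (g7 v hv).2
  -- the mean number of elements
  have hcard : be q Dd (fun L => (L.card : ℝ)) = q * (Dd.card : ℝ) := by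
    have e := h4 (fun _ => 1)
    have e' : (fun Y : Finset V => ∑ _a ∈ Y, (1 : ℝ)) = fun Y => (Y.card : ℝ) := by
      funext Y
      rw [Finset.sum_const, nsmul_eq_mul, mul_one]
    rw [e', Finset.sum_const, nsmul_eq_mul, mul_one] at e
    exact e
  -- the mean of `NN`
  have hNN : ∀ v, be q Dd (fun L => NN Y L v) = q * NN Y Dd v := fun v =>
    h4 (fun d => ((Y d v).card : ℝ))
  -- the variance of `NN`
  have hvar : ∀ v ∈ VV, be q Dd (fun R => 1 / q * (NN Y R v - q * NN Y Dd v) ^ 2) ≤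
      2 * κ * n := by
    intro v hv
    rw [h10 (1 / q) (fun R => (NN Y R v - q * NN Y Dd v) ^ 2)]
    have e : be q Dd (fun R => (NN Y R v - q * NN Y Dd v) ^ 2) =
        q * (1 - q) * ∑ d ∈ Dd, ((Y d v).card : ℝ) ^ 2 := h5 (fun d => ((Y d v).card : ℝ))
    rw [e]
    have e1 : ∑ d ∈ Dd, ((Y d v).card : ℝ) ^ 2 ≤ κ * NN Y Dd v := by
      unfold NN
      rw [Finset.mul_sum]
      refine Finset.sum_le_sum fun d hd => ?_
      rw [pow_two]
      exact mul_le_mul_of_nonneg_right (g1 d hd v hv) (Nat.cast_nonneg _)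
    have e2 : 0 ≤ ∑ d ∈ Dd, ((Y d v).card : ℝ) ^ 2 := Finset.sum_nonneg fun _ _ => sq_nonneg _
    have e3 : κ * NN Y Dd v ≤ κ * (2 * n) := mul_le_mul_of_nonneg_left (hN v hv) hκ
    exact var_arith hq e2 (e1.trans e3)
  -- the mean of the full sum
  have hA : q ^ 2 * (VV.card : ℝ) * n ^ 2 ≤
      be q Dd (fun L => be q Dd (fun R => ∑ v ∈ VV, NN Y L v * NN Y R v)) := by
    have e1 : ∀ L : Finset V, be q Dd (fun R => ∑ v ∈ VV, NN Y L v * NN Y R v) =
        ∑ v ∈ VV, q * NN Y Dd v * NN Y L v := by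
      intro L
      rw [h11 V VV (fun v R => NN Y L v * NN Y R v)]
      refine Finset.sum_congr rfl fun v _ => ?_
      rw [h10 (NN Y L v) (fun R => NN Y R v), hNN v]
      ring
    simp_rw [e1]
    rw [h11 V VV (fun v L => q * NN Y Dd v * NN Y L v)]
    have e2 : ∀ v ∈ VV, q ^ 2 * n ^ 2 ≤ be q Dd (fun L => q * NN Y Dd v * NN Y L v) := by
      intro v hv
      rw [h10 (q * NN Y Dd v) (fun L => NN Y L v), hNN v]
      exact sq_arith hn.le (g7 v hv).1
    calc q ^ 2 * (VV.card : ℝ) * n ^ 2 = ∑ _v ∈ VV, q ^ 2 * n ^ 2 := by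
          rw [Finset.sum_const, nsmul_eq_mul]; ring
      _ ≤ _ := Finset.sum_le_sum e2
  -- the mean of the lost part
  have hS : be q Dd (fun L => be q Dd (fun R => ∑ d ∈ Dd,
      (if d ∈ L then FF R d (L.erase d) else 0) * cc Y VV R d)) ≤
      16 * K * b * q ^ 3 * (Dd.card : ℝ) * n + 2 * κ * q * (VV.card : ℝ) * n := by
    rw [be_comm]
    have e1 : ∀ R : Finset V, be q Dd (fun L => ∑ d ∈ Dd,
        (if d ∈ L then FF R d (L.erase d) else 0) * cc Y VV R d) ≤
        q * be q Dd (fun L => ∑ d ∈ Dd, FF R d L * cc Y VV R d) := by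
      intro R
      rw [h11 V Dd (fun d L => (if d ∈ L then FF R d (L.erase d) else 0) * cc Y VV R d),
        h11 V Dd (fun d L => FF R d L * cc Y VV R d), Finset.mul_sum]
      refine Finset.sum_le_sum fun d hd => ?_
      have e2 : be q Dd (fun L => (if d ∈ L then FF R d (L.erase d) else 0) * cc Y VV R d) =
          cc Y VV R d * (q * be q Dd (fun L => FF R d (L.erase d))) := by
        rw [← h7 d hd (FF R d), ← h10]
        congr 1
        funext L
        ring
      have e3 : be q Dd (fun L => FF R d L * cc Y VV R d) =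
          cc Y VV R d * be q Dd (fun L => FF R d L) := by
        rw [← h10]
        congr 1
        funext L
        ring
      have e4 : be q Dd (fun L => FF R d (L.erase d)) ≤ be q Dd (fun L => FF R d L) :=
        h8 _ _ fun L _ => FF_mono R d (Finset.erase_subset d L)
      rw [e2, e3]
      have e5 := mul_le_mul_of_nonneg_left (mul_le_mul_of_nonneg_left e4 hq.le)
        (cc_nonneg Y VV R d)
      calc _ ≤ _ := e5
        _ = _ := by ring
    have e6 : ∀ R : Finset V, q * be q Dd (fun L => ∑ d ∈ Dd, FF R d L * cc Y VV R d) ≤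
        q * (8 * K * b * q * n * (q * (Dd.card : ℝ)) + (8 * K * b * q * n * (R.card : ℝ) +
          ∑ v ∈ VV, 1 / q * (NN Y R v - q * NN Y Dd v) ^ 2)) := by
      intro R
      apply mul_le_mul_of_nonneg_left _ hq.le
      refine (h8 _ _ fun L _ => point Dd VV Y b K n q hb hn hq g5 hN hX hK L R).trans ?_
      rw [h9 (fun L => 8 * K * b * q * n * (L.card : ℝ)) (fun _ => _), hconst,
        h10 (8 * K * b * q * n) (fun L => (L.card : ℝ)), hcard]
    have e7 : be q Dd (fun R => q * (8 * K * b * q * n * (q * (Dd.card : ℝ)) +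
        (8 * K * b * q * n * (R.card : ℝ) +
          ∑ v ∈ VV, 1 / q * (NN Y R v - q * NN Y Dd v) ^ 2))) ≤
        16 * K * b * q ^ 3 * (Dd.card : ℝ) * n + 2 * κ * q * (VV.card : ℝ) * n := by
      rw [h10 q, h9 (fun _ => 8 * K * b * q * n * (q * (Dd.card : ℝ))), hconst,
        h9 (fun R => 8 * K * b * q * n * (R.card : ℝ)),
        h10 (8 * K * b * q * n) (fun L => (L.card : ℝ)), hcard,
        h11 V VV (fun v R => 1 / q * (NN Y R v - q * NN Y Dd v) ^ 2)]
      have e8 : ∑ v ∈ VV, be q Dd (fun R => 1 / q * (NN Y R v - q * NN Y Dd v) ^ 2) ≤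
          (VV.card : ℝ) * (2 * κ * n) := by
        calc _ ≤ ∑ _v ∈ VV, 2 * κ * n := Finset.sum_le_sum hvar
          _ = _ := by rw [Finset.sum_const, nsmul_eq_mul]
      have e9 := mul_le_mul_of_nonneg_left e8 hq.le
      calc _ = 16 * K * b * q ^ 3 * (Dd.card : ℝ) * n + q *
            ∑ v ∈ VV, be q Dd (fun R => 1 / q * (NN Y R v - q * NN Y Dd v) ^ 2) := by ring
        _ ≤ 16 * K * b * q ^ 3 * (Dd.card : ℝ) * n + q * ((VV.card : ℝ) * (2 * κ * n)) := by
            linarith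
        _ = _ := by ring
    exact (h8 _ _ fun R _ => (e1 R).trans (e6 R)).trans e7
  -- the decomposition
  have hdec : be q Dd (fun L => be q Dd (fun R => ∑ v ∈ VV, NN Y L v * NN Y R v)) =
      be q Dd (fun L => be q Dd (fun R => ∑ v ∈ VV, NN Y (Li L R) v * NN Y R v)) +
      be q Dd (fun L => be q Dd (fun R => ∑ d ∈ Dd,
        (if d ∈ L then FF R d (L.erase d) else 0) * cc Y VV R d)) := by
    rw [← h9]
    refine be_congr q Dd fun L hL => ?_
    rw [← h9]
    exact be_congr q Dd fun R _ => split_eq Dd VV Y L R hL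
  have hk : be q Dd (fun L => be q Dd (fun R => k1 P Y VV (Li L R) R)) =
      P ^ 2 * be q Dd (fun L => be q Dd (fun R => ∑ v ∈ VV, NN Y (Li L R) v * NN Y R v)) := by
    rw [← h10]
    refine be_congr q Dd fun L _ => ?_
    rw [← h10]
    rfl
  rw [hk]
  apply mul_le_mul_of_nonneg_left _ (sq_nonneg P)
  linarith

end Pool.Agent.XPS

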