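import Pool.Agent.XPS.Targets

set_option autoImplicit false

/-!
# MP_9f5962_lc, target MER: the merging bound and its consequences
-/

open scoped Classical

noncomputable section

namespace Pool.Agent.XPS

open Pool.Agent.LRC

namespace MER_

variable {V : Type} [AddCommGroup V] [Module (ZMod 2) V]

lemma add_self (x : V) : x + x = 0 := by
  have h : (2 : ZMod 2) • x = x + x := two_smul (ZMod 2) x
  have h2 : (2 : ZMod 2) = 0 := by decide
  rw [← h, h2, zero_smul]

lemma eq_of_add_eq_zero {x y : V} (h : x + y = 0) : y = x := by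
  have h1 : x + y = x + x := by rw [h, add_self]
  exact add_left_cancel h1

lemma add_mem_iff_mkQ (W : Submodule (ZMod 2) V) (x y : V) :
    x + y ∈ W ↔ W.mkQ x = W.mkQ y := by
  have hsub : x - y = x + y := by
    have h : x + y - (x - y) = y + y := by abel
    rw [add_self] at h
    exact (sub_eq_zero.mp h).symm
  rw [Submodule.mkQ_apply, Submodule.mkQ_apply, Submodule.Quotient.eq, hsub]

lemma Mg_bot (S : Finset V) : Mg S (⊥ : Submodule (ZMod 2) V) = ∅ := by
  unfold Mg
  rw [Finset.filter_eq_empty_iff]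
  rintro x - ⟨y, -, hyx, hxy⟩
  exact hyx (eq_of_add_eq_zero ((Submodule.mem_bot (ZMod 2)).mp hxy))

lemma card_Mg_le (S : Finset V) (W : Submodule (ZMod 2) V) :
    (Mg S W).card + 2 * nq S W ≤ 2 * S.card := by
  set I := S.image (fun x => W.mkQ x) with hI
  have hS : S.card = ∑ q ∈ I, (S.filter (fun x => W.mkQ x = q)).card :=
    Finset.card_eq_sum_card_image (fun x => W.mkQ x) S
  have hM : (Mg S W).card = ∑ q ∈ I, ((Mg S W).filter (fun x => W.mkQ x = q)).card := by
    apply Finset.card_eq_sum_card_fiberwise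
    intro x hx
    have hxS : x ∈ S := (Finset.mem_filter.mp hx).1
    exact Finset.mem_coe.mpr (Finset.mem_image_of_mem _ hxS)
  have hN : nq S W = ∑ q ∈ I, 1 := by
    rw [Finset.sum_const, smul_eq_mul, mul_one]
    rfl
  rw [hS, hM, hN, Finset.mul_sum, Finset.mul_sum, ← Finset.sum_add_distrib]
  apply Finset.sum_le_sum
  intro q hq
  obtain ⟨x₀, hx₀S, hx₀⟩ := Finset.mem_image.mp hq
  have hx₀F : x₀ ∈ S.filter (fun x => W.mkQ x = q) := Finset.mem_filter.mpr ⟨hx₀S, hx₀⟩
  have hsub : (Mg S W).filter (fun x => W.mkQ x = q) ⊆ S.filter (fun x => W.mkQ x = q) := by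
    intro x hx
    rw [Finset.mem_filter] at hx ⊢
    exact ⟨(Finset.mem_filter.mp hx.1).1, hx.2⟩
  have hle := Finset.card_le_card hsub
  have hpos : 0 < (S.filter (fun x => W.mkQ x = q)).card := Finset.card_pos.mpr ⟨x₀, hx₀F⟩
  by_cases h1 : (S.filter (fun x => W.mkQ x = q)).card = 1
  · have hemp : (Mg S W).filter (fun x => W.mkQ x = q) = ∅ := by
      rw [Finset.filter_eq_empty_iff]
      intro x hx hxq
      obtain ⟨hxS, y, hyS, hyx, hxy⟩ := Finset.mem_filter.mp hx
      have hyq : W.mkQ y = q := by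
        rw [← hxq]
        exact ((add_mem_iff_mkQ W x y).mp hxy).symm
      obtain ⟨z, hz⟩ := Finset.card_eq_one.mp h1
      have hx1 : x ∈ S.filter (fun x => W.mkQ x = q) := Finset.mem_filter.mpr ⟨hxS, hxq⟩
      have hy1 : y ∈ S.filter (fun x => W.mkQ x = q) := Finset.mem_filter.mpr ⟨hyS, hyq⟩
      rw [hz, Finset.mem_singleton] at hx1 hy1
      exact hyx (hy1.trans hx1.symm)
    rw [hemp, h1, Finset.card_empty]
    omega
  · omega

end MER_

open MER_ in
theorem p_MER : T_MER := by
  intro V _ _ _ S K hK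
  refine ⟨?_, ?_⟩
  · intro h W
    by_cases hW : W = ⊥
    · subst hW
      rw [Mg_bot, Finset.card_empty]
      simp
    · have h1 := h W hW
      have h2 := card_Mg_le S W
      have h3 : ((Mg S W).card : ℝ) + 2 * (nq S W : ℝ) ≤ 2 * (S.card : ℝ) := by exact_mod_cast h2
      have h4 : 2 * K * (Module.finrank (ZMod 2) W : ℝ)
          = 2 * (K * (Module.finrank (ZMod 2) W : ℝ)) := by ring
      rw [h4]
      linarith
  · intro hMB
    refine ⟨?_, ?_⟩
    · intro g hg
      have h1 := hMB (Submodule.span (ZMod 2) {g})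
      rw [finrank_span_singleton hg] at h1
      have h2 : S.filter (fun x => x + g ∈ S) ⊆ Mg S (Submodule.span (ZMod 2) {g}) := by
        intro x hx
        obtain ⟨hxS, hxg⟩ := Finset.mem_filter.mp hx
        refine Finset.mem_filter.mpr ⟨hxS, x + g, hxg, ?_, ?_⟩
        · intro h
          exact hg (by simpa using h)
        · have h : x + (x + g) = g := by rw [← add_assoc, add_self, zero_add]
          rw [h]
          exact Submodule.mem_span_singleton_self g
      have h3 : (rr S g : ℝ) ≤ ((Mg S (Submodule.span (ZMod 2) {g})).card : ℝ) := by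
        exact_mod_cast Finset.card_le_card h2
      simpa using h3.trans h1
    · intro h0 X
      have h1 := hMB (Submodule.span (ZMod 2) (X : Set V))
      have h2 : S.filter (fun v => v ≠ 0 ∧ v ∈ Submodule.span (ZMod 2) (X : Set V)) ⊆
          Mg S (Submodule.span (ZMod 2) (X : Set V)) := by
        intro x hx
        obtain ⟨hxS, hx0, hxX⟩ := Finset.mem_filter.mp hx
        refine Finset.mem_filter.mpr ⟨hxS, 0, h0, fun h => hx0 h.symm, ?_⟩
        rwa [add_zero]
      have h3 : ((S.filter (fun v => v ≠ 0 ∧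
          v ∈ Submodule.span (ZMod 2) (X : Set V))).card : ℝ) ≤
          ((Mg S (Submodule.span (ZMod 2) (X : Set V))).card : ℝ) := by
        exact_mod_cast Finset.card_le_card h2
      have h4 : Module.finrank (ZMod 2) (Submodule.span (ZMod 2) (X : Set V)) ≤ X.card :=
        finrank_span_finset_le_card X
      have h5 : (Module.finrank (ZMod 2) (Submodule.span (ZMod 2) (X : Set V)) : ℝ) ≤
          (X.card : ℝ) := by exact_mod_cast h4
      have h6 : 0 ≤ 2 * K := by positivity
      exact (h3.trans h1).trans (mul_le_mul_of_nonneg_left h5 h6)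

end Pool.Agent.XPS
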