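import Pool.Agent.XPS.Targets

set_option autoImplicit false

/-!
# XPS: MOM, moments for random tuples
-/

open scoped Classical

noncomputable section

namespace Pool.Agent.XPS

namespace MOM_

variable {X : Type} [Fintype X]

lemma prodSum {l : ℕ} (F : Fin l → X → ℝ) :
    ∑ A : Fin l → X, ∏ i, F i (A i) = ∏ i, ∑ x, F i x := by
  rw [Finset.prod_univ_sum, Fintype.piFinset_univ]

lemma one {l : ℕ} (hn : (Fintype.card X : ℝ) ≠ 0) (f : X → ℝ) (a : Fin l) :
    ∑ A : Fin l → X, f (A a) =
      (Fintype.card X : ℝ) ^ l * ((∑ x, f x) / (Fintype.card X : ℝ)) := by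
  have e1 : ∀ A : Fin l → X, f (A a) = ∏ i, (if i = a then f (A i) else 1) := by
    intro A
    rw [Finset.prod_ite_eq' Finset.univ a (fun i => f (A i))]
    simp
  rw [Finset.sum_congr rfl fun A _ => e1 A]
  rw [prodSum (fun i x => if i = a then f x else 1)]
  have e2 : ∀ i : Fin l, (∑ x, if i = a then f x else 1) =
      (Fintype.card X : ℝ) * (if i = a then (∑ x, f x) / (Fintype.card X : ℝ) else 1) := by
    intro i
    by_cases h : i = a
    · simp only [h, if_true]
      field_simp
    · simp only [h, if_false]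
      simp
  rw [Finset.prod_congr rfl fun i _ => e2 i, Finset.prod_mul_distrib, Finset.prod_const,
    Finset.prod_ite_eq' Finset.univ a (fun _ => (∑ x, f x) / (Fintype.card X : ℝ))]
  simp

lemma two {l : ℕ} (hn : (Fintype.card X : ℝ) ≠ 0) (f g : X → ℝ) (a b : Fin l) (hab : a ≠ b) :
    ∑ A : Fin l → X, f (A a) * g (A b) =
      (Fintype.card X : ℝ) ^ l * ((∑ x, f x) / (Fintype.card X : ℝ) *
        ((∑ x, g x) / (Fintype.card X : ℝ))) := by
  have e1 : ∀ A : Fin l → X, f (A a) * g (A b) =
      ∏ i, ((if i = a then f (A i) else 1) * (if i = b then g (A i) else 1)) := by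
    intro A
    rw [Finset.prod_mul_distrib, Finset.prod_ite_eq' Finset.univ a (fun i => f (A i)),
      Finset.prod_ite_eq' Finset.univ b (fun i => g (A i))]
    simp
  rw [Finset.sum_congr rfl fun A _ => e1 A]
  rw [prodSum (fun i x => (if i = a then f x else 1) * (if i = b then g x else 1))]
  have e2 : ∀ i : Fin l, (∑ x, (if i = a then f x else 1) * (if i = b then g x else 1)) =
      (Fintype.card X : ℝ) * ((if i = a then (∑ x, f x) / (Fintype.card X : ℝ) else 1) *
        (if i = b then (∑ x, g x) / (Fintype.card X : ℝ) else 1)) := by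
    intro i
    by_cases h : i = a
    · have h' : i ≠ b := fun h2 => hab (h.symm.trans h2)
      simp only [h, if_true]
      have h'' : a ≠ b := hab
      simp only [h'', if_false, mul_one]
      field_simp
    · simp only [h, if_false, one_mul]
      by_cases h' : i = b
      · simp only [h', if_true]
        field_simp
      · simp only [h', if_false]
        simp
  rw [Finset.prod_congr rfl fun i _ => e2 i, Finset.prod_mul_distrib, Finset.prod_const,
    Finset.prod_mul_distrib,
    Finset.prod_ite_eq' Finset.univ a (fun _ => (∑ x, f x) / (Fintype.card X : ℝ)),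
    Finset.prod_ite_eq' Finset.univ b (fun _ => (∑ x, g x) / (Fintype.card X : ℝ))]
  simp

end MOM_

open MOM_

theorem p_MOM : T_MOM := by
  intro V T l Y₁ Y₂ hT h1 h2
  have hcard : Fintype.card {x // x ∈ T} = T.card := Fintype.card_coe T
  have hn : (T.card : ℝ) ≠ 0 := by
    have := Finset.card_pos.mpr hT
    positivity
  have hn' : (Fintype.card {x // x ∈ T} : ℝ) ≠ 0 := by rw [hcard]; exact hn
  have hY : ∀ Y : Finset V, Y ⊆ T →
      (∑ x : {x // x ∈ T}, if (x : V) ∈ Y then (1 : ℝ) else 0) = (Y.card : ℝ) := by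
    intro Y hYT
    rw [Finset.sum_coe_sort T (fun x => if x ∈ Y then (1 : ℝ) else 0), Finset.sum_ite_mem,
      Finset.inter_eq_right.mpr hYT]
    simp
  have hc : ∀ (Y : Finset V) (A : Fin l → {x // x ∈ T}),
      ((Finset.univ.filter (fun a => (A a : V) ∈ Y)).card : ℝ) =
        ∑ a, if (A a : V) ∈ Y then (1 : ℝ) else 0 := by
    intro Y A
    rw [Finset.card_filter]
    push_cast
    rfl
  have o1 : ∀ (Y : Finset V), Y ⊆ T → ∀ a : Fin l,
      (∑ A : Fin l → {x // x ∈ T}, if (A a : V) ∈ Y then (1 : ℝ) else 0) =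
        (T.card : ℝ) ^ l * ((Y.card : ℝ) / (T.card : ℝ)) := by
    intro Y hYT a
    have := one hn' (fun x : {x // x ∈ T} => if (x : V) ∈ Y then (1 : ℝ) else 0) a
    rw [this, hY Y hYT, hcard]
  constructor
  · rw [Finset.sum_congr rfl fun A _ => hc Y₁ A, Finset.sum_comm,
      Finset.sum_congr rfl fun a _ => o1 Y₁ h1 a, Finset.sum_const, Finset.card_univ,
      Fintype.card_fin, nsmul_eq_mul]
    ring
  · rw [Finset.sum_congr rfl fun A _ => by rw [hc Y₁ A, hc Y₂ A, Finset.sum_mul_sum],
      Finset.sum_comm]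
    have key : ∀ a : Fin l, (∑ A : Fin l → {x // x ∈ T}, ∑ b : Fin l,
        (if (A a : V) ∈ Y₁ then (1 : ℝ) else 0) * (if (A b : V) ∈ Y₂ then (1 : ℝ) else 0)) ≤
        (T.card : ℝ) ^ l * ((l : ℝ) * ((Y₁.card : ℝ) / (T.card : ℝ) *
          ((Y₂.card : ℝ) / (T.card : ℝ))) + ((Y₁ ∩ Y₂).card : ℝ) / (T.card : ℝ)) := by
      intro a
      rw [Finset.sum_comm]
      have k1 : ∀ b : Fin l, (∑ A : Fin l → {x // x ∈ T},
          (if (A a : V) ∈ Y₁ then (1 : ℝ) else 0) * (if (A b : V) ∈ Y₂ then (1 : ℝ) else 0)) ≤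
          (T.card : ℝ) ^ l * ((Y₁.card : ℝ) / (T.card : ℝ) * ((Y₂.card : ℝ) / (T.card : ℝ))) +
          (if a = b then (T.card : ℝ) ^ l * (((Y₁ ∩ Y₂).card : ℝ) / (T.card : ℝ)) else 0) := by
        intro b
        by_cases hab : a = b
        · subst hab
          rw [if_pos rfl]
          have e : ∀ A : Fin l → {x // x ∈ T},
              (if (A a : V) ∈ Y₁ then (1 : ℝ) else 0) * (if (A a : V) ∈ Y₂ then (1 : ℝ) else 0) =
              if (A a : V) ∈ Y₁ ∩ Y₂ then (1 : ℝ) else 0 := by
            intro A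
            by_cases p1 : (A a : V) ∈ Y₁ <;> by_cases p2 : (A a : V) ∈ Y₂ <;>
              simp [p1, p2]
          rw [Finset.sum_congr rfl fun A _ => e A,
            o1 (Y₁ ∩ Y₂) (Finset.inter_subset_left.trans h1) a]
          have : 0 ≤ (T.card : ℝ) ^ l * ((Y₁.card : ℝ) / (T.card : ℝ) *
            ((Y₂.card : ℝ) / (T.card : ℝ))) := by positivity
          linarith
        · rw [if_neg hab, add_zero]
          have := two hn' (fun x : {x // x ∈ T} => if (x : V) ∈ Y₁ then (1 : ℝ) else 0)
            (fun x : {x // x ∈ T} => if (x : V) ∈ Y₂ then (1 : ℝ) else 0) a b hab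
          rw [hY Y₁ h1, hY Y₂ h2, hcard] at this
          exact this.le
      refine (Finset.sum_le_sum fun b _ => k1 b).trans ?_
      rw [Finset.sum_add_distrib, Finset.sum_const, Finset.card_univ, Fintype.card_fin,
        nsmul_eq_mul, Finset.sum_ite_eq]
      simp only [Finset.mem_univ, if_true]
      apply le_of_eq
      ring
    refine (Finset.sum_le_sum fun a _ => key a).trans ?_
    rw [Finset.sum_const, Finset.card_univ, Fintype.card_fin, nsmul_eq_mul]
    apply le_of_eq
    unfold M2
    ring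

end Pool.Agent.XPS
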