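import Pool.Agent.XPS.Pw

set_option autoImplicit false

/-!
# XPS, job NOS: there are no stuck states
-/

open scoped Classical

noncomputable section

namespace Pool.Agent.XPS

open Pool.Agent.LRC

namespace NOS_

/-- The final contradiction: `u = s d ^ 2`, `v = s 0 ^ 2`. -/
private theorem final (Q a b x S₁ S₂ : ℝ) (hQ : 1000 ≤ Q) (ha : a ≠ 0)
    (hab : a ^ 2 * Q ≤ 1) (hx : |S₁ - S₂| ≤ |a| / Q)
    (h2 : S₂ = (-2 + 6 * b ^ 2) * a + 2 * a ^ 3) (h1 : S₁ = -6 * x)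
    (hE : (|b| * Q ≤ 1 ∧ |x| ≤ |a| / Q) ∨ |x + 2 * b ^ 2 * a| ≤ |a| / Q) : False := by
  have hQ0 : 0 < Q := by linarith
  have ha0 : 0 < |a| := abs_pos.mpr ha
  have hq : 1 / Q ≤ 1 / 1000 := by
    apply one_div_le_one_div_of_le <;> linarith
  have hq0 : 0 < 1 / Q := by positivity
  have ha2 : a ^ 2 ≤ 1 / Q := by
    rw [le_div_iff₀ hQ0]; exact hab
  have hd : |a| / Q = |a| * (1 / Q) := by ring
  rcases hE with ⟨hb, hx1⟩ | hx1
  · have hb2 : b ^ 2 ≤ 1 / Q := by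
      have h3 : |b| ≤ 1 / Q := by rw [le_div_iff₀ hQ0]; exact hb
      have h4 : |b| ^ 2 ≤ (1 / Q) ^ 2 := by
        apply pow_le_pow_left₀ (abs_nonneg _) h3
      rw [sq_abs] at h4
      nlinarith
    -- |(-2 + 6 b^2 + 2 a^2) a| ≤ 7 |a| / Q
    have h5 : |(2 - 6 * b ^ 2 - 2 * a ^ 2) * a| ≤ 7 * (|a| * (1 / Q)) := by
      have h6 : (2 - 6 * b ^ 2 - 2 * a ^ 2) * a = (S₁ - S₂) + 6 * x := by
        rw [h1, h2]; ring
      rw [h6]
      calc |(S₁ - S₂) + 6 * x| ≤ |S₁ - S₂| + |6 * x| := abs_add_le _ _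
        _ = |S₁ - S₂| + 6 * |x| := by rw [abs_mul, abs_of_pos (by norm_num : (0 : ℝ) < 6)]
        _ ≤ |a| * (1 / Q) + 6 * (|a| * (1 / Q)) := by rw [← hd]; gcongr
        _ = 7 * (|a| * (1 / Q)) := by ring
    rw [abs_mul] at h5
    have h7 : (1 : ℝ) ≤ |2 - 6 * b ^ 2 - 2 * a ^ 2| := by
      apply le_trans _ (le_abs_self _)
      nlinarith
    have h8 : |a| ≤ |2 - 6 * b ^ 2 - 2 * a ^ 2| * |a| := by nlinarith
    have h9 : 7 * (|a| * (1 / Q)) ≤ 7 * (|a| * (1 / 1000)) := by gcongr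
    linarith
  · have h5 : |(2 + 6 * b ^ 2 - 2 * a ^ 2) * a| ≤ 7 * (|a| * (1 / Q)) := by
      have h6 : (2 + 6 * b ^ 2 - 2 * a ^ 2) * a = (S₁ - S₂) + 6 * (x + 2 * b ^ 2 * a) := by
        rw [h1, h2]; ring
      rw [h6]
      calc |(S₁ - S₂) + 6 * (x + 2 * b ^ 2 * a)| ≤ |S₁ - S₂| + |6 * (x + 2 * b ^ 2 * a)| :=
            abs_add_le _ _
        _ = |S₁ - S₂| + 6 * |x + 2 * b ^ 2 * a| := by
            rw [abs_mul, abs_of_pos (by norm_num : (0 : ℝ) < 6)]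
        _ ≤ |a| * (1 / Q) + 6 * (|a| * (1 / Q)) := by rw [← hd]; gcongr
        _ = 7 * (|a| * (1 / Q)) := by ring
    rw [abs_mul] at h5
    have h7 : (1 : ℝ) ≤ |2 + 6 * b ^ 2 - 2 * a ^ 2| := by
      apply le_trans _ (le_abs_self _)
      nlinarith [sq_nonneg b]
    have h8 : |a| ≤ |2 + 6 * b ^ 2 - 2 * a ^ 2| * |a| := by nlinarith
    have h9 : 7 * (|a| * (1 / Q)) ≤ 7 * (|a| * (1 / 1000)) := by gcongr
    linarith

end NOS_

theorem p_NOS (hDRV : T_DRV) (hBAS : T_BAS) (hHUB : T_HUB) (hREG : T_REG) (hLIT : T_LIT)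
    (hLCT : T_LCT) (hTWO : T_TWO) (hEXC : T_EXC) (hEVA : T_EVA) (hIDN : T_IDN) : T_NOS := by
  obtain ⟨q1, -, hDRV⟩ := hDRV
  obtain ⟨q2, -, hREG⟩ := hREG
  obtain ⟨q3, -, hLIT⟩ := hLIT
  obtain ⟨q4, -, hTWO⟩ := hTWO
  obtain ⟨q5, -, hEXC⟩ := hEXC
  obtain ⟨q6, -, hEVA⟩ := hEVA
  refine ⟨max 1000 (max q1 (max q2 (max q3 (max q4 (max q5 q6))))),
    le_trans (by norm_num) (le_max_left _ _), ?_⟩
  intro Q hQ V _ _ _ s hS
  simp only [max_le_iff] at hQ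
  obtain ⟨hQ0, hQ1, hQ2, hQ3, hQ4, hQ5, hQ6⟩ := hQ
  have hQge : (1 : ℝ) ≤ Q := by linarith
  have hQpos : (0 : ℝ) < Q := by linarith
  obtain ⟨dMB, -, det1, -, -, dcard, dGm, -, -⟩ := hDRV Q hQ1 V s hS
  have hS' := hS
  obtain ⟨hBl, hs0, het, hcard, hsmall, -⟩ := hS'
  obtain ⟨bPar, bAut, -, bTri, -⟩ := hBAS V s hBl
  obtain ⟨hub1, hub2⟩ := hHUB V (Sp s) Q (by linarith) hcard dMB
  obtain ⟨T, hT⟩ : ∃ T, T = Lv Q 13022 s := ⟨_, rfl⟩
  obtain ⟨Hu, hHu⟩ : ∃ Hu, Hu = Hb (Sp s) (Q ^ 26074) := ⟨_, rfl⟩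
  have hREG' := hREG Q hQ2 V s hS T Hu hT hHu
  have hLIT' := hLIT Q hQ3 V s hS T Hu hT hHu
  -- the inclusions
  have hLT : ∀ d ∈ Lv Q 13001 s, d ∈ T := by
    intro d hd
    rw [hT]
    simp only [Lv, Finset.mem_filter, Finset.mem_univ, true_and] at hd ⊢
    refine ⟨hd.1, hd.2.trans ?_⟩
    have h1 : Q ^ 13001 ≤ Q ^ 13022 := pw_mono Q 13001 13022 hQge (by norm_num)
    have h2 : 0 ≤ |s d| := abs_nonneg _
    exact mul_le_mul_of_nonneg_left h1 h2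
  have hTS : ∀ d ∈ T, d ∈ Sp s := by
    intro d hd
    rw [hT] at hd
    simp only [Lv, Finset.mem_filter, Finset.mem_univ, true_and] at hd
    simp only [Sp, Finset.mem_filter, Finset.mem_univ, true_and]
    intro h0
    rw [h0, abs_zero, zero_mul] at hd
    linarith [hd.2]
  -- the choice of d
  have hex : ∃ d ∈ Lv Q 13001 s, (EE (Sp s) d : ℝ) ≤ Q ^ 26016 ∧
      (hp (Sp s) Hu d : ℝ) ≤ Q ^ 25974 ∧
      ((Bad T (Q ^ 12760) (Q ^ 2500) d).card : ℝ) ≤ Q ^ 25976 ∧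
      ((Lt T Hu (Q ^ 12760) d).card : ℝ) ≤ Q ^ 25974 := by
    by_contra hcon
    push Not at hcon
    have hsub : Lv Q 13001 s ⊆ ((Sp s).filter (fun d => Q ^ 26016 < (EE (Sp s) d : ℝ))) ∪
        (((Sp s).filter (fun d => Q ^ 25974 < (hp (Sp s) Hu d : ℝ))) ∪
        ((T.filter (fun d => (EE (Sp s) d : ℝ) ≤ Q ^ 26016 ∧ (hp (Sp s) Hu d : ℝ) ≤ Q ^ 25974 ∧
          Q ^ 25976 < ((Bad T (Q ^ 12760) (Q ^ 2500) d).card : ℝ))) ∪
        (T.filter (fun d => (EE (Sp s) d : ℝ) ≤ Q ^ 26016 ∧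
          Q ^ 25974 < ((Lt T Hu (Q ^ 12760) d).card : ℝ))))) := by
      intro d hd
      have hdT := hLT d hd
      have hdS := hTS d hdT
      simp only [Finset.mem_union, Finset.mem_filter]
      by_cases c1 : (EE (Sp s) d : ℝ) ≤ Q ^ 26016
      · by_cases c2 : (hp (Sp s) Hu d : ℝ) ≤ Q ^ 25974
        · by_cases c3 : ((Bad T (Q ^ 12760) (Q ^ 2500) d).card : ℝ) ≤ Q ^ 25976
          · right; right; right
            exact ⟨hdT, c1, hcon d hd c1 c2 c3⟩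
          · right; right; left
            exact ⟨hdT, c1, c2, lt_of_not_ge c3⟩
        · right; left
          exact ⟨hdS, lt_of_not_ge c2⟩
      · left
        exact ⟨hdS, lt_of_not_ge c1⟩
    rw [← hHu] at hub2
    have h1 := Finset.card_le_card hsub
    have h2 : ((Lv Q 13001 s).card : ℝ) ≤
        (((Sp s).filter (fun d => Q ^ 26016 < (EE (Sp s) d : ℝ))).card : ℝ) +
        ((((Sp s).filter (fun d => Q ^ 25974 < (hp (Sp s) Hu d : ℝ))).card : ℝ) +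
        (((T.filter (fun d => (EE (Sp s) d : ℝ) ≤ Q ^ 26016 ∧ (hp (Sp s) Hu d : ℝ) ≤ Q ^ 25974 ∧
          Q ^ 25976 < ((Bad T (Q ^ 12760) (Q ^ 2500) d).card : ℝ))).card : ℝ) +
        ((T.filter (fun d => (EE (Sp s) d : ℝ) ≤ Q ^ 26016 ∧
          Q ^ 25974 < ((Lt T Hu (Q ^ 12760) d).card : ℝ))).card : ℝ))) := by
      refine le_trans (Nat.cast_le.mpr h1) ?_
      refine le_trans (Nat.cast_le.mpr (Finset.card_union_le _ _)) ?_
      rw [Nat.cast_add]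
      refine add_le_add_right ?_ _
      refine le_trans (Nat.cast_le.mpr (Finset.card_union_le _ _)) ?_
      rw [Nat.cast_add]
      refine add_le_add_right ?_ _
      refine le_trans (Nat.cast_le.mpr (Finset.card_union_le _ _)) ?_
      rw [Nat.cast_add]
    have m1 : Q ^ 25994 ≤ Q ^ 25995 := pw_mono Q _ _ hQge (by norm_num)
    have m2 : Q ^ 25993 ≤ Q ^ 25995 := pw_mono Q _ _ hQge (by norm_num)
    have m3 : 6 * Q ^ 25995 < Q ^ 25998 := pw_lt Q 6 25995 25998 hQge (by linarith) (by norm_num)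
    have m4 : 0 < Q ^ 25995 := by positivity
    linarith
  obtain ⟨d, hd, hEE, hhp, hBad, hLt⟩ := hex
  have hdT := hLT d hd
  have hdS := hTS d hdT
  have hd0 : d ≠ 0 := by
    simp only [Lv, Finset.mem_filter, Finset.mem_univ, true_and] at hd
    exact hd.1
  have hdl : et s ≤ |s d| * Q ^ 13001 := by
    simp only [Lv, Finset.mem_filter, Finset.mem_univ, true_and] at hd
    exact hd.2
  have hsd : s d ≠ 0 := by
    intro h0
    rw [h0, abs_zero, zero_mul] at hdl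
    linarith
  obtain ⟨G, hG⟩ : ∃ G, G = Gp T (Q ^ 12760) (Q ^ 2500) d := ⟨_, rfl⟩
  have hTSub : T ⊆ Sp s := fun x hx => hTS x hx
  -- light pairs
  have hlight : (((Bk T d).filter (fun p => (rr T (d + p.1) : ℝ) < Q ^ 12760 ∧
      (rr T (d + p.2) : ℝ) < Q ^ 12760 ∧ (rr T (p.1 + p.2) : ℝ) < Q ^ 12760)).card : ℝ) ≤
      Q ^ 25976 := by
    have h1 := hLCT V (Sp s) T Hu (Q ^ 12760) d hTSub
    have h2 : (((Bk T d).filter (fun p => (rr T (d + p.1) : ℝ) < Q ^ 12760 ∧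
      (rr T (d + p.2) : ℝ) < Q ^ 12760 ∧ (rr T (p.1 + p.2) : ℝ) < Q ^ 12760)).card : ℝ) ≤
      3 * ((Lt T Hu (Q ^ 12760) d).card : ℝ) + 3 * (hp (Sp s) Hu d : ℝ) := by
      exact_mod_cast h1
    have m3 : 6 * Q ^ 25974 ≤ Q ^ 25976 :=
      pw_le Q 6 25974 25976 hQge (by linarith) (by norm_num)
    linarith
  have htwo := hTWO Q hQ4 V s hS T G d hT hG hdT hEE
  have hexc := hEXC Q hQ5 V s hS T G d hT hG hdT hEE hBad htwo hlight
  have hGm : ((Gm T (Q ^ 12760) d).card : ℝ) ≤ 2 * Q ^ 13256 := by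
    rw [hT]
    apply dGm d _ hEE
    rw [← hT]; exact hdT
  have heva := hEVA Q hQ6 V s hS T G d hT hG hd hGm hBad
  obtain ⟨id1, id2⟩ := hIDN V s bPar bAut bTri d hd0
  have hGsub : ∀ g ∈ G, g ≠ 0 ∧ d + g ∈ T := by
    intro g hg
    rw [hG] at hg
    simp only [Gp, Gm, Finset.mem_filter, Finset.mem_univ, true_and] at hg
    exact ⟨hg.1.1, hg.1.2.2⟩
  have h0T : (0 : V) ∉ T := by
    rw [hT]
    simp [Lv]
  have h0G : (0 : V) ∉ G := fun h => (hGsub 0 h).1 rfl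
  have hdG : d ∉ G := by
    intro h
    have h1 := (hGsub d h).2
    have h2 : d + d = 0 := by
      have h3 : (2 : ZMod 2) • d = 0 := by
        have : (2 : ZMod 2) = 0 := by decide
        rw [this, zero_smul]
      rw [← two_smul (ZMod 2) d]; exact h3
    rw [h2] at h1
    exact h0T h1
  have id3 := id2 G h0G hdG
  -- the exceptional sum
  have hsum : (∑ p ∈ Om d, (nG G d p - 1) * (s p.1 * s p.2 * s (d + p.1 + p.2))) =
      (∑ p ∈ Om d, nG G d p * (s p.1 * s p.2 * s (d + p.1 + p.2))) -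
      ∑ p ∈ Om d, s p.1 * s p.2 * s (d + p.1 + p.2) := by
    rw [← Finset.sum_sub_distrib]
    apply Finset.sum_congr rfl
    intro p _
    ring
  rw [hsum] at hexc
  obtain ⟨S₁, hS1⟩ : ∃ S₁, S₁ = ∑ p ∈ Om d, nG G d p * (s p.1 * s p.2 * s (d + p.1 + p.2)) :=
    ⟨_, rfl⟩
  obtain ⟨S₂, hS2⟩ : ∃ S₂, S₂ = ∑ p ∈ Om d, s p.1 * s p.2 * s (d + p.1 + p.2) := ⟨_, rfl⟩
  rw [← hS1] at hexc id3
  rw [← hS2] at hexc id1
  have hx : |S₁ - S₂| ≤ |s d| / Q := by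
    rw [le_div_iff₀ hQpos]
    have p1 : 0 < Q ^ 13001 := by positivity
    have p2 : Q ^ 13001 * Q ≤ Q ^ 13003 := by
      have : Q ^ 13001 * Q = Q ^ 13002 := (pow_succ Q 13001).symm
      rw [this]
      exact pw_mono Q _ _ hQge (by norm_num)
    have p3 : |S₁ - S₂| * Q * Q ^ 13001 ≤ |s d| * Q ^ 13001 := by
      calc |S₁ - S₂| * Q * Q ^ 13001 = |S₁ - S₂| * (Q ^ 13001 * Q) := by
            rw [mul_assoc, mul_comm Q (Q ^ 13001)]
        _ ≤ |S₁ - S₂| * Q ^ 13003 := mul_le_mul_of_nonneg_left p2 (abs_nonneg _)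
        _ ≤ et s := hexc
        _ ≤ |s d| * Q ^ 13001 := hdl
    exact le_of_mul_le_mul_right p3 p1
  have hab : s d ^ 2 * Q ≤ 1 := by
    have p1 := hsmall d hd0
    have p2 : |s d| * Q ≤ 1 := by
      have p3 : Q ≤ Q ^ 12999 := by
        have := pw_mono Q 1 12999 hQge (by norm_num)
        rwa [pow_one] at this
      calc |s d| * Q ≤ |s d| * Q ^ 12999 := mul_le_mul_of_nonneg_left p3 (abs_nonneg _)
        _ ≤ et s := p1
        _ ≤ 1 := det1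
    have p4 : |s d| ≤ 1 := by
      have p5 : |s d| * 1 ≤ |s d| * Q := mul_le_mul_of_nonneg_left hQge (abs_nonneg _)
      linarith
    rw [← sq_abs]
    calc |s d| ^ 2 * Q = |s d| * (|s d| * Q) := by rw [sq, mul_assoc]
      _ ≤ 1 * 1 := by
        apply mul_le_mul p4 p2 _ zero_le_one
        positivity
      _ = 1 := one_mul 1
  exact NOS_.final Q (s d) (s 0) _ S₁ S₂ hQ0 hsd hab hx id1 id3 heva

end Pool.Agent.XPS
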