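import Pool.Agent.XPS.Targets
import Pool.Agent.XPS.Pw

set_option autoImplicit false

/-!
# MP_9f5962_lc: popular directions
-/

open scoped Classical

noncomputable section

namespace Pool.Agent.XPS

open Pool.Agent.LRC

namespace POP_

theorem add_self' {V : Type} [AddCommGroup V] [Module (ZMod 2) V] (g : V) : g + g = 0 := by
  have h : (2 : ZMod 2) • g = g + g := two_smul (ZMod 2) g
  rw [← h, show (2 : ZMod 2) = 0 from rfl, zero_smul]

theorem sum_rr {V : Type} [AddCommGroup V] [Module (ZMod 2) V] [Fintype V] (T : Finset V)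
    (g : V) (c : ℝ) :
    ∑ x, (if x ∈ T ∧ x + g ∈ T then c else 0) = (rr T g : ℝ) * c := by
  have h : Finset.univ.filter (fun x => x ∈ T ∧ x + g ∈ T) = T.filter (fun x => x + g ∈ T) := by
    ext x
    simp only [Finset.mem_filter, Finset.mem_univ, true_and]
  rw [← Finset.sum_filter, h, Finset.sum_const, nsmul_eq_mul]
  rfl

theorem core {V : Type} [AddCommGroup V] [Module (ZMod 2) V] [Fintype V] (s : V → ℝ) (g : V)
    (hg : g ≠ 0) (a b : ℝ) (T : Finset V) (haut : ∑ x, s x * s (x + g) = 0) (ha : 0 ≤ a)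
    (hb : 0 ≤ b) (h1 : ∀ x, x ≠ 0 → |s x| ≤ a) (h2 : ∀ x, x ≠ 0 → x ∉ T → |s x| ≤ b) :
    2 * (|s 0| * |s g|) ≤ (rr T g : ℝ) * (a * a) + (rr (Sp s) g : ℝ) * (a * b) := by
  have hgg := add_self' (V := V) g
  have hpair : ∑ x ∈ ({0, g} : Finset V), s x * s (x + g) = 2 * (s 0 * s g) := by
    rw [Finset.sum_pair (Ne.symm hg), zero_add, hgg]
    ring
  have hsplit := Finset.sum_add_sum_compl ({0, g} : Finset V) (fun x => s x * s (x + g))
  rw [haut, hpair] at hsplit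
  have habs : 2 * (|s 0| * |s g|) = |∑ x ∈ ({0, g} : Finset V)ᶜ, s x * s (x + g)| := by
    have e : ∑ x ∈ ({0, g} : Finset V)ᶜ, s x * s (x + g) = -(2 * (s 0 * s g)) := by linarith
    rw [e, abs_neg, abs_mul, abs_mul, abs_two]
  rw [habs]
  have hpt : ∀ x ∈ ({0, g} : Finset V)ᶜ, |s x * s (x + g)| ≤
      (if x ∈ T ∧ x + g ∈ T then a * a else 0) +
      (if x ∈ Sp s ∧ x + g ∈ Sp s then a * b else 0) := by
    intro x hx
    rw [Finset.mem_compl, Finset.mem_insert, Finset.mem_singleton, not_or] at hx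
    have hx2 : x + g ≠ 0 := by
      intro h
      apply hx.2
      calc x = x + g + g := by rw [add_assoc, hgg, add_zero]
        _ = g := by rw [h, zero_add]
    have haa : 0 ≤ a * a := mul_nonneg ha ha
    have hab : 0 ≤ a * b := mul_nonneg ha hb
    rw [abs_mul]
    by_cases hz : x ∈ Sp s ∧ x + g ∈ Sp s
    · rw [if_pos hz]
      by_cases hT : x ∈ T ∧ x + g ∈ T
      · rw [if_pos hT]
        have := mul_le_mul (h1 x hx.1) (h1 _ hx2) (abs_nonneg _) ha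
        linarith
      · rw [if_neg hT, zero_add]
        by_cases hxT : x ∈ T
        · have hxT2 : x + g ∉ T := fun h => hT ⟨hxT, h⟩
          exact mul_le_mul (h1 x hx.1) (h2 _ hx2 hxT2) (abs_nonneg _) ha
        · have := mul_le_mul (h2 x hx.1 hxT) (h1 _ hx2) (abs_nonneg _) hb
          linarith
    · rw [if_neg hz, add_zero]
      have h0 : |s x| * |s (x + g)| = 0 := by
        by_contra hne
        apply hz
        unfold Sp
        rw [Finset.mem_filter, Finset.mem_filter]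
        refine ⟨⟨Finset.mem_univ _, fun h => hne ?_⟩, ⟨Finset.mem_univ _, fun h => hne ?_⟩⟩
        · rw [h, abs_zero, zero_mul]
        · rw [h, abs_zero, mul_zero]
      rw [h0]
      split_ifs
      · exact haa
      · exact le_refl _
  calc |∑ x ∈ ({0, g} : Finset V)ᶜ, s x * s (x + g)|
      ≤ ∑ x ∈ ({0, g} : Finset V)ᶜ, |s x * s (x + g)| := Finset.abs_sum_le_sum_abs _ _
    _ ≤ ∑ x ∈ ({0, g} : Finset V)ᶜ, ((if x ∈ T ∧ x + g ∈ T then a * a else 0) +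
        (if x ∈ Sp s ∧ x + g ∈ Sp s then a * b else 0)) := Finset.sum_le_sum hpt
    _ ≤ ∑ x, ((if x ∈ T ∧ x + g ∈ T then a * a else 0) +
        (if x ∈ Sp s ∧ x + g ∈ Sp s then a * b else 0)) := by
        apply Finset.sum_le_sum_of_subset_of_nonneg (Finset.subset_univ _)
        intro x _ _
        have haa : 0 ≤ a * a := mul_nonneg ha ha
        have hab : 0 ≤ a * b := mul_nonneg ha hb
        split_ifs <;> linarith
    _ = (rr T g : ℝ) * (a * a) + (rr (Sp s) g : ℝ) * (a * b) := by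
        rw [Finset.sum_add_distrib, sum_rr, sum_rr]

/-- The numerical part. -/
theorem num (Q η r R s0 sg : ℝ) (hQ : 2 ≤ Q) (hη : 0 < η) (hη1 : η ≤ 1)
    (hs0 : 1 ≤ s0 * Q ^ 6) (hsg : η ≤ sg * Q ^ 13011) (hR : R ≤ 2 * Q ^ 13001)
    (h : 2 * (s0 * sg) ≤ r * (η / Q ^ 12999 * (η / Q ^ 12999)) +
      R * (η / Q ^ 12999 * (η / Q ^ 13022))) (hr : 0 ≤ r) :
    Q ^ 12981 ≤ r := by
  have hQ1 : 1 ≤ Q := by linarith
  have hQ0 : 0 < Q := by linarith
  have p1 : ∀ n : ℕ, 0 < Q ^ n := fun n => pow_pos hQ0 n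
  have e0 : Q ^ 25998 = Q ^ 12999 * Q ^ 12999 := by rw [← pow_add]
  have e1 : (Q ^ 6 * Q ^ 13011) * Q ^ 12981 = Q ^ 25998 := by rw [← pow_add, ← pow_add]
  have k1 : η / Q ^ 12999 * (η / Q ^ 12999) * Q ^ 25998 = η * η := by
    rw [e0]
    have := (p1 12999).ne'
    field_simp
  have k2 : η / Q ^ 12999 * (η / Q ^ 13022) * Q ^ 25998 * Q ^ 23 = η * η := by
    have e2 : Q ^ 13022 = Q ^ 12999 * Q ^ 23 := by rw [← pow_add]
    rw [e0, e2]
    have := (p1 12999).ne'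
    have := (p1 23).ne'
    field_simp
  have hlow : η ≤ s0 * sg * (Q ^ 6 * Q ^ 13011) := by
    have a1 : 0 ≤ sg * Q ^ 13011 := hη.le.trans hsg
    calc η ≤ sg * Q ^ 13011 := hsg
      _ = 1 * (sg * Q ^ 13011) := by rw [one_mul]
      _ ≤ s0 * Q ^ 6 * (sg * Q ^ 13011) := mul_le_mul_of_nonneg_right hs0 a1
      _ = s0 * sg * (Q ^ 6 * Q ^ 13011) := by ring
  have hlow2 : η * Q ^ 12981 ≤ s0 * sg * Q ^ 25998 := by
    calc η * Q ^ 12981 ≤ s0 * sg * (Q ^ 6 * Q ^ 13011) * Q ^ 12981 :=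
          mul_le_mul_of_nonneg_right hlow (p1 _).le
      _ = s0 * sg * ((Q ^ 6 * Q ^ 13011) * Q ^ 12981) := by ring
      _ = s0 * sg * Q ^ 25998 := by rw [e1]
  have hup : 2 * (s0 * sg) * Q ^ 25998 * Q ^ 23 ≤ r * (η * η) * Q ^ 23 + R * (η * η) := by
    have := mul_le_mul_of_nonneg_right h (mul_pos (p1 25998) (p1 23)).le
    calc 2 * (s0 * sg) * Q ^ 25998 * Q ^ 23 = 2 * (s0 * sg) * (Q ^ 25998 * Q ^ 23) := by ring
      _ ≤ _ := this
      _ = r * (η / Q ^ 12999 * (η / Q ^ 12999) * Q ^ 25998) * Q ^ 23 +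
          R * (η / Q ^ 12999 * (η / Q ^ 13022) * Q ^ 25998 * Q ^ 23) := by ring
      _ = _ := by rw [k1, k2]
  have hηη : η * η ≤ η := by nlinarith
  have hfin : 2 * Q ^ 12981 * Q ^ 23 ≤ r * Q ^ 23 + 2 * Q ^ 13001 := by
    have b1 : 2 * (η * Q ^ 12981) * Q ^ 23 ≤ 2 * (s0 * sg) * Q ^ 25998 * Q ^ 23 := by
      have := mul_le_mul_of_nonneg_right hlow2 (p1 23).le
      linarith
    have b2 : r * (η * η) * Q ^ 23 ≤ r * η * Q ^ 23 :=
      mul_le_mul_of_nonneg_right (mul_le_mul_of_nonneg_left hηη hr) (p1 23).le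
    have b3 : R * (η * η) ≤ 2 * Q ^ 13001 * η :=
      mul_le_mul hR hηη (mul_nonneg hη.le hη.le) (mul_nonneg zero_le_two (p1 _).le)
    have b4 : (2 * Q ^ 12981 * Q ^ 23) * η ≤ (r * Q ^ 23 + 2 * Q ^ 13001) * η := by
      calc (2 * Q ^ 12981 * Q ^ 23) * η = 2 * (η * Q ^ 12981) * Q ^ 23 := by ring
        _ ≤ _ := b1
        _ ≤ _ := hup
        _ ≤ r * η * Q ^ 23 + 2 * Q ^ 13001 * η := add_le_add b2 b3
        _ = _ := by ring
    exact le_of_mul_le_mul_right b4 hη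
  have e3 : Q ^ 13001 = Q ^ 12978 * Q ^ 23 := by rw [← pow_add]
  have hfin2 : 2 * Q ^ 12981 ≤ r + 2 * Q ^ 12978 := by
    have b5 : 2 * Q ^ 12981 * Q ^ 23 ≤ (r + 2 * Q ^ 12978) * Q ^ 23 := by
      calc 2 * Q ^ 12981 * Q ^ 23 ≤ r * Q ^ 23 + 2 * Q ^ 13001 := hfin
        _ = (r + 2 * Q ^ 12978) * Q ^ 23 := by rw [e3]; ring
    exact le_of_mul_le_mul_right b5 (p1 23)
  have := pw_le Q 2 12978 12981 hQ1 hQ (by norm_num)
  linarith

end POP_

theorem p_POP : T_DRV → T_BAS → T_MER → T_POP := by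
  intro h_DRV h_BAS h_MER
  obtain ⟨Q₁, hQ₁, hD⟩ := h_DRV
  refine ⟨max Q₁ 2, le_max_of_le_left hQ₁, ?_⟩
  intro Q hQ V _ _ _ s hS hs0 g hg
  have hQ1 : Q₁ ≤ Q := (le_max_left _ _).trans hQ
  have hQ2 : 2 ≤ Q := (le_max_right _ _).trans hQ
  have hQ0 : 0 < Q := by linarith
  have p1 : ∀ n : ℕ, 0 < Q ^ n := fun n => pow_pos hQ0 n
  obtain ⟨hMB, h0S, het1, het2, _⟩ := hD Q hQ1 V s hS
  have het : 0 < et s := hS.2.2.1
  have hsmall : ∀ x : V, x ≠ 0 → |s x| * Q ^ 12999 ≤ et s := hS.2.2.2.2.1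
  have hg' := hg
  unfold Lv at hg'
  rw [Finset.mem_filter] at hg'
  obtain ⟨_, hg0, hgl⟩ := hg'
  have hR : (rr (Sp s) g : ℝ) ≤ 2 * Q ^ 13001 :=
    ((h_MER V (Sp s) (Q ^ 13001) (p1 _).le).2 hMB).1 g hg0
  have haut := (h_BAS V s hS.1).2.1 g hg0
  have hc := POP_.core s g hg0 (et s / Q ^ 12999) (et s / Q ^ 13022) (Lv Q 13022 s) haut
    (div_pos het (p1 _)).le (div_pos het (p1 _)).le
    (fun x hx => by rw [le_div_iff₀ (p1 _)]; exact hsmall x hx)
    (fun x hx hxT => by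
      rw [le_div_iff₀ (p1 _)]
      by_contra hcon
      push Not at hcon
      apply hxT
      unfold Lv
      rw [Finset.mem_filter]
      exact ⟨Finset.mem_univ _, hx, hcon.le⟩)
  exact POP_.num Q (et s) (rr (Lv Q 13022 s) g) (rr (Sp s) g) |s 0| |s g| hQ2 het het1 hs0 hgl
    hR hc (Nat.cast_nonneg _)

end Pool.Agent.XPS
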