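import Pool.Agent.XPS.Targets

set_option autoImplicit false

/-!
# XPS: closed walks, with second moments instead of maxima (PRU)
-/

open scoped Classical

noncomputable section

namespace Pool.Agent.XPS

namespace PRU_

variable {St V : Type} [Fintype St]

/-- The row sum of one colour. -/
def Dd (a : V → St → St → ℝ) (d : V) (u : St) : ℝ := ∑ w, a d u w

/-- The row sum. -/
def D (L : Finset V) (a : V → St → St → ℝ) (u : St) : ℝ := ∑ d ∈ L, ∑ w, a d u w

/-- The pruned weights. -/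
def pr (L : Finset V) (a : V → St → St → ℝ) (B₀ B₁ : ℝ) (d : V) (u w : St) : ℝ :=
  if D L a u ≤ B₀ ∧ D L a w ≤ B₀ ∧ Dd a d u ≤ B₁ ∧ Dd a d w ≤ B₁ then a d u w else 0

/-- The indicator of large row sum. -/
def g0 (L : Finset V) (a : V → St → St → ℝ) (B₀ : ℝ) (u : St) : ℝ :=
  if D L a u ≤ B₀ then 0 else 1

/-- The indicator of large row sum of one colour. -/
def g1 (a : V → St → St → ℝ) (B₁ : ℝ) (d : V) (u : St) : ℝ :=
  if Dd a d u ≤ B₁ then 0 else 1

theorem g0_nonneg (L : Finset V) (a : V → St → St → ℝ) (B₀ : ℝ) (u : St) :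
    0 ≤ g0 L a B₀ u := by
  unfold g0
  split_ifs <;> norm_num

theorem g1_nonneg (a : V → St → St → ℝ) (B₁ : ℝ) (d : V) (u : St) : 0 ≤ g1 a B₁ d u := by
  unfold g1
  split_ifs <;> norm_num

theorem pointwise (L : Finset V) (a : V → St → St → ℝ) (ha : ∀ d u w, 0 ≤ a d u w)
    (B₀ B₁ : ℝ) (d : V) (u w : St) :
    a d u w ≤ pr L a B₀ B₁ d u w + (g0 L a B₀ u * a d u w + g0 L a B₀ w * a d u w +
      g1 a B₁ d u * a d u w + g1 a B₁ d w * a d u w) := by
  have h := ha d u w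
  by_cases h1 : D L a u ≤ B₀
  · by_cases h2 : D L a w ≤ B₀
    · by_cases h3 : Dd a d u ≤ B₁
      · by_cases h4 : Dd a d w ≤ B₁
        · simp [pr, g0, g1, h1, h2, h3, h4]
        · simp [pr, g0, g1, h1, h2, h3, h4]
      · have : 0 ≤ g1 a B₁ d w * a d u w := mul_nonneg (g1_nonneg _ _ _ _) h
        simp [pr, g0, g1, h1, h2, h3] at this ⊢
        linarith
    · have h5 : 0 ≤ g1 a B₁ d w * a d u w := mul_nonneg (g1_nonneg _ _ _ _) h
      have h6 : 0 ≤ g1 a B₁ d u * a d u w := mul_nonneg (g1_nonneg _ _ _ _) h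
      have h7 : g0 L a B₀ w = 1 := by simp [g0, h2]
      have h8 : g0 L a B₀ u = 0 := by simp [g0, h1]
      have h9 : pr L a B₀ B₁ d u w = 0 := by simp [pr, h2]
      rw [h7, h8, h9]
      linarith
  · have h5 : 0 ≤ g1 a B₁ d w * a d u w := mul_nonneg (g1_nonneg _ _ _ _) h
    have h6 : 0 ≤ g1 a B₁ d u * a d u w := mul_nonneg (g1_nonneg _ _ _ _) h
    have h7 : 0 ≤ g0 L a B₀ w * a d u w := mul_nonneg (g0_nonneg _ _ _ _) h
    have h8 : g0 L a B₀ u = 1 := by simp [g0, h1]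
    have h9 : pr L a B₀ B₁ d u w = 0 := by simp [pr, h1]
    rw [h8, h9]
    linarith

/-- Exchange of the two ends. -/
theorem swap (L : Finset V) (F : V → St → St → ℝ) :
    ∑ u, ∑ d ∈ L, ∑ w, F d u w = ∑ u, ∑ d ∈ L, ∑ w, F d w u := by
  rw [Finset.sum_comm]
  rw [Finset.sum_comm (s := Finset.univ) (t := L)]
  refine Finset.sum_congr rfl fun d _ => ?_
  rw [Finset.sum_comm]

theorem markov {x B : ℝ} (hx : 0 ≤ x) (hB : 0 < B) : (if x ≤ B then (0 : ℝ) else 1) * x ≤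
    x ^ 2 / B := by
  split_ifs with h
  · rw [zero_mul]
    positivity
  · rw [one_mul, le_div_iff₀ hB]
    nlinarith

theorem sum_g0 (L : Finset V) (a : V → St → St → ℝ) (ha : ∀ d u w, 0 ≤ a d u w)
    (B₀ : ℝ) (hB : 0 < B₀) :
    ∑ u, ∑ d ∈ L, ∑ w, g0 L a B₀ u * a d u w ≤ (∑ u, (∑ d ∈ L, ∑ w, a d u w) ^ 2) / B₀ := by
  rw [Finset.sum_div]
  refine Finset.sum_le_sum fun u _ => ?_
  have h1 : ∑ d ∈ L, ∑ w, g0 L a B₀ u * a d u w = g0 L a B₀ u * D L a u := by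
    unfold D
    rw [Finset.mul_sum]
    refine Finset.sum_congr rfl fun d _ => ?_
    rw [Finset.mul_sum]
  rw [h1]
  have h2 : 0 ≤ D L a u := Finset.sum_nonneg fun d _ => Finset.sum_nonneg fun w _ => ha d u w
  exact markov h2 hB

theorem sum_g1 (L : Finset V) (a : V → St → St → ℝ) (ha : ∀ d u w, 0 ≤ a d u w)
    (B₁ : ℝ) (hB : 0 < B₁) :
    ∑ u, ∑ d ∈ L, ∑ w, g1 a B₁ d u * a d u w ≤ (∑ u, ∑ d ∈ L, (∑ w, a d u w) ^ 2) / B₁ := by
  rw [Finset.sum_div]
  refine Finset.sum_le_sum fun u _ => ?_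
  rw [Finset.sum_div]
  refine Finset.sum_le_sum fun d _ => ?_
  rw [← Finset.mul_sum]
  have h2 : 0 ≤ Dd a d u := Finset.sum_nonneg fun w _ => ha d u w
  exact markov h2 hB

/-- At least half of the weight remains. -/
theorem half (L : Finset V) (a : V → St → St → ℝ) (ha : ∀ d u w, 0 ≤ a d u w)
    (hs : ∀ d u w, a d u w = a d w u) (B₀ B₁ : ℝ) (hB₀ : 0 < B₀) (hB₁ : 0 < B₁) :
    ∑ u, ∑ d ∈ L, ∑ w, a d u w ≤ ∑ u, ∑ d ∈ L, ∑ w, pr L a B₀ B₁ d u w +
      (2 * ((∑ u, (∑ d ∈ L, ∑ w, a d u w) ^ 2) / B₀) +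
        2 * ((∑ u, ∑ d ∈ L, (∑ w, a d u w) ^ 2) / B₁)) := by
  have h1 : ∑ u, ∑ d ∈ L, ∑ w, a d u w ≤ ∑ u, ∑ d ∈ L, ∑ w, (pr L a B₀ B₁ d u w +
      (g0 L a B₀ u * a d u w + g0 L a B₀ w * a d u w +
      g1 a B₁ d u * a d u w + g1 a B₁ d w * a d u w)) :=
    Finset.sum_le_sum fun u _ => Finset.sum_le_sum fun d _ => Finset.sum_le_sum fun w _ =>
      pointwise L a ha B₀ B₁ d u w
  have h2 : ∑ u, ∑ d ∈ L, ∑ w, g0 L a B₀ w * a d u w =
      ∑ u, ∑ d ∈ L, ∑ w, g0 L a B₀ u * a d u w := by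
    rw [swap L fun d u w => g0 L a B₀ w * a d u w]
    refine Finset.sum_congr rfl fun u _ => Finset.sum_congr rfl fun d _ =>
      Finset.sum_congr rfl fun w _ => ?_
    rw [hs d w u]
  have h3 : ∑ u, ∑ d ∈ L, ∑ w, g1 a B₁ d w * a d u w =
      ∑ u, ∑ d ∈ L, ∑ w, g1 a B₁ d u * a d u w := by
    rw [swap L fun d u w => g1 a B₁ d w * a d u w]
    refine Finset.sum_congr rfl fun u _ => Finset.sum_congr rfl fun d _ =>
      Finset.sum_congr rfl fun w _ => ?_
    rw [hs d w u]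
  have h4 := sum_g0 L a ha B₀ hB₀
  have h5 := sum_g1 L a ha B₁ hB₁
  simp only [Finset.sum_add_distrib] at h1
  rw [h2, h3] at h1
  linarith

end PRU_

open PRU_ in
theorem p_PRU (h_WLK : T_WLK) : T_PRU := by
  intro St _ _ V _ _ L R φ a m₁ m₂ m₃ r j ha hs hφ hL h1 h2 h3 hr
  have hn : (0 : ℝ) < (Fintype.card St : ℝ) := by exact_mod_cast Fintype.card_pos
  set n : ℝ := (Fintype.card St : ℝ) with hndef
  have hr1 : 0 < r := by rw [hr]; positivity
  have hS1 : 0 ≤ ∑ u, ∑ d ∈ L, ∑ w, a d u w :=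
    Finset.sum_nonneg fun u _ => Finset.sum_nonneg fun d _ => Finset.sum_nonneg fun w _ =>
      ha d u w
  have hS2 : 0 ≤ ∑ u, (∑ d ∈ L, ∑ w, a d u w) ^ 2 := Finset.sum_nonneg fun u _ => sq_nonneg _
  have hS3 : 0 ≤ ∑ u, ∑ d ∈ L, (∑ w, a d u w) ^ 2 :=
    Finset.sum_nonneg fun u _ => Finset.sum_nonneg fun d _ => sq_nonneg _
  have hm₁ : 0 ≤ m₁ := by
    by_contra h
    have : m₁ * n < 0 := mul_neg_of_neg_of_pos (not_le.1 h) hn
    linarith
  have hm₂ : 0 ≤ m₂ := by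
    by_contra h
    have : m₂ * n < 0 := mul_neg_of_neg_of_pos (not_le.1 h) hn
    linarith
  have hm₃ : 0 ≤ m₃ := by
    by_contra h
    have : m₃ * n < 0 := mul_neg_of_neg_of_pos (not_le.1 h) hn
    linarith
  rcases hm₁.eq_or_lt with h0 | hp
  · rw [← h0]
    have : ((0 : ℝ) ^ 4) ^ r = 0 := by
      rw [zero_pow (by norm_num), zero_pow hr1.ne']
    rw [this]
    positivity
  -- the second moments are positive
  have hm₂' : 0 < m₂ := by
    rcases hm₂.eq_or_lt with h0 | h0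
    · exfalso
      rw [← h0, zero_mul] at h2
      have h4 := (Finset.sum_eq_zero_iff_of_nonneg fun u _ => sq_nonneg _).1 h2.symm
      have h5 : ∑ u, ∑ d ∈ L, ∑ w, a d u w = 0 := Finset.sum_eq_zero fun u hu =>
        pow_eq_zero_iff (two_ne_zero) |>.1 (h4 u hu)
      rw [h5] at h1
      rcases mul_eq_zero.1 h1 with h6 | h6 <;> linarith
    · exact h0
  have hm₃' : 0 < m₃ := by
    rcases hm₃.eq_or_lt with h0 | h0
    · exfalso
      rw [← h0, zero_mul] at h3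
      have h4 := (Finset.sum_eq_zero_iff_of_nonneg fun u _ =>
        Finset.sum_nonneg fun d _ => sq_nonneg _).1 h3.symm
      have h5 : ∑ u, ∑ d ∈ L, ∑ w, a d u w = 0 := by
        refine Finset.sum_eq_zero fun u hu => ?_
        have h6 := (Finset.sum_eq_zero_iff_of_nonneg fun d _ => sq_nonneg _).1 (h4 u hu)
        exact Finset.sum_eq_zero fun d hd => pow_eq_zero_iff (two_ne_zero) |>.1 (h6 d hd)
      rw [h5] at h1
      rcases mul_eq_zero.1 h1 with h6 | h6 <;> linarith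
    · exact h0
  set B₀ : ℝ := 8 * m₂ / m₁ with hB₀
  set B₁ : ℝ := 8 * m₃ / m₁ with hB₁
  have hB₀p : 0 < B₀ := by positivity
  have hB₁p : 0 < B₁ := by positivity
  have hW := h_WLK St V L R φ (pr L a B₀ B₁) B₀ B₁ r j ?_ ?_ ?_ hL ?_ ?_ hB₀p.le hB₁p.le hr
  · have hh := half L a ha hs B₀ B₁ hB₀p hB₁p
    rw [← h1, ← h2, ← h3] at hh
    have e1 : m₂ * n / B₀ = m₁ * n / 8 := by
      rw [hB₀]
      field_simp
    have e2 : m₃ * n / B₁ = m₁ * n / 8 := by
      rw [hB₁]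
      field_simp
    rw [e1, e2] at hh
    set SS : ℝ := ∑ u, ∑ d ∈ L, ∑ w, pr L a B₀ B₁ d u w with hSS
    have h4 : m₁ / 2 ≤ SS / n := by
      rw [le_div_iff₀ hn]
      linarith
    have h5 : (m₁ / 2) ^ (2 * r) ≤ n * (8 * r * B₀ * B₁) ^ r :=
      (pow_le_pow_left₀ (by positivity) h4 _).trans hW
    have h6 : (0 : ℝ) ≤ (4 * m₁ ^ 2) ^ r := by positivity
    have h7 := mul_le_mul_of_nonneg_right h5 h6
    have h8 : (m₁ / 2) ^ (2 * r) * (4 * m₁ ^ 2) ^ r = (m₁ ^ 4) ^ r := by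
      rw [pow_mul, ← mul_pow]
      congr 1
      ring
    have h9 : n * (8 * r * B₀ * B₁) ^ r * (4 * m₁ ^ 2) ^ r = n * (2048 * r * m₂ * m₃) ^ r := by
      rw [mul_assoc, ← mul_pow]
      congr 2
      rw [hB₀, hB₁]
      field_simp
      ring
    rw [h8, h9] at h7
    exact h7
  · intro d u w
    unfold pr
    split_ifs
    · exact ha d u w
    · exact le_rfl
  · intro d u w
    unfold pr
    rw [hs d u w]
    congr 1
    apply propext
    tauto
  · intro d hd u w h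
    refine hφ d hd u w fun h' => h ?_
    unfold pr
    rw [h', ite_self]
  · intro u
    by_cases h : D L a u ≤ B₀
    · refine le_trans ?_ h
      unfold D
      refine Finset.sum_le_sum fun d _ => Finset.sum_le_sum fun w _ => ?_
      unfold pr
      split_ifs
      · exact le_rfl
      · exact ha d u w
    · have : ∑ d ∈ L, ∑ w, pr L a B₀ B₁ d u w = 0 :=
        Finset.sum_eq_zero fun d _ => Finset.sum_eq_zero fun w _ => by simp [pr, h]
      rw [this]
      exact hB₀p.le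
  · intro d _ u
    by_cases h : Dd a d u ≤ B₁
    · refine le_trans ?_ h
      unfold Dd
      refine Finset.sum_le_sum fun w _ => ?_
      unfold pr
      split_ifs
      · exact le_rfl
      · exact ha d u w
    · have : ∑ w, pr L a B₀ B₁ d u w = 0 := Finset.sum_eq_zero fun w _ => by simp [pr, h]
      rw [this]
      exact hB₁p.le

end Pool.Agent.XPS
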