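import Pool.Agent.XPS.Targets

set_option autoImplicit false

/-!
# XPS: Markov and Chebyshev for random subsets (T_CON)
-/

open scoped Classical

namespace Pool.Agent.XPS

theorem p_CON : T_BER → T_CON := by
  intro hBER α p A hp0 hp1
  obtain ⟨-, -, b3, -, b5, -, -, b8, -, b10, -, -⟩ := hBER α p A hp0 hp1
  constructor
  · intro y hy
    have h3 := b3 A (Finset.Subset.refl A)
    have h := b8 (fun Y => y * (if y < (Y.card : ℝ) then 1 else 0))
      (fun Y => ((Y ∩ A).card : ℝ)) (by
        intro Y hY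
        rw [Finset.inter_eq_left.2 hY]
        show y * (if y < (Y.card : ℝ) then 1 else 0) ≤ (Y.card : ℝ)
        split_ifs with hc
        · rw [mul_one]
          exact hc.le
        · rw [mul_zero]
          exact Nat.cast_nonneg _)
    rw [b10, h3] at h
    rw [mul_comm]
    exact h
  · intro B hB
    have hw : ∀ Y : Finset α, ∑ a ∈ Y, (if a ∈ B then (1 : ℝ) else 0) = ((Y ∩ B).card : ℝ) := by
      intro Y
      rw [Finset.sum_ite_mem, Finset.sum_const, nsmul_eq_mul, mul_one]
    have hw2 : ∑ a ∈ A, (if a ∈ B then (1 : ℝ) else 0) ^ 2 = (B.card : ℝ) := by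
      have h1 : ∀ a ∈ A, (if a ∈ B then (1 : ℝ) else 0) ^ 2 = (if a ∈ B then (1 : ℝ) else 0) := by
        intro a _
        split_ifs <;> norm_num
      rw [Finset.sum_congr rfl h1, hw A, Finset.inter_eq_right.2 hB]
    have h5 := b5 (fun a => if a ∈ B then (1 : ℝ) else 0)
    rw [hw2] at h5
    simp only [hw] at h5
    rw [Finset.inter_eq_right.2 hB] at h5
    set c : ℝ := p * (B.card : ℝ) with hc
    have hc0 : 0 ≤ c := mul_nonneg hp0 (Nat.cast_nonneg _)
    have h := b8 (fun Y => (c / 2) ^ 2 * (if ((Y ∩ B).card : ℝ) < c / 2 then 1 else 0))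
      (fun Y => (((Y ∩ B).card : ℝ) - c) ^ 2) (by
        intro Y _
        show (c / 2) ^ 2 * (if ((Y ∩ B).card : ℝ) < c / 2 then 1 else 0) ≤
          (((Y ∩ B).card : ℝ) - c) ^ 2
        split_ifs with hcc
        · rw [mul_one]
          have h0 : (0 : ℝ) ≤ ((Y ∩ B).card : ℝ) := Nat.cast_nonneg _
          nlinarith
        · rw [mul_zero]
          exact sq_nonneg _)
    rw [b10, h5] at h
    set P : ℝ := be p A fun Y => if ((Y ∩ B).card : ℝ) < c / 2 then 1 else 0 with hP
    have h6 : (c / 2) ^ 2 * P ≤ c := by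
      refine h.trans ?_
      have h7 : p * (1 - p) * (B.card : ℝ) = c - p * c := by
        rw [hc]
        ring
      have h8 : 0 ≤ p * c := mul_nonneg hp0 hc0
      linarith
    rcases hc0.eq_or_lt with h0 | h0
    · rw [← h0, mul_zero]
      norm_num
    · have h9 : c * (P * c) ≤ c * 4 := by nlinarith
      exact le_of_mul_le_mul_left h9 h0

end Pool.Agent.XPS
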