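import Pool.Agent.XPS.Targets

set_option autoImplicit false

/-!
# MP_9f5962_lc, XPS: restrictions (QUO)
-/

open scoped Classical

noncomputable section

namespace Pool.Agent.XPS

open Pool.Agent.LRC

namespace QUO_

variable {V : Type} [AddCommGroup V] [Module (ZMod 2) V]

theorem sg_add' (a b : ZMod 2) : sg (a + b) = sg a * sg b := by
  have h : ∀ a b : ZMod 2, (a = 0 ∧ b = 0) ∨ (a = 0 ∧ b = 1) ∨ (a = 1 ∧ b = 0) ∨
      (a = 1 ∧ b = 1) := by decide
  have h1 : (1 : ZMod 2) + 1 = 0 := by decide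
  have h2 : (1 : ZMod 2) ≠ 0 := by decide
  rcases h a b with ⟨rfl, rfl⟩ | ⟨rfl, rfl⟩ | ⟨rfl, rfl⟩ | ⟨rfl, rfl⟩
  · simp [sg]
  · simp [sg, h2]
  · simp [sg, h2]
  · simp [sg, h1, h2]

theorem two_zero (v : V) : v + v = 0 := by
  have h : (2 : ZMod 2) = 0 := by decide
  have := two_smul (ZMod 2) v
  rw [h, zero_smul] at this
  exact this.symm

theorem mk_iff (W : Submodule (ZMod 2) V) (u v : V) : W.mkQ u = W.mkQ v ↔ u + v ∈ W := by
  rw [Submodule.mkQ_apply, Submodule.mkQ_apply, Submodule.Quotient.eq]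
  have : u - v = u + v := by
    rw [sub_eq_add_neg, neg_eq_of_add_eq_zero_left (two_zero v)]
  rw [this]

variable [Fintype V]

/-- The sum of the restricted coefficients against a function on the quotient. -/
theorem sum_qs (s : V → ℝ) (W : Submodule (ZMod 2) V) [Fintype (V ⧸ W)]
    (l : Module.Dual (ZMod 2) V) (G : V ⧸ W → ℝ) :
    ∑ q, qs s W l q * G q = ∑ u, s u * sg (l u) * G (W.mkQ u) := by
  unfold qs
  simp only [Finset.sum_mul]
  rw [Finset.sum_comm]
  refine Finset.sum_congr rfl fun u _ => ?_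
  rw [Finset.sum_eq_single (W.mkQ u)]
  · rw [if_pos rfl]
  · intro q _ hq
    rw [if_neg (fun h => hq h.symm), zero_mul]
  · intro h
    exact absurd (Finset.mem_univ _) h

theorem ft_qs (s : V → ℝ) (W : Submodule (ZMod 2) V) [Fintype (V ⧸ W)]
    (l : Module.Dual (ZMod 2) V) (m : Module.Dual (ZMod 2) (V ⧸ W)) :
    ft (qs s W l) m = ft s (l + m ∘ₗ W.mkQ) := by
  unfold ft
  rw [sum_qs s W l (fun q => sg (m q))]
  refine Finset.sum_congr rfl fun u _ => ?_
  rw [LinearMap.add_apply, sg_add', LinearMap.comp_apply, mul_assoc]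

theorem qs_mk (s : V → ℝ) (W : Submodule (ZMod 2) V) (l : Module.Dual (ZMod 2) V) (v : V) :
    qs s W l (W.mkQ v) = cs s W l v := by
  unfold qs cs
  refine Finset.sum_congr rfl fun u _ => ?_
  by_cases h : u + v ∈ W
  · rw [if_pos h, if_pos ((mk_iff W u v).2 h)]
  · rw [if_neg h, if_neg (fun h' => h ((mk_iff W u v).1 h'))]

theorem cs_qs (s : V → ℝ) (W : Submodule (ZMod 2) V) [Fintype (V ⧸ W)]
    (l : Module.Dual (ZMod 2) V) (U : Submodule (ZMod 2) (V ⧸ W))
    (m : Module.Dual (ZMod 2) (V ⧸ W)) (v : V) :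
    cs (qs s W l) U m (W.mkQ v) = cs s (U.comap W.mkQ) (l + m ∘ₗ W.mkQ) v := by
  unfold cs
  have h1 : ∀ q : V ⧸ W, (if q + W.mkQ v ∈ U then qs s W l q * sg (m q) else 0) =
      qs s W l q * (if q + W.mkQ v ∈ U then sg (m q) else 0) := by
    intro q
    by_cases h : q + W.mkQ v ∈ U
    · rw [if_pos h, if_pos h]
    · rw [if_neg h, if_neg h, mul_zero]
  rw [Finset.sum_congr rfl fun q _ => h1 q,
    sum_qs s W l (fun q => if q + W.mkQ v ∈ U then sg (m q) else 0)]
  refine Finset.sum_congr rfl fun u _ => ?_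
  have h2 : W.mkQ u + W.mkQ v ∈ U ↔ u + v ∈ U.comap W.mkQ := by
    rw [Submodule.mem_comap, map_add]
  by_cases h : u + v ∈ U.comap W.mkQ
  · rw [if_pos h, if_pos (h2.2 h), LinearMap.add_apply, sg_add', LinearMap.comp_apply, mul_assoc]
  · rw [if_neg h, if_neg (fun h' => h (h2.1 h')), mul_zero]

theorem supp (s : V → ℝ) (W : Submodule (ZMod 2) V) [Fintype (V ⧸ W)]
    (l : Module.Dual (ZMod 2) V) : (Sp (qs s W l)).card ≤ nq (Sp s) W := by
  unfold nq
  refine Finset.card_le_card fun q hq => ?_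
  unfold Sp at hq
  rw [Finset.mem_filter] at hq
  by_contra hcon
  apply hq.2
  unfold qs
  refine Finset.sum_eq_zero fun v _ => ?_
  by_cases h : W.mkQ v = q
  · rw [if_pos h]
    by_cases hs : s v = 0
    · rw [hs, zero_mul]
    · exfalso
      apply hcon
      rw [Finset.mem_image]
      refine ⟨v, ?_, h⟩
      unfold Sp
      rw [Finset.mem_filter]
      exact ⟨Finset.mem_univ v, hs⟩
  · rw [if_neg h]

end QUO_

/-- The target QUO. -/
theorem p_QUO : T_QUO := by
  intro V _ _ _ s W _ l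
  refine ⟨?_, QUO_.supp s W l, ?_, fun v => QUO_.qs_mk s W l v, fun U m v =>
    QUO_.cs_qs s W l U m v⟩
  · intro h m
    rw [QUO_.ft_qs]
    exact h _
  · unfold nq
    exact Finset.card_image_le

end Pool.Agent.XPS
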