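import Pool.Agent.XPS.Pw

set_option autoImplicit false

/-!
# MP_9f5962_lc, project XPS: the first case of the regularity claim
-/

open scoped Classical

noncomputable section

namespace Pool.Agent.XPS

namespace RB1_

theorem rk_mono {V : Type} [AddCommGroup V] [Module (ZMod 2) V] [Fintype V] {A B : Finset V}
    (h : A ⊆ B) : rk A ≤ rk B := by
  unfold rk
  exact Submodule.finrank_mono (Submodule.span_mono (by exact_mod_cast h))

theorem Lv_pos {V : Type} [AddCommGroup V] [Module (ZMod 2) V] [Fintype V] {Q : ℝ} {n : ℕ}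
    {s : V → ℝ} {x : V} (hQ : 0 < Q) (h : x ∈ Lv Q n s) : x ≠ 0 ∧ et s / Q ^ n ≤ |s x| := by
  unfold Lv at h
  rw [Finset.mem_filter] at h
  refine ⟨h.2.1, ?_⟩
  rw [div_le_iff₀ (pow_pos hQ n)]
  exact h.2.2

/-- The first numerical inequality. -/
theorem num1 (Q R q : ℝ) (hQ : 100000 ≤ Q) (hR : Q ^ 1250 / 2 ≤ R) (hq : q ≤ R * Q ^ 44) :
    8 * Q ^ 13001 * (3 / 2 * Q ^ 12889 + 3 * q * (16 * Q ^ 14096 / R ^ 2)) *
      (2 * Q ^ 80 / R ^ 2) ≤ Q ^ 25975 / R ^ 2 / 4 := by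
  have h1 : (1 : ℝ) ≤ Q := by linarith
  have hQ0 : 0 < Q := by linarith
  have hR0 : 0 < R := lt_of_lt_of_le (by positivity) hR
  have hR2 : 0 < R ^ 2 := by positivity
  have e1 : 8 * Q ^ 13001 * (3 / 2 * Q ^ 12889 + 3 * q * (16 * Q ^ 14096 / R ^ 2)) *
      (2 * Q ^ 80 / R ^ 2) =
      (24 * Q ^ 25970 + 768 * (q * Q ^ 27177) / R ^ 2) / R ^ 2 := by
    field_simp
    ring
  rw [e1]
  have e2 : Q ^ 25975 / R ^ 2 / 4 = (Q ^ 25975 / 4) / R ^ 2 := by ring
  rw [e2]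
  refine div_le_div_of_nonneg_right ?_ hR2.le
  have a1 : 24 * Q ^ 25970 ≤ Q ^ 25975 / 8 := by
    have := pw_le Q 192 25970 25975 h1 (by linarith) (by norm_num)
    linarith
  have a2 : 768 * (q * Q ^ 27177) / R ^ 2 ≤ Q ^ 25975 / 8 := by
    rw [div_le_iff₀ hR2]
    have b1 : q * Q ^ 27177 ≤ R * Q ^ 27221 := by
      calc q * Q ^ 27177 ≤ (R * Q ^ 44) * Q ^ 27177 := by gcongr
        _ = R * Q ^ 27221 := by ring
    have b2 : 12288 * Q ^ 25971 ≤ Q ^ 25975 := pw_le Q 12288 25971 25975 h1 (by linarith)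
      (by norm_num)
    have b3 : 768 * Q ^ 27221 ≤ Q ^ 25975 / 8 * R := by
      calc 768 * Q ^ 27221 = (12288 * Q ^ 25971) / 8 * (Q ^ 1250 / 2) := by ring
        _ ≤ Q ^ 25975 / 8 * R := by
            refine mul_le_mul ?_ hR (by positivity) (by positivity)
            linarith
    calc 768 * (q * Q ^ 27177) ≤ 768 * (R * Q ^ 27221) := by linarith
      _ = (768 * Q ^ 27221) * R := by ring
      _ ≤ (Q ^ 25975 / 8 * R) * R := by gcongr
      _ = Q ^ 25975 / 8 * R ^ 2 := by ring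
  linarith

/-- The second numerical inequality. -/
theorem num2 (Q R q z e : ℝ) (hQ : 100000 ≤ Q) (hR : Q ^ 1250 / 2 ≤ R) (hq : R * Q ^ 44 < q + 1)
    (hz : Q ^ 25975 / R ^ 2 / 4 ≤ z) (he : 1 ≤ e * Q ^ 4) :
    4 * Q ^ 2 < 3 * q * Real.sqrt z * (e / Q ^ 13022) := by
  have h1 : (1 : ℝ) ≤ Q := by linarith
  have hQ0 : 0 < Q := by linarith
  have hR0 : 0 < R := lt_of_lt_of_le (by positivity) hR
  have he0 : 0 < e := by
    by_contra hc
    push Not at hc
    have : e * Q ^ 4 ≤ 0 := mul_nonpos_of_nonpos_of_nonneg hc (by positivity)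
    linarith
  have a1 : Q ^ 12987 / (2 * R) ≤ Real.sqrt z := by
    refine Real.le_sqrt_of_sq_le ?_
    refine le_trans ?_ hz
    have b1 : (Q ^ 12987 / (2 * R)) ^ 2 = Q ^ 25974 / R ^ 2 / 4 := by
      field_simp
      ring
    rw [b1]
    have b2 : Q ^ 25974 ≤ Q ^ 25975 := pow_le_pow_right₀ h1 (by norm_num)
    gcongr
  have a2 : R * Q ^ 44 / 2 ≤ q := by
    have b1 : (2 : ℝ) ≤ R * Q ^ 44 := by
      have c1 : (1 : ℝ) ≤ Q ^ 44 := one_le_pow₀ h1
      have c2 : (2 : ℝ) ≤ R := by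
        have c3 : 4 * Q ^ 0 ≤ Q ^ 1250 := pw_le Q 4 0 1250 h1 (by linarith) (by norm_num)
        rw [pow_zero] at c3
        linarith
      nlinarith
    linarith
  have a3 : 1 / Q ^ 13026 ≤ e / Q ^ 13022 := by
    rw [div_le_div_iff₀ (by positivity) (by positivity)]
    calc 1 * Q ^ 13022 ≤ (e * Q ^ 4) * Q ^ 13022 := by gcongr
      _ = e * Q ^ 13026 := by ring
  have a4 : 3 * (R * Q ^ 44 / 2) * (Q ^ 12987 / (2 * R)) * (1 / Q ^ 13026) = 3 / 4 * Q ^ 5 := by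
    field_simp
    ring
  have a5 : 4 * Q ^ 2 < 3 / 4 * Q ^ 5 := by
    have := pw_lt Q 16 2 5 h1 (by linarith) (by norm_num)
    have h2 : 0 < Q ^ 2 := by positivity
    linarith
  calc 4 * Q ^ 2 < 3 / 4 * Q ^ 5 := a5
    _ = 3 * (R * Q ^ 44 / 2) * (Q ^ 12987 / (2 * R)) * (1 / Q ^ 13026) := a4.symm
    _ ≤ 3 * q * Real.sqrt z * (e / Q ^ 13022) := by
        refine mul_le_mul (mul_le_mul (by linarith) a1 (by positivity) ?_) a3 (by positivity) ?_
        · have : 0 ≤ R * Q ^ 44 / 2 := by positivity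
          linarith
        · have : 0 ≤ R * Q ^ 44 / 2 := by positivity
          have h3 : 0 ≤ q := by linarith
          positivity

end RB1_

/-- Target RB1. -/
theorem p_RB1 (hCB1 : T_CB1) (hDRV : T_DRV) (hENG : T_ENG) : T_RB1 := by
  obtain ⟨Q₁, hQ₁, hD⟩ := hDRV
  refine ⟨max Q₁ 100000, le_max_of_le_left hQ₁, ?_⟩
  intro Q hQ V _ _ _ s hs T Hu D' N Y dd hT hHu hdd hD'T hD'c hall
  have hQa : Q₁ ≤ Q := le_trans (le_max_left _ _) hQ
  have hQb : (100000 : ℝ) ≤ Q := le_trans (le_max_right _ _) hQ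
  have h1 : (1 : ℝ) ≤ Q := by linarith
  have hQ0 : 0 < Q := by linarith
  obtain ⟨hMB, h0S, het1, het2, -, -, -, hLBl, hRch⟩ := hD Q hQa V s hs
  have het : 0 < et s := hs.2.2.1
  have hdd0 : 0 < dd := lt_of_lt_of_le (by positivity) hdd
  set R : ℝ := Real.sqrt dd with hR
  have hR2 : R ^ 2 = dd := Real.sq_sqrt hdd0.le
  have hR0 : 0 < R := Real.sqrt_pos.2 hdd0
  have hRl : Q ^ 1250 / 2 ≤ R := by
    refine Real.le_sqrt_of_sq_le ?_
    calc (Q ^ 1250 / 2) ^ 2 = Q ^ 2500 / 4 := by ring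
      _ ≤ dd := hdd
  have hTS : T ⊆ Sp s := by
    intro x hx
    rw [hT] at hx
    have h2 := RB1_.Lv_pos hQ0 hx
    unfold Sp
    rw [Finset.mem_filter]
    refine ⟨Finset.mem_univ _, fun h3 => ?_⟩
    rw [h3, abs_zero] at h2
    exact absurd h2.2 (not_le.2 (by positivity))
  have hTσ : ∀ x ∈ T, et s / Q ^ 13022 ≤ |s x| := fun x hx => by
    rw [hT] at hx
    exact (RB1_.Lv_pos hQ0 hx).2
  have hT0 : (0 : V) ∉ T := fun h => by
    rw [hT] at h
    exact (RB1_.Lv_pos hQ0 h).1 rfl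
  obtain ⟨z, hz⟩ : ∃ z, z = Nat.ceil (Q ^ 25975 / R ^ 2 / 4) := ⟨_, rfl⟩
  have hzle : Q ^ 25975 / R ^ 2 / 4 ≤ (z : ℝ) := by
    rw [hz]
    exact Nat.le_ceil _
  obtain ⟨q, hq⟩ : ∃ q, q = Nat.floor (R * Q ^ 44) := ⟨_, rfl⟩
  have hq1 : (q : ℝ) ≤ R * Q ^ 44 := by
    rw [hq]
    exact Nat.floor_le (by positivity)
  have hq2 : R * Q ^ 44 < (q : ℝ) + 1 := by
    rw [hq]
    exact Nat.lt_floor_add_one _
  obtain ⟨m, hm⟩ : ∃ m, m = Nat.ceil (Q ^ 280) := ⟨_, rfl⟩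
  have hm1 : Q ^ 280 ≤ (m : ℝ) := by
    rw [hm]
    exact Nat.le_ceil _
  have hm0 : 0 < m := by
    rw [hm]
    exact Nat.ceil_pos.2 (by positivity)
  -- the sets `Z d`
  have hZex : ∀ d, ∃ Z : Finset V, d ∈ D' → Z ⊆ (N d).filter (fun t =>
      m ≤ rk (Y d ∩ Gx T Hu (Q ^ 12760) d t)) ∧ Z.card = z := by
    intro d
    by_cases hd : d ∈ D'
    · obtain ⟨h2, h3, h4, h5, h6⟩ := hall d hd
      rw [← hm] at h6
      have h7 : z ≤ ((N d).filter (fun t => m ≤ rk (Y d ∩ Gx T Hu (Q ^ 12760) d t))).card := by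
        rw [hz]
        refine Nat.ceil_le.2 ?_
        rw [hR2]
        have h8 : ((N d).card : ℝ) ≤ 4 * (((N d).filter (fun t =>
            m ≤ rk (Y d ∩ Gx T Hu (Q ^ 12760) d t))).card : ℝ) := by exact_mod_cast h6
        have h9 : Q ^ 25975 / dd ≤ ((N d).card : ℝ) := by
          rw [div_le_iff₀ hdd0]
          exact h4
        linarith
      obtain ⟨Z, hZ1, hZ2⟩ := Finset.exists_subset_card_eq h7
      exact ⟨Z, fun _ => ⟨hZ1, hZ2⟩⟩
    · exact ⟨∅, fun h => absurd h hd⟩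
  choose Z hZ using hZex
  have hσ : 0 < et s / Q ^ 13022 := by positivity
  have hDne : D'.Nonempty := by
    rw [Finset.nonempty_iff_ne_empty]
    rintro rfl
    rw [Finset.card_empty] at hD'c
    have : (0 : ℝ) < Q ^ 25994 := by positivity
    norm_num at hD'c
    linarith
  have hspread : ∀ v, ((D'.filter (fun d => v ∈ Z d)).card : ℝ) ≤
      (2 * Q ^ 80 / R ^ 2) * (D'.card : ℝ) := by
    intro v
    by_cases hv : ∃ d ∈ D', v ∈ Z d
    · obtain ⟨d0, hd0, hvd0⟩ := hv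
      have h2 := (Finset.mem_filter.1 ((hZ d0 hd0).1 hvd0)).1
      obtain ⟨h3, h4, -, -, -⟩ := hall d0 hd0
      have hvT : v ∈ T := h3 h2
      have hvHu : v ∉ Hu := (h4 v h2).1
      have hEE : (EE (Sp s) v : ℝ) ≤ Q ^ 26074 := by
        by_contra hc
        push Not at hc
        refine hvHu ?_
        rw [hHu]
        unfold Hb
        exact Finset.mem_filter.2 ⟨hTS hvT, hc⟩
      have h5 := (hENG V (Sp s) T Hu D' (Q ^ 12760) N hTS hD'T
        (fun d hd => ⟨(hall d hd).1, fun h => ((hall d hd).2.1 d h).2.1 rfl⟩) v (hTS hvT)).2.2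
      have h6 : dd * ((D'.filter (fun d => v ∈ N d)).card : ℝ) ≤ (EE (Sp s) v : ℝ) := by
        calc dd * ((D'.filter (fun d => v ∈ N d)).card : ℝ)
            = ∑ d ∈ D'.filter (fun d => v ∈ N d), dd := by
              rw [Finset.sum_const, nsmul_eq_mul, mul_comm]
          _ ≤ ∑ d ∈ D'.filter (fun d => v ∈ N d), ((Gx T Hu (Q ^ 12760) d v).card : ℝ) := by
              refine Finset.sum_le_sum fun d hd => ?_
              obtain ⟨hd1, hd2⟩ := Finset.mem_filter.1 hd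
              exact ((hall d hd1).2.1 v hd2).2.2
          _ ≤ (EE (Sp s) v : ℝ) := by exact_mod_cast h5
      have h7 : ((D'.filter (fun d => v ∈ Z d)).card : ℝ) ≤
          ((D'.filter (fun d => v ∈ N d)).card : ℝ) := by
        have : (D'.filter (fun d => v ∈ Z d)).card ≤ (D'.filter (fun d => v ∈ N d)).card := by
          refine Finset.card_le_card fun d hd => ?_
          obtain ⟨hd1, hd2⟩ := Finset.mem_filter.1 hd
          exact Finset.mem_filter.2 ⟨hd1, (Finset.mem_filter.1 ((hZ d hd1).1 hd2)).1⟩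
        exact_mod_cast this
      rw [hR2, div_mul_eq_mul_div, le_div_iff₀ hdd0]
      calc ((D'.filter (fun d => v ∈ Z d)).card : ℝ) * dd
          ≤ ((D'.filter (fun d => v ∈ N d)).card : ℝ) * dd := by gcongr
        _ ≤ Q ^ 26074 := by linarith
        _ = Q ^ 80 * Q ^ 25994 := by ring
        _ ≤ Q ^ 80 * (2 * (D'.card : ℝ)) := by gcongr
        _ = 2 * Q ^ 80 * (D'.card : ℝ) := by ring
    · push Not at hv
      rw [Finset.filter_false_of_mem hv, Finset.card_empty, Nat.cast_zero]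
      positivity
  have hρ : Q ^ 13029 / Real.sqrt m ≤ Q ^ 12889 := by
    have h2 : Q ^ 140 ≤ Real.sqrt m := by
      refine Real.le_sqrt_of_sq_le ?_
      have h3 : (Q ^ 140) ^ 2 = Q ^ 280 := by ring
      rw [h3]
      exact hm1
    have h3 : 0 < Real.sqrt m := lt_of_lt_of_le (by positivity) h2
    rw [div_le_iff₀ h3]
    calc Q ^ 13029 = Q ^ 12889 * Q ^ 140 := by ring
      _ ≤ Q ^ 12889 * Real.sqrt m := by gcongr
  have hfin := hCB1 V (Sp s) s (Q ^ 13001) (Q ^ 2) (et s / Q ^ 13022) (2 * Q ^ 80 / R ^ 2)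
    (Q ^ 12889) (16 * Q ^ 14096 / R ^ 2) m q z D' Y Z h0S hMB (by positivity) hσ (by positivity)
    hDne (by positivity) (by positivity)
    (fun W B hB1 hB2 => (hRch 0 m hm0 W B hB1 hB2).trans hρ) (hLBl q)
    (fun d hd => by
      obtain ⟨h2, h3, h4, h5, h6⟩ := hall d hd
      obtain ⟨h7, h8⟩ := hZ d hd
      have hZN : ∀ t ∈ Z d, t ∈ N d := fun t ht => (Finset.mem_filter.1 (h7 ht)).1
      refine ⟨?_, fun t ht => hTS (h2 (hZN t ht)), fun h => hT0 (h2 (hZN 0 h)), h8,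
        fun t ht => ⟨hTσ t (h2 (hZN t ht)), ?_⟩⟩
      · rw [hR2, le_div_iff₀ hdd0]
        exact h5
      · refine le_trans (Finset.mem_filter.1 (h7 ht)).2 (RB1_.rk_mono fun g hg => ?_)
        obtain ⟨hg1, hg2⟩ := Finset.mem_inter.1 hg
        unfold Gx at hg2
        exact Finset.mem_filter.2 ⟨hg1, hTσ _ (Finset.mem_filter.1 hg2).2.1⟩)
    hspread ((RB1_.num1 Q R q hQb hRl hq1).trans hzle)
  exact absurd hfin (not_le.2 (RB1_.num2 Q R q z (et s) hQb hRl hq2 hzle het2))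

end Pool.Agent.XPS
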