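import Pool.Agent.XPS.Targets
import Pool.Agent.XPS.Pw

set_option autoImplicit false

/-!
# MP_9f5962_lc (XPS), target RB2: the numbers in the second case of the regularity claim
-/

open scoped Classical

noncomputable section

namespace Pool.Agent.XPS

open Pool.Agent.LRC

namespace RB2_

theorem quo (A B N c dd : ℝ) (hdd : 0 < dd) (hc : 0 < c) (hN : 0 < N) :
    4 * (A / dd) * B / (c * (N / dd)) = 4 * A * B / (c * N) := by
  field_simp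

/-- The numerical condition of CB2. -/
theorem cond (Q dd c q m z : ℝ) (hQ : 512 ≤ Q) (hdd : 0 < dd) (hc : Q ^ 25994 ≤ 2 * c)
    (hq : q ≤ Q ^ 12610) (hm0 : 0 ≤ m) (hm : m ≤ 2 * Q ^ 280) (hz : Q ^ 840 / 4 ≤ z) :
    8 * Q ^ 13001 * (q * m) * (4 * (Q ^ 840 / dd) * Q ^ 26074 / (c * (Q ^ 25975 / dd))) ≤ z := by
  have hQ0 : 0 < Q := by linarith
  have hQ1 : 1 ≤ Q := by linarith
  have p1 : (0 : ℝ) < Q ^ 25994 := by positivity
  have p2 : (0 : ℝ) < Q ^ 25975 := by positivity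
  have hc0 : 0 < c := by linarith
  rw [quo _ _ _ _ _ hdd hc0 p2, ← mul_div_assoc, div_le_iff₀ (mul_pos hc0 p2)]
  have hL : 8 * Q ^ 13001 * (q * m) * (4 * Q ^ 840 * Q ^ 26074) ≤ 64 * Q ^ 52805 := by
    calc 8 * Q ^ 13001 * (q * m) * (4 * Q ^ 840 * Q ^ 26074)
        ≤ 8 * Q ^ 13001 * (Q ^ 12610 * (2 * Q ^ 280)) * (4 * Q ^ 840 * Q ^ 26074) := by gcongr
      _ = 64 * Q ^ 52805 := by ring
  have hR : Q ^ 52809 / 8 ≤ z * (c * Q ^ 25975) := by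
    calc Q ^ 52809 / 8 = Q ^ 840 / 4 * (Q ^ 25994 / 2 * Q ^ 25975) := by ring
      _ ≤ z * (c * Q ^ 25975) := by
        have : Q ^ 25994 / 2 ≤ c := by linarith
        gcongr
        exact le_trans (by positivity) hz
  have h3 : 512 * Q ^ 52805 ≤ Q ^ 52809 := pw_le Q 512 52805 52809 hQ1 hQ (by norm_num)
  linarith

/-- The conclusion of CB2 is false. -/
theorem concl (Q e q r : ℝ) (hQ : 512 ≤ Q) (he : 1 ≤ e * Q ^ 4) (hq : Q ^ 12610 / 2 ≤ q)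
    (hr : Q ^ 420 / 2 ≤ r) : ¬ 3 * q * r * (e / Q ^ 13022) ≤ 4 * Q ^ 2 := by
  intro h
  have hQ0 : 0 < Q := by linarith
  have hQ1 : 1 ≤ Q := by linarith
  have p1 : (0 : ℝ) < Q ^ 13022 := by positivity
  have p4 : (0 : ℝ) < Q ^ 4 := by positivity
  rw [← mul_div_assoc, div_le_iff₀ p1] at h
  have h1 : 3 * (Q ^ 12610 / 2) * (Q ^ 420 / 2) * 1 ≤ 3 * q * r * (e * Q ^ 4) := by
    have : 0 ≤ q := le_trans (by positivity) hq
    have : 0 ≤ r := le_trans (by positivity) hr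
    gcongr
  have h2 : 3 * q * r * (e * Q ^ 4) ≤ 4 * Q ^ 2 * Q ^ 13022 * Q ^ 4 := by
    calc 3 * q * r * (e * Q ^ 4) = 3 * q * r * e * Q ^ 4 := by ring
      _ ≤ 4 * Q ^ 2 * Q ^ 13022 * Q ^ 4 := by gcongr
  have h3 : 3 * (Q ^ 12610 / 2) * (Q ^ 420 / 2) * 1 = 3 / 4 * Q ^ 13030 := by ring
  have h4 : 4 * Q ^ 2 * Q ^ 13022 * Q ^ 4 = 4 * Q ^ 13028 := by ring
  have h5 : 16 * Q ^ 13028 < Q ^ 13030 := pw_lt Q 16 13028 13030 hQ1 (by linarith) (by norm_num)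
  rw [h3] at h1
  rw [h4] at h2
  have h6 : (0 : ℝ) < Q ^ 13030 := by positivity
  linarith

end RB2_

/-- RB2. -/
theorem p_RB2 : T_CB2 → T_DRV → T_ENG → T_RB2 := by
  rintro hCB2 ⟨Q₁, h1, hDRV⟩ hENG
  refine ⟨max Q₁ 512, le_trans h1 (le_max_left _ _), ?_⟩
  intro Q hQ V _ _ _ s hs T Hu D' N dd hT hHu hdd hD hc hall
  have hQ1 : Q₁ ≤ Q := le_trans (le_max_left _ _) hQ
  have hQ2 : 512 ≤ Q := le_trans (le_max_right _ _) hQ
  have hQ0 : 0 < Q := by linarith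
  have hQone : 1 ≤ Q := by linarith
  obtain ⟨hMB, h0S, -, het4, -, -, -, hLBl, -⟩ := hDRV Q hQ1 V s hs
  obtain ⟨-, -, het, -, -, -⟩ := hs
  have p25994 : (0 : ℝ) < Q ^ 25994 := by positivity
  have p25975 : (0 : ℝ) < Q ^ 25975 := by positivity
  have p13022 : (0 : ℝ) < Q ^ 13022 := by positivity
  have p2500 : (0 : ℝ) < Q ^ 2500 := by positivity
  have p840 : (0 : ℝ) < Q ^ 840 := by positivity
  have p280 : (1 : ℝ) ≤ Q ^ 280 := one_le_pow₀ hQone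
  have p12610 : (1 : ℝ) ≤ Q ^ 12610 := one_le_pow₀ hQone
  have hdd0 : 0 < dd := by linarith
  have hne : D'.Nonempty := by
    rw [← Finset.card_pos]
    have : (0 : ℝ) < (D'.card : ℝ) := by linarith
    exact_mod_cast this
  -- the support
  have hTS : ∀ x ∈ T, x ∈ Sp s ∧ x ≠ 0 ∧ et s / Q ^ 13022 ≤ |s x| := by
    intro x hx
    rw [hT, Lv, Finset.mem_filter] at hx
    obtain ⟨-, hx0, hx1⟩ := hx
    refine ⟨?_, hx0, ?_⟩
    · rw [Sp, Finset.mem_filter]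
      refine ⟨Finset.mem_univ _, ?_⟩
      intro h
      rw [h, abs_zero, zero_mul] at hx1
      linarith
    · rw [div_le_iff₀ p13022]
      exact hx1
  have hTS' : T ⊆ Sp s := fun x hx => (hTS x hx).1
  have hGx : ∀ d t g, g ∈ Gx T Hu (Q ^ 12760) d t → g ∈ Gm T (Q ^ 12760) d ∧ d + g ∈ T ∧
      t + g ∈ T ∧ ¬ (d + g ∈ Hu ∧ t + g ∈ Hu) := by
    intro d t g hg
    rw [Gx, Finset.mem_filter] at hg
    obtain ⟨hg1, hg2, hg3, hg4⟩ := hg
    refine ⟨hg1, ?_, hg2, hg4⟩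
    rw [Gm, Finset.mem_filter] at hg1
    exact hg1.2.2.2
  have hND : ∀ d ∈ D', N d ⊆ T ∧ d ∉ N d := by
    intro d hd
    refine ⟨(hall d hd).1, fun h => ?_⟩
    exact ((hall d hd).2.1 d h).2.1 rfl
  have hm1 : ((Nat.ceil (Q ^ 280) : ℕ) : ℝ) ≤ 2 * Q ^ 280 := by
    have := (Nat.ceil_lt_add_one (a := Q ^ 280) (by positivity)).le
    linarith
  have hq1 : ((Nat.floor (Q ^ 12610) : ℕ) : ℝ) ≤ Q ^ 12610 := Nat.floor_le (by positivity)
  have hq2 : Q ^ 12610 / 2 ≤ ((Nat.floor (Q ^ 12610) : ℕ) : ℝ) := by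
    have h5 := Nat.lt_floor_add_one (Q ^ 12610)
    have h6 : (1 : ℝ) ≤ ((Nat.floor (Q ^ 12610) : ℕ) : ℝ) := by
      have : 1 ≤ Nat.floor (Q ^ 12610) := Nat.one_le_floor_iff _ |>.2 p12610
      exact_mod_cast this
    linarith
  have hz1 : Q ^ 840 / 4 ≤ ((Nat.ceil (Q ^ 840 / 4) : ℕ) : ℝ) := Nat.le_ceil _
  have hr : Q ^ 420 / 2 ≤ Real.sqrt ((Nat.ceil (Q ^ 840 / 4) : ℕ) : ℝ) := by
    apply Real.le_sqrt_of_sq_le
    calc (Q ^ 420 / 2) ^ 2 = Q ^ 840 / 4 := by ring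
      _ ≤ _ := hz1
  have hmain := hCB2 V (Sp s) Hu s (Q ^ 13001) (Q ^ 2) (et s / Q ^ 13022) (Q ^ 26074)
    (Q ^ 25975 / dd) (16 * Q ^ 14096 / dd) (Q ^ 840) dd (Nat.ceil (Q ^ 280))
    (Nat.floor (Q ^ 12610)) (Nat.ceil (Q ^ 840 / 4)) D' N (fun d => Gm T (Q ^ 12760) d)
    (fun d t => Gx T Hu (Q ^ 12760) d t) h0S hMB (by positivity) (by positivity) hne
    (by positivity) (Nat.one_le_ceil_iff.2 (by positivity)) ?_ ?_ (by positivity)
    (hLBl _) ?_ ?_ ?_ ?_ (Nat.ceil_lt_add_one (by positivity)) hz1 ?_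
  · exact RB2_.concl Q (et s) _ _ hQ2 het4 hq2 hr hmain
  · -- 64 ≤ Q ^ 840
    have := pw_le Q 64 0 840 hQone (by linarith) (by norm_num)
    simpa using this
  · -- Q ^ 840 ≤ dd
    have := pw_le Q 4 840 2500 hQone (by linarith) (by norm_num)
    linarith
  · intro d hd
    obtain ⟨-, -, a3, a4, -⟩ := hall d hd
    refine ⟨?_, ?_⟩
    · rw [div_le_iff₀ hdd0]
      exact a3
    · have h7 : 8 * ((Gm T (Q ^ 12760) d).card : ℝ) * (Q ^ 840 / dd) ≤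
          8 * (2 * Q ^ 13256) * (Q ^ 840 / dd) := by gcongr
      have h8 : 8 * (2 * Q ^ 13256) * (Q ^ 840 / dd) = 16 * Q ^ 14096 / dd := by ring
      rw [h8] at h7
      exact h7
  · intro d hd t ht
    obtain ⟨-, a2, -, -, -⟩ := hall d hd
    refine ⟨fun g hg => (hGx d t g hg).1, (a2 t ht).2.2.1, (a2 t ht).2.2.2, ?_⟩
    intro g hg
    obtain ⟨-, b1, b2, b3⟩ := hGx d t g hg
    obtain ⟨c1, c2, c3⟩ := hTS _ b1
    obtain ⟨e1, e2, e3⟩ := hTS _ b2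
    exact ⟨c1, e1, c2, e2, c3, e3, b3⟩
  · intro v hv hvH
    obtain ⟨g1, g2, -⟩ := hENG V (Sp s) T Hu D' (Q ^ 12760) N hTS' hD hND v hv
    have hEE : ((EE (Sp s) v : ℕ) : ℝ) ≤ Q ^ 26074 := by
      by_contra hcon
      apply hvH
      rw [hHu, Hb, Finset.mem_filter]
      exact ⟨hv, not_le.1 hcon⟩
    constructor
    · refine le_trans ?_ hEE
      exact_mod_cast g1
    · refine le_trans ?_ hEE
      exact_mod_cast g2
  · intro d hd Y hY1 hY2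
    obtain ⟨-, -, -, -, a5⟩ := hall d hd
    refine a5 Y hY1 ?_
    rw [le_div_iff₀ hdd0] at hY2
    exact hY2
  · exact RB2_.cond Q dd _ _ _ _ hQ2 hdd0 hc hq1 (by positivity) hm1 hz1

end Pool.Agent.XPS
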