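import Pool.Agent.XPS.Targets
import Pool.Agent.XPS.Pw

set_option autoImplicit false

/-!
# XPS, target REG: the regularity claim
-/

open scoped Classical

noncomputable section

namespace Pool.Agent.XPS

open Pool.Agent.LRC

namespace REG_

/-- The number of dyadic classes. -/
theorem ell : ∃ Q₀ : ℝ, 1 ≤ Q₀ ∧ ∀ Q : ℝ, Q₀ ≤ Q →
    ∃ L : ℕ, 0 < L ∧ 8 * (L : ℝ) ≤ Q ∧ 2 * Q ^ 13256 < (2 : ℝ) ^ L := by
  obtain ⟨Q₀, h1, h2⟩ := pw_log 212096
  refine ⟨Q₀, h1, fun Q hQ => ?_⟩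
  have hQ1 : 1 ≤ Q := h1.trans hQ
  have hQ0 : 0 < Q := by linarith
  have h3 := h2 Q hQ
  have hlog : 0 ≤ Real.log Q := Real.log_nonneg hQ1
  have h4 : 26512 * Real.log Q + 4 ≤ (Nat.ceil (26512 * Real.log Q + 4) : ℝ) := Nat.le_ceil _
  have h5 : (Nat.ceil (26512 * Real.log Q + 4) : ℝ) < 26512 * Real.log Q + 4 + 1 :=
    Nat.ceil_lt_add_one (by positivity)
  refine ⟨Nat.ceil (26512 * Real.log Q + 4), ?_, ?_, ?_⟩
  · have : (0 : ℝ) < (Nat.ceil (26512 * Real.log Q + 4) : ℝ) := by linarith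
    exact_mod_cast this
  · linarith
  · have h6 : (1 : ℝ) / 2 < Real.log 2 := by
      have := Real.log_two_gt_d9
      linarith
    have h7 : (2 : ℝ) < Real.exp 2 := by
      have := Real.add_one_lt_exp (show (2 : ℝ) ≠ 0 by norm_num)
      linarith
    have h8 : Real.exp ((13256 : ℕ) * Real.log Q) = Q ^ 13256 := by
      rw [Real.exp_nat_mul, Real.exp_log hQ0]
    have h9 : (2 : ℝ) ^ (Nat.ceil (26512 * Real.log Q + 4)) =
        Real.exp ((Nat.ceil (26512 * Real.log Q + 4) : ℕ) * Real.log 2) := by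
      rw [Real.exp_nat_mul, Real.exp_log (by norm_num)]
    rw [h9, ← h8]
    calc 2 * Real.exp ((13256 : ℕ) * Real.log Q)
        < Real.exp 2 * Real.exp ((13256 : ℕ) * Real.log Q) :=
          mul_lt_mul_of_pos_right h7 (Real.exp_pos _)
      _ = Real.exp (2 + (13256 : ℕ) * Real.log Q) := (Real.exp_add _ _).symm
      _ ≤ Real.exp ((Nat.ceil (26512 * Real.log Q + 4) : ℕ) * Real.log 2) := by
          apply Real.exp_le_exp.mpr
          have h10 : (26512 * Real.log Q + 4) * (1 / 2) ≤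
              (Nat.ceil (26512 * Real.log Q + 4) : ℝ) * Real.log 2 :=
            mul_le_mul h4 h6.le (by norm_num) (by linarith)
          push_cast
          linarith

end REG_

open REG_ in
theorem p_REG : T_RGA → T_DYA → T_RGB → T_DRV → T_REG := by
  intro hRGA hDYA hRGB hDRV
  obtain ⟨Q1, hQ1, h1⟩ := hRGB
  obtain ⟨Q2, hQ2, h2⟩ := hDRV
  obtain ⟨Q3, hQ3, h3⟩ := ell
  refine ⟨max (max Q1 Q2) (max Q3 14), ?_, ?_⟩
  · exact hQ1.trans ((le_max_left _ _).trans (le_max_left _ _))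
  intro Q hQ V _ _ _ s hs T Hu hT hHu
  have hQa : Q1 ≤ Q := ((le_max_left _ _).trans (le_max_left _ _)).trans hQ
  have hQb : Q2 ≤ Q := ((le_max_right _ _).trans (le_max_left _ _)).trans hQ
  have hQc : Q3 ≤ Q := ((le_max_left _ _).trans (le_max_right _ _)).trans hQ
  have hQd : 14 ≤ Q := ((le_max_right _ _).trans (le_max_right _ _)).trans hQ
  have hQe : 1 ≤ Q := by linarith
  have hQ0 : 0 < Q := by linarith
  have hpos : ∀ m : ℕ, 0 < Q ^ m := fun m => pow_pos hQ0 m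
  obtain ⟨-, -, -, -, -, -, hGm, -, -⟩ := h2 Q hQb V s hs
  obtain ⟨L, hL0, hL8, hL2⟩ := h3 Q hQc
  have het : 0 < et s := hs.2.2.1
  have hTS : T ⊆ Sp s := by
    intro x hx
    rw [hT] at hx
    unfold Lv at hx
    rw [Finset.mem_filter] at hx
    unfold Sp
    rw [Finset.mem_filter]
    refine ⟨Finset.mem_univ _, fun h0 => ?_⟩
    have h5 := hx.2.2
    rw [h0, abs_zero, zero_mul] at h5
    linarith
  by_contra hcon
  rw [not_le] at hcon
  set D : Finset V := T.filter (fun d => (EE (Sp s) d : ℝ) ≤ Q ^ 26016 ∧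
    (hp (Sp s) Hu d : ℝ) ≤ Q ^ 25974 ∧
    Q ^ 25976 < ((Bad T (Q ^ 12760) (Q ^ 2500) d).card : ℝ)) with hD
  have hDm : ∀ d ∈ D, d ∈ T ∧ (EE (Sp s) d : ℝ) ≤ Q ^ 26016 ∧
      (hp (Sp s) Hu d : ℝ) ≤ Q ^ 25974 ∧
      Q ^ 25976 < ((Bad T (Q ^ 12760) (Q ^ 2500) d).card : ℝ) := by
    intro d hd
    rw [hD, Finset.mem_filter] at hd
    exact hd
  have hGm' : ∀ d ∈ D, ((Gm T (Q ^ 12760) d).card : ℝ) ≤ 2 * Q ^ 13256 := by
    intro d hd
    have h5 := hDm d hd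
    have h6 := hGm d (hT ▸ h5.1) h5.2.1
    rw [← hT] at h6
    exact h6
  have hN1 : ∀ d x, x ∈ N1 T Hu (Q ^ 12760) (Q ^ 2500) d → x ∈ T ∧ x ∉ Hu ∧ x ≠ d ∧
      Q ^ 2500 / 2 ≤ ((Gx T Hu (Q ^ 12760) d x).card : ℝ) := by
    intro d x hx
    unfold N1 at hx
    rw [Finset.mem_filter] at hx
    exact ⟨hx.1, hx.2.1, hx.2.2.1, hx.2.2.2.2⟩
  have hGxle : ∀ d x, ((Gx T Hu (Q ^ 12760) d x).card : ℝ) ≤
      ((Gm T (Q ^ 12760) d).card : ℝ) := by
    intro d x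
    have : (Gx T Hu (Q ^ 12760) d x).card ≤ (Gm T (Q ^ 12760) d).card :=
      Finset.card_le_card (Finset.filter_subset _ _)
    exact_mod_cast this
  have hg : ∀ d ∈ D, ∀ x ∈ N1 T Hu (Q ^ 12760) (Q ^ 2500) d,
      1 ≤ (Gx T Hu (Q ^ 12760) d x).card ∧ (Gx T Hu (Q ^ 12760) d x).card < 2 ^ L := by
    intro d hd x hx
    have h5 := hN1 d x hx
    constructor
    · have h6 : (0 : ℝ) < ((Gx T Hu (Q ^ 12760) d x).card : ℝ) := by
        have := hpos 2500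
        linarith [h5.2.2.2]
      have h7 : 0 < (Gx T Hu (Q ^ 12760) d x).card := by exact_mod_cast h6
      omega
    · have h6 : ((Gx T Hu (Q ^ 12760) d x).card : ℝ) < (2 : ℝ) ^ L :=
        lt_of_le_of_lt ((hGxle d x).trans (hGm' d hd)) hL2
      exact_mod_cast h6
  have hW : ∀ d ∈ D, Q ^ 25976 / 4 ≤ ∑ x ∈ N1 T Hu (Q ^ 12760) (Q ^ 2500) d,
      ((Gx T Hu (Q ^ 12760) d x).card : ℝ) := by
    intro d hd
    have h5 := hDm d hd
    have h6 := hRGA V (Sp s) T Hu (Q ^ 12760) (Q ^ 2500) d hTS (by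
      have := pw_le Q 4 0 2500 hQe (by linarith) (by norm_num)
      simpa using this)
    have h7 : 14 * Q ^ 25974 ≤ Q ^ 25976 := pw_le Q 14 25974 25976 hQe hQd (by norm_num)
    linarith [h5.2.2.1, h5.2.2.2]
  obtain ⟨i, D', hiL, hD'D, hD'c, hD'W⟩ := hDYA V V D
    (fun d => N1 T Hu (Q ^ 12760) (Q ^ 2500) d) (fun d x => (Gx T Hu (Q ^ 12760) d x).card) L
    (Q ^ 25976 / 4) hL0 hg hW
  set N : V → Finset V := fun d => (N1 T Hu (Q ^ 12760) (Q ^ 2500) d).filter (fun x =>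
    2 ^ i ≤ (Gx T Hu (Q ^ 12760) d x).card ∧
      (Gx T Hu (Q ^ 12760) d x).card < 2 ^ (i + 1)) with hN
  have hNm : ∀ d, ∀ x ∈ N d, x ∈ N1 T Hu (Q ^ 12760) (Q ^ 2500) d ∧
      (2 : ℝ) ^ i ≤ ((Gx T Hu (Q ^ 12760) d x).card : ℝ) ∧
      ((Gx T Hu (Q ^ 12760) d x).card : ℝ) < 2 * (2 : ℝ) ^ i := by
    intro d x hx
    simp only [hN, Finset.mem_filter] at hx
    refine ⟨hx.1, ?_, ?_⟩
    · exact_mod_cast hx.2.1
    · have h5 : ((Gx T Hu (Q ^ 12760) d x).card : ℝ) < (2 : ℝ) ^ (i + 1) := by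
        exact_mod_cast hx.2.2
      have h6 : (2 : ℝ) ^ (i + 1) = 2 * (2 : ℝ) ^ i := by ring
      rw [h6] at h5
      exact h5
  have hddpos : (0 : ℝ) < (2 : ℝ) ^ i := by positivity
  have hbig : ∀ d ∈ D', Q ^ 25975 ≤ ((N d).card : ℝ) * (2 : ℝ) ^ i := by
    intro d hd
    have h5 : Q ^ 25976 / 4 ≤ (L : ℝ) * ∑ x ∈ N d, ((Gx T Hu (Q ^ 12760) d x).card : ℝ) :=
      hD'W d hd
    have h6 : ∑ x ∈ N d, ((Gx T Hu (Q ^ 12760) d x).card : ℝ) ≤
        ((N d).card : ℝ) * (2 * (2 : ℝ) ^ i) := by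
      calc ∑ x ∈ N d, ((Gx T Hu (Q ^ 12760) d x).card : ℝ)
          ≤ ∑ _x ∈ N d, (2 * (2 : ℝ) ^ i) := Finset.sum_le_sum fun x hx => (hNm d x hx).2.2.le
        _ = ((N d).card : ℝ) * (2 * (2 : ℝ) ^ i) := by
            rw [Finset.sum_const, nsmul_eq_mul]
    have h7 : (L : ℝ) * ∑ x ∈ N d, ((Gx T Hu (Q ^ 12760) d x).card : ℝ) ≤
        (L : ℝ) * (((N d).card : ℝ) * (2 * (2 : ℝ) ^ i)) :=
      mul_le_mul_of_nonneg_left h6 (Nat.cast_nonneg _)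
    have h8 : 8 * (L : ℝ) * (((N d).card : ℝ) * (2 : ℝ) ^ i) ≤
        Q * (((N d).card : ℝ) * (2 : ℝ) ^ i) :=
      mul_le_mul_of_nonneg_right hL8 (by positivity)
    have h9 : Q * Q ^ 25975 = Q ^ 25976 := by
      rw [← pow_succ']
    have h10 : Q * Q ^ 25975 ≤ Q * (((N d).card : ℝ) * (2 : ℝ) ^ i) := by
      rw [h9]
      nlinarith
    exact le_of_mul_le_mul_left h10 hQ0
  have hcard : Q ^ 25994 ≤ (D'.card : ℝ) := by
    have h5 : (D.card : ℝ) ≤ (L : ℝ) * (D'.card : ℝ) := by exact_mod_cast hD'c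
    have h6 : 8 * (L : ℝ) * (D'.card : ℝ) ≤ Q * (D'.card : ℝ) :=
      mul_le_mul_of_nonneg_right hL8 (Nat.cast_nonneg _)
    have h7 : 0 ≤ (L : ℝ) * (D'.card : ℝ) := by positivity
    have h9 : Q * Q ^ 25994 = Q ^ 25995 := by
      rw [← pow_succ']
    have h10 : Q * Q ^ 25994 ≤ Q * (D'.card : ℝ) := by
      rw [h9]
      nlinarith
    exact le_of_mul_le_mul_left h10 hQ0
  have hdd : Q ^ 2500 / 4 ≤ (2 : ℝ) ^ i := by
    have h5 : 0 < (D'.card : ℝ) := lt_of_lt_of_le (hpos _) hcard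
    have h6 : 0 < D'.card := by exact_mod_cast h5
    obtain ⟨d, hd⟩ := Finset.card_pos.mp h6
    have h7 : 0 < ((N d).card : ℝ) * (2 : ℝ) ^ i := lt_of_lt_of_le (hpos _) (hbig d hd)
    have h8 : 0 < ((N d).card : ℝ) := by
      by_contra h
      rw [not_lt] at h
      nlinarith
    have h9 : 0 < (N d).card := by exact_mod_cast h8
    obtain ⟨x, hx⟩ := Finset.card_pos.mp h9
    have h10 := hNm d x hx
    have h11 := hN1 d x h10.1
    linarith [h11.2.2.2, h10.2.2]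
  refine h1 Q hQa V s hs T Hu D' N ((2 : ℝ) ^ i) hT hHu hdd
    (fun d hd => (hDm d (hD'D hd)).1) hcard ?_
  intro d hd
  refine ⟨fun t ht => (hN1 d t (hNm d t ht).1).1, fun t ht => ?_, hbig d hd,
    hGm' d (hD'D hd)⟩
  have h10 := hNm d t ht
  have h11 := hN1 d t h10.1
  exact ⟨h11.2.1, h11.2.2.1, h10.2.1, h10.2.2.le⟩

end Pool.Agent.XPS
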