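import Pool.Agent.XPS.Targets

set_option autoImplicit false

open scoped Classical

set_option linter.unusedSectionVars false

noncomputable section

namespace Pool.Agent.XPS

open Pool.Agent.LRC

namespace RGA_

section
variable {V : Type} [AddCommGroup V] [Module (ZMod 2) V]

lemma dbl (x : V) : x + x = 0 := by
  have h : (2 : ZMod 2) • x = 0 := by
    have h2 : (2 : ZMod 2) = 0 := by decide
    rw [h2, zero_smul]
  rwa [two_smul] at h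

lemma eq_iff (x y z : V) : x + y = z ↔ x = z + y := by
  constructor
  · intro h
    rw [← h, add_assoc, dbl, add_zero]
  · intro h
    rw [h, add_assoc, dbl, add_zero]

lemma a1 (d g x : V) : d + (d + g) + x = x + g := by
  rw [← add_assoc, dbl, zero_add, add_comm]

lemma a2 (d g x : V) : d + (d + g) + (x + g) = x := by
  have h : d + (d + g) = g := by rw [← add_assoc, dbl, zero_add]
  rw [h, add_comm x g, ← add_assoc, dbl, zero_add]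

lemma a3 (d g x : V) : d + x + (x + g) = d + g := by
  rw [add_assoc, ← add_assoc x x g, dbl, zero_add]

end

variable {V : Type} [AddCommGroup V] [Module (ZMod 2) V] [Fintype V]

lemma mem_Gm (T : Finset V) (κ : ℝ) (d g : V) :
    g ∈ Gm T κ d ↔ g ≠ 0 ∧ κ ≤ (rr T g : ℝ) ∧ d + g ∈ T := by
  simp only [Gm, Finset.mem_filter, Finset.mem_univ, true_and]

lemma mem_Bad (T : Finset V) (κ D₀ : ℝ) (d g x : V) :
    (g, x) ∈ Bad T κ D₀ d ↔ g ∈ Gm T κ d ∧ x ∈ T ∧ x + g ∈ T ∧ x ≠ d ∧ x + g ≠ d ∧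
      D₀ < (cd T κ d x : ℝ) ∧ D₀ < (cd T κ d (x + g) : ℝ) := by
  simp only [Bad, Finset.mem_filter, Finset.mem_product]
  tauto

lemma mem_hp (S Hu : Finset V) (d x y : V) :
    (x, y) ∈ (Bk S d).filter (fun p => p.1 ∈ Hu ∧ p.2 ∈ Hu) ↔
      x ∈ S ∧ y ∈ S ∧ x ≠ y ∧ x ≠ d ∧ y ≠ d ∧ d + x + y ∈ S ∧ x ∈ Hu ∧ y ∈ Hu := by
  simp only [Bk, Finset.mem_filter, Finset.mem_product]
  tauto

lemma A1 (S T Hu : Finset V) (κ D₀ : ℝ) (d : V) (hTS : T ⊆ S) :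
    ((Bad T κ D₀ d).filter (fun p => d + p.1 ∈ Hu ∧ p.2 ∈ Hu)).card ≤ hp S Hu d := by
  unfold hp
  apply Finset.card_le_card_of_injOn (fun p => (d + p.1, p.2))
  · rintro ⟨g, x⟩ hgx
    rw [Finset.mem_coe, Finset.mem_filter, mem_Bad, mem_Gm] at hgx
    obtain ⟨⟨⟨h0, hk, hdg⟩, hx, hxg, hxd, hxgd, _, _⟩, h1, h2⟩ := hgx
    rw [Finset.mem_coe, mem_hp]
    refine ⟨hTS hdg, hTS hx, ?_, ?_, hxd, ?_, h1, h2⟩
    · intro h
      exact hxgd ((eq_iff _ _ _).2 h.symm)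
    · intro h
      exact h0 (by simpa using h)
    · rw [a1]
      exact hTS hxg
  · rintro ⟨g, x⟩ _ ⟨g', x'⟩ _ h
    simp only [Prod.mk.injEq, add_right_inj] at h
    rw [h.1, h.2]

lemma A2 (S T Hu : Finset V) (κ D₀ : ℝ) (d : V) (hTS : T ⊆ S) :
    ((Bad T κ D₀ d).filter (fun p => d + p.1 ∈ Hu ∧ p.2 + p.1 ∈ Hu)).card ≤ hp S Hu d := by
  unfold hp
  apply Finset.card_le_card_of_injOn (fun p => (d + p.1, p.2 + p.1))
  · rintro ⟨g, x⟩ hgx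
    rw [Finset.mem_coe, Finset.mem_filter, mem_Bad, mem_Gm] at hgx
    obtain ⟨⟨⟨h0, hk, hdg⟩, hx, hxg, hxd, hxgd, _, _⟩, h1, h2⟩ := hgx
    rw [Finset.mem_coe, mem_hp]
    refine ⟨hTS hdg, hTS hxg, ?_, ?_, hxgd, ?_, h1, h2⟩
    · intro h
      exact hxd (by simpa using h.symm)
    · intro h
      exact h0 (by simpa using h)
    · rw [a2]
      exact hTS hx
  · rintro ⟨g, x⟩ _ ⟨g', x'⟩ _ h
    simp only [Prod.mk.injEq, add_right_inj] at h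
    obtain ⟨h1, h2⟩ := h
    subst h1
    simp only [add_left_inj] at h2
    rw [h2]

lemma A3 (S T Hu : Finset V) (κ D₀ : ℝ) (d : V) (hTS : T ⊆ S) :
    ((Bad T κ D₀ d).filter (fun p => p.2 ∈ Hu ∧ p.2 + p.1 ∈ Hu)).card ≤ hp S Hu d := by
  unfold hp
  apply Finset.card_le_card_of_injOn (fun p => (p.2, p.2 + p.1))
  · rintro ⟨g, x⟩ hgx
    rw [Finset.mem_coe, Finset.mem_filter, mem_Bad, mem_Gm] at hgx
    obtain ⟨⟨⟨h0, hk, hdg⟩, hx, hxg, hxd, hxgd, _, _⟩, h1, h2⟩ := hgx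
    rw [Finset.mem_coe, mem_hp]
    refine ⟨hTS hx, hTS hxg, ?_, hxd, hxgd, ?_, h1, h2⟩
    · intro h
      exact h0 (by simpa using h.symm)
    · rw [a3]
      exact hTS hdg
  · rintro ⟨g, x⟩ _ ⟨g', x'⟩ _ h
    simp only [Prod.mk.injEq] at h
    obtain ⟨h1, h2⟩ := h
    subst h1
    simp only [add_right_inj] at h2
    rw [h2]

/-- The bad pairs without two hubs. -/
def A4 (T Hu : Finset V) (κ D₀ : ℝ) (d : V) : Finset (V × V) :=
  (Bad T κ D₀ d).filter (fun p => ¬ (d + p.1 ∈ Hu ∧ p.2 ∈ Hu) ∧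
    ¬ (d + p.1 ∈ Hu ∧ p.2 + p.1 ∈ Hu) ∧ ¬ (p.2 ∈ Hu ∧ p.2 + p.1 ∈ Hu))

/-- The points without the lower bound. -/
def N0 (T Hu : Finset V) (κ D₀ : ℝ) (d : V) : Finset V :=
  T.filter (fun x => x ∉ Hu ∧ x ≠ d ∧ D₀ < (cd T κ d x : ℝ))

lemma mem_A4 (T Hu : Finset V) (κ D₀ : ℝ) (d g x : V) :
    (g, x) ∈ A4 T Hu κ D₀ d ↔ (g, x) ∈ Bad T κ D₀ d ∧ ¬ (d + g ∈ Hu ∧ x ∈ Hu) ∧
      ¬ (d + g ∈ Hu ∧ x + g ∈ Hu) ∧ ¬ (x ∈ Hu ∧ x + g ∈ Hu) := by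
  simp only [A4, Finset.mem_filter]

lemma split4 (S T Hu : Finset V) (κ D₀ : ℝ) (d : V) (hTS : T ⊆ S) :
    (Bad T κ D₀ d).card ≤ 3 * hp S Hu d + (A4 T Hu κ D₀ d).card := by
  have hsub : Bad T κ D₀ d ⊆
      (((Bad T κ D₀ d).filter (fun p => d + p.1 ∈ Hu ∧ p.2 ∈ Hu)) ∪
      ((Bad T κ D₀ d).filter (fun p => d + p.1 ∈ Hu ∧ p.2 + p.1 ∈ Hu))) ∪
      (((Bad T κ D₀ d).filter (fun p => p.2 ∈ Hu ∧ p.2 + p.1 ∈ Hu)) ∪
      A4 T Hu κ D₀ d) := by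
    intro p hp
    simp only [A4, Finset.mem_union, Finset.mem_filter, hp, true_and]
    tauto
  have h := Finset.card_le_card hsub
  have h1 := A1 S T Hu κ D₀ d hTS
  have h2 := A2 S T Hu κ D₀ d hTS
  have h3 := A3 S T Hu κ D₀ d hTS
  have hu := Finset.card_union_le
    (((Bad T κ D₀ d).filter (fun p => d + p.1 ∈ Hu ∧ p.2 ∈ Hu)) ∪
      ((Bad T κ D₀ d).filter (fun p => d + p.1 ∈ Hu ∧ p.2 + p.1 ∈ Hu)))
    (((Bad T κ D₀ d).filter (fun p => p.2 ∈ Hu ∧ p.2 + p.1 ∈ Hu)) ∪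
      A4 T Hu κ D₀ d)
  have hu1 := Finset.card_union_le
    ((Bad T κ D₀ d).filter (fun p => d + p.1 ∈ Hu ∧ p.2 ∈ Hu))
      ((Bad T κ D₀ d).filter (fun p => d + p.1 ∈ Hu ∧ p.2 + p.1 ∈ Hu))
  have hu2 := Finset.card_union_le
    ((Bad T κ D₀ d).filter (fun p => p.2 ∈ Hu ∧ p.2 + p.1 ∈ Hu)) (A4 T Hu κ D₀ d)
  omega

lemma a4a (T Hu : Finset V) (κ D₀ : ℝ) (d : V) :
    ((A4 T Hu κ D₀ d).filter (fun p => p.2 ∉ Hu)).card ≤
      ∑ x ∈ N0 T Hu κ D₀ d, (Gx T Hu κ d x).card := by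
  rw [← Finset.card_sigma]
  apply Finset.card_le_card_of_injOn (fun p => ⟨p.2, p.1⟩)
  · rintro ⟨g, x⟩ hgx
    rw [Finset.mem_coe, Finset.mem_filter, mem_A4, mem_Bad] at hgx
    obtain ⟨⟨⟨hg, hx, hxg, hxd, hxgd, hc1, hc2⟩, h1, h2, h3⟩, h4⟩ := hgx
    rw [Finset.mem_coe, Finset.mem_sigma]
    simp only [N0, Gx, Finset.mem_filter]
    exact ⟨⟨hx, h4, hxd, hc1⟩, hg, hxg, hxgd, h2⟩
  · rintro ⟨g, x⟩ _ ⟨g', x'⟩ _ h
    simp only [Sigma.mk.injEq, heq_eq_eq] at h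
    rw [h.1, h.2]

lemma a4b (T Hu : Finset V) (κ D₀ : ℝ) (d : V) :
    ((A4 T Hu κ D₀ d).filter (fun p => ¬ p.2 ∉ Hu)).card ≤
      ((A4 T Hu κ D₀ d).filter (fun p => p.2 ∉ Hu)).card := by
  apply Finset.card_le_card_of_injOn (fun p => (p.1, p.2 + p.1))
  · rintro ⟨g, x⟩ hgx
    rw [Finset.mem_coe, Finset.mem_filter, mem_A4, mem_Bad] at hgx
    obtain ⟨⟨⟨hg, hx, hxg, hxd, hxgd, hc1, hc2⟩, h1, h2, h3⟩, h4⟩ := hgx
    rw [Finset.mem_coe, Finset.mem_filter, mem_A4, mem_Bad]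
    have hxx : x + g + g = x := by rw [add_assoc, dbl, add_zero]
    rw [hxx]
    simp only [not_not] at h4
    refine ⟨⟨⟨hg, hxg, hx, hxgd, hxd, hc2, hc1⟩, h2, h1, ?_⟩, ?_⟩
    · tauto
    · tauto
  · rintro ⟨g, x⟩ _ ⟨g', x'⟩ _ h
    simp only [Prod.mk.injEq] at h
    obtain ⟨h1, h2⟩ := h
    subst h1
    simp only [add_left_inj] at h2
    rw [h2]

/-- The directions with two hubs. -/
def hx (T Hu : Finset V) (κ : ℝ) (d x : V) : Finset V :=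
  (Gm T κ d).filter (fun g => x + g ∈ T ∧ x + g ≠ d ∧ (d + g ∈ Hu ∧ x + g ∈ Hu))

lemma cd_le (T Hu : Finset V) (κ : ℝ) (d x : V) :
    cd T κ d x ≤ (Gx T Hu κ d x).card + 1 + (hx T Hu κ d x).card := by
  unfold cd
  have hsub : (Gm T κ d).filter (fun g => x + g ∈ T) ⊆
      (Gx T Hu κ d x ∪ {x + d}) ∪ hx T Hu κ d x := by
    intro g hg
    simp only [Finset.mem_filter] at hg
    simp only [Finset.mem_union, Gx, hx, Finset.mem_filter, Finset.mem_singleton, hg.1, hg.2,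
      true_and]
    by_cases h : x + g = d
    · left
      right
      rw [add_comm, eq_iff] at h
      rw [h, add_comm]
    · tauto
  have h := Finset.card_le_card hsub
  have h1 := Finset.card_union_le (Gx T Hu κ d x ∪ {x + d}) (hx T Hu κ d x)
  have h2 := Finset.card_union_le (Gx T Hu κ d x) {x + d}
  rw [Finset.card_singleton] at h2
  omega

lemma sum_hx (S T Hu : Finset V) (κ : ℝ) (d : V) (hTS : T ⊆ S) (N : Finset V)
    (hN : ∀ x ∈ N, x ∈ T ∧ x ≠ d) :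
    ∑ x ∈ N, (hx T Hu κ d x).card ≤ hp S Hu d := by
  rw [← Finset.card_sigma]
  unfold hp
  apply Finset.card_le_card_of_injOn (fun p => (d + p.2, p.1 + p.2))
  · rintro ⟨x, g⟩ hgx
    rw [Finset.mem_coe, Finset.mem_sigma] at hgx
    simp only [hx, Finset.mem_filter, mem_Gm] at hgx
    obtain ⟨hxN, ⟨h0, hk, hdg⟩, hxg, hxgd, h1, h2⟩ := hgx
    obtain ⟨hxT, hxd⟩ := hN x hxN
    rw [Finset.mem_coe, mem_hp]
    refine ⟨hTS hdg, hTS hxg, ?_, ?_, hxgd, ?_, h1, h2⟩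
    · intro h
      exact hxd (by simpa using h.symm)
    · intro h
      exact h0 (by simpa using h)
    · rw [a2]
      exact hTS hxT
  · rintro ⟨x, g⟩ _ ⟨x', g'⟩ _ h
    simp only [Prod.mk.injEq, add_right_inj] at h
    obtain ⟨h1, h2⟩ := h
    subst h1
    simp only [add_left_inj] at h2
    rw [h2]

end RGA_

open RGA_ in
theorem p_RGA : T_RGA := by
  intro V _ _ _ S T Hu κ D₀ d hTS hD
  have h1 : ((Bad T κ D₀ d).card : ℝ) ≤ 3 * (hp S Hu d : ℝ) + ((A4 T Hu κ D₀ d).card : ℝ) := by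
    exact_mod_cast split4 S T Hu κ D₀ d hTS
  have h2 : (A4 T Hu κ D₀ d).card ≤ 2 * ∑ x ∈ N0 T Hu κ D₀ d, (Gx T Hu κ d x).card := by
    have ha := a4a T Hu κ D₀ d
    have hb := a4b T Hu κ D₀ d
    have hc := Finset.card_filter_add_card_filter_not (s := A4 T Hu κ D₀ d) (fun p => p.2 ∉ Hu)
    omega
  have h2' : ((A4 T Hu κ D₀ d).card : ℝ) ≤
      2 * ∑ x ∈ N0 T Hu κ D₀ d, ((Gx T Hu κ d x).card : ℝ) := by
    exact_mod_cast h2
  have hsplit : ∑ x ∈ N0 T Hu κ D₀ d, ((Gx T Hu κ d x).card : ℝ) =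
      ∑ x ∈ (N0 T Hu κ D₀ d).filter (fun x => D₀ / 2 ≤ ((Gx T Hu κ d x).card : ℝ)),
        ((Gx T Hu κ d x).card : ℝ) +
      ∑ x ∈ (N0 T Hu κ D₀ d).filter (fun x => ¬ D₀ / 2 ≤ ((Gx T Hu κ d x).card : ℝ)),
        ((Gx T Hu κ d x).card : ℝ) :=
    (Finset.sum_filter_add_sum_filter_not _ _ _).symm
  have hN1 : (N0 T Hu κ D₀ d).filter (fun x => D₀ / 2 ≤ ((Gx T Hu κ d x).card : ℝ)) =
      N1 T Hu κ D₀ d := by
    ext x
    simp only [N0, N1, Finset.mem_filter]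
    tauto
  have h3 : ∑ x ∈ (N0 T Hu κ D₀ d).filter (fun x => ¬ D₀ / 2 ≤ ((Gx T Hu κ d x).card : ℝ)),
        ((Gx T Hu κ d x).card : ℝ) ≤
      ∑ x ∈ (N0 T Hu κ D₀ d).filter (fun x => ¬ D₀ / 2 ≤ ((Gx T Hu κ d x).card : ℝ)),
        2 * ((hx T Hu κ d x).card : ℝ) := by
    apply Finset.sum_le_sum
    intro x hx'
    simp only [N0, Finset.mem_filter, not_le] at hx'
    obtain ⟨⟨_, _, _, hcd⟩, hG⟩ := hx'
    have hc : (cd T κ d x : ℝ) ≤ ((Gx T Hu κ d x).card : ℝ) + 1 + ((hx T Hu κ d x).card : ℝ) := by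
      exact_mod_cast cd_le T Hu κ d x
    linarith
  have h4 : ∑ x ∈ (N0 T Hu κ D₀ d).filter (fun x => ¬ D₀ / 2 ≤ ((Gx T Hu κ d x).card : ℝ)),
        ((hx T Hu κ d x).card : ℝ) ≤ (hp S Hu d : ℝ) := by
    have h := sum_hx S T Hu κ d hTS
      ((N0 T Hu κ D₀ d).filter (fun x => ¬ D₀ / 2 ≤ ((Gx T Hu κ d x).card : ℝ))) (by
        intro x hx'
        simp only [N0, Finset.mem_filter] at hx'
        exact ⟨hx'.1.1, hx'.1.2.2.1⟩)
    exact_mod_cast h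
  rw [← Finset.mul_sum] at h3
  rw [hsplit, hN1] at h2'
  linarith

end Pool.Agent.XPS
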