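import Pool.Agent.XPS.Targets

set_option autoImplicit false

/-!
# MP_9f5962_lc (XPS), target RGB: the dichotomy
-/

open scoped Classical

noncomputable section

namespace Pool.Agent.XPS

open Pool.Agent.LRC

/-- RGB. -/
theorem p_RGB : T_RB1 → T_RB2 → T_RGB := by
  rintro ⟨Q₁, h1, H1⟩ ⟨Q₂, h2, H2⟩
  refine ⟨max Q₁ Q₂, le_trans h1 (le_max_left _ _), ?_⟩
  intro Q hQ V _ _ _ s hs T Hu D' N dd hT hHu hdd hD hc hall
  have hQ1 : Q₁ ≤ Q := le_trans (le_max_left _ _) hQ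
  have hQ2 : Q₂ ≤ Q := le_trans (le_max_right _ _) hQ
  let P : V → Finset V → Prop := fun d Y => Y ⊆ Gm T (Q ^ 12760) d ∧
    (Y.card : ℝ) * dd ≤ 16 * Q ^ 14096 ∧ (N d).card < 4 * ((N d).filter (fun t =>
      Nat.ceil (Q ^ 280) ≤ rk (Y ∩ Gx T Hu (Q ^ 12760) d t))).card
  have hP : ∀ d Y, P d Y ↔ Y ⊆ Gm T (Q ^ 12760) d ∧
    (Y.card : ℝ) * dd ≤ 16 * Q ^ 14096 ∧ (N d).card < 4 * ((N d).filter (fun t =>
      Nat.ceil (Q ^ 280) ≤ rk (Y ∩ Gx T Hu (Q ^ 12760) d t))).card := fun _ _ => Iff.rfl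
  clear_value P
  let D1 := D'.filter (fun d => ∃ Y, P d Y)
  let D2 := D'.filter (fun d => ¬ ∃ Y, P d Y)
  have hsum : ((D1.card : ℝ)) + (D2.card : ℝ) = (D'.card : ℝ) := by
    have := Finset.card_filter_add_card_filter_not (s := D') (fun d => ∃ Y, P d Y)
    exact_mod_cast this
  by_cases hhalf : Q ^ 25994 ≤ 2 * (D1.card : ℝ)
  · have hex : ∀ d, ∃ Y : Finset V, d ∈ D1 → P d Y := by
      intro d
      by_cases hd : d ∈ D1
      · obtain ⟨Y, hY⟩ := (Finset.mem_filter.1 hd).2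
        exact ⟨Y, fun _ => hY⟩
      · exact ⟨∅, fun h => absurd h hd⟩
    choose Y hY using hex
    refine H1 Q hQ1 V s hs T Hu D1 N Y dd hT hHu hdd
      (fun d hd => hD (Finset.mem_filter.1 hd).1) hhalf ?_
    intro d hd
    obtain ⟨a1, a2, a3, a4⟩ := hall d (Finset.mem_filter.1 hd).1
    obtain ⟨b1, b2, b3⟩ := (hP d (Y d)).1 (hY d hd)
    exact ⟨a1, fun t ht => ⟨(a2 t ht).1, (a2 t ht).2.1, (a2 t ht).2.2.1⟩, a3, b2, b3.le⟩
  · have hhalf2 : Q ^ 25994 ≤ 2 * (D2.card : ℝ) := by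
      linarith [not_le.1 hhalf]
    refine H2 Q hQ2 V s hs T Hu D2 N dd hT hHu hdd
      (fun d hd => hD (Finset.mem_filter.1 hd).1) hhalf2 ?_
    intro d hd
    obtain ⟨a1, a2, a3, a4⟩ := hall d (Finset.mem_filter.1 hd).1
    refine ⟨a1, a2, a3, a4, ?_⟩
    intro Y hY1 hY2
    by_contra hcon
    exact (Finset.mem_filter.1 hd).2 ⟨Y, (hP d Y).2 ⟨hY1, hY2, not_le.1 hcon⟩⟩

end Pool.Agent.XPS
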