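import Pool.Agent.XPS.Targets

set_option autoImplicit false

/-!
# MP_9f5962_lc, project XPS: the rich lemma
-/

open scoped Classical

noncomputable section

namespace Pool.Agent.XPS

open Pool.Agent.LRC

namespace RICH_

theorem add_self_two {A : Type} [AddCommGroup A] [Module (ZMod 2) A] (x : A) : x + x = 0 := by
  have h : ((1 : ZMod 2) + 1) • x = 0 := by
    have : ((1 : ZMod 2) + 1) = 0 := by decide
    rw [this, zero_smul]
  rwa [add_smul, one_smul] at h

/-- The sum over the coset of a line. -/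
theorem cs_line {A : Type} [AddCommGroup A] [Module (ZMod 2) A] [Fintype A] (s : A → ℝ) (a x : A)
    (ha : a ≠ 0) :
    cs s (Submodule.span (ZMod 2) {a}) 0 x - s x * sg ((0 : Module.Dual (ZMod 2) A) x)
      = s (x + a) := by
  have hsg : ∀ v : A, sg ((0 : Module.Dual (ZMod 2) A) v) = 1 := by
    intro v
    simp [sg]
  have hmem : ∀ v : A, (v + x ∈ Submodule.span (ZMod 2) ({a} : Set A)) ↔
      (v = x ∨ v = x + a) := by
    intro v
    rw [Submodule.mem_span_singleton]
    constructor
    · rintro ⟨c, hc⟩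
      have h2 : c = 0 ∨ c = 1 := by
        fin_cases c
        · exact Or.inl rfl
        · exact Or.inr rfl
      rcases h2 with h2 | h2
      · left
        rw [h2, zero_smul] at hc
        have : v + x + x = x := by rw [← hc, zero_add]
        rwa [add_assoc, add_self_two, add_zero] at this
      · right
        rw [h2, one_smul] at hc
        have : v + x + x = a + x := by rw [← hc]
        rw [add_assoc, add_self_two, add_zero] at this
        rw [this, add_comm]
    · rintro (h | h)
      · exact ⟨0, by rw [h, add_self_two, zero_smul]⟩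
      · refine ⟨1, ?_⟩
        rw [h, one_smul, add_comm x a, add_assoc, add_self_two, add_zero]
  have hne : x ≠ x + a := by
    intro h
    exact ha (by simpa using h.symm)
  have hsum : cs s (Submodule.span (ZMod 2) {a}) 0 x = s x + s (x + a) := by
    unfold cs
    have h1 : ∀ v : A, (if v + x ∈ Submodule.span (ZMod 2) ({a} : Set A) then
        s v * sg ((0 : Module.Dual (ZMod 2) A) v) else 0) =
        (if v = x then s v else 0) + (if v = x + a then s v else 0) := by
      intro v
      rw [hsg v, mul_one]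
      by_cases h : v = x
      · have h' : v ≠ x + a := by rw [h]; exact hne
        rw [if_pos ((hmem v).2 (Or.inl h)), if_pos h, if_neg h', add_zero]
      · by_cases h' : v = x + a
        · rw [if_pos ((hmem v).2 (Or.inr h')), if_neg h, if_pos h', zero_add]
        · rw [if_neg (fun hh => ((hmem v).1 hh).elim h h'), if_neg h, if_neg h', add_zero]
    rw [Finset.sum_congr rfl (fun v _ => h1 v), Finset.sum_add_distrib]
    simp
  rw [hsum, hsg, mul_one]
  ring

end RICH_

open RICH_ in
theorem p_RICH : T_CHR → T_BAS → T_QUO → T_BLP → T_LH → T_RICH := by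
  intro hCHR hBAS hQUO hBLP hLH D
  obtain ⟨C₂, hC₂, hB⟩ := hBLP D
  obtain ⟨C₁, hC₁, hL⟩ := hLH D
  refine ⟨2 * C₁ + 2 * C₁ * C₂, by positivity, ?_⟩
  intro V _ _ _ s p hs hp hp1 hcard x₀ σ m hσ hm hbig W B hind hrich
  obtain ⟨-, -, hcs1, -, hs1⟩ := hBAS V s hs
  obtain ⟨-, -, hmono, -, -, hsum, -, hconst⟩ := hCHR V
  haveI : Fintype (V ⧸ W) := Fintype.ofFinite _
  -- the sum over `B` for one character
  have hone : ∀ l : Module.Dual (ZMod 2) V, ∑ t ∈ B, |cs s W l t| ≤ C₂ / p := by
    intro l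
    obtain ⟨hq1, hq2, hq3, hq4, -⟩ := hQUO V s W l
    have hBl : Bl (qs s W l) := hq1 hs
    obtain ⟨-, -, hcs1', -, -⟩ := hBAS (V ⧸ W) (qs s W l) hBl
    have hcard' : ((Sp (qs s W l)).card : ℝ) * p ^ D ≤ 1 := by
      have : ((Sp (qs s W l)).card : ℝ) ≤ ((Sp s).card : ℝ) := by
        exact_mod_cast hq2.trans hq3
      calc ((Sp (qs s W l)).card : ℝ) * p ^ D ≤ ((Sp s).card : ℝ) * p ^ D :=
            mul_le_mul_of_nonneg_right this (by positivity)
        _ ≤ 1 := hcard
    have hindep : iSupIndep (fun t : B => Submodule.span (ZMod 2) {W.mkQ (x₀ + (t : V))}) :=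
      hind.iSupIndep_span_singleton
    have hmain := hB (V ⧸ W) (qs s W l) p hcs1' hp hp1 hcard' B
      (fun t : B => Submodule.span (ZMod 2) {W.mkQ (x₀ + (t : V))}) 0 (W.mkQ x₀) hindep
    have heq : ∀ t : B, |cs (qs s W l) (Submodule.span (ZMod 2) {W.mkQ (x₀ + (t : V))}) 0
        (W.mkQ x₀) - qs s W l (W.mkQ x₀) * sg ((0 : Module.Dual (ZMod 2) (V ⧸ W)) (W.mkQ x₀))|
        = |cs s W l (t : V)| := by
      intro t
      rw [cs_line (qs s W l) (W.mkQ (x₀ + (t : V))) (W.mkQ x₀) (hind.ne_zero t)]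
      have h1 : W.mkQ x₀ + W.mkQ (x₀ + (t : V)) = W.mkQ (t : V) := by
        rw [map_add, ← add_assoc, add_self_two, zero_add]
      rw [h1, hq4]
    rw [Finset.sum_congr rfl (fun t _ => heq t)] at hmain
    rw [← Finset.sum_coe_sort B (fun t => |cs s W l t|)]
    exact hmain
  -- the average
  have havg : ∑ t ∈ B, av (fun l : Module.Dual (ZMod 2) V => |cs s W l t|) ≤ C₂ / p := by
    rw [← hsum V B (fun t l => |cs s W l t|)]
    calc av (fun l : Module.Dual (ZMod 2) V => ∑ t ∈ B, |cs s W l t|)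
        ≤ av (fun _ : Module.Dual (ZMod 2) V => C₂ / p) := hmono _ _ hone
      _ = C₂ / p := hconst _
  set X : ℝ := Real.sqrt m * σ with hX
  have hXpos : 0 < X := by
    have : (0 : ℝ) < (m : ℝ) := by exact_mod_cast hm
    exact mul_pos (Real.sqrt_pos.2 this) hσ
  have hcp : 0 ≤ ((Sp s).card : ℝ) * p ^ D := by positivity
  have hlow : ∀ t ∈ B, p * X / (2 * C₁) ≤
      av (fun l : Module.Dual (ZMod 2) V => |cs s W l t|) := by
    intro t ht
    have h := hL V s p hs1 hp hp1 W t σ m hσ.le (hrich t ht)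
    set a : ℝ := av (fun l : Module.Dual (ZMod 2) V => |cs s W l t|) with ha
    have h2 : 2 * C₁ * (((Sp s).card : ℝ) * p ^ D) ≤ X := by
      refine le_trans ?_ hbig
      refine mul_le_mul_of_nonneg_right ?_ hcp
      have : 0 ≤ 2 * C₁ * C₂ := by positivity
      linarith
    have h3 : X ≤ 2 * C₁ * (a / p) := by
      have : X ≤ C₁ * (a / p) + C₁ * (((Sp s).card : ℝ) * p ^ D) := by
        calc X ≤ C₁ * (a / p + ((Sp s).card : ℝ) * p ^ D) := h
          _ = _ := by ring
      linarith
    rw [div_le_iff₀ (by positivity)]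
    calc p * X ≤ p * (2 * C₁ * (a / p)) := mul_le_mul_of_nonneg_left h3 hp.le
      _ = a * (2 * C₁) := by field_simp
  have hfin : (B.card : ℝ) * (p * X / (2 * C₁)) ≤ C₂ / p := by
    calc (B.card : ℝ) * (p * X / (2 * C₁)) = ∑ _t ∈ B, p * X / (2 * C₁) := by
          rw [Finset.sum_const, nsmul_eq_mul]
      _ ≤ ∑ t ∈ B, av (fun l : Module.Dual (ZMod 2) V => |cs s W l t|) :=
          Finset.sum_le_sum hlow
      _ ≤ C₂ / p := havg
  have hpX : 0 < p ^ 2 * X := by positivity
  rw [le_div_iff₀ hpX]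
  have h5 : (B.card : ℝ) * (p ^ 2 * X) ≤ 2 * C₁ * C₂ := by
    have h6 : (B.card : ℝ) * (p ^ 2 * X) =
        ((B.card : ℝ) * (p * X / (2 * C₁))) * (p * (2 * C₁)) := by
      field_simp
    rw [h6]
    calc ((B.card : ℝ) * (p * X / (2 * C₁))) * (p * (2 * C₁)) ≤ (C₂ / p) * (p * (2 * C₁)) :=
          mul_le_mul_of_nonneg_right hfin (by positivity)
      _ = 2 * C₁ * C₂ := by field_simp
  linarith

end Pool.Agent.XPS
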