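import Pool.Agent.XPS.Targets

set_option autoImplicit false

/-!
# MP_9f5962_lc, job SAM: the sampling lemma (second moment)
-/

open scoped Classical

noncomputable section

namespace Pool.Agent.XPS

open Pool.Agent.LRC

namespace SAM_

section Pow

variable {V : Type}

/-- The number of pairs of `P` inside `J`. -/
def NJ (P : Finset (V × V)) (J : Finset V) : ℝ :=
  ∑ p ∈ P, (if ({p.1, p.2} : Finset V) ⊆ J then (1 : ℝ) else 0)

theorem NJ_sq (P : Finset (V × V)) (J : Finset V) :
    NJ P J ^ 2 = ∑ p ∈ P, ∑ r ∈ P,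
      (if ({p.1, p.2} ∪ {r.1, r.2} : Finset V) ⊆ J then (1 : ℝ) else 0) := by
  unfold NJ
  rw [sq, Finset.sum_mul_sum]
  refine Finset.sum_congr rfl fun p _ => Finset.sum_congr rfl fun r _ => ?_
  by_cases h1 : ({p.1, p.2} : Finset V) ⊆ J
  · by_cases h2 : ({r.1, r.2} : Finset V) ⊆ J
    · rw [if_pos h1, if_pos h2, if_pos (Finset.union_subset h1 h2)]
      norm_num
    · rw [if_pos h1, if_neg h2, if_neg (fun h => h2 (Finset.union_subset_right h))]
      norm_num
  · rw [if_neg h1, if_neg (fun h => h1 (Finset.union_subset_left h))]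
    norm_num

theorem pow_card_le (q : ℝ) (h0 : 0 ≤ q) (h1 : q ≤ 1) (a b c e : V) (hab : a ≠ b) (hce : c ≠ e) :
    q ^ ({a, b} ∪ {c, e} : Finset V).card ≤
      q ^ 4 + q ^ 3 * ((if c = a then 1 else 0) + (if c = b then 1 else 0) +
        (if e = a then 1 else 0) + (if e = b then 1 else 0)) +
      q ^ 2 * ((if c = a ∧ e = b then 1 else 0) + (if c = b ∧ e = a then 1 else 0)) := by
  have q2 : 0 ≤ q ^ 2 := pow_nonneg h0 2
  have q3 : 0 ≤ q ^ 3 := pow_nonneg h0 3
  have q4 : 0 ≤ q ^ 4 := pow_nonneg h0 4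
  have key : ∀ (T : Finset V) (n : ℕ), T.card = n → T ⊆ ({a, b} ∪ {c, e} : Finset V) →
      q ^ ({a, b} ∪ {c, e} : Finset V).card ≤ q ^ n := by
    intro T n hT hs
    exact pow_le_pow_of_le_one h0 h1 (hT ▸ Finset.card_le_card hs)
  have two : q ^ ({a, b} ∪ {c, e} : Finset V).card ≤ q ^ 2 :=
    key {a, b} 2 (Finset.card_pair hab) Finset.subset_union_left
  have three : ∀ x : V, x ≠ a → x ≠ b → x = c ∨ x = e →
      q ^ ({a, b} ∪ {c, e} : Finset V).card ≤ q ^ 3 := by
    intro x hxa hxb hx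
    refine key {x, a, b} 3 ?_ ?_
    · rw [Finset.card_insert_of_notMem (by simp [hxa, hxb]), Finset.card_pair hab]
    · intro y hy
      simp only [Finset.mem_insert, Finset.mem_singleton, Finset.mem_union] at hy ⊢
      rcases hy with rfl | hy | hy
      · right; exact hx
      · left; left; exact hy
      · left; right; exact hy
  by_cases hca : c = a
  · have hea : e ≠ a := fun h => hce (hca.trans h.symm)
    have hcb : c ≠ b := fun h => hab (hca.symm.trans h)
    by_cases heb : e = b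
    · rw [if_pos hca, if_neg hcb, if_neg hea, if_pos heb, if_pos ⟨hca, heb⟩,
        if_neg (fun h => hcb h.1)]
      linarith
    · have := three e hea heb (Or.inr rfl)
      rw [if_pos hca, if_neg hcb, if_neg hea, if_neg heb, if_neg (fun h => heb h.2),
        if_neg (fun h => hcb h.1)]
      linarith
  · by_cases hcb : c = b
    · have heb : e ≠ b := fun h => hce (hcb.trans h.symm)
      by_cases hea : e = a
      · rw [if_neg hca, if_pos hcb, if_pos hea, if_neg heb, if_neg (fun h => hca h.1),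
          if_pos ⟨hcb, hea⟩]
        linarith
      · have := three e hea heb (Or.inr rfl)
        rw [if_neg hca, if_pos hcb, if_neg hea, if_neg heb, if_neg (fun h => hca h.1),
          if_neg (fun h => hea h.2)]
        linarith
    · by_cases hea : e = a
      · have heb : e ≠ b := fun h => hab (hea.symm.trans h)
        have := three c hca hcb (Or.inl rfl)
        rw [if_neg hca, if_neg hcb, if_pos hea, if_neg heb, if_neg (fun h => hca h.1),
          if_neg (fun h => hcb h.1)]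
        linarith
      · by_cases heb : e = b
        · have := three c hca hcb (Or.inl rfl)
          rw [if_neg hca, if_neg hcb, if_neg hea, if_pos heb, if_neg (fun h => hca h.1),
            if_neg (fun h => hcb h.1)]
          linarith
        · have h4 : q ^ ({a, b} ∪ {c, e} : Finset V).card ≤ q ^ 4 := by
            refine key ({a, b} ∪ {c, e}) 4 ?_ (Finset.Subset.refl _)
            rw [Finset.card_union_of_disjoint, Finset.card_pair hab, Finset.card_pair hce]
            rw [Finset.disjoint_left]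
            intro y hy hy'
            simp only [Finset.mem_insert, Finset.mem_singleton] at hy hy'
            rcases hy with rfl | rfl
            · rcases hy' with h | h
              · exact hca h.symm
              · exact hea h.symm
            · rcases hy' with h | h
              · exact hcb h.symm
              · exact heb h.symm
          rw [if_neg hca, if_neg hcb, if_neg hea, if_neg heb, if_neg (fun h => hca h.1),
            if_neg (fun h => hcb h.1)]
          linarith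

/-- The sum of the powers over the second pair. -/
theorem sum_pow_le (q k : ℝ) (h0 : 0 ≤ q) (h1 : q ≤ 1) (P : Finset (V × V)) (a b : V)
    (hab : a ≠ b) (hP : ∀ r ∈ P, r.1 ≠ r.2)
    (hk1 : ∀ x, x = a ∨ x = b → ((P.filter (fun r => r.1 = x)).card : ℝ) ≤ k)
    (hk2 : ∀ x, x = a ∨ x = b → ((P.filter (fun r => r.2 = x)).card : ℝ) ≤ k) :
    ∑ r ∈ P, q ^ ({a, b} ∪ {r.1, r.2} : Finset V).card ≤
      q ^ 4 * (P.card : ℝ) + 4 * k * q ^ 3 + 2 * q ^ 2 := by
  have q2 : 0 ≤ q ^ 2 := pow_nonneg h0 2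
  have q3 : 0 ≤ q ^ 3 := pow_nonneg h0 3
  have hs : ∀ (Q : V × V → Prop) [DecidablePred Q],
      ∑ r ∈ P, (if Q r then (1 : ℝ) else 0) = ((P.filter Q).card : ℝ) := by
    intro Q _
    rw [Finset.sum_boole]
  have hone : ∀ x y : V, ((P.filter (fun r => r.1 = x ∧ r.2 = y)).card : ℝ) ≤ 1 := by
    intro x y
    have : (P.filter (fun r => r.1 = x ∧ r.2 = y)).card ≤ 1 := by
      rw [Finset.card_le_one]
      intro r hr t ht
      rw [Finset.mem_filter] at hr ht
      exact Prod.ext (hr.2.1.trans ht.2.1.symm) (hr.2.2.trans ht.2.2.symm)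
    exact_mod_cast this
  calc ∑ r ∈ P, q ^ ({a, b} ∪ {r.1, r.2} : Finset V).card
      ≤ ∑ r ∈ P, (q ^ 4 + q ^ 3 * ((if r.1 = a then 1 else 0) + (if r.1 = b then 1 else 0) +
        (if r.2 = a then 1 else 0) + (if r.2 = b then 1 else 0)) +
        q ^ 2 * ((if r.1 = a ∧ r.2 = b then 1 else 0) +
          (if r.1 = b ∧ r.2 = a then 1 else 0))) :=
        Finset.sum_le_sum fun r hr => pow_card_le q h0 h1 a b r.1 r.2 hab (hP r hr)
    _ = q ^ 4 * (P.card : ℝ) + q ^ 3 * (((P.filter (fun r => r.1 = a)).card : ℝ) +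
          ((P.filter (fun r => r.1 = b)).card : ℝ) + ((P.filter (fun r => r.2 = a)).card : ℝ) +
          ((P.filter (fun r => r.2 = b)).card : ℝ)) +
        q ^ 2 * (((P.filter (fun r => r.1 = a ∧ r.2 = b)).card : ℝ) +
          ((P.filter (fun r => r.1 = b ∧ r.2 = a)).card : ℝ)) := by
        rw [Finset.sum_add_distrib, Finset.sum_add_distrib, ← Finset.mul_sum, ← Finset.mul_sum,
          Finset.sum_add_distrib, Finset.sum_add_distrib, Finset.sum_add_distrib,
          Finset.sum_add_distrib, hs, hs, hs, hs, hs, hs, Finset.sum_const, nsmul_eq_mul]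
        ring
    _ ≤ q ^ 4 * (P.card : ℝ) + q ^ 3 * (k + k + k + k) + q ^ 2 * (1 + 1) := by
        have e1 := hk1 a (Or.inl rfl)
        have e2 := hk1 b (Or.inr rfl)
        have e3 := hk2 a (Or.inl rfl)
        have e4 := hk2 b (Or.inr rfl)
        have e5 := hone a b
        have e6 := hone b a
        have m1 := mul_le_mul_of_nonneg_left (add_le_add (add_le_add (add_le_add e1 e2) e3) e4) q3
        have m2 := mul_le_mul_of_nonneg_left (add_le_add e5 e6) q2
        linarith
    _ = q ^ 4 * (P.card : ℝ) + 4 * k * q ^ 3 + 2 * q ^ 2 := by ring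

/-- The second moment method: the probability that a random subset contains a pair. -/
theorem prob_ge (hB : T_BER) (q k X : ℝ) (h0 : 0 < q) (h1 : q ≤ 1) (A : Finset V)
    (P : Finset (V × V)) (hPA : ∀ r ∈ P, r.1 ∈ A ∧ r.2 ∈ A) (hP : ∀ r ∈ P, r.1 ≠ r.2)
    (hk1 : ∀ p ∈ P, ∀ x, x = p.1 ∨ x = p.2 → ((P.filter (fun r => r.1 = x)).card : ℝ) ≤ k)
    (hk2 : ∀ p ∈ P, ∀ x, x = p.1 ∨ x = p.2 → ((P.filter (fun r => r.2 = x)).card : ℝ) ≤ k)
    (hX : 0 < X) (hXP : X ≤ (P.card : ℝ)) (hq : 1 ≤ q ^ 2 * X) (hkX : k ≤ 2 * (q * X)) :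
    1 / 11 ≤ be q A (fun J => if 0 < NJ P J then (1 : ℝ) else 0) := by
  obtain ⟨b1, b2, -, -, -, -, -, bmono, badd, bmul, bsum, -⟩ := hB V q A h0.le h1
  have hPc : 0 < (P.card : ℝ) := lt_of_lt_of_le hX hXP
  -- first moment
  have hE1 : be q A (fun J => NJ P J) = q ^ 2 * (P.card : ℝ) := by
    have := bsum (V × V) P (fun p J => if ({p.1, p.2} : Finset V) ⊆ J then (1 : ℝ) else 0)
    unfold NJ
    rw [this]
    rw [Finset.sum_congr rfl (g := fun _ => q ^ 2)]
    · rw [Finset.sum_const, nsmul_eq_mul]; ring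
    · intro p hp
      rw [b2 {p.1, p.2}, Finset.card_pair (hP p hp)]
      intro x hx
      simp only [Finset.mem_insert, Finset.mem_singleton] at hx
      rcases hx with rfl | rfl
      · exact (hPA p hp).1
      · exact (hPA p hp).2
  -- second moment
  have hE2 : be q A (fun J => NJ P J ^ 2) ≤
      (P.card : ℝ) * (q ^ 4 * (P.card : ℝ) + 4 * k * q ^ 3 + 2 * q ^ 2) := by
    have e : (fun J => NJ P J ^ 2) = fun J => ∑ p ∈ P, ∑ r ∈ P,
        (if ({p.1, p.2} ∪ {r.1, r.2} : Finset V) ⊆ J then (1 : ℝ) else 0) := by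
      funext J
      exact NJ_sq P J
    rw [e]
    rw [bsum (V × V) P (fun p J => ∑ r ∈ P,
        (if ({p.1, p.2} ∪ {r.1, r.2} : Finset V) ⊆ J then (1 : ℝ) else 0))]
    rw [← nsmul_eq_mul, ← Finset.sum_const]
    refine Finset.sum_le_sum fun p hp => ?_
    rw [bsum (V × V) P (fun r J =>
        (if ({p.1, p.2} ∪ {r.1, r.2} : Finset V) ⊆ J then (1 : ℝ) else 0))]
    rw [Finset.sum_congr rfl (g := fun r : V × V =>
      q ^ ({p.1, p.2} ∪ {r.1, r.2} : Finset V).card)]
    · exact sum_pow_le q k h0.le h1 P p.1 p.2 (hP p hp) hP (hk1 p hp) (hk2 p hp)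
    · intro r hr
      refine b2 _ ?_
      intro x hx
      simp only [Finset.mem_insert, Finset.mem_singleton, Finset.mem_union] at hx
      rcases hx with (rfl | rfl) | (rfl | rfl)
      · exact (hPA p hp).1
      · exact (hPA p hp).2
      · exact (hPA r hr).1
      · exact (hPA r hr).2
  set m : ℝ := q ^ 2 * (P.card : ℝ) with hm
  have q2 : 0 < q ^ 2 := pow_pos h0 2
  have hm1 : 1 ≤ m := hq.trans (mul_le_mul_of_nonneg_left hXP q2.le)
  have hm0 : 0 < m := by linarith
  have hkP : k ≤ 2 * (q * (P.card : ℝ)) := by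
    have := mul_le_mul_of_nonneg_left hXP h0.le
    linarith
  have hE2' : be q A (fun J => NJ P J ^ 2) ≤ 11 * m ^ 2 := by
    refine hE2.trans ?_
    have t1 : (P.card : ℝ) * (4 * k * q ^ 3) ≤ 8 * m ^ 2 := by
      have := mul_le_mul_of_nonneg_left hkP (by positivity : 0 ≤ 4 * q ^ 3 * (P.card : ℝ))
      calc (P.card : ℝ) * (4 * k * q ^ 3) = 4 * q ^ 3 * (P.card : ℝ) * k := by ring
        _ ≤ 4 * q ^ 3 * (P.card : ℝ) * (2 * (q * (P.card : ℝ))) := this
        _ = 8 * m ^ 2 := by rw [hm]; ring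
    have t2 : (P.card : ℝ) * (2 * q ^ 2) ≤ 2 * m ^ 2 := by
      have : (P.card : ℝ) * (2 * q ^ 2) = 2 * m := by rw [hm]; ring
      rw [this]
      nlinarith
    have t3 : (P.card : ℝ) * (q ^ 4 * (P.card : ℝ)) = m ^ 2 := by rw [hm]; ring
    calc (P.card : ℝ) * (q ^ 4 * (P.card : ℝ) + 4 * k * q ^ 3 + 2 * q ^ 2)
        = (P.card : ℝ) * (q ^ 4 * (P.card : ℝ)) + (P.card : ℝ) * (4 * k * q ^ 3) +
          (P.card : ℝ) * (2 * q ^ 2) := by ring
      _ ≤ 11 * m ^ 2 := by linarith
  -- conclusion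
  set t : ℝ := 1 / (11 * m) with ht
  have ht0 : 0 < t := by rw [ht]; positivity
  have htm : t * m = 1 / 11 := by
    rw [ht]; field_simp
  have hlow : be q A (fun J => 2 * t * NJ P J + (-(t ^ 2)) * NJ P J ^ 2) ≤
      be q A (fun J => if 0 < NJ P J then (1 : ℝ) else 0) := by
    refine bmono _ _ fun J _ => ?_
    by_cases hJ : 0 < NJ P J
    · rw [if_pos hJ]
      nlinarith [sq_nonneg (t * NJ P J - 1)]
    · rw [if_neg hJ]
      have h00 : 0 ≤ NJ P J := by
        unfold NJ
        refine Finset.sum_nonneg fun p _ => ?_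
        split_ifs <;> norm_num
      have : NJ P J = 0 := le_antisymm (not_lt.mp hJ) h00
      rw [this]
      norm_num
  rw [badd (fun J => 2 * t * NJ P J) (fun J => (-(t ^ 2)) * NJ P J ^ 2),
    bmul (2 * t) (fun J => NJ P J), bmul (-(t ^ 2)) (fun J => NJ P J ^ 2), hE1] at hlow
  have h2 : t ^ 2 * be q A (fun J => NJ P J ^ 2) ≤ t ^ 2 * (11 * m ^ 2) :=
    mul_le_mul_of_nonneg_left hE2' (by positivity)
  have h3 : t ^ 2 * (11 * m ^ 2) = 1 / 11 := by
    have : t ^ 2 * (11 * m ^ 2) = 11 * (t * m) ^ 2 := by ring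
    rw [this, htm]; norm_num
  have h4 : 2 * t * m = 2 / 11 := by
    have : 2 * t * m = 2 * (t * m) := by ring
    rw [this, htm]; norm_num
  linarith

end Pow

section Alg

variable {V : Type} [AddCommGroup V] [Module (ZMod 2) V]

theorem add_self (x : V) : x + x = 0 := by
  have h : (2 : ZMod 2) • x = 0 := by
    have : (2 : ZMod 2) = 0 := by decide
    rw [this, zero_smul]
  rw [two_smul] at h
  exact h

theorem eq_of_add {x y : V} (h : x + y = 0) : x = y := by
  have h1 : x + y + y = 0 + y := by rw [h]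
  rw [add_assoc, add_self, add_zero, zero_add] at h1
  exact h1

/-- The pairs with a given first entry. -/
theorem card_fst (S A : Finset V) (d a : V) :
    (((Bk S d).filter (fun p => p.1 ∈ A ∧ p.2 ∈ A)).filter (fun r => r.1 = a)).card ≤
      rr S (d + a) := by
  refine Finset.card_le_card_of_injOn (fun r => r.2) ?_ ?_
  · intro r hr
    simp only [Finset.coe_filter, Set.mem_setOf_eq, Bk, Finset.mem_filter,
      Finset.mem_product] at hr
    simp only [Finset.coe_filter, Set.mem_setOf_eq]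
    obtain ⟨⟨⟨⟨-, h2⟩, -, -, -, h3⟩, -⟩, h4⟩ := hr
    refine ⟨h2, ?_⟩
    rw [h4] at h3
    rw [add_comm]
    exact h3
  · intro r hr t ht h
    simp only [Finset.coe_filter, Set.mem_setOf_eq] at hr ht
    exact Prod.ext (hr.2.trans ht.2.symm) h

/-- The pairs with a given second entry. -/
theorem card_snd (S A : Finset V) (d a : V) :
    (((Bk S d).filter (fun p => p.1 ∈ A ∧ p.2 ∈ A)).filter (fun r => r.2 = a)).card ≤
      rr S (d + a) := by
  refine Finset.card_le_card_of_injOn (fun r => r.1) ?_ ?_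
  · intro r hr
    simp only [Finset.coe_filter, Set.mem_setOf_eq, Bk, Finset.mem_filter,
      Finset.mem_product] at hr
    simp only [Finset.coe_filter, Set.mem_setOf_eq]
    obtain ⟨⟨⟨⟨h1, -⟩, -, -, -, h3⟩, -⟩, h4⟩ := hr
    refine ⟨h1, ?_⟩
    rw [h4] at h3
    have : r.1 + (d + a) = d + r.1 + a := by abel
    rw [this]
    exact h3
  · intro r hr t ht h
    simp only [Finset.coe_filter, Set.mem_setOf_eq] at hr ht
    exact Prod.ext h (hr.2.trans ht.2.symm)

/-- If a pair at `d` is in `J` then `d` is merged by the span of `J`. -/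
theorem mem_Mg (S A J : Finset V) (d : V) (hd : d ∈ S)
    (h : 0 < NJ ((Bk S d).filter (fun p => p.1 ∈ A ∧ p.2 ∈ A)) J) :
    d ∈ Mg S (Submodule.span (ZMod 2) (J : Set V)) := by
  obtain ⟨p, hp, hp0⟩ := Finset.exists_ne_zero_of_sum_ne_zero (ne_of_gt h)
  have hpJ : ({p.1, p.2} : Finset V) ⊆ J := by
    by_contra hc
    exact hp0 (if_neg hc)
  simp only [Bk, Finset.mem_filter, Finset.mem_product] at hp
  obtain ⟨⟨⟨h1, h2⟩, h3, h4, h5, h6⟩, -⟩ := hp
  unfold Mg
  rw [Finset.mem_filter]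
  refine ⟨hd, d + p.1 + p.2, h6, ?_, ?_⟩
  · intro hc
    apply h3
    have : p.1 + p.2 = 0 := by
      have h7 : d + (p.1 + p.2) = d + 0 := by rw [← add_assoc, hc, add_zero]
      exact add_left_cancel h7
    exact eq_of_add this
  · have e : d + (d + p.1 + p.2) = p.1 + p.2 := by
      have : d + (d + p.1 + p.2) = (d + d) + (p.1 + p.2) := by abel
      rw [this, add_self, zero_add]
    rw [e]
    refine Submodule.add_mem _ (Submodule.subset_span ?_) (Submodule.subset_span ?_)
    · exact Finset.mem_coe.mpr (hpJ (by simp))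
    · exact Finset.mem_coe.mpr (hpJ (by simp))

end Alg

end SAM_

open SAM_ in
/-- SAM: the sampling lemma. -/
theorem p_SAM : T_BER → T_MER → T_SAM := by
  intro hB hM V _ _ _ S A Dd K X q hMB hK hAS hDS hq0 hq1 hX hqX hKX hDd
  obtain ⟨b1, b2, -, b4, -, -, -, bmono, badd, bmul, bsum, -⟩ := hB V q A hq0.le hq1
  have hrr : ∀ g : V, g ≠ 0 → (rr S g : ℝ) ≤ 2 * K := ((hM V S K hK).2 hMB).1
  set P : V → Finset (V × V) := fun d =>
    (Bk S d).filter (fun p => p.1 ∈ A ∧ p.2 ∈ A) with hPdef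
  have hPB : ∀ d, ∀ p ∈ P d, p.1 ≠ p.2 ∧ p.1 ≠ d ∧ p.2 ≠ d ∧ p.1 ∈ A ∧ p.2 ∈ A := by
    intro d p hp
    simp only [hPdef, Bk, Finset.mem_filter, Finset.mem_product] at hp
    exact ⟨hp.1.2.1, hp.1.2.2.1, hp.1.2.2.2.1, hp.2.1, hp.2.2⟩
  have hne : ∀ d, ∀ p ∈ P d, ∀ x, x = p.1 ∨ x = p.2 → d + x ≠ 0 := by
    intro d p hp x hx h0
    have hdx := eq_of_add h0
    obtain ⟨-, h1, h2, -, -⟩ := hPB d p hp
    rcases hx with rfl | rfl
    · exact h1 hdx.symm
    · exact h2 hdx.symm
  have hprob : ∀ d ∈ Dd, 1 / 11 ≤ be q A (fun J => if 0 < NJ (P d) J then (1 : ℝ) else 0) := by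
    intro d hd
    refine prob_ge hB q (2 * K) X hq0 hq1 A (P d) (fun r hr => ?_) (fun r hr => ?_)
      (fun p hp x hx => ?_) (fun p hp x hx => ?_) hX (hDd d hd) hqX ?_
    · exact ⟨(hPB d r hr).2.2.2.1, (hPB d r hr).2.2.2.2⟩
    · exact (hPB d r hr).1
    · exact le_trans (by exact_mod_cast card_fst S A d x) (hrr (d + x) (hne d p hp x hx))
    · exact le_trans (by exact_mod_cast card_snd S A d x) (hrr (d + x) (hne d p hp x hx))
    · linarith
  have hsum : ∑ d ∈ Dd, be q A (fun J => if 0 < NJ (P d) J then (1 : ℝ) else 0) ≤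
      be q A (fun J => 2 * K * ∑ _a ∈ J, (1 : ℝ)) := by
    rw [← bsum V Dd (fun d J => if 0 < NJ (P d) J then (1 : ℝ) else 0)]
    refine bmono _ _ fun J _ => ?_
    show ∑ d ∈ Dd, (if 0 < NJ (P d) J then (1 : ℝ) else 0) ≤ 2 * K * ∑ _a ∈ J, (1 : ℝ)
    rw [Finset.sum_boole]
    have h1 : (Dd.filter (fun d => 0 < NJ (P d) J)).card ≤
        (Mg S (Submodule.span (ZMod 2) (J : Set V))).card := by
      refine Finset.card_le_card fun d hd => ?_
      rw [Finset.mem_filter] at hd
      exact mem_Mg S A J d (hDS hd.1) hd.2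
    have h2 := hMB (Submodule.span (ZMod 2) (J : Set V))
    have h3 : (Module.finrank (ZMod 2) (Submodule.span (ZMod 2) (J : Set V)) : ℝ) ≤
        (J.card : ℝ) := by
      exact_mod_cast finrank_span_finset_le_card J
    have h4 : (∑ _a ∈ J, (1 : ℝ)) = (J.card : ℝ) := by
      rw [Finset.sum_const, nsmul_eq_mul, mul_one]
    rw [h4]
    calc ((Dd.filter (fun d => 0 < NJ (P d) J)).card : ℝ)
        ≤ ((Mg S (Submodule.span (ZMod 2) (J : Set V))).card : ℝ) := by exact_mod_cast h1
      _ ≤ 2 * K * (Module.finrank (ZMod 2) (Submodule.span (ZMod 2) (J : Set V)) : ℝ) := h2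
      _ ≤ 2 * K * (J.card : ℝ) := mul_le_mul_of_nonneg_left h3 (by linarith)
  rw [bmul (2 * K) (fun J => ∑ _a ∈ J, (1 : ℝ)), b4 (fun _ => (1 : ℝ)), Finset.sum_const,
    nsmul_eq_mul, mul_one] at hsum
  have hlow : (Dd.card : ℝ) * (1 / 11) ≤
      ∑ d ∈ Dd, be q A (fun J => if 0 < NJ (P d) J then (1 : ℝ) else 0) := by
    rw [← nsmul_eq_mul, ← Finset.sum_const]
    exact Finset.sum_le_sum hprob
  have : (Dd.card : ℝ) * (1 / 11) ≤ 2 * K * (q * (A.card : ℝ)) := hlow.trans hsum
  linarith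

end Pool.Agent.XPS
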