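import Pool.Agent.XPS.Targets

set_option autoImplicit false

/-!
# One step of the merging algorithm
-/

open scoped Classical

noncomputable section

namespace Pool.Agent.XPS

open Pool.Agent.LRC

namespace STP_

theorem sg_zero : sg 0 = 1 := by simp [sg]

theorem sg_one : sg 1 = -1 := by
  unfold sg
  rw [if_neg (by decide)]

theorem zmod_cases (a : ZMod 2) : a = 0 ∨ a = 1 := by
  revert a; decide

theorem sg_add (a b : ZMod 2) : sg (a + b) = sg a * sg b := by
  rcases zmod_cases a with rfl | rfl <;> rcases zmod_cases b with rfl | rfl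
  · simp [sg_zero]
  · simp [sg_zero]
  · simp [sg_zero]
  · have h : (1 : ZMod 2) + 1 = 0 := by decide
    rw [h, sg_zero, sg_one]; norm_num

variable {V : Type} [AddCommGroup V] [Module (ZMod 2) V] [Fintype V]

theorem add_self (v : V) : v + v = 0 := by
  have h : (2 : ZMod 2) • v = v + v := two_smul _ v
  have h2 : (2 : ZMod 2) = 0 := by decide
  rw [← h, h2, zero_smul]

theorem add_eq_zero {v w : V} : v + w = 0 ↔ w = v := by
  constructor
  · intro h
    have h1 : v + w = v + v := by rw [h, add_self]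
    exact add_left_cancel h1
  · rintro rfl
    exact add_self _

theorem mem_span {x v : V} : v ∈ Submodule.span (ZMod 2) {x} ↔ v = 0 ∨ v = x := by
  rw [Submodule.mem_span_singleton]
  constructor
  · rintro ⟨a, rfl⟩
    rcases zmod_cases a with rfl | rfl
    · left; exact zero_smul _ _
    · right; exact one_smul _ _
  · rintro (rfl | rfl)
    · exact ⟨0, zero_smul _ _⟩
    · exact ⟨1, one_smul _ _⟩

theorem cs_span (s : V → ℝ) (x : V) (hx : x ≠ 0) (l : Module.Dual (ZMod 2) V) :
    cs s (Submodule.span (ZMod 2) {x}) l 0 = s 0 + s x * sg (l x) := by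
  unfold cs
  have h1 : ∀ v : V, (if v + 0 ∈ Submodule.span (ZMod 2) {x} then s v * sg (l v) else 0) =
      (if v = 0 then s v * sg (l v) else 0) + (if v = x then s v * sg (l v) else 0) := by
    intro v
    rw [add_zero]
    by_cases h0 : v = 0
    · subst h0
      rw [if_pos (mem_span.2 (Or.inl rfl)), if_pos rfl, if_neg (Ne.symm hx), add_zero]
    · by_cases h2 : v = x
      · subst h2
        rw [if_pos (mem_span.2 (Or.inr rfl)), if_neg h0, if_pos rfl, zero_add]
      · rw [if_neg (fun h => (mem_span.1 h).elim h0 h2), if_neg h0, if_neg h2, add_zero]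
  rw [Finset.sum_congr rfl fun v _ => h1 v, Finset.sum_add_distrib, Finset.sum_ite_eq',
    Finset.sum_ite_eq', if_pos (Finset.mem_univ _), if_pos (Finset.mem_univ _), map_zero, sg_zero,
    mul_one]

theorem exists_one (x : V) (hx : x ≠ 0) : ∃ l : Module.Dual (ZMod 2) V, l x = 1 := by
  by_contra hcon
  push Not at hcon
  apply hx
  refine (Module.forall_dual_apply_eq_zero_iff (ZMod 2) x).1 fun φ => ?_
  exact (zmod_cases (φ x)).resolve_right (hcon φ)

theorem first (s : V → ℝ) (x : V) (hx : x ≠ 0) :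
    ∃ l : Module.Dual (ZMod 2) V,
      |cs s (Submodule.span (ZMod 2) {x}) l 0| = |s 0| + |s x| := by
  by_cases h : 0 ≤ s 0 * s x
  · refine ⟨0, ?_⟩
    rw [cs_span s x hx, LinearMap.zero_apply, sg_zero, mul_one]
    exact (abs_add_eq_add_abs_iff _ _).2 (mul_nonneg_iff.1 h)
  · obtain ⟨l, hl⟩ := exists_one x hx
    refine ⟨l, ?_⟩
    rw [cs_span s x hx, hl, sg_one, mul_neg_one, ← abs_neg (s x)]
    have h' : 0 ≤ s 0 * -s x := by linarith
    exact (abs_add_eq_add_abs_iff _ _).2 (mul_nonneg_iff.1 h')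

theorem second (h_CHR : T_CHR) (s : V → ℝ) (W : Submodule (ZMod 2) V) :
    ∃ l : Module.Dual (ZMod 2) V, |s 0| ≤ |cs s W l 0| := by
  obtain ⟨hc1, hc2, -, -, hc5, hc6, -, -⟩ := h_CHR V
  set a : V → ℝ := fun v => if v ∈ W then s v else 0 with ha
  have hcs : ∀ l : Module.Dual (ZMod 2) V, cs s W l 0 = ∑ v, a v * sg (l v) := by
    intro l
    unfold cs
    refine Finset.sum_congr rfl fun v _ => ?_
    rw [add_zero]
    simp only [ha]
    split_ifs
    · rfl
    · rw [zero_mul]
  have hsq : ∀ l : Module.Dual (ZMod 2) V, (cs s W l 0) ^ 2 =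
      ∑ v, ∑ w, (a v * a w) * sg (l (v + w)) := by
    intro l
    rw [hcs, sq, Finset.sum_mul_sum]
    refine Finset.sum_congr rfl fun v _ => Finset.sum_congr rfl fun w _ => ?_
    rw [map_add, sg_add]
    ring
  have hav : av (fun l : Module.Dual (ZMod 2) V => (cs s W l 0) ^ 2) = ∑ v, a v ^ 2 := by
    have e1 : (fun l : Module.Dual (ZMod 2) V => (cs s W l 0) ^ 2) =
        fun l => ∑ v, ∑ w, (a v * a w) * sg (l (v + w)) := funext hsq
    rw [e1, hc6]
    refine Finset.sum_congr rfl fun v _ => ?_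
    rw [hc6]
    have e2 : ∀ w : V, av (fun l : Module.Dual (ZMod 2) V => (a v * a w) * sg (l (v + w))) =
        if w = v then a v * a w else 0 := by
      intro w
      rw [hc5, hc1]
      by_cases h : w = v
      · rw [if_pos h, if_pos (add_eq_zero.2 h), mul_one]
      · rw [if_neg h, if_neg (fun h' => h (add_eq_zero.1 h')), mul_zero]
    rw [Finset.sum_congr rfl fun w _ => e2 w, Finset.sum_ite_eq', if_pos (Finset.mem_univ _), sq]
  obtain ⟨l, hl⟩ := hc2 (fun l : Module.Dual (ZMod 2) V => (cs s W l 0) ^ 2)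
  refine ⟨l, ?_⟩
  rw [hav] at hl
  have h0 : a 0 ^ 2 ≤ ∑ v, a v ^ 2 :=
    Finset.single_le_sum (f := fun v => a v ^ 2) (fun v _ => sq_nonneg _) (Finset.mem_univ 0)
  have ha0 : a 0 = s 0 := by simp only [ha]; rw [if_pos W.zero_mem]
  rw [ha0] at h0
  exact sq_le_sq.1 (h0.trans hl)

end STP_

open STP_ in
/-- STP: one step of the merging algorithm. -/
theorem p_STP (h_CHR : T_CHR) : T_STP := by
  intro Q hQ V _ _ _ s hB hs0 het hcard hnot
  by_cases hE : ∀ x : V, x ≠ 0 → |s x| * Q ^ 12999 ≤ et s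
  · have hF : ¬ ∀ W : Submodule (ZMod 2) V, W ≠ ⊥ →
        ((Sp s).card : ℝ) < (nq (Sp s) W : ℝ) + Q ^ 13001 * (Module.finrank (ZMod 2) W : ℝ) :=
      fun hF => hnot ⟨hB, hs0, het, hcard, hE, hF⟩
    push Not at hF
    obtain ⟨W, hW, hle⟩ := hF
    obtain ⟨l, hl⟩ := second h_CHR s W
    exact ⟨W, l, hW, hl, Or.inr hle⟩
  · push Not at hE
    obtain ⟨x, hx, hlt⟩ := hE
    obtain ⟨l, hl⟩ := first s x hx
    have hQp : (0 : ℝ) < Q ^ 12999 := by positivity
    refine ⟨Submodule.span (ZMod 2) {x}, l, ?_, ?_, Or.inl ⟨finrank_span_singleton hx, ?_⟩⟩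
    · rw [Ne, Submodule.span_singleton_eq_bot]
      exact hx
    · rw [hl]
      linarith [abs_nonneg (s x)]
    · rw [hl]
      have h1 : et s / Q ^ 12999 ≤ |s x| := by
        rw [div_le_iff₀ hQp]
        exact hlt.le
      linarith

end Pool.Agent.XPS
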