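import Pool.Agent.XPS.Targets

set_option autoImplicit false

/-!
# SUM: double counting sums
-/

open scoped Classical

namespace Pool.Agent.XPS

namespace SUM_

theorem sumprod {A B : Type} (D D' : Finset A) (U : Finset B) (f g : A → B → ℝ) :
    ∑ d ∈ D, ∑ e ∈ D', ∑ y ∈ U, f d y * g e y =
      ∑ y ∈ U, (∑ d ∈ D, f d y) * (∑ e ∈ D', g e y) := by
  have h1 : ∀ y, (∑ d ∈ D, f d y) * (∑ e ∈ D', g e y) = ∑ d ∈ D, ∑ e ∈ D', f d y * g e y :=
    fun y => Finset.sum_mul_sum _ _ _ _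
  simp only [h1]
  rw [Finset.sum_comm (s := U)]
  refine Finset.sum_congr rfl fun d _ => ?_
  rw [Finset.sum_comm]

/-- The indicator of `y ∈ Y d v`. -/
noncomputable def chi {V : Type} (Y : V → V → Finset V) (d v y : V) : ℝ :=
  if y ∈ Y d v then 1 else 0

theorem chi_nn {V : Type} (Y : V → V → Finset V) (d v y : V) : 0 ≤ chi Y d v y := by
  unfold chi
  split_ifs <;> norm_num

theorem card_eq {V : Type} (Y : V → V → Finset V) (U : Finset V) (d v : V) (h : Y d v ⊆ U) :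
    ((Y d v).card : ℝ) = ∑ y ∈ U, chi Y d v y := by
  unfold chi
  rw [Finset.sum_ite_mem, Finset.sum_const, nsmul_eq_mul, mul_one,
    Finset.inter_eq_right.2 h]

theorem inter_eq {V : Type} (Y : V → V → Finset V) (U : Finset V) (d e v w : V)
    (h : Y d v ⊆ U) : ((Y d v ∩ Y e w).card : ℝ) = ∑ y ∈ U, chi Y d v y * chi Y e w y := by
  have h1 : ∀ y, chi Y d v y * chi Y e w y = if y ∈ Y d v ∩ Y e w then 1 else 0 := by
    intro y
    unfold chi
    by_cases h2 : y ∈ Y d v <;> by_cases h3 : y ∈ Y e w <;> simp [h2, h3]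
  simp only [h1]
  rw [Finset.sum_ite_mem, Finset.sum_const, nsmul_eq_mul, mul_one,
    Finset.inter_eq_right.2 (Finset.inter_subset_left.trans h)]

theorem fil1 {V : Type} (Y : V → V → Finset V) (D : Finset V) (v y : V) :
    ((D.filter (fun d => y ∈ Y d v)).card : ℝ) = ∑ d ∈ D, chi Y d v y := by
  unfold chi
  rw [Finset.card_filter]
  push_cast
  rfl

theorem fil2 {V : Type} (Y : V → V → Finset V) (D : Finset V) (d y : V) :
    ((D.filter (fun v => y ∈ Y d v)).card : ℝ) = ∑ v ∈ D, chi Y d v y := by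
  unfold chi
  rw [Finset.card_filter]
  push_cast
  rfl

theorem mul_le {B : Type} (U : Finset B) (f g : B → ℝ) (k : ℝ) (hf : ∀ y, 0 ≤ f y)
    (hg : ∀ y ∈ U, g y ≤ k) : ∑ y ∈ U, f y * g y ≤ k * ∑ y ∈ U, f y := by
  rw [Finset.mul_sum]
  refine Finset.sum_le_sum fun y hy => ?_
  rw [mul_comm k]
  exact mul_le_mul_of_nonneg_left (hg y hy) (hf y)

end SUM_

open SUM_ in
theorem p_SUM : T_SUM := by
  intro V Dd VV Y κ E₁ b K₂ n hκ hK hn hF
  obtain ⟨h1, h2, h3, h4, h5, h6, h7⟩ := hF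
  obtain ⟨U, hU⟩ : ∃ U : Finset V, ∀ d ∈ Dd, ∀ v ∈ VV, Y d v ⊆ U := by
    refine ⟨Dd.biUnion fun d => VV.biUnion fun v => Y d v, fun d hd v hv y hy => ?_⟩
    rw [Finset.mem_biUnion]
    exact ⟨d, hd, Finset.mem_biUnion.2 ⟨v, hv, hy⟩⟩
  -- the numbers of blocks
  have hNN : ∀ v ∈ VV, NN Y Dd v = ∑ d ∈ Dd, ∑ y ∈ U, chi Y d v y := fun v hv =>
    Finset.sum_congr rfl fun d hd => card_eq Y U d v (hU d hd v hv)
  have hNN2 : ∀ v ∈ VV, ∑ y ∈ U, ∑ d ∈ Dd, chi Y d v y ≤ 2 * n := fun v hv => by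
    rw [Finset.sum_comm, ← hNN v hv]
    exact (h7 v hv).2
  have hS : ∑ v ∈ VV, NN Y Dd v ≤ 2 * n * (VV.card : ℝ) := by
    have := Finset.sum_le_sum fun v hv => (h7 v hv).2
    rwa [Finset.sum_const, nsmul_eq_mul, mul_comm] at this
  have hS2 : ∑ v ∈ VV, ∑ y ∈ U, ∑ d ∈ Dd, chi Y d v y ≤ 2 * n * (VV.card : ℝ) := by
    refine le_trans (le_of_eq ?_) hS
    refine Finset.sum_congr rfl fun v hv => ?_
    rw [Finset.sum_comm, hNN v hv]
  have nn1 : ∀ v y, 0 ≤ ∑ d ∈ Dd, chi Y d v y := fun v y =>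
    Finset.sum_nonneg fun d _ => chi_nn Y d v y
  have nn2 : ∀ d y, 0 ≤ ∑ v ∈ VV, chi Y d v y := fun d y =>
    Finset.sum_nonneg fun v _ => chi_nn Y d v y
  have hNy : ∀ v ∈ VV, ∀ y, ∑ d ∈ Dd, chi Y d v y ≤ κ := fun v hv y => by
    rw [← fil1]
    exact h2 v hv y
  have hNy2 : ∀ d ∈ Dd, ∀ y, ∑ v ∈ VV, chi Y d v y ≤ κ := fun d hd y => by
    rw [← fil2]
    exact h3 d hd y
  have e1 : ∀ v ∈ VV, ∀ w ∈ VV, ∑ d ∈ Dd, ∑ e ∈ Dd, ((Y d v ∩ Y e w).card : ℝ) =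
      ∑ y ∈ U, (∑ d ∈ Dd, chi Y d v y) * (∑ d ∈ Dd, chi Y d w y) := fun v hv w hw => by
    rw [← sumprod]
    exact Finset.sum_congr rfl fun d hd => Finset.sum_congr rfl fun e _ =>
      inter_eq Y U d e v w (hU d hd v hv)
  have hc : ∑ v ∈ VV, ∑ w ∈ VV, ∑ d ∈ Dd, ((Y d v ∩ Y d w).card : ℝ) ≤
      2 * κ * (VV.card : ℝ) * n := by
    have e5 : ∑ v ∈ VV, ∑ w ∈ VV, ∑ d ∈ Dd, ((Y d v ∩ Y d w).card : ℝ) =
        ∑ d ∈ Dd, ∑ y ∈ U, (∑ v ∈ VV, chi Y d v y) * (∑ v ∈ VV, chi Y d v y) := by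
      have e6 : ∀ v ∈ VV, ∑ w ∈ VV, ∑ d ∈ Dd, ((Y d v ∩ Y d w).card : ℝ) =
          ∑ d ∈ Dd, ∑ w ∈ VV, ((Y d v ∩ Y d w).card : ℝ) := fun v _ => Finset.sum_comm
      rw [Finset.sum_congr rfl e6, Finset.sum_comm]
      refine Finset.sum_congr rfl fun d hd => ?_
      rw [← sumprod]
      exact Finset.sum_congr rfl fun v hv => Finset.sum_congr rfl fun w _ =>
        inter_eq Y U d d v w (hU d hd v hv)
    rw [e5]
    have e7 : ∑ d ∈ Dd, ∑ y ∈ U, (∑ v ∈ VV, chi Y d v y) * (∑ v ∈ VV, chi Y d v y) ≤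
        ∑ d ∈ Dd, κ * ∑ y ∈ U, ∑ v ∈ VV, chi Y d v y :=
      Finset.sum_le_sum fun d hd => mul_le U _ _ κ (nn2 d) fun y _ => hNy2 d hd y
    refine e7.trans ?_
    rw [← Finset.mul_sum]
    have e8 : ∑ d ∈ Dd, ∑ y ∈ U, ∑ v ∈ VV, chi Y d v y = ∑ v ∈ VV, NN Y Dd v := by
      rw [Finset.sum_congr rfl hNN, Finset.sum_comm]
      refine Eq.trans ?_ (Finset.sum_comm)
      rw [Finset.sum_comm]
      refine Finset.sum_congr rfl fun d _ => ?_
      rw [Finset.sum_comm]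
    rw [e8]
    have e9 := mul_le_mul_of_nonneg_left hS hκ
    linarith
  refine ⟨?_, ?_, ?_, ?_, hc, ?_⟩
  · intro v hv w hw
    rw [e1 v hv w hw]
    refine (mul_le U _ _ κ (nn1 v) fun y _ => hNy w hw y).trans ?_
    have := mul_le_mul_of_nonneg_left (hNN2 v hv) hκ
    linarith
  · rw [Finset.sum_congr rfl fun v hv => Finset.sum_congr rfl fun w hw => e1 v hv w hw,
      sumprod]
    have hD : ∀ y, ∑ v ∈ VV, ∑ d ∈ Dd, chi Y d v y ≤ E₁ := fun y => by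
      rw [Finset.sum_comm]
      have := h4 y
      simp only [fil2] at this
      exact this
    refine (mul_le U _ _ E₁ (fun y => Finset.sum_nonneg fun v _ => nn1 v y)
      fun y _ => hD y).trans ?_
    rw [Finset.sum_comm]
    rcases VV.eq_empty_or_nonempty with hV | ⟨v0, hv0⟩
    · rw [hV]
      simp
    · have hE : 0 ≤ E₁ := le_trans (Finset.sum_nonneg fun d _ => Nat.cast_nonneg _) (h4 v0)
      have := mul_le_mul_of_nonneg_left hS2 hE
      linarith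
  · intro v hv w hw
    have e2 : ∑ d ∈ Dd, ((Y d v).card : ℝ) * ((Y d w).card : ℝ) ≤
        κ * ∑ d ∈ Dd, ((Y d v).card : ℝ) :=
      mul_le Dd _ _ κ (fun d => Nat.cast_nonneg _) fun d hd => h1 d hd w hw
    refine e2.trans ?_
    have := mul_le_mul_of_nonneg_left (h7 v hv).2 hκ
    unfold NN at this
    linarith
  · rw [sumprod VV VV Dd (fun v d => ((Y d v).card : ℝ)) (fun v d => ((Y d v).card : ℝ))]
    have e2 : ∑ d ∈ Dd, (∑ v ∈ VV, ((Y d v).card : ℝ)) * (∑ v ∈ VV, ((Y d v).card : ℝ)) ≤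
        b * ∑ d ∈ Dd, ∑ v ∈ VV, ((Y d v).card : ℝ) :=
      mul_le Dd _ _ b (fun d => Finset.sum_nonneg fun v _ => Nat.cast_nonneg _) h5
    refine e2.trans ?_
    rw [Finset.sum_comm]
    rcases Dd.eq_empty_or_nonempty with hDe | ⟨d0, hd0⟩
    · rcases VV.eq_empty_or_nonempty with hV | ⟨v0, hv0⟩
      · rw [hV]
        simp
      · have h8 := (h7 v0 hv0).1
        unfold NN at h8
        rw [hDe, Finset.sum_empty] at h8
        have h9 : n = 0 := le_antisymm h8 hn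
        rw [hDe, h9]
        simp
    · have hb : 0 ≤ b := le_trans (Finset.sum_nonneg fun v _ => Nat.cast_nonneg _) (h5 d0 hd0)
      have := mul_le_mul_of_nonneg_left hS hb
      unfold NN at this
      linarith
  · have e2 : ∀ v ∈ VV, ∑ w ∈ VV, (∑ d ∈ Dd, ((Y d v ∩ Y d w).card : ℝ)) ^ 2 ≤
        4 * n ^ 2 + κ * K₂ * ∑ w ∈ VV, ∑ d ∈ Dd, ((Y d v ∩ Y d w).card : ℝ) := by
      intro v hv
      have e3 : ∀ w ∈ VV, (∑ d ∈ Dd, ((Y d v ∩ Y d w).card : ℝ)) ^ 2 ≤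
          (if w = v then 4 * n ^ 2 else 0) +
            κ * K₂ * ∑ d ∈ Dd, ((Y d v ∩ Y d w).card : ℝ) := by
        intro w hw
        have e4 : 0 ≤ ∑ d ∈ Dd, ((Y d v ∩ Y d w).card : ℝ) :=
          Finset.sum_nonneg fun d _ => Nat.cast_nonneg _
        by_cases hwv : w = v
        · rw [if_pos hwv, hwv]
          rw [hwv] at e4
          have e5 : ∑ d ∈ Dd, ((Y d v ∩ Y d v).card : ℝ) ≤ 2 * n := by
            simp only [Finset.inter_self]
            exact (h7 v hv).2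
          have e6 := pow_le_pow_left₀ e4 e5 2
          have e7 : 0 ≤ κ * K₂ * ∑ d ∈ Dd, ((Y d v ∩ Y d v).card : ℝ) := by positivity
          linarith
        · rw [if_neg hwv, zero_add, pow_two]
          exact mul_le_mul_of_nonneg_right (h6 v hv w hw (Ne.symm hwv)) e4
      refine (Finset.sum_le_sum e3).trans ?_
      rw [Finset.sum_add_distrib, Finset.sum_ite_eq_of_mem' _ _ _ hv, ← Finset.mul_sum]
    refine (Finset.sum_le_sum e2).trans ?_
    rw [Finset.sum_add_distrib, Finset.sum_const, nsmul_eq_mul, ← Finset.mul_sum]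
    have e3 : 0 ≤ κ * K₂ := mul_nonneg hκ hK
    have e4 := mul_le_mul_of_nonneg_left hc e3
    linarith

end Pool.Agent.XPS
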