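import Pool.Agent.XPS.Targets

set_option autoImplicit false

/-!
# XPS, target SUP: the set of nonzero components of an element of a direct sum
-/

open scoped Classical

noncomputable section

namespace Pool.Agent.XPS

theorem SUP_.unique {V : Type} [AddCommGroup V] [Module (ZMod 2) V] {ι : Type} [Fintype ι]
    {U : ι → Submodule (ZMod 2) V} (hU : iSupIndep U) (a b : ∀ i, U i)
    (h : ∑ i, (a i : V) = ∑ i, (b i : V)) : a = b := by
  have hinj := hU.dfinsupp_lsum_injective
  have key : ∀ c : ∀ i, U i, (DFinsupp.lsum ℕ fun i => (U i).subtype)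
      (DFinsupp.equivFunOnFintype.symm c : Π₀ i, U i) = ∑ i, (c i : V) := by
    intro c
    rw [DFinsupp.lsum_apply_apply, DFinsupp.sumAddHom_apply, DFinsupp.sum_eq_sum_fintype]
    · rfl
    · intro i; simp
  have h2 := hinj ((key a).trans (h.trans (key b).symm))
  exact DFinsupp.equivFunOnFintype.symm.injective h2

theorem p_SUP : T_SUP := by
  intro V _ _ ι _ U hU
  have hex : ∀ v : V, v ∈ (⨆ j, U j : Submodule (ZMod 2) V) →
      ∃ μ : ∀ i, U i, ∑ i, (μ i : V) = v := by
    intro v hv
    have h1 : v ∈ (⨆ j ∈ (Finset.univ : Finset ι), U j : Submodule (ZMod 2) V) := by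
      simpa using hv
    exact (Submodule.mem_iSup_finset_iff_exists_sum U v).1 h1
  choose! μ hμ using hex
  refine ⟨fun v => Finset.univ.filter (fun i => μ v i ≠ 0), fun v hv J => ?_⟩
  rw [Submodule.mem_iSup_finset_iff_exists_sum]
  constructor
  · rintro ⟨ν, hν⟩
    have h1 : μ v = fun i => if i ∈ J then ν i else 0 := by
      apply SUP_.unique hU
      rw [hμ v hv, ← hν, ← Finset.sum_subset (Finset.subset_univ J)]
      · refine Finset.sum_congr rfl fun i hi => ?_
        rw [if_pos hi]
      · intro i _ hi
        rw [if_neg hi]; rfl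
    intro i hi
    rw [Finset.mem_filter] at hi
    by_contra hc
    apply hi.2
    rw [h1]
    simp [hc]
  · intro hsub
    refine ⟨μ v, (Finset.sum_subset (Finset.subset_univ J) ?_).trans (hμ v hv)⟩
    intro i _ hi
    by_contra hc
    apply hi
    apply hsub
    rw [Finset.mem_filter]
    refine ⟨Finset.mem_univ _, fun h0 => hc ?_⟩
    rw [h0]; rfl

end Pool.Agent.XPS
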