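import Pool.Agent.XPS.FNL

set_option autoImplicit false

/-!
# MP_9f5962_lc, project XPS, TREE: parity decision trees
-/

open scoped Classical

noncomputable section

namespace Pool.Agent.XPS

open Pool.Agent.LRC

/-- Parity decision trees: `query a t₀ t₁` asks for the parity `∑ i, a i * x i`. -/
inductive PT (n : ℕ) : Type
  | leaf (b : Bool) : PT n
  | query (a : Fin n → ZMod 2) (t₀ t₁ : PT n) : PT n

/-- The depth of a tree: the largest number of queries on a path. -/
def PT.depth {n : ℕ} : PT n → ℕ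
  | PT.leaf _ => 0
  | PT.query _ t₀ t₁ => max t₀.depth t₁.depth + 1

/-- The output of a tree. -/
def PT.out {n : ℕ} : PT n → (Fin n → ZMod 2) → Bool
  | PT.leaf b, _ => b
  | PT.query a t₀ t₁, x => if ∑ i, a i * x i = 0 then t₀.out x else t₁.out x

namespace TREE_

theorem fun_repr {n : ℕ} (l : Module.Dual (ZMod 2) (Fin n → ZMod 2)) (x : Fin n → ZMod 2) :
    l x = ∑ i, l (Pi.single i 1) * x i := by
  have h : x = ∑ i, x i • (Pi.single i (1 : ZMod 2) : Fin n → ZMod 2) := by
    funext j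
    simp [Finset.sum_apply, Pi.single_apply]
  conv_lhs => rw [h]
  rw [map_sum]
  refine Finset.sum_congr rfl fun i _ => ?_
  rw [map_smul, smul_eq_mul, mul_comm]

/-- `K` queries followed by trees of depth at most `d`. -/
theorem queries {n : ℕ} (d : ℕ) : ∀ (K : ℕ) (l : Fin K → Module.Dual (ZMod 2) (Fin n → ZMod 2))
    (G : (Fin K → ZMod 2) → PT n), (∀ v, (G v).depth ≤ d) →
    ∃ t : PT n, t.depth ≤ K + d ∧ ∀ x, t.out x = (G (fun i => l i x)).out x := by
  intro K
  induction K with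
  | zero =>
    intro l G hG
    refine ⟨G (fun i => Fin.elim0 i), by simpa using hG _, fun x => ?_⟩
    congr 2
    funext i
    exact Fin.elim0 i
  | succ K ih =>
    intro l G hG
    obtain ⟨t₀, h₀, e₀⟩ := ih (fun i => l i.succ) (fun v => G (Fin.cons 0 v)) (fun v => hG _)
    obtain ⟨t₁, h₁, e₁⟩ := ih (fun i => l i.succ) (fun v => G (Fin.cons 1 v)) (fun v => hG _)
    refine ⟨PT.query (fun i => l 0 (Pi.single i 1)) t₀ t₁, ?_, fun x => ?_⟩
    · simp only [PT.depth]
      omega
    · simp only [PT.out]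
      rw [← fun_repr (l 0) x]
      have hc : ∀ c : ZMod 2, l 0 x = c →
          (fun i => l i x) = (Fin.cons c (fun i : Fin K => l i.succ x) : Fin (K + 1) → ZMod 2) := by
        intro c hc
        funext i
        refine Fin.cases ?_ (fun i => ?_) i
        · simpa using hc
        · simp
      by_cases h : l 0 x = 0
      · rw [if_pos h, e₀, hc 0 h]
      · have h1 : l 0 x = 1 := by
          revert h
          generalize l 0 x = c
          revert c
          decide
        rw [if_neg h, e₁, hc 1 h1]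

/-- The sparsity and the sparsity at nonzero functionals. -/
theorem spa_le {E : Type} [AddCommGroup E] [Module (ZMod 2) E] [Finite E] (F : E → ℝ) :
    spa F ≤ sp1 F + 1 := by
  have hfd : Finite (Module.Dual (ZMod 2) E) :=
    Finite.of_injective (fun l : Module.Dual (ZMod 2) E => (l : E → ZMod 2))
      DFunLike.coe_injective
  unfold spa sp1
  rw [← Finite.card_option]
  refine Nat.card_le_card_of_injective
    (fun l : {l : Module.Dual (ZMod 2) E // fco F l ≠ 0} =>
      if h : l.1 ≠ 0 then some (⟨l.1, h, l.2⟩ : {l : Module.Dual (ZMod 2) E // l ≠ 0 ∧ fco F l ≠ 0})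
      else none) ?_
  intro l l' h
  apply Subtype.ext
  by_cases h1 : l.1 ≠ 0
  · by_cases h2 : l'.1 ≠ 0
    · simp only [h1, h2, dite_true, ne_eq, not_false_eq_true, Option.some.injEq,
        Subtype.mk.injEq] at h
      exact h
    · simp only [h1, h2, dite_true, dite_false, ne_eq, not_false_eq_true, reduceCtorEq] at h
  · by_cases h2 : l'.1 ≠ 0
    · simp only [h1, h2, dite_true, dite_false, ne_eq, not_false_eq_true, reduceCtorEq] at h
    · push Not at h1 h2
      rw [h1, h2]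

end TREE_

/-- Trees and protocols from kill numbers which depend on the sparsity. -/
theorem TREE_.main (n : ℕ) (f : (Fin n → ZMod 2) → Bool) (κ : ℕ → ℕ)
    (hk : ∀ (m : ℕ) (x : Fin n → ZMod 2) (W : Submodule (ZMod 2) (Fin n → ZMod 2)),
      sp1 (fun w : W => ind f (x + (w : Fin n → ZMod 2))) < 2 ^ (m + 1) →
      ∃ x₁, x₁ - x ∈ W ∧ ∃ W' : Submodule (ZMod 2) (Fin n → ZMod 2), W' ≤ W ∧
      Module.finrank (ZMod 2) W ≤ κ m + Module.finrank (ZMod 2) W' ∧
      ∀ w ∈ W', f (x₁ + w) = f x₁) :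
    ∀ m : ℕ, sp1 (ind f) < 2 ^ m → ∃ t : PT n, t.depth ≤ ∑ i ∈ Finset.range m, κ i ∧
      (∀ x, t.out x = f x) ∧ Prot f (2 * ∑ i ∈ Finset.range m, κ i) := by
  have hPlan := Pool.Agent.LRC.p_PLAN
  have hFold := Pool.Agent.LRC.p_FOLD hPlan
  have hFun := Pool.Agent.LRC.p_FUN
  have hQry := Pool.Agent.LRC.p_QRY
  have claim : ∀ (m : ℕ) (x : Fin n → ZMod 2) (W : Submodule (ZMod 2) (Fin n → ZMod 2)),
      sp1 (fun w : W => ind f (x + (w : Fin n → ZMod 2))) < 2 ^ m →
      ∃ t : PT n, t.depth ≤ ∑ i ∈ Finset.range m, κ i ∧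
        Prot t.out (2 * ∑ i ∈ Finset.range m, κ i) ∧ ∀ w ∈ W, t.out (x + w) = f (x + w) := by
    intro m
    induction m with
    | zero =>
      intro x W h
      have h0 : sp1 (fun w : W => ind f (x + (w : Fin n → ZMod 2))) = 0 := by
        rw [pow_zero] at h
        omega
      refine ⟨PT.leaf (f x), by simp [PT.depth], PDT_.prot_const _ _, fun w hw => ?_⟩
      have h1 := PDT_.const_of_sp1 hPlan _ h0 (0 : W) ⟨w, hw⟩
      have h2 := PDT_.ind_inj f _ _ h1
      simpa [PT.out] using h2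
    | succ m ih =>
      intro x W h
      obtain ⟨x₁, hx₁, W', hle, hdim, hconst⟩ := hk m x W h
      obtain ⟨l, hl⟩ := hFun _ W' W (κ m) hle hdim
      have hg : ∀ v : Fin (κ m) → ZMod 2, ∃ t : PT n, t.depth ≤ ∑ i ∈ Finset.range m, κ i ∧
          Prot t.out (2 * ∑ i ∈ Finset.range m, κ i) ∧
          ∀ u ∈ W, (∀ i, l i (x + u) = v i) → t.out (x + u) = f (x + u) := by
        intro v
        by_cases hv : ∃ u ∈ W, ∀ i, l i (x + u) = v i
        · obtain ⟨u, hu, huv⟩ := hv
          have hF := hFold _ W' W f x x₁ (x + u) hle hx₁ (by simpa using hu) hconst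
          have hlt : sp1 (fun w : W' => ind f (x + u + (w : Fin n → ZMod 2))) < 2 ^ m := by
            rw [pow_succ] at h
            omega
          obtain ⟨t, ht1, ht2, ht3⟩ := ih (x + u) W' hlt
          refine ⟨t, ht1, ht2, fun u' hu' huv' => ?_⟩
          have hw : u' - u ∈ W' := by
            apply hl _ (W.sub_mem hu' hu)
            intro i
            have e : u' - u = (x + u') - (x + u) := by abel
            rw [e, map_sub, huv, huv', sub_self]
          have h3 := ht3 _ hw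
          have e2 : x + u + (u' - u) = x + u' := by abel
          rwa [e2] at h3
        · exact ⟨PT.leaf true, by simp [PT.depth], PDT_.prot_const _ _,
            fun u hu huv => absurd ⟨u, hu, huv⟩ hv⟩
      choose G hG1 hG2 hG3 using hg
      obtain ⟨t, ht1, ht2⟩ := TREE_.queries (n := n) (∑ i ∈ Finset.range m, κ i) (κ m) l G hG1
      have hout : t.out = fun z => (G (fun i => l i z)).out z := by
        funext z
        exact ht2 z
      refine ⟨t, ?_, ?_, fun w hw => ?_⟩
      · rw [Finset.sum_range_succ]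
        omega
      · have h4 := hQry n (κ m) (2 * ∑ i ∈ Finset.range m, κ i) l (fun v => (G v).out) hG2
        have e : 2 * ∑ i ∈ Finset.range (m + 1), κ i =
            2 * κ m + 2 * ∑ i ∈ Finset.range m, κ i := by
          rw [Finset.sum_range_succ]
          ring
        rw [e, hout]
        exact h4
      · rw [ht2]
        exact hG3 _ w hw fun i => rfl
  intro m hm
  have h1 : sp1 (fun w : (⊤ : Submodule (ZMod 2) (Fin n → ZMod 2)) =>
      ind f (0 + (w : Fin n → ZMod 2))) < 2 ^ m := by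
    refine lt_of_le_of_lt ?_ hm
    have h2 := PDT_.sp1_equiv (Submodule.topEquiv :
      (⊤ : Submodule (ZMod 2) (Fin n → ZMod 2)) ≃ₗ[ZMod 2] (Fin n → ZMod 2)) (ind f)
    refine le_trans (le_of_eq ?_) h2
    congr 1
    funext w
    rw [zero_add]
    rfl
  obtain ⟨t, ht1, ht2, ht3⟩ := claim m 0 ⊤ h1
  have htf : ∀ z, t.out z = f z := by
    intro z
    have := ht3 z Submodule.mem_top
    rwa [zero_add] at this
  have htf' : t.out = f := funext htf
  rw [htf'] at ht2
  exact ⟨t, ht1, htf, ht2⟩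

/-- The geometric sum. -/
theorem TREE_.geo (C a : ℝ) (hC : 0 < C) (ha : 0 < a) (κ : ℕ → ℕ)
    (hκ : ∀ m, (κ m : ℝ) ≤ C * ((2 : ℝ) ^ (m + 1)) ^ a + C) :
    ∃ B : ℝ, 0 < B ∧ ∀ r : ℕ, 1 ≤ r →
      ((∑ i ∈ Finset.range (Nat.log 2 r + 1), κ i : ℕ) : ℝ) ≤ B * (r : ℝ) ^ a := by
  set g : ℝ := (2 : ℝ) ^ a with hg
  have hg1 : 1 < g := Real.one_lt_rpow (by norm_num) ha
  have hpow : ∀ m : ℕ, ((2 : ℝ) ^ m) ^ a = g ^ m := by
    intro m
    rw [hg, ← Real.rpow_natCast, ← Real.rpow_natCast, ← Real.rpow_mul (by norm_num),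
      ← Real.rpow_mul (by norm_num), mul_comm]
  have hsum : ∀ m : ℕ, ((∑ i ∈ Finset.range m, κ i : ℕ) : ℝ) ≤
      C * (g / (g - 1)) * g ^ m + C * m := by
    intro m
    induction m with
    | zero =>
      simp only [Finset.range_zero, Finset.sum_empty, Nat.cast_zero, pow_zero, mul_one, mul_zero,
        add_zero]
      have : 0 < g - 1 := by linarith
      positivity
    | succ m ih =>
      rw [Finset.sum_range_succ]
      push_cast
      have h1 := hκ m
      rw [hpow] at h1
      have h2 : C * (g / (g - 1)) * g ^ (m + 1) = C * (g / (g - 1)) * g ^ m + C * g ^ (m + 1) := by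
        have : g - 1 ≠ 0 := by linarith
        field_simp
        ring
      rw [h2]
      push_cast at ih
      linarith
  have hl2 : 0 < Real.log 2 := Real.log_pos (by norm_num)
  refine ⟨C * (g / (g - 1)) * g + C * (1 / (a * Real.log 2) + 1), ?_, fun r hr => ?_⟩
  · have : 0 < g - 1 := by linarith
    positivity
  · have hr1 : (1 : ℝ) ≤ (r : ℝ) := by exact_mod_cast hr
    have h1 := hsum (Nat.log 2 r + 1)
    have h2 := FNL_.rounds hr ha
    have h3 : g ^ (Nat.log 2 r) ≤ (r : ℝ) ^ a := by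
      rw [← hpow]
      apply Real.rpow_le_rpow (by positivity) _ ha.le
      have := Nat.pow_log_le_self 2 (by omega : r ≠ 0)
      exact_mod_cast this
    have h4 : 0 < C * (g / (g - 1)) * g := by
      have : 0 < g - 1 := by linarith
      positivity
    calc ((∑ i ∈ Finset.range (Nat.log 2 r + 1), κ i : ℕ) : ℝ)
        ≤ C * (g / (g - 1)) * g ^ (Nat.log 2 r + 1) + C * ((Nat.log 2 r + 1 : ℕ) : ℝ) := h1
      _ = C * (g / (g - 1)) * g * g ^ (Nat.log 2 r) + C * ((Nat.log 2 r + 1 : ℕ) : ℝ) := by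
          rw [pow_succ]; ring
      _ ≤ C * (g / (g - 1)) * g * (r : ℝ) ^ a +
          C * ((1 / (a * Real.log 2) + 1) * (r : ℝ) ^ a) := by
          gcongr
      _ = _ := by ring

/-- Every Boolean function has a parity decision tree of depth at most `C * rank ^ (1/2 - 1/26000)`
and a protocol of twice this cost. -/
theorem p_TREE : T_KIL → ∃ C : ℝ, 0 < C ∧ ∀ (n : ℕ) (f : (Fin n → ZMod 2) → Bool),
    ∃ (d : ℕ) (t : PT n), (d : ℝ) ≤ C * (xrk f : ℝ) ^ ((1 / 2 : ℝ) - 1 / 26000) ∧ t.depth ≤ d ∧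
      (∀ x, t.out x = f x) ∧ Prot f (2 * d) := by
  rintro ⟨C0, hC0, hK⟩
  have ha : (0 : ℝ) < (1 / 2 : ℝ) - 1 / 26000 := by norm_num
  set a : ℝ := (1 / 2 : ℝ) - 1 / 26000 with hadef
  set κ : ℕ → ℕ := fun m => ⌈C0 * ((2 : ℝ) ^ (m + 1)) ^ a + C0⌉₊ with hκdef
  obtain ⟨B, hB0, hB⟩ := TREE_.geo (C0 + 1) a (by linarith) ha κ (by
    intro m
    have h1 : ((⌈C0 * ((2 : ℝ) ^ (m + 1)) ^ a + C0⌉₊ : ℕ) : ℝ) <
        C0 * ((2 : ℝ) ^ (m + 1)) ^ a + C0 + 1 := Nat.ceil_lt_add_one (by positivity)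
    have h2 : 0 ≤ ((2 : ℝ) ^ (m + 1)) ^ a := by positivity
    simp only [hκdef]
    linarith)
  refine ⟨B, hB0, fun n f => ?_⟩
  by_cases hcon : ∀ x y, f x = f y
  · refine ⟨0, PT.leaf (f 0), ?_, le_refl _, fun x => hcon 0 x, ?_⟩
    · simp only [Nat.cast_zero]
      positivity
    · have h1 : f = fun _ => f 0 := by
        funext x
        exact hcon x 0
      rw [h1]
      exact PDT_.prot_const _ _
  have hn : ∃ x y, f x ≠ f y := by
    by_contra h
    apply hcon
    intro x y
    by_contra h'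
    exact h ⟨x, y, h'⟩
  have hsp : spa (ind f) ≤ xrk f := p_RNK n f
  have h2 : 2 ≤ xrk f := ((p_NCO _ f).2 hn).trans hsp
  set r : ℕ := xrk f with hr
  have hm : sp1 (ind f) < 2 ^ (Nat.log 2 r + 1) :=
    lt_of_le_of_lt (((p_NCO _ f).1).trans hsp) (Nat.lt_pow_succ_log_self (by norm_num) r)
  have hkill : ∀ (m : ℕ) (x : Fin n → ZMod 2) (W : Submodule (ZMod 2) (Fin n → ZMod 2)),
      sp1 (fun w : W => ind f (x + (w : Fin n → ZMod 2))) < 2 ^ (m + 1) →
      ∃ x₁, x₁ - x ∈ W ∧ ∃ W' : Submodule (ZMod 2) (Fin n → ZMod 2), W' ≤ W ∧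
        Module.finrank (ZMod 2) W ≤ κ m + Module.finrank (ZMod 2) W' ∧
        ∀ w ∈ W', f (x₁ + w) = f x₁ := by
    intro m x W hlt
    obtain ⟨x₀, W', h3, h4⟩ := hK W (fun w : W => f (x + (w : Fin n → ZMod 2)))
    refine ⟨x + (x₀ : Fin n → ZMod 2), ?_, W'.map W.subtype, ?_, ?_, ?_⟩
    · rw [add_sub_cancel_left]
      exact x₀.2
    · exact Submodule.map_subtype_le W W'
    · have h5 : spa (ind (fun w : W => f (x + (w : Fin n → ZMod 2)))) ≤ 2 ^ (m + 1) := by
        have h6 := TREE_.spa_le (ind (fun w : W => f (x + (w : Fin n → ZMod 2))))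
        have h7 : sp1 (ind (fun w : W => f (x + (w : Fin n → ZMod 2)))) < 2 ^ (m + 1) := hlt
        omega
      have h7 : ((spa (ind (fun w : W => f (x + (w : Fin n → ZMod 2)))) : ℕ) : ℝ) ^ a ≤
          ((2 : ℝ) ^ (m + 1)) ^ a :=
        Real.rpow_le_rpow (Nat.cast_nonneg _) (by exact_mod_cast h5) ha.le
      have h8 : C0 * ((2 : ℝ) ^ (m + 1)) ^ a + C0 ≤ (κ m : ℝ) := Nat.le_ceil _
      have h9 := mul_le_mul_of_nonneg_left h7 hC0.le
      have h10 : Module.finrank (ZMod 2) (W'.map W.subtype) = Module.finrank (ZMod 2) W' :=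
        Submodule.finrank_map_subtype_eq W W'
      rw [h10]
      have h11 : (Module.finrank (ZMod 2) W : ℝ) ≤
          (κ m : ℝ) + (Module.finrank (ZMod 2) W' : ℝ) := by
        linarith
      exact_mod_cast h11
    · rintro w ⟨v, hv, rfl⟩
      have h12 := h4 v hv
      simp only [Submodule.coe_add] at h12
      rw [add_assoc]
      exact h12
  obtain ⟨t, ht1, ht2, ht3⟩ := TREE_.main n f κ hkill _ hm
  exact ⟨_, t, hB r (by omega), ht1, ht2, ht3⟩

end Pool.Agent.XPS
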