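import Pool.Agent.XPS.Targets
import Pool.Agent.XPS.Pw

set_option autoImplicit false

/-!
# MP_9f5962_lc: few blocks with two good heavy directions
-/

open scoped Classical

noncomputable section

namespace Pool.Agent.XPS

open Pool.Agent.LRC

namespace TWO_

theorem num (Q : ℝ) (hQ : 10000 ≤ Q)
    (h : (Q ^ 12720 / 4 / (2 * (16 * Q ^ 2741)) - 8 * (1 / Q ^ 3280) * (2 * Q ^ 13256)) *
      Real.sqrt (1 / Q ^ 3280 * (Q ^ 12720 / 4) / (2 * (16 * Q ^ 2741))) ≤ Q ^ 13029) :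
    False := by
  have h1 : 1 ≤ Q := by linarith
  have h0 : 0 < Q := by linarith
  have p1 : ∀ n : ℕ, 0 < Q ^ n := fun n => pow_pos h0 n
  have e1 : Q ^ 12720 / 4 / (2 * (16 * Q ^ 2741)) = Q ^ 9979 / 128 := by
    have e : Q ^ 12720 = Q ^ 9979 * Q ^ 2741 := by rw [← pow_add]
    rw [e, div_div, div_eq_div_iff (mul_pos (by norm_num) (mul_pos (by norm_num)
      (mul_pos (by norm_num) (p1 _)))).ne' (by norm_num)]
    ring
  have e2 : 8 * (1 / Q ^ 3280) * (2 * Q ^ 13256) = 16 * Q ^ 9976 := by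
    have e : Q ^ 13256 = Q ^ 9976 * Q ^ 3280 := by rw [← pow_add]
    have e' : 1 / Q ^ 3280 * Q ^ 3280 = 1 := by
      rw [one_div, inv_mul_cancel₀ (p1 _).ne']
    rw [e]
    calc 8 * (1 / Q ^ 3280) * (2 * (Q ^ 9976 * Q ^ 3280))
        = 16 * Q ^ 9976 * (1 / Q ^ 3280 * Q ^ 3280) := by ring
      _ = 16 * Q ^ 9976 := by rw [e', mul_one]
  have e3 : 1 / Q ^ 3280 * (Q ^ 12720 / 4) / (2 * (16 * Q ^ 2741)) = Q ^ 6699 / 128 := by
    have e : Q ^ 12720 = Q ^ 6699 * Q ^ 2741 * Q ^ 3280 := by rw [← pow_add, ← pow_add]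
    have e' : 1 / Q ^ 3280 * Q ^ 3280 = 1 := by
      rw [one_div, inv_mul_cancel₀ (p1 _).ne']
    rw [e]
    rw [show 1 / Q ^ 3280 * (Q ^ 6699 * Q ^ 2741 * Q ^ 3280 / 4) =
      (1 / Q ^ 3280 * Q ^ 3280) * (Q ^ 6699 * Q ^ 2741 / 4) by ring, e', one_mul, div_div,
      div_eq_div_iff (mul_pos (by norm_num) (mul_pos (by norm_num)
      (mul_pos (by norm_num) (p1 _)))).ne' (by norm_num)]
    ring
  rw [e1, e2, e3] at h
  have f1 : Q ^ 9979 / 256 ≤ Q ^ 9979 / 128 - 16 * Q ^ 9976 := by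
    have := pw_le Q 4096 9976 9979 h1 (by linarith) (by norm_num)
    linarith
  have f2 : Q ^ 3349 / 12 ≤ Real.sqrt (Q ^ 6699 / 128) := by
    apply Real.le_sqrt_of_sq_le
    have e : (Q ^ 3349 / 12) ^ 2 = Q ^ 6698 / 144 := by
      rw [div_pow, ← pow_mul]
      norm_num
    rw [e]
    have := pw_mono Q 6698 6699 h1 (by norm_num)
    have := p1 6698
    linarith
  have f3 : Q ^ 9979 / 256 * (Q ^ 3349 / 12) ≤ Q ^ 13029 := by
    refine le_trans ?_ h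
    apply mul_le_mul f1 f2
    · exact (div_pos (p1 _) (by norm_num)).le
    · exact (div_pos (p1 _) (by norm_num)).le.trans f1
  have f4 : Q ^ 9979 / 256 * (Q ^ 3349 / 12) = Q ^ 13328 / 3072 := by
    rw [show (13328 : ℕ) = 9979 + 3349 by norm_num, pow_add]
    ring
  rw [f4] at f3
  have := pw_lt Q 3072 13029 13328 h1 (by linarith) (by norm_num)
  linarith

end TWO_

theorem p_TWO : T_HV2 → T_DEN → T_DRV → T_TWO := by
  intro h_HV2 h_DEN h_DRV
  obtain ⟨Q₁, hQ₁, hD⟩ := h_DRV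
  refine ⟨max Q₁ 10000, le_max_of_le_left hQ₁, ?_⟩
  intro Q hQ V _ _ _ s hS T G d hT hG hd hE
  have hQ1 : Q₁ ≤ Q := (le_max_left _ _).trans hQ
  have hQ2 : 10000 ≤ Q := (le_max_right _ _).trans hQ
  have hQ3 : 1 ≤ Q := by linarith
  have hQ0 : 0 < Q := by linarith
  have p1 : ∀ n : ℕ, 0 < Q ^ n := fun n => pow_pos hQ0 n
  obtain ⟨hMB, h0S, het1, het2, hs0, hcard, hGm, hLB, hRch⟩ := hD Q hQ1 V s hS
  have het : 0 < et s := hS.2.2.1
  by_contra hcon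
  push Not at hcon
  have hTS : T ⊆ Sp s := by
    intro x hx
    rw [hT] at hx
    unfold Lv at hx
    rw [Finset.mem_filter] at hx
    unfold Sp
    rw [Finset.mem_filter]
    refine ⟨Finset.mem_univ _, fun h => ?_⟩
    have := hx.2.2
    rw [h, abs_zero, zero_mul] at this
    linarith
  have hGc : (G.card : ℝ) ≤ 2 * Q ^ 13256 := by
    refine le_trans ?_ (hGm d (by rw [← hT]; exact hd) hE)
    rw [hG, hT]
    exact_mod_cast Finset.card_le_card (Finset.filter_subset _ _)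
  have hGL : ∀ X ⊆ G, (X.card : ℝ) ≤ 16 * Q ^ 2741 * (rk X : ℝ) := by
    intro X hX
    rw [hG] at hX
    have h8 : (8 : ℝ) ≤ Q ^ 12760 := by
      have := pw_le Q 8 0 12760 hQ3 (by linarith) (by norm_num)
      simpa using this
    have h := h_DEN V (Sp s) T (Q ^ 13001) (Q ^ 12760) (Q ^ 2500) d X hTS hMB (p1 _).le h8
      (p1 _).le hX
    have e : 16 * Q ^ 13001 * Q ^ 2500 * (rk X : ℝ) = 16 * Q ^ 2741 * (rk X : ℝ) * Q ^ 12760 := by
      have e1 : Q ^ 13001 * Q ^ 2500 = Q ^ 2741 * Q ^ 12760 := by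
        rw [← pow_add, ← pow_add]
      calc 16 * Q ^ 13001 * Q ^ 2500 * (rk X : ℝ)
          = 16 * (Q ^ 13001 * Q ^ 2500) * (rk X : ℝ) := by ring
        _ = 16 * (Q ^ 2741 * Q ^ 12760) * (rk X : ℝ) := by rw [e1]
        _ = _ := by ring
    rw [e] at h
    exact le_of_mul_le_mul_right h (p1 _)
  have hN : Q ^ 25976 ≤ (((G ×ˢ G).filter (fun x => x.1 ≠ x.2 ∧
      et s / Q ^ 13022 ≤ |s (d + x.1 + x.2)|)).card : ℝ) := by
    refine hcon.le.trans ?_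
    have hsub : (G ×ˢ G).filter (fun x => x.1 ≠ x.2 ∧ d + x.1 + x.2 ∈ T) ⊆
        (G ×ˢ G).filter (fun x => x.1 ≠ x.2 ∧ et s / Q ^ 13022 ≤ |s (d + x.1 + x.2)|) := by
      intro x hx
      rw [Finset.mem_filter] at hx ⊢
      refine ⟨hx.1, hx.2.1, ?_⟩
      have h2 := hx.2.2
      rw [hT] at h2
      unfold Lv at h2
      rw [Finset.mem_filter] at h2
      rw [div_le_iff₀ (p1 _)]
      exact h2.2.2
    exact_mod_cast Finset.card_le_card hsub
  have hL1 : 1 ≤ 16 * Q ^ 2741 := by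
    have := pw_one Q 2741 hQ3
    linarith
  have hN0 : Q ^ 25976 = 2 * (2 * Q ^ 13256) * (Q ^ 12720 / 4) := by
    rw [show (25976 : ℕ) = 13256 + 12720 by norm_num, pow_add]
    ring
  have hp1 : 1 / Q ^ 3280 ≤ 1 := by
    rw [div_le_one (p1 _)]
    exact pw_one Q 3280 hQ3
  have hpD : 64 ≤ 1 / Q ^ 3280 * (Q ^ 12720 / 4) := by
    have e : Q ^ 12720 = Q ^ 9440 * Q ^ 3280 := by rw [← pow_add]
    have e' : 1 / Q ^ 3280 * Q ^ 3280 = 1 := by
      rw [one_div, inv_mul_cancel₀ (p1 _).ne']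
    have e2 : 1 / Q ^ 3280 * (Q ^ 12720 / 4) = Q ^ 9440 / 4 := by
      rw [e]
      calc 1 / Q ^ 3280 * (Q ^ 9440 * Q ^ 3280 / 4)
          = (1 / Q ^ 3280 * Q ^ 3280) * (Q ^ 9440 / 4) := by ring
        _ = Q ^ 9440 / 4 := by rw [e', one_mul]
    rw [e2]
    have := pw_le Q 256 0 9440 hQ3 (by linarith) (by norm_num)
    rw [pow_zero] at this
    linarith
  have h := h_HV2 V s (et s / Q ^ 13022) (Q ^ 13029) (16 * Q ^ 2741) (2 * Q ^ 13256)
    (Q ^ 25976) (Q ^ 12720 / 4) (1 / Q ^ 3280) d G (div_pos het (p1 _)) (p1 _) hL1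
    (mul_pos (by norm_num) (p1 _)) hGc hGL (fun m hm => hRch d m hm) hN hN0
    (div_pos one_pos (p1 _)) hp1 hpD
  exact TWO_.num Q hQ2 h

end Pool.Agent.XPS
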