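import Pool.Agent.XPS.Targets

set_option autoImplicit false

/-!
# MP_9f5962_lc, job WLK: closed walks which use every colour evenly
-/

open scoped Classical

noncomputable section

namespace Pool.Agent.XPS

private lemma WLK_pow_symm {St : Type} [Fintype St] (A : Matrix St St ℝ)
    (hs : ∀ u w, A u w = A w u) (n : ℕ) (u w : St) : (A ^ n) u w = (A ^ n) w u := by
  have h : A.transpose = A := by ext i j; exact hs j i
  have h2 := Matrix.transpose_pow A n
  rw [h] at h2
  calc (A ^ n) u w = (A ^ n).transpose w u := rfl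
    _ = (A ^ n) w u := by rw [h2]

private lemma WLK_dbl {St : Type} [Fintype St] (A : Matrix St St ℝ)
    (hs : ∀ u w, A u w = A w u) (n : ℕ) :
    (∑ u, ∑ v, (A ^ n) u v) ^ 2 ≤ (Fintype.card St : ℝ) * ∑ u, ∑ v, (A ^ (2 * n)) u v := by
  have h1 : ∑ u, ∑ v, (A ^ (2 * n)) u v = ∑ x, (∑ v, (A ^ n) x v) ^ 2 := by
    rw [two_mul, pow_add]
    simp only [Matrix.mul_apply]
    calc ∑ u, ∑ v, ∑ x, (A ^ n) u x * (A ^ n) x v
        = ∑ u, ∑ x, ∑ v, (A ^ n) u x * (A ^ n) x v :=
          Finset.sum_congr rfl fun u _ => Finset.sum_comm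
      _ = ∑ x, ∑ u, ∑ v, (A ^ n) u x * (A ^ n) x v := Finset.sum_comm
      _ = ∑ x, (∑ v, (A ^ n) x v) ^ 2 := by
        refine Finset.sum_congr rfl fun x _ => ?_
        rw [sq, Finset.sum_mul_sum]
        refine Finset.sum_congr rfl fun u _ => Finset.sum_congr rfl fun v _ => ?_
        rw [WLK_pow_symm A hs n u x]
  rw [h1]
  exact sq_sum_le_card_mul_sum_sq

private lemma WLK_tr {St : Type} [Fintype St] (A : Matrix St St ℝ)
    (hs : ∀ u w, A u w = A w u) (n : ℕ) :
    (∑ u, ∑ v, (A ^ n) u v) ^ 2 ≤ (Fintype.card St : ℝ) ^ 2 * ∑ u, (A ^ (2 * n)) u u := by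
  have h1 : ∑ u, (A ^ (2 * n)) u u = ∑ x, ∑ v, (A ^ n) x v ^ 2 := by
    rw [two_mul, pow_add]
    simp only [Matrix.mul_apply]
    refine Finset.sum_congr rfl fun u _ => Finset.sum_congr rfl fun v _ => ?_
    rw [WLK_pow_symm A hs n v u, sq]
  rw [h1]
  calc (∑ u, ∑ v, (A ^ n) u v) ^ 2
      ≤ (Fintype.card St : ℝ) * ∑ u, (∑ v, (A ^ n) u v) ^ 2 := sq_sum_le_card_mul_sum_sq
    _ ≤ (Fintype.card St : ℝ) * ∑ u, (Fintype.card St : ℝ) * ∑ v, (A ^ n) u v ^ 2 := by
        refine mul_le_mul_of_nonneg_left ?_ (by positivity)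
        exact Finset.sum_le_sum fun u _ => sq_sum_le_card_mul_sum_sq
    _ = (Fintype.card St : ℝ) ^ 2 * ∑ x, ∑ v, (A ^ n) x v ^ 2 := by
        rw [← Finset.mul_sum]; ring

private lemma WLK_low {St : Type} [Fintype St] [Nonempty St] (A : Matrix St St ℝ)
    (hs : ∀ u w, A u w = A w u) (D : ℝ) (hD : 0 ≤ D)
    (h : (Fintype.card St : ℝ) * D ≤ ∑ u, ∑ v, A u v) (j : ℕ) :
    (Fintype.card St : ℝ) * D ^ (2 ^ j) ≤ ∑ u, ∑ v, (A ^ (2 ^ j)) u v := by
  have hN : (0 : ℝ) < (Fintype.card St : ℝ) := by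
    exact_mod_cast Fintype.card_pos
  induction j with
  | zero => simpa using h
  | succ j ih =>
    have h1 := WLK_dbl A hs (2 ^ j)
    have h2 : ((Fintype.card St : ℝ) * D ^ (2 ^ j)) ^ 2 ≤
        (∑ u, ∑ v, (A ^ (2 ^ j)) u v) ^ 2 :=
      pow_le_pow_left₀ (by positivity) ih 2
    have h3 : (2 : ℕ) ^ (j + 1) = 2 * 2 ^ j := by ring
    rw [h3]
    have h4 : (Fintype.card St : ℝ) * ((Fintype.card St : ℝ) * D ^ (2 * 2 ^ j)) ≤
        (Fintype.card St : ℝ) * ∑ u, ∑ v, (A ^ (2 * 2 ^ j)) u v := by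
      calc (Fintype.card St : ℝ) * ((Fintype.card St : ℝ) * D ^ (2 * 2 ^ j))
          = ((Fintype.card St : ℝ) * D ^ (2 ^ j)) ^ 2 := by ring
        _ ≤ _ := h2.trans h1
    exact le_of_mul_le_mul_left h4 hN

/-- The total weight of the walks of length `n` from `u` to `w₀` whose colours used an odd number
of times form the set `O`. -/
private def WLK_wk {St V : Type} [Fintype St] (L : Finset V) (a : V → St → St → ℝ) (w₀ : St) :
    ℕ → St → Finset V → ℝ
  | 0, u, O => if u = w₀ ∧ O = ∅ then 1 else 0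
  | n + 1, u, O => ∑ d ∈ L, ∑ w, a d u w * WLK_wk L a w₀ n w (symmDiff O {d})

private lemma WLK_nonneg {St V : Type} [Fintype St] (L : Finset V) (a : V → St → St → ℝ)
    (w₀ : St) (ha : ∀ d u w, 0 ≤ a d u w) (n : ℕ) :
    ∀ (u : St) (O : Finset V), 0 ≤ WLK_wk L a w₀ n u O := by
  induction n with
  | zero => intro u O; unfold WLK_wk; split_ifs <;> norm_num
  | succ n ih =>
    intro u O
    unfold WLK_wk
    exact Finset.sum_nonneg fun d _ => Finset.sum_nonneg fun w _ => mul_nonneg (ha _ _ _) (ih _ _)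

private lemma WLK_sd {V : Type} (O : Finset V) (d : V) :
    symmDiff (symmDiff O {d}) {d} = O := by
  rw [symmDiff_assoc, symmDiff_self, symmDiff_bot]

private lemma WLK_pow {St V : Type} [Fintype St] (L : Finset V) (a : V → St → St → ℝ)
    (w₀ : St) (n : ℕ) :
    ∀ u : St, ((Matrix.of fun u w => ∑ d ∈ L, a d u w : Matrix St St ℝ) ^ n) u w₀ =
      ∑ O ∈ L.powerset, WLK_wk L a w₀ n u O := by
  induction n with
  | zero =>
    intro u
    rw [pow_zero, Matrix.one_apply]
    rw [Finset.sum_eq_single ∅]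
    · simp [WLK_wk]
    · intro O _ hO
      simp [WLK_wk, hO]
    · intro h; exact absurd (Finset.empty_mem_powerset L) h
  | succ n ih =>
    intro u
    rw [pow_succ', Matrix.mul_apply]
    simp only [ih, Matrix.of_apply]
    have h1 : ∀ O ∈ L.powerset, WLK_wk L a w₀ (n + 1) u O =
        ∑ d ∈ L, ∑ w, a d u w * WLK_wk L a w₀ n w (symmDiff O {d}) := fun O _ => rfl
    rw [Finset.sum_congr rfl h1]
    calc ∑ w, (∑ d ∈ L, a d u w) * ∑ O ∈ L.powerset, WLK_wk L a w₀ n w O
        = ∑ w, ∑ d ∈ L, ∑ O ∈ L.powerset, a d u w * WLK_wk L a w₀ n w O := by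
          refine Finset.sum_congr rfl fun w _ => ?_
          rw [Finset.sum_mul]
          refine Finset.sum_congr rfl fun d _ => ?_
          rw [Finset.mul_sum]
      _ = ∑ d ∈ L, ∑ w, ∑ O ∈ L.powerset, a d u w * WLK_wk L a w₀ n w O := Finset.sum_comm
      _ = ∑ d ∈ L, ∑ w, ∑ O ∈ L.powerset, a d u w * WLK_wk L a w₀ n w (symmDiff O {d}) := by
          refine Finset.sum_congr rfl fun d hd => Finset.sum_congr rfl fun w _ => ?_
          refine Finset.sum_bij' (fun O _ => symmDiff O {d}) (fun O _ => symmDiff O {d})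
            ?_ ?_ ?_ ?_ ?_
          · intro O hO
            rw [Finset.mem_powerset] at hO ⊢
            intro x hx
            rw [Finset.mem_symmDiff] at hx
            rcases hx with hx | hx
            · exact hO hx.1
            · rw [Finset.mem_singleton.1 hx.1]; exact hd
          · intro O hO
            rw [Finset.mem_powerset] at hO ⊢
            intro x hx
            rw [Finset.mem_symmDiff] at hx
            rcases hx with hx | hx
            · exact hO hx.1
            · rw [Finset.mem_singleton.1 hx.1]; exact hd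
          · intro O _; exact WLK_sd O d
          · intro O _; exact WLK_sd O d
          · intro O _; simp only [WLK_sd]
      _ = ∑ d ∈ L, ∑ O ∈ L.powerset, ∑ w, a d u w * WLK_wk L a w₀ n w (symmDiff O {d}) :=
          Finset.sum_congr rfl fun d _ => Finset.sum_comm
      _ = ∑ O ∈ L.powerset, ∑ d ∈ L, ∑ w, a d u w * WLK_wk L a w₀ n w (symmDiff O {d}) :=
          Finset.sum_comm

private lemma WLK_two {V : Type} [AddCommGroup V] [Module (ZMod 2) V] (x : V) : x + x = 0 := by
  have h : (2 : ZMod 2) • x = 0 := by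
    have : (2 : ZMod 2) = 0 := by decide
    rw [this, zero_smul]
  rwa [two_smul] at h

private lemma WLK_sumsd {V : Type} [AddCommGroup V] [Module (ZMod 2) V] (O : Finset V) (d : V) :
    ∑ e ∈ symmDiff O {d}, e = ∑ e ∈ O, e + d := by
  by_cases hd : d ∈ O
  · have h1 : symmDiff O {d} = O.erase d := by
      ext x
      simp only [Finset.mem_symmDiff, Finset.mem_singleton, Finset.mem_erase]
      constructor
      · rintro (⟨h1, h2⟩ | ⟨h1, h2⟩)
        · exact ⟨h2, h1⟩
        · subst h1; exact absurd hd h2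
      · rintro ⟨h1, h2⟩
        exact Or.inl ⟨h2, h1⟩
    rw [h1]
    have h2 := Finset.add_sum_erase O (fun e => e) hd
    have h3 : ∑ e ∈ O, e = d + ∑ e ∈ O.erase d, e := h2.symm
    rw [h3, add_right_comm, WLK_two, zero_add]
  · have h1 : symmDiff O {d} = insert d O := by
      ext x
      simp only [Finset.mem_symmDiff, Finset.mem_singleton, Finset.mem_insert]
      constructor
      · rintro (⟨h1, h2⟩ | ⟨h1, h2⟩)
        · exact Or.inr h1
        · exact Or.inl h1
      · rintro (h1 | h1)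
        · subst h1; exact Or.inr ⟨rfl, hd⟩
        · refine Or.inl ⟨h1, ?_⟩
          rintro rfl; exact hd h1
    rw [h1, Finset.sum_insert hd, add_comm]

private lemma WLK_par {St V : Type} [Fintype St] [AddCommGroup V] [Module (ZMod 2) V]
    (L : Finset V) (R : Submodule (ZMod 2) V) (φ : St → V) (a : V → St → St → ℝ)
    (w₀ : St) (h : ∀ d ∈ L, ∀ u w, a d u w ≠ 0 → φ u + φ w + d ∈ R) (n : ℕ) :
    ∀ (u : St) (O : Finset V), WLK_wk L a w₀ n u O ≠ 0 →
      φ u + φ w₀ + ∑ e ∈ O, e ∈ R := by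
  induction n with
  | zero =>
    intro u O hne
    unfold WLK_wk at hne
    split_ifs at hne with h1
    · rw [h1.1, h1.2, Finset.sum_empty, add_zero, WLK_two]
      exact R.zero_mem
    · exact absurd rfl hne
  | succ n ih =>
    intro u O hne
    have h0 : WLK_wk L a w₀ (n + 1) u O =
        ∑ d ∈ L, ∑ w, a d u w * WLK_wk L a w₀ n w (symmDiff O {d}) := rfl
    rw [h0] at hne
    obtain ⟨d, hd, hne⟩ := Finset.exists_ne_zero_of_sum_ne_zero hne
    obtain ⟨w, _, hne⟩ := Finset.exists_ne_zero_of_sum_ne_zero hne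
    have h1 := h d hd u w (left_ne_zero_of_mul hne)
    have h2 := ih w (symmDiff O {d}) (right_ne_zero_of_mul hne)
    rw [WLK_sumsd] at h2
    have h3 := R.add_mem h1 h2
    have h4 : φ u + φ w + d + (φ w + φ w₀ + (∑ e ∈ O, e + d)) =
        φ u + φ w₀ + ∑ e ∈ O, e + (φ w + φ w) + (d + d) := by abel
    rw [h4, WLK_two, WLK_two, add_zero, add_zero] at h3
    exact h3

private lemma WLK_diag {St V : Type} [Fintype St] [AddCommGroup V] [Module (ZMod 2) V]
    (L : Finset V) (R : Submodule (ZMod 2) V) (φ : St → V) (a : V → St → St → ℝ)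
    (w₀ : St) (h : ∀ d ∈ L, ∀ u w, a d u w ≠ 0 → φ u + φ w + d ∈ R)
    (hL : ∀ d ∈ L, d ∉ Submodule.span (ZMod 2) ((L.erase d : Finset V) : Set V) ⊔ R) (n : ℕ) :
    ((Matrix.of fun u w => ∑ d ∈ L, a d u w : Matrix St St ℝ) ^ n) w₀ w₀ =
      WLK_wk L a w₀ n w₀ ∅ := by
  rw [WLK_pow]
  refine Finset.sum_eq_single ∅ ?_ ?_
  · intro O hO hne
    by_contra hw
    have h1 := WLK_par L R φ a w₀ h n w₀ O hw
    rw [WLK_two, zero_add] at h1
    obtain ⟨d, hd⟩ := Finset.nonempty_iff_ne_empty.2 hne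
    have hOL := Finset.mem_powerset.1 hO
    refine hL d (hOL hd) ?_
    have h2 := Finset.add_sum_erase O (fun e => e) hd
    have h3 : d = ∑ e ∈ O.erase d, e + ∑ e ∈ O, e := by
      have h4 : ∑ e ∈ O, e = d + ∑ e ∈ O.erase d, e := h2.symm
      rw [h4, add_left_comm, WLK_two, add_zero]
    have hmem : ∑ e ∈ O.erase d, e + ∑ e ∈ O, e ∈
        Submodule.span (ZMod 2) ((L.erase d : Finset V) : Set V) ⊔ R := by
      refine Submodule.add_mem_sup ?_ h1
      refine Submodule.sum_mem _ fun e he => Submodule.subset_span ?_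
      have he' := Finset.mem_erase.1 he
      exact Finset.mem_coe.2 (Finset.mem_erase.2 ⟨he'.1, hOL he'.2⟩)
    rwa [← h3] at hmem
  · intro h'; exact absurd (Finset.empty_mem_powerset L) h'

private lemma WLK_bd {St V : Type} [Fintype St] (L : Finset V) (a : V → St → St → ℝ)
    (w₀ : St) (B₀ B₁ α β : ℝ) (M : ℕ) (ha : ∀ d u w, 0 ≤ a d u w)
    (h0 : ∀ u, ∑ d ∈ L, ∑ w, a d u w ≤ B₀) (h1 : ∀ d ∈ L, ∀ u, ∑ w, a d u w ≤ B₁)
    (hB1 : 0 ≤ B₁) (hα : 0 ≤ α) (hβ : 0 < β) (e0 : B₀ * β = α) (e1 : (M : ℝ) * B₁ = α * β)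
    (n : ℕ) : ∀ (u : St) (O : Finset V), O.card + n ≤ M →
      WLK_wk L a w₀ n u O ≤ (2 * α) ^ n * β ^ O.card := by
  induction n with
  | zero =>
    intro u O _
    unfold WLK_wk
    split_ifs with h
    · rw [h.2]; simp
    · positivity
  | succ n ih =>
    intro u O hO
    have hd0 : WLK_wk L a w₀ (n + 1) u O =
        ∑ d ∈ L, ∑ w, a d u w * WLK_wk L a w₀ n w (symmDiff O {d}) := rfl
    rw [hd0, ← Finset.sum_filter_add_sum_filter_not L (fun d => d ∈ O)]
    have hA : ∑ d ∈ L.filter (fun d => d ∈ O), ∑ w, a d u w *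
        WLK_wk L a w₀ n w (symmDiff O {d}) ≤ α * ((2 * α) ^ n * β ^ O.card) := by
      have hc : ∀ d ∈ L.filter (fun d => d ∈ O), ∑ w, a d u w *
          WLK_wk L a w₀ n w (symmDiff O {d}) ≤ B₁ * ((2 * α) ^ n * (β ^ O.card / β)) := by
        intro d hd
        rw [Finset.mem_filter] at hd
        have hs1 : symmDiff O {d} = O.erase d := by
          ext x
          simp only [Finset.mem_symmDiff, Finset.mem_singleton, Finset.mem_erase]
          constructor
          · rintro (⟨h1, h2⟩ | ⟨h1, h2⟩)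
            · exact ⟨h2, h1⟩
            · subst h1; exact absurd hd.2 h2
          · rintro ⟨h1, h2⟩
            exact Or.inl ⟨h2, h1⟩
        have hcard : (O.erase d).card + 1 = O.card := Finset.card_erase_add_one hd.2
        have hβ' : β ^ (O.erase d).card = β ^ O.card / β := by
          rw [← hcard, pow_succ, mul_div_assoc, div_self hβ.ne', mul_one]
        rw [hs1]
        calc ∑ w, a d u w * WLK_wk L a w₀ n w (O.erase d)
            ≤ ∑ w, a d u w * ((2 * α) ^ n * (β ^ O.card / β)) := by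
              refine Finset.sum_le_sum fun w _ => mul_le_mul_of_nonneg_left ?_ (ha _ _ _)
              rw [← hβ']
              exact ih w (O.erase d) (by omega)
          _ = (∑ w, a d u w) * ((2 * α) ^ n * (β ^ O.card / β)) := by rw [Finset.sum_mul]
          _ ≤ B₁ * ((2 * α) ^ n * (β ^ O.card / β)) :=
              mul_le_mul_of_nonneg_right (h1 d hd.1 u) (by positivity)
      have hcard : ((L.filter (fun d => d ∈ O)).card : ℝ) ≤ (M : ℝ) := by
        have h2 : (L.filter (fun d => d ∈ O)).card ≤ O.card := by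
          refine Finset.card_le_card ?_
          intro x hx
          exact (Finset.mem_filter.1 hx).2
        exact_mod_cast (h2.trans (by omega))
      calc ∑ d ∈ L.filter (fun d => d ∈ O), ∑ w, a d u w *
            WLK_wk L a w₀ n w (symmDiff O {d})
          ≤ ∑ _d ∈ L.filter (fun d => d ∈ O), B₁ * ((2 * α) ^ n * (β ^ O.card / β)) :=
            Finset.sum_le_sum hc
        _ = ((L.filter (fun d => d ∈ O)).card : ℝ) *
            (B₁ * ((2 * α) ^ n * (β ^ O.card / β))) := by
            rw [Finset.sum_const, nsmul_eq_mul]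
        _ ≤ (M : ℝ) * (B₁ * ((2 * α) ^ n * (β ^ O.card / β))) :=
            mul_le_mul_of_nonneg_right hcard (by positivity)
        _ = ((M : ℝ) * B₁) * ((2 * α) ^ n * (β ^ O.card / β)) := by ring
        _ = α * ((2 * α) ^ n * β ^ O.card) := by
            rw [e1]; field_simp
    have hB : ∑ d ∈ L.filter (fun d => d ∉ O), ∑ w, a d u w *
        WLK_wk L a w₀ n w (symmDiff O {d}) ≤ α * ((2 * α) ^ n * β ^ O.card) := by
      have hc : ∀ d ∈ L.filter (fun d => d ∉ O), ∑ w, a d u w *
          WLK_wk L a w₀ n w (symmDiff O {d}) ≤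
          (∑ w, a d u w) * ((2 * α) ^ n * (β ^ O.card * β)) := by
        intro d hd
        rw [Finset.mem_filter] at hd
        have hs1 : symmDiff O {d} = insert d O := by
          ext x
          simp only [Finset.mem_symmDiff, Finset.mem_singleton, Finset.mem_insert]
          constructor
          · rintro (⟨h1, h2⟩ | ⟨h1, h2⟩)
            · exact Or.inr h1
            · exact Or.inl h1
          · rintro (h1 | h1)
            · subst h1; exact Or.inr ⟨rfl, hd.2⟩
            · refine Or.inl ⟨h1, ?_⟩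
              rintro rfl; exact hd.2 h1
        have hcard : (insert d O).card = O.card + 1 := Finset.card_insert_of_notMem hd.2
        rw [hs1, Finset.sum_mul]
        refine Finset.sum_le_sum fun w _ => mul_le_mul_of_nonneg_left ?_ (ha _ _ _)
        have h2 := ih w (insert d O) (by omega)
        rw [hcard, pow_succ] at h2
        exact h2
      have hle : ∑ d ∈ L.filter (fun d => d ∉ O), ∑ w, a d u w ≤ B₀ := by
        refine le_trans ?_ (h0 u)
        refine Finset.sum_le_sum_of_subset_of_nonneg (Finset.filter_subset _ _) ?_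
        intro d _ _
        exact Finset.sum_nonneg fun w _ => ha _ _ _
      calc ∑ d ∈ L.filter (fun d => d ∉ O), ∑ w, a d u w *
            WLK_wk L a w₀ n w (symmDiff O {d})
          ≤ ∑ d ∈ L.filter (fun d => d ∉ O),
              (∑ w, a d u w) * ((2 * α) ^ n * (β ^ O.card * β)) := Finset.sum_le_sum hc
        _ = (∑ d ∈ L.filter (fun d => d ∉ O), ∑ w, a d u w) *
              ((2 * α) ^ n * (β ^ O.card * β)) := by rw [Finset.sum_mul]
        _ ≤ B₀ * ((2 * α) ^ n * (β ^ O.card * β)) :=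
            mul_le_mul_of_nonneg_right hle (by positivity)
        _ = (B₀ * β) * ((2 * α) ^ n * β ^ O.card) := by ring
        _ = α * ((2 * α) ^ n * β ^ O.card) := by rw [e0]
    calc _ ≤ α * ((2 * α) ^ n * β ^ O.card) + α * ((2 * α) ^ n * β ^ O.card) :=
          add_le_add hA hB
      _ = (2 * α) ^ (n + 1) * β ^ O.card := by ring

theorem p_WLK : T_WLK := by
  intro St _ _ V _ _ L R φ a B₀ B₁ r j ha hsym hφ hL h0 h1 hB0 hB1 hr
  have hN : (0 : ℝ) < (Fintype.card St : ℝ) := by exact_mod_cast Fintype.card_pos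
  have hr0 : 0 < r := by rw [hr]; positivity
  set D : ℝ := (∑ u, ∑ d ∈ L, ∑ w, a d u w) / (Fintype.card St : ℝ) with hD
  have hSnn : 0 ≤ ∑ u, ∑ d ∈ L, ∑ w, a d u w :=
    Finset.sum_nonneg fun u _ => Finset.sum_nonneg fun d _ => Finset.sum_nonneg fun w _ => ha _ _ _
  have hDnn : 0 ≤ D := div_nonneg hSnn hN.le
  by_cases hz : B₀ = 0 ∨ B₁ = 0
  · have hS0 : ∑ u, ∑ d ∈ L, ∑ w, a d u w = 0 := by
      refine le_antisymm ?_ hSnn
      refine Finset.sum_nonpos fun u _ => ?_
      rcases hz with hz | hz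
      · rw [← hz]; exact h0 u
      · refine Finset.sum_nonpos fun d hd => ?_
        rw [← hz]; exact h1 d hd u
    have hD0 : D = 0 := by rw [hD, hS0, zero_div]
    rw [hD0, zero_pow (by omega)]
    positivity
  · push Not at hz
    have hB0' : 0 < B₀ := lt_of_le_of_ne hB0 (Ne.symm hz.1)
    have hB1' : 0 < B₁ := lt_of_le_of_ne hB1 (Ne.symm hz.2)
    set A : Matrix St St ℝ := Matrix.of fun u w => ∑ d ∈ L, a d u w with hA
    have hAs : ∀ u w, A u w = A w u := by
      intro u w
      simp only [hA, Matrix.of_apply]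
      exact Finset.sum_congr rfl fun d _ => hsym d u w
    have hsum : (Fintype.card St : ℝ) * D ≤ ∑ u, ∑ v, A u v := by
      have h2 : ∑ u, ∑ v, A u v = ∑ u, ∑ d ∈ L, ∑ w, a d u w := by
        refine Finset.sum_congr rfl fun u _ => ?_
        simp only [hA, Matrix.of_apply]
        exact Finset.sum_comm
      rw [h2, hD, mul_div_assoc', mul_div_cancel_left₀ _ hN.ne']
    have hlow := WLK_low A hAs D hDnn hsum j
    rw [← hr] at hlow
    have htr := WLK_tr A hAs r
    -- the upper bound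
    have hr0' : (0 : ℝ) < (r : ℝ) := by exact_mod_cast hr0
    set β : ℝ := Real.sqrt (2 * r * B₁ / B₀) with hβ
    have hβpos : 0 < β := Real.sqrt_pos.2 (by positivity)
    have hβ2 : β * β = 2 * r * B₁ / B₀ := Real.mul_self_sqrt (by positivity)
    have hup : ∀ u, (A ^ (2 * r)) u u ≤ (8 * r * B₀ * B₁) ^ r := by
      intro u
      rw [hA, WLK_diag L R φ a u hφ hL]
      have h2 := WLK_bd L a u B₀ B₁ (B₀ * β) β (2 * r) ha h0 h1 hB1 (by positivity) hβpos rfl
        (by
          push_cast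
          rw [mul_assoc B₀ β β, hβ2]
          field_simp) (2 * r) u ∅ (by simp)
      rw [Finset.card_empty, pow_zero, mul_one] at h2
      refine h2.trans (le_of_eq ?_)
      rw [pow_mul]
      congr 1
      calc (2 * (B₀ * β)) ^ 2 = 4 * B₀ ^ 2 * (β * β) := by ring
        _ = 8 * r * B₀ * B₁ := by rw [hβ2]; field_simp; ring
    have hsumup : ∑ u, (A ^ (2 * r)) u u ≤ (Fintype.card St : ℝ) * (8 * r * B₀ * B₁) ^ r := by
      calc ∑ u, (A ^ (2 * r)) u u ≤ ∑ _u : St, (8 * r * B₀ * B₁) ^ r :=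
            Finset.sum_le_sum fun u _ => hup u
        _ = (Fintype.card St : ℝ) * (8 * r * B₀ * B₁) ^ r := by
            rw [Finset.sum_const, nsmul_eq_mul, Finset.card_univ]
    have h5 : (Fintype.card St : ℝ) ^ 2 * D ^ (2 * r) ≤
        (Fintype.card St : ℝ) ^ 2 * ∑ u, (A ^ (2 * r)) u u := by
      calc (Fintype.card St : ℝ) ^ 2 * D ^ (2 * r) = ((Fintype.card St : ℝ) * D ^ r) ^ 2 := by
            ring
        _ ≤ (∑ u, ∑ v, (A ^ r) u v) ^ 2 := pow_le_pow_left₀ (by positivity) hlow 2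
        _ ≤ _ := htr
    exact (le_of_mul_le_mul_left h5 (by positivity)).trans hsumup

end Pool.Agent.XPS
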