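import Pool.Agent.XPS.Targets

set_option autoImplicit false

/-!
# XTR: the part of degree one is extracted from the averages over random subfamilies
-/

open scoped Classical

noncomputable section

namespace Pool.Agent.XPS

open Pool.Agent.LRC

namespace XTR_

theorem abs_sg (a : ZMod 2) : |sg a| = 1 := by
  unfold sg
  split_ifs
  · exact abs_one
  · rw [abs_neg, abs_one]

/-- The value of the interpolated weight on the sets with `n` elements. -/
def ev {D : ℕ} (c ρ : Fin (D + 1) → ℝ) (p : ℝ) (n : ℕ) : ℝ := ∑ i, c i / p * (p * ρ i) ^ n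

theorem ev_small {D : ℕ} (c ρ : Fin (D + 1) → ℝ) {p : ℝ} (hp : 0 < p)
    (h : ∀ i ≤ D, ∑ j, c j * ρ j ^ i = if i = 1 then 1 else 0) {n : ℕ} (hn : n ≤ D) :
    ev c ρ p n = if n = 1 then 1 else 0 := by
  have h1 : ev c ρ p n = p ^ n / p * ∑ j, c j * ρ j ^ n := by
    unfold ev
    rw [Finset.mul_sum]
    refine Finset.sum_congr rfl fun i _ => ?_
    rw [mul_pow]
    ring
  rw [h1, h n hn]
  by_cases hn1 : n = 1
  · subst hn1
    rw [if_pos rfl, pow_one, div_self hp.ne', mul_one]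
  · rw [if_neg hn1, mul_zero]

theorem ev_large {D : ℕ} (c ρ : Fin (D + 1) → ℝ) {p : ℝ} (hp : 0 < p) (hp1 : p ≤ 1)
    (hρ : ∀ j, 0 ≤ ρ j ∧ ρ j ≤ 1) {n : ℕ} (hn : D < n) :
    |ev c ρ p n| ≤ (∑ i, |c i|) * p ^ D := by
  unfold ev
  refine (Finset.abs_sum_le_sum_abs _ _).trans ?_
  rw [Finset.sum_mul]
  refine Finset.sum_le_sum fun i _ => ?_
  rw [abs_mul, abs_div, abs_of_pos hp, abs_of_nonneg (pow_nonneg
    (mul_nonneg hp.le (hρ i).1) n), mul_pow]
  have h1 : ρ i ^ n ≤ 1 := pow_le_one₀ (hρ i).1 (hρ i).2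
  have h2 : p ^ (n - 1) ≤ p ^ D := pow_le_pow_of_le_one hp.le hp1 (by omega)
  have h3 : p ^ n = p ^ (n - 1) * p := by
    rw [← pow_succ]
    congr 1
    omega
  have h4 : |c i| / p * (p ^ n * ρ i ^ n) = |c i| * (p ^ (n - 1) * ρ i ^ n) := by
    rw [h3]
    field_simp
  rw [h4]
  refine mul_le_mul_of_nonneg_left ?_ (abs_nonneg _)
  calc p ^ (n - 1) * ρ i ^ n ≤ p ^ (n - 1) * 1 :=
        mul_le_mul_of_nonneg_left h1 (pow_nonneg hp.le _)
    _ = p ^ (n - 1) := mul_one _
    _ ≤ p ^ D := h2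

/-- The expectation of the sums over the cosets. -/
theorem be_cs (hB : T_BER) {V : Type} [AddCommGroup V] [Module (ZMod 2) V] [Fintype V]
    (s : V → ℝ) {ι : Type} [Fintype ι] (U : ι → Submodule (ZMod 2) V)
    (l : Module.Dual (ZMod 2) V) (x₀ : V) (I : V → Finset ι)
    (hI : ∀ v : V, v ∈ (⨆ j, U j : Submodule (ZMod 2) V) → ∀ J : Finset ι,
      (v ∈ (⨆ j ∈ J, U j : Submodule (ZMod 2) V) ↔ I v ⊆ J))
    {t : ℝ} (ht0 : 0 ≤ t) (ht1 : t ≤ 1) :
    be t (Finset.univ : Finset ι) (fun J => cs s (⨆ j ∈ J, U j) l x₀) =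
      ∑ v, if v + x₀ ∈ (⨆ j, U j : Submodule (ZMod 2) V) then
        s v * sg (l v) * t ^ (I (v + x₀)).card else 0 := by
  obtain ⟨_, hsub, _, _, _, _, _, _, _, hsm, hsum, _⟩ :=
    hB ι t (Finset.univ : Finset ι) ht0 ht1
  unfold cs
  rw [hsum V Finset.univ (fun v J => if v + x₀ ∈ (⨆ j ∈ J, U j : Submodule (ZMod 2) V) then
    s v * sg (l v) else 0)]
  refine Finset.sum_congr rfl fun v _ => ?_
  by_cases hv : v + x₀ ∈ (⨆ j, U j : Submodule (ZMod 2) V)
  · rw [if_pos hv]
    have h1 : (fun J : Finset ι => if v + x₀ ∈ (⨆ j ∈ J, U j : Submodule (ZMod 2) V) then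
        s v * sg (l v) else 0) =
        fun J : Finset ι => s v * sg (l v) * (if I (v + x₀) ⊆ J then (1 : ℝ) else 0) := by
      funext J
      by_cases hJ : I (v + x₀) ⊆ J
      · rw [if_pos hJ, if_pos ((hI _ hv J).2 hJ), mul_one]
      · rw [if_neg hJ, if_neg (fun h => hJ ((hI _ hv J).1 h)), mul_zero]
    rw [h1, hsm, hsub _ (Finset.subset_univ _)]
  · rw [if_neg hv]
    have h1 : (fun J : Finset ι => if v + x₀ ∈ (⨆ j ∈ J, U j : Submodule (ZMod 2) V) then
        s v * sg (l v) else 0) = fun _ : Finset ι => (0 : ℝ) * (1 : ℝ) := by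
      funext J
      rw [if_neg, zero_mul]
      intro h
      exact hv ((iSup₂_le fun j _ => le_iSup U j : (⨆ j ∈ J, U j) ≤ ⨆ j, U j) h)
    rw [h1, hsm 0 (fun _ => 1), zero_mul]

theorem add_self {V : Type} [AddCommGroup V] [Module (ZMod 2) V] (v : V) : v + v = 0 := by
  have h : ((2 : ZMod 2)) • v = v + v := two_smul _ v
  rw [← h, show (2 : ZMod 2) = 0 from rfl, zero_smul]

/-- The left side as a sum over the terms of degree one. -/
theorem lhs_eq {V : Type} [AddCommGroup V] [Module (ZMod 2) V] [Fintype V]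
    (s : V → ℝ) {ι : Type} [Fintype ι] (U : ι → Submodule (ZMod 2) V)
    (l : Module.Dual (ZMod 2) V) (x₀ : V) (I : V → Finset ι)
    (hI : ∀ v : V, v ∈ (⨆ j, U j : Submodule (ZMod 2) V) → ∀ J : Finset ι,
      (v ∈ (⨆ j ∈ J, U j : Submodule (ZMod 2) V) ↔ I v ⊆ J)) :
    ∑ j, (cs s (U j) l x₀ - s x₀ * sg (l x₀)) =
      ∑ v, if v + x₀ ∈ (⨆ j, U j : Submodule (ZMod 2) V) then
        s v * sg (l v) * (if (I (v + x₀)).card = 1 then 1 else 0) else 0 := by
  have h1 : ∀ j, cs s (U j) l x₀ - s x₀ * sg (l x₀) =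
      ∑ v, if v + x₀ ∈ U j ∧ v ≠ x₀ then s v * sg (l v) else 0 := by
    intro j
    unfold cs
    have h2 : s x₀ * sg (l x₀) = ∑ v, if v = x₀ then s v * sg (l v) else 0 := by
      rw [Finset.sum_ite_eq' Finset.univ x₀ (fun v => s v * sg (l v)),
        if_pos (Finset.mem_univ _)]
    rw [h2, ← Finset.sum_sub_distrib]
    refine Finset.sum_congr rfl fun v _ => ?_
    by_cases hv : v = x₀
    · subst hv
      have h3 : v + v ∈ U j := by rw [add_self]; exact (U j).zero_mem
      rw [if_pos h3, if_pos rfl, if_neg (fun h => h.2 rfl), sub_self]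
    · rw [if_neg hv, sub_zero]
      by_cases h4 : v + x₀ ∈ U j
      · rw [if_pos h4, if_pos ⟨h4, hv⟩]
      · rw [if_neg h4, if_neg (fun h => h4 h.1)]
  rw [Finset.sum_congr rfl fun j _ => h1 j, Finset.sum_comm]
  refine Finset.sum_congr rfl fun v _ => ?_
  by_cases hv : v + x₀ ∈ (⨆ j, U j : Submodule (ZMod 2) V)
  · rw [if_pos hv]
    have hz : v ≠ x₀ ↔ I (v + x₀) ≠ ∅ := by
      refine not_congr ?_
      have e1 := hI _ hv ∅
      simp only [Finset.notMem_empty, iSup_false, iSup_bot, Submodule.mem_bot,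
        Finset.subset_empty] at e1
      rw [← e1]
      constructor
      · intro h; rw [h, add_self]
      · intro h
        have : v + x₀ + x₀ = x₀ := by rw [h, zero_add]
        rwa [add_assoc, add_self, add_zero] at this
    have hj : ∀ j, (v + x₀ ∈ U j ∧ v ≠ x₀) ↔ I (v + x₀) = {j} := by
      intro j
      have e2 := hI _ hv {j}
      simp only [Finset.mem_singleton, iSup_iSup_eq_left] at e2
      rw [e2, hz, Finset.subset_singleton_iff]
      constructor
      · rintro ⟨h | h, h'⟩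
        · exact absurd h h'
        · exact h
      · intro h
        refine ⟨Or.inr h, ?_⟩
        rw [h]
        exact Finset.singleton_ne_empty j
    by_cases hc : (I (v + x₀)).card = 1
    · rw [if_pos hc, mul_one]
      obtain ⟨j₀, hj₀⟩ := Finset.card_eq_one.1 hc
      rw [Finset.sum_eq_single j₀]
      · rw [if_pos ((hj j₀).2 hj₀)]
      · intro j _ hne
        rw [if_neg]
        intro h
        have h5 := (hj j).1 h
        rw [hj₀] at h5
        exact hne (Finset.singleton_injective h5).symm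
      · intro h; exact absurd (Finset.mem_univ _) h
    · rw [if_neg hc, mul_zero]
      refine Finset.sum_eq_zero fun j _ => ?_
      rw [if_neg]
      intro h
      apply hc
      rw [(hj j).1 h, Finset.card_singleton]
  · rw [if_neg hv]
    refine Finset.sum_eq_zero fun j _ => ?_
    rw [if_neg]
    intro h
    exact hv ((le_iSup U j) h.1)

end XTR_

theorem p_XTR : T_LAG → T_BER → T_SUP → T_XTR := by
  intro hL hB hS D hD
  obtain ⟨c, ρ, hρ, hc⟩ := hL D
  have hC0 : 0 ≤ ∑ i, |c i| := Finset.sum_nonneg fun i _ => abs_nonneg _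
  refine ⟨1 + ∑ i, |c i|, c, ρ, by linarith, hρ, by linarith, ?_⟩
  intro V _ _ _ s p hs hp hp1 ι _ U l x₀ hU
  obtain ⟨I, hI⟩ := hS V ι U hU
  have e1 : ∑ i, c i / p * be (p * ρ i) (Finset.univ : Finset ι)
      (fun J => cs s (⨆ j ∈ J, U j) l x₀) =
      ∑ v, if v + x₀ ∈ (⨆ j, U j : Submodule (ZMod 2) V) then
        s v * sg (l v) * XTR_.ev c ρ p (I (v + x₀)).card else 0 := by
    have h1 : ∀ i, be (p * ρ i) (Finset.univ : Finset ι)
        (fun J => cs s (⨆ j ∈ J, U j) l x₀) =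
        ∑ v, if v + x₀ ∈ (⨆ j, U j : Submodule (ZMod 2) V) then
          s v * sg (l v) * (p * ρ i) ^ (I (v + x₀)).card else 0 := fun i =>
      XTR_.be_cs hB s U l x₀ I hI (mul_nonneg hp.le (hρ i).1)
        (mul_le_one₀ hp1 (hρ i).1 (hρ i).2)
    rw [Finset.sum_congr rfl fun i _ => by rw [h1 i, Finset.mul_sum], Finset.sum_comm]
    refine Finset.sum_congr rfl fun v _ => ?_
    by_cases hv : v + x₀ ∈ (⨆ j, U j : Submodule (ZMod 2) V)
    · simp only [if_pos hv]
      unfold XTR_.ev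
      rw [Finset.mul_sum]
      refine Finset.sum_congr rfl fun i _ => ?_
      ring
    · simp only [if_neg hv, mul_zero, Finset.sum_const_zero]
  rw [e1, XTR_.lhs_eq s U l x₀ I hI, ← Finset.sum_sub_distrib]
  refine (Finset.abs_sum_le_sum_abs _ _).trans ?_
  have hcard : ((Sp s).card : ℝ) = ∑ v, if s v ≠ 0 then (1 : ℝ) else 0 := by
    unfold Sp
    rw [Finset.sum_boole]
  rw [hcard, Finset.sum_mul, Finset.mul_sum]
  refine Finset.sum_le_sum fun v _ => ?_
  have hpD : 0 ≤ p ^ D := pow_nonneg hp.le D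
  by_cases hsv : s v = 0
  · have hns : ¬ (s v ≠ 0) := not_not.2 hsv
    rw [if_neg hns, hsv]
    simp
  · rw [if_pos hsv, one_mul]
    by_cases hv : v + x₀ ∈ (⨆ j, U j : Submodule (ZMod 2) V)
    · rw [if_pos hv, if_pos hv, ← mul_sub, abs_mul, abs_mul, XTR_.abs_sg, mul_one]
      have h2 : |(if (I (v + x₀)).card = 1 then (1 : ℝ) else 0) -
          XTR_.ev c ρ p (I (v + x₀)).card| ≤ (1 + ∑ i, |c i|) * p ^ D := by
        by_cases hn : (I (v + x₀)).card ≤ D
        · rw [XTR_.ev_small c ρ hp hc hn, sub_self, abs_zero]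
          exact mul_nonneg (by linarith) hpD
        · push Not at hn
          rw [if_neg (by omega), zero_sub, abs_neg]
          refine (XTR_.ev_large c ρ hp hp1 hρ hn).trans ?_
          exact mul_le_mul_of_nonneg_right (by linarith) hpD
      calc |s v| * _ ≤ 1 * _ := mul_le_mul_of_nonneg_right (hs v) (abs_nonneg _)
        _ ≤ _ := by rw [one_mul]; exact h2
    · rw [if_neg hv, if_neg hv, sub_self, abs_zero]
      exact mul_nonneg (by linarith) hpD

end Pool.Agent.XPS
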