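import Pool.Agent.XPS.Targets
import Pool.Agent.XPS.Pw

set_option autoImplicit false

/-!
# MP_9f5962_lc: the kill number in terms of the Fourier coefficients
-/

open scoped Classical

noncomputable section

namespace Pool.Agent.XPS

open Pool.Agent.LRC

namespace ALG_

theorem sg_add (a b : ZMod 2) : sg (a + b) = sg a * sg b := by
  have h2 : ∀ c : ZMod 2, c = 0 ∨ c = 1 := by decide
  have h11 : (1 : ZMod 2) + 1 = 0 := by decide
  have h10 : (1 : ZMod 2) ≠ 0 := by decide
  rcases h2 a with rfl | rfl <;> rcases h2 b with rfl | rfl <;> simp [sg, h11]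

theorem sg_cases (a : ZMod 2) : sg a = 1 ∨ sg a = -1 := by
  unfold sg
  split_ifs
  · exact Or.inl rfl
  · exact Or.inr rfl

variable {V : Type} [AddCommGroup V] [Module (ZMod 2) V]

theorem dbl (x : V) : x + x = 0 := ZModModule.add_self x

omit [Module (ZMod 2) V] in
/-- The bijection `v ↦ v + x`. -/
theorem shift [Fintype V] (x : V) (F : V → ℝ) : ∑ v, F (v + x) = ∑ v, F v :=
  Equiv.sum_comp (Equiv.addRight x) F

theorem ft_shift [Fintype V] (s : V → ℝ) (x : V) (l : Module.Dual (ZMod 2) V) :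
    ft (fun v => s (v + x)) l = sg (l x) * ft s l := by
  unfold ft
  rw [← shift x (fun v => s v * sg (l v)), Finset.mul_sum]
  apply Finset.sum_congr rfl
  intro v _
  rw [map_add, sg_add]
  rcases sg_cases (l x) with h | h <;> rw [h] <;> ring

theorem bl_shift [Fintype V] (s : V → ℝ) (x : V) (h : Bl s) : Bl (fun v => s (v + x)) := by
  intro l
  rw [ft_shift]
  rcases sg_cases (l x) with h1 | h1 <;> rcases h l with h2 | h2 <;> rw [h1, h2] <;> norm_num

theorem sp_shift [Fintype V] (s : V → ℝ) (x : V) :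
    (Sp (fun v => s (v + x))).card = (Sp s).card := by
  apply Finset.card_bij (fun v _ => v + x)
  · intro v hv
    unfold Sp at hv ⊢
    rw [Finset.mem_filter] at hv ⊢
    exact ⟨Finset.mem_univ _, hv.2⟩
  · intro a _ b _ hab
    exact add_right_cancel hab
  · intro b hb
    refine ⟨b + x, ?_, ?_⟩
    · unfold Sp at hb ⊢
      rw [Finset.mem_filter] at hb ⊢
      refine ⟨Finset.mem_univ _, ?_⟩
      change s (b + x + x) ≠ 0
      rw [add_assoc, dbl, add_zero]
      exact hb.2
    · rw [add_assoc, dbl, add_zero]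

theorem cs_shift [Fintype V] (s : V → ℝ) (x : V) (W : Submodule (ZMod 2) V)
    (l : Module.Dual (ZMod 2) V) (y : V) :
    cs (fun v => s (v + x)) W l (y + x) = sg (l x) * cs s W l y := by
  unfold cs
  rw [← shift x (fun v => if v + y ∈ W then s v * sg (l v) else 0), Finset.mul_sum]
  apply Finset.sum_congr rfl
  intro v _
  have e : v + x + y = v + (y + x) := by abel
  rw [e, map_add, sg_add]
  split_ifs
  · rcases sg_cases (l x) with h | h <;> rw [h] <;> ring
  · ring

theorem cs_zero [Fintype V] (s : V → ℝ) (x : V) (W : Submodule (ZMod 2) V)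
    (l : Module.Dual (ZMod 2) V) (h : ∀ v, v ∉ W → cs (fun v => s (v + x)) W l v = 0)
    (y : V) (hy : y + x ∉ W) : cs s W l y = 0 := by
  have h1 := h _ hy
  rw [cs_shift] at h1
  rcases sg_cases (l x) with h2 | h2 <;> rw [h2] at h1 <;> linarith

theorem cs_sup [Fintype V] (s : V → ℝ) (x : V) (W : Submodule (ZMod 2) V)
    (l : Module.Dual (ZMod 2) V) (h : ∀ y, y + x ∉ W → cs s W l y = 0) (v : V)
    (hv : v ∉ W ⊔ Submodule.span (ZMod 2) {x}) :
    cs s (W ⊔ Submodule.span (ZMod 2) {x}) l v = 0 := by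
  have hx : x ∈ W ⊔ Submodule.span (ZMod 2) {x} :=
    Submodule.mem_sup_right (Submodule.mem_span_singleton_self x)
  have hW : ∀ w ∈ W, w ∈ W ⊔ Submodule.span (ZMod 2) {x} := fun w hw =>
    Submodule.mem_sup_left hw
  by_cases hxW : x ∈ W
  · have e : W ⊔ Submodule.span (ZMod 2) {x} = W := by
      rw [sup_eq_left, Submodule.span_le, Set.singleton_subset_iff]
      exact hxW
    rw [e] at hv ⊢
    apply h
    intro hc
    apply hv
    have := W.sub_mem hc hxW
    simpa using this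
  · have hmem : ∀ u : V, u ∈ W ⊔ Submodule.span (ZMod 2) {x} ↔ u ∈ W ∨ u + x ∈ W := by
      intro u
      constructor
      · intro hu
        rw [Submodule.mem_sup] at hu
        obtain ⟨w, hw, z, hz, rfl⟩ := hu
        rw [Submodule.mem_span_singleton] at hz
        obtain ⟨a, rfl⟩ := hz
        have h2 : ∀ c : ZMod 2, c = 0 ∨ c = 1 := by decide
        rcases h2 a with rfl | rfl
        · left
          rw [zero_smul, add_zero]
          exact hw
        · right
          rw [one_smul, add_assoc, dbl, add_zero]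
          exact hw
      · rintro (hu | hu)
        · exact hW u hu
        · have := Submodule.add_mem _ (hW _ hu) hx
          rwa [add_assoc, dbl, add_zero] at this
    have hnot : ∀ u : V, ¬ (u ∈ W ∧ u + x ∈ W) := by
      rintro u ⟨h1, h2⟩
      apply hxW
      have := W.sub_mem h2 h1
      simpa using this
    have hsplit : cs s (W ⊔ Submodule.span (ZMod 2) {x}) l v =
        cs s W l v + cs s W l (v + x) := by
      unfold cs
      rw [← Finset.sum_add_distrib]
      apply Finset.sum_congr rfl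
      intro u _
      have h1 := hmem (u + v)
      have h2 := hnot (u + v)
      rw [← add_assoc u v x]
      by_cases ha : u + v ∈ W
      · have hb : u + v + x ∉ W := fun hb => h2 ⟨ha, hb⟩
        rw [if_pos (h1.mpr (Or.inl ha)), if_pos ha, if_neg hb, add_zero]
      · by_cases hb : u + v + x ∈ W
        · rw [if_pos (h1.mpr (Or.inr hb)), if_neg ha, if_pos hb, zero_add]
        · rw [if_neg (fun hc => (h1.mp hc).elim ha hb), if_neg ha, if_neg hb, add_zero]
    have hv1 : v + x ∉ W := fun hc => hv ((hmem v).mpr (Or.inr hc))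
    have hv2 : v + x + x ∉ W := by
      rw [add_assoc, dbl, add_zero]
      exact fun hc => hv (hW v hc)
    rw [hsplit, h v hv1, h (v + x) hv2, add_zero]

theorem rank_sup [Fintype V] (x : V) (W : Submodule (ZMod 2) V) :
    Module.finrank (ZMod 2) (W ⊔ Submodule.span (ZMod 2) {x} : Submodule (ZMod 2) V) ≤
      Module.finrank (ZMod 2) W + 1 := by
  refine (Submodule.finrank_add_le_finrank_add_finrank _ _).trans ?_
  apply Nat.add_le_add_left
  have := finrank_span_le_card (R := ZMod 2) ({x} : Set V)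
  simpa using this

/-- The numbers. -/
theorem num (k : ℝ) (hk : 1 ≤ k) (Q₀ : ℝ) (hQ₀ : 1 ≤ Q₀) :
    ∃ Q : ℝ, Q₀ ≤ Q ∧ k ≤ Q ^ 26000 ∧
      3 * Q ^ 12999 + 1 ≤ (3 * Q₀ ^ 12999 + 4) * k ^ ((1 / 2 : ℝ) - 1 / 26000) := by
  have hk0 : 0 < k := by linarith
  set t := k ^ ((1 : ℝ) / 26000) with ht
  have ht1 : 1 ≤ t := Real.one_le_rpow hk (by norm_num)
  have ht0 : 0 < t := by linarith
  have t1 : t ^ 26000 = k := by
    rw [ht, ← Real.rpow_natCast, ← Real.rpow_mul hk0.le]
    have e : (1 : ℝ) / 26000 * ((26000 : ℕ) : ℝ) = 1 := by norm_num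
    rw [e, Real.rpow_one]
  have t2 : t ^ 12999 = k ^ ((1 / 2 : ℝ) - 1 / 26000) := by
    rw [ht, ← Real.rpow_natCast, ← Real.rpow_mul hk0.le]
    congr 1
    norm_num
  have hT1 : 1 ≤ t ^ 12999 := one_le_pow₀ ht1
  have hQ1 : 1 ≤ Q₀ ^ 12999 := one_le_pow₀ hQ₀
  rcases le_total Q₀ t with h | h
  · refine ⟨t, h, t1.ge, ?_⟩
    rw [← t2]
    nlinarith
  · refine ⟨Q₀, le_refl _, ?_, ?_⟩
    · rw [← t1]
      exact pow_le_pow_left₀ ht0.le h 26000
    · rw [← t2]
      nlinarith

end ALG_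

theorem p_ALG : T_NOS → T_ITE → T_BAS → T_QUO → T_ALG := by
  intro h_NOS h_ITE h_BAS _
  obtain ⟨Q₀, hQ₀, hN⟩ := h_NOS
  have hQ1 : 0 ≤ Q₀ ^ 12999 := pow_nonneg (by linarith) _
  refine ⟨3 * Q₀ ^ 12999 + 4, by linarith, ?_⟩
  intro V _ _ _ s hs
  obtain ⟨hB1, -, -, -, hB5⟩ := h_BAS V s hs
  obtain ⟨x, hx⟩ : ∃ x, s x ≠ 0 := by
    by_contra hcon
    push Not at hcon
    rw [Finset.sum_eq_zero (fun v _ => by rw [hcon v]; norm_num)] at hB1
    norm_num at hB1
  have hk : (1 : ℝ) ≤ ((Sp s).card : ℝ) := by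
    have : 0 < (Sp s).card := by
      apply Finset.card_pos.mpr
      refine ⟨x, ?_⟩
      unfold Sp
      rw [Finset.mem_filter]
      exact ⟨Finset.mem_univ _, hx⟩
    exact_mod_cast this
  obtain ⟨Q, hQ, hkQ, hQ3⟩ := ALG_.num _ hk Q₀ hQ₀
  have hQ2 : 1 ≤ Q := hQ₀.trans hQ
  have hQpos : 0 < Q := by linarith
  have hs1 : Bl (fun v => s (v + x)) := ALG_.bl_shift s x hs
  have hc1 : ((Sp (fun v => s (v + x))).card : ℝ) ≤ Q ^ 26000 := by
    rw [ALG_.sp_shift]
    exact hkQ
  have hx0 : (fun v => s (v + x)) 0 ≠ 0 := by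
    simp only [zero_add]
    exact hx
  obtain ⟨W, l, hW, hl⟩ := h_ITE Q hQ2 (fun V _ _ _ s => hN Q hQ V s) V _ hs1 hx0 hc1
  refine ⟨W ⊔ Submodule.span (ZMod 2) {x}, l, ?_, ?_⟩
  · have h1 := ALG_.rank_sup x W
    have h1' : (Module.finrank (ZMod 2)
        (W ⊔ Submodule.span (ZMod 2) {x} : Submodule (ZMod 2) V) : ℝ) ≤
        (Module.finrank (ZMod 2) W : ℝ) + 1 := by exact_mod_cast h1
    refine h1'.trans (le_trans ?_ hQ3)
    have h2 : Real.sqrt (1 - |(fun v => s (v + x)) 0|) ≤ 1 := by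
      have h7 := abs_nonneg ((fun v => s (v + x)) 0)
      calc Real.sqrt (1 - |(fun v => s (v + x)) 0|) ≤ Real.sqrt 1 :=
            Real.sqrt_le_sqrt (by linarith)
        _ = 1 := Real.sqrt_one
    have h3 : 0 < Q ^ 12999 := pow_pos hQpos _
    have h4 : 2 * Q ^ 12999 * Real.sqrt (1 - |(fun v => s (v + x)) 0|) ≤ 2 * Q ^ 12999 := by
      have h5 : 0 ≤ 2 * Q ^ 12999 := by linarith
      calc 2 * Q ^ 12999 * Real.sqrt (1 - |(fun v => s (v + x)) 0|)
          ≤ 2 * Q ^ 12999 * 1 := mul_le_mul_of_nonneg_left h2 h5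
        _ = 2 * Q ^ 12999 := mul_one _
    have h6 : ((Sp (fun v => s (v + x))).card : ℝ) / Q ^ 13001 ≤ Q ^ 12999 := by
      rw [div_le_iff₀ (pow_pos hQpos _), ← pow_add]
      exact hc1
    linarith
  · intro v hv
    exact ALG_.cs_sup s x W l (fun y hy => ALG_.cs_zero s x W l hl y hy) v hv

end Pool.Agent.XPS
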