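import Pool.Agent.XPS.Targets

set_option autoImplicit false

/-!
# MP_9f5962_lc, XPS: averages over characters (CHR)
-/

open scoped Classical

noncomputable section

namespace Pool.Agent.XPS

open Pool.Agent.LRC

namespace CHR_

variable {V : Type} [AddCommGroup V] [Module (ZMod 2) V] [Fintype V]

theorem fin : Finite (Module.Dual (ZMod 2) V) :=
  Finite.of_injective (fun l : Module.Dual (ZMod 2) V => (l : V → ZMod 2))
    DFunLike.coe_injective

/-- The dual is a finite type. -/
@[instance_reducible] def ft : Fintype (Module.Dual (ZMod 2) V) := @Fintype.ofFinite _ fin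

attribute [local instance] ft

theorem av_eq (F : Module.Dual (ZMod 2) V → ℝ) :
    av F = (∑ l : Module.Dual (ZMod 2) V, F l) /
      (Fintype.card (Module.Dual (ZMod 2) V) : ℝ) := by
  unfold av
  rw [finsum_eq_sum_of_fintype, Nat.card_eq_fintype_card]

theorem pos : (0 : ℝ) < (Fintype.card (Module.Dual (ZMod 2) V) : ℝ) := by
  exact_mod_cast Fintype.card_pos

theorem const (c : ℝ) : av (fun _ : Module.Dual (ZMod 2) V => c) = c := by
  rw [av_eq, Finset.sum_const, Finset.card_univ, nsmul_eq_mul]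
  have h := (pos (V := V)).ne'
  field_simp

theorem mono (F G : Module.Dual (ZMod 2) V → ℝ) (h : ∀ l, F l ≤ G l) : av F ≤ av G := by
  rw [av_eq, av_eq]
  exact div_le_div_of_nonneg_right (Finset.sum_le_sum fun l _ => h l) pos.le

theorem shift (F : Module.Dual (ZMod 2) V → ℝ) (m : Module.Dual (ZMod 2) V) :
    av (fun l => F (l + m)) = av F := by
  rw [av_eq, av_eq]
  congr 1
  exact Equiv.sum_comp (Equiv.addRight m) F

theorem mul (c : ℝ) (F : Module.Dual (ZMod 2) V → ℝ) :
    av (fun l => c * F l) = c * av F := by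
  rw [av_eq, av_eq, ← Finset.mul_sum, mul_div_assoc]

theorem add (F G : Module.Dual (ZMod 2) V → ℝ) :
    av (fun l => F l + G l) = av F + av G := by
  rw [av_eq, av_eq, av_eq, Finset.sum_add_distrib, add_div]

theorem sum (ι : Type) (A : Finset ι) (F : ι → Module.Dual (ZMod 2) V → ℝ) :
    av (fun l => ∑ i ∈ A, F i l) = ∑ i ∈ A, av (F i) := by
  rw [av_eq, Finset.sum_comm, Finset.sum_div]
  exact Finset.sum_congr rfl fun i _ => (av_eq (F i)).symm

theorem ex (F : Module.Dual (ZMod 2) V → ℝ) : ∃ l, av F ≤ F l := by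
  by_contra h
  push Not at h
  have h1 : (∑ l : Module.Dual (ZMod 2) V, F l) < ∑ _l : Module.Dual (ZMod 2) V, av F :=
    Finset.sum_lt_sum_of_nonempty Finset.univ_nonempty fun l _ => h l
  rw [Finset.sum_const, Finset.card_univ, nsmul_eq_mul] at h1
  have h2 : (Fintype.card (Module.Dual (ZMod 2) V) : ℝ) * av F =
      ∑ l : Module.Dual (ZMod 2) V, F l := by
    rw [av_eq, mul_div_cancel₀ _ (pos (V := V)).ne']
  linarith

theorem sg_add_one (a b : ZMod 2) (h : b = 1) : sg (a + b) = -sg a := by
  subst h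
  have h1 : ∀ a : ZMod 2, a = 0 ∨ a = 1 := by decide
  have h2 : ((1 : ZMod 2) + 1) = 0 := by decide
  have h3 : ((0 : ZMod 2) + 1) = 1 := by decide
  have h4 : (1 : ZMod 2) ≠ 0 := by decide
  unfold sg
  rcases h1 a with h | h
  · rw [h, h3, if_neg h4, if_pos rfl]
  · rw [h, h2, if_pos rfl, if_neg h4]
    norm_num

theorem char (v : V) :
    av (fun l : Module.Dual (ZMod 2) V => sg (l v)) = if v = 0 then 1 else 0 := by
  by_cases hv : v = 0
  · subst hv
    rw [if_pos rfl]
    have h1 : (fun l : Module.Dual (ZMod 2) V => sg (l (0 : V))) = fun _ => (1 : ℝ) := by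
      funext l
      simp [sg]
    rw [h1, const]
  · rw [if_neg hv]
    obtain ⟨m, hm⟩ : ∃ m : Module.Dual (ZMod 2) V, m v ≠ 0 := by
      by_contra h
      push Not at h
      exact hv ((Module.forall_dual_apply_eq_zero_iff (ZMod 2) v).1 h)
    have hm1 : m v = 1 := by
      have h2 : ∀ a : ZMod 2, a ≠ 0 → a = 1 := by decide
      exact h2 _ hm
    have h3 := shift (fun l : Module.Dual (ZMod 2) V => sg (l v)) m
    have h4 : (fun l : Module.Dual (ZMod 2) V => sg ((l + m) v)) =
        fun l => (-1 : ℝ) * sg (l v) := by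
      funext l
      rw [LinearMap.add_apply, sg_add_one _ _ hm1]
      ring
    rw [h4, mul] at h3
    linarith

end CHR_

theorem p_CHR : T_CHR := by
  intro V _ _ _
  exact ⟨CHR_.char, CHR_.ex, CHR_.mono, CHR_.add, CHR_.mul, CHR_.sum, CHR_.shift, CHR_.const⟩

end Pool.Agent.XPS
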