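import Pool.Agent.LRC.Targets

set_option autoImplicit false

/-!
# MP_9f5962_lc: a power saving over the square root for all XOR functions: definitions

`V` is a finite vector space over `F_2` (the space of frequencies) and `s : V → ℝ` the family of
Fourier coefficients of a function on the dual space. `sg`, `ind`, `fco`, `spa`, `sp1`, `Prot` and
`xrk` are those of `Pool.Agent.LRC.Defs`.
-/

open scoped Classical

noncomputable section

namespace Pool.Agent.XPS

open Pool.Agent.LRC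

section Frequencies

variable {V : Type} [AddCommGroup V] [Module (ZMod 2) V]

/-- The dimension of the span of a finite set. -/
def rk (Y : Finset V) : ℕ := Module.finrank (ZMod 2) (Submodule.span (ZMod 2) (Y : Set V))

/-- The elements of `S` which share their coset of `W` with another element of `S`. -/
def Mg (S : Finset V) (W : Submodule (ZMod 2) V) : Finset V :=
  S.filter (fun x => ∃ y ∈ S, y ≠ x ∧ x + y ∈ W)

/-- The number of cosets of `W` which meet `S`. -/
def nq (S : Finset V) (W : Submodule (ZMod 2) V) : ℕ := (S.image (fun x => W.mkQ x)).card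

/-- The merging bound. -/
def MB (S : Finset V) (K : ℝ) : Prop :=
  ∀ W : Submodule (ZMod 2) V, ((Mg S W).card : ℝ) ≤ 2 * K * (Module.finrank (ZMod 2) W : ℝ)

/-- The number of `x` in `T` with `x + g` in `T`. -/
def rr (T : Finset V) (g : V) : ℕ := (T.filter (fun x => x + g ∈ T)).card

/-- The ordered blocks at `d`: the pairs `(x, y)` such that `d`, `x`, `y`, `d + x + y` are distinct
and the last three are in `S`. -/
def Bk (S : Finset V) (d : V) : Finset (V × V) :=
  (S ×ˢ S).filter (fun p => p.1 ≠ p.2 ∧ p.1 ≠ d ∧ p.2 ≠ d ∧ d + p.1 + p.2 ∈ S)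

/-- The number of ordered blocks at `d`. -/
def EE (S : Finset V) (d : V) : ℕ := (Bk S d).card

/-- The sum of the subspaces `U i` with `i ≠ j`. -/
def co {ι : Type} (U : ι → Submodule (ZMod 2) V) (j : ι) : Submodule (ZMod 2) V :=
  ⨆ (i : ι) (_ : i ≠ j), U i

/-- The conclusion of the block lemma for `q` blocks with the bound `M`. -/
def LBl (S : Finset V) (s : V → ℝ) (q : ℕ) (M : ℝ) : Prop :=
  ∀ (U : Fin q → Submodule (ZMod 2) V) (Z : Fin q → Finset V),
    (∀ j, ∀ z ∈ Z j, z ∈ S ∧ z ∈ U j ∧ z ∉ co U j ∧ z ∉ Mg S (co U j)) →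
    ∑ j, Real.sqrt (∑ z ∈ Z j, s z ^ 2) ≤ M

variable [Fintype V]

/-- The function with Fourier coefficients `s`. -/
def ft (s : V → ℝ) (l : Module.Dual (ZMod 2) V) : ℝ := ∑ v, s v * sg (l v)

/-- All values of the function with Fourier coefficients `s` are `1` or `-1`. -/
def Bl (s : V → ℝ) : Prop := ∀ l : Module.Dual (ZMod 2) V, ft s l = 1 ∨ ft s l = -1

/-- The support. -/
def Sp (s : V → ℝ) : Finset V := Finset.univ.filter (fun v => s v ≠ 0)

/-- The sum over the coset `x + W` with the character `l`. -/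
def cs (s : V → ℝ) (W : Submodule (ZMod 2) V) (l : Module.Dual (ZMod 2) V) (x : V) : ℝ :=
  ∑ v, if v + x ∈ W then s v * sg (l v) else 0

/-- The average over all characters. -/
def av (F : Module.Dual (ZMod 2) V → ℝ) : ℝ :=
  (∑ᶠ l : Module.Dual (ZMod 2) V, F l) / (Nat.card (Module.Dual (ZMod 2) V) : ℝ)

/-- The Fourier coefficients of a restriction: the sums over the cosets of `W`. -/
def qs (s : V → ℝ) (W : Submodule (ZMod 2) V) (l : Module.Dual (ZMod 2) V) (q : V ⧸ W) : ℝ :=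
  ∑ v, if W.mkQ v = q then s v * sg (l v) else 0

/-- The `g` in `W` with `|s (t + g)| ≥ σ`. -/
def nb (s : V → ℝ) (W : Submodule (ZMod 2) V) (σ : ℝ) (t : V) : Finset V :=
  Finset.univ.filter (fun g => g ∈ W ∧ σ ≤ |s (t + g)|)

/-- The conclusion of the rich lemma with centre `x₀`, rank `m` and bound `ρ`. -/
def Rch (s : V → ℝ) (σ : ℝ) (x₀ : V) (m : ℕ) (ρ : ℝ) : Prop :=
  ∀ (W : Submodule (ZMod 2) V) (B : Finset V),
    LinearIndependent (ZMod 2) (fun t : B => W.mkQ (x₀ + (t : V))) →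
    (∀ t ∈ B, m ≤ rk (nb s W σ t)) → (B.card : ℝ) ≤ ρ

/-- The pairs `(x, y)` such that `d`, `x`, `y`, `d + x + y` are distinct and the last three are
not zero. -/
def Om (d : V) : Finset (V × V) := Finset.univ.filter (fun p => p.1 ≠ p.2 ∧ p.1 ≠ d ∧ p.2 ≠ d ∧
  p.1 ≠ 0 ∧ p.2 ≠ 0 ∧ d + p.1 + p.2 ≠ 0)

/-- The number of directions of the block `d`, `x`, `y`, `d + x + y` in `G`. -/
def nG (G : Finset V) (d : V) (p : V × V) : ℝ :=
  (if d + p.1 ∈ G then 1 else 0) + (if d + p.2 ∈ G then 1 else 0) +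
    (if p.1 + p.2 ∈ G then 1 else 0)

/-- The heavy directions at `d`. -/
def Gm (T : Finset V) (κ : ℝ) (d : V) : Finset V :=
  Finset.univ.filter (fun g => g ≠ 0 ∧ κ ≤ (rr T g : ℝ) ∧ d + g ∈ T)

/-- The codegree of `d` and `t`. -/
def cd (T : Finset V) (κ : ℝ) (d t : V) : ℕ := ((Gm T κ d).filter (fun g => t + g ∈ T)).card

/-- The bad pairs `(g, x)` at `d`: `g` is a heavy direction at `d` and `x`, `x + g` both have large
codegree with `d`. -/
def Bad (T : Finset V) (κ D₀ : ℝ) (d : V) : Finset (V × V) :=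
  (Gm T κ d ×ˢ T).filter (fun p => p.2 + p.1 ∈ T ∧ p.2 ≠ d ∧ p.2 + p.1 ≠ d ∧
    D₀ < (cd T κ d p.2 : ℝ) ∧ D₀ < (cd T κ d (p.2 + p.1) : ℝ))

/-- The good heavy directions at `d`. -/
def Gp (T : Finset V) (κ D₀ : ℝ) (d : V) : Finset V :=
  (Gm T κ d).filter (fun g => 2 * ((Bad T κ D₀ d).filter (fun p => p.1 = g)).card ≤ rr T g)

/-- The hubs. -/
def Hb (S : Finset V) (E₁ : ℝ) : Finset V := S.filter (fun v => E₁ < (EE S v : ℝ))

/-- The light blocks at `d` in `T`, written as pairs `(v, y)` with `y` and `d + v + y` not in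
`Hu`. -/
def Lt (T Hu : Finset V) (κ : ℝ) (d : V) : Finset (V × V) :=
  (Bk T d).filter (fun p => p.2 ∉ Hu ∧ d + p.1 + p.2 ∉ Hu ∧
    (rr T (d + p.1) : ℝ) < κ ∧ (rr T (d + p.2) : ℝ) < κ ∧ (rr T (p.1 + p.2) : ℝ) < κ)

/-- The square root of the energy outside `0`. -/
def et (s : V → ℝ) : ℝ := Real.sqrt (1 - s 0 ^ 2)

/-- The stuck states of the merging algorithm (`Q ^ 26000` is the sparsity, so that `Q ^ 13000` is
its square root). -/
def Stk (Q : ℝ) (s : V → ℝ) : Prop :=
  Bl s ∧ s 0 ≠ 0 ∧ 0 < et s ∧ ((Sp s).card : ℝ) ≤ Q ^ 26000 ∧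
  (∀ x : V, x ≠ 0 → |s x| * Q ^ 12999 ≤ et s) ∧
  ∀ W : Submodule (ZMod 2) V, W ≠ ⊥ →
    ((Sp s).card : ℝ) < (nq (Sp s) W : ℝ) + Q ^ 13001 * (Module.finrank (ZMod 2) W : ℝ)

/-- The elements `x ≠ 0` with `|s x| ≥ et s / Q ^ n`. -/
def Lv (Q : ℝ) (n : ℕ) (s : V → ℝ) : Finset V :=
  Finset.univ.filter (fun x => x ≠ 0 ∧ et s ≤ |s x| * Q ^ n)

end Frequencies

section Bernoulli

variable {α : Type}

/-- The weight of the subset `Y` of `A` if each element is chosen with probability `p`. -/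
def bw (p : ℝ) (A Y : Finset α) : ℝ := p ^ Y.card * (1 - p) ^ (A.card - Y.card)

/-- The expectation over the random subset. -/
def be (p : ℝ) (A : Finset α) (F : Finset α → ℝ) : ℝ := ∑ Y ∈ A.powerset, bw p A Y * F Y

end Bernoulli

section Kikuchi

variable {V : Type}

/-- The number of blocks at the points of `L` which contain `v`. -/
def NN (Y : V → V → Finset V) (L : Finset V) (v : V) : ℝ := ∑ d ∈ L, ((Y d v).card : ℝ)

/-- The second moment of the number of entries of a random tuple in `Y₁` and in `Y₂`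
(`P` = length / size). -/
def M2 (P : ℝ) (Y₁ Y₂ : Finset V) : ℝ :=
  P ^ 2 * (Y₁.card : ℝ) * (Y₂.card : ℝ) + P * ((Y₁ ∩ Y₂).card : ℝ)

/-- The sum of the second moments over all pairs in `L`. -/
def MM (P : ℝ) (Y : V → V → Finset V) (L : Finset V) (v w : V) : ℝ :=
  ∑ d ∈ L, ∑ e ∈ L, M2 P (Y d v) (Y e w)

/-- The sum of the second moments over the diagonal of `L`. -/
def M0 (P : ℝ) (Y : V → V → Finset V) (L : Finset V) (v w : V) : ℝ :=
  ∑ d ∈ L, M2 P (Y d v) (Y d w)

/-- The mean degree. -/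
def k1 (P : ℝ) (Y : V → V → Finset V) (VV L R : Finset V) : ℝ :=
  P ^ 2 * ∑ v ∈ VV, NN Y L v * NN Y R v

/-- The bound for the mean square of the degree. -/
def k2 (P : ℝ) (Y : V → V → Finset V) (VV L R : Finset V) : ℝ :=
  ∑ v ∈ VV, ∑ w ∈ VV, MM P Y L v w * MM P Y R v w

/-- The bound for the mean sum of the squares of the degrees of one colour. -/
def k3 (P : ℝ) (Y : V → V → Finset V) (VV L R : Finset V) : ℝ :=
  ∑ v ∈ VV, ∑ w ∈ VV, M0 P Y L v w * MM P Y R v w

end Kikuchi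

end Pool.Agent.XPS
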