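import Pool.Agent.XPS.Targets

set_option autoImplicit false

/-!
# XPS: the greedy choice of a subspace (GRD)
-/

open scoped Classical

noncomputable section

namespace Pool.Agent.XPS

theorem p_GRD : T_GRD := by
  intro V _ _ _ Ω U ρ y hy hρ hL
  let P : Finset Ω → Prop := fun L =>
    3 * y * (L.card : ℝ) ≤ (Module.finrank (ZMod 2) (⨆ ω ∈ L, U ω : Submodule (ZMod 2) V) : ℝ)
  have hbound : ∀ L, P L → (L.card : ℝ) * (2 * y) ≤ ρ := by
    intro L hP
    have h1 : 3 * y * (L.card : ℝ) ≤ ρ + y * (L.card : ℝ) := le_trans hP (hL L)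
    nlinarith
  have hex : ∃ n : ℕ, (∃ L, P L ∧ L.card = n) ∧ ∀ m, (∃ L, P L ∧ L.card = m) → m ≤ n := by
    have hne : {n : ℕ | ∃ L, P L ∧ L.card = n}.Nonempty := by
      refine ⟨0, ∅, ?_, rfl⟩
      change 3 * y * (((∅ : Finset Ω).card : ℕ) : ℝ) ≤ _
      simp
    have hbd : BddAbove {n : ℕ | ∃ L, P L ∧ L.card = n} := by
      refine ⟨Nat.ceil (ρ / (2 * y)), ?_⟩
      rintro n ⟨L, hP, rfl⟩
      have h1 := hbound L hP
      have h2 : (L.card : ℝ) ≤ ρ / (2 * y) := by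
        rw [le_div_iff₀ (by positivity)]; exact h1
      have h3 : ((L.card : ℕ) : ℝ) ≤ ((Nat.ceil (ρ / (2 * y)) : ℕ) : ℝ) :=
        h2.trans (Nat.le_ceil _)
      exact_mod_cast h3
    exact ⟨sSup {n : ℕ | ∃ L, P L ∧ L.card = n}, Nat.sSup_mem hne hbd,
      fun m hm => le_csSup hbd hm⟩
  obtain ⟨n, ⟨L, hP, hLn⟩, hmax⟩ := hex
  refine ⟨⨆ ω ∈ L, U ω, ?_, ?_⟩
  · have h1 := hbound L hP
    have h2 := hL L
    nlinarith
  · intro ω
    by_contra hcon
    rw [not_le] at hcon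
    have hnot : ω ∉ L := by
      intro hω
      have hle : U ω ≤ (⨆ ω ∈ L, U ω : Submodule (ZMod 2) V) := le_iSup₂_of_le ω hω le_rfl
      rw [sup_eq_left.2 hle] at hcon
      linarith
    have hins : P (insert ω L) := by
      change 3 * y * (((insert ω L).card : ℕ) : ℝ) ≤ _
      rw [Finset.iSup_insert, sup_comm, Finset.card_insert_of_notMem hnot]
      have hP' : 3 * y * (L.card : ℝ) ≤
        (Module.finrank (ZMod 2) (⨆ ω ∈ L, U ω : Submodule (ZMod 2) V) : ℝ) := hP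
      push_cast
      linarith
    have h4 := hmax _ ⟨_, hins, rfl⟩
    rw [Finset.card_insert_of_notMem hnot] at h4
    omega

end Pool.Agent.XPS
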