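import Pool.Agent.XPS.Targets

set_option autoImplicit false

/-!
# MP_9f5962_lc: the Kikuchi bound for a regular family
-/

open scoped Classical

noncomputable section

namespace Pool.Agent.XPS

open Pool.Agent.LRC

private theorem kab_M2_nonneg {V : Type} (P : ℝ) (hP : 0 ≤ P) (Y1 Y2 : Finset V) :
    0 ≤ M2 P Y1 Y2 := by
  unfold M2
  positivity

private theorem kab_MM_nonneg {V : Type} (P : ℝ) (hP : 0 ≤ P) (Y : V → V → Finset V)
    (L : Finset V) (v w : V) : 0 ≤ MM P Y L v w :=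
  Finset.sum_nonneg fun _ _ => Finset.sum_nonneg fun _ _ => kab_M2_nonneg P hP _ _

private theorem kab_M0_nonneg {V : Type} (P : ℝ) (hP : 0 ≤ P) (Y : V → V → Finset V)
    (L : Finset V) (v w : V) : 0 ≤ M0 P Y L v w :=
  Finset.sum_nonneg fun _ _ => kab_M2_nonneg P hP _ _

private theorem kab_MM_mono {V : Type} (P : ℝ) (hP : 0 ≤ P) (Y : V → V → Finset V)
    {L L' : Finset V} (h : L' ⊆ L) (v w : V) : MM P Y L' v w ≤ MM P Y L v w := by
  unfold MM
  calc ∑ d ∈ L', ∑ e ∈ L', M2 P (Y d v) (Y e w) ≤ ∑ d ∈ L', ∑ e ∈ L, M2 P (Y d v) (Y e w) :=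
        Finset.sum_le_sum fun d _ => Finset.sum_le_sum_of_subset_of_nonneg h
          fun _ _ _ => kab_M2_nonneg P hP _ _
    _ ≤ ∑ d ∈ L, ∑ e ∈ L, M2 P (Y d v) (Y e w) :=
        Finset.sum_le_sum_of_subset_of_nonneg h
          fun _ _ _ => Finset.sum_nonneg fun _ _ => kab_M2_nonneg P hP _ _

private theorem kab_M0_mono {V : Type} (P : ℝ) (hP : 0 ≤ P) (Y : V → V → Finset V)
    {L L' : Finset V} (h : L' ⊆ L) (v w : V) : M0 P Y L' v w ≤ M0 P Y L v w :=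
  Finset.sum_le_sum_of_subset_of_nonneg h fun _ _ _ => kab_M2_nonneg P hP _ _

private theorem kab_k2_mono {V : Type} (P : ℝ) (hP : 0 ≤ P) (Y : V → V → Finset V)
    (VV : Finset V) {L L' : Finset V} (h : L' ⊆ L) (R : Finset V) :
    k2 P Y VV L' R ≤ k2 P Y VV L R :=
  Finset.sum_le_sum fun v _ => Finset.sum_le_sum fun w _ =>
    mul_le_mul_of_nonneg_right (kab_MM_mono P hP Y h v w) (kab_MM_nonneg P hP Y R v w)

private theorem kab_k3_mono {V : Type} (P : ℝ) (hP : 0 ≤ P) (Y : V → V → Finset V)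
    (VV : Finset V) {L L' : Finset V} (h : L' ⊆ L) (R : Finset V) :
    k3 P Y VV L' R ≤ k3 P Y VV L R :=
  Finset.sum_le_sum fun v _ => Finset.sum_le_sum fun w _ =>
    mul_le_mul_of_nonneg_right (kab_M0_mono P hP Y h v w) (kab_MM_nonneg P hP Y R v w)

private theorem kab_k2_nonneg {V : Type} (P : ℝ) (hP : 0 ≤ P) (Y : V → V → Finset V)
    (VV L R : Finset V) : 0 ≤ k2 P Y VV L R :=
  Finset.sum_nonneg fun v _ => Finset.sum_nonneg fun w _ =>
    mul_nonneg (kab_MM_nonneg P hP Y L v w) (kab_MM_nonneg P hP Y R v w)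

private theorem kab_k3_nonneg {V : Type} (P : ℝ) (hP : 0 ≤ P) (Y : V → V → Finset V)
    (VV L R : Finset V) : 0 ≤ k3 P Y VV L R :=
  Finset.sum_nonneg fun v _ => Finset.sum_nonneg fun w _ =>
    mul_nonneg (kab_M0_nonneg P hP Y L v w) (kab_MM_nonneg P hP Y R v w)

/-- The numerical end of the proof. -/
private theorem kab_num {X1 X2' X3' k a b t : ℝ} {r : ℕ} (hX1 : 0 < X1) (hX2 : 0 < X2')
    (hX3 : 0 < X3') (hk : X1 / 2 ≤ k) (ha0 : 0 ≤ a) (hb0 : 0 ≤ b)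
    (ha : a ≤ 4 * X2' / X1 * k) (hb : b ≤ 4 * X3' / X1 * k) (ht : 0 ≤ t)
    (h : (k ^ 4) ^ r ≤ t * (2048 * r * a * b) ^ r) :
    (X1 ^ 4) ^ r ≤ t * (2 ^ 17 * r * X2' * X3') ^ r := by
  have hk0 : 0 < k := by linarith
  have hr0 : (0 : ℝ) ≤ r := Nat.cast_nonneg r
  have h1 : 2048 * r * a * b ≤ 32768 * r * X2' * X3' / X1 ^ 2 * k ^ 2 := by
    have h2 : a * b ≤ (4 * X2' / X1 * k) * (4 * X3' / X1 * k) :=
      mul_le_mul ha hb hb0 (ha0.trans ha)
    have h3 : 2048 * r * (a * b) ≤ 2048 * r * ((4 * X2' / X1 * k) * (4 * X3' / X1 * k)) :=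
      mul_le_mul_of_nonneg_left h2 (by positivity)
    have e : 2048 * r * ((4 * X2' / X1 * k) * (4 * X3' / X1 * k)) =
        32768 * r * X2' * X3' / X1 ^ 2 * k ^ 2 := by
      field_simp
      ring
    rw [e] at h3
    linarith
  have h4 : (k ^ 4) ^ r ≤ t * ((32768 * r * X2' * X3' / X1 ^ 2) ^ r * (k ^ 2) ^ r) := by
    refine h.trans ?_
    rw [← mul_pow]
    apply mul_le_mul_of_nonneg_left _ ht
    exact pow_le_pow_left₀ (by positivity) h1 r
  have hk2 : 0 < (k ^ 2) ^ r := by positivity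
  have h5 : (k ^ 2) ^ r ≤ t * (32768 * r * X2' * X3' / X1 ^ 2) ^ r := by
    have e : (k ^ 4) ^ r = (k ^ 2) ^ r * (k ^ 2) ^ r := by
      rw [← mul_pow]
      congr 1
      ring
    rw [e, ← mul_assoc] at h4
    exact le_of_mul_le_mul_right h4 hk2
  have h6 : (X1 ^ 2 / 4) ^ r ≤ (k ^ 2) ^ r := by
    apply pow_le_pow_left₀ (by positivity)
    have : (X1 / 2) ^ 2 ≤ k ^ 2 := pow_le_pow_left₀ (by positivity) hk 2
    calc X1 ^ 2 / 4 = (X1 / 2) ^ 2 := by ring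
      _ ≤ k ^ 2 := this
  have h7 : (4 * X1 ^ 2) ^ r * (X1 ^ 2 / 4) ^ r ≤
      (4 * X1 ^ 2) ^ r * (t * (32768 * r * X2' * X3' / X1 ^ 2) ^ r) :=
    mul_le_mul_of_nonneg_left (h6.trans h5) (by positivity)
  have e1 : (4 * X1 ^ 2) ^ r * (X1 ^ 2 / 4) ^ r = (X1 ^ 4) ^ r := by
    rw [← mul_pow]
    congr 1
    ring
  have e2 : (4 * X1 ^ 2) ^ r * (t * (32768 * r * X2' * X3' / X1 ^ 2) ^ r) =
      t * (2 ^ 17 * r * X2' * X3') ^ r := by
    have e3 : (4 * X1 ^ 2) ^ r * (32768 * r * X2' * X3' / X1 ^ 2) ^ r =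
        (2 ^ 17 * r * X2' * X3') ^ r := by
      rw [← mul_pow]
      congr 1
      field_simp
      ring
    rw [← e3]
    ring
  rw [e1, e2] at h7
  exact h7

theorem p_KAB : T_BER → T_KIK → T_EXK → T_LOS → T_KAB := by
  intro hBER hKIK hEXK hLOS V _ _ T Dd VV Y κ E₁ b K₂ K n q X1 l r j hT hYT hYs hκ hE₁ hb hK₂ hK
    hn hq hq1 hFam hspan hX1 hX1pos hr
  set P : ℝ := (l : ℝ) / (T.card : ℝ) with hP
  have hP0 : 0 ≤ P := by positivity
  set ν : ℝ := (VV.card : ℝ) with hν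
  have hν0 : 0 ≤ ν := Nat.cast_nonneg _
  have hinner : q ^ 2 * ν * n ^ 2 - 16 * K * b * q ^ 3 * (Dd.card : ℝ) * n -
      2 * κ * q * ν * n ≤ q ^ 2 * ν * n ^ 2 := by
    have h1 : 0 ≤ 16 * K * b * q ^ 3 * (Dd.card : ℝ) * n := by positivity
    have h2 : 0 ≤ 2 * κ * q * ν * n := by positivity
    linarith
  have hPpos : 0 < P := by
    rcases hP0.eq_or_lt with h | h
    · rw [← h] at hX1
      rw [hX1] at hX1pos
      norm_num at hX1pos
    · exact h
  have hνpos : 0 < ν := by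
    rcases hν0.eq_or_lt with h | h
    · exfalso
      have h1 : X1 ≤ P ^ 2 * (q ^ 2 * ν * n ^ 2) := by
        rw [hX1]
        exact mul_le_mul_of_nonneg_left hinner (by positivity)
      rw [← h] at h1
      have h2 : P ^ 2 * (q ^ 2 * 0 * n ^ 2) = 0 := by ring
      linarith
    · exact h
  have hX2pos : 0 < X2 P q κ E₁ b K₂ n ν := by
    unfold X2
    positivity
  have hX3pos : 0 < X3 P q κ b K₂ n ν := by
    unfold X3
    positivity
  obtain ⟨-, -, -, -, -, -, -, -, hadd, hsm, -, hex⟩ := hBER V q Dd hq.le hq1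
  obtain ⟨hk2, hk3⟩ := hEXK V Dd VV Y κ E₁ b K₂ n P q hκ hE₁ hb hK₂ hn.le hP0 hq hq1 hFam
  have hk1 := hLOS V Dd VV Y κ E₁ b K₂ K n P q hκ hb hK hn hP0 hq hq1 hFam hspan
  rw [← hX1] at hk1
  set c2 : ℝ := -(X1 / (4 * X2 P q κ E₁ b K₂ n ν)) with hc2
  set c3 : ℝ := -(X1 / (4 * X3 P q κ b K₂ n ν)) with hc3
  have hmean : be q Dd (fun L => be q Dd (fun R => k1 P Y VV (Li L R) R +
      (c2 * k2 P Y VV L R + c3 * k3 P Y VV L R))) =
      be q Dd (fun L => be q Dd (fun R => k1 P Y VV (Li L R) R)) +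
      (c2 * be q Dd (fun L => be q Dd (fun R => k2 P Y VV L R)) +
        c3 * be q Dd (fun L => be q Dd (fun R => k3 P Y VV L R))) := by
    have h1 : (fun L => be q Dd (fun R => k1 P Y VV (Li L R) R +
        (c2 * k2 P Y VV L R + c3 * k3 P Y VV L R))) =
        fun L => be q Dd (fun R => k1 P Y VV (Li L R) R) +
          (c2 * be q Dd (fun R => k2 P Y VV L R) + c3 * be q Dd (fun R => k3 P Y VV L R)) := by
      funext L
      rw [hadd, hadd, hsm, hsm]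
    rw [h1, hadd, hadd, hsm, hsm]
  obtain ⟨L, hL, h1⟩ := hex (fun L => be q Dd (fun R => k1 P Y VV (Li L R) R +
      (c2 * k2 P Y VV L R + c3 * k3 P Y VV L R)))
  obtain ⟨R, hR, h2⟩ := hex (fun R => k1 P Y VV (Li L R) R +
      (c2 * k2 P Y VV L R + c3 * k3 P Y VV L R))
  rw [hmean] at h1
  set k := k1 P Y VV (Li L R) R with hk
  have hc2k : -(X1 / 4) ≤ c2 * be q Dd (fun L => be q Dd (fun R => k2 P Y VV L R)) := by
    have h3 : X1 / (4 * X2 P q κ E₁ b K₂ n ν) *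
        be q Dd (fun L => be q Dd (fun R => k2 P Y VV L R)) ≤
        X1 / (4 * X2 P q κ E₁ b K₂ n ν) * X2 P q κ E₁ b K₂ n ν :=
      mul_le_mul_of_nonneg_left hk2 (by positivity)
    have e : X1 / (4 * X2 P q κ E₁ b K₂ n ν) * X2 P q κ E₁ b K₂ n ν = X1 / 4 := by
      field_simp
    rw [hc2]
    linarith
  have hc3k : -(X1 / 4) ≤ c3 * be q Dd (fun L => be q Dd (fun R => k3 P Y VV L R)) := by
    have h3 : X1 / (4 * X3 P q κ b K₂ n ν) *
        be q Dd (fun L => be q Dd (fun R => k3 P Y VV L R)) ≤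
        X1 / (4 * X3 P q κ b K₂ n ν) * X3 P q κ b K₂ n ν :=
      mul_le_mul_of_nonneg_left hk3 (by positivity)
    have e : X1 / (4 * X3 P q κ b K₂ n ν) * X3 P q κ b K₂ n ν = X1 / 4 := by
      field_simp
    rw [hc3]
    linarith
  have hmain : X1 / 2 ≤ k + (c2 * k2 P Y VV L R + c3 * k3 P Y VV L R) := by linarith
  have hk2n := kab_k2_nonneg P hP0 Y VV L R
  have hk3n := kab_k3_nonneg P hP0 Y VV L R
  have ha1 : 0 ≤ X1 / (4 * X2 P q κ E₁ b K₂ n ν) * k2 P Y VV L R := by positivity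
  have ha2 : 0 ≤ X1 / (4 * X3 P q κ b K₂ n ν) * k3 P Y VV L R := by positivity
  have hkX : X1 / 2 ≤ k := by
    rw [hc2, hc3] at hmain
    linarith
  have hb2 : k2 P Y VV L R ≤ 4 * X2 P q κ E₁ b K₂ n ν / X1 * k := by
    have h3 : X1 / (4 * X2 P q κ E₁ b K₂ n ν) * k2 P Y VV L R ≤ k := by
      rw [hc2, hc3] at hmain
      linarith
    have h4 : 4 * X2 P q κ E₁ b K₂ n ν / X1 * (X1 / (4 * X2 P q κ E₁ b K₂ n ν) *
        k2 P Y VV L R) ≤ 4 * X2 P q κ E₁ b K₂ n ν / X1 * k :=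
      mul_le_mul_of_nonneg_left h3 (by positivity)
    have e : 4 * X2 P q κ E₁ b K₂ n ν / X1 * (X1 / (4 * X2 P q κ E₁ b K₂ n ν) *
        k2 P Y VV L R) = k2 P Y VV L R := by
      field_simp
    rw [e] at h4
    exact h4
  have hb3 : k3 P Y VV L R ≤ 4 * X3 P q κ b K₂ n ν / X1 * k := by
    have h3 : X1 / (4 * X3 P q κ b K₂ n ν) * k3 P Y VV L R ≤ k := by
      rw [hc2, hc3] at hmain
      linarith
    have h4 : 4 * X3 P q κ b K₂ n ν / X1 * (X1 / (4 * X3 P q κ b K₂ n ν) *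
        k3 P Y VV L R) ≤ 4 * X3 P q κ b K₂ n ν / X1 * k :=
      mul_le_mul_of_nonneg_left h3 (by positivity)
    have e : 4 * X3 P q κ b K₂ n ν / X1 * (X1 / (4 * X3 P q κ b K₂ n ν) *
        k3 P Y VV L R) = k3 P Y VV L R := by
      field_simp
    rw [e] at h4
    exact h4
  have hLi : Li L R ⊆ L := Finset.filter_subset _ _
  have hind : ∀ d ∈ Li L R, d ∉ Submodule.span (ZMod 2) (((Li L R).erase d : Finset V) : Set V) ⊔
      Submodule.span (ZMod 2) (R : Set V) := by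
    intro d hd hcon
    unfold Li at hd
    rw [Finset.mem_filter] at hd
    apply hd.2
    have hle : Submodule.span (ZMod 2) (((Li L R).erase d : Finset V) : Set V) ≤
        Submodule.span (ZMod 2) ((L.erase d : Finset V) : Set V) :=
      Submodule.span_mono (by exact_mod_cast Finset.erase_subset_erase d hLi)
    exact sup_le_sup_right hle _ hcon
  have hfin := hKIK V T (Li L R) R VV Y l r j hT hYT hYs hind hr
  exact kab_num hX1pos hX2pos hX3pos hkX (kab_k2_nonneg P hP0 Y VV _ R)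
    (kab_k3_nonneg P hP0 Y VV _ R) ((kab_k2_mono P hP0 Y VV hLi R).trans hb2)
    ((kab_k3_mono P hP0 Y VV hLi R).trans hb3) (by positivity) hfin

end Pool.Agent.XPS
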