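import Pool.Agent.XPS.Defs

set_option autoImplicit false

/-!
# MP_9f5962_lc: a power saving over the square root for all XOR functions: targets

Job `X` proves `theorem Pool.Agent.XPS.p_X : T_X` (or `T_A → T_B → T_X`, see the job) in
`Pool/Agent/XPS/X.lean`. The paper proof is row 2113 of `ideas`.
-/

open scoped Classical

noncomputable section

namespace Pool.Agent.XPS

open Pool.Agent.LRC

/-! ### Part 1: analytic lemmas -/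

/-- CHR: averages over characters. -/
def T_CHR : Prop := ∀ (V : Type) [AddCommGroup V] [Module (ZMod 2) V] [Fintype V],
  (∀ v : V, av (fun l : Module.Dual (ZMod 2) V => sg (l v)) = if v = 0 then 1 else 0) ∧
  (∀ F : Module.Dual (ZMod 2) V → ℝ, ∃ l, av F ≤ F l) ∧
  (∀ F G : Module.Dual (ZMod 2) V → ℝ, (∀ l, F l ≤ G l) → av F ≤ av G) ∧
  (∀ F G : Module.Dual (ZMod 2) V → ℝ, av (fun l => F l + G l) = av F + av G) ∧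
  (∀ (c : ℝ) (F : Module.Dual (ZMod 2) V → ℝ), av (fun l => c * F l) = c * av F) ∧
  (∀ (ι : Type) (A : Finset ι) (F : ι → Module.Dual (ZMod 2) V → ℝ),
    av (fun l => ∑ i ∈ A, F i l) = ∑ i ∈ A, av (F i)) ∧
  (∀ (F : Module.Dual (ZMod 2) V → ℝ) (m : Module.Dual (ZMod 2) V),
    av (fun l => F (l + m)) = av F) ∧
  (∀ c : ℝ, av (fun _ : Module.Dual (ZMod 2) V => c) = c)

/-- BAS: Parseval, autocorrelation, coset sums, triple convolution. -/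
def T_BAS : Prop := ∀ (V : Type) [AddCommGroup V] [Module (ZMod 2) V] [Fintype V] (s : V → ℝ),
  Bl s → (∑ v, s v ^ 2 = 1) ∧ (∀ g : V, g ≠ 0 → ∑ x, s x * s (x + g) = 0) ∧
  (∀ (W : Submodule (ZMod 2) V) (l : Module.Dual (ZMod 2) V) (x : V), |cs s W l x| ≤ 1) ∧
  (∀ d : V, ∑ x, ∑ y, s x * s y * s (d + x + y) = s d) ∧ ∀ v, |s v| ≤ 1

/-- QUO: restrictions. -/
def T_QUO : Prop := ∀ (V : Type) [AddCommGroup V] [Module (ZMod 2) V] [Fintype V] (s : V → ℝ)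
  (W : Submodule (ZMod 2) V) [Fintype (V ⧸ W)] (l : Module.Dual (ZMod 2) V),
  (Bl s → Bl (qs s W l)) ∧ (Sp (qs s W l)).card ≤ nq (Sp s) W ∧
  nq (Sp s) W ≤ (Sp s).card ∧
  (∀ v : V, qs s W l (W.mkQ v) = cs s W l v) ∧
  (∀ (U : Submodule (ZMod 2) (V ⧸ W)) (m : Module.Dual (ZMod 2) (V ⧸ W)) (v : V),
    cs (qs s W l) U m (W.mkQ v) = cs s (U.comap W.mkQ) (l + m ∘ₗ W.mkQ) v)

/-- LAG: interpolation weights which extract the linear coefficient. -/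
def T_LAG : Prop := ∀ D : ℕ, ∃ c ρ : Fin (D + 1) → ℝ, (∀ j, 0 ≤ ρ j ∧ ρ j ≤ 1) ∧
  ∀ i ≤ D, ∑ j, c j * ρ j ^ i = if i = 1 then 1 else 0

/-- BER: random subsets. -/
def T_BER : Prop := ∀ (α : Type) (p : ℝ) (A : Finset α), 0 ≤ p → p ≤ 1 →
  be p A (fun _ => 1) = 1 ∧
  (∀ B ⊆ A, be p A (fun Y => if B ⊆ Y then 1 else 0) = p ^ B.card) ∧
  (∀ B ⊆ A, be p A (fun Y => ((Y ∩ B).card : ℝ)) = p * (B.card : ℝ)) ∧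
  (∀ w : α → ℝ, be p A (fun Y => ∑ a ∈ Y, w a) = p * ∑ a ∈ A, w a) ∧
  (∀ w : α → ℝ, be p A (fun Y => (∑ a ∈ Y, w a - p * ∑ a ∈ A, w a) ^ 2) =
    p * (1 - p) * ∑ a ∈ A, w a ^ 2) ∧
  (∀ w : α → α → ℝ, be p A (fun Y => ∑ a ∈ Y, ∑ b ∈ Y, w a b) =
    p ^ 2 * ∑ a ∈ A, ∑ b ∈ A, w a b + p * (1 - p) * ∑ a ∈ A, w a a) ∧
  (∀ a ∈ A, ∀ F : Finset α → ℝ,
    be p A (fun Y => if a ∈ Y then F (Y.erase a) else 0) = p * be p A (fun Y => F (Y.erase a))) ∧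
  (∀ F G : Finset α → ℝ, (∀ Y ⊆ A, F Y ≤ G Y) → be p A F ≤ be p A G) ∧
  (∀ F G : Finset α → ℝ, be p A (fun Y => F Y + G Y) = be p A F + be p A G) ∧
  (∀ (c : ℝ) (F : Finset α → ℝ), be p A (fun Y => c * F Y) = c * be p A F) ∧
  (∀ (ι : Type) (I : Finset ι) (F : ι → Finset α → ℝ),
    be p A (fun Y => ∑ i ∈ I, F i Y) = ∑ i ∈ I, be p A (F i)) ∧
  (∀ F : Finset α → ℝ, ∃ Y ⊆ A, be p A F ≤ F Y)

/-- EXT: characters on independent subspaces can be glued. -/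
def T_EXT : Prop := ∀ (V : Type) [AddCommGroup V] [Module (ZMod 2) V] (ι : Type) [Fintype ι]
  (U : ι → Submodule (ZMod 2) V) (l : ι → Module.Dual (ZMod 2) V), iSupIndep U →
  ∃ L : Module.Dual (ZMod 2) V, ∀ j, ∀ u ∈ U j, L u = l j u

/-- SUP: the set of nonzero components of an element of a direct sum. -/
def T_SUP : Prop := ∀ (V : Type) [AddCommGroup V] [Module (ZMod 2) V] (ι : Type) [Fintype ι]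
  (U : ι → Submodule (ZMod 2) V), iSupIndep U →
  ∃ I : V → Finset ι, ∀ v : V, v ∈ (⨆ j, U j : Submodule (ZMod 2) V) → ∀ J : Finset ι,
    (v ∈ (⨆ j ∈ J, U j : Submodule (ZMod 2) V) ↔ I v ⊆ J)

/-- XTR: the part of degree one is extracted from the averages over random subfamilies. -/
def T_XTR : Prop := ∀ D : ℕ, 1 ≤ D → ∃ (C : ℝ) (c ρ : Fin (D + 1) → ℝ), 0 < C ∧
  (∀ i, 0 ≤ ρ i ∧ ρ i ≤ 1) ∧ ∑ i, |c i| ≤ C ∧ ∀ (V : Type) [AddCommGroup V] [Module (ZMod 2) V]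
  [Fintype V] (s : V → ℝ) (p : ℝ), (∀ v, |s v| ≤ 1) → 0 < p → p ≤ 1 →
  ∀ (ι : Type) [Fintype ι] (U : ι → Submodule (ZMod 2) V) (l : Module.Dual (ZMod 2) V) (x₀ : V),
  iSupIndep U →
  |∑ j, (cs s (U j) l x₀ - s x₀ * sg (l x₀)) - ∑ i, c i / p * be (p * ρ i)
    (Finset.univ : Finset ι) (fun J => cs s (⨆ j ∈ J, U j) l x₀)| ≤
      C * (((Sp s).card : ℝ) * p ^ D)

/-- BLP: the sums over independent blocks. -/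
def T_BLP : Prop := ∀ D : ℕ, ∃ C : ℝ, 0 < C ∧ ∀ (V : Type) [AddCommGroup V] [Module (ZMod 2) V]
  [Fintype V] (s : V → ℝ) (p : ℝ),
  (∀ (W : Submodule (ZMod 2) V) (l : Module.Dual (ZMod 2) V) (x : V), |cs s W l x| ≤ 1) →
  0 < p → p ≤ 1 → ((Sp s).card : ℝ) * p ^ D ≤ 1 →
  ∀ (ι : Type) [Fintype ι] (U : ι → Submodule (ZMod 2) V) (l : Module.Dual (ZMod 2) V) (x₀ : V),
  iSupIndep U → ∑ j, |cs s (U j) l x₀ - s x₀ * sg (l x₀)| ≤ C / p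

/-- LBL: the block lemma (Lemma B). -/
def T_LBL : Prop := ∀ D : ℕ, ∃ C : ℝ, 0 < C ∧ ∀ (V : Type) [AddCommGroup V] [Module (ZMod 2) V]
  [Fintype V] (s : V → ℝ) (p : ℝ), Bl s → 0 < p → p ≤ 1 → ((Sp s).card : ℝ) * p ^ D ≤ 1 →
  ∀ q : ℕ, LBl (Sp s) s q (C / p)

/-- KHI: Khintchine's inequality for independent characters. -/
def T_KHI : Prop := ∀ (V : Type) [AddCommGroup V] [Module (ZMod 2) V] [Fintype V] (ι : Type)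
  [Fintype ι] (g : ι → V) (t : V) (a : ι → ℝ), LinearIndependent (ZMod 2) g →
  Real.sqrt (∑ i, a i ^ 2) ≤
    3 * av (fun l : Module.Dual (ZMod 2) V => |∑ i, a i * sg (l (t + g i))|)

/-- LH: a lower bound for the `L¹` norm of the sums over the cosets of `W` (Lemma H). -/
def T_LH : Prop := ∀ D : ℕ, ∃ C : ℝ, 0 < C ∧ ∀ (V : Type) [AddCommGroup V] [Module (ZMod 2) V]
  [Fintype V] (s : V → ℝ) (p : ℝ), (∀ v, |s v| ≤ 1) → 0 < p → p ≤ 1 →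
  ∀ (W : Submodule (ZMod 2) V) (t : V) (σ : ℝ) (m : ℕ), 0 ≤ σ → m ≤ rk (nb s W σ t) →
  Real.sqrt m * σ ≤ C * (av (fun l : Module.Dual (ZMod 2) V => |cs s W l t|) / p +
    ((Sp s).card : ℝ) * p ^ D)

/-- RICH: the rich lemma. -/
def T_RICH : Prop := ∀ D : ℕ, ∃ C : ℝ, 0 < C ∧ ∀ (V : Type) [AddCommGroup V]
  [Module (ZMod 2) V] [Fintype V] (s : V → ℝ) (p : ℝ), Bl s → 0 < p → p ≤ 1 →
  ((Sp s).card : ℝ) * p ^ D ≤ 1 → ∀ (x₀ : V) (σ : ℝ) (m : ℕ), 0 < σ → 0 < m →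
  C * (((Sp s).card : ℝ) * p ^ D) ≤ Real.sqrt m * σ →
  Rch s σ x₀ m (C / (p ^ 2 * (Real.sqrt m * σ)))

/-- CON: Markov and Chebyshev for random subsets. -/
def T_CON : Prop := ∀ (α : Type) (p : ℝ) (A : Finset α), 0 ≤ p → p ≤ 1 →
  (∀ y : ℝ, 0 < y → be p A (fun Y => if y < (Y.card : ℝ) then 1 else 0) * y ≤
    p * (A.card : ℝ)) ∧
  (∀ B ⊆ A, be p A (fun Y => if ((Y ∩ B).card : ℝ) < p * (B.card : ℝ) / 2 then 1 else 0) *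
    (p * (B.card : ℝ)) ≤ 4)

/-- IDN: the identities for the blocks at `d`. -/
def T_IDN : Prop := ∀ (V : Type) [AddCommGroup V] [Module (ZMod 2) V] [Fintype V] (s : V → ℝ),
  (∑ v, s v ^ 2 = 1) → (∀ g : V, g ≠ 0 → ∑ x, s x * s (x + g) = 0) →
  (∀ d : V, ∑ x, ∑ y, s x * s y * s (d + x + y) = s d) → ∀ d : V, d ≠ 0 →
  (∑ p ∈ Om d, s p.1 * s p.2 * s (d + p.1 + p.2) = (-2 + 6 * s 0 ^ 2) * s d + 2 * s d ^ 3) ∧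
  ∀ G : Finset V, 0 ∉ G → d ∉ G →
    ∑ p ∈ Om d, nG G d p * (s p.1 * s p.2 * s (d + p.1 + p.2)) =
      -6 * ∑ g ∈ G, s (d + g) * (s d * s (d + g) + s 0 * s g)

/-! ### Part 2: combinatorial lemmas -/

/-- MER: the merging bound and its consequences. -/
def T_MER : Prop := ∀ (V : Type) [AddCommGroup V] [Module (ZMod 2) V] [Fintype V] (S : Finset V)
  (K : ℝ), 0 ≤ K →
  ((∀ W : Submodule (ZMod 2) V, W ≠ ⊥ →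
    (S.card : ℝ) < (nq S W : ℝ) + K * (Module.finrank (ZMod 2) W : ℝ)) → MB S K) ∧
  (MB S K → (∀ g : V, g ≠ 0 → (rr S g : ℝ) ≤ 2 * K) ∧
    (0 ∈ S → ∀ X : Finset V, ((S.filter (fun v => v ≠ 0 ∧
      v ∈ Submodule.span (ZMod 2) (X : Set V))).card : ℝ) ≤ 2 * K * (X.card : ℝ)))

/-- SAM: the sampling lemma. -/
def T_SAM : Prop := ∀ (V : Type) [AddCommGroup V] [Module (ZMod 2) V] [Fintype V]
  (S A Dd : Finset V) (K X q : ℝ), MB S K → 0 ≤ K → A ⊆ S → Dd ⊆ S → 0 < q → q ≤ 1 → 0 < X →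
  1 ≤ q ^ 2 * X → K ≤ q * X →
  (∀ d ∈ Dd, X ≤ (((Bk S d).filter (fun p => p.1 ∈ A ∧ p.2 ∈ A)).card : ℝ)) →
  (Dd.card : ℝ) ≤ 22 * K * q * (A.card : ℝ)

/-- BLK: random blocks. -/
def T_BLK : Prop := ∀ (V : Type) [AddCommGroup V] [Module (ZMod 2) V] [Fintype V] (S : Finset V)
  (s : V → ℝ) (K M σ τ Dt : ℝ) (Ω : Type) [Fintype Ω] (w : Ω → ℝ)
  (U : Ω → Submodule (ZMod 2) V) (Z : Ω → Finset V) (q z : ℕ),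
  0 ∈ S → MB S K → 0 ≤ K → 0 ≤ σ → 0 ≤ τ → (∀ ω, 0 ≤ w ω) → ∑ ω, w ω = 1 →
  (∀ ω, w ω ≠ 0 → Z ω ⊆ S ∧ 0 ∉ Z ω ∧ (∀ v ∈ Z ω, v ∈ U ω ∧ σ ≤ |s v|) ∧ (Z ω).card = z) →
  (∀ v, ∑ ω, (if v ∈ Z ω then w ω else 0) ≤ τ) →
  (∀ ω : Fin q → Ω, (∀ j, w (ω j) ≠ 0) →
    (Module.finrank (ZMod 2) (⨆ j, U (ω j) : Submodule (ZMod 2) V) : ℝ) ≤ Dt) →
  8 * K * Dt * τ ≤ z → LBl S s q M → 3 * q * Real.sqrt z * σ ≤ 4 * M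

/-- GRD: the greedy choice of a subspace. -/
def T_GRD : Prop := ∀ (V : Type) [AddCommGroup V] [Module (ZMod 2) V] [Fintype V] (Ω : Type)
  (U : Ω → Submodule (ZMod 2) V) (ρ y : ℝ), 0 < y → 0 ≤ ρ →
  (∀ L : Finset Ω, (Module.finrank (ZMod 2) (⨆ ω ∈ L, U ω : Submodule (ZMod 2) V) : ℝ) ≤
    ρ + y * (L.card : ℝ)) →
  ∃ W : Submodule (ZMod 2) V, (Module.finrank (ZMod 2) W : ℝ) ≤ 3 / 2 * ρ ∧
    ∀ ω, (Module.finrank (ZMod 2) (W ⊔ U ω : Submodule (ZMod 2) V) : ℝ) ≤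
      (Module.finrank (ZMod 2) W : ℝ) + 3 * y

/-- CB1: the first case of the regularity claim. -/
def T_CB1 : Prop := ∀ (V : Type) [AddCommGroup V] [Module (ZMod 2) V] [Fintype V] (S : Finset V)
  (s : V → ℝ) (K M σ τ ρ y : ℝ) (m q z : ℕ) (Dd : Finset V) (Y Z : V → Finset V),
  0 ∈ S → MB S K → 0 ≤ K → 0 < σ → 0 ≤ τ → Dd.Nonempty → 0 < y → 0 ≤ ρ → Rch s σ 0 m ρ →
  LBl S s q M →
  (∀ d ∈ Dd, ((Y d).card : ℝ) ≤ y ∧ Z d ⊆ S ∧ 0 ∉ Z d ∧ (Z d).card = z ∧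
    ∀ t ∈ Z d, σ ≤ |s t| ∧ m ≤ rk ((Y d).filter (fun g => σ ≤ |s (t + g)|))) →
  (∀ v, ((Dd.filter (fun d => v ∈ Z d)).card : ℝ) ≤ τ * (Dd.card : ℝ)) →
  8 * K * (3 / 2 * ρ + 3 * q * y) * τ ≤ z → 3 * q * Real.sqrt z * σ ≤ 4 * M

/-- CB2: the second case of the regularity claim. -/
def T_CB2 : Prop := ∀ (V : Type) [AddCommGroup V] [Module (ZMod 2) V] [Fintype V]
  (S Hu : Finset V) (s : V → ℝ) (K M σ E₁ n₀ y₀ m' dd : ℝ) (m q z : ℕ) (Dd : Finset V)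
  (N Γ : V → Finset V) (G : V → V → Finset V),
  0 ∈ S → MB S K → 0 ≤ K → 0 < σ → Dd.Nonempty → 0 < n₀ → 1 ≤ m → 64 ≤ m' → m' ≤ dd →
  0 ≤ E₁ → LBl S s q M →
  (∀ d ∈ Dd, n₀ ≤ ((N d).card : ℝ) ∧ 8 * ((Γ d).card : ℝ) * (m' / dd) ≤ y₀) →
  (∀ d ∈ Dd, ∀ t ∈ N d, G d t ⊆ Γ d ∧ dd ≤ ((G d t).card : ℝ) ∧ ((G d t).card : ℝ) ≤ 2 * dd ∧
    ∀ g ∈ G d t, d + g ∈ S ∧ t + g ∈ S ∧ d + g ≠ 0 ∧ t + g ≠ 0 ∧ σ ≤ |s (d + g)| ∧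
      σ ≤ |s (t + g)| ∧ ¬ (d + g ∈ Hu ∧ t + g ∈ Hu)) →
  (∀ v ∈ S, v ∉ Hu →
    (∑ d ∈ Dd, (((N d).filter (fun t => v + d ∈ G d t)).card : ℝ) ≤ E₁) ∧
    (∑ d ∈ Dd, (((N d).filter (fun t => v + t ∈ G d t)).card : ℝ) ≤ E₁)) →
  (∀ d ∈ Dd, ∀ Y ⊆ Γ d, (Y.card : ℝ) ≤ y₀ →
    4 * ((N d).filter (fun t => m ≤ rk (Y ∩ G d t))).card ≤ (N d).card) →
  (z : ℝ) < m' / 4 + 1 → m' / 4 ≤ z →
  8 * K * (q * m) * (4 * (m' / dd) * E₁ / ((Dd.card : ℝ) * n₀)) ≤ z →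
  3 * q * Real.sqrt z * σ ≤ 4 * M

/-- DYA: dyadic pigeonhole. -/
def T_DYA : Prop := ∀ (α β : Type) (Dd : Finset α) (N : α → Finset β) (g : α → β → ℕ) (L : ℕ)
  (W : ℝ), 0 < L → (∀ d ∈ Dd, ∀ x ∈ N d, 1 ≤ g d x ∧ g d x < 2 ^ L) →
  (∀ d ∈ Dd, W ≤ ∑ x ∈ N d, (g d x : ℝ)) →
  ∃ (i : ℕ) (D' : Finset α), i < L ∧ D' ⊆ Dd ∧ Dd.card ≤ L * D'.card ∧
    ∀ d ∈ D', W ≤ L * ∑ x ∈ (N d).filter (fun x => 2 ^ i ≤ g d x ∧ g d x < 2 ^ (i + 1)),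
      (g d x : ℝ)

/-- The directions used in the regularity claim. -/
def Gx {V : Type} [AddCommGroup V] [Module (ZMod 2) V] [Fintype V] (T Hu : Finset V) (κ : ℝ)
    (d x : V) : Finset V :=
  (Gm T κ d).filter (fun g => x + g ∈ T ∧ x + g ≠ d ∧ ¬ (d + g ∈ Hu ∧ x + g ∈ Hu))

/-- The points used in the regularity claim. -/
def N1 {V : Type} [AddCommGroup V] [Module (ZMod 2) V] [Fintype V] (T Hu : Finset V) (κ D₀ : ℝ)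
    (d : V) : Finset V :=
  T.filter (fun x => x ∉ Hu ∧ x ≠ d ∧ D₀ < (cd T κ d x : ℝ) ∧
    D₀ / 2 ≤ ((Gx T Hu κ d x).card : ℝ))

/-- The number of ordered pairs of hubs in blocks at `d`. -/
def hp {V : Type} [AddCommGroup V] [Module (ZMod 2) V] (S Hu : Finset V) (d : V) : ℕ :=
  ((Bk S d).filter (fun p => p.1 ∈ Hu ∧ p.2 ∈ Hu)).card

/-- RGA: from bad pairs to incidences. -/
def T_RGA : Prop := ∀ (V : Type) [AddCommGroup V] [Module (ZMod 2) V] [Fintype V]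
  (S T Hu : Finset V) (κ D₀ : ℝ) (d : V), T ⊆ S → 4 ≤ D₀ →
  ((Bad T κ D₀ d).card : ℝ) ≤
    7 * (hp S Hu d : ℝ) + 2 * ∑ x ∈ N1 T Hu κ D₀ d, ((Gx T Hu κ d x).card : ℝ)

/-- ENG: incidences are bounded by the energy. -/
def T_ENG : Prop := ∀ (V : Type) [AddCommGroup V] [Module (ZMod 2) V] [Fintype V]
  (S T Hu Dd : Finset V) (κ : ℝ) (N : V → Finset V), T ⊆ S → Dd ⊆ T →
  (∀ d ∈ Dd, N d ⊆ T ∧ d ∉ N d) → ∀ v ∈ S,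
  (∑ d ∈ Dd, ((N d).filter (fun t => v + d ∈ Gx T Hu κ d t)).card ≤ EE S v) ∧
  (∑ d ∈ Dd, ((N d).filter (fun t => v + t ∈ Gx T Hu κ d t)).card ≤ EE S v) ∧
  ∑ d ∈ Dd.filter (fun d => v ∈ N d), (Gx T Hu κ d v).card ≤ EE S v

/-- GMB: the number of heavy directions. -/
def T_GMB : Prop := ∀ (V : Type) [AddCommGroup V] [Module (ZMod 2) V] [Fintype V]
  (S T : Finset V) (κ : ℝ) (d : V), T ⊆ S → d ∈ T →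
  ((Gm T κ d).card : ℝ) * (κ - 2) ≤ (EE S d : ℝ)

/-- DEN: the density of sets of good heavy directions. -/
def T_DEN : Prop := ∀ (V : Type) [AddCommGroup V] [Module (ZMod 2) V] [Fintype V]
  (S T : Finset V) (K κ D₀ : ℝ) (d : V) (X : Finset V), T ⊆ S → MB S K → 0 ≤ K → 8 ≤ κ →
  0 ≤ D₀ → X ⊆ Gp T κ D₀ d → (X.card : ℝ) * κ ≤ 16 * K * D₀ * (rk X : ℝ)

/-- HV2: blocks with two heavy directions. -/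
def T_HV2 : Prop := ∀ (V : Type) [AddCommGroup V] [Module (ZMod 2) V] [Fintype V] (s : V → ℝ)
  (σ R L g₀ N₀ D₁ p : ℝ) (d : V) (Γ : Finset V), 0 < σ → 0 < R → 1 ≤ L → 0 < g₀ →
  (Γ.card : ℝ) ≤ g₀ → (∀ X ⊆ Γ, (X.card : ℝ) ≤ L * (rk X : ℝ)) →
  (∀ m : ℕ, 0 < m → Rch s σ d m (R / Real.sqrt m)) →
  N₀ ≤ (((Γ ×ˢ Γ).filter (fun x => x.1 ≠ x.2 ∧ σ ≤ |s (d + x.1 + x.2)|)).card : ℝ) →
  N₀ = 2 * g₀ * D₁ → 0 < p → p ≤ 1 → 64 ≤ p * D₁ →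
  (D₁ / (2 * L) - 8 * p * g₀) * Real.sqrt (p * D₁ / (2 * L)) ≤ R

/-- HUB: hubs and typical elements. -/
def T_HUB : Prop := ∀ (V : Type) [AddCommGroup V] [Module (ZMod 2) V] [Fintype V]
  (S : Finset V) (Q : ℝ), 484 ≤ Q → (S.card : ℝ) ≤ Q ^ 26000 → MB S (Q ^ 13001) →
  ((S.filter (fun d => Q ^ 26016 < (EE S d : ℝ))).card : ℝ) ≤ Q ^ 25994 ∧
  ((S.filter (fun d => Q ^ 25974 < (hp S (Hb S (Q ^ 26074)) d : ℝ))).card : ℝ) ≤ Q ^ 25993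

/-! ### Part 3: light blocks (the Kikuchi graph) -/

/-- WLK: closed walks which use every colour evenly. -/
def T_WLK : Prop := ∀ (St : Type) [Fintype St] [Nonempty St] (V : Type) [AddCommGroup V]
  [Module (ZMod 2) V] (L : Finset V) (R : Submodule (ZMod 2) V) (φ : St → V)
  (a : V → St → St → ℝ) (B₀ B₁ : ℝ) (r j : ℕ),
  (∀ d u w, 0 ≤ a d u w) → (∀ d u w, a d u w = a d w u) →
  (∀ d ∈ L, ∀ u w, a d u w ≠ 0 → φ u + φ w + d ∈ R) →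
  (∀ d ∈ L, d ∉ Submodule.span (ZMod 2) ((L.erase d : Finset V) : Set V) ⊔ R) →
  (∀ u, ∑ d ∈ L, ∑ w, a d u w ≤ B₀) → (∀ d ∈ L, ∀ u, ∑ w, a d u w ≤ B₁) → 0 ≤ B₀ → 0 ≤ B₁ →
  r = 2 ^ j →
  ((∑ u, ∑ d ∈ L, ∑ w, a d u w) / (Fintype.card St : ℝ)) ^ (2 * r) ≤
    (Fintype.card St : ℝ) * (8 * r * B₀ * B₁) ^ r

/-- PRU: the same with second moments instead of maxima. -/
def T_PRU : Prop := ∀ (St : Type) [Fintype St] [Nonempty St] (V : Type) [AddCommGroup V]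
  [Module (ZMod 2) V] (L : Finset V) (R : Submodule (ZMod 2) V) (φ : St → V)
  (a : V → St → St → ℝ) (m₁ m₂ m₃ : ℝ) (r j : ℕ),
  (∀ d u w, 0 ≤ a d u w) → (∀ d u w, a d u w = a d w u) →
  (∀ d ∈ L, ∀ u w, a d u w ≠ 0 → φ u + φ w + d ∈ R) →
  (∀ d ∈ L, d ∉ Submodule.span (ZMod 2) ((L.erase d : Finset V) : Set V) ⊔ R) →
  m₁ * (Fintype.card St : ℝ) = ∑ u, ∑ d ∈ L, ∑ w, a d u w →
  m₂ * (Fintype.card St : ℝ) = ∑ u, (∑ d ∈ L, ∑ w, a d u w) ^ 2 →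
  m₃ * (Fintype.card St : ℝ) = ∑ u, ∑ d ∈ L, (∑ w, a d u w) ^ 2 →
  r = 2 ^ j → (m₁ ^ 4) ^ r ≤ (Fintype.card St : ℝ) * (2048 * r * m₂ * m₃) ^ r

/-- MOM: the moments of the number of entries in a set. -/
def T_MOM : Prop := ∀ (V : Type) (T : Finset V) (l : ℕ) (Y₁ Y₂ : Finset V), T.Nonempty →
  Y₁ ⊆ T → Y₂ ⊆ T →
  (∑ A : Fin l → {x // x ∈ T}, ((Finset.univ.filter (fun a => (A a : V) ∈ Y₁)).card : ℝ) =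
    (T.card : ℝ) ^ l * ((l : ℝ) / (T.card : ℝ) * (Y₁.card : ℝ))) ∧
  (∑ A : Fin l → {x // x ∈ T}, ((Finset.univ.filter (fun a => (A a : V) ∈ Y₁)).card : ℝ) *
      ((Finset.univ.filter (fun a => (A a : V) ∈ Y₂)).card : ℝ) ≤
    (T.card : ℝ) ^ l * M2 ((l : ℝ) / (T.card : ℝ)) Y₁ Y₂)

/-- The weights of the Kikuchi graph: the number of moves of colour `d` from `u` to `w`. -/
def ka {V : Type} [AddCommGroup V] {T : Finset V} {l : ℕ} (Y : V → V → Finset V) (VV R : Finset V)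
    (d : V) (u w : (Fin l → {x // x ∈ T}) × (Fin l → {x // x ∈ T})) : ℝ :=
  ∑ v ∈ VV, ∑ e ∈ R, ∑ i : Fin l, ∑ j : Fin l,
    if (u.1 i : V) ∈ Y d v ∧ (u.2 j : V) ∈ Y e v ∧
      (∀ i', (w.1 i' : V) = if i' = i then d + v + (u.1 i : V) else (u.1 i' : V)) ∧
      (∀ j', (w.2 j' : V) = if j' = j then e + v + (u.2 j : V) else (u.2 j' : V))
    then 1 else 0

/-- The number of entries of the tuple `A` in `Y`. -/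
def nen {V : Type} {T : Finset V} {l : ℕ} (Y : Finset V) (A : Fin l → {x // x ∈ T}) : ℝ :=
  ((Finset.univ.filter (fun a => (A a : V) ∈ Y)).card : ℝ)

/-- KIA: the properties of the Kikuchi graph. -/
def T_KIA : Prop := ∀ (V : Type) [AddCommGroup V] [Module (ZMod 2) V] (T R VV : Finset V)
  (Y : V → V → Finset V) (l : ℕ), (∀ d v, Y d v ⊆ T) →
  (∀ d v, ∀ y ∈ Y d v, d + v + y ∈ Y d v) → ∀ (d : V)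
  (u w : (Fin l → {x // x ∈ T}) × (Fin l → {x // x ∈ T})),
  0 ≤ ka Y VV R d u w ∧ ka Y VV R d u w = ka Y VV R d w u ∧
  (ka Y VV R d u w ≠ 0 →
    (∑ i, (u.1 i : V) + ∑ i, (u.2 i : V)) + (∑ i, (w.1 i : V) + ∑ i, (w.2 i : V)) + d ∈
      Submodule.span (ZMod 2) (R : Set V)) ∧
  ∑ w', ka Y VV R d u w' = ∑ v ∈ VV, nen (Y d v) u.1 * ∑ e ∈ R, nen (Y e v) u.2

/-- KIB: the means of the degrees of the Kikuchi graph. -/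
def T_KIB : Prop := ∀ (V : Type) (T L R VV : Finset V) (Y : V → V → Finset V) (l : ℕ),
  T.Nonempty → (∀ d v, Y d v ⊆ T) →
  (∑ u : (Fin l → {x // x ∈ T}) × (Fin l → {x // x ∈ T}),
      ∑ d ∈ L, ∑ v ∈ VV, nen (Y d v) u.1 * ∑ e ∈ R, nen (Y e v) u.2 =
    (T.card : ℝ) ^ (2 * l) * k1 ((l : ℝ) / (T.card : ℝ)) Y VV L R) ∧
  (∑ u : (Fin l → {x // x ∈ T}) × (Fin l → {x // x ∈ T}),
      (∑ d ∈ L, ∑ v ∈ VV, nen (Y d v) u.1 * ∑ e ∈ R, nen (Y e v) u.2) ^ 2 ≤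
    (T.card : ℝ) ^ (2 * l) * k2 ((l : ℝ) / (T.card : ℝ)) Y VV L R) ∧
  (∑ u : (Fin l → {x // x ∈ T}) × (Fin l → {x // x ∈ T}),
      ∑ d ∈ L, (∑ v ∈ VV, nen (Y d v) u.1 * ∑ e ∈ R, nen (Y e v) u.2) ^ 2 ≤
    (T.card : ℝ) ^ (2 * l) * k3 ((l : ℝ) / (T.card : ℝ)) Y VV L R)

/-- KIK: the Kikuchi graph. -/
def T_KIK : Prop := ∀ (V : Type) [AddCommGroup V] [Module (ZMod 2) V] (T L R VV : Finset V)
  (Y : V → V → Finset V) (l r j : ℕ), T.Nonempty → (∀ d v, Y d v ⊆ T) →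
  (∀ d v, ∀ y ∈ Y d v, d + v + y ∈ Y d v) →
  (∀ d ∈ L, d ∉ Submodule.span (ZMod 2) ((L.erase d : Finset V) : Set V) ⊔
    Submodule.span (ZMod 2) (R : Set V)) → r = 2 ^ j →
  (k1 ((l : ℝ) / (T.card : ℝ)) Y VV L R ^ 4) ^ r ≤ (T.card : ℝ) ^ (2 * l) *
    (2048 * r * k2 ((l : ℝ) / (T.card : ℝ)) Y VV L R * k3 ((l : ℝ) / (T.card : ℝ)) Y VV L R) ^ r

/-- The regularity of the family of blocks: `n` is the dyadic size. -/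
def Fam {V : Type} (Dd VV : Finset V) (Y : V → V → Finset V) (κ E₁ b K₂ n : ℝ) : Prop :=
  (∀ d ∈ Dd, ∀ v ∈ VV, ((Y d v).card : ℝ) ≤ κ) ∧
  (∀ v ∈ VV, ∀ y, ((Dd.filter (fun d => y ∈ Y d v)).card : ℝ) ≤ κ) ∧
  (∀ d ∈ Dd, ∀ y, ((VV.filter (fun v => y ∈ Y d v)).card : ℝ) ≤ κ) ∧
  (∀ y, ∑ d ∈ Dd, ((VV.filter (fun v => y ∈ Y d v)).card : ℝ) ≤ E₁) ∧
  (∀ d ∈ Dd, ∑ v ∈ VV, ((Y d v).card : ℝ) ≤ b) ∧
  (∀ v ∈ VV, ∀ w ∈ VV, v ≠ w → ∑ d ∈ Dd, ((Y d v ∩ Y d w).card : ℝ) ≤ κ * K₂) ∧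
  ∀ v ∈ VV, n ≤ NN Y Dd v ∧ NN Y Dd v ≤ 2 * n

/-- The bound for the mean of `k2`. -/
def X2 (P q κ E₁ b K₂ n ν : ℝ) : ℝ :=
  4 * (16 * q ^ 4 * P ^ 4 * ν ^ 2 * n ^ 4 + q ^ 4 * P ^ 2 * (4 * κ * E₁ * ν * n ^ 2) +
    q ^ 2 * P ^ 4 * (4 * κ * b * ν * n ^ 2) +
    q ^ 2 * P ^ 2 * (4 * ν * n ^ 2 + 2 * κ ^ 2 * K₂ * ν * n))

/-- The bound for the mean of `k3`. -/
def X3 (P q κ b K₂ n ν : ℝ) : ℝ :=
  q ^ 3 * P ^ 4 * (8 * b * ν * n ^ 3) + q ^ 3 * P ^ 3 * (8 * κ * ν * n ^ 3) +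
    q ^ 3 * P ^ 3 * (4 * κ * b * ν * n ^ 2) + q ^ 3 * P ^ 2 * (4 * κ ^ 2 * ν * n ^ 2) +
    q ^ 2 * P ^ 4 * (4 * κ * b * ν * n ^ 2) + q ^ 2 * P ^ 3 * (8 * κ ^ 2 * ν * n ^ 2) +
    q ^ 2 * P ^ 2 * (4 * ν * n ^ 2 + 2 * κ ^ 2 * K₂ * ν * n)

/-- SUM: the sums over all pairs. -/
def T_SUM : Prop := ∀ (V : Type) (Dd VV : Finset V) (Y : V → V → Finset V)
  (κ E₁ b K₂ n : ℝ), 0 ≤ κ → 0 ≤ K₂ → 0 ≤ n → Fam Dd VV Y κ E₁ b K₂ n →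
  (∀ v ∈ VV, ∀ w ∈ VV, ∑ d ∈ Dd, ∑ e ∈ Dd, ((Y d v ∩ Y e w).card : ℝ) ≤ 2 * κ * n) ∧
  (∑ v ∈ VV, ∑ w ∈ VV, ∑ d ∈ Dd, ∑ e ∈ Dd, ((Y d v ∩ Y e w).card : ℝ) ≤
    2 * E₁ * (VV.card : ℝ) * n) ∧
  (∀ v ∈ VV, ∀ w ∈ VV, ∑ d ∈ Dd, ((Y d v).card : ℝ) * ((Y d w).card : ℝ) ≤ 2 * κ * n) ∧
  (∑ v ∈ VV, ∑ w ∈ VV, ∑ d ∈ Dd, ((Y d v).card : ℝ) * ((Y d w).card : ℝ) ≤
    2 * b * (VV.card : ℝ) * n) ∧
  (∑ v ∈ VV, ∑ w ∈ VV, ∑ d ∈ Dd, ((Y d v ∩ Y d w).card : ℝ) ≤ 2 * κ * (VV.card : ℝ) * n) ∧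
  (∑ v ∈ VV, ∑ w ∈ VV, (∑ d ∈ Dd, ((Y d v ∩ Y d w).card : ℝ)) ^ 2 ≤
    4 * (VV.card : ℝ) * n ^ 2 + 2 * κ ^ 2 * K₂ * (VV.card : ℝ) * n)

/-- EXK: the means of `k2` and `k3` over random `L` and `R`. -/
def T_EXK : Prop := ∀ (V : Type) (Dd VV : Finset V) (Y : V → V → Finset V)
  (κ E₁ b K₂ n P q : ℝ), 0 ≤ κ → 0 ≤ E₁ → 0 ≤ b → 0 ≤ K₂ → 0 ≤ n → 0 ≤ P → 0 < q → q ≤ 1 →
  Fam Dd VV Y κ E₁ b K₂ n →
  be q Dd (fun L => be q Dd (fun R => k2 P Y VV L R)) ≤ X2 P q κ E₁ b K₂ n VV.card ∧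
  be q Dd (fun L => be q Dd (fun R => k3 P Y VV L R)) ≤ X3 P q κ b K₂ n VV.card

/-- The elements of `L` which are independent of the rest of `L` and of `R`. -/
def Li {V : Type} [AddCommGroup V] [Module (ZMod 2) V] (L R : Finset V) : Finset V :=
  L.filter (fun d => d ∉ Submodule.span (ZMod 2) ((L.erase d : Finset V) : Set V) ⊔
    Submodule.span (ZMod 2) (R : Set V))

/-- LOS: the mean of `k1`. -/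
def T_LOS : Prop := ∀ (V : Type) [AddCommGroup V] [Module (ZMod 2) V] (Dd VV : Finset V)
  (Y : V → V → Finset V) (κ E₁ b K₂ K n P q : ℝ), 0 ≤ κ → 0 ≤ b → 0 ≤ K → 0 < n → 0 ≤ P →
  0 < q → q ≤ 1 → Fam Dd VV Y κ E₁ b K₂ n →
  (∀ X : Finset V, ((Dd.filter (fun v => v ∈ Submodule.span (ZMod 2) (X : Set V))).card : ℝ) ≤
    2 * K * (X.card : ℝ)) →
  P ^ 2 * (q ^ 2 * (VV.card : ℝ) * n ^ 2 - 16 * K * b * q ^ 3 * (Dd.card : ℝ) * n -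
      2 * κ * q * (VV.card : ℝ) * n) ≤
    be q Dd (fun L => be q Dd (fun R => k1 P Y VV (Li L R) R))

/-- KAB: the Kikuchi bound for a regular family. -/
def T_KAB : Prop := ∀ (V : Type) [AddCommGroup V] [Module (ZMod 2) V] (T Dd VV : Finset V)
  (Y : V → V → Finset V) (κ E₁ b K₂ K n q X1 : ℝ) (l r j : ℕ), T.Nonempty →
  (∀ d v, Y d v ⊆ T) → (∀ d v, ∀ y ∈ Y d v, d + v + y ∈ Y d v) →
  0 ≤ κ → 0 ≤ E₁ → 0 ≤ b → 0 ≤ K₂ → 0 ≤ K → 0 < n → 0 < q → q ≤ 1 →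
  Fam Dd VV Y κ E₁ b K₂ n →
  (∀ X : Finset V, ((Dd.filter (fun v => v ∈ Submodule.span (ZMod 2) (X : Set V))).card : ℝ) ≤
    2 * K * (X.card : ℝ)) →
  X1 = ((l : ℝ) / (T.card : ℝ)) ^ 2 * (q ^ 2 * (VV.card : ℝ) * n ^ 2 -
    16 * K * b * q ^ 3 * (Dd.card : ℝ) * n - 2 * κ * q * (VV.card : ℝ) * n) → 0 < X1 →
  r = 2 ^ j →
  (X1 ^ 4) ^ r ≤ (T.card : ℝ) ^ (2 * l) * (2 ^ 17 * r *
    X2 ((l : ℝ) / (T.card : ℝ)) q κ E₁ b K₂ n VV.card *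
    X3 ((l : ℝ) / (T.card : ℝ)) q κ b K₂ n VV.card) ^ r

/-- The `y` with `(v, y)` in the light blocks at `d`. -/
def Ly {V : Type} [AddCommGroup V] [Module (ZMod 2) V] [Fintype V] (T Hu : Finset V) (κ : ℝ)
    (d v : V) : Finset V := Finset.univ.filter (fun y => (v, y) ∈ Lt T Hu κ d)

/-- LFA: the properties of the light blocks. -/
def T_LFA : Prop := ∀ (V : Type) [AddCommGroup V] [Module (ZMod 2) V] [Fintype V]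
  (S T Hu Dd VV : Finset V) (κ : ℝ), T ⊆ S → Dd ⊆ T → 0 ≤ κ →
  (∀ d v, Ly T Hu κ d v ⊆ T) ∧
  (∀ d v, ∀ y ∈ Ly T Hu κ d v, d + v + y ∈ Ly T Hu κ d v) ∧
  (∀ d v, d ∈ T → ((Ly T Hu κ d v).card : ℝ) ≤ κ) ∧
  (∀ v y, ((Dd.filter (fun d => y ∈ Ly T Hu κ d v)).card : ℝ) ≤ κ) ∧
  (∀ d y, d ∈ T → ((VV.filter (fun v => y ∈ Ly T Hu κ d v)).card : ℝ) ≤ κ) ∧
  (∀ y, y ∉ Hu → ∑ d ∈ Dd, (VV.filter (fun v => y ∈ Ly T Hu κ d v)).card ≤ EE S y) ∧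
  (∀ y ∈ Hu, ∑ d ∈ Dd, (VV.filter (fun v => y ∈ Ly T Hu κ d v)).card = 0) ∧
  (∀ d, ∑ v ∈ VV, (Ly T Hu κ d v).card ≤ EE S d) ∧
  (∀ d, ∑ v, (Ly T Hu κ d v).card = (Lt T Hu κ d).card) ∧
  (∀ v w, v ≠ w → (∑ d ∈ Dd, ((Ly T Hu κ d v ∩ Ly T Hu κ d w).card : ℝ)) ≤
    κ * (rr T (v + w) : ℝ))

/-! ### Part 4: stuck states -/

/-- DRV: first consequences. -/
def T_DRV : Prop := ∃ Q₀ : ℝ, 1 ≤ Q₀ ∧ ∀ (Q : ℝ), Q₀ ≤ Q → ∀ (V : Type) [AddCommGroup V]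
  [Module (ZMod 2) V] [Fintype V] (s : V → ℝ), Stk Q s →
  MB (Sp s) (Q ^ 13001) ∧ 0 ∈ Sp s ∧ et s ≤ 1 ∧ 1 ≤ et s * Q ^ 4 ∧ |s 0| ≤ et s * Q ^ 3 ∧
  3 * Q ^ 25998 ≤ 4 * ((Lv Q 13001 s).card : ℝ) ∧
  (∀ d ∈ Lv Q 13022 s, (EE (Sp s) d : ℝ) ≤ Q ^ 26016 →
    ((Gm (Lv Q 13022 s) (Q ^ 12760) d).card : ℝ) ≤ 2 * Q ^ 13256) ∧
  (∀ q : ℕ, LBl (Sp s) s q (Q ^ 2)) ∧
  (∀ (x₀ : V) (m : ℕ), 0 < m → Rch s (et s / Q ^ 13022) x₀ m (Q ^ 13029 / Real.sqrt m))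

/-- RB1: the first case of the regularity claim. -/
def T_RB1 : Prop := ∃ Q₀ : ℝ, 1 ≤ Q₀ ∧ ∀ (Q : ℝ), Q₀ ≤ Q → ∀ (V : Type) [AddCommGroup V]
  [Module (ZMod 2) V] [Fintype V] (s : V → ℝ), Stk Q s →
  ∀ (T Hu D' : Finset V) (N Y : V → Finset V) (dd : ℝ), T = Lv Q 13022 s →
  Hu = Hb (Sp s) (Q ^ 26074) → Q ^ 2500 / 4 ≤ dd → D' ⊆ T → Q ^ 25994 ≤ 2 * (D'.card : ℝ) →
  (∀ d ∈ D', N d ⊆ T ∧ (∀ t ∈ N d, t ∉ Hu ∧ t ≠ d ∧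
      dd ≤ ((Gx T Hu (Q ^ 12760) d t).card : ℝ)) ∧
    Q ^ 25975 ≤ ((N d).card : ℝ) * dd ∧ ((Y d).card : ℝ) * dd ≤ 16 * Q ^ 14096 ∧
    (N d).card ≤ 4 * ((N d).filter (fun t =>
      Nat.ceil (Q ^ 280) ≤ rk (Y d ∩ Gx T Hu (Q ^ 12760) d t))).card) → False

/-- RB2: the second case of the regularity claim. -/
def T_RB2 : Prop := ∃ Q₀ : ℝ, 1 ≤ Q₀ ∧ ∀ (Q : ℝ), Q₀ ≤ Q → ∀ (V : Type) [AddCommGroup V]
  [Module (ZMod 2) V] [Fintype V] (s : V → ℝ), Stk Q s →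
  ∀ (T Hu D' : Finset V) (N : V → Finset V) (dd : ℝ), T = Lv Q 13022 s →
  Hu = Hb (Sp s) (Q ^ 26074) → Q ^ 2500 / 4 ≤ dd → D' ⊆ T → Q ^ 25994 ≤ 2 * (D'.card : ℝ) →
  (∀ d ∈ D', N d ⊆ T ∧ (∀ t ∈ N d, t ∉ Hu ∧ t ≠ d ∧
      dd ≤ ((Gx T Hu (Q ^ 12760) d t).card : ℝ) ∧
      ((Gx T Hu (Q ^ 12760) d t).card : ℝ) ≤ 2 * dd) ∧
    Q ^ 25975 ≤ ((N d).card : ℝ) * dd ∧
    ((Gm T (Q ^ 12760) d).card : ℝ) ≤ 2 * Q ^ 13256 ∧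
    ∀ Y ⊆ Gm T (Q ^ 12760) d, (Y.card : ℝ) * dd ≤ 16 * Q ^ 14096 →
      4 * ((N d).filter (fun t =>
        Nat.ceil (Q ^ 280) ≤ rk (Y ∩ Gx T Hu (Q ^ 12760) d t))).card ≤ (N d).card) → False

/-- RGB: the regularity claim for a dyadic class. -/
def T_RGB : Prop := ∃ Q₀ : ℝ, 1 ≤ Q₀ ∧ ∀ (Q : ℝ), Q₀ ≤ Q → ∀ (V : Type) [AddCommGroup V]
  [Module (ZMod 2) V] [Fintype V] (s : V → ℝ), Stk Q s →
  ∀ (T Hu D' : Finset V) (N : V → Finset V) (dd : ℝ), T = Lv Q 13022 s →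
  Hu = Hb (Sp s) (Q ^ 26074) → Q ^ 2500 / 4 ≤ dd → D' ⊆ T → Q ^ 25994 ≤ (D'.card : ℝ) →
  (∀ d ∈ D', N d ⊆ T ∧ (∀ t ∈ N d, t ∉ Hu ∧ t ≠ d ∧
      dd ≤ ((Gx T Hu (Q ^ 12760) d t).card : ℝ) ∧
      ((Gx T Hu (Q ^ 12760) d t).card : ℝ) ≤ 2 * dd) ∧
    Q ^ 25975 ≤ ((N d).card : ℝ) * dd ∧
    ((Gm T (Q ^ 12760) d).card : ℝ) ≤ 2 * Q ^ 13256) → False

/-- REG: the regularity claim. -/
def T_REG : Prop := ∃ Q₀ : ℝ, 1 ≤ Q₀ ∧ ∀ (Q : ℝ), Q₀ ≤ Q → ∀ (V : Type) [AddCommGroup V]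
  [Module (ZMod 2) V] [Fintype V] (s : V → ℝ), Stk Q s →
  ∀ (T Hu : Finset V), T = Lv Q 13022 s → Hu = Hb (Sp s) (Q ^ 26074) →
  ((T.filter (fun d => (EE (Sp s) d : ℝ) ≤ Q ^ 26016 ∧ (hp (Sp s) Hu d : ℝ) ≤ Q ^ 25974 ∧
    Q ^ 25976 < ((Bad T (Q ^ 12760) (Q ^ 2500) d).card : ℝ))).card : ℝ) ≤ Q ^ 25995

/-- TWO: there are few blocks with two good heavy directions. -/
def T_TWO : Prop := ∃ Q₀ : ℝ, 1 ≤ Q₀ ∧ ∀ (Q : ℝ), Q₀ ≤ Q → ∀ (V : Type) [AddCommGroup V]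
  [Module (ZMod 2) V] [Fintype V] (s : V → ℝ), Stk Q s → ∀ (T G : Finset V) (d : V),
  T = Lv Q 13022 s → G = Gp T (Q ^ 12760) (Q ^ 2500) d → d ∈ T →
  (EE (Sp s) d : ℝ) ≤ Q ^ 26016 →
  (((G ×ˢ G).filter (fun x => x.1 ≠ x.2 ∧ d + x.1 + x.2 ∈ T)).card : ℝ) ≤ Q ^ 25976

/-- LIA: the regular family of light blocks. -/
def T_LIA : Prop := ∃ Q₀ : ℝ, 1 ≤ Q₀ ∧ ∀ (Q : ℝ), Q₀ ≤ Q → ∀ (V : Type) [AddCommGroup V]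
  [Module (ZMod 2) V] [Fintype V] (s : V → ℝ), Stk Q s → ∀ (T Hu Dd : Finset V),
  T = Lv Q 13022 s → Hu = Hb (Sp s) (Q ^ 26074) → Dd ⊆ T → Dd.Nonempty →
  (∀ d ∈ Dd, (EE (Sp s) d : ℝ) ≤ Q ^ 26016 ∧
    Q ^ 25974 ≤ ((Lt T Hu (Q ^ 12760) d).card : ℝ)) →
  ∃ (VV : Finset V) (n : ℝ), 1 ≤ n ∧
    Fam Dd VV (Ly T Hu (Q ^ 12760)) (Q ^ 12760) (Q ^ 26074) (Q ^ 26016) (2 * Q ^ 13001) n ∧
    (Dd.card : ℝ) * Q ^ 25973 ≤ (VV.card : ℝ) * n ∧ VV ⊆ T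

/-- LIB: the numerical part for light blocks. -/
def T_LIB : Prop := ∃ Q₀ : ℝ, 1 ≤ Q₀ ∧ ∀ (Q : ℝ), Q₀ ≤ Q → ∀ (V : Type) [AddCommGroup V]
  [Module (ZMod 2) V] (T Dd VV : Finset V) (Y : V → V → Finset V) (n : ℝ),
  (T.card : ℝ) ≤ Q ^ 26000 → Dd ⊆ T → VV ⊆ T → Q ^ 25995 ≤ (Dd.card : ℝ) → 1 ≤ n →
  (∀ d v, Y d v ⊆ T) → (∀ d v, ∀ y ∈ Y d v, d + v + y ∈ Y d v) →
  Fam Dd VV Y (Q ^ 12760) (Q ^ 26074) (Q ^ 26016) (2 * Q ^ 13001) n →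
  (Dd.card : ℝ) * Q ^ 25973 ≤ (VV.card : ℝ) * n →
  (∀ X : Finset V, ((Dd.filter (fun v => v ∈ Submodule.span (ZMod 2) (X : Set V))).card : ℝ) ≤
    2 * Q ^ 13001 * (X.card : ℝ)) → False

/-- LIT: there are few points with many light blocks. -/
def T_LIT : Prop := ∃ Q₀ : ℝ, 1 ≤ Q₀ ∧ ∀ (Q : ℝ), Q₀ ≤ Q → ∀ (V : Type) [AddCommGroup V]
  [Module (ZMod 2) V] [Fintype V] (s : V → ℝ), Stk Q s → ∀ (T Hu : Finset V),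
  T = Lv Q 13022 s → Hu = Hb (Sp s) (Q ^ 26074) →
  ((T.filter (fun d => (EE (Sp s) d : ℝ) ≤ Q ^ 26016 ∧
    Q ^ 25974 < ((Lt T Hu (Q ^ 12760) d).card : ℝ))).card : ℝ) ≤ Q ^ 25995

/-- LCT: all light blocks. -/
def T_LCT : Prop := ∀ (V : Type) [AddCommGroup V] [Module (ZMod 2) V] [Fintype V]
  (S T Hu : Finset V) (κ : ℝ) (d : V), T ⊆ S →
  ((Bk T d).filter (fun p => (rr T (d + p.1) : ℝ) < κ ∧ (rr T (d + p.2) : ℝ) < κ ∧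
    (rr T (p.1 + p.2) : ℝ) < κ)).card ≤ 3 * (Lt T Hu κ d).card + 3 * hp S Hu d

/-- EXN: the number of blocks in `T` whose number of good heavy directions is not one. -/
def T_EXN : Prop := ∀ (V : Type) [AddCommGroup V] [Module (ZMod 2) V] [Fintype V]
  (T G : Finset V) (κ D₀ : ℝ) (d : V), d ∈ T → 0 ∉ T → G = Gp T κ D₀ d →
  ((Bk T d).filter (fun p => nG G d p ≠ 1)).card ≤
    ((Bk T d).filter (fun p => (rr T (d + p.1) : ℝ) < κ ∧ (rr T (d + p.2) : ℝ) < κ ∧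
      (rr T (p.1 + p.2) : ℝ) < κ)).card + 6 * (Bad T κ D₀ d).card +
    3 * ((G ×ˢ G).filter (fun x => x.1 ≠ x.2 ∧ d + x.1 + x.2 ∈ T)).card

/-- EXC: the exceptional blocks have small total weight. -/
def T_EXC : Prop := ∃ Q₀ : ℝ, 1 ≤ Q₀ ∧ ∀ (Q : ℝ), Q₀ ≤ Q → ∀ (V : Type) [AddCommGroup V]
  [Module (ZMod 2) V] [Fintype V] (s : V → ℝ), Stk Q s → ∀ (T G : Finset V) (d : V),
  T = Lv Q 13022 s → G = Gp T (Q ^ 12760) (Q ^ 2500) d → d ∈ T →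
  (EE (Sp s) d : ℝ) ≤ Q ^ 26016 →
  ((Bad T (Q ^ 12760) (Q ^ 2500) d).card : ℝ) ≤ Q ^ 25976 →
  (((G ×ˢ G).filter (fun x => x.1 ≠ x.2 ∧ d + x.1 + x.2 ∈ T)).card : ℝ) ≤ Q ^ 25976 →
  (((Bk T d).filter (fun p => (rr T (d + p.1) : ℝ) < Q ^ 12760 ∧
    (rr T (d + p.2) : ℝ) < Q ^ 12760 ∧ (rr T (p.1 + p.2) : ℝ) < Q ^ 12760)).card : ℝ) ≤
    Q ^ 25976 →
  |∑ p ∈ Om d, (nG G d p - 1) * (s p.1 * s p.2 * s (d + p.1 + p.2))| * Q ^ 13003 ≤ et s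

/-- POP: the directions given by large coefficients are popular if `s 0` is not small. -/
def T_POP : Prop := ∃ Q₀ : ℝ, 1 ≤ Q₀ ∧ ∀ (Q : ℝ), Q₀ ≤ Q → ∀ (V : Type) [AddCommGroup V]
  [Module (ZMod 2) V] [Fintype V] (s : V → ℝ), Stk Q s → 1 ≤ |s 0| * Q ^ 6 →
  ∀ g ∈ Lv Q 13011 s, Q ^ 12981 ≤ (rr (Lv Q 13022 s) g : ℝ)

/-- EVA: the evaluation of the second identity. -/
def T_EVA : Prop := ∃ Q₀ : ℝ, 1 ≤ Q₀ ∧ ∀ (Q : ℝ), Q₀ ≤ Q → ∀ (V : Type) [AddCommGroup V]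
  [Module (ZMod 2) V] [Fintype V] (s : V → ℝ), Stk Q s → ∀ (T G : Finset V) (d : V),
  T = Lv Q 13022 s → G = Gp T (Q ^ 12760) (Q ^ 2500) d → d ∈ Lv Q 13001 s →
  ((Gm T (Q ^ 12760) d).card : ℝ) ≤ 2 * Q ^ 13256 →
  ((Bad T (Q ^ 12760) (Q ^ 2500) d).card : ℝ) ≤ Q ^ 25976 →
  (|s 0| * Q ≤ 1 ∧ |∑ g ∈ G, s (d + g) * (s d * s (d + g) + s 0 * s g)| ≤ |s d| / Q) ∨
  |∑ g ∈ G, s (d + g) * (s d * s (d + g) + s 0 * s g) + 2 * s 0 ^ 2 * s d| ≤ |s d| / Q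

/-- NOS: there are no stuck states. -/
def T_NOS : Prop := ∃ Q₀ : ℝ, 1 ≤ Q₀ ∧ ∀ (Q : ℝ), Q₀ ≤ Q → ∀ (V : Type) [AddCommGroup V]
  [Module (ZMod 2) V] [Fintype V] (s : V → ℝ), ¬ Stk Q s

/-! ### Part 5: the theorem -/

/-- STP: one step of the merging algorithm. -/
def T_STP : Prop := ∀ (Q : ℝ), 1 ≤ Q → ∀ (V : Type) [AddCommGroup V]
  [Module (ZMod 2) V] [Fintype V] (s : V → ℝ), Bl s → s 0 ≠ 0 → 0 < et s →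
  ((Sp s).card : ℝ) ≤ Q ^ 26000 → ¬ Stk Q s →
  ∃ (W : Submodule (ZMod 2) V) (l : Module.Dual (ZMod 2) V), W ≠ ⊥ ∧
    |s 0| ≤ |cs s W l 0| ∧
    ((Module.finrank (ZMod 2) W = 1 ∧ |s 0| + et s / Q ^ 12999 ≤ |cs s W l 0|) ∨
      (nq (Sp s) W : ℝ) + Q ^ 13001 * (Module.finrank (ZMod 2) W : ℝ) ≤ ((Sp s).card : ℝ))

/-- ITE: the merging algorithm. -/
def T_ITE : Prop := ∀ (Q : ℝ), 1 ≤ Q → (∀ (V : Type) [AddCommGroup V] [Module (ZMod 2) V]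
  [Fintype V] (s : V → ℝ), ¬ Stk Q s) → ∀ (V : Type) [AddCommGroup V] [Module (ZMod 2) V]
  [Fintype V] (s : V → ℝ), Bl s → s 0 ≠ 0 → ((Sp s).card : ℝ) ≤ Q ^ 26000 →
  ∃ (W : Submodule (ZMod 2) V) (l : Module.Dual (ZMod 2) V),
    (Module.finrank (ZMod 2) W : ℝ) ≤ 2 * Q ^ 12999 * Real.sqrt (1 - |s 0|) +
      ((Sp s).card : ℝ) / Q ^ 13001 ∧ ∀ v, v ∉ W → cs s W l v = 0

/-- ALG: the kill number in terms of the Fourier coefficients. -/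
def T_ALG : Prop := ∃ C : ℝ, 0 < C ∧ ∀ (V : Type) [AddCommGroup V] [Module (ZMod 2) V]
  [Fintype V] (s : V → ℝ), Bl s →
  ∃ (W : Submodule (ZMod 2) V) (l : Module.Dual (ZMod 2) V),
    (Module.finrank (ZMod 2) W : ℝ) ≤ C * ((Sp s).card : ℝ) ^ ((1 / 2 : ℝ) - 1 / 26000) ∧
    ∀ v, v ∉ W → cs s W l v = 0

/-- KIL: every Boolean function is constant on an affine subspace of small codimension. -/
def T_KIL : Prop := ∃ C : ℝ, 0 < C ∧ ∀ (E : Type) [AddCommGroup E] [Module (ZMod 2) E] [Finite E]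
  (f : E → Bool), ∃ (x₀ : E) (W : Submodule (ZMod 2) E),
    (Module.finrank (ZMod 2) E : ℝ) ≤
      C * (spa (ind f) : ℝ) ^ ((1 / 2 : ℝ) - 1 / 26000) + C + (Module.finrank (ZMod 2) W : ℝ) ∧
    ∀ w ∈ W, f (x₀ + w) = f x₀

/-- FNL: the theorem. -/
def T_FNL : Prop := ∃ C : ℝ, ∀ (n : ℕ) (f : (Fin n → ZMod 2) → Bool), ∃ d : ℕ,
  (d : ℝ) ≤ C * (xrk f : ℝ) ^ ((1 / 2 : ℝ) - 1 / 27000) ∧ Prot f d

end Pool.Agent.XPS
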